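import Pool.Agent.H6.CT.Defs
import Pool.Agent.H6.CB.GmEh

/-! The amplitudes. `za` is a partition of the real line: `∑ b ≤ L, za b y ^ 2 = 1` for `y ≤ L` (as for `zt`: where `smoothTransition (c + 1 - y) ≠ 0` one has `smoothTransition (c + 2 - y) = 1`), `za b y ≠ 0` implies `y < b + 1` and, for `b ≥ 1`, `b - 1 < y`; at most two of the `za b y` are nonzero and the derivatives are bounded. Let `y = arsinh (u p)`. `amp_am`: `|fA| ≤ exp (c (b + 1))`, `∑ exp (2 c (b + 1)) * exp (-(lam + 2 (b + 1))) ≤ exp (-lam) * ∑ exp (-(b + 1)) ≤ exp (-lam)`. `amp_x`: `b + 1 ≤ |y| + 2` where `za b y ≠ 0`. `amp_gm`: `∇ (za b y * ec c u * g) = ec c u * za b y * ∇ g + g * ec c u * (za b' y + c * za b y) * (1 + u ^ 2) ^ (-1/2) * ∇ u`, and `ec c u ^ 2 ≤ 2 * sqrt (1 + u ^ 2)` for `0 ≤ c ≤ 1/2`. -/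

open MeasureTheory Finset

namespace H6.CT

open H6.CM H6.CB H6.CL

/-- the members of the family of amplitudes -/
noncomputable def fA {n k : ℕ} (c : ℝ) (u g : Cfg n k → ℝ) (b : ℕ) (p : Cfg n k) : ℝ :=
  za b (Real.arsinh (u p)) * (ec c (u p) * g p)

private noncomputable def Gy (c : ℕ) (y : ℝ) : ℝ := Real.smoothTransition (c + 1 - y)

private theorem aq_0 (y : ℝ) : za 0 y = Real.sin (Real.pi / 2 * Gy 0 y) := by
  show Real.sin (Real.pi / 2 * Real.smoothTransition (1 - y)) = _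
  unfold Gy
  rw [Nat.cast_zero, zero_add]

private theorem aq_1 (c : ℕ) (y : ℝ) : za (c + 1) y = Real.cos (Real.pi / 2 * Gy c y) *
    Real.sin (Real.pi / 2 * Gy (c + 1) y) := by
  show Real.cos (Real.pi / 2 * Real.smoothTransition (c + 1 - y)) *
      Real.sin (Real.pi / 2 * Real.smoothTransition (c + 2 - y)) = _
  unfold Gy
  have h : (c : ℝ) + 2 - y = ((c + 1 : ℕ) : ℝ) + 1 - y := by
    push_cast
    ring
  rw [h]

private theorem aq_G1 (c : ℕ) (y : ℝ) (h : y ≤ c) : Gy c y = 1 := by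
  unfold Gy
  exact Real.smoothTransition.one_of_one_le (by linarith)

private theorem aq_G0 (c : ℕ) (y : ℝ) (h : (c : ℝ) + 1 ≤ y) : Gy c y = 0 := by
  unfold Gy
  exact Real.smoothTransition.zero_of_nonpos (by linarith)

private theorem aq_sin0 : Real.sin (Real.pi / 2 * 0) = 0 := by
  rw [mul_zero, Real.sin_zero]

private theorem aq_sin1 : Real.sin (Real.pi / 2 * 1) = 1 := by
  rw [mul_one, Real.sin_pi_div_two]

private theorem aq_cos1 : Real.cos (Real.pi / 2 * 1) = 0 := by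
  rw [mul_one, Real.cos_pi_div_two]

private theorem aq_Gs (c : ℕ) : ContDiff ℝ (⊤ : ℕ∞) (Gy c) := by
  unfold Gy
  exact Real.smoothTransition.contDiff.comp (contDiff_const.sub contDiff_id)

theorem za_smooth (b : ℕ) : ContDiff ℝ (⊤ : ℕ∞) (za b) := by
  cases b with
  | zero =>
    have h : za 0 = fun y => Real.sin (Real.pi / 2 * Gy 0 y) := funext aq_0
    rw [h]
    exact Real.contDiff_sin.comp (contDiff_const.mul (aq_Gs 0))
  | succ c =>
    have h : za (c + 1) = fun y => Real.cos (Real.pi / 2 * Gy c y) *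
      Real.sin (Real.pi / 2 * Gy (c + 1) y) := funext (aq_1 c)
    rw [h]
    exact (Real.contDiff_cos.comp (contDiff_const.mul (aq_Gs c))).mul
      (Real.contDiff_sin.comp (contDiff_const.mul (aq_Gs (c + 1))))

private theorem aq_sum (L : ℕ) (y : ℝ) : ∑ b ∈ range (L + 1), za b y ^ 2 =
    Real.sin (Real.pi / 2 * Gy L y) ^ 2 := by
  induction L with
  | zero =>
    rw [zero_add, sum_range_one, aq_0]
  | succ L ih =>
    rw [sum_range_succ, ih, aq_1]
    by_cases h : y ≤ ((L + 1 : ℕ) : ℝ)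
    · rw [aq_G1 (L + 1) y h, aq_sin1, mul_one, Real.sin_sq_add_cos_sq, one_pow]
    · have h1 : (L : ℝ) + 1 ≤ y := by
        push Not at h
        push_cast at h
        exact h.le
      rw [aq_G0 L y h1, aq_sin0, mul_zero, Real.cos_zero]
      ring

theorem za_sum (L : ℕ) (y : ℝ) (hy : y ≤ L) : ∑ b ∈ range (L + 1), za b y ^ 2 = 1 := by
  rw [aq_sum, aq_G1 L y hy, aq_sin1, one_pow]

private theorem aq_sum_le (L : ℕ) (y : ℝ) : ∑ b ∈ range (L + 1), za b y ^ 2 ≤ 1 := by
  rw [aq_sum]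
  exact Real.sin_sq_le_one _

private theorem aq_le (b : ℕ) (y : ℝ) : |za b y| ≤ 1 := by
  cases b with
  | zero =>
    rw [aq_0]
    exact Real.abs_sin_le_one _
  | succ c =>
    rw [aq_1, abs_mul]
    exact mul_le_one₀ (Real.abs_cos_le_one _) (abs_nonneg _) (Real.abs_sin_le_one _)

private theorem aq_hi (b : ℕ) (y : ℝ) (h : za b y ≠ 0) : y < b + 1 := by
  by_contra hc
  push Not at hc
  apply h
  cases b with
  | zero => rw [aq_0, aq_G0 0 y hc, aq_sin0]
  | succ c => rw [aq_1, aq_G0 (c + 1) y hc, aq_sin0, mul_zero]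

private theorem aq_lo (b : ℕ) (y : ℝ) (h : za b y ≠ 0) : (b : ℝ) + 1 ≤ |y| + 2 := by
  have h0 : 0 ≤ |y| := abs_nonneg y
  cases b with
  | zero =>
    push_cast
    linarith
  | succ c =>
    have h1 : (c : ℝ) < y := by
      by_contra hc
      push Not at hc
      apply h
      rw [aq_1, aq_G1 c y hc, aq_cos1, zero_mul]
    have h2 := le_abs_self y
    push_cast
    linarith

private theorem aq_e2 : 2 * Real.exp (-1) ≤ 1 := by
  have h1 : (2 : ℝ) ≤ Real.exp 1 := by
    have := Real.add_one_le_exp (1 : ℝ)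
    linarith
  have h2 : Real.exp (-1) * Real.exp 1 = 1 := by
    rw [← Real.exp_add]
    norm_num
  nlinarith [Real.exp_pos (-1)]

private theorem aq_es (N : ℕ) :
    ∑ b ∈ range N, Real.exp (-((b : ℝ) + 1)) ≤ 1 - Real.exp (-(N : ℝ)) := by
  induction N with
  | zero => simp
  | succ N ih =>
    rw [sum_range_succ]
    have h1 : Real.exp (-((N : ℝ) + 1)) = Real.exp (-(N : ℝ)) * Real.exp (-1) := by
      rw [← Real.exp_add]
      congr 1
      ring
    push_cast
    rw [h1] at *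
    have h2 := mul_le_mul_of_nonneg_left aq_e2 (Real.exp_pos (-(N : ℝ))).le
    linarith

private theorem aq_ec (c u : ℝ) : 0 < ec c u := Real.exp_pos _

private theorem aq_ecs (c : ℝ) : ContDiff ℝ (⊤ : ℕ∞) (ec c) := by
  unfold ec
  exact Real.contDiff_exp.comp (contDiff_const.mul Real.contDiff_arsinh)

theorem amp_am {n k : ℕ} (c : ℝ) (hc : 0 ≤ c) (hc1 : c ≤ 1 / 2) (lam : ℝ) (L : ℕ)
    (u g : Cfg n k → ℝ) (hu : ContDiff ℝ (⊤ : ℕ∞) u) (hus : Sy u)
    (hg : ContDiff ℝ (⊤ : ℕ∞) g) (hgs : Sy g) (hg1 : ∀ p, 0 ≤ g p ∧ g p ≤ 1)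
    (hl : 0 ≤ lam) :
    Am (fun b : Fin (L + 1) => fA c u g b) (fun b => Real.exp (c * (b + 1)))
      (fun b => lam + 2 * (b + 1)) (Real.exp (-lam)) where
  smooth b := ((za_smooth b).comp (Real.contDiff_arsinh.comp hu)).mul
    (((aq_ecs c).comp hu).mul hg)
  sy b π p := by
    show za b (Real.arsinh (u (p.1 ∘ π, p.2))) * (ec c (u (p.1 ∘ π, p.2)) * g (p.1 ∘ π, p.2)) = _
    rw [hus π p, hgs π p]
    rfl
  bd b p := by
    show |za b (Real.arsinh (u p)) * (ec c (u p) * g p)| ≤ Real.exp (c * (b + 1))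
    by_cases h : za b (Real.arsinh (u p)) = 0
    · rw [h, zero_mul, abs_zero]
      exact (Real.exp_pos _).le
    · have h1 := aq_hi b _ h
      rw [abs_mul, abs_mul, abs_of_pos (aq_ec _ _), abs_of_nonneg (hg1 p).1]
      have h2 : ec c (u p) ≤ Real.exp (c * (b + 1)) := by
        unfold ec
        exact Real.exp_le_exp.2 (mul_le_mul_of_nonneg_left h1.le hc)
      calc |za b (Real.arsinh (u p))| * (ec c (u p) * g p)
          ≤ 1 * (Real.exp (c * (b + 1)) * 1) :=
            mul_le_mul (aq_le _ _) (mul_le_mul h2 (hg1 p).2 (hg1 p).1 (Real.exp_pos _).le)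
              (mul_nonneg (aq_ec _ _).le (hg1 p).1) zero_le_one
        _ = _ := by ring
  xn b := by positivity
  sum := by
    have h1 : ∀ b : Fin (L + 1), Real.exp (c * ((b : ℝ) + 1)) ^ 2 *
        Real.exp (-(lam + 2 * ((b : ℝ) + 1))) ≤
        Real.exp (-lam) * Real.exp (-((b : ℝ) + 1)) := by
      intro b
      rw [← Real.exp_nat_mul, ← Real.exp_add, ← Real.exp_add]
      refine Real.exp_le_exp.2 ?_
      push_cast
      have h2 : (0 : ℝ) ≤ (b : ℝ) + 1 := by positivity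
      nlinarith
    refine (sum_le_sum fun b _ => h1 b).trans ?_
    rw [← mul_sum, Fin.sum_univ_eq_sum_range (fun b : ℕ => Real.exp (-((b : ℝ) + 1))) (L + 1)]
    have h3 := aq_es (L + 1)
    have h4 : ∑ b ∈ range (L + 1), Real.exp (-((b : ℝ) + 1)) ≤ 1 := by
      have := Real.exp_pos (-((L + 1 : ℕ) : ℝ))
      linarith
    calc Real.exp (-lam) * ∑ b ∈ range (L + 1), Real.exp (-((b : ℝ) + 1))
        ≤ Real.exp (-lam) * 1 := mul_le_mul_of_nonneg_left h4 (Real.exp_pos _).le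
      _ = _ := mul_one _

private theorem aq_fs {n k : ℕ} (c : ℝ) (L : ℕ) (u g : Cfg n k → ℝ) (p : Cfg n k)
    (hL : Real.arsinh (u p) ≤ L) :
    ∑ b ∈ range (L + 1), fA c u g b p ^ 2 = ec c (u p) ^ 2 * g p ^ 2 := by
  have h1 : ∀ b, fA c u g b p ^ 2 = ec c (u p) ^ 2 * g p ^ 2 * za b (Real.arsinh (u p)) ^ 2 := by
    intro b
    unfold fA
    ring
  rw [sum_congr rfl fun b _ => h1 b, ← mul_sum, za_sum L _ hL, mul_one]

theorem amp_sum {n k : ℕ} (c : ℝ) (L : ℕ) (u g : Cfg n k → ℝ) (p : Cfg n k)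
    (hL : Real.arsinh (u p) ≤ L) :
    ∑ b : Fin (L + 1), fA c u g b p ^ 2 = ec c (u p) ^ 2 * g p ^ 2 := by
  rw [Fin.sum_univ_eq_sum_range (fun b : ℕ => fA c u g b p ^ 2) (L + 1)]
  exact aq_fs c L u g p hL

theorem amp_x {n k : ℕ} (c lam : ℝ) (hl : 0 ≤ lam) (L : ℕ) (u g : Cfg n k → ℝ)
    (p : Cfg n k) (hL : Real.arsinh (u p) ≤ L) :
    ∑ b : Fin (L + 1), (lam + 2 * ((b : ℝ) + 1)) * fA c u g b p ^ 2 ≤
      (lam + 4 + 2 * |Real.arsinh (u p)|) * (ec c (u p) ^ 2 * g p ^ 2) := by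
  rw [← amp_sum c L u g p hL, mul_sum]
  refine sum_le_sum fun b _ => ?_
  by_cases h : za b (Real.arsinh (u p)) = 0
  · have h1 : fA c u g b p = 0 := by
      unfold fA
      rw [h, zero_mul]
    rw [h1]
    simp
  · have h1 := aq_lo b _ h
    refine mul_le_mul_of_nonneg_right ?_ (sq_nonneg _)
    linarith

theorem amp_M (c : ℝ) (hc : 0 ≤ c) (hc1 : c ≤ 1 / 2) (L : ℕ) :
    ∑ b : Fin (L + 1), Real.exp (c * ((b : ℝ) + 1)) ^ 2 ≤ 2 * Real.exp (L + 1) := by
  rw [Fin.sum_univ_eq_sum_range (fun b : ℕ => Real.exp (c * ((b : ℝ) + 1)) ^ 2) (L + 1)]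
  have h1 : ∀ b : ℕ, Real.exp (c * ((b : ℝ) + 1)) ^ 2 ≤ Real.exp ((b : ℝ) + 1) := by
    intro b
    rw [← Real.exp_nat_mul]
    refine Real.exp_le_exp.2 ?_
    push_cast
    have h2 : (0 : ℝ) ≤ (b : ℝ) + 1 := by positivity
    nlinarith
  refine (sum_le_sum fun b _ => h1 b).trans ?_
  induction L with
  | zero =>
    rw [zero_add, sum_range_one]
    have := Real.exp_pos (((0 : ℕ) : ℝ) + 1)
    linarith
  | succ L ih =>
    rw [sum_range_succ]
    have h2 : Real.exp (((L + 1 : ℕ) : ℝ) + 1) = Real.exp ((L : ℝ) + 1) * Real.exp 1 := by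
      rw [← Real.exp_add]
      congr 1
      push_cast
      ring
    have h3 : (2 : ℝ) ≤ Real.exp 1 := by
      have := Real.add_one_le_exp (1 : ℝ)
      linarith
    have h4 := mul_le_mul_of_nonneg_left h3 (Real.exp_pos ((L : ℝ) + 1)).le
    rw [← h2] at h4
    linarith

private theorem aq_st0 (x : ℝ) (h : deriv Real.smoothTransition x ≠ 0) : 0 < x ∧ x < 1 := by
  constructor
  · by_contra hx
    push Not at hx
    apply h
    have h1 : IsLocalMin Real.smoothTransition x := Filter.Eventually.of_forall fun u => by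
      show Real.smoothTransition x ≤ Real.smoothTransition u
      rw [Real.smoothTransition.zero_of_nonpos hx]
      exact Real.smoothTransition.nonneg u
    exact h1.deriv_eq_zero
  · by_contra hx
    push Not at hx
    apply h
    have h1 : IsLocalMax Real.smoothTransition x := Filter.Eventually.of_forall fun u => by
      show Real.smoothTransition u ≤ Real.smoothTransition x
      rw [Real.smoothTransition.one_of_one_le hx]
      exact Real.smoothTransition.le_one u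
    exact h1.deriv_eq_zero

private theorem aq_stb : ∃ K : ℝ, 0 ≤ K ∧ ∀ t, |deriv Real.smoothTransition t| ≤ K := by
  have hc : Continuous (deriv Real.smoothTransition) :=
    (Real.smoothTransition.contDiff (n := 1)).continuous_deriv le_rfl
  obtain ⟨K, hK⟩ := (isCompact_Icc (a := (0 : ℝ)) (b := 1)).exists_bound_of_continuousOn
    hc.continuousOn
  refine ⟨max K 0, le_max_right _ _, fun t => ?_⟩
  by_cases ht : deriv Real.smoothTransition t = 0
  · rw [ht, abs_zero]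
    exact le_max_right _ _
  · have h1 := aq_st0 t ht
    exact (hK t ⟨h1.1.le, h1.2.le⟩).trans (le_max_left _ _)

private theorem aq_Gd (c : ℕ) (y : ℝ) : HasDerivAt (Gy c)
    (-deriv Real.smoothTransition (c + 1 - y)) y := by
  have h1 : HasDerivAt (fun y : ℝ => (c : ℝ) + 1 - y) (-1) y :=
    (hasDerivAt_id y).const_sub _
  have h2 : HasDerivAt Real.smoothTransition (deriv Real.smoothTransition (c + 1 - y))
      (c + 1 - y) :=
    (((Real.smoothTransition.contDiff (n := 1)).differentiable one_ne_zero) _).hasDerivAt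
  have h3 := h2.comp y h1
  rw [mul_neg, mul_one] at h3
  exact h3

private theorem aq_d0 (t : ℝ) : deriv (za 0) t =
    Real.cos (Real.pi / 2 * Gy 0 t) * (Real.pi / 2 * deriv (Gy 0) t) := by
  have h1 : HasDerivAt (Gy 0) (deriv (Gy 0) t) t := by
    rw [(aq_Gd 0 t).deriv]
    exact aq_Gd 0 t
  have h2 : HasDerivAt (fun t => Real.sin (Real.pi / 2 * Gy 0 t))
      (Real.cos (Real.pi / 2 * Gy 0 t) * (Real.pi / 2 * deriv (Gy 0) t)) t :=
    (h1.const_mul (Real.pi / 2)).sin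
  have h : za 0 = fun y => Real.sin (Real.pi / 2 * Gy 0 y) := funext aq_0
  rw [h]
  exact h2.deriv

private theorem aq_d1 (c : ℕ) (t : ℝ) : deriv (za (c + 1)) t =
    -Real.sin (Real.pi / 2 * Gy c t) * (Real.pi / 2 * deriv (Gy c) t) *
      Real.sin (Real.pi / 2 * Gy (c + 1) t) + Real.cos (Real.pi / 2 * Gy c t) *
      (Real.cos (Real.pi / 2 * Gy (c + 1) t) * (Real.pi / 2 * deriv (Gy (c + 1)) t)) := by
  have h0 : ∀ c, HasDerivAt (Gy c) (deriv (Gy c) t) t := by
    intro c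
    rw [(aq_Gd c t).deriv]
    exact aq_Gd c t
  have h2 : HasDerivAt (fun t => Real.cos (Real.pi / 2 * Gy c t) *
      Real.sin (Real.pi / 2 * Gy (c + 1) t))
      (-Real.sin (Real.pi / 2 * Gy c t) * (Real.pi / 2 * deriv (Gy c) t) *
      Real.sin (Real.pi / 2 * Gy (c + 1) t) + Real.cos (Real.pi / 2 * Gy c t) *
      (Real.cos (Real.pi / 2 * Gy (c + 1) t) * (Real.pi / 2 * deriv (Gy (c + 1)) t))) t :=
    ((h0 c).const_mul (Real.pi / 2)).cos.mul ((h0 (c + 1)).const_mul (Real.pi / 2)).sin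
  have h : za (c + 1) = fun y => Real.cos (Real.pi / 2 * Gy c y) *
      Real.sin (Real.pi / 2 * Gy (c + 1) y) := funext (aq_1 c)
  rw [h]
  exact h2.deriv

private theorem aq_sq (a b x : ℝ) (ha : |a| ≤ 1) (hb : |b| ≤ 1) :
    (a * (b * (Real.pi / 2 * x))) ^ 2 ≤ 4 * x ^ 2 := by
  have h1 : (Real.pi / 2) ^ 2 ≤ 4 := by
    nlinarith [Real.pi_le_four, Real.pi_pos]
  have ha2 : a ^ 2 ≤ 1 := by
    rw [← sq_abs]
    exact pow_le_one₀ (abs_nonneg _) ha
  have hb2 : b ^ 2 ≤ 1 := by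
    rw [← sq_abs]
    exact pow_le_one₀ (abs_nonneg _) hb
  calc (a * (b * (Real.pi / 2 * x))) ^ 2 = a ^ 2 * (b ^ 2 * ((Real.pi / 2) ^ 2 * x ^ 2)) := by ring
    _ ≤ 1 * (1 * (4 * x ^ 2)) := by gcongr
    _ = 4 * x ^ 2 := by ring

private theorem aq_dsum (L : ℕ) (t : ℝ) : ∑ c ∈ range (L + 1), deriv (za c) t ^ 2 ≤
    16 * ∑ c ∈ range (L + 1), deriv (Gy c) t ^ 2 := by
  have key : ∑ c ∈ range (L + 1), deriv (za c) t ^ 2 ≤
      16 * ∑ c ∈ range (L + 1), deriv (Gy c) t ^ 2 - 8 * deriv (Gy L) t ^ 2 := by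
    induction L with
    | zero =>
      rw [zero_add, sum_range_one, sum_range_one, aq_d0]
      have h1 := aq_sq 1 (Real.cos (Real.pi / 2 * Gy 0 t)) (deriv (Gy 0) t) (by norm_num)
        (Real.abs_cos_le_one _)
      rw [one_mul] at h1
      have h2 := sq_nonneg (deriv (Gy 0) t)
      linarith
    | succ L ih =>
      rw [sum_range_succ, sum_range_succ (fun c => deriv (Gy c) t ^ 2), aq_d1]
      have h1 := aq_sq (Real.sin (Real.pi / 2 * Gy (L + 1) t))
        (-Real.sin (Real.pi / 2 * Gy L t)) (deriv (Gy L) t) (Real.abs_sin_le_one _)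
        (by rw [abs_neg]; exact Real.abs_sin_le_one _)
      have h2 := aq_sq (Real.cos (Real.pi / 2 * Gy L t))
        (Real.cos (Real.pi / 2 * Gy (L + 1) t)) (deriv (Gy (L + 1)) t) (Real.abs_cos_le_one _)
        (Real.abs_cos_le_one _)
      have h3 : ∀ x y : ℝ, (x + y) ^ 2 ≤ 2 * (x ^ 2 + y ^ 2) := fun x y => by
        nlinarith [sq_nonneg (x - y)]
      have h4 := h3 (-Real.sin (Real.pi / 2 * Gy L t) * (Real.pi / 2 * deriv (Gy L) t) *
        Real.sin (Real.pi / 2 * Gy (L + 1) t)) (Real.cos (Real.pi / 2 * Gy L t) *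
        (Real.cos (Real.pi / 2 * Gy (L + 1) t) * (Real.pi / 2 * deriv (Gy (L + 1)) t)))
      have h5 : -Real.sin (Real.pi / 2 * Gy L t) * (Real.pi / 2 * deriv (Gy L) t) *
        Real.sin (Real.pi / 2 * Gy (L + 1) t) = Real.sin (Real.pi / 2 * Gy (L + 1) t) *
        (-Real.sin (Real.pi / 2 * Gy L t) * (Real.pi / 2 * deriv (Gy L) t)) := by ring
      rw [h5] at h4 ⊢
      linarith
  have := sq_nonneg (deriv (Gy L) t)
  linarith

private theorem aq_deriv : ∃ D : ℝ, 0 ≤ D ∧ ∀ (L : ℕ) (t : ℝ),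
    ∑ c ∈ range (L + 1), deriv (za c) t ^ 2 ≤ D := by
  obtain ⟨K, hK0, hK⟩ := aq_stb
  refine ⟨16 * K ^ 2, by positivity, fun L t => ?_⟩
  refine (aq_dsum L t).trans ?_
  refine mul_le_mul_of_nonneg_left ?_ (by norm_num)
  have hne : ∀ c, deriv (Gy c) t ≠ 0 → (c : ℝ) < t ∧ t < c + 1 := by
    intro c hc
    rw [(aq_Gd c t).deriv, neg_ne_zero] at hc
    have h1 := aq_st0 _ hc
    exact ⟨by linarith [h1.2], by linarith [h1.1]⟩
  have hb : ∀ c, deriv (Gy c) t ^ 2 ≤ K ^ 2 := by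
    intro c
    rw [(aq_Gd c t).deriv, neg_sq, ← sq_abs]
    exact pow_le_pow_left₀ (abs_nonneg _) (hK _) 2
  by_cases hex : ∃ c ∈ range (L + 1), deriv (Gy c) t ≠ 0
  · obtain ⟨c0, hc0, h0⟩ := hex
    rw [sum_eq_single c0]
    · exact hb c0
    · intro c _ hcc
      have h1 : deriv (Gy c) t = 0 := by
        by_contra h2
        have h3 := hne c h2
        have h4 := hne c0 h0
        have h5 : (c : ℝ) < ((c0 + 1 : ℕ) : ℝ) := by
          push_cast
          linarith [h3.1, h4.2]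
        have h6 : (c0 : ℝ) < ((c + 1 : ℕ) : ℝ) := by
          push_cast
          linarith [h4.1, h3.2]
        rw [Nat.cast_lt] at h5 h6
        omega
      rw [h1]
      norm_num
    · intro h
      exact absurd hc0 h
  · push Not at hex
    rw [sum_eq_zero fun c hc => by rw [hex c hc]; norm_num]
    positivity

private theorem aq_one (H : ℝ → ℝ) (hH : Differentiable ℝ H) (f g : E3 → ℝ) (v : E3)
    (hf : DifferentiableAt ℝ f v) (hg : DifferentiableAt ℝ g v) :
    gr (fun u => H (f u) * g u) v ≤ 2 * H (f v) ^ 2 * gr g v +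
      2 * (g v ^ 2 * deriv H (f v) ^ 2) * gr f v := by
  have he : HasDerivAt H (deriv H (f v)) (f v) := (hH (f v)).hasDerivAt
  have h1 : HasFDerivAt (fun u => H (f u)) (deriv H (f v) • fderiv ℝ f v) v :=
    he.comp_hasFDerivAt v hf.hasFDerivAt
  have h2 : HasFDerivAt (fun u => H (f u) * g u)
      (H (f v) • fderiv ℝ g v + g v • (deriv H (f v) • fderiv ℝ f v)) v :=
    h1.mul hg.hasFDerivAt
  unfold gr
  rw [h2.fderiv, mul_sum, mul_sum, ← sum_add_distrib]
  refine sum_le_sum fun d _ => ?_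
  have e : (H (f v) • fderiv ℝ g v + g v • (deriv H (f v) • fderiv ℝ f v))
      (EuclideanSpace.single d 1) = H (f v) * fderiv ℝ g v (EuclideanSpace.single d 1) +
      g v * (deriv H (f v) * fderiv ℝ f v (EuclideanSpace.single d 1)) := by
    simp only [ContinuousLinearMap.add_apply, ContinuousLinearMap.smul_apply, smul_eq_mul]
  rw [e]
  generalize fderiv ℝ g v (EuclideanSpace.single d 1) = x
  generalize fderiv ℝ f v (EuclideanSpace.single d 1) = y
  have i1 : (H (f v) * x + g v * (deriv H (f v) * y)) ^ 2 ≤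
      2 * (H (f v) * x) ^ 2 + 2 * (g v * (deriv H (f v) * y)) ^ 2 := by
    nlinarith [sq_nonneg (H (f v) * x - g v * (deriv H (f v) * y))]
  refine i1.trans (le_of_eq ?_)
  ring

private theorem aq_upE {n k : ℕ} (F : Cfg n k → ℝ)
    (hF : Differentiable ℝ F) (q : Cfg n k) (b : Fin n) (v : E3) :
    DifferentiableAt ℝ (fun v => F (Function.update q.1 b v, q.2)) v := by
  have h1 : DifferentiableAt ℝ (fun v : E3 => ((Function.update q.1 b v, q.2) : Cfg n k)) v :=
    ((hasFDerivAt_update q.1 v).differentiableAt).prodMk (differentiableAt_const _)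
  exact (hF _).comp v h1

private theorem aq_upN {n k : ℕ} (F : Cfg n k → ℝ)
    (hF : Differentiable ℝ F) (q : Cfg n k) (b : Fin k) (v : E3) :
    DifferentiableAt ℝ (fun v => F (q.1, Function.update q.2 b v)) v := by
  have h1 : DifferentiableAt ℝ (fun v : E3 => ((q.1, Function.update q.2 b v) : Cfg n k)) v :=
    (differentiableAt_const _).prodMk ((hasFDerivAt_update q.2 v).differentiableAt)
  exact (hF _).comp v h1

private theorem aq_Gm {n k : ℕ} {κ : Fin k → ℝ} (hκ : ∀ j, 0 ≤ κ j) (H : ℝ → ℝ)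
    (hH : Differentiable ℝ H) (u g : Cfg n k → ℝ)
    (hu : Differentiable ℝ u) (hg : Differentiable ℝ g) (p : Cfg n k) :
    Gm κ (fun p => H (u p) * g p) p ≤
      2 * H (u p) ^ 2 * Gm κ g p + 2 * (g p ^ 2 * deriv H (u p) ^ 2) * Gm κ u p := by
  have hE : ∀ a : Fin n, gr (fun v => H (u (Function.update p.1 a v, p.2)) *
      g (Function.update p.1 a v, p.2)) (p.1 a) ≤
      2 * H (u p) ^ 2 * gr (fun v => g (Function.update p.1 a v, p.2)) (p.1 a) +
        2 * (g p ^ 2 * deriv H (u p) ^ 2) *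
          gr (fun v => u (Function.update p.1 a v, p.2)) (p.1 a) := by
    intro a
    have h := aq_one H hH (fun v => u (Function.update p.1 a v, p.2))
      (fun v => g (Function.update p.1 a v, p.2)) (p.1 a) (aq_upE u hu p a _)
      (aq_upE g hg p a _)
    simp only [Function.update_eq_self] at h
    exact h
  have hN : ∀ j : Fin k, gr (fun v => H (u (p.1, Function.update p.2 j v)) *
      g (p.1, Function.update p.2 j v)) (p.2 j) ≤
      2 * H (u p) ^ 2 * gr (fun v => g (p.1, Function.update p.2 j v)) (p.2 j) +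
        2 * (g p ^ 2 * deriv H (u p) ^ 2) *
          gr (fun v => u (p.1, Function.update p.2 j v)) (p.2 j) := by
    intro j
    have h := aq_one H hH (fun v => u (p.1, Function.update p.2 j v))
      (fun v => g (p.1, Function.update p.2 j v)) (p.2 j) (aq_upN u hu p j _)
      (aq_upN g hg p j _)
    simp only [Function.update_eq_self] at h
    exact h
  have h1 := sum_le_sum (s := (univ : Finset (Fin n))) fun a _ => hE a
  have h2 := sum_le_sum (s := (univ : Finset (Fin k))) fun j _ =>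
    mul_le_mul_of_nonneg_left (hN j) (hκ j)
  unfold Gm
  generalize 2 * H (u p) ^ 2 = A at *
  generalize 2 * (g p ^ 2 * deriv H (u p) ^ 2) = B at *
  have h3 : A *
      (∑ a, gr (fun v => g (Function.update p.1 a v, p.2)) (p.1 a) +
        ∑ j, κ j * gr (fun v => g (p.1, Function.update p.2 j v)) (p.2 j)) +
      B * (∑ a, gr (fun v => u (Function.update p.1 a v, p.2)) (p.1 a) +
        ∑ j, κ j * gr (fun v => u (p.1, Function.update p.2 j v)) (p.2 j)) =
      ∑ a, (A * gr (fun v => g (Function.update p.1 a v, p.2)) (p.1 a) +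
        B * gr (fun v => u (Function.update p.1 a v, p.2)) (p.1 a)) +
      ∑ j, κ j * (A * gr (fun v => g (p.1, Function.update p.2 j v)) (p.2 j) +
        B * gr (fun v => u (p.1, Function.update p.2 j v)) (p.2 j)) := by
    have h4 : ∀ j, κ j * (A *
        gr (fun v => g (p.1, Function.update p.2 j v)) (p.2 j) +
        B * gr (fun v => u (p.1, Function.update p.2 j v)) (p.2 j)) =
        A * (κ j * gr (fun v => g (p.1, Function.update p.2 j v)) (p.2 j)) +
        B * (κ j * gr (fun v => u (p.1, Function.update p.2 j v)) (p.2 j)) := fun j => by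
      ring
    rw [sum_congr rfl fun j _ => h4 j, sum_add_distrib, sum_add_distrib, ← mul_sum, ← mul_sum,
      ← mul_sum, ← mul_sum]
    ring
  rw [h3]
  exact add_le_add h1 h2

private theorem aq_Gmn {n k : ℕ} {κ : Fin k → ℝ} (hκ : ∀ j, 0 ≤ κ j) (f : Cfg n k → ℝ)
    (p : Cfg n k) : 0 ≤ Gm κ f p := by
  unfold Gm gr
  exact add_nonneg (sum_nonneg fun _ _ => sum_nonneg fun _ _ => sq_nonneg _)
    (sum_nonneg fun j _ => mul_nonneg (hκ j) (sum_nonneg fun _ _ => sq_nonneg _))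

private theorem aq_ec2 (c : ℝ) (hc : 0 ≤ c) (hc1 : c ≤ 1 / 2) (u : ℝ) :
    ec c u ^ 2 * ((Real.sqrt (1 + u ^ 2))⁻¹) ^ 2 ≤ 2 := by
  have hs : 1 ≤ Real.sqrt (1 + u ^ 2) := by
    rw [Real.one_le_sqrt]
    nlinarith [sq_nonneg u]
  have hs2 : Real.sqrt (1 + u ^ 2) ^ 2 = 1 + u ^ 2 := Real.sq_sqrt (by positivity)
  have hu : |u| ≤ Real.sqrt (1 + u ^ 2) := by
    rw [← Real.sqrt_sq_eq_abs]
    exact Real.sqrt_le_sqrt (by linarith)
  have h1 : ec c u ^ 2 ≤ 2 * Real.sqrt (1 + u ^ 2) := by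
    have h2 : ec c u ^ 2 ≤ Real.exp (max 0 (Real.arsinh u)) := by
      unfold ec
      rw [← Real.exp_nat_mul]
      refine Real.exp_le_exp.2 ?_
      push_cast
      rcases le_total 0 (Real.arsinh u) with h | h
      · rw [max_eq_right h]
        nlinarith
      · rw [max_eq_left h]
        nlinarith
    refine h2.trans ?_
    rcases le_total 0 (Real.arsinh u) with h | h
    · rw [max_eq_right h, Real.exp_arsinh]
      linarith [le_abs_self u]
    · rw [max_eq_left h, Real.exp_zero]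
      linarith
  have h3 : 0 < (Real.sqrt (1 + u ^ 2))⁻¹ := by positivity
  have h4 : (Real.sqrt (1 + u ^ 2))⁻¹ ≤ 1 := inv_le_one_of_one_le₀ hs
  have h5 : Real.sqrt (1 + u ^ 2) * (Real.sqrt (1 + u ^ 2))⁻¹ = 1 :=
    mul_inv_cancel₀ (by positivity)
  calc ec c u ^ 2 * ((Real.sqrt (1 + u ^ 2))⁻¹) ^ 2
      ≤ 2 * Real.sqrt (1 + u ^ 2) * ((Real.sqrt (1 + u ^ 2))⁻¹) ^ 2 :=
        mul_le_mul_of_nonneg_right h1 (by positivity)
    _ = 2 * (Real.sqrt (1 + u ^ 2) * (Real.sqrt (1 + u ^ 2))⁻¹) *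
        (Real.sqrt (1 + u ^ 2))⁻¹ := by ring
    _ ≤ 2 := by
        rw [h5]
        linarith

theorem amp_gm : ∃ C : ℝ, 0 ≤ C ∧ ∀ {n k : ℕ} {κ : Fin k → ℝ} (_ : ∀ j, 0 ≤ κ j) (c : ℝ)
    (_ : 0 ≤ c) (_ : c ≤ 1 / 2) (L : ℕ) (u g : Cfg n k → ℝ) (_ : ContDiff ℝ (⊤ : ℕ∞) u)
    (_ : ContDiff ℝ (⊤ : ℕ∞) g) (p : Cfg n k),
    ∑ b : Fin (L + 1), Gm κ (fA c u g b) p ≤
      2 * (ec c (u p) ^ 2 * Gm κ g p) + C * (g p ^ 2 * Gm κ u p) := by
  obtain ⟨D, hD0, hD⟩ := aq_deriv
  refine ⟨8 * (D + 1), by positivity, ?_⟩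
  intro n k κ hκ c hc hc1 L u g hu hg p
  have hu' : Differentiable ℝ u := hu.differentiable (by simp)
  have hg' : Differentiable ℝ g := hg.differentiable (by simp)
  -- the real functions
  obtain ⟨H, hH⟩ : ∃ H : ℕ → ℝ → ℝ, H = fun b y => za b (Real.arsinh y) * ec c y := ⟨_, rfl⟩
  have hHd : ∀ b y, HasDerivAt (H b) ((deriv (za b) (Real.arsinh y) + c * za b (Real.arsinh y)) *
      ((Real.sqrt (1 + y ^ 2))⁻¹ * ec c y)) y := by
    intro b y
    have h1 : HasDerivAt (za b) (deriv (za b) (Real.arsinh y)) (Real.arsinh y) :=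
      (((za_smooth b).differentiable (by simp)) _).hasDerivAt
    have h2 := h1.comp y (Real.hasDerivAt_arsinh y)
    have h3 : HasDerivAt (ec c) (Real.exp (c * Real.arsinh y) *
        (c * (Real.sqrt (1 + y ^ 2))⁻¹)) y :=
      ((Real.hasDerivAt_arsinh y).const_mul c).exp
    have h4 := h2.mul h3
    rw [hH]
    refine h4.congr_deriv ?_
    show deriv (za b) (Real.arsinh y) * (Real.sqrt (1 + y ^ 2))⁻¹ * ec c y +
      za b (Real.arsinh y) * (ec c y * (c * (Real.sqrt (1 + y ^ 2))⁻¹)) = _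
    ring
  have hHdiff : ∀ b, Differentiable ℝ (H b) := fun b y => (hHd b y).differentiableAt
  have e1 : ∀ b : ℕ, fA c u g b = fun p => H b (u p) * g p := by
    intro b
    funext p
    rw [hH]
    unfold fA
    ring
  have i1 : ∀ b : ℕ, Gm κ (fA c u g b) p ≤ 2 * H b (u p) ^ 2 * Gm κ g p +
      2 * (g p ^ 2 * deriv (H b) (u p) ^ 2) * Gm κ u p := by
    intro b
    rw [e1 b]
    exact aq_Gm hκ (H b) (hHdiff b) u g hu' hg' p
  rw [Fin.sum_univ_eq_sum_range (fun b : ℕ => Gm κ (fA c u g b) p) (L + 1)]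
  refine (sum_le_sum fun b _ => i1 b).trans ?_
  rw [sum_add_distrib]
  have s1 : ∑ b ∈ range (L + 1), H b (u p) ^ 2 ≤ ec c (u p) ^ 2 := by
    have h1 : ∀ b, H b (u p) ^ 2 = ec c (u p) ^ 2 * za b (Real.arsinh (u p)) ^ 2 := by
      intro b
      rw [hH]
      ring
    rw [sum_congr rfl fun b _ => h1 b, ← mul_sum]
    have h2 := mul_le_mul_of_nonneg_left (aq_sum_le L (Real.arsinh (u p)))
      (sq_nonneg (ec c (u p)))
    rwa [mul_one] at h2
  have s2 : ∑ b ∈ range (L + 1), deriv (H b) (u p) ^ 2 ≤ 4 * (D + 1) := by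
    have h1 : ∀ b, deriv (H b) (u p) ^ 2 ≤ 2 * (2 * (deriv (za b) (Real.arsinh (u p)) ^ 2 +
        za b (Real.arsinh (u p)) ^ 2)) := by
      intro b
      rw [(hHd b (u p)).deriv]
      have h2 := aq_ec2 c hc hc1 (u p)
      have h3 : (deriv (za b) (Real.arsinh (u p)) + c * za b (Real.arsinh (u p))) ^ 2 ≤
          2 * (deriv (za b) (Real.arsinh (u p)) ^ 2 + za b (Real.arsinh (u p)) ^ 2) := by
        have h4 : c ^ 2 ≤ 1 := by nlinarith
        generalize deriv (za b) (Real.arsinh (u p)) = x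
        generalize za b (Real.arsinh (u p)) = z
        have h5 : c ^ 2 * z ^ 2 ≤ 1 * z ^ 2 := mul_le_mul_of_nonneg_right h4 (sq_nonneg z)
        nlinarith [sq_nonneg (x - c * z)]
      calc ((deriv (za b) (Real.arsinh (u p)) + c * za b (Real.arsinh (u p))) *
            ((Real.sqrt (1 + u p ^ 2))⁻¹ * ec c (u p))) ^ 2
          = (ec c (u p) ^ 2 * ((Real.sqrt (1 + u p ^ 2))⁻¹) ^ 2) *
            (deriv (za b) (Real.arsinh (u p)) + c * za b (Real.arsinh (u p))) ^ 2 := by ring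
        _ ≤ 2 * (2 * (deriv (za b) (Real.arsinh (u p)) ^ 2 +
            za b (Real.arsinh (u p)) ^ 2)) :=
          mul_le_mul h2 h3 (sq_nonneg _) (by norm_num)
    refine (sum_le_sum fun b _ => h1 b).trans ?_
    rw [← mul_sum, ← mul_sum, sum_add_distrib]
    have h2 := hD L (Real.arsinh (u p))
    have h3 := aq_sum_le L (Real.arsinh (u p))
    linarith
  have t1 : ∑ b ∈ range (L + 1), 2 * H b (u p) ^ 2 * Gm κ g p =
      2 * (∑ b ∈ range (L + 1), H b (u p) ^ 2) * Gm κ g p := by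
    rw [mul_sum, sum_mul]
  have t2 : ∑ b ∈ range (L + 1), 2 * (g p ^ 2 * deriv (H b) (u p) ^ 2) * Gm κ u p =
      2 * (g p ^ 2 * ∑ b ∈ range (L + 1), deriv (H b) (u p) ^ 2) * Gm κ u p := by
    rw [mul_sum, mul_sum, sum_mul]
  rw [t1, t2]
  have g1 := aq_Gmn hκ g p
  have g2 := aq_Gmn hκ u p
  have r1 : 2 * (∑ b ∈ range (L + 1), H b (u p) ^ 2) * Gm κ g p ≤
      2 * (ec c (u p) ^ 2 * Gm κ g p) := by
    have := mul_le_mul_of_nonneg_right s1 g1
    linarith
  have r2 : 2 * (g p ^ 2 * ∑ b ∈ range (L + 1), deriv (H b) (u p) ^ 2) * Gm κ u p ≤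
      8 * (D + 1) * (g p ^ 2 * Gm κ u p) := by
    have := mul_le_mul_of_nonneg_right s2 (mul_nonneg (sq_nonneg (g p)) g2)
    linarith
  exact add_le_add r1 r2

end H6.CT
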