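import Pool.Agent.H6.CT.Defs

/-! Definitions for the bootstrap in the bulk for mixed states. -/

open MeasureTheory Finset

namespace H6.CT

open H6.CM H6.CB H6.CL

/-- the inequalities which hold for equilibrium states in a general domain -/
structure Inb {ι : Type} [Fintype ι] (C zm zp : ℝ) (q n k : ℕ) (Λ : Set E3) (z : Fin k → ℝ)
    (W : Finset E3) (χ θ : E3 → ℝ) (Ψ : ι → (Fin n → Fin q) → Cfg n k → ℂ) : Prop where
  hz : ∀ j, zm ≤ z j ∧ z j ≤ zp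
  neu : ∑ j, z j = n
  st : ∀ i, St q n k Λ (Ψ i)
  one : ∑ i, mass (Ψ i) = 1
  ww : ∀ x, Metric.closedBall x 14 ⊆ Λ →
    WM χ θ W z Ψ x ≤ C * (1 + mM Ψ (fun p => mm θ x p ^ (4 / 3 : ℝ)) + SM θ Ψ x +
      mM Ψ (fun p => (1 + mm θ x p ^ (1 / 6 : ℝ)) * (ce p x 14 + cn p x 14)) +
      mM Ψ (fun p => tl 13 p x))
  pp : ∀ v, Metric.closedBall v 2 ⊆ Λ →
    mM Ψ (fun p => |uh χ 1 W z p v| ^ (3 / 2 : ℝ)) ≤
      C * (1 + mM Ψ (fun p => ce p v 2 ^ (3 / 2 : ℝ)) + mM Ψ (fun p => q4 1 p v))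
  tt : ∀ x, TM Ψ x 1 ≤ C * (1 + WM χ θ W z Ψ x + SM θ Ψ x +
    mM Ψ (fun p => ce p x 4 + cn p x 4))

/-- the local quantities at `y` are at most `B` -/
structure Lm {ι : Type} [Fintype ι] {q n k : ℕ}
    (Ψ : ι → (Fin n → Fin q) → Cfg n k → ℂ) (y : E3) (B : ℝ) : Prop where
  t : TM Ψ y 1 ≤ B
  e : mM Ψ (fun p => ce p y 1 ^ (5 / 3 : ℝ)) ≤ B
  c : mM Ψ (fun p => cn p y 1) ≤ B

end H6.CT
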