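import Pool.Agent.H6.CT.PotT
import Pool.Agent.H6.CM.ShM
import Pool.Agent.H6.CM.ShB

/-! The absolute value of the reference potential in a ball: let `r = R - 4` and average `potT` over the shell `sh r (r + 1)` (its points `x` satisfy `closedBall x 2 ⊆ ball 0 R`): `shM_phi` and `shM_near` for every member of the family, `sh_vol`; so `|mM pr| ≤ C (1 + mM (shl (R - 6)) / R ^ 2)`. As in `Pool/Agent/H6/CM/BallM.lean`. -/

open MeasureTheory Finset

namespace H6.CT

open H6.CM H6.CB H6.CL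

theorem ballPT (q : ℕ) (T zm zp κm κp A Kv : ℝ) (hT : 0 ≤ T) (hzm : 0 < zm) (hκm : 0 < κm)
    (hA : 0 ≤ A) (hKv : 0 ≤ Kv) {χ : E3 → ℝ} (hχ : Bump χ) : ∃ C : ℝ, 0 ≤ C ∧
    ∀ (ι : Type) (_ : Fintype ι) (n k : ℕ) (R : ℝ) (_ : 100 ≤ R) (z κ : Fin k → ℝ)
    (W : Finset E3) (δ : ℝ) (Ψ : ι → (Fin n → Fin q) → Cfg n k → ℂ)
    (_ : Gt q T zm zp κm κp A Kv n k (Metric.ball 0 R) z κ W δ Ψ) (_ : δ ≤ 1)
    (x : E3) (_ : Metric.closedBall x 2 ⊆ Metric.ball 0 R),
    |mM Ψ (fun p => phi z p x)| ≤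
      C * (1 + mM Ψ (fun p => near p x) + mM Ψ (fun p => shl (R - 6) p) / R ^ 2) := by
  obtain ⟨C0, hC0, hP⟩ := potT q T zm zp κm κp A Kv hT hzm hκm hA hKv hχ
  obtain ⟨C1, hC1, hn1⟩ := shM_near
  have hpi := Real.pi_pos
  refine ⟨2 * C0 + (100 * (1 + |zp|) + C0 * C1), by positivity, ?_⟩
  intro ι _ n k R hR z κ W δ Ψ hG hδ x hx
  set r := R - 4 with hr
  have hr3 : 3 ≤ r := by rw [hr]; linarith
  have hRr : R = r + 4 := by rw [hr]; ring
  have hst := hG.eq.st
  have hst' : ∀ i, St q n k (Metric.ball 0 (r + 4)) (Ψ i) := by rw [← hRr]; exact hst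
  have hz0 : ∀ j, 0 ≤ z j ∧ z j ≤ zp := fun j => ⟨hzm.le.trans (hG.hz j).1, (hG.hz j).2⟩
  have hV := sh_vol r hr3
  set D := sh r (r + 1) with hD
  set vD := (volume D).toReal with hvD
  have hvpos : 0 < vD := lt_of_lt_of_le (by positivity) hV.1
  have hDm : MeasurableSet D := by
    have : D = {v : E3 | r < ‖v‖} ∩ {v : E3 | ‖v‖ < r + 1} := rfl
    rw [this]
    exact (measurableSet_lt measurable_const measurable_norm).inter
      (measurableSet_lt measurable_norm measurable_const)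
  have hball : ∀ y ∈ D, Metric.closedBall y 2 ⊆ Metric.ball (0 : E3) R := by
    intro y hy v hv
    rw [Metric.mem_closedBall] at hv
    rw [Metric.mem_ball, dist_zero_right]
    have h2 : ‖v‖ ≤ ‖v - y‖ + ‖y‖ := by
      have := norm_add_le (v - y) y
      simpa using this
    rw [dist_eq_norm] at hv
    have h3 : ‖y‖ < r + 1 := hy.2
    linarith
  have hφ : IntegrableOn (fun v => mM Ψ (fun p => phi z p v)) D := by
    unfold mM
    exact integrable_finsetSum _ fun i _ => (shF_phi (hst i) z r).1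
  have hnn : IntegrableOn (fun v => mM Ψ (fun p => near p v)) D := by
    unfold mM
    exact integrable_finsetSum _ fun i _ => (shF_near (hst i) r).1
  have eφ : |∫ v in D, mM Ψ (fun p => phi z p v)| ≤
      100 * (1 + |zp|) * mM Ψ (fun p => shl (r - 2) p) := by
    unfold mM
    rw [integral_finsetSum _ fun i _ => (shF_phi (hst i) z r).1, mul_sum]
    exact (abs_sum_le_sum_abs _ _).trans
      (sum_le_sum fun i _ => shM_phi zp r hr3 (hst' i) z hz0 hG.neu)
  have en : ∫ v in D, mM Ψ (fun p => near p v) ≤ C1 * mM Ψ (fun p => shl (r - 2) p) := by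
    unfold mM
    rw [integral_finsetSum _ fun i _ => (shF_near (hst i) r).1, mul_sum]
    exact sum_le_sum fun i _ => hn1 r (hst i)
  have hS2 : r - 2 = R - 6 := by rw [hr]; ring
  rw [hS2] at eφ en
  obtain ⟨S, hS⟩ : ∃ S : ℝ, S = mM Ψ (fun p => shl (R - 6) p) := ⟨_, rfl⟩
  obtain ⟨N, hN⟩ : ∃ N : ℝ, N = mM Ψ (fun p => near p x) := ⟨_, rfl⟩
  obtain ⟨F, hF⟩ : ∃ F : ℝ, F = mM Ψ (fun p => phi z p x) := ⟨_, rfl⟩
  obtain ⟨P, hPd⟩ : ∃ P : ℝ, P = mM Ψ (fun p => pr χ W z p) := ⟨_, rfl⟩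
  have hS0 : 0 ≤ S := by
    rw [hS]
    unfold mM
    refine sum_nonneg fun i _ => mean_nonneg fun σ p _ => ?_
    unfold shl
    refine add_nonneg (sum_nonneg fun a _ => ?_) (sum_nonneg fun a _ => ?_)
    · split_ifs <;> norm_num
    · split_ifs <;> norm_num
  have hN0 : 0 ≤ N := by
    rw [hN]
    unfold mM
    refine sum_nonneg fun i _ => mean_nonneg fun σ p _ => ?_
    unfold near
    refine add_nonneg (sum_nonneg fun a _ => ?_) (sum_nonneg fun a _ => ?_)
    · split_ifs <;> positivity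
    · split_ifs <;> positivity
  have hDfin : IntegrableOn (fun _ : E3 => (1 : ℝ)) D := by
    rw [integrableOn_const_iff]; right; exact lt_top_iff_ne_top.2 hV.2
  have hintc : ∀ c : ℝ, IntegrableOn (fun _ : E3 => c) D := fun c =>
    (hDfin.const_mul c).congr (Filter.Eventually.of_forall fun _ => by simp)
  have hconst : ∀ c : ℝ, ∫ _ in D, c = c * vD := fun c => by
    rw [setIntegral_const, smul_eq_mul, mul_comm]; rfl
  have hx1 := hP ι _ n k _ z κ W δ Ψ hG hδ x hx
  rw [← hF, ← hPd, ← hN] at hx1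
  have hB1 : ∀ y ∈ D, P ≤ mM Ψ (fun p => phi z p y) +
      C0 * (1 + mM Ψ (fun p => near p y)) := fun y hy => by
    have := (abs_le.1 (hP ι _ n k _ z κ W δ Ψ hG hδ y (hball y hy))).1
    rw [← hPd] at this
    linarith
  have hB2 : ∀ y ∈ D, -P ≤ -mM Ψ (fun p => phi z p y) +
      C0 * (1 + mM Ψ (fun p => near p y)) := fun y hy => by
    have := (abs_le.1 (hP ι _ n k _ z κ W δ Ψ hG hδ y (hball y hy))).2
    rw [← hPd] at this
    linarith
  have hint3 : IntegrableOn (fun y => C0 * (1 + mM Ψ (fun p => near p y))) D :=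
    Integrable.const_mul (Integrable.add hDfin hnn) _
  have hval3 : ∫ y in D, C0 * (1 + mM Ψ (fun p => near p y)) =
      C0 * (vD + ∫ y in D, mM Ψ (fun p => near p y)) := by
    rw [integral_const_mul, integral_add hDfin hnn, hconst, one_mul]
  have e1 : P * vD ≤ (∫ y in D, mM Ψ (fun p => phi z p y)) +
      C0 * (vD + ∫ y in D, mM Ψ (fun p => near p y)) := by
    rw [← hconst, ← hval3, ← integral_add hφ hint3]
    exact setIntegral_mono_on (hintc P) (hφ.add hint3) hDm hB1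
  have e2 : -P * vD ≤ -(∫ y in D, mM Ψ (fun p => phi z p y)) +
      C0 * (vD + ∫ y in D, mM Ψ (fun p => near p y)) := by
    have hneg : IntegrableOn (fun y => -mM Ψ (fun p => phi z p y)) D := hφ.neg
    rw [← hconst, ← hval3, ← integral_neg, ← integral_add hneg hint3]
    exact setIntegral_mono_on (hintc (-P)) (hneg.add hint3) hDm hB2
  rw [← hS] at eφ en
  have hφ2 := abs_le.1 eφ
  have h9 := mul_le_mul_of_nonneg_left en hC0
  have key : |P| * vD ≤ 100 * (1 + |zp|) * S + C0 * (vD + C1 * S) := by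
    rcases abs_cases P with ⟨h, _⟩ | ⟨h, _⟩
    · rw [h]; nlinarith [hφ2.2, e1, h9]
    · rw [h]; nlinarith [hφ2.1, e2, h9]
  have hvR : R ^ 2 ≤ vD := by
    refine le_trans ?_ hV.1
    have h7 : R ≤ (7 / 3) * r := by rw [hr]; linarith
    have h8 : R ^ 2 ≤ ((7 / 3) * r) ^ 2 := pow_le_pow_left₀ (by linarith) h7 2
    have : (3 : ℝ) < Real.pi := Real.pi_gt_three
    nlinarith [sq_nonneg r]
  have key2 : |P| ≤ C0 + (100 * (1 + |zp|) + C0 * C1) * (S / vD) := by
    rw [← mul_le_mul_iff_left₀ hvpos]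
    have h1 : S / vD * vD = S := div_mul_cancel₀ _ hvpos.ne'
    have e3 : (C0 + (100 * (1 + |zp|) + C0 * C1) * (S / vD)) * vD =
        C0 * vD + (100 * (1 + |zp|) + C0 * C1) * (S / vD * vD) := by ring
    rw [e3, h1]
    linarith [key]
  have hSv : S / vD ≤ S / R ^ 2 := div_le_div_of_nonneg_left hS0 (by positivity) hvR
  have hc : 0 ≤ 100 * (1 + |zp|) + C0 * C1 := by positivity
  have h10 := mul_le_mul_of_nonneg_left hSv hc
  have hSR : 0 ≤ S / R ^ 2 := by positivity
  have h11 : |F| ≤ |F - P| + |P| := by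
    have := abs_add_le (F - P) P
    simpa using this
  rw [← hF, ← hN, ← hS]
  have h12 : |F| ≤ C0 * (1 + N) + C0 + (100 * (1 + |zp|) + C0 * C1) * (S / R ^ 2) := by linarith
  have h13 : 0 ≤ (100 * (1 + |zp|) + C0 * C1) * (1 + N) := by positivity
  have h14 : 0 ≤ C0 * N := by positivity
  have h15 : 0 ≤ C0 * (S / R ^ 2) := by positivity
  linarith

end H6.CT
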