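import Pool.Agent.H6.CT.IpL

/-! Bessel's inequality relative to a bound on wave functions. Let `c i = ip (Ψ i) H / mass (Ψ i)` (`0` if the mass is `0`) and `ψ = ∑ i, c i • Ψ i` (`st_sum`). By orthogonality `mass ψ = ∑ i, ‖c i‖ ^ 2 * mass (Ψ i) = S` with `S = ∑ i, ‖ip (Ψ i) H‖ ^ 2 / mass (Ψ i)`, and `ip ψ H = ∑ i, conj (c i) * ip (Ψ i) H = S`. So `S ^ 2 ≤ B * S`. -/

open MeasureTheory Finset

namespace H6.CT

open H6.CM H6.CB H6.CL

theorem bess {ι : Type} [Fintype ι] {q n k : ℕ} {Λ : Set E3}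
    {Ψ : ι → (Fin n → Fin q) → Cfg n k → ℂ} (hst : ∀ i, St q n k Λ (Ψ i)) (hort : Ort Ψ)
    (H : (Fin n → Fin q) → Cfg n k → ℂ) (hH : ∀ σ, LocallyIntegrable (H σ)) (B : ℝ)
    (hB0 : 0 ≤ B) (hB : ∀ ψ, St q n k Λ ψ → ‖ip ψ H‖ ^ 2 ≤ B * mass ψ) :
    ∑ i, ‖ip (Ψ i) H‖ ^ 2 / mass (Ψ i) ≤ B := by
  classical
  set c : ι → ℂ := fun i => ip (Ψ i) H / ((mass (Ψ i) : ℝ) : ℂ) with hc
  set S : ℝ := ∑ i, ‖ip (Ψ i) H‖ ^ 2 / mass (Ψ i) with hS
  set ψ : (Fin n → Fin q) → Cfg n k → ℂ := fun σ p => ∑ i, c i * Ψ i σ p with hψ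
  have hψs : St q n k Λ ψ := st_sum univ c Ψ hst
  have hsm : ∀ i, Sm q n k Λ (Ψ i) := fun i => St_sm (hst i)
  have hloc : ∀ (χ : (Fin n → Fin q) → Cfg n k → ℂ), St q n k Λ χ →
      ∀ σ, LocallyIntegrable (χ σ) := fun χ hχ σ =>
    (hχ.smooth σ).continuous.locallyIntegrable
  have hS0 : 0 ≤ S := sum_nonneg fun i _ => div_nonneg (by positivity) mass_nonneg
  -- the product with `H`
  have e1 : ip ψ H = ((S : ℝ) : ℂ) := by
    rw [hψ, ip_sum_left univ c Ψ hsm H hH, hS, Complex.ofReal_sum]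
    refine sum_congr rfl fun i _ => ?_
    rw [hc]
    simp only
    rw [map_div₀, Complex.conj_ofReal, div_mul_eq_mul_div, mul_comm ((starRingEnd ℂ) _),
      Complex.mul_conj, Complex.normSq_eq_norm_sq]
    push_cast
    ring
  -- the products with the members
  have e2 : ∀ i, ip ψ (Ψ i) = (starRingEnd ℂ) (c i) * ((mass (Ψ i) : ℝ) : ℂ) := by
    intro i
    rw [hψ, ip_sum_left univ c Ψ hsm (Ψ i) (hloc _ (hst i)), sum_eq_single i]
    · rw [ip_self (hsm i)]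
    · intro j _ hj
      rw [hort j i hj, mul_zero]
    · intro h
      exact absurd (mem_univ i) h
  have e3 : ((mass ψ : ℝ) : ℂ) = ((S : ℝ) : ℂ) := by
    rw [← ip_self (St_sm hψs)]
    have : ip ψ ψ = ∑ i, (starRingEnd ℂ) (c i) * ip (Ψ i) ψ := by
      conv_lhs => rw [hψ]
      exact ip_sum_left univ c Ψ hsm ψ (hloc _ hψs)
    rw [this, hS, Complex.ofReal_sum]
    refine sum_congr rfl fun i _ => ?_
    rw [← ip_conj ψ (Ψ i), e2 i, map_mul, Complex.conj_conj, Complex.conj_ofReal, ← mul_assoc,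
      mul_comm ((starRingEnd ℂ) (c i)), Complex.mul_conj, Complex.normSq_eq_norm_sq]
    rw [hc]
    simp only
    rw [norm_div, Complex.norm_real, Real.norm_of_nonneg mass_nonneg]
    rcases eq_or_ne (mass (Ψ i)) 0 with h0 | h0
    · rw [h0]
      simp
    · rw [← Complex.ofReal_mul]
      congr 1
      field_simp
  have e4 := Complex.ofReal_injective e3
  have h1 := hB ψ hψs
  rw [e1, e4, Complex.norm_real, Real.norm_of_nonneg hS0] at h1
  rcases hS0.eq_or_lt with h0 | h0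
  · rw [← h0]
    exact hB0
  · rw [sq] at h1
    exact le_of_mul_le_mul_right h1 h0

end H6.CT
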