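import Pool.Agent.H6.CL.Defs
import Pool.Agent.H6.CM.AsymA

/-! Definitions for positive temperature. -/

open MeasureTheory Finset

namespace H6.CT

open H6.CM H6.CB H6.CL

/-- inner product of two wave functions -/
noncomputable def ip {q n k : ℕ} (φ ψ : (Fin n → Fin q) → Cfg n k → ℂ) : ℂ :=
  ∑ σ, ∫ p, (starRingEnd ℂ) (φ σ p) * ψ σ p

/-- pairwise orthogonal -/
def Ort {ι : Type} {q n k : ℕ} (Ψ : ι → (Fin n → Fin q) → Cfg n k → ℂ) : Prop :=
  ∀ i j, i ≠ j → ip (Ψ i) (Ψ j) = 0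

/-- the free energy at temperature `T` of a mixed state (a finite family of pairwise orthogonal
wave functions, the weight of a member is its squared norm): energy minus `T` times entropy -/
noncomputable def FE {ι : Type} [Fintype ι] {q n k : ℕ} (T : ℝ) (z κ : Fin k → ℝ)
    (Ψ : ι → (Fin n → Fin q) → Cfg n k → ℂ) : ℝ :=
  ∑ i, (energy z κ (Ψ i) + T * (mass (Ψ i) * Real.log (mass (Ψ i))))

/-- equilibrium states up to `δ`: mixed states whose free energy is at most `δ` above the free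
energy of every other mixed state -/
structure Eqs {ι : Type} [Fintype ι] {q n k : ℕ} (T δ : ℝ) (Λ : Set E3) (z κ : Fin k → ℝ)
    (Ψ : ι → (Fin n → Fin q) → Cfg n k → ℂ) : Prop where
  st : ∀ i, St q n k Λ (Ψ i)
  ort : Ort Ψ
  one : ∑ i, mass (Ψ i) = 1
  min : ∀ (m : ℕ) (Φ : Fin m → (Fin n → Fin q) → Cfg n k → ℂ),
    (∀ i, St q n k Λ (Φ i)) → Ort Φ → ∑ i, mass (Φ i) = 1 →
    FE T z κ Ψ ≤ FE T z κ Φ + δ

/-- dyadic cubes of side `2 ^ -j` -/
def Qc (j : ℕ) (m : Fin 3 → ℤ) : Set E3 :=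
  {v | ∀ d, (m d : ℝ) ≤ 2 ^ j * v d ∧ 2 ^ j * v d < m d + 1}

/-- the functions of the multiscale frame -/
noncomputable def hf : ℕ → (Fin 3 → ℤ) → E3 → ℝ
  | 0, m => (Qc 0 m).indicator (fun _ => 1)
  | j + 1, m => fun v => Real.sqrt (8 ^ (j + 1)) * ((Qc (j + 1) m).indicator (fun _ => 1) v -
      8⁻¹ * (Qc j (fun d => m d / 2)).indicator (fun _ => 1) v)

/-- the weights of the scales -/
noncomputable def hx (j : ℕ) : ℝ := j * Real.log 16

/-- all indices of level at most `J` which matter in the ball of radius `R` -/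
noncomputable def hB (J : ℕ) (R : ℝ) : Finset (ℕ × (Fin 3 → ℤ)) :=
  range (J + 1) ×ˢ Fintype.piFinset
    (fun _ => Finset.Icc (-⌈(2 : ℝ) ^ J * (R + 2)⌉) ⌈(2 : ℝ) ^ J * (R + 2)⌉)

/-- relocation of electron `a`, whose old position is tested with `f` -/
noncomputable def trf {q n k : ℕ} (χ : E3 → ℝ) (r : ℝ) (a : Fin n) (w : E3) (f : E3 → ℝ)
    (α τ : Fin q) (φ : (Fin n → Fin q) → Cfg n k → ℂ) : (Fin n → Fin q) → Cfg n k → ℂ :=
  fun σ p => if σ a = α then ((chr χ r (p.1 a - w) : ℝ) : ℂ) *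
    ∫ ξ, ((f ξ : ℝ) : ℂ) * φ (Function.update σ a τ) (Function.update p.1 a ξ, p.2) else 0

/-- its normalised antisymmetrisation -/
noncomputable def atr {q n k : ℕ} (χ : E3 → ℝ) (r : ℝ) (a : Fin n) (w : E3) (f : E3 → ℝ)
    (α τ : Fin q) (φ : (Fin n → Fin q) → Cfg n k → ℂ) : (Fin n → Fin q) → Cfg n k → ℂ :=
  fun σ p => (((Real.sqrt n)⁻¹ : ℝ) : ℂ) * anti a (trf χ r a w f α τ φ) σ p

/-- relocation of nucleus `j`, whose old position is tested with `f` -/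
noncomputable def ntr {q n k : ℕ} (χ : E3 → ℝ) (r : ℝ) (j : Fin k) (w : E3) (f : E3 → ℝ)
    (φ : (Fin n → Fin q) → Cfg n k → ℂ) : (Fin n → Fin q) → Cfg n k → ℂ :=
  fun σ p => ((chr χ r (p.2 j - w) : ℝ) : ℂ) *
    ∫ ξ, ((f ξ : ℝ) : ℂ) * φ σ (p.1, Function.update p.2 j ξ)

/-- energy after the relocation of electron `a` -/
noncomputable def Efe {q n k : ℕ} (χ : E3 → ℝ) (r : ℝ) (a : Fin n) (w : E3) (z κ : Fin k → ℝ)
    (φ : (Fin n → Fin q) → Cfg n k → ℂ) : ℝ :=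
  ∑ b ∈ univ.erase a, kE φ b + ∑ j, κ j * kN φ j +
    mean φ (fun p => V z p + phiE z a p (p.1 a)) + (r ^ 2)⁻¹ * (∫ v, gr χ v) * mass φ -
    mean φ (fun p => ∫ v, chr χ r (v - w) ^ 2 * phiE z a p v)

/-- energy after the relocation of nucleus `j` -/
noncomputable def Efn {q n k : ℕ} (χ : E3 → ℝ) (r : ℝ) (j : Fin k) (w : E3) (z κ : Fin k → ℝ)
    (φ : (Fin n → Fin q) → Cfg n k → ℂ) : ℝ :=
  ∑ a, kE φ a + ∑ l ∈ univ.erase j, κ l * kN φ l +
    mean φ (fun p => V z p - z j * phiN z j p (p.2 j)) +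
    κ j * ((r ^ 2)⁻¹ * (∫ v, gr χ v)) * mass φ +
    z j * mean φ (fun p => ∫ v, chr χ r (v - w) ^ 2 * phiN z j p v)

/-- smooth number of the nuclei other than `j` near `w` -/
noncomputable def mj {n k : ℕ} (θ : E3 → ℝ) (w : E3) (j : Fin k) (p : Cfg n k) : ℝ :=
  ∑ l ∈ univ.erase j, Jc θ w (1 / 2) (p.2 l) ^ 2

/-- profiles of the dyadic partition of the half line -/
noncomputable def Gz (c : ℕ) (t : ℝ) : ℝ := Real.smoothTransition (2 - t / 2 ^ c)

/-- the dyadic partition of the half line -/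
noncomputable def zt : ℕ → ℝ → ℝ
  | 0, t => Real.sin (Real.pi / 2 * Gz 0 t)
  | c + 1, t => Real.cos (Real.pi / 2 * Gz c t) * Real.sin (Real.pi / 2 * Gz (c + 1) t)

/-- the partition of the real line for the size of the amplitudes -/
noncomputable def za : ℕ → ℝ → ℝ
  | 0, y => Real.sin (Real.pi / 2 * Real.smoothTransition (1 - y))
  | c + 1, y => Real.cos (Real.pi / 2 * Real.smoothTransition (c + 1 - y)) *
      Real.sin (Real.pi / 2 * Real.smoothTransition (c + 2 - y))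

/-- the localisation function of electron `a` -/
noncomputable def fE {n k : ℕ} (θ : E3 → ℝ) (r0 : ℝ) (w : E3) (g : Cfg n k → ℝ) (J : E3 → ℝ)
    (a : Fin n) (l : ℕ) (p : Cfg n k) : ℝ :=
  g p * (J (p.1 a) * slS θ r0 a w l p.1)

/-- the localisation function of nucleus `j` -/
noncomputable def fN {n k : ℕ} (θ : E3 → ℝ) (w : E3) (g : Cfg n k → ℝ) (J : E3 → ℝ)
    (j : Fin k) (c : ℕ) (p : Cfg n k) : ℝ :=
  g p * (J (p.2 j) * zt c (mj θ w j p))

/-- the wave function localised by `g` and by the position of electron `a` -/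
noncomputable def mE {q n k : ℕ} (g : Cfg n k → ℝ) (J : E3 → ℝ) (a : Fin n)
    (ψ : (Fin n → Fin q) → Cfg n k → ℂ) : (Fin n → Fin q) → Cfg n k → ℂ :=
  mf (fun p => g p * J (p.1 a)) ψ

/-- the wave function localised by `g` and by the position of nucleus `j` -/
noncomputable def mN {q n k : ℕ} (g : Cfg n k → ℝ) (J : E3 → ℝ) (j : Fin k)
    (ψ : (Fin n → Fin q) → Cfg n k → ℂ) : (Fin n → Fin q) → Cfg n k → ℂ :=
  mf (fun p => g p * J (p.2 j)) ψ

/-- the kinetic energy of electron `a` in the remainder of the partition -/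
noncomputable def rK {q n k : ℕ} (θ : E3 → ℝ) (r0 : ℝ) (a : Fin n) (w : E3) (L : ℕ)
    (φ : (Fin n → Fin q) → Cfg n k → ℂ) : ℝ :=
  ∑ σ, ∫ p, rmS θ r0 a w L p.1 ^ 2 * ge (φ σ) a p

/-- the amplitudes -/
noncomputable def ec (c u : ℝ) : ℝ := Real.exp (c * Real.arsinh u)

/-- the hypotheses of the inequalities at temperature `T` -/
structure Gt {ι : Type} [Fintype ι] (q : ℕ) (T zm zp κm κp A Kv : ℝ) (n k : ℕ) (Λ : Set E3)
    (z κ : Fin k → ℝ) (W : Finset E3) (δ : ℝ)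
    (Ψ : ι → (Fin n → Fin q) → Cfg n k → ℂ) : Prop where
  hz : ∀ j, zm ≤ z j ∧ z j ≤ zp
  hκ : ∀ j, κm ≤ κ j ∧ κ j ≤ κp
  neu : ∑ j, z j = n
  hm : MeasurableSet Λ
  hb : Bornology.IsBounded Λ
  hV : (volume Λ).toReal ≤ Kv * n
  hδ : 0 ≤ δ
  eq : Eqs T δ Λ z κ Ψ
  rf : ∀ i, Rf A Λ W (Ψ i)

/-- a family of amplitudes with bounds `M`, costs `x` and total weight `Cf` -/
structure Am {n k : ℕ} {β : Type} [Fintype β] (f : β → Cfg n k → ℝ) (M x : β → ℝ)
    (Cf : ℝ) : Prop where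
  smooth : ∀ b, ContDiff ℝ (⊤ : ℕ∞) (f b)
  sy : ∀ b, Sy (f b)
  bd : ∀ b p, |f b p| ≤ M b
  xn : ∀ b, 0 ≤ x b
  sum : ∑ b, M b ^ 2 * Real.exp (-x b) ≤ Cf

end H6.CT
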