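import Pool.Agent.H6.CT.IpL
import Pool.Agent.H6.CM.Grad
import Pool.Agent.H6.CM.GCont

/-! Simultaneous diagonalisation of mass and energy on the span of finitely many wave functions. Consider the finite dimensional complex subspace `S` of the space of all functions spanned by the `φ a`; all its members are wave functions (`st_add`, `st_smul`), `ip` is an inner product on it (`mass_zero`; `InnerProductSpace.Core`), and the energy is a Hermitian form: `energy z κ φ = en φ φ` with `en φ ψ = ∑ a σ ∫ p, ∑ d, conj (∂ φ) * ∂ ψ + (same for the nuclei with κ j) + ∑ σ ∫ p, V z p * conj (φ σ p) * ψ σ p` (additive and homogeneous; the derivatives of continuously differentiable functions with compact support are integrable, `V` is integrable against continuous functions with compact support, `IM_V` and polarisation). The operator `A` on `S` with `ip φ (A ψ) = en φ ψ` is symmetric; take an orthonormal basis of eigenvectors (`LinearMap.IsSymmetric.eigenvectorBasis`).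 Alternatively: an orthonormal basis of `S` from `stdOrthonormalBasis`, the Hermitian matrix of `en` and `Matrix.IsHermitian.spectral_theorem`. -/

open MeasureTheory Finset

namespace H6.CT

open H6.CM H6.CB H6.CL

/-- simultaneous diagonalisation of two Hermitian forms, the first of which is positive definite -/
private theorem abs_diag {X : Type} [AddCommGroup X] [Module ℂ X] (S : Submodule ℂ X)
    [FiniteDimensional ℂ S] (ip en : X → X → ℂ)
    (i1 : ∀ x ∈ S, ∀ y ∈ S, (starRingEnd ℂ) (ip x y) = ip y x)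
    (i2 : ∀ x ∈ S, ∀ y ∈ S, ∀ y' ∈ S, ip x (y + y') = ip x y + ip x y')
    (i3 : ∀ x ∈ S, ∀ y ∈ S, ∀ c : ℂ, ip x (c • y) = c * ip x y)
    (i4 : ∀ x ∈ S, 0 ≤ (ip x x).re)
    (i5 : ∀ x ∈ S, ip x x = 0 → x = 0)
    (e1 : ∀ x ∈ S, ∀ y ∈ S, (starRingEnd ℂ) (en x y) = en y x)
    (e2 : ∀ x ∈ S, ∀ y ∈ S, ∀ y' ∈ S, en x (y + y') = en x y + en x y')
    (e3 : ∀ x ∈ S, ∀ y ∈ S, ∀ c : ℂ, en x (c • y) = c * en x y) :
    ∃ (m : ℕ) (e : Fin m → X), (∀ j, e j ∈ S) ∧ (∀ i j, i ≠ j → ip (e i) (e j) = 0) ∧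
      (∀ j, ip (e j) (e j) = 1) ∧ ∀ x ∈ S,
      ip x x = ∑ j, ((‖ip (e j) x‖ ^ 2 : ℝ) : ℂ) ∧
      en x x = ∑ j, ((‖ip (e j) x‖ ^ 2 : ℝ) : ℂ) * en (e j) (e j) := by
  have i2' : ∀ x ∈ S, ∀ x' ∈ S, ∀ y ∈ S, ip (x + x') y = ip x y + ip x' y := by
    intro x hx x' hx' y hy
    rw [← i1 y hy _ (S.add_mem hx hx'), i2 y hy x hx x' hx', map_add, i1 y hy x hx, i1 y hy x' hx']
  have i3' : ∀ x ∈ S, ∀ y ∈ S, ∀ c : ℂ, ip (c • x) y = (starRingEnd ℂ) c * ip x y := by
    intro x hx y hy c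
    rw [← i1 y hy _ (S.smul_mem c hx), i3 y hy x hx, map_mul, i1 y hy x hx]
  have e2' : ∀ x ∈ S, ∀ x' ∈ S, ∀ y ∈ S, en (x + x') y = en x y + en x' y := by
    intro x hx x' hx' y hy
    rw [← e1 y hy _ (S.add_mem hx hx'), e2 y hy x hx x' hx', map_add, e1 y hy x hx, e1 y hy x' hx']
  have e3' : ∀ x ∈ S, ∀ y ∈ S, ∀ c : ℂ, en (c • x) y = (starRingEnd ℂ) c * en x y := by
    intro x hx y hy c
    rw [← e1 y hy _ (S.smul_mem c hx), e3 y hy x hx, map_mul, e1 y hy x hx]
  let core : InnerProductSpace.Core ℂ S :=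
    { inner := fun x y => ip x y
      conj_inner_symm := fun x y => i1 y y.2 x x.2
      re_inner_nonneg := fun x => i4 x x.2
      add_left := fun x y z => i2' x x.2 y y.2 z z.2
      smul_left := fun x y r => i3' x x.2 y y.2 r
      definite := fun x hx => Subtype.ext (i5 x x.2 hx) }
  let nS : NormedAddCommGroup S := core.toNormedAddCommGroup
  let iS : InnerProductSpace ℂ S := InnerProductSpace.ofCore core.toCore
  have hin : ∀ x y : S, inner ℂ x y = ip x y := fun x y => rfl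
  let b0 := stdOrthonormalBasis ℂ S
  let T : S →ₗ[ℂ] S :=
    { toFun := fun y => ∑ i, en (b0 i) y • b0 i
      map_add' := fun y y' => by
        rw [← sum_add_distrib]
        refine sum_congr rfl fun i _ => ?_
        rw [← add_smul]
        congr 1
        exact e2 _ (b0 i).2 y y.2 y' y'.2
      map_smul' := fun c y => by
        rw [smul_sum]
        refine sum_congr rfl fun i _ => ?_
        rw [smul_smul]
        congr 1
        exact e3 _ (b0 i).2 y y.2 c }
  have hT : ∀ x y : S, inner ℂ x (T y) = en x y := by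
    intro x y
    have h1 : inner ℂ x (T y) = ∑ i, en (b0 i) y * inner ℂ x (b0 i) := by
      change inner ℂ x (∑ i, en (b0 i) y • b0 i) = _
      rw [inner_sum]
      refine sum_congr rfl fun i _ => ?_
      rw [inner_smul_right]
    have h2 : x = ∑ i, inner ℂ (b0 i) x • b0 i := (b0.sum_repr' x).symm
    have hsum : ∀ (I : Finset (Fin (Module.finrank ℂ S))) (c : Fin (Module.finrank ℂ S) → ℂ),
        en ((∑ i ∈ I, c i • b0 i : S) : X) y =
          ∑ i ∈ I, (starRingEnd ℂ) (c i) * en (b0 i) y := by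
      intro I c
      induction I using Finset.induction_on with
      | empty =>
        simp only [sum_empty]
        have := e3' 0 S.zero_mem y y.2 0
        rw [zero_smul, map_zero, zero_mul] at this
        exact this
      | insert i I hi ih =>
        rw [sum_insert hi, sum_insert hi]
        have h3 := e2' ((c i • b0 i : S) : X) (c i • b0 i : S).2
          ((∑ i ∈ I, c i • b0 i : S) : X) (∑ i ∈ I, c i • b0 i : S).2 y y.2
        rw [ih] at h3
        have h4 := e3' (b0 i) (b0 i).2 y y.2 (c i)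
        have h5 : ((c i • b0 i : S) : X) = c i • (b0 i : X) := rfl
        rw [h5, h4] at h3
        exact h3
    rw [h1]
    conv_rhs => rw [h2]
    rw [hsum]
    refine sum_congr rfl fun i _ => ?_
    rw [inner_conj_symm, mul_comm]
  have hTs : T.IsSymmetric := by
    intro x y
    rw [← inner_conj_symm, hT, hT]
    exact e1 y y.2 x x.2
  obtain ⟨b, hb⟩ : ∃ b : OrthonormalBasis (Fin (Module.finrank ℂ S)) ℂ S,
      b = hTs.eigenvectorBasis rfl := ⟨_, rfl⟩
  have hTb : ∀ i, T (b i) = ((hTs.eigenvalues rfl i : ℝ) : ℂ) • b i := by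
    intro i
    rw [hb]
    exact hTs.apply_eigenvectorBasis rfl i
  have hbb : ∀ i, inner ℂ (b i) (b i) = (1 : ℂ) := by
    intro i
    have := b.orthonormal
    rw [orthonormal_iff_ite] at this
    rw [this i i, if_pos rfl]
  refine ⟨Module.finrank ℂ S, fun j => b j, fun j => (b j).2, ?_, ?_, ?_⟩
  · intro i j hij
    exact b.orthonormal.2 hij
  · intro j
    exact hbb j
  · intro x hx
    have hlam : ∀ j, en (b j) (b j) = ((hTs.eigenvalues rfl j : ℝ) : ℂ) := by
      intro j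
      rw [← hT, hTb, inner_smul_right, hbb, mul_one]
    have hsq : ∀ j, (((‖ip (b j) x‖ ^ 2 : ℝ)) : ℂ) =
        inner ℂ (⟨x, hx⟩ : S) (b j) * inner ℂ (b j) (⟨x, hx⟩ : S) := by
      intro j
      have h1 : ip (b j) x = inner ℂ (b j) (⟨x, hx⟩ : S) := rfl
      rw [h1, ← inner_conj_symm (⟨x, hx⟩ : S) (b j), mul_comm, Complex.mul_conj,
        Complex.normSq_eq_norm_sq]
    constructor
    · have h1 : ip x x = inner ℂ (⟨x, hx⟩ : S) (⟨x, hx⟩ : S) := rfl
      rw [h1, ← b.sum_inner_mul_inner]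
      exact sum_congr rfl fun j _ => (hsq j).symm
    · have h1 : en x x = inner ℂ (⟨x, hx⟩ : S) (T (⟨x, hx⟩ : S)) :=
        (hT (⟨x, hx⟩ : S) (⟨x, hx⟩ : S)).symm
      rw [h1, ← b.sum_inner_mul_inner]
      refine sum_congr rfl fun j _ => ?_
      rw [hsq j, hlam j, ← hTs, hTb, inner_smul_left, Complex.conj_ofReal]
      ring

section

variable {q n k : ℕ} {Λ : Set E3}

/-- weighted product -/
private noncomputable def Jw (g : Cfg n k → ℝ) (A B : Cfg n k → ℂ) : ℂ :=
  ∫ p, ((g p : ℝ) : ℂ) * ((starRingEnd ℂ) (A p) * B p)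

private theorem Jw_conj (g : Cfg n k → ℝ) (A B : Cfg n k → ℂ) :
    (starRingEnd ℂ) (Jw g A B) = Jw g B A := by
  unfold Jw
  rw [← integral_conj]
  congr 1
  funext p
  rw [map_mul, map_mul, Complex.conj_conj, Complex.conj_ofReal, mul_comm (A p)]

private theorem Jw_smul (g : Cfg n k → ℝ) (A B : Cfg n k → ℂ) (c : ℂ) :
    Jw g A (c • B) = c * Jw g A B := by
  unfold Jw
  rw [← integral_const_mul]
  congr 1
  funext p
  simp only [Pi.smul_apply, smul_eq_mul]
  ring

private theorem Jw_add (g : Cfg n k → ℝ) (A B C : Cfg n k → ℂ)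
    (h1 : Integrable fun p => ((g p : ℝ) : ℂ) * ((starRingEnd ℂ) (A p) * B p))
    (h2 : Integrable fun p => ((g p : ℝ) : ℂ) * ((starRingEnd ℂ) (A p) * C p)) :
    Jw g A (B + C) = Jw g A B + Jw g A C := by
  unfold Jw
  rw [← integral_add h1 h2]
  congr 1
  funext p
  simp only [Pi.add_apply]
  ring

private theorem Jw_self (g : Cfg n k → ℝ) (A : Cfg n k → ℂ) :
    Jw g A A = ((∫ p, g p * ‖A p‖ ^ 2 : ℝ) : ℂ) := by
  unfold Jw
  rw [← integral_complex_ofReal]
  congr 1
  funext p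
  rw [mul_comm ((starRingEnd ℂ) (A p)), Complex.mul_conj, Complex.normSq_eq_norm_sq]
  push_cast
  ring

/-- directional derivative -/
private noncomputable def Dv (v : Cfg n k) (f : Cfg n k → ℂ) : Cfg n k → ℂ :=
  fun p => fderiv ℝ f p v

private theorem Dv_add {v : Cfg n k} {f g : Cfg n k → ℂ} (hf : Differentiable ℝ f)
    (hg : Differentiable ℝ g) : Dv v (f + g) = Dv v f + Dv v g := by
  funext p
  unfold Dv
  rw [fderiv_add (hf p) (hg p)]
  rfl

private theorem Dv_smul {v : Cfg n k} {f : Cfg n k → ℂ} (c : ℂ) :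
    Dv v (c • f) = c • Dv v f := by
  funext p
  unfold Dv
  have : fderiv ℝ (c • f) p = c • fderiv ℝ f p :=
    congrFun (fderiv_const_smul_field (𝕜 := ℝ) (f := f) c) p
  rw [this]
  rfl

private theorem Dv_cont {v : Cfg n k} {f : Cfg n k → ℂ} (hf : ContDiff ℝ (⊤ : ℕ∞) f) :
    Continuous (Dv v f) :=
  (hf.continuous_fderiv (by simp)).clm_apply continuous_const

private theorem Dv_cpt {v : Cfg n k} {f : Cfg n k → ℂ} (hc : HasCompactSupport f) :
    HasCompactSupport (Dv v f) := by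
  refine (hc.fderiv ℝ).mono fun p hp => ?_
  rw [Function.mem_support] at hp ⊢
  intro h
  apply hp
  unfold Dv
  rw [h]
  rfl

private theorem int_cc {A B : Cfg n k → ℂ} (hA : Continuous A) (hB : Continuous B)
    (hc : HasCompactSupport B) :
    Integrable fun p => (((1 : ℝ) : ℝ) : ℂ) * ((starRingEnd ℂ) (A p) * B p) := by
  have h1 : Continuous fun p => (((1 : ℝ) : ℝ) : ℂ) * ((starRingEnd ℂ) (A p) * B p) := by
    have := Complex.continuous_conj.comp hA
    fun_prop
  refine h1.integrable_of_hasCompactSupport ?_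
  exact (hc.mul_left (f := fun p => (starRingEnd ℂ) (A p))).mul_left

private theorem V_meas (z : Fin k → ℝ) : Measurable (V z : Cfg n k → ℝ) := by
  unfold V
  fun_prop

private theorem int_V {A B : (Fin n → Fin q) → Cfg n k → ℂ} (hA : Sm q n k Λ A)
    (hB : Sm q n k Λ B) (z : Fin k → ℝ) (σ : Fin n → Fin q) :
    Integrable fun p => ((V z p : ℝ) : ℂ) * ((starRingEnd ℂ) (A σ p) * B σ p) := by
  have h1 := (IM_V hA z σ).norm
  have h2 := (IM_V hB z σ).norm
  refine (h1.add h2).mono ?_ (Filter.Eventually.of_forall fun p => ?_)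
  · have hm : Measurable fun p : Cfg n k => ((V z p : ℝ) : ℂ) := Complex.measurable_ofReal.comp (V_meas z)
    have h3 : Continuous fun p => (starRingEnd ℂ) (A σ p) * B σ p :=
      (Complex.continuous_conj.comp (hA.smooth σ).continuous).mul (hB.smooth σ).continuous
    exact hm.aestronglyMeasurable.mul h3.aestronglyMeasurable
  · simp only [Pi.add_apply, norm_mul, Complex.norm_real, RCLike.norm_conj, norm_pow, norm_norm]
    have h0 : 0 ≤ ‖V z p‖ := norm_nonneg _
    have h3 : ‖A σ p‖ * ‖B σ p‖ ≤ ‖A σ p‖ ^ 2 + ‖B σ p‖ ^ 2 := by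
      nlinarith [sq_nonneg (‖A σ p‖ - ‖B σ p‖), sq_nonneg (‖A σ p‖), sq_nonneg (‖B σ p‖)]
    rw [← mul_add, Real.norm_eq_abs (‖V z p‖ * _), abs_of_nonneg (by positivity)]
    exact mul_le_mul_of_nonneg_left h3 h0

/-- the energy as a Hermitian form -/
private noncomputable def en (z κ : Fin k → ℝ) (φ ψ : (Fin n → Fin q) → Cfg n k → ℂ) : ℂ :=
  ∑ σ, (∑ a, ∑ d : Fin 3, Jw (fun _ => 1)
      (Dv (Pi.single a (EuclideanSpace.single d 1), 0) (φ σ))
      (Dv (Pi.single a (EuclideanSpace.single d 1), 0) (ψ σ)) +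
    ∑ j, ((κ j : ℝ) : ℂ) * ∑ d : Fin 3, Jw (fun _ => 1)
      (Dv (0, Pi.single j (EuclideanSpace.single d 1)) (φ σ))
      (Dv (0, Pi.single j (EuclideanSpace.single d 1)) (ψ σ)) +
    Jw (V z) (φ σ) (ψ σ))

private theorem en_conj (z κ : Fin k → ℝ) (φ ψ : (Fin n → Fin q) → Cfg n k → ℂ) :
    (starRingEnd ℂ) (en z κ φ ψ) = en z κ ψ φ := by
  unfold en
  simp only [map_sum, map_add, map_mul, Jw_conj, Complex.conj_ofReal]

private theorem en_smul (z κ : Fin k → ℝ) (φ ψ : (Fin n → Fin q) → Cfg n k → ℂ) (c : ℂ) :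
    en z κ φ (c • ψ) = c * en z κ φ ψ := by
  unfold en
  rw [mul_sum]
  refine sum_congr rfl fun σ _ => ?_
  rw [mul_add, mul_add, Pi.smul_apply]
  simp only [Dv_smul, Jw_smul]
  rw [mul_sum, mul_sum]
  congr 2
  · exact sum_congr rfl fun a _ => by rw [mul_sum]
  · refine sum_congr rfl fun j _ => ?_
    rw [← mul_sum]
    ring

private theorem en_add (z κ : Fin k → ℝ) {χ φ ψ : (Fin n → Fin q) → Cfg n k → ℂ}
    (hχ : Sm q n k Λ χ) (hφ : Sm q n k Λ φ) (hψ : Sm q n k Λ ψ) :
    en z κ χ (φ + ψ) = en z κ χ φ + en z κ χ ψ := by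
  have hJ : ∀ (v : Cfg n k) (σ : Fin n → Fin q),
      Jw (fun _ => 1) (Dv v (χ σ)) (Dv v ((φ + ψ) σ)) =
        Jw (fun _ => 1) (Dv v (χ σ)) (Dv v (φ σ)) + Jw (fun _ => 1) (Dv v (χ σ)) (Dv v (ψ σ)) := by
    intro v σ
    rw [Pi.add_apply, Dv_add ((hφ.smooth σ).differentiable (by simp))
      ((hψ.smooth σ).differentiable (by simp))]
    exact Jw_add _ _ _ _
      (int_cc (Dv_cont (hχ.smooth σ)) (Dv_cont (hφ.smooth σ)) (Dv_cpt (hφ.cpt σ)))
      (int_cc (Dv_cont (hχ.smooth σ)) (Dv_cont (hψ.smooth σ)) (Dv_cpt (hψ.cpt σ)))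
  have hV : ∀ σ, Jw (V z) (χ σ) ((φ + ψ) σ) = Jw (V z) (χ σ) (φ σ) + Jw (V z) (χ σ) (ψ σ) :=
    fun σ => Jw_add _ _ _ _ (int_V hχ hφ z σ) (int_V hχ hψ z σ)
  unfold en
  simp only [hJ, hV, sum_add_distrib, mul_add]
  ring

private theorem en_self (z κ : Fin k → ℝ) {φ : (Fin n → Fin q) → Cfg n k → ℂ}
    (hφ : Sm q n k Λ φ) : en z κ φ φ = ((energy z κ φ : ℝ) : ℂ) := by
  have hi : ∀ (v : Cfg n k) (σ : Fin n → Fin q), Integrable fun p => ‖fderiv ℝ (φ σ) p v‖ ^ 2 := by
    intro v σ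
    have h1 : Continuous fun p => ‖fderiv ℝ (φ σ) p v‖ ^ 2 :=
      (Dv_cont (v := v) (hφ.smooth σ)).norm.pow 2
    refine h1.integrable_of_hasCompactSupport ?_
    exact (Dv_cpt (v := v) (hφ.cpt σ)).comp_left (g := fun c : ℂ => ‖c‖ ^ 2) (by simp)
  have hE : ∀ a, kE φ a = ∑ σ, ∑ d : Fin 3,
      ∫ p, ‖fderiv ℝ (φ σ) p (Pi.single a (EuclideanSpace.single d 1), 0)‖ ^ 2 := by
    intro a
    unfold kE
    refine sum_congr rfl fun σ _ => ?_
    rw [← integral_finsetSum _ fun d _ => hi _ σ]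
    congr 1
    funext p
    exact ge_eq _ ((hφ.smooth σ).differentiable (by simp)) a p
  have hN : ∀ j, kN φ j = ∑ σ, ∑ d : Fin 3,
      ∫ p, ‖fderiv ℝ (φ σ) p (0, Pi.single j (EuclideanSpace.single d 1))‖ ^ 2 := by
    intro j
    unfold kN
    refine sum_congr rfl fun σ _ => ?_
    rw [← integral_finsetSum _ fun d _ => hi _ σ]
    congr 1
    funext p
    exact gn_eq _ ((hφ.smooth σ).differentiable (by simp)) j p
  unfold en energy mean
  simp only [Jw_self, hE, hN, Dv, one_mul]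
  push_cast
  rw [sum_add_distrib, sum_add_distrib]
  congr 2
  · rw [sum_comm]
  · rw [sum_comm]
    refine sum_congr rfl fun j _ => ?_
    rw [← mul_sum]

end

theorem diag {q n k : ℕ} {Λ : Set E3} (z κ : Fin k → ℝ) {B : Type} [Fintype B]
    (φ : B → (Fin n → Fin q) → Cfg n k → ℂ) (hφ : ∀ b, St q n k Λ (φ b)) :
    ∃ (m : ℕ) (e : Fin m → (Fin n → Fin q) → Cfg n k → ℂ), (∀ j, St q n k Λ (e j)) ∧
      Ort e ∧ (∀ j, mass (e j) = 1) ∧ ∀ b,
      mass (φ b) = ∑ j, ‖ip (e j) (φ b)‖ ^ 2 ∧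
      energy z κ (φ b) = ∑ j, ‖ip (e j) (φ b)‖ ^ 2 * energy z κ (e j) := by
  classical
  let S : Submodule ℂ ((Fin n → Fin q) → Cfg n k → ℂ) := Submodule.span ℂ (Set.range φ)
  have : FiniteDimensional ℂ S := FiniteDimensional.span_of_finite ℂ (Set.finite_range φ)
  have hSt : ∀ x ∈ S, St q n k Λ x := by
    intro x hx
    refine Submodule.span_induction (p := fun x _ => St q n k Λ x) ?_ ?_ ?_ ?_ hx
    · rintro _ ⟨b, rfl⟩
      exact hφ b
    · exact st_zero
    · intro x y _ _ h1 h2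
      exact st_add h1 h2
    · intro c x _ h1
      exact st_smul h1 c
  have hSm : ∀ x ∈ S, Sm q n k Λ x := fun x hx => St_sm (hSt x hx)
  have hloc : ∀ x ∈ S, ∀ σ, LocallyIntegrable (x σ) := fun x hx σ =>
    ((hSm x hx).smooth σ).continuous.locallyIntegrable
  obtain ⟨m, e, h1, h2, h3, h4⟩ := abs_diag S ip (en z κ)
    (fun x _ y _ => ip_conj x y)
    (fun x hx y hy y' hy' => ip_add (hSm x hx) (hloc y hy) (hloc y' hy'))
    (fun x _ y _ c => ip_smul x y c)
    (fun x hx => by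
      rw [ip_self (hSm x hx), Complex.ofReal_re]
      exact mass_nonneg)
    (fun x hx h0 => by
      rw [ip_self (hSm x hx)] at h0
      exact mass_zero (hSm x hx) (Complex.ofReal_injective h0))
    (fun x _ y _ => en_conj z κ x y)
    (fun x hx y hy y' hy' => en_add z κ (hSm x hx) (hSm y hy) (hSm y' hy'))
    (fun x _ y _ c => en_smul z κ x y c)
  refine ⟨m, e, fun j => hSt _ (h1 j), h2, ?_, ?_⟩
  · intro j
    have h5 := h3 j
    rw [ip_self (hSm _ (h1 j))] at h5
    exact_mod_cast h5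
  · intro b
    have hb : φ b ∈ S := Submodule.subset_span (Set.mem_range_self b)
    obtain ⟨h5, h6⟩ := h4 (φ b) hb
    rw [ip_self (hSm _ hb)] at h5
    rw [en_self z κ (hSm _ hb)] at h6
    constructor
    · exact_mod_cast h5
    · have h7 : ∀ j, en z κ (e j) (e j) = ((energy z κ (e j) : ℝ) : ℂ) := fun j =>
        en_self z κ (hSm _ (h1 j))
      simp only [h7] at h6
      exact_mod_cast h6

end H6.CT
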