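import Pool.Agent.H6.CT.HPar
import Pool.Agent.H6.CM.HeatF

/-! The costs of the scales. `hsum2`: at level `0` exactly one cube contains `ξ`; at level `j ≥ 1` the functions with the parent of `ξ` contribute `8 ^ j * (49 + 7) / 64`, all others vanish at `ξ`; `exp (-hx j) = 16 ^ -j`; the sum is at most `1 + (7 / 8) * ∑ 2 ^ -j`. `hlev`: the sum over the indices of level `j + 1` is at most `∑ Q, ∫ ‖F - (mean of F over Q)‖ ^ 2` over the cubes `Q` of level `j` (the functions `hf (j + 1) m` have integral `0` and are a Parseval frame of their span), which is `∑ Q, (2 |Q|)⁻¹ ∫ x in Q, ∫ y in Q, ‖F x - F y‖ ^ 2 ≤ (2 |Q|)⁻¹ ∫ h in (-ℓ, ℓ)^3, ∫ x, ‖F (x + h) - F x‖ ^ 2` with `ℓ = 2 ^ -j`; then `trans_le` (file `Pool/Agent/H6/CM/HeatF.lean`) and `‖fderiv F v h‖ ^ 2 ≤ 3 ℓ ^ 2 * g3 F v`. `hcost`: split the levels at a large level: `∑ j, (j + 1) log 16 * 12 * 4 ^ -j` converges; below the splitting level use `hpar_le`.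 -/

open MeasureTheory Finset

namespace H6.CT

open H6.CM H6.CB H6.CL

private theorem sum_zero_off {ι : Type*} [DecidableEq ι] (B S : Finset ι) (f : ι → ℝ)
    (h0 : ∀ i, 0 ≤ f i) (hz : ∀ i, i ∉ S → f i = 0) : ∑ i ∈ B, f i ≤ ∑ i ∈ S, f i := by
  calc ∑ i ∈ B, f i ≤ ∑ i ∈ B ∪ S, f i :=
        sum_le_sum_of_subset_of_nonneg subset_union_left (fun i _ _ => h0 i)
    _ = ∑ i ∈ S, f i := (sum_subset subset_union_right (fun i _ hi => hz i hi)).symm

private theorem hx_exp (j : ℕ) : Real.exp (-hx j) = ((16 : ℝ) ^ j)⁻¹ := by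
  rw [Real.exp_neg, hx, mul_comm, Real.exp_mul, Real.exp_log (by norm_num), Real.rpow_natCast]

private theorem lev0 (B : Finset (Fin 3 → ℤ)) (ξ : E3) : ∑ m ∈ B, hf 0 m ξ ^ 2 ≤ 1 := by
  classical
  set m0 : Fin 3 → ℤ := fun d => ⌊(2 : ℝ) ^ 0 * ξ d⌋ with hm0
  have h1 : ∀ m, hf 0 m ξ = if m = m0 then 1 else 0 := by
    intro m
    change (Qc 0 m).indicator (fun _ => (1 : ℝ)) ξ = _
    by_cases h : m = m0
    · rw [if_pos h, Set.indicator_of_mem]
      rw [hpar_mem, h]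
      intro d
      rfl
    · rw [if_neg h, Set.indicator_of_notMem]
      rw [hpar_mem]
      intro h2
      exact h (funext fun d => (h2 d).symm)
  refine (sum_zero_off B {m0} (fun m => hf 0 m ξ ^ 2) (fun m => by positivity) ?_).trans ?_
  · intro m hm
    rw [mem_singleton] at hm
    simp only [h1, if_neg hm]
    norm_num
  · rw [sum_singleton, h1, if_pos rfl]
    norm_num

private theorem levS (j : ℕ) (B : Finset (Fin 3 → ℤ)) (ξ : E3) :
    ∑ m ∈ B, hf (j + 1) m ξ ^ 2 ≤ 7 * 8 ^ j := by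
  classical
  set m0 : Fin 3 → ℤ := fun d => ⌊(2 : ℝ) ^ (j + 1) * ξ d⌋ with hm0
  have hx0 : ξ ∈ Qc (j + 1) m0 := by
    rw [hpar_mem]
    intro d
    rfl
  set p0 : Fin 3 → ℤ := fun d => m0 d / 2 with hp0
  have hc0 : m0 ∈ hch p0 := (mem_hch _ _).2 rfl
  have hp : ξ ∈ Qc j p0 := by
    rw [Qc_ch]
    simp only [Set.mem_iUnion, exists_prop]
    exact ⟨m0, hc0, hx0⟩
  have i1 : ∀ m, (Qc (j + 1) m).indicator (fun _ => (1 : ℝ)) ξ = if m = m0 then 1 else 0 := by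
    intro m
    by_cases h : m = m0
    · rw [if_pos h, Set.indicator_of_mem (h ▸ hx0)]
    · rw [if_neg h, Set.indicator_of_notMem]
      intro h2
      rw [hpar_mem] at h2 hx0
      exact h (funext fun d => (h2 d).symm.trans (hx0 d))
  have i2 : ∀ p, (Qc j p).indicator (fun _ => (1 : ℝ)) ξ = if p = p0 then 1 else 0 := by
    intro p
    by_cases h : p = p0
    · rw [if_pos h, Set.indicator_of_mem (h ▸ hp)]
    · rw [if_neg h, Set.indicator_of_notMem]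
      intro h2
      rw [hpar_mem] at h2 hp
      exact h (funext fun d => (h2 d).symm.trans (hp d))
  have h1 : ∀ m, hf (j + 1) m ξ = Real.sqrt (8 ^ (j + 1)) * ((if m = m0 then 1 else 0) -
      8⁻¹ * (if (fun d => m d / 2) = p0 then 1 else 0)) := by
    intro m
    change Real.sqrt (8 ^ (j + 1)) * ((Qc (j + 1) m).indicator (fun _ => 1) ξ -
      8⁻¹ * (Qc j (fun d => m d / 2)).indicator (fun _ => 1) ξ) = _
    rw [i1, i2]
  refine (sum_zero_off B (hch p0) (fun m => hf (j + 1) m ξ ^ 2) (fun m => by positivity) ?_).trans ?_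
  · intro m hm
    rw [mem_hch] at hm
    have h2 : m ≠ m0 := by
      rintro rfl
      exact hm rfl
    simp only [h1, if_neg hm, if_neg h2]
    norm_num
  · have h2 : ∀ m ∈ hch p0, hf (j + 1) m ξ ^ 2 =
        8 ^ (j + 1) * (64⁻¹ + if m = m0 then 48 / 64 else 0) := by
      intro m hm
      rw [mem_hch] at hm
      rw [h1, if_pos hm, mul_pow, Real.sq_sqrt (by positivity)]
      split_ifs <;> norm_num
    rw [sum_congr rfl h2, ← mul_sum, sum_add_distrib, sum_const, card_hch, sum_ite_eq' (hch p0) m0,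
      if_pos hc0, pow_succ]
    norm_num
    linarith

theorem hsum2 (J : ℕ) (R : ℝ) (ξ : E3) :
    ∑ b ∈ hB J R, Real.exp (-hx b.1) * hf b.1 b.2 ξ ^ 2 ≤ 2 := by
  rw [hB, sum_product]
  simp only
  set B := Fintype.piFinset
    (fun _ : Fin 3 => Finset.Icc (-⌈(2 : ℝ) ^ J * (R + 2)⌉) ⌈(2 : ℝ) ^ J * (R + 2)⌉)
  have h1 : ∀ n : ℕ, ∑ j ∈ range (n + 1), ∑ m ∈ B, Real.exp (-hx j) * hf j m ξ ^ 2 ≤
      2 - (2 ^ n : ℝ)⁻¹ := by
    intro n
    induction n with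
    | zero =>
      rw [sum_range_one, ← mul_sum, hx_exp]
      have := lev0 B ξ
      norm_num
      exact this
    | succ n ih =>
      rw [sum_range_succ, ← mul_sum, hx_exp]
      have h2 := levS n B ξ
      have h3 : ((16 : ℝ) ^ (n + 1))⁻¹ * ∑ m ∈ B, hf (n + 1) m ξ ^ 2 ≤
          ((16 : ℝ) ^ (n + 1))⁻¹ * (7 * 8 ^ n) := mul_le_mul_of_nonneg_left h2 (by positivity)
      have h4 : ((16 : ℝ) ^ (n + 1))⁻¹ * (7 * 8 ^ n) = 7 / 16 * (2 ^ n : ℝ)⁻¹ := by
        have : (16 : ℝ) ^ n = 8 ^ n * 2 ^ n := by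
          rw [← mul_pow]
          norm_num
        rw [pow_succ, this]
        field_simp
      have h5 : (2 ^ (n + 1) : ℝ)⁻¹ = 1 / 2 * (2 ^ n : ℝ)⁻¹ := by
        rw [pow_succ]
        field_simp
      have h6 : (0 : ℝ) < (2 ^ n : ℝ)⁻¹ := by positivity
      rw [h5]
      linarith
  have h2 := h1 J
  have h3 : (0 : ℝ) < (2 ^ J : ℝ)⁻¹ := by positivity
  linarith

private theorem Qc_fin (j : ℕ) (m : Fin 3 → ℤ) : volume (Qc j m) ≠ ⊤ := by
  intro h
  have h1 := Qc_vol j m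
  rw [h, ENNReal.toReal_top] at h1
  have : (0 : ℝ) < (8 ^ j)⁻¹ := by positivity
  linarith

section
variable {F : E3 → ℂ} (hF : Continuous F) (hc : HasCompactSupport F)
include hF hc

private theorem dx_eq (j : ℕ) (p : Fin 3 → ℤ) (x : E3) :
    ∫ y in Qc j p, ‖F x - F y‖ ^ 2 = (8 ^ j : ℝ)⁻¹ * ‖F x‖ ^ 2 -
      2 * inner ℝ (F x) (∫ ξ in Qc j p, F ξ) + ∫ ξ in Qc j p, ‖F ξ‖ ^ 2 := by
  have h1 : ∀ y, ‖F x - F y‖ ^ 2 = ‖F x‖ ^ 2 - 2 * inner ℝ (F x) (F y) + ‖F y‖ ^ 2 :=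
    fun y => norm_sub_sq_real _ _
  have i1 : IntegrableOn (fun ξ => ‖F ξ‖ ^ 2) (Qc j p) := (hpar_hi2 hF hc).integrableOn
  have i2 : IntegrableOn F (Qc j p) := (hpar_hi hF hc).integrableOn
  have i3 : IntegrableOn (fun ξ => 2 * inner ℝ (F x) (F ξ)) (Qc j p) :=
    (Integrable.const_inner _ i2).const_mul 2
  have i5 : IntegrableOn (fun _ : E3 => ‖F x‖ ^ 2) (Qc j p) :=
    integrableOn_const (Qc_fin j p) enorm_ne_top
  have i4 : IntegrableOn (fun ξ => ‖F x‖ ^ 2 - 2 * inner ℝ (F x) (F ξ)) (Qc j p) :=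
    i5.sub i3
  simp only [h1]
  rw [integral_add i4 i1, integral_sub i5 i3, integral_const_mul, integral_inner i2,
    setIntegral_const]
  have hv : (volume : Measure E3).real (Qc j p) = (8 ^ j)⁻¹ := Qc_vol j p
  rw [hv, smul_eq_mul]

private theorem dxi (j : ℕ) (p : Fin 3 → ℤ) :
    IntegrableOn (fun x => ∫ y in Qc j p, ‖F x - F y‖ ^ 2) (Qc j p) := by
  have i1 : IntegrableOn (fun ξ => ‖F ξ‖ ^ 2) (Qc j p) := (hpar_hi2 hF hc).integrableOn
  have i2 : IntegrableOn F (Qc j p) := (hpar_hi hF hc).integrableOn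
  have e : (fun x => ∫ y in Qc j p, ‖F x - F y‖ ^ 2) = fun x => (8 ^ j : ℝ)⁻¹ * ‖F x‖ ^ 2 -
      2 * inner ℝ (F x) (∫ ξ in Qc j p, F ξ) + ∫ ξ in Qc j p, ‖F ξ‖ ^ 2 :=
    funext fun x => dx_eq hF hc j p x
  rw [e]
  refine Integrable.add (Integrable.sub (i1.const_mul _)
    ((Integrable.inner_const i2 _).const_mul 2)) ?_
  exact integrableOn_const (Qc_fin j p) enorm_ne_top

private theorem dd_eq (j : ℕ) (p : Fin 3 → ℤ) :
    ∫ x in Qc j p, ∫ y in Qc j p, ‖F x - F y‖ ^ 2 = 2 * (8 ^ j : ℝ)⁻¹ *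
      ((∫ ξ in Qc j p, ‖F ξ‖ ^ 2) - 8 ^ j * ‖∫ ξ in Qc j p, F ξ‖ ^ 2) := by
  have i1 : IntegrableOn (fun ξ => ‖F ξ‖ ^ 2) (Qc j p) := (hpar_hi2 hF hc).integrableOn
  have i2 : IntegrableOn F (Qc j p) := (hpar_hi hF hc).integrableOn
  have i3 : IntegrableOn (fun ξ => 2 * inner ℝ (F ξ) (∫ ξ in Qc j p, F ξ)) (Qc j p) :=
    (Integrable.inner_const i2 _).const_mul 2
  have i4 : IntegrableOn (fun x => (8 ^ j : ℝ)⁻¹ * ‖F x‖ ^ 2 -
      2 * inner ℝ (F x) (∫ ξ in Qc j p, F ξ)) (Qc j p) := (i1.const_mul _).sub i3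
  have i5 : IntegrableOn (fun _ : E3 => ∫ ξ in Qc j p, ‖F ξ‖ ^ 2) (Qc j p) :=
    integrableOn_const (Qc_fin j p) enorm_ne_top
  simp only [dx_eq hF hc j p]
  rw [integral_add i4 i5, integral_sub (i1.const_mul _) i3, integral_const_mul,
    integral_const_mul, setIntegral_const]
  have hv : (volume : Measure E3).real (Qc j p) = (8 ^ j)⁻¹ := Qc_vol j p
  have h2 : ∫ x in Qc j p, inner ℝ (F x) (∫ ξ in Qc j p, F ξ) = ‖∫ ξ in Qc j p, F ξ‖ ^ 2 := by
    have h3 : ∀ x, inner ℝ (F x) (∫ ξ in Qc j p, F ξ) = inner ℝ (∫ ξ in Qc j p, F ξ) (F x) :=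
      fun x => real_inner_comm _ _
    simp only [h3]
    rw [integral_inner i2, real_inner_self_eq_norm_sq]
  rw [hv, h2, smul_eq_mul]
  field_simp
  ring

/-- the box of the differences -/
private def Bx (j : ℕ) : Set E3 := {h : E3 | ∀ d, |h d| ≤ ((2 : ℝ) ^ j)⁻¹}

omit hF hc in
private theorem Bx_meas (j : ℕ) : MeasurableSet (Bx j) := by
  have h : Bx j = ⋂ d : Fin 3, {v : E3 | |v d| ≤ ((2 : ℝ) ^ j)⁻¹} := by
    ext v
    simp only [Bx, Set.mem_ofPred_eq, Set.mem_iInter]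
  rw [h]
  refine MeasurableSet.iInter fun d => ?_
  exact measurableSet_le
    ((((EuclideanSpace.proj (𝕜 := ℝ) d).continuous).abs).measurable) measurable_const

omit hF hc in
private theorem Bx_vol (j : ℕ) : volume (Bx j) = ENNReal.ofReal (8 * ((8 : ℝ) ^ j)⁻¹) := by
  have hp : (0 : ℝ) < (2 ^ j)⁻¹ := by positivity
  have h1 : Bx j = (MeasurableEquiv.toLp 2 (Fin 3 → ℝ)).symm ⁻¹'
      (Set.pi Set.univ fun _ => Set.Icc (-((2 : ℝ) ^ j)⁻¹) ((2 ^ j)⁻¹)) := by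
    ext v
    simp only [Bx, Set.mem_ofPred_eq, Set.mem_preimage, Set.mem_pi, Set.mem_univ, true_implies,
      Set.mem_Icc, abs_le]
    rfl
  have h2 := (EuclideanSpace.volume_preserving_symm_measurableEquiv_toLp (Fin 3)).measure_preimage
    (MeasurableSet.univ_pi (fun _ : Fin 3 => measurableSet_Icc
      (a := -((2 : ℝ) ^ j)⁻¹) (b := ((2 : ℝ) ^ j)⁻¹))).nullMeasurableSet
  rw [h1, h2, volume_pi_pi]
  simp only [Real.volume_Icc]
  rw [prod_const, card_univ, Fintype.card_fin, ← ENNReal.ofReal_pow (by linarith)]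
  congr 1
  have : (8 : ℝ) ^ j = 2 ^ j * 2 ^ j * 2 ^ j := by
    rw [← mul_pow, ← mul_pow]
    norm_num
  rw [this]
  field_simp
  ring

private theorem dx_le (j : ℕ) (p : Fin 3 → ℤ) (x : E3) (hx : x ∈ Qc j p) :
    ENNReal.ofReal (∫ y in Qc j p, ‖F x - F y‖ ^ 2) ≤
      ∫⁻ h in Bx j, ENNReal.ofReal (‖F (x + h) - F x‖ ^ 2) := by
  have i1 : IntegrableOn (fun ξ => ‖F ξ‖ ^ 2) (Qc j p) := (hpar_hi2 hF hc).integrableOn
  have i2 : IntegrableOn F (Qc j p) := (hpar_hi hF hc).integrableOn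
  have i6 : IntegrableOn (fun y => ‖F x - F y‖ ^ 2) (Qc j p) := by
    have h1 : ∀ y, ‖F x - F y‖ ^ 2 = ‖F x‖ ^ 2 - 2 * inner ℝ (F x) (F y) + ‖F y‖ ^ 2 :=
      fun y => norm_sub_sq_real _ _
    have i3 : IntegrableOn (fun ξ => 2 * inner ℝ (F x) (F ξ)) (Qc j p) :=
      (Integrable.const_inner _ i2).const_mul 2
    have i5 : IntegrableOn (fun _ : E3 => ‖F x‖ ^ 2) (Qc j p) :=
      integrableOn_const (Qc_fin j p) enorm_ne_top
    simp only [h1]
    exact (i5.sub i3).add i1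
  rw [ofReal_integral_eq_lintegral_ofReal i6 (Filter.Eventually.of_forall fun y => by positivity),
    ← lintegral_indicator (Qc_meas j p), ← lintegral_indicator (Bx_meas j),
    ← lintegral_add_left_eq_self _ x]
  refine lintegral_mono fun h => ?_
  by_cases hh : x + h ∈ Qc j p
  · have hb : h ∈ Bx j := by
      intro d
      have hp : (0 : ℝ) < 2 ^ j := by positivity
      obtain ⟨a1, a2⟩ := hx d
      obtain ⟨b1, b2⟩ := hh d
      have e : (x + h) d = x d + h d := rfl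
      rw [e] at b1 b2
      have h4 : |2 ^ j * h d| ≤ 1 := by
        rw [abs_le]
        constructor <;> nlinarith
      rw [abs_mul, abs_of_pos hp] at h4
      rw [← one_div, le_div_iff₀ hp, mul_comm]
      exact h4
    rw [Set.indicator_of_mem hh, Set.indicator_of_mem hb, norm_sub_rev]
  · rw [Set.indicator_of_notMem hh]
    exact bot_le

private theorem dsum (j : ℕ) (K : Finset (Fin 3 → ℤ)) (G : ℝ)
    (hG : ∀ h ∈ Bx j, ∫ v, ‖F (v + h) - F v‖ ^ 2 ≤ G) :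
    ∑ p ∈ K, ((∫ ξ in Qc j p, ‖F ξ‖ ^ 2) - 8 ^ j * ‖∫ ξ in Qc j p, F ξ‖ ^ 2) ≤ 4 * G := by
  have hG0 : 0 ≤ G := by
    have h0 : (0 : E3) ∈ Bx j := by
      intro d
      have : (0 : E3) d = 0 := rfl
      rw [this, abs_zero]
      positivity
    exact (integral_nonneg fun v => by positivity).trans (hG 0 h0)
  have h8 : (0 : ℝ) < 8 ^ j := by positivity
  have hcont : Continuous (Function.uncurry fun (x : E3) (h : E3) =>
      ENNReal.ofReal (‖F (x + h) - F x‖ ^ 2)) := by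
    apply ENNReal.continuous_ofReal.comp
    exact ((hF.comp (continuous_fst.add continuous_snd)).sub (hF.comp continuous_fst)).norm.pow 2
  have hint : ∀ h, Integrable (fun v => ‖F (v + h) - F v‖ ^ 2) := by
    intro h
    have h1 : Continuous (fun v => ‖F (v + h) - F v‖ ^ 2) :=
      ((hF.comp (continuous_id.add continuous_const)).sub hF).norm.pow 2
    have h2 : HasCompactSupport (fun v => F (v + h) - F v) := by
      have h3 : HasCompactSupport (fun v => F (v + h)) :=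
        hc.comp_homeomorph (Homeomorph.addRight h)
      have h4 := h3.add hc.neg
      refine h4.mono' ?_
      intro v hv
      apply subset_tsupport
      simpa [sub_eq_add_neg] using hv
    have h5 : HasCompactSupport (fun v => ‖F (v + h) - F v‖ ^ 2) := by
      have := h2.comp_left (g := fun z : ℂ => ‖z‖ ^ 2) (by rw [norm_zero]; norm_num)
      exact this
    exact h1.integrable_of_hasCompactSupport h5
  have key : ENNReal.ofReal (∑ p ∈ K, ∫ x in Qc j p, ∫ y in Qc j p, ‖F x - F y‖ ^ 2) ≤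
      ENNReal.ofReal (8 * (8 ^ j : ℝ)⁻¹ * G) := by
    rw [ENNReal.ofReal_sum_of_nonneg fun p _ =>
      integral_nonneg fun x => integral_nonneg fun y => by positivity]
    calc ∑ p ∈ K, ENNReal.ofReal (∫ x in Qc j p, ∫ y in Qc j p, ‖F x - F y‖ ^ 2)
        = ∑ p ∈ K, ∫⁻ x in Qc j p, ENNReal.ofReal (∫ y in Qc j p, ‖F x - F y‖ ^ 2) := by
          refine sum_congr rfl fun p _ => ?_
          exact ofReal_integral_eq_lintegral_ofReal (dxi hF hc j p)
            (Filter.Eventually.of_forall fun x => integral_nonneg fun y => by positivity)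
      _ ≤ ∑ p ∈ K, ∫⁻ x in Qc j p, ∫⁻ h in Bx j, ENNReal.ofReal (‖F (x + h) - F x‖ ^ 2) := by
          refine sum_le_sum fun p _ => ?_
          exact setLIntegral_mono' (Qc_meas j p) fun x hx => dx_le hF hc j p x hx
      _ = ∫⁻ x in ⋃ p ∈ K, Qc j p, ∫⁻ h in Bx j, ENNReal.ofReal (‖F (x + h) - F x‖ ^ 2) :=
          (lintegral_biUnion_finset (Qc_disj j _) (fun p _ => Qc_meas j p) _).symm
      _ ≤ ∫⁻ x, ∫⁻ h in Bx j, ENNReal.ofReal (‖F (x + h) - F x‖ ^ 2) :=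
          setLIntegral_le_lintegral _ _
      _ = ∫⁻ h in Bx j, ∫⁻ x, ENNReal.ofReal (‖F (x + h) - F x‖ ^ 2) :=
          lintegral_lintegral_swap hcont.measurable.aemeasurable
      _ ≤ ∫⁻ _ in Bx j, ENNReal.ofReal G := by
          refine setLIntegral_mono' (Bx_meas j) fun h hh => ?_
          rw [← ofReal_integral_eq_lintegral_ofReal (hint h)
            (Filter.Eventually.of_forall fun x => by positivity)]
          exact ENNReal.ofReal_le_ofReal (hG h hh)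
      _ = ENNReal.ofReal (8 * (8 ^ j : ℝ)⁻¹ * G) := by
          rw [setLIntegral_const, Bx_vol, mul_comm, ← ENNReal.ofReal_mul (by positivity)]
  rw [ENNReal.ofReal_le_ofReal_iff (by positivity)] at key
  simp only [dd_eq hF hc j] at key
  rw [← mul_sum] at key
  have h9 : (0 : ℝ) < (8 ^ j)⁻¹ := by positivity
  have h10 : (8 ^ j : ℝ)⁻¹ * (∑ p ∈ K, ((∫ ξ in Qc j p, ‖F ξ‖ ^ 2) -
      8 ^ j * ‖∫ ξ in Qc j p, F ξ‖ ^ 2)) ≤ (8 ^ j : ℝ)⁻¹ * (4 * G) := by linarith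
  exact le_of_mul_le_mul_left h10 h9

end

private theorem fd_g3 (F : E3 → ℂ) (v h : E3) (l : ℝ) (hl : ∀ d, |h d| ≤ l) :
    ‖fderiv ℝ F v h‖ ^ 2 ≤ 3 * l ^ 2 * g3 F v := by
  have h1 : h = ∑ d : Fin 3, h d • EuclideanSpace.single d (1 : ℝ) := by
    ext i
    fin_cases i <;> simp [Fin.sum_univ_three]
  have hl0 : 0 ≤ l := (abs_nonneg _).trans (hl 0)
  have h2 : ‖fderiv ℝ F v h‖ ≤
      ∑ d : Fin 3, l * ‖fderiv ℝ F v (EuclideanSpace.single d (1 : ℝ))‖ := by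
    conv_lhs => rw [h1]
    rw [map_sum]
    refine (norm_sum_le _ _).trans (sum_le_sum fun d _ => ?_)
    rw [map_smul, norm_smul, Real.norm_eq_abs]
    exact mul_le_mul_of_nonneg_right (hl d) (norm_nonneg _)
  rw [← mul_sum] at h2
  have h3 : (∑ d : Fin 3, ‖fderiv ℝ F v (EuclideanSpace.single d (1 : ℝ))‖) ^ 2 ≤
      3 * ∑ d : Fin 3, ‖fderiv ℝ F v (EuclideanSpace.single d (1 : ℝ))‖ ^ 2 := by
    have := sq_sum_le_card_mul_sum_sq (s := (univ : Finset (Fin 3)))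
      (f := fun d => ‖fderiv ℝ F v (EuclideanSpace.single d (1 : ℝ))‖)
    rw [card_univ, Fintype.card_fin] at this
    exact_mod_cast this
  calc ‖fderiv ℝ F v h‖ ^ 2 ≤
        (l * ∑ d : Fin 3, ‖fderiv ℝ F v (EuclideanSpace.single d (1 : ℝ))‖) ^ 2 :=
        pow_le_pow_left₀ (norm_nonneg _) h2 2
    _ = l ^ 2 * (∑ d : Fin 3, ‖fderiv ℝ F v (EuclideanSpace.single d (1 : ℝ))‖) ^ 2 := by ring
    _ ≤ l ^ 2 * (3 * ∑ d : Fin 3, ‖fderiv ℝ F v (EuclideanSpace.single d (1 : ℝ))‖ ^ 2) :=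
        mul_le_mul_of_nonneg_left h3 (by positivity)
    _ = 3 * l ^ 2 * g3 F v := by
        unfold g3
        ring

private theorem g3_int (F : E3 → ℂ) (hF : ContDiff ℝ 1 F) (hc : HasCompactSupport F) :
    Integrable (g3 F) := by
  unfold g3
  refine integrable_finsetSum _ fun d _ => ?_
  have h1 : Continuous (fun v => ‖fderiv ℝ F v (EuclideanSpace.single d (1 : ℝ))‖ ^ 2) :=
    ((hF.continuous_fderiv one_ne_zero).clm_apply continuous_const).norm.pow 2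
  have h2 : HasCompactSupport (fun v => ‖fderiv ℝ F v (EuclideanSpace.single d (1 : ℝ))‖ ^ 2) := by
    have := (hc.fderiv ℝ).comp_left
      (g := fun L : E3 →L[ℝ] ℂ => ‖L (EuclideanSpace.single d (1 : ℝ))‖ ^ 2) (by simp)
    exact this
  exact h1.integrable_of_hasCompactSupport h2

theorem hlev (F : E3 → ℂ) (hF : ContDiff ℝ 1 F) (hc : HasCompactSupport F) (j : ℕ)
    (B : Finset (Fin 3 → ℤ)) :
    ∑ m ∈ B, ‖∫ ξ, ((hf (j + 1) m ξ : ℝ) : ℂ) * F ξ‖ ^ 2 ≤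
      12 * ((4 : ℝ) ^ j)⁻¹ * ∫ v, g3 F v := by
  classical
  have hFc := hF.continuous
  set K : Finset (Fin 3 → ℤ) := B.image fun m d => m d / 2 with hK
  have h1 : B ⊆ K.biUnion hch := by
    intro m hm
    rw [mem_biUnion]
    exact ⟨fun d => m d / 2, mem_image_of_mem _ hm, (mem_hch _ _).2 rfl⟩
  refine (sum_le_sum_of_subset_of_nonneg h1 fun _ _ _ => by positivity).trans ?_
  rw [sum_biUnion (hch_disj _)]
  have h2 : ∀ p ∈ K, ∑ m ∈ hch p, ‖∫ ξ, ((hf (j + 1) m ξ : ℝ) : ℂ) * F ξ‖ ^ 2 ≤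
      (∫ ξ in Qc j p, ‖F ξ‖ ^ 2) - 8 ^ j * ‖∫ ξ in Qc j p, F ξ‖ ^ 2 := by
    intro p _
    rw [hch_sum hFc hc]
    have h3 : ∫ ξ in Qc j p, ‖F ξ‖ ^ 2 = ∑ m ∈ hch p, ∫ ξ in Qc (j + 1) m, ‖F ξ‖ ^ 2 := by
      rw [← integral_biUnion_finset (hch p) (s := Qc (j + 1)) (fun m _ => Qc_meas _ m)
        (Qc_disj _ _) fun m _ => (hpar_hi2 hFc hc).integrableOn]
      exact congrArg (fun S => ∫ ξ in S, ‖F ξ‖ ^ 2) (Qc_ch j p)
    have h4 : 8 ^ (j + 1) * ∑ m ∈ hch p, ‖∫ ξ in Qc (j + 1) m, F ξ‖ ^ 2 ≤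
        ∑ m ∈ hch p, ∫ ξ in Qc (j + 1) m, ‖F ξ‖ ^ 2 := by
      rw [mul_sum]
      refine sum_le_sum fun m _ => ?_
      have h5 := dd_eq hFc hc (j + 1) m
      have h6 : 0 ≤ ∫ x in Qc (j + 1) m, ∫ y in Qc (j + 1) m, ‖F x - F y‖ ^ 2 :=
        integral_nonneg fun x => integral_nonneg fun y => by positivity
      rw [h5] at h6
      have h7 : (0 : ℝ) < 2 * (8 ^ (j + 1))⁻¹ := by positivity
      have h8 := nonneg_of_mul_nonneg_right h6 h7
      linarith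
    linarith
  refine (sum_le_sum h2).trans ?_
  have h3 := dsum hFc hc j K (3 * (((2 : ℝ) ^ j)⁻¹) ^ 2 * ∫ v, g3 F v) (by
    intro h hh
    refine (trans_le F hF hc h).trans ?_
    rw [← integral_const_mul]
    refine integral_mono_of_nonneg (Filter.Eventually.of_forall fun v => by positivity)
      ((g3_int F hF hc).const_mul _) (Filter.Eventually.of_forall fun v => ?_)
    exact fd_g3 F v h _ hh)
  refine h3.trans (le_of_eq ?_)
  have : (4 : ℝ) ^ j = (2 ^ j) ^ 2 := by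
    rw [← pow_mul, mul_comm j 2, pow_mul]
    norm_num
  rw [this]
  field_simp
  ring

private theorem tail_sum (L n : ℕ) : ∑ j ∈ range n, (if L ≤ j then (2⁻¹ : ℝ) ^ j else 0) ≤
    if n ≤ L then 0 else 2 * (2⁻¹ : ℝ) ^ L - 2 * (2⁻¹ : ℝ) ^ n := by
  induction n with
  | zero => simp
  | succ n ih =>
    rw [sum_range_succ]
    rcases lt_trichotomy n L with h | h | h
    · rw [if_pos h.le] at ih
      rw [if_neg (by omega), if_pos (by omega)]
      linarith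
    · subst h
      rw [if_pos le_rfl] at ih
      rw [if_pos le_rfl, if_neg (by omega), pow_succ]
      linarith
    · rw [if_neg (by omega)] at ih
      rw [if_pos (by omega), if_neg (by omega), pow_succ]
      linarith

theorem hcost (δ : ℝ) (hδ : 0 < δ) : ∃ C : ℝ, 0 ≤ C ∧ ∀ (F : E3 → ℂ) (_ : ContDiff ℝ 1 F)
    (_ : HasCompactSupport F) (J : ℕ) (R : ℝ),
    ∑ b ∈ hB J R, hx b.1 * ‖∫ ξ, ((hf b.1 b.2 ξ : ℝ) : ℂ) * F ξ‖ ^ 2 ≤
      δ * (∫ v, g3 F v) + C * ∫ v, ‖F v‖ ^ 2 := by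
  have hlog : 0 < Real.log 16 := Real.log_pos (by norm_num)
  obtain ⟨L, hL⟩ : ∃ L : ℕ, (2⁻¹ : ℝ) ^ L < δ / (96 * Real.log 16) :=
    exists_pow_lt_of_lt_one (by positivity) (by norm_num)
  have hL2 : 48 * Real.log 16 * (2 * (2⁻¹ : ℝ) ^ L) ≤ δ := by
    rw [lt_div_iff₀ (by positivity)] at hL
    linarith
  refine ⟨L * Real.log 16, by positivity, fun F hF hc J R => ?_⟩
  set G := ∫ v, g3 F v with hG
  have hG0 : 0 ≤ G := integral_nonneg fun v => g3_nonneg F v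
  have hpar := hpar_le F hF.continuous hc (hB J R)
  rw [hB, sum_product] at hpar ⊢
  simp only at hpar ⊢
  set B := Fintype.piFinset
    (fun _ : Fin 3 => Finset.Icc (-⌈(2 : ℝ) ^ J * (R + 2)⌉) ⌈(2 : ℝ) ^ J * (R + 2)⌉)
  have h1 : ∀ j ∈ range (J + 1), ∑ m ∈ B, hx j * ‖∫ ξ, ((hf j m ξ : ℝ) : ℂ) * F ξ‖ ^ 2 ≤
      L * Real.log 16 * (∑ m ∈ B, ‖∫ ξ, ((hf j m ξ : ℝ) : ℂ) * F ξ‖ ^ 2) +
        48 * Real.log 16 * G * (if L ≤ j then (2⁻¹ : ℝ) ^ j else 0) := by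
    intro j _
    rw [← mul_sum]
    have hS : 0 ≤ ∑ m ∈ B, ‖∫ ξ, ((hf j m ξ : ℝ) : ℂ) * F ξ‖ ^ 2 :=
      sum_nonneg fun _ _ => by positivity
    by_cases hj : L ≤ j
    · rw [if_pos hj]
      cases j with
      | zero =>
        have : hx 0 = 0 := by simp [hx]
        rw [this, zero_mul]
        positivity
      | succ j =>
        have h2 := hlev F hF hc j B
        have h3 : hx (j + 1) * (∑ m ∈ B, ‖∫ ξ, ((hf (j + 1) m ξ : ℝ) : ℂ) * F ξ‖ ^ 2) ≤
            hx (j + 1) * (12 * ((4 : ℝ) ^ j)⁻¹ * G) := by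
          refine mul_le_mul_of_nonneg_left h2 ?_
          unfold hx
          positivity
        have h4 : ((j + 1 : ℕ) : ℝ) ≤ 2 ^ (j + 1) := by
          exact_mod_cast (Nat.lt_two_pow_self (n := j + 1)).le
        have h5 : hx (j + 1) * (12 * ((4 : ℝ) ^ j)⁻¹ * G) ≤
            48 * Real.log 16 * G * (2⁻¹ : ℝ) ^ (j + 1) := by
          unfold hx
          have h6 : (4 : ℝ) ^ j = 2 ^ j * 2 ^ j := by
            rw [← mul_pow]
            norm_num
          have h7 : ((j + 1 : ℕ) : ℝ) * Real.log 16 * (12 * ((4 : ℝ) ^ j)⁻¹ * G) ≤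
              2 ^ (j + 1) * Real.log 16 * (12 * ((4 : ℝ) ^ j)⁻¹ * G) := by
            refine mul_le_mul_of_nonneg_right ?_ (by positivity)
            exact mul_le_mul_of_nonneg_right h4 hlog.le
          refine h7.trans (le_of_eq ?_)
          rw [h6, pow_succ, inv_pow]
          field_simp
          ring
        have h8 : 0 ≤ L * Real.log 16 *
            (∑ m ∈ B, ‖∫ ξ, ((hf (j + 1) m ξ : ℝ) : ℂ) * F ξ‖ ^ 2) := by positivity
        linarith
    · rw [if_neg hj, mul_zero, add_zero]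
      refine mul_le_mul_of_nonneg_right ?_ hS
      unfold hx
      refine mul_le_mul_of_nonneg_right ?_ hlog.le
      exact_mod_cast (not_le.1 hj).le
  refine (sum_le_sum h1).trans ?_
  rw [sum_add_distrib, ← mul_sum, ← mul_sum]
  have h2 := tail_sum L (J + 1)
  have h3 : (if J + 1 ≤ L then 0 else 2 * (2⁻¹ : ℝ) ^ L - 2 * (2⁻¹ : ℝ) ^ (J + 1)) ≤
      2 * (2⁻¹ : ℝ) ^ L := by
    have h4 : (0 : ℝ) < 2⁻¹ ^ L := by positivity
    have h5 : (0 : ℝ) < 2⁻¹ ^ (J + 1) := by positivity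
    split_ifs <;> linarith
  have h4 : 48 * Real.log 16 * G * ∑ j ∈ range (J + 1), (if L ≤ j then (2⁻¹ : ℝ) ^ j else 0) ≤
      48 * Real.log 16 * G * (2 * (2⁻¹ : ℝ) ^ L) :=
    mul_le_mul_of_nonneg_left (h2.trans h3) (by positivity)
  have h5 : 48 * Real.log 16 * G * (2 * (2⁻¹ : ℝ) ^ L) ≤ δ * G := by
    calc 48 * Real.log 16 * G * (2 * (2⁻¹ : ℝ) ^ L) =
          48 * Real.log 16 * (2 * (2⁻¹ : ℝ) ^ L) * G := by ring
      _ ≤ δ * G := mul_le_mul_of_nonneg_right hL2 hG0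
  have h6 : L * Real.log 16 * ∑ j ∈ range (J + 1), ∑ m ∈ B,
      ‖∫ ξ, ((hf j m ξ : ℝ) : ℂ) * F ξ‖ ^ 2 ≤ L * Real.log 16 * ∫ v, ‖F v‖ ^ 2 :=
    mul_le_mul_of_nonneg_left hpar (by positivity)
  linarith

end H6.CT
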