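import Pool.Agent.H6.CT.TrfSt
import Pool.Agent.H6.CT.HPoi
import Pool.Agent.H6.CM.Exch
import Pool.Agent.H6.CM.Reloc

/-! Mass and energy after the relocation of electron `a`, summed over the frame. `trf_mean`: `|trf .. σ p|² = chr ^ 2 (p.1 a - w) * ‖∫ ξ, hf * G (update σ a τ) (update p.1 a ξ, p.2)‖ ^ 2`, so with the weight `u p = ∫ v, chr χ r (v - w) ^ 2 * F (update p.1 a v, p.2)` (which does not depend on `p.1 a`) the sum over `τ` and over the frame tends to `∑ τ, ∑ σ (σ a = α), ∫ p, chr ^ 2 (p.1 a - w) * u p * ∫ ξ, ‖G (update σ a τ) (update p.1 a ξ, p.2)‖ ^ 2 = mean G u` (`hpar_lim` for almost all `p`, `hpar_le` as domination, dominated convergence; `exch` of `Pool/Agent/H6/CM/Exch.lean` for the last equation). `trf_energy`: for the kinetic energies of the other particles apply `trf_mean` (with `F = 1`) to the partial derivatives of `φ` (the integral over `ξ` commutes with them); the kinetic energy of electron `a` is `(r ^ 2)⁻¹ * (∫ gr χ)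 * mass (trf ..)`; the potential energy is `trf_mean` with `F = V z`, and `V z (update p.1 a v, p.2) = V z p + phiE z a p (p.1 a) - phiE z a p v` (as in `Pool/Agent/H6/CM/Reloc.lean`). `trf_cost`: `hcost` for almost all values of the other variables. -/

open MeasureTheory Finset

namespace H6.CT

open H6.CM H6.CB H6.CL

/-- the sum over the spins -/
private theorem en_spin {q n : ℕ} (a : Fin n) (α : Fin q) {ι : Type*} (B : Finset ι)
    (A : ι → (Fin n → Fin q) → ℝ) :
    ∑ τ : Fin q, ∑ b ∈ B, ∑ σ : Fin n → Fin q,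
        (if σ a = α then A b (Function.update σ a τ) else 0) =
      ∑ σ, ∑ b ∈ B, A b σ := by
  rw [sum_comm, sum_comm (s := univ) (t := B)]
  refine sum_congr rfl fun b _ => ?_
  rw [← sum_product', ← sum_filter]
  refine sum_nbij' (fun z => Function.update z.2 a z.1)
    (fun σ => (σ a, Function.update σ a α)) ?_ ?_ ?_ ?_ ?_
  · intro z _
    exact mem_univ _
  · intro σ _
    simp
  · rintro ⟨τ, σ⟩ hz
    have h1 : σ a = α := (mem_filter.1 hz).2
    dsimp only
    rw [Function.update_self, Function.update_idem, ← h1, Function.update_eq_self]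
  · intro σ _
    dsimp only
    rw [Function.update_idem, Function.update_eq_self]
  · intro z _
    rfl

/-- exchange of the position of electron `a` -/
private theorem en_ex {n k : ℕ} (a : Fin n) (K G : Cfg n k → ℝ)
    (hI : Integrable fun u : Cfg n k × E3 =>
      K (Function.update u.1.1 a u.2, u.1.2) * G u.1) :
    Integrable (fun p : Cfg n k => K p * ∫ ξ, G (Function.update p.1 a ξ, p.2)) ∧
    ∫ p : Cfg n k, K p * ∫ ξ, G (Function.update p.1 a ξ, p.2) =
      ∫ p : Cfg n k, (∫ v, K (Function.update p.1 a v, p.2)) * G p := by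
  have h1 := swE_intble a (fun u : Cfg n k × E3 =>
      K (Function.update u.1.1 a u.2, u.1.2) * G u.1) hI
  have h2 := swE_int a (fun u : Cfg n k × E3 =>
      K (Function.update u.1.1 a u.2, u.1.2) * G u.1)
  have e1 : ∀ u : Cfg n k × E3, K (Function.update (swE a u).1.1 a (swE a u).2, (swE a u).1.2) *
      G (swE a u).1 = K u.1 * G (Function.update u.1.1 a u.2, u.1.2) := by
    intro u
    unfold swE
    dsimp only
    rw [Function.update_idem, Function.update_eq_self]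
  simp only [e1] at h1 h2
  have h3 := hI
  rw [Measure.volume_eq_prod] at h1 h2 h3
  rw [integral_prod _ h1, integral_prod _ h3] at h2
  have h4 := h1.integral_prod_left
  simp only [integral_const_mul, integral_mul_const] at h2 h4
  exact ⟨h4, h2⟩

section upd

variable {n k : ℕ} (a : Fin n)

private theorem upd_cont : Continuous fun u : Cfg n k × E3 =>
    ((Function.update u.1.1 a u.2, u.1.2) : Cfg n k) :=
  Continuous.prodMk ((continuous_fst.comp continuous_fst).update a continuous_snd)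
    (continuous_snd.comp continuous_fst)

private theorem upd_cont1 (p : Cfg n k) : Continuous fun ξ : E3 =>
    ((Function.update p.1 a ξ, p.2) : Cfg n k) :=
  Continuous.prodMk (continuous_const.update a continuous_id) continuous_const

private theorem upd_cpt {F : Type*} [NormedAddCommGroup F] {g : Cfg n k → F}
    (hgc : HasCompactSupport g) (p : Cfg n k) :
    HasCompactSupport fun ξ : E3 => g (Function.update p.1 a ξ, p.2) := by
  refine HasCompactSupport.intro (hgc.isCompact.image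
    ((continuous_apply a).comp continuous_fst : Continuous fun q : Cfg n k => q.1 a)) ?_
  intro ξ hξ
  by_contra hne
  apply hξ
  refine ⟨(Function.update p.1 a ξ, p.2), subset_tsupport _ hne, ?_⟩
  exact Function.update_self a ξ p.1

/-- the integrated functions -/
private noncomputable def Ui (f : E3 → ℝ) (g : Cfg n k → ℂ) (p : Cfg n k) : ℂ :=
  ∫ ξ, ((f ξ : ℝ) : ℂ) * g (Function.update p.1 a ξ, p.2)

private theorem Ui_meas {f : E3 → ℝ} (hf : Measurable f) {g : Cfg n k → ℂ}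
    (hg : Continuous g) : StronglyMeasurable (Ui a f g) := by
  have h1 : StronglyMeasurable fun u : Cfg n k × E3 =>
      ((f u.2 : ℝ) : ℂ) * g (Function.update u.1.1 a u.2, u.1.2) :=
    (Complex.measurable_ofReal.comp (hf.comp measurable_snd)).stronglyMeasurable.mul
      (hg.comp (upd_cont a)).stronglyMeasurable
  exact h1.integral_prod_right'

private theorem Ui_upd (f : E3 → ℝ) (g : Cfg n k → ℂ) (p : Cfg n k) (v : E3) :
    Ui a f g (Function.update p.1 a v, p.2) = Ui a f g p := by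
  unfold Ui
  simp only [Function.update_idem]

private theorem en_le {g : Cfg n k → ℂ} (hg : Continuous g) (hgc : HasCompactSupport g)
    (B : Finset (ℕ × (Fin 3 → ℤ))) (p : Cfg n k) :
    ∑ b ∈ B, ‖Ui a (hf b.1 b.2) g p‖ ^ 2 ≤ ∫ ξ, ‖g (Function.update p.1 a ξ, p.2)‖ ^ 2 :=
  hpar_le _ (hg.comp (upd_cont1 a p)) (upd_cpt a hgc p) B

private theorem en_int (K : Cfg n k → ℝ) (hK : Measurable K) (g : Cfg n k → ℂ)
    (hg : Continuous g) (hgc : HasCompactSupport g)
    (hI : Integrable fun u : Cfg n k × E3 =>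
      K (Function.update u.1.1 a u.2, u.1.2) * ‖g u.1‖ ^ 2) (b : ℕ × (Fin 3 → ℤ)) :
    Integrable fun p : Cfg n k => K p * ‖Ui a (hf b.1 b.2) g p‖ ^ 2 := by
  obtain ⟨e1, e2⟩ := en_ex a K (fun p => ‖g p‖ ^ 2) hI
  have hn : ∀ p : Cfg n k, 0 ≤ ∫ ξ, ‖g (Function.update p.1 a ξ, p.2)‖ ^ 2 := fun p =>
    integral_nonneg fun ξ => sq_nonneg _
  refine e1.norm.mono' ?_ (Filter.Eventually.of_forall fun p => ?_)
  · exact hK.aestronglyMeasurable.mul
      ((Ui_meas a (hf_meas b.1 b.2) hg).norm.pow 2).aestronglyMeasurable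
  · have h1 := en_le a hg hgc {b} p
    rw [sum_singleton] at h1
    rw [norm_mul, norm_mul, Real.norm_of_nonneg (hn p), norm_pow, norm_norm]
    exact mul_le_mul_of_nonneg_left h1 (norm_nonneg _)

/-- the sum over the frame -/
private theorem en_core (K : Cfg n k → ℝ) (hK : Measurable K) (g : Cfg n k → ℂ)
    (hg : Continuous g) (hgc : HasCompactSupport g) (R : ℝ)
    (hR : ∀ p, g p ≠ 0 → ‖p.1 a‖ ≤ R)
    (hI : Integrable fun u : Cfg n k × E3 =>
      K (Function.update u.1.1 a u.2, u.1.2) * ‖g u.1‖ ^ 2) :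
    (∀ b : ℕ × (Fin 3 → ℤ), Integrable fun p : Cfg n k =>
      K p * ‖Ui a (hf b.1 b.2) g p‖ ^ 2) ∧
    Filter.Tendsto (fun J : ℕ => ∑ b ∈ hB J R, ∫ p, K p * ‖Ui a (hf b.1 b.2) g p‖ ^ 2)
      Filter.atTop (nhds (∫ p : Cfg n k, (∫ v, K (Function.update p.1 a v, p.2)) *
        ‖g p‖ ^ 2)) := by
  obtain ⟨e1, e2⟩ := en_ex a K (fun p => ‖g p‖ ^ 2) hI
  have hc1 : ∀ p : Cfg n k, Continuous fun ξ : E3 => g (Function.update p.1 a ξ, p.2) :=
    fun p => hg.comp (upd_cont1 a p)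
  have hle := en_le a hg hgc
  have hn : ∀ p : Cfg n k, 0 ≤ ∫ ξ, ‖g (Function.update p.1 a ξ, p.2)‖ ^ 2 := fun p =>
    integral_nonneg fun ξ => sq_nonneg _
  have hint : ∀ b : ℕ × (Fin 3 → ℤ), Integrable fun p : Cfg n k =>
      K p * ‖Ui a (hf b.1 b.2) g p‖ ^ 2 := en_int a K hK g hg hgc hI
  refine ⟨hint, ?_⟩
  have h2 : ∀ J : ℕ, ∑ b ∈ hB J R, ∫ p, K p * ‖Ui a (hf b.1 b.2) g p‖ ^ 2 =
      ∫ p, K p * ∑ b ∈ hB J R, ‖Ui a (hf b.1 b.2) g p‖ ^ 2 := by
    intro J
    rw [← integral_finsetSum _ fun b _ => hint b]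
    simp only [mul_sum]
  simp only [h2]
  rw [← e2]
  refine tendsto_integral_of_dominated_convergence
    (fun p : Cfg n k => ‖K p * ∫ ξ, ‖g (Function.update p.1 a ξ, p.2)‖ ^ 2‖) ?_ e1.norm ?_ ?_
  · intro J
    have h3 : Integrable fun p => K p * ∑ b ∈ hB J R, ‖Ui a (hf b.1 b.2) g p‖ ^ 2 := by
      simp only [mul_sum]
      exact integrable_finsetSum _ fun b _ => hint b
    exact h3.aestronglyMeasurable
  · intro J
    refine Filter.Eventually.of_forall fun p => ?_
    have h1 := hle (hB J R) p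
    have h4 : 0 ≤ ∑ b ∈ hB J R, ‖Ui a (hf b.1 b.2) g p‖ ^ 2 := sum_nonneg fun b _ => sq_nonneg _
    rw [norm_mul, norm_mul, Real.norm_of_nonneg (hn p), Real.norm_of_nonneg h4]
    exact mul_le_mul_of_nonneg_left h1 (norm_nonneg _)
  · refine Filter.Eventually.of_forall fun p => ?_
    refine Filter.Tendsto.const_mul _ ?_
    refine hpar_lim R (fun ξ => g (Function.update p.1 a ξ, p.2)) (hc1 p) ?_
    intro ξ hξ
    have h5 := hR _ hξ
    simpa using h5

private theorem en_gen {q : ℕ} (α : Fin q) {D : Type} [Fintype D] (K : Cfg n k → ℝ)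
    (hK : Measurable K) (g : D → (Fin n → Fin q) → Cfg n k → ℂ)
    (hg : ∀ d σ, Continuous (g d σ)) (hgc : ∀ d σ, HasCompactSupport (g d σ)) (R : ℝ)
    (hR : ∀ d σ p, g d σ p ≠ 0 → ‖p.1 a‖ ≤ R)
    (hI : ∀ d σ, Integrable fun u : Cfg n k × E3 =>
      K (Function.update u.1.1 a u.2, u.1.2) * ‖g d σ u.1‖ ^ 2)
    (T : (E3 → ℝ) → Fin q → ℝ)
    (hT : ∀ (b : ℕ × (Fin 3 → ℤ)) τ, T (hf b.1 b.2) τ = ∑ σ : Fin n → Fin q,
      (if σ a = α then ∫ p : Cfg n k, ∑ d, K p *
        ‖Ui a (hf b.1 b.2) (g d (Function.update σ a τ)) p‖ ^ 2 else 0)) :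
    Filter.Tendsto (fun J : ℕ => ∑ τ, ∑ b ∈ hB J R, T (hf b.1 b.2) τ) Filter.atTop
      (nhds (∑ σ, ∑ d, ∫ p : Cfg n k, (∫ v, K (Function.update p.1 a v, p.2)) *
        ‖g d σ p‖ ^ 2)) := by
  have h0 := fun d σ => en_core a K hK (g d σ) (hg d σ) (hgc d σ) R (hR d σ) (hI d σ)
  have h1 : ∀ J : ℕ, ∑ τ, ∑ b ∈ hB J R, T (hf b.1 b.2) τ =
      ∑ σ, ∑ d, ∑ b ∈ hB J R, ∫ p : Cfg n k, K p * ‖Ui a (hf b.1 b.2) (g d σ) p‖ ^ 2 := by
    intro J
    simp only [hT]
    rw [en_spin a α (hB J R) fun b σ => ∫ p : Cfg n k, ∑ d, K p *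
        ‖Ui a (hf b.1 b.2) (g d σ) p‖ ^ 2]
    refine sum_congr rfl fun σ _ => ?_
    rw [sum_comm (s := univ) (t := hB J R)]
    refine sum_congr rfl fun b _ => ?_
    exact integral_finsetSum _ fun d _ => (h0 d σ).1 b
  simp only [h1]
  exact tendsto_finsetSum _ fun σ _ => tendsto_finsetSum _ fun d _ => (h0 d σ).2

/-- forgetting the position of electron `a` -/
private noncomputable def La : Cfg n k →L[ℝ] Cfg n k :=
  (ContinuousLinearMap.pi fun b : Fin n => if b = a then 0 else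
    (ContinuousLinearMap.proj (R := ℝ) (φ := fun _ : Fin n => E3) b).comp
      (ContinuousLinearMap.fst ℝ (Fin n → E3) (Fin k → E3))).prod
    (ContinuousLinearMap.snd ℝ (Fin n → E3) (Fin k → E3))

private theorem La_eq (p : Cfg n k) : La a p = (Function.update p.1 a 0, p.2) := by
  refine Prod.ext ?_ rfl
  funext b
  by_cases hb : b = a
  · subst hb
    simp [La]
  · simp [La, hb]

private theorem upd_La (ξ : E3) (p : Cfg n k) : ((Function.update p.1 a ξ, p.2) : Cfg n k) =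
    La a p + ((Function.update (0 : Fin n → E3) a ξ, 0) : Cfg n k) := by
  rw [La_eq]
  refine Prod.ext ?_ ?_
  · funext b
    by_cases hb : b = a
    · subst hb
      simp
    · simp [hb]
  · simp

private theorem Ui_fd {f : E3 → ℝ} (hf : Measurable f) (M : ℝ) (hM : ∀ v, |f v| ≤ M)
    {g : Cfg n k → ℂ} (hg : ContDiff ℝ (⊤ : ℕ∞) g) (hgc : HasCompactSupport g)
    (p : Cfg n k) :
    HasFDerivAt (Ui a f g) (∫ ξ, ((f ξ : ℝ) : ℂ) •
      (fderiv ℝ g (Function.update p.1 a ξ, p.2)).comp (La a)) p ∧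
    Integrable fun ξ => ((f ξ : ℝ) : ℂ) •
      (fderiv ℝ g (Function.update p.1 a ξ, p.2)).comp (La a) := by
  have hM0 : 0 ≤ M := (abs_nonneg _).trans (hM 0)
  have hgd : Continuous (fderiv ℝ g) := hg.continuous_fderiv (by simp)
  have hgdc : HasCompactSupport (fderiv ℝ g) := hgc.fderiv ℝ
  obtain ⟨C, hC⟩ := hgdc.exists_bound_of_continuous hgd
  have hfm : Measurable fun ξ => ((f ξ : ℝ) : ℂ) := Complex.measurable_ofReal.comp hf
  obtain ⟨Ks, hKs⟩ : ∃ Ks : Set E3, Ks = (fun q : Cfg n k => q.1 a) '' tsupport g := ⟨_, rfl⟩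
  have hKc : IsCompact Ks := by
    rw [hKs]
    exact hgc.isCompact.image ((continuous_apply a).comp continuous_fst)
  have hbi : Integrable (Ks.indicator fun _ => M * (C * ‖La (n := n) (k := k) a‖)) :=
    (integrable_indicator_iff hKc.measurableSet).2
      (integrableOn_const (hs := hKc.measure_lt_top.ne))
  have hmeas : ∀ x : Cfg n k, AEStronglyMeasurable (fun ξ : E3 => ((f ξ : ℝ) : ℂ) •
      (fderiv ℝ g (Function.update x.1 a ξ, x.2)).comp (La a)) := by
    intro x
    refine AEStronglyMeasurable.smul hfm.aestronglyMeasurable ?_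
    exact ((hgd.comp (upd_cont1 a x)).clm_comp continuous_const).aestronglyMeasurable
  have hbd : ∀ (x : Cfg n k) (ξ : E3), ‖((f ξ : ℝ) : ℂ) •
      (fderiv ℝ g (Function.update x.1 a ξ, x.2)).comp (La a)‖ ≤
      Ks.indicator (fun _ => M * (C * ‖La (n := n) (k := k) a‖)) ξ := by
    intro x ξ
    by_cases hξ : ξ ∈ Ks
    · rw [Set.indicator_of_mem hξ, norm_smul, Complex.norm_real, Real.norm_eq_abs]
      refine mul_le_mul (hM ξ) ?_ (norm_nonneg _) hM0
      exact (ContinuousLinearMap.opNorm_comp_le _ _).trans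
        (mul_le_mul_of_nonneg_right (hC _) (norm_nonneg _))
    · rw [Set.indicator_of_notMem hξ]
      have h1 : fderiv ℝ g (Function.update x.1 a ξ, x.2) = 0 := by
        by_contra hne
        apply hξ
        rw [hKs]
        refine ⟨(Function.update x.1 a ξ, x.2), ?_, Function.update_self a ξ x.1⟩
        exact support_fderiv_subset ℝ hne
      rw [h1, ContinuousLinearMap.zero_comp, norm_smul, norm_zero, mul_zero]
  have hint : Integrable fun ξ => ((f ξ : ℝ) : ℂ) •
      (fderiv ℝ g (Function.update p.1 a ξ, p.2)).comp (La a) :=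
    hbi.mono' (hmeas p) (Filter.Eventually.of_forall fun ξ => hbd p ξ)
  refine ⟨?_, hint⟩
  refine hasFDerivAt_integral_of_dominated_of_fderiv_le (s := Set.univ)
    (F := fun (x : Cfg n k) (ξ : E3) => ((f ξ : ℝ) : ℂ) * g (Function.update x.1 a ξ, x.2))
    (F' := fun (x : Cfg n k) (ξ : E3) => ((f ξ : ℝ) : ℂ) •
      (fderiv ℝ g (Function.update x.1 a ξ, x.2)).comp (La a))
    (bound := Ks.indicator fun _ => M * (C * ‖La (n := n) (k := k) a‖))
    Filter.univ_mem ?_ ?_ (hmeas p) ?_ hbi ?_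
  · refine Filter.Eventually.of_forall fun x => ?_
    exact hfm.aestronglyMeasurable.mul
      (hg.continuous.comp (upd_cont1 a x)).aestronglyMeasurable
  · have h1 : Integrable fun ξ => g (Function.update p.1 a ξ, p.2) :=
      (hg.continuous.comp (upd_cont1 a p)).integrable_of_hasCompactSupport (upd_cpt a hgc p)
    refine h1.bdd_mul hfm.aestronglyMeasurable (c := M)
      (Filter.Eventually.of_forall fun ξ => ?_)
    rw [Complex.norm_real, Real.norm_eq_abs]
    exact hM ξ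
  · exact Filter.Eventually.of_forall fun ξ x _ => hbd x ξ
  · refine Filter.Eventually.of_forall fun ξ x _ => ?_
    refine HasFDerivAt.const_mul ?_ _
    have h1 : HasFDerivAt (fun x : Cfg n k => ((Function.update x.1 a ξ, x.2) : Cfg n k))
        (La a) x := by
      have h2 : (fun x : Cfg n k => ((Function.update x.1 a ξ, x.2) : Cfg n k)) =
          fun x => La a x + ((Function.update (0 : Fin n → E3) a ξ, 0) : Cfg n k) := by
        funext x
        exact upd_La a ξ x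
      rw [h2]
      exact (La a).hasFDerivAt.add_const _
    have h3 : HasFDerivAt g (fderiv ℝ g (Function.update x.1 a ξ, x.2))
        (Function.update x.1 a ξ, x.2) :=
      ((hg.differentiable (by simp)) _).hasFDerivAt
    exact h3.comp x h1

private theorem Ui_diff {f : E3 → ℝ} (hf : Measurable f) (M : ℝ) (hM : ∀ v, |f v| ≤ M)
    {g : Cfg n k → ℂ} (hg : ContDiff ℝ (⊤ : ℕ∞) g) (hgc : HasCompactSupport g) :
    Differentiable ℝ (Ui a f g) := fun p => (Ui_fd a hf M hM hg hgc p).1.differentiableAt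

private theorem Ui_dir {f : E3 → ℝ} (hf : Measurable f) (M : ℝ) (hM : ∀ v, |f v| ≤ M)
    {g : Cfg n k → ℂ} (hg : ContDiff ℝ (⊤ : ℕ∞) g) (hgc : HasCompactSupport g)
    (p : Cfg n k) (e : Cfg n k) (he : e.1 a = 0) :
    fderiv ℝ (Ui a f g) p e = Ui a f (fun q => fderiv ℝ g q e) p := by
  obtain ⟨h1, h2⟩ := Ui_fd a hf M hM hg hgc p
  rw [h1.fderiv, ContinuousLinearMap.integral_apply h2]
  unfold Ui
  congr 1
  funext ξ
  rw [_root_.smul_apply, ContinuousLinearMap.comp_apply, smul_eq_mul]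
  congr 2
  rw [La_eq]
  refine Prod.ext ?_ rfl
  dsimp only
  rw [← he, Function.update_eq_self]

end upd

section

variable {q n k : ℕ} {χ : E3 → ℝ} (hχ : Bump χ) (r : ℝ) (hr : 0 < r) (a : Fin n)
  (w : E3) (α : Fin q)
include hχ hr

private theorem Kc_meas (F : Cfg n k → ℝ) (hF : Measurable F) :
    Measurable fun p : Cfg n k => chr χ r (p.1 a - w) ^ 2 * F p := by
  have h1 : Continuous fun p : Cfg n k => chr χ r (p.1 a - w) ^ 2 :=
    ((rl_h_smooth hχ r hr w).continuous.comp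
      ((continuous_apply a).comp continuous_fst)).pow 2
  exact h1.measurable.mul hF

private theorem trf_mean_eq (G : (Fin n → Fin q) → Cfg n k → ℂ) (F : Cfg n k → ℝ)
    (f : E3 → ℝ) (τ : Fin q) :
    mean (trf χ r a w f α τ G) F = ∑ σ : Fin n → Fin q, (if σ a = α then
      (fun σ' => ∫ p : Cfg n k, chr χ r (p.1 a - w) ^ 2 * F p * ‖Ui a f (G σ') p‖ ^ 2)
        (Function.update σ a τ) else 0) := by
  unfold mean
  refine sum_congr rfl fun σ _ => ?_
  by_cases hσ : σ a = α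
  · rw [if_pos hσ]
    dsimp only
    congr 1
    funext p
    unfold trf Ui
    rw [if_pos hσ, norm_mul, mul_pow, Complex.norm_real, Real.norm_eq_abs, sq_abs]
    ring
  · rw [if_neg hσ]
    unfold trf
    simp [if_neg hσ]

theorem trf_mean (G : (Fin n → Fin q) → Cfg n k → ℂ) (hG : ∀ σ, Continuous (G σ))
    (hc : ∀ σ, HasCompactSupport (G σ)) (R : ℝ) (hR : ∀ σ p, G σ p ≠ 0 → ‖p.1 a‖ ≤ R)
    (F : Cfg n k → ℝ) (hF : Measurable F)
    (hI : ∀ σ, Integrable (fun u : Cfg n k × E3 => chr χ r (u.2 - w) ^ 2 *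
      F (Function.update u.1.1 a u.2, u.1.2) * ‖G σ u.1‖ ^ 2)) :
    Filter.Tendsto (fun J : ℕ => ∑ τ, ∑ b ∈ hB J R,
      mean (trf χ r a w (hf b.1 b.2) α τ G) F) Filter.atTop
      (nhds (mean G (fun p => ∫ v, chr χ r (v - w) ^ 2 *
        F (Function.update p.1 a v, p.2)))) := by
  have h1 : ∀ J : ℕ, ∑ τ, ∑ b ∈ hB J R, mean (trf χ r a w (hf b.1 b.2) α τ G) F =
      ∑ σ, ∑ b ∈ hB J R, ∫ p : Cfg n k, chr χ r (p.1 a - w) ^ 2 * F p *
        ‖Ui a (hf b.1 b.2) (G σ) p‖ ^ 2 := by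
    intro J
    rw [← en_spin a α (hB J R) fun b σ => ∫ p : Cfg n k, chr χ r (p.1 a - w) ^ 2 * F p *
        ‖Ui a (hf b.1 b.2) (G σ) p‖ ^ 2]
    refine sum_congr rfl fun τ _ => sum_congr rfl fun b _ => ?_
    exact trf_mean_eq hχ r hr a w α G F (hf b.1 b.2) τ
  simp only [h1]
  unfold mean
  refine tendsto_finsetSum _ fun σ _ => ?_
  have h2 := (en_core a (fun p : Cfg n k => chr χ r (p.1 a - w) ^ 2 * F p)
    (Kc_meas hχ r hr a w F hF) (G σ) (hG σ) (hc σ) R (hR σ) (by
      simp only [Function.update_self]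
      exact hI σ)).2
  simp only [Function.update_self] at h2
  exact h2

private theorem h_one : ∫ v, chr χ r (v - w) ^ 2 = 1 := by
  rw [integral_sub_right_eq_self (fun v => chr χ r v ^ 2) w]
  exact chr_norm hχ r hr

theorem trf_mass {Λ : Set E3} {φ : (Fin n → Fin q) → Cfg n k → ℂ} (hφ : Sm q n k Λ φ)
    (R : ℝ) (hR : ∀ σ p, φ σ p ≠ 0 → ‖p.1 a‖ ≤ R) :
    Filter.Tendsto (fun J : ℕ => ∑ τ, ∑ b ∈ hB J R,
      mass (trf χ r a w (hf b.1 b.2) α τ φ)) Filter.atTop (nhds (mass φ)) := by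
  have h1 := trf_mean hχ r hr a w α φ (fun σ => (hφ.smooth σ).continuous) hφ.cpt R hR
    (fun _ => 1) measurable_const (fun σ => by
      simp only [mul_one]
      exact rl_prod ((Sm_sq hφ σ).1.integrable_of_hasCompactSupport (Sm_sq hφ σ).2)
        (rl_h_int hχ r hr w))
  simp only [mul_one, h_one hχ r hr w, mean_one] at h1
  exact h1

private theorem tr_pos (f : E3 → ℝ) (τ : Fin q) (φ : (Fin n → Fin q) → Cfg n k → ℂ)
    (σ : Fin n → Fin q) (hσ : σ a = α) : trf χ r a w f α τ φ σ =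
    fun p : Cfg n k => (((fun v => chr χ r (v - w)) (p.1 a) : ℝ) : ℂ) *
      Ui a f (φ (Function.update σ a τ)) (Function.update p.1 a 0, p.2) := by
  funext p
  rw [Ui_upd]
  unfold trf Ui
  rw [if_pos hσ]

private theorem tr_neg (f : E3 → ℝ) (τ : Fin q) (φ : (Fin n → Fin q) → Cfg n k → ℂ)
    (σ : Fin n → Fin q) (hσ : σ a ≠ α) : trf χ r a w f α τ φ σ =
    fun _ : Cfg n k => (0 : ℂ) := by
  funext p
  unfold trf
  rw [if_neg hσ]

private theorem tr_kE_ne {Λ : Set E3} {φ : (Fin n → Fin q) → Cfg n k → ℂ}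
    (hφ : Sm q n k Λ φ) (b : Fin n) (hb : b ≠ a) (c : ℕ × (Fin 3 → ℤ)) (τ : Fin q) :
    kE (trf χ r a w (hf c.1 c.2) α τ φ) b = ∑ σ : Fin n → Fin q, (if σ a = α then
      ∫ p : Cfg n k, ∑ d : Fin 3, chr χ r (p.1 a - w) ^ 2 * ‖Ui a (hf c.1 c.2)
        (fun p => fderiv ℝ (φ (Function.update σ a τ)) p
          (Pi.single b (EuclideanSpace.single d 1), 0)) p‖ ^ 2 else 0) := by
  unfold kE
  refine sum_congr rfl fun σ _ => ?_
  have hd := Ui_diff a (hf_meas c.1 c.2) _ (hf_bd c.1 c.2)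
    (hφ.smooth (Function.update σ a τ)) (hφ.cpt _)
  by_cases hσ : σ a = α
  · rw [if_pos hσ, tr_pos hχ r hr a w α (hf c.1 c.2) τ φ σ hσ]
    congr 1
    funext p
    rw [ge_triE_ne (Ui a (hf c.1 c.2) (φ (Function.update σ a τ))) hd
      (fun v => chr χ r (v - w)) a b hb 0 p, ge_eq _ hd, mul_sum]
    refine sum_congr rfl fun d _ => ?_
    rw [Ui_dir a (hf_meas c.1 c.2) _ (hf_bd c.1 c.2) (hφ.smooth (Function.update σ a τ))
      (hφ.cpt _) _ _ (by simp [hb.symm]), Ui_upd]
  · rw [if_neg hσ, tr_neg hχ r hr a w α (hf c.1 c.2) τ φ σ hσ]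
    simp only [rl_zero_ge, integral_zero]

private theorem tr_kN {Λ : Set E3} {φ : (Fin n → Fin q) → Cfg n k → ℂ}
    (hφ : Sm q n k Λ φ) (j : Fin k) (c : ℕ × (Fin 3 → ℤ)) (τ : Fin q) :
    kN (trf χ r a w (hf c.1 c.2) α τ φ) j = ∑ σ : Fin n → Fin q, (if σ a = α then
      ∫ p : Cfg n k, ∑ d : Fin 3, chr χ r (p.1 a - w) ^ 2 * ‖Ui a (hf c.1 c.2)
        (fun p => fderiv ℝ (φ (Function.update σ a τ)) p
          (0, Pi.single j (EuclideanSpace.single d 1))) p‖ ^ 2 else 0) := by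
  unfold kN
  refine sum_congr rfl fun σ _ => ?_
  have hd := Ui_diff a (hf_meas c.1 c.2) _ (hf_bd c.1 c.2)
    (hφ.smooth (Function.update σ a τ)) (hφ.cpt _)
  by_cases hσ : σ a = α
  · rw [if_pos hσ, tr_pos hχ r hr a w α (hf c.1 c.2) τ φ σ hσ]
    congr 1
    funext p
    rw [gn_triE (Ui a (hf c.1 c.2) (φ (Function.update σ a τ))) hd
      (fun v => chr χ r (v - w)) a j 0 p, gn_eq _ hd, mul_sum]
    refine sum_congr rfl fun d _ => ?_
    rw [Ui_dir a (hf_meas c.1 c.2) _ (hf_bd c.1 c.2) (hφ.smooth (Function.update σ a τ))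
      (hφ.cpt _) _ _ (by simp), Ui_upd]
  · rw [if_neg hσ, tr_neg hχ r hr a w α (hf c.1 c.2) τ φ σ hσ]
    simp only [rl_zero_gn, integral_zero]

private theorem tr_kE_self (φ : (Fin n → Fin q) → Cfg n k → ℂ) (c : ℕ × (Fin 3 → ℤ))
    (τ : Fin q) :
    kE (trf χ r a w (hf c.1 c.2) α τ φ) a = ∑ σ : Fin n → Fin q, (if σ a = α then
      ∫ p : Cfg n k, ∑ _ : Unit, gr (fun v => chr χ r (v - w)) (p.1 a) *
        ‖Ui a (hf c.1 c.2) (φ (Function.update σ a τ)) p‖ ^ 2 else 0) := by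
  unfold kE
  refine sum_congr rfl fun σ _ => ?_
  by_cases hσ : σ a = α
  · rw [if_pos hσ, tr_pos hχ r hr a w α (hf c.1 c.2) τ φ σ hσ]
    congr 1
    funext p
    rw [ge_triE_self _ _ ((rl_h_smooth hχ r hr w).differentiable (by simp)), Ui_upd,
      sum_const, card_univ, Fintype.card_unit, one_smul]
  · rw [if_neg hσ, tr_neg hχ r hr a w α (hf c.1 c.2) τ φ σ hσ]
    simp only [rl_zero_ge, integral_zero]

private theorem fd_cpt {g : Cfg n k → ℂ} (hgc : HasCompactSupport g) (e : Cfg n k) :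
    HasCompactSupport fun p => fderiv ℝ g p e := by
  refine (hgc.fderiv ℝ).mono fun p hp => ?_
  rw [Function.mem_support] at hp ⊢
  intro h
  apply hp
  rw [h]
  rfl

private theorem en_dir {Λ : Set E3} {φ : (Fin n → Fin q) → Cfg n k → ℂ}
    (hφ : Sm q n k Λ φ) (R : ℝ) (hR : ∀ σ p, φ σ p ≠ 0 → ‖p.1 a‖ ≤ R)
    (e : Fin 3 → Cfg n k) (T : (E3 → ℝ) → Fin q → ℝ)
    (hT : ∀ (c : ℕ × (Fin 3 → ℤ)) τ, T (hf c.1 c.2) τ = ∑ σ : Fin n → Fin q,
      (if σ a = α then ∫ p : Cfg n k, ∑ d : Fin 3, chr χ r (p.1 a - w) ^ 2 *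
        ‖Ui a (hf c.1 c.2) (fun p => fderiv ℝ (φ (Function.update σ a τ)) p (e d)) p‖ ^ 2
        else 0)) :
    Filter.Tendsto (fun J : ℕ => ∑ τ, ∑ b ∈ hB J R, T (hf b.1 b.2) τ) Filter.atTop
      (nhds (∑ σ, ∫ p, ∑ d, ‖fderiv ℝ (φ σ) p (e d)‖ ^ 2)) := by
  have hRt : ∀ σ, ∀ p ∈ tsupport (φ σ), ‖p.1 a‖ ≤ R := by
    intro σ
    have hcl : IsClosed {p : Cfg n k | ‖p.1 a‖ ≤ R} :=
      isClosed_le ((continuous_apply a).comp continuous_fst).norm continuous_const
    exact closure_minimal (fun p hp => hR σ p hp) hcl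
  have hcont : ∀ (d : Fin 3) σ, Continuous fun p => fderiv ℝ (φ σ) p (e d) := fun d σ =>
    ((hφ.smooth σ).continuous_fderiv (by simp)).clm_apply continuous_const
  have hcpt : ∀ (d : Fin 3) σ, HasCompactSupport fun p => fderiv ℝ (φ σ) p (e d) := fun d σ =>
    fd_cpt hχ r hr (hφ.cpt σ) (e d)
  have hsq : ∀ (d : Fin 3) σ, Integrable fun p => ‖fderiv ℝ (φ σ) p (e d)‖ ^ 2 := by
    intro d σ
    have h1 : Continuous fun p => ‖fderiv ℝ (φ σ) p (e d)‖ ^ 2 := (hcont d σ).norm.pow 2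
    exact h1.integrable_of_hasCompactSupport
      ((hcpt d σ).comp_left (g := fun x : ℂ => ‖x‖ ^ 2) (by simp))
  have h1 := en_gen a α (fun p : Cfg n k => chr χ r (p.1 a - w) ^ 2)
    (by simpa using Kc_meas hχ r hr a w (fun _ : Cfg n k => 1) measurable_const)
    (fun (d : Fin 3) σ p => fderiv ℝ (φ σ) p (e d)) hcont hcpt R (by
      intro d σ p hp
      refine hRt σ p (support_fderiv_subset ℝ ?_)
      rw [Function.mem_support]
      intro h
      apply hp
      rw [h]
      rfl) (by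
      intro d σ
      simp only [Function.update_self]
      exact rl_prod (hsq d σ) (rl_h_int hχ r hr w)) T hT
  simp only [Function.update_self, h_one hχ r hr w, one_mul] at h1
  convert h1 using 2
  refine sum_congr rfl fun σ _ => ?_
  exact integral_finsetSum _ fun d _ => hsq d σ

theorem trf_energy {Λ : Set E3} {φ : (Fin n → Fin q) → Cfg n k → ℂ} (hφ : Sm q n k Λ φ)
    (R : ℝ) (hR : ∀ σ p, φ σ p ≠ 0 → ‖p.1 a‖ ≤ R) (z κ : Fin k → ℝ) :
    Filter.Tendsto (fun J : ℕ => ∑ τ, ∑ b ∈ hB J R,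
      energy z κ (trf χ r a w (hf b.1 b.2) α τ φ)) Filter.atTop
      (nhds (Efe χ r a w z κ φ)) := by
  have hdiff : ∀ σ, Differentiable ℝ (φ σ) := fun σ => (hφ.smooth σ).differentiable (by simp)
  have hA : ∀ b ∈ univ.erase a, Filter.Tendsto (fun J : ℕ => ∑ τ, ∑ c ∈ hB J R,
      kE (trf χ r a w (hf c.1 c.2) α τ φ) b) Filter.atTop (nhds (kE φ b)) := by
    intro b hb
    have h1 := en_dir hχ r hr a w α hφ R hR
      (fun d => ((Pi.single b (EuclideanSpace.single d 1), 0) : Cfg n k))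
      (fun f τ => kE (trf χ r a w f α τ φ) b)
      (fun c τ => tr_kE_ne hχ r hr a w α hφ b (ne_of_mem_erase hb) c τ)
    have h2 : kE φ b = ∑ σ, ∫ p, ∑ d : Fin 3, ‖fderiv ℝ (φ σ) p
        ((Pi.single b (EuclideanSpace.single d 1), 0) : Cfg n k)‖ ^ 2 := by
      unfold kE
      simp only [ge_eq _ (hdiff _)]
    rw [h2]
    exact h1
  have hC : ∀ j, Filter.Tendsto (fun J : ℕ => ∑ τ, ∑ c ∈ hB J R,
      kN (trf χ r a w (hf c.1 c.2) α τ φ) j) Filter.atTop (nhds (kN φ j)) := by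
    intro j
    have h1 := en_dir hχ r hr a w α hφ R hR
      (fun d => ((0, Pi.single j (EuclideanSpace.single d 1)) : Cfg n k))
      (fun f τ => kN (trf χ r a w f α τ φ) j)
      (fun c τ => tr_kN hχ r hr a w α hφ j c τ)
    have h2 : kN φ j = ∑ σ, ∫ p, ∑ d : Fin 3, ‖fderiv ℝ (φ σ) p
        ((0, Pi.single j (EuclideanSpace.single d 1)) : Cfg n k)‖ ^ 2 := by
      unfold kN
      simp only [gn_eq _ (hdiff _)]
    rw [h2]
    exact h1
  have hsq : ∀ σ, Integrable fun p => ‖φ σ p‖ ^ 2 := fun σ =>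
    (Sm_sq hφ σ).1.integrable_of_hasCompactSupport (Sm_sq hφ σ).2
  have hhi := rl_h_int hχ r hr w
  have hB' : Filter.Tendsto (fun J : ℕ => ∑ τ, ∑ c ∈ hB J R,
      kE (trf χ r a w (hf c.1 c.2) α τ φ) a) Filter.atTop
      (nhds ((r ^ 2)⁻¹ * (∫ v, gr χ v) * mass φ)) := by
    have hgc : Continuous (gr (fun v => chr χ r (v - w))) := by
      unfold gr
      refine continuous_finsetSum _ fun d _ => ?_
      exact (((rl_h_smooth hχ r hr w).continuous_fderiv (by simp)).clm_apply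
        continuous_const).pow 2
    have h1 := en_gen a α (fun p : Cfg n k => gr (fun v => chr χ r (v - w)) (p.1 a))
      (hgc.comp ((continuous_apply a).comp continuous_fst)).measurable
      (fun (_ : Unit) σ => φ σ) (fun _ σ => (hφ.smooth σ).continuous) (fun _ σ => hφ.cpt σ) R
      (fun _ σ p hp => hR σ p hp) (by
        intro _ σ
        simp only [Function.update_self]
        exact rl_prod (hsq σ) (rl_gr_int hχ r hr w))
      (fun f τ => kE (trf χ r a w f α τ φ) a)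
      (fun c τ => tr_kE_self hχ r hr a w α φ c τ)
    have hhg : ∫ v, gr (fun v => chr χ r (v - w)) v = (r ^ 2)⁻¹ * ∫ v, gr χ v := by
      have h1 : ∀ v, gr (fun v => chr χ r (v - w)) v = gr (chr χ r) (v - w) := by
        intro v
        unfold gr
        simp only [sub_eq_add_neg]
        rw [fderiv_comp_add_right]
      simp only [h1]
      rw [integral_sub_right_eq_self (fun v => gr (chr χ r) v) w]
      exact chr_grad hχ r hr
    simp only [Function.update_self, hhg, integral_const_mul, sum_const, card_univ,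
      Fintype.card_unit, one_smul, ← mul_sum] at h1
    exact h1
  have hD : Filter.Tendsto (fun J : ℕ => ∑ τ, ∑ c ∈ hB J R,
      mean (trf χ r a w (hf c.1 c.2) α τ φ) (V z)) Filter.atTop
      (nhds (mean φ (fun p => V z p + phiE z a p (p.1 a)) -
        mean φ (fun p => ∫ v, chr χ r (v - w) ^ 2 * phiE z a p v))) := by
    have hVm : Measurable (V z : Cfg n k → ℝ) := by
      unfold V
      fun_prop
    have hVa : ∀ σ, Integrable (fun p => (V z p + phiE z a p (p.1 a)) * ‖φ σ p‖ ^ 2) :=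
      (IM_V hφ z).add (IM_phiE hφ z a)
    have hph : ∀ σ, Integrable (fun u : Cfg n k × E3 =>
        phiE z a u.1 u.2 * (chr χ r (u.2 - w) ^ 2 * ‖φ σ u.1‖ ^ 2)) := by
      intro σ
      obtain ⟨g, hg⟩ : ∃ g : Cfg n k × E3 → ℝ,
        g = fun u => chr χ r (u.2 - w) ^ 2 * ‖φ σ u.1‖ ^ 2 := ⟨_, rfl⟩
      have hc : Continuous g := by
        rw [hg]
        exact (((rl_h_smooth hχ r hr w).continuous.comp continuous_snd).pow 2).mul
          ((Sm_sq hφ σ).1.comp continuous_fst)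
      have hk : HasCompactSupport g := by
        rw [hg]
        refine HasCompactSupport.intro ((hφ.cpt σ).isCompact.prod
          (rl_h_cpt hχ r hr w).isCompact) ?_
        intro u hu
        rw [Set.mem_prod, not_and_or] at hu
        rcases hu with hu | hu
        · have h3 : φ σ u.1 = 0 := image_eq_zero_of_notMem_tsupport hu
          rw [h3]
          simp
        · have h4 : chr χ r (u.2 - w) = 0 :=
            image_eq_zero_of_notMem_tsupport (f := fun v => chr χ r (v - w)) hu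
          rw [h4]
          simp
      have h1 : ∀ u : Cfg n k × E3, phiE z a u.1 u.2 *
          (chr χ r (u.2 - w) ^ 2 * ‖φ σ u.1‖ ^ 2) =
          ∑ j, z j * (‖u.2 - u.1.2 j‖⁻¹ * g u) -
            ∑ b ∈ univ.erase a, ‖u.2 - u.1.1 b‖⁻¹ * g u := by
        intro u
        rw [hg]
        unfold phiE
        rw [sub_mul, sum_mul, sum_mul]
        simp only [mul_assoc]
      simp only [h1]
      refine Integrable.sub ?_ ?_
      · exact integrable_finsetSum _ fun j _ => (int_pn g hc hk j).const_mul (z j)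
      · exact integrable_finsetSum _ fun b _ => int_pe g hc hk b
    have hVeq : ∀ σ (p : Cfg n k) v, chr χ r (v - w) ^ 2 *
        V z (Function.update p.1 a v, p.2) * ‖φ σ p‖ ^ 2 =
        chr χ r (v - w) ^ 2 * ((V z p + phiE z a p (p.1 a)) * ‖φ σ p‖ ^ 2) -
        phiE z a p v * (chr χ r (v - w) ^ 2 * ‖φ σ p‖ ^ 2) := by
      intro σ p v
      rw [V_updE]
      ring
    have hVi : ∀ σ, Integrable (fun u : Cfg n k × E3 => chr χ r (u.2 - w) ^ 2 *
        V z (Function.update u.1.1 a u.2, u.1.2) * ‖φ σ u.1‖ ^ 2) := by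
      intro σ
      refine ((rl_prod (hVa σ) hhi).sub (hph σ)).congr (Filter.Eventually.of_forall fun u => ?_)
      exact (hVeq σ u.1 u.2).symm
    have h1 := trf_mean hχ r hr a w α φ (fun σ => (hφ.smooth σ).continuous) hφ.cpt R hR
      (V z) hVm hVi
    have h2 : mean φ (fun p => ∫ v, chr χ r (v - w) ^ 2 * V z (Function.update p.1 a v, p.2)) =
        mean φ (fun p => V z p + phiE z a p (p.1 a)) -
        mean φ (fun p => ∫ v, chr χ r (v - w) ^ 2 * phiE z a p v) := by
      unfold mean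
      rw [← sum_sub_distrib]
      refine sum_congr rfl fun σ _ => ?_
      have hA : Integrable (fun p : Cfg n k =>
          ∫ v, chr χ r (v - w) ^ 2 * ((V z p + phiE z a p (p.1 a)) * ‖φ σ p‖ ^ 2)) :=
        (rl_prod (hVa σ) hhi).integral_prod_left
      have hB : Integrable (fun p : Cfg n k =>
          ∫ v, phiE z a p v * (chr χ r (v - w) ^ 2 * ‖φ σ p‖ ^ 2)) :=
        (hph σ).integral_prod_left
      have hsl : ∀ᵐ p : Cfg n k, Integrable (fun v => phiE z a p v *
          (chr χ r (v - w) ^ 2 * ‖φ σ p‖ ^ 2)) := (hph σ).prod_right_ae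
      have h3 : ∫ p : Cfg n k, (∫ v, chr χ r (v - w) ^ 2 *
          V z (Function.update p.1 a v, p.2)) * ‖φ σ p‖ ^ 2 =
          ∫ p : Cfg n k, ((∫ v, chr χ r (v - w) ^ 2 *
            ((V z p + phiE z a p (p.1 a)) * ‖φ σ p‖ ^ 2)) -
            ∫ v, phiE z a p v * (chr χ r (v - w) ^ 2 * ‖φ σ p‖ ^ 2)) := by
        refine integral_congr_ae ?_
        filter_upwards [hsl] with p hp
        rw [← integral_sub (hhi.mul_const _) hp, ← integral_mul_const]
        refine integral_congr_ae (Filter.Eventually.of_forall fun v => ?_)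
        exact hVeq σ p v
      rw [h3, integral_sub hA hB]
      congr 1
      · congr 1
        funext p
        rw [integral_mul_const, h_one hχ r hr w, one_mul]
      · congr 1
        funext p
        have h2 : ∀ v, phiE z a p v * (chr χ r (v - w) ^ 2 * ‖φ σ p‖ ^ 2) =
            chr χ r (v - w) ^ 2 * phiE z a p v * ‖φ σ p‖ ^ 2 := fun v => by ring
        simp only [h2]
        rw [integral_mul_const]
    rw [← h2]
    exact h1
  have e1 : ∀ J : ℕ, ∑ τ, ∑ c ∈ hB J R, energy z κ (trf χ r a w (hf c.1 c.2) α τ φ) =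
      ((∑ b ∈ univ.erase a, ∑ τ, ∑ c ∈ hB J R, kE (trf χ r a w (hf c.1 c.2) α τ φ) b) +
        ∑ τ, ∑ c ∈ hB J R, kE (trf χ r a w (hf c.1 c.2) α τ φ) a) +
      (∑ j, κ j * ∑ τ, ∑ c ∈ hB J R, kN (trf χ r a w (hf c.1 c.2) α τ φ) j) +
      ∑ τ, ∑ c ∈ hB J R, mean (trf χ r a w (hf c.1 c.2) α τ φ) (V z) := by
    intro J
    rw [sum_comm' (s := univ.erase a) (t := fun _ => univ) (t' := univ)
      (s' := fun _ => univ.erase a) (by simp)]
    simp only [mul_sum]
    rw [sum_comm (s := (univ : Finset (Fin k)))]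
    simp only [← sum_add_distrib]
    refine sum_congr rfl fun τ _ => ?_
    rw [sum_comm (s := univ.erase a), sum_comm (s := (univ : Finset (Fin k)))]
    simp only [← sum_add_distrib]
    refine sum_congr rfl fun c _ => ?_
    unfold energy
    rw [← Finset.sum_erase_add _ _ (mem_univ a)]
  simp only [e1]
  have h5 := (((tendsto_finsetSum _ hA).add hB').add
    (tendsto_finsetSum univ fun j (_ : j ∈ (univ : Finset (Fin k))) =>
      (hC j).const_mul (κ j))).add hD
  convert h5 using 2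
  unfold Efe
  ring

end

theorem trf_cost (δ : ℝ) (hδ : 0 < δ) : ∃ C : ℝ, 0 ≤ C ∧ ∀ {q n k : ℕ} {χ : E3 → ℝ}
    (_ : Bump χ) (r : ℝ) (_ : 0 < r) (a : Fin n) (w : E3) (α : Fin q) {Λ : Set E3}
    (φ : (Fin n → Fin q) → Cfg n k → ℂ) (_ : Sm q n k Λ φ) (J : ℕ) (R : ℝ),
    ∑ τ, ∑ b ∈ hB J R, hx b.1 * mass (trf χ r a w (hf b.1 b.2) α τ φ) ≤
      δ * kE φ a + C * mass φ := by
  obtain ⟨C, hC0, hC⟩ := hcost δ hδ
  refine ⟨C, hC0, ?_⟩
  intro q n k χ hχ r hr a w α Λ φ hφ J R
  have hhi := rl_h_int hχ r hr w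
  have hsq : ∀ σ, Integrable fun p => ‖φ σ p‖ ^ 2 := fun σ =>
    (Sm_sq hφ σ).1.integrable_of_hasCompactSupport (Sm_sq hφ σ).2
  have e1 : ∑ τ, ∑ b ∈ hB J R, hx b.1 * mass (trf χ r a w (hf b.1 b.2) α τ φ) =
      ∑ σ, ∑ b ∈ hB J R, hx b.1 * ∫ p : Cfg n k, chr χ r (p.1 a - w) ^ 2 *
        ‖Ui a (hf b.1 b.2) (φ σ) p‖ ^ 2 := by
    rw [← en_spin a α (hB J R) fun b σ => hx b.1 * ∫ p : Cfg n k, chr χ r (p.1 a - w) ^ 2 *
        ‖Ui a (hf b.1 b.2) (φ σ) p‖ ^ 2]
    refine sum_congr rfl fun τ _ => sum_congr rfl fun b _ => ?_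
    rw [← mean_one, trf_mean_eq hχ r hr a w α φ (fun _ => 1) (hf b.1 b.2) τ, mul_sum]
    refine sum_congr rfl fun σ _ => ?_
    simp only [mul_one]
    split_ifs
    · rfl
    · rw [mul_zero]
  rw [e1]
  unfold kE mass
  rw [mul_sum, mul_sum, ← sum_add_distrib]
  refine sum_le_sum fun σ _ => ?_
  obtain ⟨i1, j1⟩ := en_ex a (fun p : Cfg n k => chr χ r (p.1 a - w) ^ 2) (ge (φ σ) a) (by
    simp only [Function.update_self]
    exact rl_prod (kE_int hφ σ a) hhi)
  have hI2 : Integrable fun u : Cfg n k × E3 =>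
      (fun p : Cfg n k => chr χ r (p.1 a - w) ^ 2) (Function.update u.1.1 a u.2, u.1.2) *
        ‖φ σ u.1‖ ^ 2 := by
    simp only [Function.update_self]
    exact rl_prod (hsq σ) hhi
  obtain ⟨i2, j2⟩ := en_ex a (fun p : Cfg n k => chr χ r (p.1 a - w) ^ 2)
    (fun p => ‖φ σ p‖ ^ 2) hI2
  have i3 := en_int a (fun p : Cfg n k => chr χ r (p.1 a - w) ^ 2)
    (by simpa using Kc_meas hχ r hr a w (fun _ : Cfg n k => 1) measurable_const) (φ σ)
    (hφ.smooth σ).continuous (hφ.cpt σ) hI2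
  simp only [Function.update_self, h_one hχ r hr w, one_mul] at j1 j2
  rw [← j1, ← j2, ← integral_const_mul, ← integral_const_mul,
    ← integral_add (i1.const_mul δ) (i2.const_mul C)]
  simp only [← integral_const_mul (hx _)]
  rw [← integral_finsetSum _ fun b _ => (i3 b).const_mul (hx b.1)]
  refine integral_mono (integrable_finsetSum _ fun b _ => (i3 b).const_mul (hx b.1))
    ((i1.const_mul δ).add (i2.const_mul C)) fun p => ?_
  dsimp only
  have h1 := hC (fun ξ => φ σ (Function.update p.1 a ξ, p.2)) (by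
    refine ((hφ.smooth σ).of_le (by exact_mod_cast le_top)).comp (ContDiff.prodMk ?_ contDiff_const)
    rw [contDiff_pi]
    intro b
    by_cases hb : b = a
    · subst hb
      simp only [Function.update_self]
      exact contDiff_id
    · simp only [Function.update_of_ne hb]
      exact contDiff_const) (upd_cpt a (hφ.cpt σ) p) J R
  have h2 : ∀ ξ, g3 (fun ξ => φ σ (Function.update p.1 a ξ, p.2)) ξ =
      ge (φ σ) a (Function.update p.1 a ξ, p.2) := by
    intro ξ
    unfold ge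
    dsimp only
    simp only [Function.update_idem, Function.update_self]
  simp only [h2] at h1
  have h3 := mul_le_mul_of_nonneg_left h1 (sq_nonneg (chr χ r (p.1 a - w)))
  have h4 : ∑ b ∈ hB J R, hx b.1 * (chr χ r (p.1 a - w) ^ 2 *
      ‖Ui a (hf b.1 b.2) (φ σ) p‖ ^ 2) = chr χ r (p.1 a - w) ^ 2 *
      ∑ b ∈ hB J R, hx b.1 * ‖Ui a (hf b.1 b.2) (φ σ) p‖ ^ 2 := by
    rw [mul_sum]
    exact sum_congr rfl fun b _ => by ring
  rw [h4]
  refine h3.trans (le_of_eq ?_)
  ring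

end H6.CT
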