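import Pool.Agent.H6.CT.NtrSt
import Pool.Agent.H6.CT.HPoi
import Pool.Agent.H6.CM.ExchN
import Pool.Agent.H6.CM.Nuc

/-! Mass and energy after the relocation of nucleus `j`, summed over the frame: as `EnE.lean` (`trf_mean`, `trf_mass`, `trf_energy`, `trf_cost`), without spins; `V z (p.1, update p.2 j v) = V z p - z j * phiN z j p (p.2 j) + z j * phiN z j p v` (`Pool/Agent/H6/CM/Nuc.lean`). -/

open MeasureTheory Finset

namespace H6.CT

open H6.CM H6.CB H6.CL

/-! ### the function tested in the position of nucleus `j` -/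

section P

variable {n k : ℕ} (j : Fin k)

/-- the function tested with `f` in the position of nucleus `j` -/
private noncomputable def Pn (f : E3 → ℝ) (G : Cfg n k → ℂ) (p : Cfg n k) : ℂ :=
  ∫ ξ, ((f ξ : ℝ) : ℂ) * G (p.1, Function.update p.2 j ξ)

private theorem upd_cont : Continuous fun u : Cfg n k × E3 =>
    ((u.1.1, Function.update u.1.2 j u.2) : Cfg n k) :=
  (continuous_fst.comp continuous_fst).prodMk
    ((continuous_snd.comp continuous_fst).update j continuous_snd)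

private theorem sl_cont {G : Cfg n k → ℂ} (hG : Continuous G) (p : Cfg n k) :
    Continuous fun ξ : E3 => G (p.1, Function.update p.2 j ξ) :=
  hG.comp ((upd_cont j).comp (continuous_const.prodMk continuous_id))

private theorem sl_cpt {G : Cfg n k → ℂ} (hc : HasCompactSupport G) (p : Cfg n k) :
    HasCompactSupport fun ξ : E3 => G (p.1, Function.update p.2 j ξ) := by
  refine HasCompactSupport.intro (K := (fun p : Cfg n k => p.2 j) '' tsupport G)
    (hc.image ((continuous_apply j).comp continuous_snd)) ?_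
  intro ξ hξ
  by_contra hne
  apply hξ
  exact ⟨(p.1, Function.update p.2 j ξ), subset_tsupport _ hne, Function.update_self j ξ p.2⟩

private theorem Pn_meas {f : E3 → ℝ} (hf : Measurable f) {G : Cfg n k → ℂ} (hG : Continuous G) :
    StronglyMeasurable (Pn j f G) := by
  unfold Pn
  have h1 : StronglyMeasurable fun u : Cfg n k × E3 =>
      ((f u.2 : ℝ) : ℂ) * G (u.1.1, Function.update u.1.2 j u.2) := by
    have h2 : Measurable fun u : Cfg n k × E3 => ((f u.2 : ℝ) : ℂ) :=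
      Complex.measurable_ofReal.comp (hf.comp measurable_snd)
    exact h2.stronglyMeasurable.mul (hG.comp (upd_cont j)).stronglyMeasurable
  exact h1.integral_prod_right

private theorem meas_pj : Measurable fun p : Cfg n k => p.2 j :=
  ((continuous_apply j).comp continuous_snd).measurable

/-- exchange with a spare point -/
private theorem ex_core (H : Cfg n k × E3 → ℝ) (hH : Integrable H) :
    Integrable (fun p : Cfg n k => ∫ ξ, H ((p.1, Function.update p.2 j ξ), p.2 j)) ∧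
    ∫ p : Cfg n k, ∫ ξ, H ((p.1, Function.update p.2 j ξ), p.2 j) = ∫ p, ∫ v, H (p, v) := by
  have h1 : Integrable fun u : Cfg n k × E3 => H (swN j u) := swN_intble j H hH
  have h2 := swN_int j H
  rw [Measure.volume_eq_prod] at h1 h2 hH
  constructor
  · exact h1.integral_prod_left
  · rw [integral_prod _ h1, integral_prod _ hH] at h2
    exact h2

/-- the limit over the frame -/
private theorem en_core (c : E3 → ℝ) (hcm : Measurable c) (G : Cfg n k → ℂ) (hG : Continuous G)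
    (hc : HasCompactSupport G) (R : ℝ) (hR : ∀ p, G p ≠ 0 → ‖p.2 j‖ ≤ R) (F : Cfg n k → ℝ)
    (hF : Measurable F)
    (hI : Integrable (fun u : Cfg n k × E3 => c u.2 * F (u.1.1, Function.update u.1.2 j u.2) *
      ‖G u.1‖ ^ 2)) :
    (∀ b : ℕ × (Fin 3 → ℤ), Integrable fun p : Cfg n k => F p * (c (p.2 j) *
      ‖Pn j (hf b.1 b.2) G p‖ ^ 2)) ∧
    Filter.Tendsto (fun J : ℕ => ∑ b ∈ hB J R, ∫ p : Cfg n k, F p * (c (p.2 j) *
      ‖Pn j (hf b.1 b.2) G p‖ ^ 2)) Filter.atTop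
      (nhds (∫ p : Cfg n k, (∫ v, c v * F (p.1, Function.update p.2 j v)) * ‖G p‖ ^ 2)) := by
  obtain ⟨h1, h2⟩ := ex_core j _ hI
  have hN : ∀ p : Cfg n k, (∫ ξ, c (p.2 j) * F ((p.1, Function.update p.2 j ξ).1,
      Function.update (p.1, Function.update p.2 j ξ).2 j (p.2 j)) *
      ‖G (p.1, Function.update p.2 j ξ)‖ ^ 2) =
      F p * (c (p.2 j) * ∫ ξ, ‖G (p.1, Function.update p.2 j ξ)‖ ^ 2) := by
    intro p
    simp only [Function.update_idem, Function.update_eq_self]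
    rw [integral_const_mul]
    ring
  simp only [hN] at h1 h2
  have hI0 : ∀ p : Cfg n k, 0 ≤ ∫ ξ, ‖G (p.1, Function.update p.2 j ξ)‖ ^ 2 := fun p =>
    integral_nonneg fun ξ => by positivity
  have hle : ∀ (B : Finset (ℕ × (Fin 3 → ℤ))) (p : Cfg n k),
      ∑ b ∈ B, ‖Pn j (hf b.1 b.2) G p‖ ^ 2 ≤ ∫ ξ, ‖G (p.1, Function.update p.2 j ξ)‖ ^ 2 :=
    fun B p => hpar_le _ (sl_cont j hG p) (sl_cpt j hc p) B
  have hcp : Measurable fun p : Cfg n k => c (p.2 j) := hcm.comp (meas_pj j)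
  have hm : ∀ b : ℕ × (Fin 3 → ℤ), AEStronglyMeasurable (fun p : Cfg n k => F p * (c (p.2 j) *
      ‖Pn j (hf b.1 b.2) G p‖ ^ 2)) := by
    intro b
    have h3 := (Pn_meas j (hf_meas b.1 b.2) hG).norm.pow 2
    exact hF.aestronglyMeasurable.mul (hcp.aestronglyMeasurable.mul h3.aestronglyMeasurable)
  have hbd : ∀ (B : Finset (ℕ × (Fin 3 → ℤ))) (p : Cfg n k),
      ‖∑ b ∈ B, F p * (c (p.2 j) * ‖Pn j (hf b.1 b.2) G p‖ ^ 2)‖ ≤
      ‖F p * (c (p.2 j) * ∫ ξ, ‖G (p.1, Function.update p.2 j ξ)‖ ^ 2)‖ := by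
    intro B p
    rw [← mul_sum, ← mul_sum]
    simp only [norm_mul]
    have h3 : 0 ≤ ∑ b ∈ B, ‖Pn j (hf b.1 b.2) G p‖ ^ 2 := sum_nonneg fun b _ => by positivity
    rw [Real.norm_of_nonneg h3, Real.norm_of_nonneg (hI0 p)]
    exact mul_le_mul_of_nonneg_left (mul_le_mul_of_nonneg_left (hle B p) (norm_nonneg _))
      (norm_nonneg _)
  have hib : ∀ b : ℕ × (Fin 3 → ℤ), Integrable fun p : Cfg n k => F p * (c (p.2 j) *
      ‖Pn j (hf b.1 b.2) G p‖ ^ 2) := by
    intro b
    refine h1.mono (hm b) (Filter.Eventually.of_forall fun p => ?_)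
    have h3 := hbd {b} p
    rwa [sum_singleton] at h3
  refine ⟨hib, ?_⟩
  have h4 : ∀ J : ℕ, ∑ b ∈ hB J R, ∫ p : Cfg n k, F p * (c (p.2 j) *
      ‖Pn j (hf b.1 b.2) G p‖ ^ 2) = ∫ p : Cfg n k, ∑ b ∈ hB J R, F p * (c (p.2 j) *
      ‖Pn j (hf b.1 b.2) G p‖ ^ 2) := fun J =>
    (integral_finsetSum _ fun b _ => hib b).symm
  simp only [h4]
  have h5 : ∫ p : Cfg n k, (∫ v, c v * F (p.1, Function.update p.2 j v)) * ‖G p‖ ^ 2 =
      ∫ p : Cfg n k, F p * (c (p.2 j) * ∫ ξ, ‖G (p.1, Function.update p.2 j ξ)‖ ^ 2) := by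
    rw [h2]
    congr 1
    funext p
    rw [integral_mul_const]
  rw [h5]
  refine tendsto_integral_of_dominated_convergence
    (fun p => ‖F p * (c (p.2 j) * ∫ ξ, ‖G (p.1, Function.update p.2 j ξ)‖ ^ 2)‖)
    (fun J => ?_) h1.norm (fun J => Filter.Eventually.of_forall fun p => hbd _ p)
    (Filter.Eventually.of_forall fun p => ?_)
  · exact Finset.aestronglyMeasurable_fun_sum _ fun b _ => hm b
  · have h6 := hpar_lim R (fun ξ : E3 => G (p.1, Function.update p.2 j ξ)) (sl_cont j hG p)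
      (fun ξ hξ => by
        have := hR _ hξ
        simpa only [Function.update_self] using this)
    have h7 := (h6.const_mul (c (p.2 j))).const_mul (F p)
    refine h7.congr fun J => ?_
    rw [mul_sum, mul_sum]
    rfl

/-- the linear part of `p ↦ (p.1, update p.2 j ξ)` -/
private noncomputable def Lj : Cfg n k →L[ℝ] Cfg n k :=
  (ContinuousLinearMap.fst ℝ (Fin n → E3) (Fin k → E3)).prod
    (ContinuousLinearMap.pi fun l => if l = j then 0 else
      (ContinuousLinearMap.proj l).comp (ContinuousLinearMap.snd ℝ (Fin n → E3) (Fin k → E3)))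

private theorem Lj_apply (e : Cfg n k) : Lj j e = (e.1, Function.update e.2 j 0) := by
  unfold Lj
  refine Prod.ext rfl ?_
  funext l
  change (if l = j then (0 : Cfg n k →L[ℝ] E3) else
      (ContinuousLinearMap.proj l).comp (ContinuousLinearMap.snd ℝ (Fin n → E3) (Fin k → E3))) e =
      Function.update e.2 j 0 l
  by_cases hl : l = j
  · subst hl
    rw [if_pos rfl, Function.update_self]
    rfl
  · rw [if_neg hl, Function.update_of_ne hl]
    rfl

private theorem upd_fd (ξ : E3) (p : Cfg n k) : HasFDerivAt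
    (fun p : Cfg n k => ((p.1, Function.update p.2 j ξ) : Cfg n k)) (Lj j) p := by
  have h1 : (fun p : Cfg n k => ((p.1, Function.update p.2 j ξ) : Cfg n k)) =
      fun p => Lj j p + ((0, Pi.single j ξ) : Cfg n k) := by
    funext p
    rw [Lj_apply]
    refine Prod.ext ?_ ?_
    · simp
    · funext l
      by_cases hl : l = j
      · subst hl
        simp
      · simp [hl]
  rw [h1]
  exact (Lj j).hasFDerivAt.add_const _

private theorem Pn_fd {f : E3 → ℝ} (hf : Measurable f) (M : ℝ) (hM : ∀ v, |f v| ≤ M)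
    {G : Cfg n k → ℂ} (hG : ContDiff ℝ 1 G) (hc : HasCompactSupport G) (p : Cfg n k) :
    HasFDerivAt (Pn j f G) (∫ ξ, ((f ξ : ℝ) : ℂ) •
      (fderiv ℝ G (p.1, Function.update p.2 j ξ)).comp (Lj j)) p ∧
    Integrable fun ξ => ((f ξ : ℝ) : ℂ) •
      (fderiv ℝ G (p.1, Function.update p.2 j ξ)).comp (Lj j) := by
  have hM0 : 0 ≤ M := (abs_nonneg _).trans (hM 0)
  have hdc : Continuous (fderiv ℝ G) := hG.continuous_fderiv one_ne_zero
  obtain ⟨C, hC⟩ := (hc.fderiv ℝ).exists_bound_of_continuous hdc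
  have hC0 : 0 ≤ C := (norm_nonneg _).trans (hC 0)
  obtain ⟨K, hKd⟩ : ∃ K : Set E3, K = (fun p : Cfg n k => p.2 j) '' tsupport G := ⟨_, rfl⟩
  have hKc : IsCompact K := by
    rw [hKd]
    exact hc.image ((continuous_apply j).comp continuous_snd)
  have hfm : Measurable fun ξ => ((f ξ : ℝ) : ℂ) := Complex.measurable_ofReal.comp hf
  have hdm : ∀ x : Cfg n k, AEStronglyMeasurable (fun ξ => ((f ξ : ℝ) : ℂ) •
      (fderiv ℝ G (x.1, Function.update x.2 j ξ)).comp (Lj j)) := by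
    intro x
    have h1 : Continuous fun ξ : E3 =>
        (fderiv ℝ G (x.1, Function.update x.2 j ξ)).comp (Lj j) := by
      have h2 : Continuous fun ξ : E3 => fderiv ℝ G (x.1, Function.update x.2 j ξ) :=
        hdc.comp ((upd_cont j).comp (continuous_const.prodMk continuous_id))
      exact h2.clm_comp continuous_const
    exact hfm.aestronglyMeasurable.smul h1.aestronglyMeasurable
  have hbd : ∀ (x : Cfg n k) (ξ : E3), ‖((f ξ : ℝ) : ℂ) •
      (fderiv ℝ G (x.1, Function.update x.2 j ξ)).comp (Lj j)‖ ≤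
      K.indicator (fun _ => M * (C * ‖Lj (n := n) j‖)) ξ := by
    intro x ξ
    by_cases hξ : ξ ∈ K
    · rw [Set.indicator_of_mem hξ, norm_smul, Complex.norm_real]
      refine mul_le_mul (hM ξ) ?_ (norm_nonneg _) hM0
      refine (ContinuousLinearMap.opNorm_comp_le _ _).trans ?_
      exact mul_le_mul_of_nonneg_right (hC _) (norm_nonneg _)
    · rw [Set.indicator_of_notMem hξ]
      have h1 : fderiv ℝ G (x.1, Function.update x.2 j ξ) = 0 := by
        by_contra hne
        apply hξ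
        rw [hKd]
        exact ⟨(x.1, Function.update x.2 j ξ), support_fderiv_subset ℝ hne,
          Function.update_self j ξ x.2⟩
      rw [h1, ContinuousLinearMap.zero_comp, norm_smul, norm_zero, mul_zero]
  have hbi : Integrable (K.indicator (fun _ : E3 => M * (C * ‖Lj (n := n) j‖))) := by
    rw [integrable_indicator_iff hKc.measurableSet]
    exact integrableOn_const hKc.measure_lt_top.ne enorm_ne_top
  refine ⟨?_, Integrable.mono' hbi (hdm p) (Filter.Eventually.of_forall (hbd p))⟩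
  refine hasFDerivAt_integral_of_dominated_of_fderiv_le (s := Set.univ) (μ := volume)
    (F := fun (p : Cfg n k) ξ => ((f ξ : ℝ) : ℂ) * G (p.1, Function.update p.2 j ξ))
    (F' := fun (p : Cfg n k) ξ => ((f ξ : ℝ) : ℂ) •
      (fderiv ℝ G (p.1, Function.update p.2 j ξ)).comp (Lj j))
    (bound := K.indicator (fun _ => M * (C * ‖Lj (n := n) j‖)))
    Filter.univ_mem (Filter.Eventually.of_forall fun x => ?_) ?_ (hdm p)
    (Filter.Eventually.of_forall fun ξ x _ => hbd x ξ) hbi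
    (Filter.Eventually.of_forall fun ξ x _ => ?_)
  · exact hfm.aestronglyMeasurable.mul (sl_cont j hG.continuous x).aestronglyMeasurable
  · have h1 : Integrable (fun ξ : E3 => G (p.1, Function.update p.2 j ξ)) :=
      (sl_cont j hG.continuous p).integrable_of_hasCompactSupport (sl_cpt j hc p)
    refine h1.bdd_mul (c := M) hfm.aestronglyMeasurable (Filter.Eventually.of_forall fun ξ => ?_)
    rw [Complex.norm_real]
    exact hM ξ
  · have h1 : HasFDerivAt G (fderiv ℝ G (x.1, Function.update x.2 j ξ))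
        (x.1, Function.update x.2 j ξ) :=
      ((hG.differentiable one_ne_zero) _).hasFDerivAt
    have h2 := h1.comp x (upd_fd j ξ x)
    exact h2.const_smul ((f ξ : ℝ) : ℂ)

/-- directional derivative -/
private noncomputable def De (e : Cfg n k) (G : Cfg n k → ℂ) : Cfg n k → ℂ :=
  fun p => fderiv ℝ G p e

private theorem De_cont {e : Cfg n k} {G : Cfg n k → ℂ} (hG : ContDiff ℝ 1 G) :
    Continuous (De e G) := (hG.continuous_fderiv one_ne_zero).clm_apply continuous_const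

private theorem De_ne {e : Cfg n k} {G : Cfg n k → ℂ} (p : Cfg n k) (h : De e G p ≠ 0) :
    p ∈ tsupport G := by
  apply support_fderiv_subset ℝ
  rw [Function.mem_support]
  intro h0
  apply h
  unfold De
  rw [h0]
  rfl

private theorem De_cpt {e : Cfg n k} {G : Cfg n k → ℂ} (hc : HasCompactSupport G) :
    HasCompactSupport (De e G) := by
  refine (hc.fderiv ℝ).mono fun p hp => ?_
  rw [Function.mem_support] at hp ⊢
  intro h0
  apply hp
  unfold De
  rw [h0]
  rfl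

/-- the derivative of the relocated function -/
private theorem ntr_fd {χ : E3 → ℝ} (hχ : Bump χ) (r : ℝ) (hr : 0 < r) (w : E3)
    {f : E3 → ℝ} (hf : Measurable f) (M : ℝ) (hM : ∀ v, |f v| ≤ M)
    {G : Cfg n k → ℂ} (hG : ContDiff ℝ 1 G) (hc : HasCompactSupport G) (p e : Cfg n k) :
    fderiv ℝ (fun p : Cfg n k => ((chr χ r (p.2 j - w) : ℝ) : ℂ) * Pn j f G p) p e =
      ((chr χ r (p.2 j - w) : ℝ) : ℂ) * Pn j f (De (Lj j e) G) p +
      ((fderiv ℝ (chr χ r) (p.2 j - w) (e.2 j) : ℝ) : ℂ) * Pn j f G p := by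
  obtain ⟨h1, h2⟩ := Pn_fd j hf M hM hG hc p
  have h3 : HasFDerivAt (fun p : Cfg n k => p.2 j - w)
      ((ContinuousLinearMap.proj j).comp (ContinuousLinearMap.snd ℝ (Fin n → E3) (Fin k → E3))) p :=
    ((ContinuousLinearMap.proj j).comp
      (ContinuousLinearMap.snd ℝ (Fin n → E3) (Fin k → E3))).hasFDerivAt.sub_const w
  have h4 : HasFDerivAt (chr χ r) (fderiv ℝ (chr χ r) (p.2 j - w)) (p.2 j - w) :=
    (((chr_smooth hχ r hr).differentiable (by simp)) _).hasFDerivAt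
  have h5 := h4.comp p h3
  have h6 := Complex.ofRealCLM.hasFDerivAt.comp p h5
  have h7 := h6.mul h1
  have h8 : fderiv ℝ (fun p : Cfg n k => ((chr χ r (p.2 j - w) : ℝ) : ℂ) * Pn j f G p) p = _ :=
    h7.fderiv
  rw [h8]
  have h9 : (∫ ξ, ((f ξ : ℝ) : ℂ) •
      (fderiv ℝ G (p.1, Function.update p.2 j ξ)).comp (Lj j)) e = Pn j f (De (Lj j e) G) p := by
    rw [ContinuousLinearMap.integral_apply h2]
    rfl
  simp only [add_apply, smul_apply, smul_eq_mul, h9, ContinuousLinearMap.comp_apply,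
    Function.comp_apply, Complex.ofRealCLM_apply]
  rw [mul_comm (Pn j f G p)]
  rfl

end P

section

variable {q n k : ℕ} {χ : E3 → ℝ} (hχ : Bump χ) (r : ℝ) (hr : 0 < r) (j : Fin k)
  (w : E3)

private theorem ntr_eq (f : E3 → ℝ) (G : (Fin n → Fin q) → Cfg n k → ℂ) (σ : Fin n → Fin q)
    (p : Cfg n k) :
    ‖ntr χ r j w f G σ p‖ ^ 2 = chr χ r (p.2 j - w) ^ 2 * ‖Pn j f (G σ) p‖ ^ 2 := by
  unfold ntr Pn
  rw [norm_mul, mul_pow, Complex.norm_real, Real.norm_eq_abs, sq_abs]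

include hχ hr in
private theorem chr_cont : Continuous fun v => chr χ r (v - w) :=
  (chr_smooth hχ r hr).continuous.comp (continuous_id.sub continuous_const)

include hχ hr in
private theorem chr_cpt : HasCompactSupport fun v => chr χ r (v - w) := by
  refine HasCompactSupport.intro (isCompact_closedBall w (r / 2)) ?_
  intro v hv
  by_contra h
  apply hv
  rw [mem_closedBall_iff_norm]
  exact (chr_supp hχ r hr _ h).le

include hχ hr in
private theorem chr2_int : Integrable fun v => chr χ r (v - w) ^ 2 := by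
  refine ((chr_cont hχ r hr w).pow 2).integrable_of_hasCompactSupport ?_
  exact (chr_cpt hχ r hr w).mono fun x hx h0 => hx (by
    have h1 : chr χ r (x - w) = 0 := h0
    show chr χ r (x - w) ^ 2 = 0
    rw [h1]; norm_num)

include hχ hr in
private theorem chr2_one : ∫ v, chr χ r (v - w) ^ 2 = 1 := by
  rw [integral_sub_right_eq_self (fun v => chr χ r v ^ 2) w]
  exact chr_norm hχ r hr

include hχ hr in
private theorem grc_cont : Continuous fun v => gr (chr χ r) (v - w) := by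
  have h1 : Continuous (gr (chr χ r)) := by
    unfold gr
    refine continuous_finsetSum _ fun d _ => ?_
    exact (((chr_smooth hχ r hr).continuous_fderiv (by simp)).clm_apply continuous_const).pow 2
  exact h1.comp (continuous_id.sub continuous_const)

include hχ hr in
private theorem grc_int : Integrable fun v => gr (chr χ r) (v - w) := by
  refine (grc_cont hχ r hr w).integrable_of_hasCompactSupport ?_
  refine HasCompactSupport.intro (chr_cpt hχ r hr w).isCompact ?_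
  intro v hv
  have h1 : fderiv ℝ (fun v => chr χ r (v - w)) v = 0 := by
    by_contra hne
    exact hv (support_fderiv_subset ℝ hne)
  have h2 : fderiv ℝ (fun v => chr χ r (v - w)) v = fderiv ℝ (chr χ r) (v - w) := by
    simp only [sub_eq_add_neg]
    rw [fderiv_comp_add_right]
  unfold gr
  rw [← h2, h1]
  simp

include hχ hr in
private theorem grc_val : ∫ v, gr (chr χ r) (v - w) = (r ^ 2)⁻¹ * ∫ v, gr χ v := by
  rw [integral_sub_right_eq_self (fun v => gr (chr χ r) v) w]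
  exact chr_grad hχ r hr

include hχ hr

theorem ntr_mean (G : (Fin n → Fin q) → Cfg n k → ℂ) (hG : ∀ σ, Continuous (G σ))
    (hc : ∀ σ, HasCompactSupport (G σ)) (R : ℝ) (hR : ∀ σ p, G σ p ≠ 0 → ‖p.2 j‖ ≤ R)
    (F : Cfg n k → ℝ) (hF : Measurable F)
    (hI : ∀ σ, Integrable (fun u : Cfg n k × E3 => chr χ r (u.2 - w) ^ 2 *
      F (u.1.1, Function.update u.1.2 j u.2) * ‖G σ u.1‖ ^ 2)) :
    Filter.Tendsto (fun J : ℕ => ∑ b ∈ hB J R,
      mean (ntr χ r j w (hf b.1 b.2) G) F) Filter.atTop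
      (nhds (mean G (fun p => ∫ v, chr χ r (v - w) ^ 2 *
        F (p.1, Function.update p.2 j v)))) := by
  unfold mean
  have h1 : ∀ J : ℕ, ∑ b ∈ hB J R, ∑ σ, ∫ p, F p * ‖ntr χ r j w (hf b.1 b.2) G σ p‖ ^ 2 =
      ∑ σ, ∑ b ∈ hB J R, ∫ p : Cfg n k, F p * (chr χ r (p.2 j - w) ^ 2 *
        ‖Pn j (hf b.1 b.2) (G σ) p‖ ^ 2) := by
    intro J
    rw [sum_comm]
    refine sum_congr rfl fun σ _ => sum_congr rfl fun b _ => ?_
    simp only [ntr_eq]
  simp only [h1]
  refine tendsto_finsetSum _ fun σ _ => ?_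
  exact (en_core j (fun v => chr χ r (v - w) ^ 2) ((chr_cont hχ r hr w).pow 2).measurable (G σ)
    (hG σ) (hc σ) R (hR σ) F hF (hI σ)).2

omit hχ hr in
private theorem sq_int {G : Cfg n k → ℂ} (hG : Continuous G) (hc : HasCompactSupport G) :
    Integrable fun p => ‖G p‖ ^ 2 := by
  refine (hG.norm.pow 2).integrable_of_hasCompactSupport ?_
  exact hc.mono fun x hx h0 => hx (by simp [h0])

omit hχ hr in
/-- the limit for a weight and `F = 1` -/
private theorem one_lim (c : E3 → ℝ) (hcc : Continuous c) (hci : Integrable c)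
    (G : Cfg n k → ℂ) (hG : Continuous G)
    (hc : HasCompactSupport G) (R : ℝ) (hR : ∀ p, G p ≠ 0 → ‖p.2 j‖ ≤ R) :
    (∀ b : ℕ × (Fin 3 → ℤ), Integrable fun p : Cfg n k => c (p.2 j) *
      ‖Pn j (hf b.1 b.2) G p‖ ^ 2) ∧
    Filter.Tendsto (fun J : ℕ => ∑ b ∈ hB J R, ∫ p : Cfg n k, c (p.2 j) *
      ‖Pn j (hf b.1 b.2) G p‖ ^ 2) Filter.atTop
      (nhds ((∫ v, c v) * ∫ p : Cfg n k, ‖G p‖ ^ 2)) := by
  have h1 : Integrable fun p => ‖G p‖ ^ 2 := by
    refine (hG.norm.pow 2).integrable_of_hasCompactSupport ?_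
    exact hc.mono fun x hx h0 => hx (by simp [h0])
  obtain ⟨h2, h3⟩ := en_core j c hcc.measurable G hG hc R hR (fun _ => 1) measurable_const
    (by
      have := nuc_prod h1 hci
      simpa only [mul_one] using this)
  simp only [one_mul, mul_one] at h2 h3
  rw [integral_const_mul] at h3
  exact ⟨h2, h3⟩

theorem ntr_mass {Λ : Set E3} {φ : (Fin n → Fin q) → Cfg n k → ℂ} (hφ : Sm q n k Λ φ)
    (R : ℝ) (hR : ∀ σ p, φ σ p ≠ 0 → ‖p.2 j‖ ≤ R) :
    Filter.Tendsto (fun J : ℕ => ∑ b ∈ hB J R,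
      mass (ntr χ r j w (hf b.1 b.2) φ)) Filter.atTop (nhds (mass φ)) := by
  unfold mass
  have h1 : ∀ J : ℕ, ∑ b ∈ hB J R, ∑ σ, ∫ p, ‖ntr χ r j w (hf b.1 b.2) φ σ p‖ ^ 2 =
      ∑ σ, ∑ b ∈ hB J R, ∫ p : Cfg n k, chr χ r (p.2 j - w) ^ 2 *
        ‖Pn j (hf b.1 b.2) (φ σ) p‖ ^ 2 := by
    intro J
    rw [sum_comm]
    refine sum_congr rfl fun σ _ => sum_congr rfl fun b _ => ?_
    simp only [ntr_eq]
  simp only [h1]
  refine tendsto_finsetSum _ fun σ _ => ?_
  have h2 := (one_lim j (fun v => chr χ r (v - w) ^ 2) ((chr_cont hχ r hr w).pow 2)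
    (chr2_int hχ r hr w) (φ σ) (hφ.smooth σ).continuous (hφ.cpt σ) R (hR σ)).2
  rw [chr2_one hχ r hr, one_mul] at h2
  exact h2

/-- the squared derivatives of the relocated function in a direction which fixes nucleus `j` -/
private theorem ntr_d (hf1 : ∀ b : ℕ × (Fin 3 → ℤ), Measurable (hf b.1 b.2))
    {G : Cfg n k → ℂ} (hG : ContDiff ℝ 1 G) (hc : HasCompactSupport G)
    (e : Cfg n k) (he : e.2 j = 0) (b : ℕ × (Fin 3 → ℤ)) (p : Cfg n k) :
    ‖fderiv ℝ (fun p : Cfg n k => ((chr χ r (p.2 j - w) : ℝ) : ℂ) *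
      Pn j (hf b.1 b.2) G p) p e‖ ^ 2 =
      chr χ r (p.2 j - w) ^ 2 * ‖Pn j (hf b.1 b.2) (De e G) p‖ ^ 2 := by
  rw [ntr_fd j hχ r hr w (hf1 b) _ (hf_bd b.1 b.2) hG hc p e, he, map_zero, Complex.ofReal_zero,
    zero_mul, add_zero, Lj_apply]
  have h1 : ((e.1, Function.update e.2 j 0) : Cfg n k) = e := by
    refine Prod.ext rfl ?_
    rw [← he, Function.update_eq_self]
  rw [h1, norm_mul, mul_pow, Complex.norm_real, Real.norm_eq_abs, sq_abs]

/-- the squared derivatives of the relocated function in the directions of nucleus `j` -/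
private theorem ntr_dj (hf1 : ∀ b : ℕ × (Fin 3 → ℤ), Measurable (hf b.1 b.2))
    {G : Cfg n k → ℂ} (hG : ContDiff ℝ 1 G) (hc : HasCompactSupport G)
    (b : ℕ × (Fin 3 → ℤ)) (p : Cfg n k) :
    ∑ d : Fin 3, ‖fderiv ℝ (fun p : Cfg n k => ((chr χ r (p.2 j - w) : ℝ) : ℂ) *
      Pn j (hf b.1 b.2) G p) p (0, Pi.single j (EuclideanSpace.single d 1))‖ ^ 2 =
      gr (chr χ r) (p.2 j - w) * ‖Pn j (hf b.1 b.2) G p‖ ^ 2 := by
  unfold gr
  rw [sum_mul]
  refine sum_congr rfl fun d _ => ?_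
  rw [ntr_fd j hχ r hr w (hf1 b) _ (hf_bd b.1 b.2) hG hc p, Lj_apply]
  have h1 : ((((0, Pi.single j (EuclideanSpace.single d 1)) : Cfg n k).1,
      Function.update ((0, Pi.single j (EuclideanSpace.single d 1)) : Cfg n k).2 j 0) :
        Cfg n k) = 0 := by
    refine Prod.ext rfl ?_
    funext l
    by_cases hl : l = j
    · subst hl
      simp
    · simp [hl]
  have h2 : Pn j (hf b.1 b.2) (De (0 : Cfg n k) G) p = 0 := by
    unfold Pn De
    simp
  rw [h1, h2, mul_zero, zero_add]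
  have h3 : ((0, Pi.single j (EuclideanSpace.single d 1)) : Cfg n k).2 j =
      EuclideanSpace.single d 1 := Pi.single_eq_same _ _
  rw [h3, norm_mul, mul_pow, Complex.norm_real, Real.norm_eq_abs, sq_abs]

/-- the limit of the kinetic energies in directions which fix nucleus `j` -/
private theorem ntr_kin {Λ : Set E3} {φ : (Fin n → Fin q) → Cfg n k → ℂ} (hφ : Sm q n k Λ φ)
    (R : ℝ) (hR0 : ∀ σ p, φ σ p ≠ 0 → ‖p.2 j‖ ≤ R) (e : Fin 3 → Cfg n k)
    (he : ∀ d, (e d).2 j = 0) :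
    Filter.Tendsto (fun J : ℕ => ∑ b ∈ hB J R, ∑ σ, ∫ p, ∑ d : Fin 3,
      ‖fderiv ℝ (ntr χ r j w (hf b.1 b.2) φ σ) p (e d)‖ ^ 2) Filter.atTop
      (nhds (∑ σ, ∫ p, ∑ d : Fin 3, ‖fderiv ℝ (φ σ) p (e d)‖ ^ 2)) := by
  have hs1 : ∀ σ, ContDiff ℝ 1 (φ σ) := fun σ => (hφ.smooth σ).of_le (by exact_mod_cast le_top)
  have hf1 : ∀ b : ℕ × (Fin 3 → ℤ), Measurable (hf b.1 b.2) := fun b => hf_meas b.1 b.2
  have hRd : ∀ σ d p, De (e d) (φ σ) p ≠ 0 → ‖p.2 j‖ ≤ R := by
    intro σ d p hp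
    have h1 : tsupport (φ σ) ⊆ {p : Cfg n k | ‖p.2 j‖ ≤ R} := by
      refine closure_minimal (fun p hp => hR0 σ p hp) ?_
      exact isClosed_le ((continuous_apply j).comp continuous_snd).norm continuous_const
    exact h1 (De_ne p hp)
  have hlim := fun σ d => one_lim j (fun v => chr χ r (v - w) ^ 2)
    ((chr_cont hχ r hr w).pow 2) (chr2_int hχ r hr w) (De (e d) (φ σ)) (De_cont (hs1 σ))
    (De_cpt (hφ.cpt σ)) R (hRd σ d)
  have h1 : ∀ J : ℕ, ∑ b ∈ hB J R, ∑ σ, ∫ p, ∑ d : Fin 3,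
      ‖fderiv ℝ (ntr χ r j w (hf b.1 b.2) φ σ) p (e d)‖ ^ 2 =
      ∑ σ, ∑ d, ∑ b ∈ hB J R, ∫ p : Cfg n k, chr χ r (p.2 j - w) ^ 2 *
        ‖Pn j (hf b.1 b.2) (De (e d) (φ σ)) p‖ ^ 2 := by
    intro J
    rw [sum_comm]
    refine sum_congr rfl fun σ _ => ?_
    rw [sum_comm]
    refine sum_congr rfl fun b _ => ?_
    rw [← integral_finsetSum _ fun d _ => (hlim σ d).1 b]
    congr 1
    funext p
    refine sum_congr rfl fun d _ => ?_
    exact ntr_d hχ r hr j w hf1 (hs1 σ) (hφ.cpt σ) (e d) (he d) b p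
  have h2 : ∑ σ, ∫ p, ∑ d : Fin 3, ‖fderiv ℝ (φ σ) p (e d)‖ ^ 2 =
      ∑ σ, ∑ d : Fin 3, ∫ p, ‖De (e d) (φ σ) p‖ ^ 2 := by
    refine sum_congr rfl fun σ _ => ?_
    rw [← integral_finsetSum _ fun d _ => sq_int (De_cont (hs1 σ)) (De_cpt (hφ.cpt σ))]
    rfl
  simp only [h1]
  rw [h2]
  refine tendsto_finsetSum _ fun σ _ => tendsto_finsetSum _ fun d _ => ?_
  have h3 := (hlim σ d).2
  rw [chr2_one hχ r hr, one_mul] at h3
  exact h3

private theorem ntr_diff {G : Cfg n k → ℂ} (hG : ContDiff ℝ 1 G) (hc : HasCompactSupport G)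
    (b : ℕ × (Fin 3 → ℤ)) : Differentiable ℝ (fun p : Cfg n k =>
      ((chr χ r (p.2 j - w) : ℝ) : ℂ) * Pn j (hf b.1 b.2) G p) := by
  intro p
  have h1 := (Pn_fd j (hf_meas b.1 b.2) _ (hf_bd b.1 b.2) hG hc p).1.differentiableAt
  have h2 : ContDiff ℝ (⊤ : ℕ∞) fun p : Cfg n k => ((chr χ r (p.2 j - w) : ℝ) : ℂ) :=
    Complex.ofRealCLM.contDiff.comp ((chr_smooth hχ r hr).comp
      (((contDiff_apply ℝ E3 j).comp contDiff_snd).sub contDiff_const))
  exact ((h2.differentiable (by simp)) p).mul h1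

theorem ntr_energy {Λ : Set E3} {φ : (Fin n → Fin q) → Cfg n k → ℂ} (hφ : Sm q n k Λ φ)
    (R : ℝ) (hR : ∀ σ p, φ σ p ≠ 0 → ‖p.2 j‖ ≤ R) (z κ : Fin k → ℝ) :
    Filter.Tendsto (fun J : ℕ => ∑ b ∈ hB J R,
      energy z κ (ntr χ r j w (hf b.1 b.2) φ)) Filter.atTop
      (nhds (Efn χ r j w z κ φ)) := by
  classical
  have hs1 : ∀ σ, ContDiff ℝ 1 (φ σ) := fun σ => (hφ.smooth σ).of_le (by exact_mod_cast le_top)
  have hdi : ∀ σ, Differentiable ℝ (φ σ) := fun σ => (hs1 σ).differentiable one_ne_zero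
  have hdn : ∀ (b : ℕ × (Fin 3 → ℤ)) σ, Differentiable ℝ (ntr χ r j w (hf b.1 b.2) φ σ) :=
    fun b σ => ntr_diff hχ r hr j w (hs1 σ) (hφ.cpt σ) b
  have hE : ∀ a, Filter.Tendsto (fun J : ℕ => ∑ b ∈ hB J R,
      kE (ntr χ r j w (hf b.1 b.2) φ) a) Filter.atTop (nhds (kE φ a)) := by
    intro a
    have h1 := ntr_kin hχ r hr j w hφ R hR
      (fun d => (Pi.single a (EuclideanSpace.single d 1), 0)) (fun d => rfl)
    unfold kE
    simp only [ge_eq _ (hdn _ _), ge_eq _ (hdi _)]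
    exact h1
  have hN : ∀ l, l ≠ j → Filter.Tendsto (fun J : ℕ => ∑ b ∈ hB J R,
      kN (ntr χ r j w (hf b.1 b.2) φ) l) Filter.atTop (nhds (kN φ l)) := by
    intro l hl
    have h1 := ntr_kin hχ r hr j w hφ R hR
      (fun d => (0, Pi.single l (EuclideanSpace.single d 1)))
      (fun d => Pi.single_eq_of_ne hl.symm _)
    unfold kN
    simp only [gn_eq _ (hdn _ _), gn_eq _ (hdi _)]
    exact h1
  have hJ : Filter.Tendsto (fun J : ℕ => ∑ b ∈ hB J R,
      kN (ntr χ r j w (hf b.1 b.2) φ) j) Filter.atTop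
      (nhds (((r ^ 2)⁻¹ * ∫ v, gr χ v) * mass φ)) := by
    unfold kN mass
    have h1 : ∀ J : ℕ, ∑ b ∈ hB J R, ∑ σ, ∫ p, gn (ntr χ r j w (hf b.1 b.2) φ σ) j p =
        ∑ σ, ∑ b ∈ hB J R, ∫ p : Cfg n k, gr (chr χ r) (p.2 j - w) *
          ‖Pn j (hf b.1 b.2) (φ σ) p‖ ^ 2 := by
      intro J
      rw [sum_comm]
      refine sum_congr rfl fun σ _ => sum_congr rfl fun b _ => ?_
      congr 1
      funext p
      rw [gn_eq _ (hdn b σ)]
      exact ntr_dj hχ r hr j w (fun b => hf_meas b.1 b.2) (hs1 σ) (hφ.cpt σ) b p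
    simp only [h1]
    rw [mul_sum]
    refine tendsto_finsetSum _ fun σ _ => ?_
    have h2 := (one_lim j (fun v => gr (chr χ r) (v - w)) (grc_cont hχ r hr w)
      (grc_int hχ r hr w) (φ σ) (hφ.smooth σ).continuous (hφ.cpt σ) R (hR σ)).2
    rw [grc_val hχ r hr] at h2
    exact h2
  have hchi : Integrable fun v => chr χ r (v - w) ^ 2 := chr2_int hχ r hr w
  have hVa : ∀ σ, Integrable (fun p => (V z p - z j * phiN z j p (p.2 j)) * ‖φ σ p‖ ^ 2) := by
    intro σ
    exact (IM_V hφ z).sub ((IM_phiN hφ z j).cmul (z j)) σ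
  have hph : ∀ σ, Integrable (fun u : Cfg n k × E3 =>
      phiN z j u.1 u.2 * (chr χ r (u.2 - w) ^ 2 * ‖φ σ u.1‖ ^ 2)) := by
    intro σ
    obtain ⟨g, hg⟩ : ∃ g : Cfg n k × E3 → ℝ,
      g = fun u => chr χ r (u.2 - w) ^ 2 * ‖φ σ u.1‖ ^ 2 := ⟨_, rfl⟩
    have hgc : Continuous g := by
      rw [hg]
      exact (((chr_cont hχ r hr w).comp continuous_snd).pow 2).mul
        (((hφ.smooth σ).continuous.comp continuous_fst).norm.pow 2)
    have hgk : HasCompactSupport g := by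
      rw [hg]
      refine HasCompactSupport.intro ((hφ.cpt σ).isCompact.prod
        (chr_cpt hχ r hr w).isCompact) ?_
      intro u hu
      rw [Set.mem_prod, not_and_or] at hu
      rcases hu with hu | hu
      · have h3 : φ σ u.1 = 0 := image_eq_zero_of_notMem_tsupport hu
        rw [h3]
        simp
      · have h4 : chr χ r (u.2 - w) = 0 :=
          image_eq_zero_of_notMem_tsupport (f := fun v => chr χ r (v - w)) hu
        rw [h4]
        simp
    have h1 : ∀ u : Cfg n k × E3, phiN z j u.1 u.2 *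
        (chr χ r (u.2 - w) ^ 2 * ‖φ σ u.1‖ ^ 2) =
        ∑ l ∈ univ.erase j, z l * (‖u.2 - u.1.2 l‖⁻¹ * g u) -
          ∑ a, ‖u.2 - u.1.1 a‖⁻¹ * g u := by
      intro u
      rw [hg]
      unfold phiN
      rw [sub_mul, sum_mul, sum_mul]
      simp only [mul_assoc]
    simp only [h1]
    refine Integrable.sub ?_ ?_
    · exact integrable_finsetSum _ fun l _ => (int_pn g hgc hgk l).const_mul (z l)
    · exact integrable_finsetSum _ fun b _ => int_pe g hgc hgk b
  have hVI : ∀ σ, Integrable (fun u : Cfg n k × E3 => chr χ r (u.2 - w) ^ 2 *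
      V z (u.1.1, Function.update u.1.2 j u.2) * ‖φ σ u.1‖ ^ 2) := by
    intro σ
    refine ((nuc_prod (hVa σ) hchi).add ((hph σ).const_mul (z j))).congr
      (Filter.Eventually.of_forall fun u => ?_)
    simp only [Pi.add_apply]
    rw [V_updN]
    ring
  have hVm : Measurable (V z : Cfg n k → ℝ) := by
    unfold V
    fun_prop
  have hV := ntr_mean hχ r hr j w φ (fun σ => (hφ.smooth σ).continuous) hφ.cpt R hR (V z) hVm hVI
  have hphi : ∀ p : Cfg n k, Integrable fun v => chr χ r (v - w) ^ 2 * phiN z j p v := by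
    intro p
    have h1 : ∀ v, chr χ r (v - w) ^ 2 * phiN z j p v =
        ∑ l ∈ univ.erase j, z l * (chr χ r (v - w) ^ 2 * ‖v - p.2 l‖⁻¹) -
          ∑ a, chr χ r (v - w) ^ 2 * ‖v - p.1 a‖⁻¹ := by
      intro v
      unfold phiN
      rw [mul_sub, mul_sum, mul_sum]
      congr 1
      exact sum_congr rfl fun l _ => by ring
    simp only [h1]
    refine Integrable.sub ?_ ?_
    · exact integrable_finsetSum _ fun l _ => (chr_pot_int hχ r hr w (p.2 l)).const_mul (z l)
    · exact integrable_finsetSum _ fun a _ => chr_pot_int hχ r hr w (p.1 a)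
  have hval : ∀ p : Cfg n k, ∫ v, chr χ r (v - w) ^ 2 * V z (p.1, Function.update p.2 j v) =
      (V z p - z j * phiN z j p (p.2 j)) +
        z j * ∫ v, chr χ r (v - w) ^ 2 * phiN z j p v := by
    intro p
    have h1 : ∀ v, chr χ r (v - w) ^ 2 * V z (p.1, Function.update p.2 j v) =
        chr χ r (v - w) ^ 2 * (V z p - z j * phiN z j p (p.2 j)) +
          z j * (chr χ r (v - w) ^ 2 * phiN z j p v) := by
      intro v
      rw [V_updN]
      ring
    simp only [h1]
    rw [integral_add (hchi.mul_const _) ((hphi p).const_mul _), integral_mul_const,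
      integral_const_mul, chr2_one hχ r hr, one_mul]
  have hIphi : IM φ (fun p => ∫ v, chr χ r (v - w) ^ 2 * phiN z j p v) := by
    intro σ
    have h1 := (hph σ)
    rw [Measure.volume_eq_prod] at h1
    refine h1.integral_prod_left.congr (Filter.Eventually.of_forall fun p => ?_)
    simp only
    rw [← integral_mul_const]
    congr 1
    funext v
    ring
  have hmean : mean φ (fun p => ∫ v, chr χ r (v - w) ^ 2 *
      V z (p.1, Function.update p.2 j v)) =
      mean φ (fun p => V z p - z j * phiN z j p (p.2 j)) +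
        z j * mean φ (fun p => ∫ v, chr χ r (v - w) ^ 2 * phiN z j p v) := by
    simp only [hval]
    rw [mean_add (F := fun p => V z p - z j * phiN z j p (p.2 j))
      (G := fun p => z j * ∫ v, chr χ r (v - w) ^ 2 * phiN z j p v)
      hVa (hIphi.cmul (z j)), mean_cmul]
  rw [hmean] at hV
  have hsum : ∀ J : ℕ, ∑ b ∈ hB J R, energy z κ (ntr χ r j w (hf b.1 b.2) φ) =
      ∑ a, ∑ b ∈ hB J R, kE (ntr χ r j w (hf b.1 b.2) φ) a +
      (∑ l ∈ univ.erase j, κ l * ∑ b ∈ hB J R, kN (ntr χ r j w (hf b.1 b.2) φ) l +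
        κ j * ∑ b ∈ hB J R, kN (ntr χ r j w (hf b.1 b.2) φ) j) +
      ∑ b ∈ hB J R, mean (ntr χ r j w (hf b.1 b.2) φ) (V z) := by
    intro J
    rw [Finset.sum_erase_add _ _ (mem_univ j)]
    unfold energy
    rw [sum_add_distrib, sum_add_distrib, sum_comm]
    congr 2
    rw [sum_comm]
    exact sum_congr rfl fun l _ => (mul_sum _ _ _).symm
  have hfin := ((tendsto_finsetSum univ fun a (_ : a ∈ univ) => hE a).add
    ((tendsto_finsetSum (univ.erase j) fun l (hl : l ∈ univ.erase j) =>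
      (hN l (ne_of_mem_erase hl)).const_mul (κ l)).add (hJ.const_mul (κ j)))).add hV
  have hval2 : Efn χ r j w z κ φ = ∑ a, kE φ a + (∑ l ∈ univ.erase j, κ l * kN φ l +
      κ j * (((r ^ 2)⁻¹ * ∫ v, gr χ v) * mass φ)) +
      (mean φ (fun p => V z p - z j * phiN z j p (p.2 j)) +
        z j * mean φ (fun p => ∫ v, chr χ r (v - w) ^ 2 * phiN z j p v)) := by
    unfold Efn
    ring
  rw [hval2]
  refine hfin.congr fun J => ?_
  exact (hsum J).symm

end

theorem ntr_cost (δ : ℝ) (hδ : 0 < δ) : ∃ C : ℝ, 0 ≤ C ∧ ∀ {q n k : ℕ} {χ : E3 → ℝ}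
    (_ : Bump χ) (r : ℝ) (_ : 0 < r) (j : Fin k) (w : E3) {Λ : Set E3}
    (φ : (Fin n → Fin q) → Cfg n k → ℂ) (_ : Sm q n k Λ φ) (J : ℕ) (R : ℝ),
    ∑ b ∈ hB J R, hx b.1 * mass (ntr χ r j w (hf b.1 b.2) φ) ≤
      δ * kN φ j + C * mass φ := by
  obtain ⟨C, hC0, hC⟩ := hcost δ hδ
  refine ⟨C, hC0, ?_⟩
  intro q n k χ hχ r hr j w Λ φ hφ J R
  have hs1 : ∀ σ, ContDiff ℝ 1 (φ σ) := fun σ => (hφ.smooth σ).of_le (by exact_mod_cast le_top)
  obtain ⟨c, hcd⟩ : ∃ c : E3 → ℝ, c = fun v => chr χ r (v - w) ^ 2 := ⟨_, rfl⟩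
  have hcc : Continuous c := by
    rw [hcd]
    exact (chr_cont hχ r hr w).pow 2
  have hci : Integrable c := by
    rw [hcd]
    exact chr2_int hχ r hr w
  have hc1 : ∫ v, c v = 1 := by
    rw [hcd]
    exact chr2_one hχ r hr w
  have hc0 : ∀ v, 0 ≤ c v := by
    intro v
    rw [hcd]
    positivity
  -- exchange
  have hex : ∀ (K : Cfg n k → ℝ), Integrable K →
      Integrable (fun p : Cfg n k => c (p.2 j) * ∫ ξ, K (p.1, Function.update p.2 j ξ)) ∧
      ∫ p : Cfg n k, c (p.2 j) * ∫ ξ, K (p.1, Function.update p.2 j ξ) = ∫ p, K p := by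
    intro K hK
    obtain ⟨h1, h2⟩ := ex_core j (fun u : Cfg n k × E3 => c u.2 * K u.1) (nuc_prod hK hci)
    simp only [integral_const_mul] at h1
    refine ⟨h1, ?_⟩
    simp only [integral_const_mul, integral_mul_const, hc1, one_mul] at h2
    exact h2
  have key : ∀ σ, ∑ b ∈ hB J R, hx b.1 * ∫ p : Cfg n k, c (p.2 j) *
      ‖Pn j (hf b.1 b.2) (φ σ) p‖ ^ 2 ≤
      δ * (∫ p, gn (φ σ) j p) + C * ∫ p, ‖φ σ p‖ ^ 2 := by
    intro σ
    obtain ⟨R', hR'⟩ : ∃ R' : ℝ, ∀ p, φ σ p ≠ 0 → ‖p.2 j‖ ≤ R' := by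
      have h1 : IsCompact ((fun p : Cfg n k => p.2 j) '' tsupport (φ σ)) :=
        (hφ.cpt σ).image ((continuous_apply j).comp continuous_snd)
      obtain ⟨R', hR'⟩ := h1.isBounded.exists_norm_le
      exact ⟨R', fun p hp => hR' _ ⟨p, subset_tsupport _ hp, rfl⟩⟩
    have hib := (one_lim j c hcc hci (φ σ) (hφ.smooth σ).continuous (hφ.cpt σ) R' hR').1
    obtain ⟨g1, g2⟩ := hex (fun p => gn (φ σ) j p) (kN_int hφ σ j)
    obtain ⟨m1, m2⟩ := hex (fun p => ‖φ σ p‖ ^ 2)
      (sq_int (hφ.smooth σ).continuous (hφ.cpt σ))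
    have hL : ∑ b ∈ hB J R, hx b.1 * ∫ p : Cfg n k, c (p.2 j) *
        ‖Pn j (hf b.1 b.2) (φ σ) p‖ ^ 2 = ∫ p : Cfg n k, ∑ b ∈ hB J R, hx b.1 * (c (p.2 j) *
        ‖Pn j (hf b.1 b.2) (φ σ) p‖ ^ 2) := by
      rw [integral_finsetSum _ fun b _ => (hib b).const_mul _]
      exact sum_congr rfl fun b _ => (integral_const_mul _ _).symm
    rw [← g2, ← m2, ← integral_const_mul, ← integral_const_mul,
      ← integral_add (g1.const_mul δ) (m1.const_mul C), hL]
    refine integral_mono (integrable_finsetSum _ fun b _ => (hib b).const_mul _)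
      ((g1.const_mul δ).add (m1.const_mul C)) fun p => ?_
    have hsl : ContDiff ℝ 1 fun ξ : E3 => φ σ (p.1, Function.update p.2 j ξ) := by
      refine (hs1 σ).comp (contDiff_const.prodMk ?_)
      rw [contDiff_pi]
      intro l
      by_cases hl : l = j
      · subst hl
        simp only [Function.update_self]
        exact contDiff_id
      · simp only [Function.update_of_ne hl]
        exact contDiff_const
    have h1 := hC (fun ξ : E3 => φ σ (p.1, Function.update p.2 j ξ)) hsl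
      (sl_cpt j (hφ.cpt σ) p) J R
    have h2 : ∀ ξ : E3, g3 (fun ξ : E3 => φ σ (p.1, Function.update p.2 j ξ)) ξ =
        gn (φ σ) j (p.1, Function.update p.2 j ξ) := by
      intro ξ
      unfold gn
      simp only [Function.update_idem, Function.update_self]
    simp only [h2] at h1
    have h3 := mul_le_mul_of_nonneg_left h1 (hc0 (p.2 j))
    rw [mul_sum, mul_add] at h3
    have h4 : ∑ b ∈ hB J R, hx b.1 * (c (p.2 j) * ‖Pn j (hf b.1 b.2) (φ σ) p‖ ^ 2) =
        ∑ b ∈ hB J R, c (p.2 j) * (hx b.1 *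
          ‖∫ ξ, ((hf b.1 b.2 ξ : ℝ) : ℂ) * φ σ (p.1, Function.update p.2 j ξ)‖ ^ 2) := by
      refine sum_congr rfl fun b _ => ?_
      unfold Pn
      ring
    simp only
    rw [h4]
    refine h3.trans (le_of_eq ?_)
    ring
  have hm : ∀ b : ℕ × (Fin 3 → ℤ), mass (ntr χ r j w (hf b.1 b.2) φ) =
      ∑ σ, ∫ p : Cfg n k, c (p.2 j) * ‖Pn j (hf b.1 b.2) (φ σ) p‖ ^ 2 := by
    intro b
    unfold mass
    refine sum_congr rfl fun σ _ => ?_
    rw [hcd]
    simp only [ntr_eq]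
  simp only [hm, mul_sum]
  rw [sum_comm]
  unfold kN mass
  rw [mul_sum, mul_sum, ← sum_add_distrib]
  exact sum_le_sum fun σ _ => key σ

end H6.CT
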