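import Pool.Agent.H6.CT.HInt

/-! Products of frame functions for functions of `N` positions: Bessel inequality, Parseval limit, cost of one
variable. Induction on `N`, one variable is transformed at a time (`Fin.insertNth`). -/

open MeasureTheory Finset

namespace H6.CT

open H6.CM H6.CB H6.CL

/-- indices of the frame -/
abbrev Ix := ℕ × (Fin 3 → ℤ)

/-- product of frame functions -/
noncomputable def Hp {N : ℕ} (b : Fin N → Ix) (x : Fin N → E3) : ℝ :=
  ∏ l, hf (b l).1 (b l).2 (x l)

/-- the coefficients -/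
noncomputable def cf {N : ℕ} (b : Fin N → Ix) (F : (Fin N → E3) → ℂ) : ℂ :=
  ∫ x, ((Hp b x : ℝ) : ℂ) * F x

/-- continuous, all positions in the ball of radius `R` -/
structure Cc {N : ℕ} (R : ℝ) (F : (Fin N → E3) → ℂ) : Prop where
  cont : Continuous F
  supp : ∀ x, F x ≠ 0 → ∀ l, ‖x l‖ ≤ R

/-- partial transform -/
noncomputable def pt {N : ℕ} (l : Fin (N + 1)) (b : Ix) (F : (Fin (N + 1) → E3) → ℂ) :
    (Fin N → E3) → ℂ :=
  fun y => ∫ ξ, ((hf b.1 b.2 ξ : ℝ) : ℂ) * F (l.insertNth (α := fun _ => E3) ξ y)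

theorem Hp_meas {N : ℕ} (b : Fin N → Ix) : Measurable (Hp b) := by
  unfold Hp
  exact Finset.measurable_prod _ fun l _ => (hf_meas (b l).1 (b l).2).comp (measurable_pi_apply l)

theorem Hp_bd {N : ℕ} (b : Fin N → Ix) (x : Fin N → E3) :
    |Hp b x| ≤ ∏ l, Real.sqrt (8 ^ (b l).1) := by
  unfold Hp
  rw [abs_prod]
  exact prod_le_prod (fun l _ => abs_nonneg _) fun l _ => hf_bd _ _ _

section

variable {N : ℕ} {R : ℝ} {F : (Fin N → E3) → ℂ}

theorem Cc.cpt (h : Cc R F) : HasCompactSupport F := by
  refine HasCompactSupport.of_support_subset_isCompact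
    (isCompact_univ_pi (fun _ : Fin N => isCompact_closedBall (0 : E3) R)) ?_
  intro x hx
  rw [Set.mem_univ_pi]
  intro l
  rw [mem_closedBall_zero_iff]
  exact h.supp x hx l

theorem Cc.int (h : Cc R F) : Integrable F := h.cont.integrable_of_hasCompactSupport h.cpt

theorem Cc.int2 (h : Cc R F) : Integrable (fun x => ‖F x‖ ^ 2) := by
  have h1 : Continuous (fun x => ‖F x‖ ^ 2) := h.cont.norm.pow 2
  have h2 : HasCompactSupport (fun x => ‖F x‖ ^ 2) :=
    h.cpt.comp_left (g := fun x : ℂ => ‖x‖ ^ 2) (by simp)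
  exact h1.integrable_of_hasCompactSupport h2

theorem Cc.intH (h : Cc R F) (b : Fin N → Ix) : Integrable (fun x => ((Hp b x : ℝ) : ℂ) * F x) := by
  refine h.int.bdd_mul (c := ∏ l, Real.sqrt (8 ^ (b l).1))
    ((Complex.measurable_ofReal.comp (Hp_meas b)).aestronglyMeasurable)
    (Filter.Eventually.of_forall fun x => ?_)
  rw [Complex.norm_real, Real.norm_eq_abs]
  exact Hp_bd b x

end

section

variable {N : ℕ} (l : Fin (N + 1))

theorem ins_mp : MeasurePreserving (MeasurableEquiv.piFinSuccAbove (fun _ : Fin (N + 1) => E3) l).symm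
    volume volume :=
  (volume_preserving_piFinSuccAbove (fun _ : Fin (N + 1) => E3) l).symm _

theorem ins_ap (z : E3 × (Fin N → E3)) :
    (MeasurableEquiv.piFinSuccAbove (fun _ : Fin (N + 1) => E3) l).symm z =
      l.insertNth (α := fun _ => E3) z.1 z.2 := rfl

theorem ins_int {G : (Fin (N + 1) → E3) → ℝ} (hG : Integrable G) :
    Integrable (fun z : (Fin N → E3) × E3 => G (l.insertNth (α := fun _ => E3) z.2 z.1)) := by
  have h1 : Integrable (fun z : E3 × (Fin N → E3) => G (l.insertNth (α := fun _ => E3) z.1 z.2)) :=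
    (ins_mp l).integrable_comp_of_integrable hG
  exact h1.swap

theorem ins_rec {G : (Fin (N + 1) → E3) → ℝ} (hG : Integrable G) :
    ∫ x, G x = ∫ y, ∫ ξ, G (l.insertNth (α := fun _ => E3) ξ y) := by
  have h1 := (ins_mp l).integral_comp' G
  rw [← h1]
  have h2 := ins_int l hG
  have h3 : Integrable (fun z : E3 × (Fin N → E3) =>
      G (l.insertNth (α := fun _ => E3) z.1 z.2)) :=
    (ins_mp l).integrable_comp_of_integrable hG
  rw [Measure.volume_eq_prod] at h3 ⊢
  exact integral_prod_symm _ h3

theorem ins_recC {G : (Fin (N + 1) → E3) → ℂ} (hG : Integrable G) :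
    ∫ x, G x = ∫ y, ∫ ξ, G (l.insertNth (α := fun _ => E3) ξ y) := by
  have h1 := (ins_mp l).integral_comp' G
  rw [← h1]
  have h3 : Integrable (fun z : E3 × (Fin N → E3) =>
      G (l.insertNth (α := fun _ => E3) z.1 z.2)) :=
    (ins_mp l).integrable_comp_of_integrable hG
  rw [Measure.volume_eq_prod] at h3 ⊢
  exact integral_prod_symm _ h3

variable {R : ℝ} {F : (Fin (N + 1) → E3) → ℂ} (hF : Cc R F)
include hF

theorem slice_cont (y : Fin N → E3) :
    Continuous (fun ξ => F (l.insertNth (α := fun _ => E3) ξ y)) := by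
  have h1 : Continuous (fun ξ : E3 => l.insertNth (α := fun _ => E3) ξ y) :=
    Continuous.finInsertNth (A := fun _ => E3) l continuous_id continuous_const
  exact hF.cont.comp h1

theorem slice_supp (y : Fin N → E3) (ξ : E3)
    (h : F (l.insertNth (α := fun _ => E3) ξ y) ≠ 0) : ‖ξ‖ ≤ R := by
  have := hF.supp _ h l
  rwa [Fin.insertNth_apply_same] at this

theorem slice_cpt (y : Fin N → E3) :
    HasCompactSupport (fun ξ => F (l.insertNth (α := fun _ => E3) ξ y)) := by
  refine HasCompactSupport.of_support_subset_isCompact (isCompact_closedBall (0 : E3) R) ?_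
  intro ξ hξ
  rw [mem_closedBall_zero_iff]
  exact slice_supp l hF y ξ hξ

theorem pt_Cc (b : Ix) : Cc R (pt l b F) := by
  constructor
  · obtain ⟨M, hM⟩ := hF.cpt.exists_bound_of_continuous hF.cont
    unfold pt
    refine continuous_of_dominated (bound := (Metric.closedBall (0 : E3) R).indicator
      (fun _ => Real.sqrt (8 ^ b.1) * M)) ?_ ?_ ?_ ?_
    · intro y
      exact ((Complex.measurable_ofReal.comp (hf_meas b.1 b.2)).aestronglyMeasurable).mul
        (slice_cont l hF y).aestronglyMeasurable
    · intro y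
      refine Filter.Eventually.of_forall fun ξ => ?_
      by_cases h : F (l.insertNth (α := fun _ => E3) ξ y) = 0
      · rw [h, mul_zero, norm_zero]
        refine Set.indicator_nonneg (fun _ _ => ?_) _
        exact mul_nonneg (Real.sqrt_nonneg _) ((norm_nonneg _).trans (hM (fun _ => 0)))
      · rw [Set.indicator_of_mem (by
          rw [mem_closedBall_zero_iff]
          exact slice_supp l hF y ξ h), norm_mul, Complex.norm_real, Real.norm_eq_abs]
        exact mul_le_mul (hf_bd _ _ _) (hM _) (norm_nonneg _) (Real.sqrt_nonneg _)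
    · exact (integrable_indicator_iff Metric.isClosed_closedBall.measurableSet).2
        (integrableOn_const (isCompact_closedBall (0 : E3) R).measure_lt_top.ne enorm_ne_top)
    · refine Filter.Eventually.of_forall fun ξ => ?_
      have h1 : Continuous (fun y : Fin N → E3 => l.insertNth (α := fun _ => E3) ξ y) :=
        Continuous.finInsertNth (A := fun _ => E3) l continuous_const continuous_id
      exact continuous_const.mul (hF.cont.comp h1)
  · intro y hy j
    by_contra hcon
    apply hy
    unfold pt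
    refine integral_eq_zero_of_ae (Filter.Eventually.of_forall fun ξ => ?_)
    have : F (l.insertNth (α := fun _ => E3) ξ y) = 0 := by
      by_contra h
      have h1 := hF.supp _ h (l.succAbove j)
      rw [Fin.insertNth_apply_succAbove] at h1
      exact hcon h1
    simp [this]

theorem cf_rec (b : Ix) (b' : Fin N → Ix) :
    cf (l.insertNth (α := fun _ => Ix) b b') F = cf b' (pt l b F) := by
  unfold cf
  rw [ins_recC l (hF.intH _)]
  congr 1
  funext y
  unfold pt
  rw [← integral_const_mul]
  congr 1
  funext ξ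
  have : Hp (l.insertNth (α := fun _ => Ix) b b') (l.insertNth (α := fun _ => E3) ξ y) =
      hf b.1 b.2 ξ * Hp b' y := by
    unfold Hp
    rw [Fin.prod_univ_succAbove _ l]
    simp only [Fin.insertNth_apply_same, Fin.insertNth_apply_succAbove]
  rw [this]
  push_cast
  ring

end

theorem sum_pi {N : ℕ} (l : Fin (N + 1)) (B : Finset Ix) (f : (Fin (N + 1) → Ix) → ℝ) :
    ∑ b ∈ Fintype.piFinset (fun _ : Fin (N + 1) => B), f b =
      ∑ b0 ∈ B, ∑ b' ∈ Fintype.piFinset (fun _ : Fin N => B),
        f (l.insertNth (α := fun _ => Ix) b0 b') := by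
  rw [← sum_product']
  symm
  refine sum_nbij' (fun z => l.insertNth (α := fun _ => Ix) z.1 z.2)
    (fun b => (b l, fun j => b (l.succAbove j))) ?_ ?_ ?_ ?_ ?_
  · intro z hz
    rw [mem_product, Fintype.mem_piFinset] at hz
    rw [Fintype.mem_piFinset]
    intro j
    rcases eq_or_ne j l with rfl | hj
    · rw [Fin.insertNth_apply_same]
      exact hz.1
    · obtain ⟨i, rfl⟩ := Fin.exists_succAbove_eq hj
      rw [Fin.insertNth_apply_succAbove]
      exact hz.2 i
  · intro b hb
    rw [Fintype.mem_piFinset] at hb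
    rw [mem_product, Fintype.mem_piFinset]
    exact ⟨hb l, fun j => hb _⟩
  · intro z _
    simp
  · intro b _
    simp only
    exact Fin.insertNth_self_removeNth l b
  · intro z _
    rfl

end H6.CT
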