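import Pool.Agent.H6.CT.EntA

/-! Bessel inequality, cost of one variable and Parseval limit for products of frame functions. -/

open MeasureTheory Finset

namespace H6.CT

open H6.CM H6.CB H6.CL

section

variable {N : ℕ} {R : ℝ}

theorem pt_sum (l : Fin (N + 1)) {F : (Fin (N + 1) → E3) → ℂ} (hF : Cc R F) (B : Finset Ix)
    (x : Ix → ℝ) :
    ∑ b ∈ B, x b * ∫ y, ‖pt l b F y‖ ^ 2 = ∫ y, ∑ b ∈ B, x b * ‖pt l b F y‖ ^ 2 := by
  rw [integral_finsetSum _ fun b _ => (pt_Cc l hF b).int2.const_mul _]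
  refine sum_congr rfl fun b _ => ?_
  rw [integral_const_mul]

theorem sl_int2 (l : Fin (N + 1)) {F : (Fin (N + 1) → E3) → ℂ} (hF : Cc R F) :
    Integrable (fun y => ∫ ξ, ‖F (l.insertNth (α := fun _ => E3) ξ y)‖ ^ 2) := by
  have h1 := ins_int l hF.int2
  rw [Measure.volume_eq_prod] at h1
  exact h1.integral_prod_left

/-- one variable: Bessel inequality -/
theorem pt_le (l : Fin (N + 1)) {F : (Fin (N + 1) → E3) → ℂ} (hF : Cc R F) (B : Finset Ix) :
    ∑ b ∈ B, ∫ y, ‖pt l b F y‖ ^ 2 ≤ ∫ x, ‖F x‖ ^ 2 := by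
  have h1 := pt_sum l hF B (fun _ => 1)
  simp only [one_mul] at h1
  rw [h1, ins_rec l hF.int2]
  refine integral_mono (integrable_finsetSum _ fun b _ => (pt_Cc l hF b).int2) (sl_int2 l hF)
    fun y => ?_
  exact hpar_le _ (slice_cont l hF y) (slice_cpt l hF y) B

end

private theorem vol0 : (volume : Measure (Fin 0 → E3)).real Set.univ = 1 := by
  rw [volume_pi, Measure.real, Measure.pi_univ]
  simp

private theorem zero_int (F : (Fin 0 → E3) → ℂ) : ∫ x, ‖F x‖ ^ 2 = ‖F default‖ ^ 2 := by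
  rw [integral_unique, vol0, one_smul]
  exact congrArg (fun x => ‖F x‖ ^ 2) (Subsingleton.elim _ _)

private theorem zero_cf (F : (Fin 0 → E3) → ℂ) : cf (default : Fin 0 → Ix) F = F default := by
  unfold cf
  rw [integral_unique, vol0, one_smul]
  have : ∀ x : Fin 0 → E3, Hp (default : Fin 0 → Ix) x = 1 := by
    intro x
    unfold Hp
    simp
  rw [this, Complex.ofReal_one, one_mul]
  exact congrArg F (Subsingleton.elim _ _)

/-- Bessel inequality -/
theorem par_le (N : ℕ) : ∀ (R : ℝ) (F : (Fin N → E3) → ℂ), Cc R F → ∀ B : Finset Ix,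
    ∑ b ∈ Fintype.piFinset (fun _ : Fin N => B), ‖cf b F‖ ^ 2 ≤ ∫ x, ‖F x‖ ^ 2 := by
  induction N with
  | zero =>
    intro R F hF B
    have h1 : Fintype.piFinset (fun _ : Fin 0 => B) = {default} := by
      ext b
      rw [Fintype.mem_piFinset, mem_singleton]
      constructor
      · intro _
        exact Subsingleton.elim _ _
      · intro _ i
        exact i.elim0
    rw [h1, sum_singleton]
    rw [zero_cf, zero_int]
  | succ N ih =>
    intro R F hF B
    rw [sum_pi 0]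
    have h1 : ∀ b0 ∈ B, ∑ b' ∈ Fintype.piFinset (fun _ : Fin N => B),
        ‖cf ((0 : Fin (N + 1)).insertNth (α := fun _ => Ix) b0 b') F‖ ^ 2 ≤
        ∫ y, ‖pt 0 b0 F y‖ ^ 2 := by
      intro b0 _
      refine le_trans (le_of_eq ?_) (ih R _ (pt_Cc 0 hF b0) B)
      refine sum_congr rfl fun b' _ => ?_
      rw [cf_rec 0 hF]
    exact (sum_le_sum h1).trans (pt_le 0 hF B)

theorem hx_nonneg (j : ℕ) : 0 ≤ hx j := by
  unfold hx
  have : 0 ≤ Real.log 16 := Real.log_nonneg (by norm_num)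
  positivity

/-- cost of one variable -/
theorem par_cost (δ : ℝ) (hδ : 0 < δ) : ∃ C : ℝ, 0 ≤ C ∧ ∀ (N : ℕ) (R : ℝ) (l : Fin (N + 1))
    (F : (Fin (N + 1) → E3) → ℂ) (_ : Cc R F) (_ : ContDiff ℝ 1 F)
    (_ : Integrable (fun x => g3 (fun v => F (Function.update x l v)) (x l))) (J : ℕ) (R' : ℝ),
    ∑ b ∈ Fintype.piFinset (fun _ : Fin (N + 1) => hB J R'), hx (b l).1 * ‖cf b F‖ ^ 2 ≤
      δ * (∫ x, g3 (fun v => F (Function.update x l v)) (x l)) + C * ∫ x, ‖F x‖ ^ 2 := by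
  obtain ⟨C, hC, hcost⟩ := hcost δ hδ
  refine ⟨C, hC, ?_⟩
  intro N R l F hF hF1 hI J R'
  rw [sum_pi l]
  have h1 : ∀ b0 ∈ hB J R', ∑ b' ∈ Fintype.piFinset (fun _ : Fin N => hB J R'),
      hx ((l.insertNth (α := fun _ => Ix) b0 b') l).1 *
        ‖cf (l.insertNth (α := fun _ => Ix) b0 b') F‖ ^ 2 ≤
      hx b0.1 * ∫ y, ‖pt l b0 F y‖ ^ 2 := by
    intro b0 _
    refine le_trans (le_of_eq ?_) (mul_le_mul_of_nonneg_left
      (par_le N R _ (pt_Cc l hF b0) (hB J R')) (hx_nonneg _))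
    rw [mul_sum]
    refine sum_congr rfl fun b' _ => ?_
    rw [cf_rec l hF, Fin.insertNth_apply_same]
  refine (sum_le_sum h1).trans ?_
  rw [pt_sum l hF (hB J R') (fun b => hx b.1), ins_rec l hI, ins_rec l hF.int2,
    ← integral_const_mul, ← integral_const_mul]
  have i1 : Integrable (fun y => ∫ ξ, g3 (fun v => F (Function.update
      (l.insertNth (α := fun _ => E3) ξ y) l v)) ((l.insertNth (α := fun _ => E3) ξ y) l)) := by
    have h2 := ins_int l hI
    rw [Measure.volume_eq_prod] at h2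
    exact h2.integral_prod_left
  rw [← integral_add (i1.const_mul δ) ((sl_int2 l hF).const_mul C)]
  refine integral_mono (integrable_finsetSum _ fun b _ => (pt_Cc l hF b).int2.const_mul _)
    ((i1.const_mul δ).add ((sl_int2 l hF).const_mul C)) fun y => ?_
  have h3 := hcost (fun ξ => F (l.insertNth (α := fun _ => E3) ξ y)) (by
    have h4 : ContDiff ℝ 1 (fun ξ : E3 => l.insertNth (α := fun _ => E3) ξ y) := by
      rw [contDiff_pi]
      intro j
      rcases eq_or_ne j l with rfl | hj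
      · simp only [Fin.insertNth_apply_same]
        exact contDiff_id
      · obtain ⟨i, rfl⟩ := Fin.exists_succAbove_eq hj
        simp only [Fin.insertNth_apply_succAbove]
        exact contDiff_const
    exact hF1.comp h4) (slice_cpt l hF y) J R'
  refine h3.trans (le_of_eq ?_)
  congr 2
  congr 1
  funext ξ
  rw [Fin.insertNth_apply_same]
  congr 1
  funext v
  congr 1
  exact (Fin.update_insertNth (α := fun _ => E3) l ξ v y).symm

theorem hB_mono {R : ℝ} (hR : 0 ≤ R) {J J' : ℕ} (h : J ≤ J') : hB J R ⊆ hB J' R := by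
  intro b hb
  unfold hB at hb ⊢
  rw [mem_product, Fintype.mem_piFinset] at hb ⊢
  refine ⟨?_, fun d => ?_⟩
  · rw [mem_range] at hb ⊢
    omega
  · have h1 := hb.2 d
    rw [mem_Icc] at h1 ⊢
    have h2 : ⌈(2 : ℝ) ^ J * (R + 2)⌉ ≤ ⌈(2 : ℝ) ^ J' * (R + 2)⌉ := by
      apply Int.ceil_le_ceil
      have : (2 : ℝ) ^ J ≤ 2 ^ J' := pow_le_pow_right₀ (by norm_num) h
      nlinarith
    constructor <;> omega

/-- one variable: Parseval limit -/
theorem pt_lim {N : ℕ} {R : ℝ} (l : Fin (N + 1)) {F : (Fin (N + 1) → E3) → ℂ} (hF : Cc R F) :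
    Filter.Tendsto (fun J : ℕ => ∑ b ∈ hB J R, ∫ y, ‖pt l b F y‖ ^ 2) Filter.atTop
      (nhds (∫ x, ‖F x‖ ^ 2)) := by
  have h1 : (fun J : ℕ => ∑ b ∈ hB J R, ∫ y, ‖pt l b F y‖ ^ 2) =
      fun J : ℕ => ∫ y, ∑ b ∈ hB J R, ‖pt l b F y‖ ^ 2 := by
    funext J
    rw [integral_finsetSum _ fun b _ => (pt_Cc l hF b).int2]
  rw [h1, ins_rec l hF.int2]
  refine tendsto_integral_of_dominated_convergence
    (fun y => ∫ ξ, ‖F (l.insertNth (α := fun _ => E3) ξ y)‖ ^ 2) ?_ (sl_int2 l hF) ?_ ?_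
  · intro J
    exact (integrable_finsetSum _ fun b _ => (pt_Cc l hF b).int2).aestronglyMeasurable
  · intro J
    refine Filter.Eventually.of_forall fun y => ?_
    rw [Real.norm_eq_abs, abs_of_nonneg (sum_nonneg fun b _ => by positivity)]
    exact hpar_le _ (slice_cont l hF y) (slice_cpt l hF y) _
  · refine Filter.Eventually.of_forall fun y => ?_
    exact hpar_lim R _ (slice_cont l hF y) (slice_supp l hF y)

/-- Parseval limit -/
theorem par_lim (N : ℕ) {R : ℝ} (hR : 0 ≤ R) : ∀ F : (Fin N → E3) → ℂ, Cc R F →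
    Filter.Tendsto (fun J : ℕ => ∑ b ∈ Fintype.piFinset (fun _ : Fin N => hB J R), ‖cf b F‖ ^ 2)
      Filter.atTop (nhds (∫ x, ‖F x‖ ^ 2)) := by
  induction N with
  | zero =>
    intro F hF
    have h0 : ∀ J : ℕ, ∑ b ∈ Fintype.piFinset (fun _ : Fin 0 => hB J R), ‖cf b F‖ ^ 2 =
        ∫ x, ‖F x‖ ^ 2 := by
      intro J
      have h1 : Fintype.piFinset (fun _ : Fin 0 => hB J R) = {default} := by
        ext b
        rw [Fintype.mem_piFinset, mem_singleton]
        constructor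
        · intro _
          exact Subsingleton.elim _ _
        · intro _ i
          exact i.elim0
      rw [h1, sum_singleton]
      rw [zero_cf, zero_int]
    simp only [h0]
    exact tendsto_const_nhds
  | succ N ih =>
    intro F hF
    have hrec : ∀ J J0 : ℕ, ∑ b0 ∈ hB J0 R, ∑ b' ∈ Fintype.piFinset (fun _ : Fin N => hB J R),
        ‖cf ((0 : Fin (N + 1)).insertNth (α := fun _ => Ix) b0 b') F‖ ^ 2 =
        ∑ b0 ∈ hB J0 R, ∑ b' ∈ Fintype.piFinset (fun _ : Fin N => hB J R),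
          ‖cf b' (pt 0 b0 F)‖ ^ 2 := by
      intro J J0
      refine sum_congr rfl fun b0 _ => sum_congr rfl fun b' _ => ?_
      rw [cf_rec 0 hF]
    rw [Metric.tendsto_atTop]
    intro η hη
    have h1 := pt_lim 0 hF
    rw [Metric.tendsto_atTop] at h1
    obtain ⟨J0, hJ0⟩ := h1 (η / 2) (by positivity)
    have h2 : Filter.Tendsto (fun J : ℕ => ∑ b0 ∈ hB J0 R,
        ∑ b' ∈ Fintype.piFinset (fun _ : Fin N => hB J R), ‖cf b' (pt 0 b0 F)‖ ^ 2)
        Filter.atTop (nhds (∑ b0 ∈ hB J0 R, ∫ y, ‖pt 0 b0 F y‖ ^ 2)) :=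
      tendsto_finsetSum _ fun b0 _ => ih _ (pt_Cc 0 hF b0)
    rw [Metric.tendsto_atTop] at h2
    obtain ⟨J1, hJ1⟩ := h2 (η / 2) (by positivity)
    refine ⟨max J0 J1, fun J hJ => ?_⟩
    have hJ0' : J0 ≤ J := (le_max_left _ _).trans hJ
    have hJ1' : J1 ≤ J := (le_max_right _ _).trans hJ
    have hup := par_le (N + 1) R F hF (hB J R)
    have e1 := hJ0 J0 le_rfl
    have e2 := hJ1 J hJ1'
    rw [Real.dist_eq, abs_lt] at e1 e2
    have hlow : ∑ b0 ∈ hB J0 R, ∑ b' ∈ Fintype.piFinset (fun _ : Fin N => hB J R),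
        ‖cf b' (pt 0 b0 F)‖ ^ 2 ≤
        ∑ b ∈ Fintype.piFinset (fun _ : Fin (N + 1) => hB J R), ‖cf b F‖ ^ 2 := by
      rw [sum_pi 0, ← hrec J J0]
      exact sum_le_sum_of_subset_of_nonneg (hB_mono hR hJ0')
        fun _ _ _ => sum_nonneg fun _ _ => by positivity
    rw [Real.dist_eq, abs_lt]
    constructor
    · linarith [e1.1, e2.1]
    · linarith

end H6.CT
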