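import Pool.Agent.H6.CT.EntB
import Pool.Agent.H6.CB.Lib
import Pool.Agent.H6.CM.GCont

/-! Configurations as functions on `Fin (n + k)`; Cauchy-Schwarz for the coefficients; sum of the weights. -/

open MeasureTheory Finset

namespace H6.CT

open H6.CM H6.CB H6.CL

/-- the configuration of a function on `Fin (n + k)` -/
noncomputable def eC (n k : ℕ) : (Fin (n + k) → E3) ≃ᵐ Cfg n k :=
  (MeasurableEquiv.piCongrLeft (fun _ : Fin (n + k) => E3) finSumFinEquiv).symm.trans
    (MeasurableEquiv.sumPiEquivProdPi (fun _ : Fin n ⊕ Fin k => E3))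

theorem eC_ap (n k : ℕ) (x : Fin (n + k) → E3) :
    eC n k x = (fun a => x (Fin.castAdd k a), fun j => x (Fin.natAdd n j)) := rfl

theorem eC_mp (n k : ℕ) : MeasurePreserving (eC n k) volume volume :=
  ((volume_measurePreserving_piCongrLeft (fun _ : Fin (n + k) => E3) finSumFinEquiv).symm _).trans
    (volume_measurePreserving_sumPiEquivProdPi (fun _ : Fin n ⊕ Fin k => E3))

theorem eC_smooth (n k : ℕ) : ContDiff ℝ (⊤ : ℕ∞) (eC n k) := by
  have : (eC n k : (Fin (n + k) → E3) → Cfg n k) =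
      fun x => (fun a => x (Fin.castAdd k a), fun j => x (Fin.natAdd n j)) := rfl
  rw [this]
  refine ContDiff.prodMk ?_ ?_
  · exact contDiff_pi.2 fun a => contDiff_apply ℝ E3 (Fin.castAdd k a)
  · exact contDiff_pi.2 fun a => contDiff_apply ℝ E3 (Fin.natAdd n a)

theorem eC_updE {n k : ℕ} (x : Fin (n + k) → E3) (a : Fin n) (v : E3) :
    eC n k (Function.update x (Fin.castAdd k a) v) =
      (Function.update (eC n k x).1 a v, (eC n k x).2) := by
  rw [eC_ap, eC_ap]
  refine Prod.ext (funext fun a' => ?_) (funext fun j => ?_)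
  · simp only [Function.update_apply, Fin.castAdd_inj]
  · simp only
    rw [Function.update_of_ne]
    intro h
    have := congrArg Fin.val h
    simp at this
    omega

theorem eC_updN {n k : ℕ} (x : Fin (n + k) → E3) (j : Fin k) (v : E3) :
    eC n k (Function.update x (Fin.natAdd n j) v) =
      ((eC n k x).1, Function.update (eC n k x).2 j v) := by
  rw [eC_ap, eC_ap]
  refine Prod.ext (funext fun a' => ?_) (funext fun j' => ?_)
  · simp only
    rw [Function.update_of_ne]
    intro h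
    have := congrArg Fin.val h
    simp at this
    omega
  · simp only [Function.update_apply, Fin.natAdd_inj]

/-- Cauchy-Schwarz -/
theorem cs_int {α : Type*} [MeasurableSpace α] {μ : Measure α} {u v : α → ℝ}
    (hu : Integrable (fun x => u x ^ 2) μ) (hv : Integrable (fun x => v x ^ 2) μ)
    (huv : Integrable (fun x => u x * v x) μ) :
    (∫ x, u x * v x ∂μ) ^ 2 ≤ (∫ x, u x ^ 2 ∂μ) * ∫ x, v x ^ 2 ∂μ := by
  have h1 : ∀ s : ℝ, 0 ≤ (∫ x, u x ^ 2 ∂μ) * (s * s) + (-2 * ∫ x, u x * v x ∂μ) * s +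
      ∫ x, v x ^ 2 ∂μ := by
    intro s
    have h2 : 0 ≤ ∫ x, (s * u x - v x) ^ 2 ∂μ := integral_nonneg fun x => sq_nonneg _
    have h3 : ∫ x, (s * u x - v x) ^ 2 ∂μ =
        ∫ x, (s ^ 2 * u x ^ 2 - 2 * s * (u x * v x) + v x ^ 2) ∂μ := by
      congr 1
      funext x
      ring
    have i1 : Integrable (fun x => s ^ 2 * u x ^ 2) μ := hu.const_mul _
    have i2 : Integrable (fun x => 2 * s * (u x * v x)) μ := huv.const_mul _
    have i3 : Integrable (fun x => s ^ 2 * u x ^ 2 - 2 * s * (u x * v x)) μ := i1.sub i2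
    rw [h3, integral_add i3 hv, integral_sub i1 i2, integral_const_mul, integral_const_mul] at h2
    linarith
  have h2 := discrim_le_zero h1
  unfold discrim at h2
  linarith

section

variable {N : ℕ} {R : ℝ} {Λ : Set E3} (hm : MeasurableSet Λ) (hb : Bornology.IsBounded Λ)
include hm hb

omit hm in
theorem hf2_int (j : ℕ) (m : Fin 3 → ℤ) : IntegrableOn (fun v => hf j m v ^ 2) Λ := by
  have hfin : volume Λ ≠ ⊤ := hb.measure_lt_top.ne
  refine Measure.integrableOn_of_bounded (M := (8 : ℝ) ^ j) hfin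
    (((hf_meas j m).pow_const 2).aestronglyMeasurable) (Filter.Eventually.of_forall fun v => ?_)
  rw [Real.norm_eq_abs, abs_of_nonneg (sq_nonneg _)]
  have h1 := hf_bd j m v
  have h3 := sq_le_sq' (by linarith [neg_abs_le (hf j m v)]) ((le_abs_self _).trans h1)
  rwa [Real.sq_sqrt (by positivity)] at h3

theorem cs_cf (b : Fin N → Ix) {f : (Fin N → E3) → ℂ} (hf1 : Cc R f)
    (hf2 : ∀ x, f x ≠ 0 → ∀ l, x l ∈ Λ) :
    ‖cf b f‖ ^ 2 ≤ (∏ l, ∫ v in Λ, hf (b l).1 (b l).2 v ^ 2) * ∫ x, ‖f x‖ ^ 2 := by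
  classical
  have e1 : ∫ x : Fin N → E3, ∏ l, Λ.indicator (fun v => hf (b l).1 (b l).2 v ^ 2) (x l) =
      ∏ l, ∫ v in Λ, hf (b l).1 (b l).2 v ^ 2 := by
    rw [integral_fintype_prod_volume_eq_prod]
    refine prod_congr rfl fun l _ => ?_
    rw [integral_indicator hm]
  set u : (Fin N → E3) → ℝ := fun x => ∏ l, Λ.indicator (fun v => |hf (b l).1 (b l).2 v|) (x l)
    with hu
  have hu2 : ∀ x, u x ^ 2 = ∏ l, Λ.indicator (fun v => hf (b l).1 (b l).2 v ^ 2) (x l) := by
    intro x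
    rw [hu]
    simp only
    rw [← prod_pow]
    refine prod_congr rfl fun l _ => ?_
    by_cases h : x l ∈ Λ
    · rw [Set.indicator_of_mem h, Set.indicator_of_mem h, sq_abs]
    · rw [Set.indicator_of_notMem h, Set.indicator_of_notMem h]
      norm_num
  have hui : Integrable (fun x => u x ^ 2) := by
    simp only [hu2]
    exact Integrable.fintype_prod (fun l =>
      (integrable_indicator_iff hm).2 (hf2_int hb _ _))
  have hle : ∀ x, ‖((Hp b x : ℝ) : ℂ) * f x‖ = u x * ‖f x‖ := by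
    intro x
    rw [norm_mul, Complex.norm_real, Real.norm_eq_abs]
    by_cases h : f x = 0
    · rw [h, norm_zero, mul_zero, mul_zero]
    · congr 1
      rw [hu]
      simp only
      unfold Hp
      rw [abs_prod]
      refine prod_congr rfl fun l _ => ?_
      rw [Set.indicator_of_mem (hf2 x h l)]
  have hiH := (hf1.intH b).norm
  simp only [hle] at hiH
  have h1 : ‖cf b f‖ ≤ ∫ x, u x * ‖f x‖ := by
    unfold cf
    refine (norm_integral_le_integral_norm _).trans (le_of_eq ?_)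
    simp only [hle]
  have h2 := cs_int hui hf1.int2 hiH
  have h0 : 0 ≤ ∫ x, u x * ‖f x‖ := (norm_nonneg _).trans h1
  calc ‖cf b f‖ ^ 2 ≤ (∫ x, u x * ‖f x‖) ^ 2 := pow_le_pow_left₀ (norm_nonneg _) h1 2
    _ ≤ _ := h2
    _ = _ := by
      rw [← e1]
      simp only [hu2]

theorem sum_exp (N J : ℕ) (R' : ℝ) :
    ∑ b ∈ Fintype.piFinset (fun _ : Fin N => hB J R'), Real.exp (-∑ l, hx (b l).1) *
      ∏ l, ∫ v in Λ, hf (b l).1 (b l).2 v ^ 2 ≤ (2 * (volume Λ).toReal) ^ N := by
  have h1 : ∀ b : Fin N → Ix, Real.exp (-∑ l, hx (b l).1) *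
      ∏ l, ∫ v in Λ, hf (b l).1 (b l).2 v ^ 2 =
      ∏ l, (Real.exp (-hx (b l).1) * ∫ v in Λ, hf (b l).1 (b l).2 v ^ 2) := by
    intro b
    rw [prod_mul_distrib, ← Real.exp_sum, sum_neg_distrib]
  simp only [h1]
  rw [← prod_univ_sum (fun _ : Fin N => hB J R')
    (fun _ b => Real.exp (-hx b.1) * ∫ v in Λ, hf b.1 b.2 v ^ 2)]
  rw [prod_const, card_univ, Fintype.card_fin]
  apply pow_le_pow_left₀
  · refine sum_nonneg fun b _ => mul_nonneg (Real.exp_pos _).le ?_
    exact integral_nonneg fun v => sq_nonneg _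
  · have h2 := hsum_int hm hb (fun _ => 1) contDiff_const (fun _ => ⟨zero_le_one, le_rfl⟩) J R'
    simp only [mul_one, one_pow] at h2
    rw [setIntegral_const, smul_eq_mul, mul_one] at h2
    exact h2

end

end H6.CT
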