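import Pool.Agent.H6.CT.Bess
import Pool.Agent.H6.CT.EntC

/-! Coefficients of wave functions: masses, costs, Bessel inequality for orthogonal families. -/

open MeasureTheory Finset

namespace H6.CT

open H6.CM H6.CB H6.CL

theorem par_cost' (δ : ℝ) (hδ : 0 < δ) : ∃ C : ℝ, 0 ≤ C ∧ ∀ (N : ℕ) (R : ℝ) (l : Fin N)
    (F : (Fin N → E3) → ℂ) (_ : Cc R F) (_ : ContDiff ℝ 1 F)
    (_ : Integrable (fun x => g3 (fun v => F (Function.update x l v)) (x l))) (J : ℕ) (R' : ℝ),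
    ∑ b ∈ Fintype.piFinset (fun _ : Fin N => hB J R'), hx (b l).1 * ‖cf b F‖ ^ 2 ≤
      δ * (∫ x, g3 (fun v => F (Function.update x l v)) (x l)) + C * ∫ x, ‖F x‖ ^ 2 := by
  obtain ⟨C, hC, h⟩ := par_cost δ hδ
  refine ⟨C, hC, ?_⟩
  intro N
  cases N with
  | zero =>
    intro R l
    exact l.elim0
  | succ N => exact h N

/-- a component of a wave function as a function on `Fin (n + k)` -/
noncomputable def fl {q n k : ℕ} (Ψ : (Fin n → Fin q) → Cfg n k → ℂ) (σ : Fin n → Fin q) :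
    (Fin (n + k) → E3) → ℂ := fun x => Ψ σ (eC n k x)

section

variable {q n k : ℕ} {R : ℝ} {Ψ : (Fin n → Fin q) → Cfg n k → ℂ}

theorem fl_mem (hΨ : St q n k (Metric.ball 0 R) Ψ) (σ : Fin n → Fin q) (x : Fin (n + k) → E3)
    (hx : fl Ψ σ x ≠ 0) (l : Fin (n + k)) : x l ∈ Metric.ball (0 : E3) R := by
  have h1 : eC n k x ∈ tsupport (Ψ σ) := subset_tsupport _ hx
  obtain ⟨h2, h3⟩ := hΨ.supp σ _ h1
  rw [eC_ap] at h2 h3
  induction l using Fin.addCases with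
  | left a => exact h2 a
  | right j => exact h3 j

theorem fl_Cc (hΨ : St q n k (Metric.ball 0 R) Ψ) (σ : Fin n → Fin q) {R' : ℝ} (hR : R ≤ R') :
    Cc R' (fl Ψ σ) := by
  refine ⟨(hΨ.smooth σ).continuous.comp (eC_smooth n k).continuous, ?_⟩
  intro x hx l
  have h1 := fl_mem hΨ σ x hx l
  rw [mem_ball_zero_iff] at h1
  linarith

theorem fl_int (σ : Fin n → Fin q) : ∫ x, ‖fl Ψ σ x‖ ^ 2 = ∫ p, ‖Ψ σ p‖ ^ 2 :=
  (eC_mp n k).integral_comp' (fun p => ‖Ψ σ p‖ ^ 2)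

theorem fl_ge (hΨ : St q n k (Metric.ball 0 R) Ψ) (σ : Fin n → Fin q) (a : Fin n) :
    Integrable (fun x => g3 (fun v => fl Ψ σ (Function.update x (Fin.castAdd k a) v))
      (x (Fin.castAdd k a))) ∧
    ∫ x, g3 (fun v => fl Ψ σ (Function.update x (Fin.castAdd k a) v)) (x (Fin.castAdd k a)) =
      ∫ p, ge (Ψ σ) a p := by
  have hc1 : ContDiff ℝ 1 (Ψ σ) := (hΨ.smooth σ).of_le (by exact_mod_cast le_top)
  have h1 : (fun x => g3 (fun v => fl Ψ σ (Function.update x (Fin.castAdd k a) v))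
      (x (Fin.castAdd k a))) = fun x => ge (Ψ σ) a (eC n k x) := by
    funext x
    unfold ge fl
    simp only [eC_updE]
    rfl
  rw [h1]
  refine ⟨?_, (eC_mp n k).integral_comp' (fun p => ge (Ψ σ) a p)⟩
  exact (eC_mp n k).integrable_comp_of_integrable
    ((ge_cont _ hc1 a).integrable_of_hasCompactSupport (ge_cpt _ hc1 (hΨ.cpt σ) a))

theorem fl_gn (hΨ : St q n k (Metric.ball 0 R) Ψ) (σ : Fin n → Fin q) (a : Fin k) :
    Integrable (fun x => g3 (fun v => fl Ψ σ (Function.update x (Fin.natAdd n a) v))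
      (x (Fin.natAdd n a))) ∧
    ∫ x, g3 (fun v => fl Ψ σ (Function.update x (Fin.natAdd n a) v)) (x (Fin.natAdd n a)) =
      ∫ p, gn (Ψ σ) a p := by
  have hc1 : ContDiff ℝ 1 (Ψ σ) := (hΨ.smooth σ).of_le (by exact_mod_cast le_top)
  have h1 : (fun x => g3 (fun v => fl Ψ σ (Function.update x (Fin.natAdd n a) v))
      (x (Fin.natAdd n a))) = fun x => gn (Ψ σ) a (eC n k x) := by
    funext x
    unfold gn fl
    simp only [eC_updN]
    rfl
  rw [h1]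
  refine ⟨?_, (eC_mp n k).integral_comp' (fun p => gn (Ψ σ) a p)⟩
  exact (eC_mp n k).integrable_comp_of_integrable
    ((gn_cont _ hc1 a).integrable_of_hasCompactSupport (gn_cpt _ hc1 (hΨ.cpt σ) a))

/-- total mass at level `J` -/
noncomputable def mJ (Ψ : (Fin n → Fin q) → Cfg n k → ℂ) (R' : ℝ) (J : ℕ) : ℝ :=
  ∑ σ, ∑ b ∈ Fintype.piFinset (fun _ : Fin (n + k) => hB J R'), ‖cf b (fl Ψ σ)‖ ^ 2

theorem mJ_nonneg (R' : ℝ) (J : ℕ) : 0 ≤ mJ Ψ R' J :=
  sum_nonneg fun _ _ => sum_nonneg fun _ _ => by positivity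

theorem mJ_le (hΨ : St q n k (Metric.ball 0 R) Ψ) {R' : ℝ} (hR : R ≤ R') (J : ℕ) :
    mJ Ψ R' J ≤ mass Ψ := by
  unfold mJ mass
  refine sum_le_sum fun σ _ => ?_
  rw [← fl_int]
  exact par_le _ R' _ (fl_Cc hΨ σ hR) _

theorem mJ_lim (hΨ : St q n k (Metric.ball 0 R) Ψ) {R' : ℝ} (hR : R ≤ R') (hR' : 0 ≤ R') :
    Filter.Tendsto (fun J => mJ Ψ R' J) Filter.atTop (nhds (mass Ψ)) := by
  unfold mJ mass
  refine tendsto_finsetSum _ fun σ _ => ?_
  rw [← fl_int]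
  exact par_lim _ hR' _ (fl_Cc hΨ σ hR)

end

/-- total cost -/
theorem mJ_cost (δ : ℝ) (hδ : 0 < δ) : ∃ C : ℝ, 0 ≤ C ∧ ∀ (q n k : ℕ) (R : ℝ)
    (Ψ : (Fin n → Fin q) → Cfg n k → ℂ) (_ : St q n k (Metric.ball 0 R) Ψ) (R' : ℝ) (_ : R ≤ R')
    (J : ℕ), ∑ σ, ∑ b ∈ Fintype.piFinset (fun _ : Fin (n + k) => hB J R'),
      (∑ l, hx (b l).1) * ‖cf b (fl Ψ σ)‖ ^ 2 ≤
      δ * (∑ a, kE Ψ a + ∑ j, kN Ψ j) + C * ((n + k) * mass Ψ) := by
  obtain ⟨C, hC, h⟩ := par_cost' δ hδ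
  refine ⟨C, hC, ?_⟩
  intro q n k R Ψ hΨ R' hR J
  have h1 : ∀ σ, ∑ b ∈ Fintype.piFinset (fun _ : Fin (n + k) => hB J R'),
      (∑ l, hx (b l).1) * ‖cf b (fl Ψ σ)‖ ^ 2 ≤
      δ * (∑ a, (∫ p, ge (Ψ σ) a p) + ∑ j, ∫ p, gn (Ψ σ) j p) +
        C * ((n + k) * ∫ p, ‖Ψ σ p‖ ^ 2) := by
    intro σ
    have hcd : ContDiff ℝ 1 (fl Ψ σ) :=
      ((hΨ.smooth σ).comp (eC_smooth n k)).of_le (by exact_mod_cast le_top)
    have e1 : ∑ b ∈ Fintype.piFinset (fun _ : Fin (n + k) => hB J R'),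
        (∑ l, hx (b l).1) * ‖cf b (fl Ψ σ)‖ ^ 2 =
        ∑ l, ∑ b ∈ Fintype.piFinset (fun _ : Fin (n + k) => hB J R'),
          hx (b l).1 * ‖cf b (fl Ψ σ)‖ ^ 2 := by
      rw [sum_comm]
      refine sum_congr rfl fun b _ => ?_
      rw [sum_mul]
    rw [e1, Fin.sum_univ_add]
    have e2 : ∀ a : Fin n, ∑ b ∈ Fintype.piFinset (fun _ : Fin (n + k) => hB J R'),
        hx (b (Fin.castAdd k a)).1 * ‖cf b (fl Ψ σ)‖ ^ 2 ≤
        δ * (∫ p, ge (Ψ σ) a p) + C * ∫ p, ‖Ψ σ p‖ ^ 2 := by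
      intro a
      obtain ⟨i1, i2⟩ := fl_ge hΨ σ a
      have := h (n + k) R' (Fin.castAdd k a) (fl Ψ σ) (fl_Cc hΨ σ hR) hcd i1 J R'
      rw [i2, fl_int] at this
      exact this
    have e3 : ∀ a : Fin k, ∑ b ∈ Fintype.piFinset (fun _ : Fin (n + k) => hB J R'),
        hx (b (Fin.natAdd n a)).1 * ‖cf b (fl Ψ σ)‖ ^ 2 ≤
        δ * (∫ p, gn (Ψ σ) a p) + C * ∫ p, ‖Ψ σ p‖ ^ 2 := by
      intro a
      obtain ⟨i1, i2⟩ := fl_gn hΨ σ a
      have := h (n + k) R' (Fin.natAdd n a) (fl Ψ σ) (fl_Cc hΨ σ hR) hcd i1 J R'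
      rw [i2, fl_int] at this
      exact this
    refine (add_le_add (sum_le_sum fun a _ => e2 a) (sum_le_sum fun a _ => e3 a)).trans
      (le_of_eq ?_)
    rw [sum_add_distrib, sum_add_distrib, sum_const, sum_const, card_univ,
      card_univ, Fintype.card_fin, Fintype.card_fin, nsmul_eq_mul, nsmul_eq_mul, mul_add, mul_sum,
      mul_sum]
    ring
  refine (sum_le_sum fun σ _ => h1 σ).trans (le_of_eq ?_)
  unfold kE kN mass
  rw [sum_add_distrib, ← mul_sum, ← mul_sum, sum_add_distrib, sum_comm, ← mul_sum]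
  congr 2
  congr 1
  exact sum_comm

section

variable {ι : Type} [Fintype ι] {q n k : ℕ} {R : ℝ}
  {Ψ : ι → (Fin n → Fin q) → Cfg n k → ℂ}

open Classical in
/-- the test function -/
noncomputable def Ht (b : Fin (n + k) → Ix) (σ0 : Fin n → Fin q) :
    (Fin n → Fin q) → Cfg n k → ℂ :=
  fun σ p => if σ = σ0 then ((Hp b ((eC n k).symm p) : ℝ) : ℂ) else 0

theorem Ht_ip (φ : (Fin n → Fin q) → Cfg n k → ℂ) (b : Fin (n + k) → Ix) (σ0 : Fin n → Fin q) :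
    ‖ip φ (Ht b σ0)‖ = ‖cf b (fl φ σ0)‖ := by
  classical
  have h1 : ip φ (Ht b σ0) = (starRingEnd ℂ) (cf b (fl φ σ0)) := by
    unfold ip cf
    rw [sum_eq_single σ0]
    · rw [← integral_conj, ← (eC_mp n k).integral_comp'
        (fun p => (starRingEnd ℂ) (φ σ0 p) * Ht b σ0 σ0 p)]
      congr 1
      funext x
      unfold Ht fl
      rw [if_pos rfl, MeasurableEquiv.symm_apply_apply, map_mul, Complex.conj_ofReal]
      ring
    · intro σ _ hσ
      refine integral_eq_zero_of_ae (Filter.Eventually.of_forall fun p => ?_)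
      show (starRingEnd ℂ) (φ σ p) * (if σ = σ0 then _ else 0) = 0
      rw [if_neg hσ, mul_zero]
    · intro h
      exact absurd (mem_univ σ0) h
  rw [h1, Complex.norm_conj]

theorem Ht_loc (b : Fin (n + k) → Ix) (σ0 σ : Fin n → Fin q) :
    LocallyIntegrable (Ht (k := k) b σ0 σ) := by
  classical
  have hmeas : Measurable (fun p : Cfg n k => ((Hp b ((eC n k).symm p) : ℝ) : ℂ)) :=
    Complex.measurable_ofReal.comp ((Hp_meas b).comp (eC n k).symm.measurable)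
  have h1 : LocallyIntegrable (fun p : Cfg n k => ((Hp b ((eC n k).symm p) : ℝ) : ℂ)) := by
    refine (locallyIntegrable_const (∏ l, Real.sqrt (8 ^ (b l).1))).mono
      hmeas.aestronglyMeasurable (Filter.Eventually.of_forall fun p => ?_)
    rw [Complex.norm_real, Real.norm_eq_abs]
    exact (Hp_bd b _).trans (le_abs_self _)
  unfold Ht
  by_cases h : σ = σ0
  · simp only [h, if_true]
    exact h1
  · simp only [h, if_false]
    exact locallyIntegrable_zero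

/-- Bessel inequality for an orthogonal family -/
theorem bess_b (hst : ∀ i, St q n k (Metric.ball 0 R) (Ψ i)) (hort : Ort Ψ)
    (b : Fin (n + k) → Ix) (σ0 : Fin n → Fin q) :
    ∑ i, ‖cf b (fl (Ψ i) σ0)‖ ^ 2 / mass (Ψ i) ≤
      ∏ l, ∫ v in Metric.ball (0 : E3) R, hf (b l).1 (b l).2 v ^ 2 := by
  have h1 := bess hst hort (Ht b σ0) (Ht_loc b σ0)
    (∏ l, ∫ v in Metric.ball (0 : E3) R, hf (b l).1 (b l).2 v ^ 2)
    (prod_nonneg fun l _ => integral_nonneg fun v => sq_nonneg _) (by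
      intro ψ hψ
      rw [Ht_ip]
      have h2 := cs_cf Metric.isOpen_ball.measurableSet Metric.isBounded_ball b
        (fl_Cc hψ σ0 le_rfl) (fun x hx l => fl_mem hψ σ0 x hx l)
      refine h2.trans ?_
      apply mul_le_mul_of_nonneg_left _
        (prod_nonneg fun l _ => integral_nonneg fun v => sq_nonneg _)
      rw [fl_int]
      unfold mass
      exact single_le_sum (f := fun σ => ∫ p, ‖ψ σ p‖ ^ 2)
        (fun σ _ => integral_nonneg fun p => by positivity) (mem_univ σ0))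
  simpa only [Ht_ip] using h1

end

end H6.CT
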