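import Pool.Agent.H6.CT.Bess
import Pool.Agent.H6.CT.HPoi
import Pool.Agent.H6.CT.EntD

/-! The entropy is bounded by the kinetic energy. Let `N = n + k` and consider the products `H b σ` of `N` frame functions `hf` (one for each particle, `b` in a finite box of indices of level at most `J`), times the indicator of the spin configuration `σ`, and `c i b σ = ip (H b σ) (Ψ i)` (an integral over the configuration space). Iterating `hpar_lim`, `hpar_le` over the particles: `∑ b σ, ‖c i b σ‖ ^ 2 ≤ mass (Ψ i)`, with convergence to `mass (Ψ i)` for `J → ∞`; iterating with `hcost` in one variable: `∑ b σ, (∑ l, hx (b l)) * ‖c i b σ‖ ^ 2 ≤ ε * (∑ a, kE (Ψ i) a + ∑ j, kN (Ψ i) j) + C * N * mass (Ψ i)`. Jensen's inequality (concavity of the logarithm) for the weights `‖c i b σ‖ ^ 2` and the numbers `exp (-x b) / p i`, `x b = ∑ l, hx (b l)`, `p i = mass (Ψ i)`: `∑ ‖c‖ ^ 2 * (-x b - log (p i)) ≤ M * log (M⁻¹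 * ∑ ‖c‖ ^ 2 * exp (-x b) / p i)` with `M` the total weight, and by `bess` and `hsum2` (all positions lie in the ball `Λ` of radius `R`) the sum is at most `∑ b σ, exp (-x b) * ∫ over Λ ^ N of (H b σ) ^ 2 ≤ q ^ n * (2 * volume Λ) ^ N`. Let `J → ∞`. -/

open MeasureTheory Finset

namespace H6.CT

open H6.CM H6.CB H6.CL

theorem ent_i {q n k : ℕ} {R R' : ℝ} {Ψ : (Fin n → Fin q) → Cfg n k → ℂ}
    (hΨ : St q n k (Metric.ball 0 R) Ψ) (hR : R ≤ R') (J : ℕ) {Z : ℝ} (hZ : 0 < Z) :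
    mJ Ψ R' J * (-Real.log (mass Ψ)) ≤
      ∑ σ, ∑ b ∈ Fintype.piFinset (fun _ : Fin (n + k) => hB J R'),
        (∑ l, hx (b l).1) * ‖cf b (fl Ψ σ)‖ ^ 2 +
      (∑ σ, ∑ b ∈ Fintype.piFinset (fun _ : Fin (n + k) => hB J R'),
        Real.exp (-∑ l, hx (b l).1) * (‖cf b (fl Ψ σ)‖ ^ 2 / mass Ψ)) / Z +
      (Real.log Z - 1) * mJ Ψ R' J := by
  have h0 : 0 ≤ mJ Ψ R' J := mJ_nonneg R' J
  have h1 := mJ_le hΨ hR J
  rcases (h0.trans h1).eq_or_lt with hp | hp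
  · have h2 : mJ Ψ R' J = 0 := le_antisymm (h1.trans (le_of_eq hp.symm)) h0
    rw [h2, zero_mul, mul_zero, add_zero]
    refine add_nonneg (sum_nonneg fun σ _ => sum_nonneg fun b _ =>
      mul_nonneg (sum_nonneg fun l _ => hx_nonneg _) (by positivity)) (div_nonneg
      (sum_nonneg fun σ _ => sum_nonneg fun b _ => mul_nonneg (Real.exp_pos _).le
        (div_nonneg (by positivity) hp.le)) hZ.le)
  · have key : ∀ (σ : Fin n → Fin q) (b : Fin (n + k) → Ix),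
        ‖cf b (fl Ψ σ)‖ ^ 2 * (-Real.log (mass Ψ)) ≤
        (∑ l, hx (b l).1) * ‖cf b (fl Ψ σ)‖ ^ 2 +
        Real.exp (-∑ l, hx (b l).1) * (‖cf b (fl Ψ σ)‖ ^ 2 / mass Ψ) / Z +
        (Real.log Z - 1) * ‖cf b (fl Ψ σ)‖ ^ 2 := by
      intro σ b
      set m := ‖cf b (fl Ψ σ)‖ ^ 2 with hm
      set x := ∑ l, hx (b l).1 with hx'
      have hm0 : 0 ≤ m := by positivity
      have hy : 0 < Real.exp (-x) / mass Ψ := div_pos (Real.exp_pos _) hp
      have h3 := Real.log_le_sub_one_of_pos (div_pos hy hZ)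
      rw [Real.log_div hy.ne' hZ.ne', Real.log_div (Real.exp_pos _).ne' hp.ne', Real.log_exp] at h3
      have h4 := mul_le_mul_of_nonneg_left h3 hm0
      have e : Real.exp (-x) * (m / mass Ψ) / Z = m * (Real.exp (-x) / mass Ψ / Z) := by
        ring
      rw [e]
      nlinarith [h4]
    have h5 := sum_le_sum (s := (univ : Finset (Fin n → Fin q))) fun σ _ =>
      sum_le_sum (s := Fintype.piFinset (fun _ : Fin (n + k) => hB J R')) fun b _ => key σ b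
    simp only [sum_add_distrib, ← sum_mul, ← sum_div, ← mul_sum] at h5
    unfold mJ
    exact h5

theorem ent_J {ι : Type} [Fintype ι] {q n k : ℕ} {R R' : ℝ}
    {Ψ : ι → (Fin n → Fin q) → Cfg n k → ℂ}
    (hst : ∀ i, St q n k (Metric.ball 0 R) (Ψ i)) (hort : Ort Ψ) (hR : R ≤ R') (J : ℕ) {Z : ℝ}
    (hZ : 0 < Z) (hZ' : (q : ℝ) ^ n * (2 * (volume (Metric.ball (0 : E3) R)).toReal) ^ (n + k) ≤ Z) :
    ∑ i, mJ (Ψ i) R' J * (-Real.log (mass (Ψ i))) ≤
      ∑ i, ∑ σ, ∑ b ∈ Fintype.piFinset (fun _ : Fin (n + k) => hB J R'),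
        (∑ l, hx (b l).1) * ‖cf b (fl (Ψ i) σ)‖ ^ 2 + 1 +
      (Real.log Z - 1) * ∑ i, mJ (Ψ i) R' J := by
  have h1 := sum_le_sum (s := (univ : Finset ι)) fun i _ => ent_i (hst i) hR J hZ
  rw [sum_add_distrib, sum_add_distrib, ← sum_div, ← mul_sum] at h1
  have h2 : ∑ i, ∑ σ, ∑ b ∈ Fintype.piFinset (fun _ : Fin (n + k) => hB J R'),
      Real.exp (-∑ l, hx (b l).1) * (‖cf b (fl (Ψ i) σ)‖ ^ 2 / mass (Ψ i)) ≤ Z := by
    have e1 : ∑ i, ∑ σ, ∑ b ∈ Fintype.piFinset (fun _ : Fin (n + k) => hB J R'),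
        Real.exp (-∑ l, hx (b l).1) * (‖cf b (fl (Ψ i) σ)‖ ^ 2 / mass (Ψ i)) =
        ∑ σ : Fin n → Fin q, ∑ b ∈ Fintype.piFinset (fun _ : Fin (n + k) => hB J R'),
        Real.exp (-∑ l, hx (b l).1) * ∑ i, ‖cf b (fl (Ψ i) σ)‖ ^ 2 / mass (Ψ i) := by
      rw [sum_comm]
      refine sum_congr rfl fun σ _ => ?_
      rw [sum_comm]
      refine sum_congr rfl fun b _ => ?_
      rw [mul_sum]
    rw [e1]
    have h3 : ∀ σ : Fin n → Fin q, ∑ b ∈ Fintype.piFinset (fun _ : Fin (n + k) => hB J R'),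
        Real.exp (-∑ l, hx (b l).1) * ∑ i, ‖cf b (fl (Ψ i) σ)‖ ^ 2 / mass (Ψ i) ≤
        (2 * (volume (Metric.ball (0 : E3) R)).toReal) ^ (n + k) := by
      intro σ
      refine (sum_le_sum fun b _ => mul_le_mul_of_nonneg_left (bess_b hst hort b σ)
        (Real.exp_pos _).le).trans ?_
      exact sum_exp Metric.isOpen_ball.measurableSet Metric.isBounded_ball (n + k) J R'
    refine (sum_le_sum fun σ _ => h3 σ).trans ?_
    rw [sum_const, card_univ, Fintype.card_fun, Fintype.card_fin, Fintype.card_fin, nsmul_eq_mul,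
      Nat.cast_pow]
    exact hZ'
  have h3 : (∑ i, ∑ σ, ∑ b ∈ Fintype.piFinset (fun _ : Fin (n + k) => hB J R'),
      Real.exp (-∑ l, hx (b l).1) * (‖cf b (fl (Ψ i) σ)‖ ^ 2 / mass (Ψ i))) / Z ≤ 1 := by
    rw [div_le_one hZ]
    exact h2
  linarith

theorem entK (q : ℕ) (ε : ℝ) (hε : 0 < ε) (R1 : ℝ) : ∃ C : ℝ, 0 ≤ C ∧
    ∀ (ι : Type) (_ : Fintype ι) (n k : ℕ) (R : ℝ) (_ : R ≤ R1)
    (Ψ : ι → (Fin n → Fin q) → Cfg n k → ℂ)
    (_ : ∀ i, St q n k (Metric.ball 0 R) (Ψ i)) (_ : Ort Ψ) (_ : ∑ i, mass (Ψ i) = 1),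
    -∑ i, mass (Ψ i) * Real.log (mass (Ψ i)) ≤
      ε * ∑ i, (∑ a, kE (Ψ i) a + ∑ j, kN (Ψ i) j) + C * (n + k) := by
  obtain ⟨C0, hC0, hc⟩ := mJ_cost ε hε
  set Y : ℝ := max (q : ℝ) 1 * max (2 * (volume (Metric.ball (0 : E3) R1)).toReal) 1 with hY
  have hq1 : (1 : ℝ) ≤ max (q : ℝ) 1 := le_max_right _ _
  have hv1 : (1 : ℝ) ≤ max (2 * (volume (Metric.ball (0 : E3) R1)).toReal) 1 := le_max_right _ _
  have hY1 : 1 ≤ Y := by nlinarith
  have hlY : 0 ≤ Real.log Y := Real.log_nonneg hY1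
  refine ⟨C0 + Real.log Y, by positivity, ?_⟩
  intro ι _ n k R hR1 Ψ hst hort hsum
  have hZ' : (q : ℝ) ^ n * (2 * (volume (Metric.ball (0 : E3) R)).toReal) ^ (n + k) ≤
      Y ^ (n + k) := by
    rw [hY, mul_pow (max (q : ℝ) 1)]
    apply mul_le_mul
    · calc (q : ℝ) ^ n ≤ max (q : ℝ) 1 ^ n :=
            pow_le_pow_left₀ (Nat.cast_nonneg q) (le_max_left _ _) n
        _ ≤ max (q : ℝ) 1 ^ (n + k) := pow_le_pow_right₀ hq1 (Nat.le_add_right n k)
    · apply pow_le_pow_left₀ (by positivity)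
      refine le_trans ?_ (le_max_left _ _)
      apply mul_le_mul_of_nonneg_left _ (by norm_num)
      exact ENNReal.toReal_mono Metric.isBounded_ball.measure_lt_top.ne
        (measure_mono (Metric.ball_subset_ball hR1))
    · positivity
    · positivity
  have hZ : 0 < Y ^ (n + k) := by positivity
  have hRR : R ≤ max R 0 := le_max_left _ _
  have hR0 : 0 ≤ max R 0 := le_max_right _ _
  have hJ : ∀ J : ℕ, ∑ i, mJ (Ψ i) (max R 0) J * (-Real.log (mass (Ψ i))) ≤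
      (ε * ∑ i, (∑ a, kE (Ψ i) a + ∑ j, kN (Ψ i) j) + C0 * (n + k)) + 1 +
      (Real.log (Y ^ (n + k)) - 1) * ∑ i, mJ (Ψ i) (max R 0) J := by
    intro J
    refine (ent_J hst hort hRR J hZ hZ').trans ?_
    have h1 := sum_le_sum (s := (univ : Finset ι)) fun i _ =>
      hc q n k R (Ψ i) (hst i) (max R 0) hRR J
    rw [sum_add_distrib, ← mul_sum, ← mul_sum, ← mul_sum, hsum, mul_one] at h1
    linarith
  have hl1 : Filter.Tendsto (fun J : ℕ => ∑ i, mJ (Ψ i) (max R 0) J * (-Real.log (mass (Ψ i))))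
      Filter.atTop (nhds (∑ i, mass (Ψ i) * (-Real.log (mass (Ψ i))))) :=
    tendsto_finsetSum _ fun i _ => (mJ_lim (hst i) hRR hR0).mul_const _
  have hl2 : Filter.Tendsto (fun J : ℕ =>
      (ε * ∑ i, (∑ a, kE (Ψ i) a + ∑ j, kN (Ψ i) j) + C0 * (n + k)) + 1 +
      (Real.log (Y ^ (n + k)) - 1) * ∑ i, mJ (Ψ i) (max R 0) J) Filter.atTop
      (nhds ((ε * ∑ i, (∑ a, kE (Ψ i) a + ∑ j, kN (Ψ i) j) + C0 * (n + k)) + 1 +
      (Real.log (Y ^ (n + k)) - 1) * ∑ i, mass (Ψ i))) :=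
    (tendsto_finsetSum _ fun i _ => mJ_lim (hst i) hRR hR0).const_mul _ |>.const_add _
  have h1 := le_of_tendsto_of_tendsto' hl1 hl2 hJ
  rw [hsum, Real.log_pow] at h1
  have e : -∑ i, mass (Ψ i) * Real.log (mass (Ψ i)) =
      ∑ i, mass (Ψ i) * (-Real.log (mass (Ψ i))) := by
    rw [← sum_neg_distrib]
    exact sum_congr rfl fun i _ => by ring
  rw [e]
  push_cast at h1
  linarith

end H6.CT
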