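import Pool.Agent.H6.CT.FbU
import Pool.Agent.H6.CL.CnP

/-! The number of nuclei and the tail with a small constant in front of `B`. `fbC`: `cnQ` with a small constant, summed over the family; `fbU` at all points of the ball of radius `6` (integral over the ball of a function bounded by a constant; `sI_uh` for integrability), and `fbM` with `ρ = 7`, `s = 1`. `fbt`: `fbtl`, `fbC` at the points `v` of the ball of radius `D + 1` and `fbM` with `ρ = 1`, `s = 1`. -/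

open MeasureTheory Finset

namespace H6.CT

open H6.CM H6.CB H6.CL

private theorem fc_int {ι : Type} [Fintype ι] {q n k : ℕ} {Λ : Set E3}
    {Ψ : ι → (Fin n → Fin q) → Cfg n k → ℂ} (hΨ : ∀ i, Sm q n k Λ (Ψ i)) {χ : E3 → ℝ}
    (hχ : Bump χ) (W : Finset E3) (z : Fin k → ℝ) (x : E3) (i : ι) :
    IntegrableOn (fun v => mean (Ψ i) (fun p => |uh χ 1 W z p v| ^ (3 / 2 : ℝ)))
      (Metric.ball x 6) := by
  have h1 := sI_uh (Ψ := fun _ : Unit => Ψ i) (fun _ => hΨ i) hχ W z (3 / 2) (‖x‖ + 6)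
    (by norm_num)
  have h2 : (fun v => mM (fun _ : Unit => Ψ i) (fun p => |uh χ 1 W z p v| ^ (3 / 2 : ℝ))) =
      fun v => mean (Ψ i) (fun p => |uh χ 1 W z p v| ^ (3 / 2 : ℝ)) := by
    funext v
    simp [mM]
  rw [h2] at h1
  refine h1.mono_set fun v hv => ?_
  rw [Metric.mem_ball, dist_eq_norm] at hv ⊢
  rw [sub_zero]
  calc ‖v‖ = ‖(v - x) + x‖ := by rw [sub_add_cancel]
    _ ≤ ‖v - x‖ + ‖x‖ := norm_add_le _ _
    _ < ‖x‖ + 6 := by linarith

private theorem fc_tri {x v y : E3} {a b c : ℝ} (hv : v ∈ Metric.ball x a)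
    (hy : y ∈ Metric.ball v b) (h : a + b ≤ c) : y ∈ Metric.ball x c := by
  rw [Metric.mem_ball] at *
  linarith [dist_triangle y v x]

private theorem fc_add {ι : Type} [Fintype ι] {q n k : ℕ}
    {Ψ : ι → (Fin n → Fin q) → Cfg n k → ℂ} {F G : Cfg n k → ℝ} (hF : ∀ i, IM (Ψ i) F)
    (hG : ∀ i, IM (Ψ i) G) : mM Ψ (fun p => F p + G p) = mM Ψ F + mM Ψ G := by
  unfold mM
  rw [← sum_add_distrib]
  exact sum_congr rfl fun i _ => mean_add (hF i) (hG i)

theorem fbC (q : ℕ) (Ci zm zp : ℝ) (hCi : 0 ≤ Ci) (hzm : 0 < zm) {χ θ : E3 → ℝ} (hχ : Bump χ)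
    (hθ : Cut θ) (η : ℝ) (hη : 0 < η) :
    ∃ C : ℝ, 0 ≤ C ∧ ∀ (ι : Type) (_ : Fintype ι) (n k : ℕ) (Λ : Set E3)
    (z : Fin k → ℝ) (W : Finset E3) (Ψ : ι → (Fin n → Fin q) → Cfg n k → ℂ)
    (_ : Inb Ci zm zp q n k Λ z W χ θ Ψ) (x : E3)
    (_ : Metric.closedBall x 8 ⊆ Λ) (D : ℝ) (_ : 13 ≤ D) (B : ℝ)
    (_ : ∀ y ∈ Metric.ball x (D + 10), Lm Ψ y B),
    mM Ψ (fun p => cn p x 1) ≤ η * B + C * (1 + (n + k) * (D ^ 4)⁻¹) := by
  obtain ⟨CU, hCU, HU⟩ := fbU q Ci zm zp hCi hzm hχ hθ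
  obtain ⟨V, hV⟩ : ∃ V : ℝ, V = volume.real (Metric.ball (0 : E3) 6) := ⟨_, rfl⟩
  have hV0 : 0 ≤ V := by rw [hV]; exact measureReal_nonneg
  obtain ⟨η1, hη1⟩ : ∃ η1 : ℝ, η1 = η / (2 * (V * CU + 1)) := ⟨_, rfl⟩
  have hη10 : 0 < η1 := by rw [hη1]; positivity
  obtain ⟨CQ, hCQ, HQ⟩ := cnQ zm hzm hχ η1 hη10
  obtain ⟨CM, hCM, HM⟩ := fbM 7 1 (by norm_num) (by norm_num) (by norm_num)
    (η / (2 * (CQ + 1))) (by positivity)
  refine ⟨η1 * V * CU + CQ * (1 + CM), by positivity, ?_⟩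
  intro ι _ n k Λ z W Ψ hI x hx D hD B hL
  have hΨ : ∀ i, Sm q n k Λ (Ψ i) := fun i => St_sm (hI.st i)
  have hB0 := (fbe hΨ hI.one x B (hL x (Metric.mem_ball_self (by linarith)))).1
  have hX : 0 ≤ ((n : ℝ) + k) * (D ^ 4)⁻¹ := by positivity
  have e1 : mM Ψ (fun p => cn p x 1) ≤
      η1 * (∫ v in Metric.ball x 6, mM Ψ (fun p => |uh χ 1 W z p v| ^ (3 / 2 : ℝ))) +
        CQ * (1 + mM Ψ (fun p => ce p x 7)) := by
    have e2 : ∫ v in Metric.ball x 6, mM Ψ (fun p => |uh χ 1 W z p v| ^ (3 / 2 : ℝ)) =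
        ∑ i, ∫ v in Metric.ball x 6, mean (Ψ i) (fun p => |uh χ 1 W z p v| ^ (3 / 2 : ℝ)) := by
      unfold mM
      exact integral_finsetSum _ fun i _ => fc_int hΨ hχ W z x i
    rw [e2]
    calc mM Ψ (fun p => cn p x 1) ≤ ∑ i, (η1 * (∫ v in Metric.ball x 6,
          mean (Ψ i) (fun p => |uh χ 1 W z p v| ^ (3 / 2 : ℝ))) +
          CQ * (mass (Ψ i) + mean (Ψ i) (fun p => ce p x 7))) :=
          sum_le_sum fun i _ => HQ q n k Λ z (fun j => (hI.hz j).1) hI.neu W (Ψ i) (hΨ i) x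
      _ = _ := by
          rw [sum_add_distrib, ← mul_sum, ← mul_sum, sum_add_distrib, hI.one]
          rfl
  have e3 : ∫ v in Metric.ball x 6, mM Ψ (fun p => |uh χ 1 W z p v| ^ (3 / 2 : ℝ)) ≤
      V * (CU * (1 + B + (n + k) * (D ^ 4)⁻¹)) := by
    have hi : IntegrableOn (fun v => mM Ψ (fun p => |uh χ 1 W z p v| ^ (3 / 2 : ℝ)))
        (Metric.ball x 6) := by
      unfold mM
      exact integrable_finsetSum _ fun i _ => fc_int hΨ hχ W z x i
    calc _ ≤ ∫ _v in Metric.ball x 6, (CU * (1 + B + ((n : ℝ) + k) * (D ^ 4)⁻¹)) := by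
          refine setIntegral_mono_on hi (integrableOn_const (hs := measure_ball_lt_top.ne))
            Metric.isOpen_ball.measurableSet fun v hv => ?_
          refine HU ι _ n k Λ z W Ψ hI v ?_ D hD B fun y hy => hL y
            (fc_tri hv hy (by linarith))
          intro u hu
          refine hx ?_
          rw [Metric.mem_closedBall] at *
          rw [Metric.mem_ball] at hv
          linarith [dist_triangle u v x]
      _ = _ := by
          rw [setIntegral_const, smul_eq_mul, hV]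
          unfold Measure.real
          rw [Measure.addHaar_ball_center]
  have e4 : mM Ψ (fun p => ce p x 7) ≤ η / (2 * (CQ + 1)) * B + CM := by
    have := HM ι _ q n k Λ Ψ hΨ hI.one x B fun y hy => hL y
      (Metric.ball_subset_ball (by linarith) hy)
    simpa only [Real.rpow_one] using this
  have f1 := mul_le_mul_of_nonneg_left e3 hη10.le
  have f2 := mul_le_mul_of_nonneg_left e4 hCQ
  have g1 : η1 * V * CU * B ≤ η / 2 * B := by
    refine mul_le_mul_of_nonneg_right ?_ hB0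
    rw [hη1, div_mul_eq_mul_div, div_mul_eq_mul_div, div_le_div_iff₀ (by positivity) (by positivity)]
    nlinarith
  have g2 : CQ * (η / (2 * (CQ + 1))) * B ≤ η / 2 * B := by
    refine mul_le_mul_of_nonneg_right ?_ hB0
    rw [mul_div_assoc', div_le_div_iff₀ (by positivity) (by positivity)]
    nlinarith
  have g3 : 0 ≤ CQ * (1 + CM) * (((n : ℝ) + k) * (D ^ 4)⁻¹) := by positivity
  nlinarith

theorem fbt (q : ℕ) (Ci zm zp : ℝ) (hCi : 0 ≤ Ci) (hzm : 0 < zm) {χ θ : E3 → ℝ} (hχ : Bump χ)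
    (hθ : Cut θ) (η : ℝ) (hη : 0 < η) :
    ∃ C : ℝ, 0 ≤ C ∧ ∀ (ι : Type) (_ : Fintype ι) (n k : ℕ) (Λ : Set E3)
    (z : Fin k → ℝ) (W : Finset E3) (Ψ : ι → (Fin n → Fin q) → Cfg n k → ℂ)
    (_ : Inb Ci zm zp q n k Λ z W χ θ Ψ) (x : E3) (D : ℝ) (_ : 13 ≤ D)
    (_ : Metric.closedBall x (D + 9) ⊆ Λ) (B : ℝ)
    (_ : ∀ y ∈ Metric.ball x (2 * D + 12), Lm Ψ y B),
    mM Ψ (fun p => tl 13 p x) ≤ η * B + C * (1 + (n + k) * (D ^ 4)⁻¹) := by
  obtain ⟨C3, hC3, H3⟩ := fbtl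
  have hη' : 0 < η / (2 * (C3 + 1)) := by positivity
  obtain ⟨CM, hCM, HM⟩ := fbM 1 1 (by norm_num) (by norm_num) (by norm_num)
    (η / (2 * (C3 + 1))) hη'
  obtain ⟨CC, hCC, HC⟩ := fbC q Ci zm zp hCi hzm hχ hθ (η / (2 * (C3 + 1))) hη'
  refine ⟨C3 * (CM + CC) + 1, by positivity, ?_⟩
  intro ι _ n k Λ z W Ψ hI x D hD hx B hL
  have hΨ : ∀ i, Sm q n k Λ (Ψ i) := fun i => St_sm (hI.st i)
  have hB0 := (fbe hΨ hI.one x B (hL x (Metric.mem_ball_self (by linarith)))).1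
  have hX : 0 ≤ ((n : ℝ) + k) * (D ^ 4)⁻¹ := by positivity
  have e1 := H3 ι _ q n k Λ Ψ hΨ hI.one x D hD
    ((η / (2 * (C3 + 1)) * B + CM) + (η / (2 * (C3 + 1)) * B +
      CC * (1 + (n + k) * (D ^ 4)⁻¹))) fun v hv => by
    rw [fc_add (fun i => IM_ce (hΨ i) v 1) (fun i => IM_cn (hΨ i) v 1)]
    refine add_le_add ?_ ?_
    · have := HM ι _ q n k Λ Ψ hΨ hI.one v B fun y hy => hL y
        (fc_tri hv hy (by linarith))
      simpa only [Real.rpow_one] using this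
    · refine HC ι _ n k Λ z W Ψ hI v ?_ D hD B fun y hy => hL y (fc_tri hv hy (by linarith))
      intro u hu
      refine hx ?_
      rw [Metric.mem_closedBall] at *
      rw [Metric.mem_ball] at hv
      linarith [dist_triangle u v x]
  have g1 : C3 * (η / (2 * (C3 + 1))) * B ≤ η / 2 * B := by
    refine mul_le_mul_of_nonneg_right ?_ hB0
    rw [mul_div_assoc', div_le_div_iff₀ (by positivity) (by positivity)]
    nlinarith
  have g3 : 0 ≤ C3 * CM * (((n : ℝ) + k) * (D ^ 4)⁻¹) := by positivity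
  nlinarith

end H6.CT
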