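import Pool.Agent.H6.CT.FbK
import Pool.Agent.H6.CB.FIter
import Pool.Agent.H6.CB.Hardy

/-! Iteration, as in `Pool/Agent/H6/CB/FIter.lean` and `FEnd.lean`. Let `N = n + k + 1`. The bounds `TM Ψ y 1 ≤ K * N`, `ce p y 1 ^ (5/3) ≤ n ^ (5/3)` and `cn p y 1 ≤ k` give `Lm Ψ y (C * N ^ 2)` everywhere. Start with `D = 128 * N ^ (1/4)`, so that `N * D ^ -4 ≤ 1` at every step, choose `η` small, and after `m` steps with `η ^ m * N ^ 2 ≤ 1` and `8 ^ m ≤ 8 * N ^ (1/20)` the bound is a constant at all points with `closedBall x (8 ^ m * D) ⊆ Λ`. `near`: `hardy` summed over the family, `fbt0`, `fbM`, `fbc0` with `ρ = 4` (constant bounds at all points of the ball of radius `5`). -/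

open MeasureTheory Finset

namespace H6.CT

open H6.CM H6.CB H6.CL

private theorem fe_mono {ι : Type} [Fintype ι] {q n k : ℕ}
    {Ψ : ι → (Fin n → Fin q) → Cfg n k → ℂ} {y : E3} {B B' : ℝ} (h : Lm Ψ y B)
    (hB : B ≤ B') : Lm Ψ y B' := ⟨h.t.trans hB, h.e.trans hB, h.c.trans hB⟩

private theorem fe_bd {ι : Type} [Fintype ι] {q n k : ℕ} {Λ : Set E3}
    {Ψ : ι → (Fin n → Fin q) → Cfg n k → ℂ} (hs : ∀ i, Sm q n k Λ (Ψ i))
    (h1 : ∑ i, mass (Ψ i) = 1) {F : Cfg n k → ℝ} (hF : ∀ p, 0 ≤ F p) {M : ℝ}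
    (hM : ∀ p, F p ≤ M) : mM Ψ F ≤ M := by
  calc mM Ψ F ≤ ∑ i, M * mass (Ψ i) := by
        refine sum_le_sum fun i _ => ?_
        rw [← mean_const]
        exact mean_mono0 hF (IM.cont (hs i) continuous_const) fun _ p _ => hM p
    _ = M := by rw [← mul_sum, h1, mul_one]

private theorem fe_pow {y : ℝ} (hy : 1 ≤ y) : ∃ j : ℕ, y ≤ (8 : ℝ) ^ j ∧ (8 : ℝ) ^ j ≤ 8 * y := by
  classical
  have hex : ∃ j : ℕ, y ≤ (8 : ℝ) ^ j := by
    obtain ⟨j, hj⟩ := pow_unbounded_of_one_lt y (show (1 : ℝ) < 8 by norm_num)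
    exact ⟨j, hj.le⟩
  refine ⟨Nat.find hex, Nat.find_spec hex, ?_⟩
  rcases Nat.eq_zero_or_pos (Nat.find hex) with h0 | h0
  · rw [h0, pow_zero]
    linarith
  · obtain ⟨i, hi⟩ : ∃ i, Nat.find hex = i + 1 := ⟨Nat.find hex - 1, by omega⟩
    have h1 : ¬ y ≤ (8 : ℝ) ^ i := Nat.find_min hex (by omega)
    rw [hi, pow_succ]
    push Not at h1
    linarith

private theorem fe_add {ι : Type} [Fintype ι] {q n k : ℕ}
    {Ψ : ι → (Fin n → Fin q) → Cfg n k → ℂ} {F G : Cfg n k → ℝ} (hF : ∀ i, IM (Ψ i) F)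
    (hG : ∀ i, IM (Ψ i) G) : mM Ψ (fun p => F p + G p) = mM Ψ F + mM Ψ G := by
  unfold mM
  rw [← sum_add_distrib]
  exact sum_congr rfl fun i _ => mean_add (hF i) (hG i)

theorem fbEnd (q : ℕ) (Ci zm zp : ℝ) (hCi : 0 ≤ Ci) (hzm : 0 < zm) {χ θ : E3 → ℝ} (hχ : Bump χ)
    (hθ : Cut θ) (K : ℝ) (hK : 0 ≤ K) :
    ∃ C : ℝ, 0 ≤ C ∧ ∀ (ι : Type) (_ : Fintype ι) (n k : ℕ) (Λ : Set E3)
    (z : Fin k → ℝ) (W : Finset E3) (Ψ : ι → (Fin n → Fin q) → Cfg n k → ℂ)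
    (_ : Inb Ci zm zp q n k Λ z W χ θ Ψ)
    (_ : ∀ y, TM Ψ y 1 ≤ K * (n + k + 1)) (x : E3)
    (_ : Metric.closedBall x (2000 * ((n : ℝ) + k + 1) ^ (3 / 10 : ℝ)) ⊆ Λ),
    Lm Ψ x C ∧ mM Ψ (fun p => near p x) ≤ C := by
  obtain ⟨η, hη⟩ : ∃ η : ℝ, η = ((8 : ℝ) ^ 80)⁻¹ := ⟨_, rfl⟩
  have hη0 : 0 < η := by rw [hη]; positivity
  have hη1 : 4 * η ≤ 2 := by
    rw [hη]
    norm_num
  obtain ⟨C1, hC1, H1⟩ := fbStep q Ci zm zp hCi hzm hχ hθ η hη0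
  obtain ⟨C2, hC2, H2⟩ := hardy
  obtain ⟨C3, hC3, H3⟩ := fbt0 4 (by norm_num)
  obtain ⟨C4, hC4, H4⟩ := fbM 4 1 (by norm_num) (by norm_num) (by norm_num) 1 one_pos
  obtain ⟨C5, hC5, H5⟩ := fbc0 4 (by norm_num)
  obtain ⟨C0, hC0⟩ : ∃ C0 : ℝ, C0 = (K + 1) + 4 * C1 := ⟨_, rfl⟩
  have hC00 : 0 ≤ C0 := by rw [hC0]; positivity
  refine ⟨C0 + C2 * (C3 * C0 + (C0 + C4) + C5 * C0), by positivity, ?_⟩
  intro ι _ n k Λ z W Ψ hI hT x hx
  have hsm : ∀ i, Sm q n k Λ (Ψ i) := fun i => St_sm (hI.st i)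
  obtain ⟨N1, hN1⟩ : ∃ N1 : ℝ, N1 = (n : ℝ) + k + 1 := ⟨_, rfl⟩
  rw [← hN1] at hx
  have hn0 : (0 : ℝ) ≤ n := Nat.cast_nonneg n
  have hk0 : (0 : ℝ) ≤ k := Nat.cast_nonneg k
  have hnk : (0 : ℝ) ≤ (n : ℝ) + k := by positivity
  have hN : 1 ≤ N1 := by rw [hN1]; linarith
  have hN0 : 0 < N1 := zero_lt_one.trans_le hN
  have hN4 : N1 ≤ N1 ^ 4 := by
    calc N1 = N1 ^ 1 := (pow_one _).symm
      _ ≤ N1 ^ 4 := pow_le_pow_right₀ hN (by norm_num)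
  have hinit : ∀ y, Lm Ψ y ((K + 1) * N1 ^ 4) := by
    intro y
    refine ⟨?_, ?_, ?_⟩
    · refine (hT y).trans ?_
      rw [← hN1]
      calc K * N1 ≤ K * N1 ^ 4 := mul_le_mul_of_nonneg_left hN4 hK
        _ ≤ (K + 1) * N1 ^ 4 := by nlinarith
    · refine (fe_bd hsm hI.one (fun p => Real.rpow_nonneg (ce_nonneg p y 1) _)
        (M := N1 ^ (5 / 3 : ℝ)) fun p => ?_).trans ?_
      · exact Real.rpow_le_rpow (ce_nonneg p y 1) ((ce_le p y 1).trans (by linarith))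
          (by norm_num)
      · have h1 : N1 ^ (5 / 3 : ℝ) ≤ N1 ^ (4 : ℝ) :=
          Real.rpow_le_rpow_of_exponent_le hN (by norm_num)
        have h2 : N1 ^ (4 : ℝ) = N1 ^ 4 := by
          rw [← Real.rpow_natCast]
          norm_num
        rw [h2] at h1
        nlinarith
    · refine (fe_bd hsm hI.one (fun p => cn_nonneg p y 1) (M := N1) fun p => ?_).trans ?_
      · exact (cn_le p y 1).trans (by linarith)
      · nlinarith
  obtain ⟨D0, hD0⟩ : ∃ D0 : ℝ, D0 = 128 * N1 ^ (1 / 4 : ℝ) := ⟨_, rfl⟩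
  have hr1 : 1 ≤ N1 ^ (1 / 4 : ℝ) := Real.one_le_rpow hN (by norm_num)
  have hD128 : 128 ≤ D0 := by rw [hD0]; linarith
  have hD4 : N1 ≤ D0 ^ 4 := by
    have h1 : (N1 ^ (1 / 4 : ℝ)) ^ 4 = N1 := by
      rw [← Real.rpow_natCast, ← Real.rpow_mul hN0.le]
      norm_num
    rw [hD0, mul_pow, h1]
    nlinarith
  have hind : ∀ j : ℕ, ∀ y, Metric.closedBall y ((8 : ℝ) ^ j * D0) ⊆ Λ →
      Lm Ψ y (η ^ j * ((K + 1) * N1 ^ 4) + 4 * C1) := by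
    intro j
    induction j with
    | zero =>
      intro y _
      refine fe_mono (hinit y) ?_
      rw [pow_zero, one_mul]
      linarith
    | succ j ih =>
      intro y hy
      have h8 : (1 : ℝ) ≤ 8 ^ j := one_le_pow₀ (by norm_num)
      have hDle : D0 ≤ 8 ^ j * D0 := by nlinarith
      have h2 : Metric.closedBall y (8 * (8 ^ j * D0)) ⊆ Λ := by
        have e : (8 : ℝ) * (8 ^ j * D0) = 8 ^ (j + 1) * D0 := by ring
        rw [e]
        exact hy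
      refine fe_mono (H1 ι inferInstance n k Λ z W Ψ hI (8 ^ j * D0) (hD128.trans hDle) _ ih
        y h2) ?_
      have h3 : ((n : ℝ) + k) * ((8 ^ j * D0) ^ 4)⁻¹ ≤ 1 := by
        have h4 : N1 ≤ (8 ^ j * D0) ^ 4 :=
          hD4.trans (pow_le_pow_left₀ (by linarith) hDle 4)
        rw [← div_eq_mul_inv, div_le_one (by linarith)]
        linarith
      have h5 : C1 * (1 + ((n : ℝ) + k) * ((8 ^ j * D0) ^ 4)⁻¹) ≤ C1 * 2 :=
        mul_le_mul_of_nonneg_left (by linarith) hC1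
      have h6 : η * (4 * C1) ≤ 2 * C1 := by nlinarith
      have h7 : η * (η ^ j * ((K + 1) * N1 ^ 4) + 4 * C1) =
          η ^ (j + 1) * ((K + 1) * N1 ^ 4) + η * (4 * C1) := by ring
      rw [h7]
      linarith
  obtain ⟨j, hj1, hj2⟩ := fe_pow (y := N1 ^ (1 / 20 : ℝ)) (Real.one_le_rpow hN (by norm_num))
  have hrad : (8 : ℝ) ^ j * D0 ≤ 1024 * N1 ^ (3 / 10 : ℝ) := by
    have h1 : N1 ^ (1 / 20 : ℝ) * N1 ^ (1 / 4 : ℝ) = N1 ^ (3 / 10 : ℝ) := by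
      rw [← Real.rpow_add hN0]
      norm_num
    calc (8 : ℝ) ^ j * D0 ≤ (8 * N1 ^ (1 / 20 : ℝ)) * D0 :=
          mul_le_mul_of_nonneg_right hj2 (by linarith)
      _ = 1024 * (N1 ^ (1 / 20 : ℝ) * N1 ^ (1 / 4 : ℝ)) := by rw [hD0]; ring
      _ = _ := by rw [h1]
  have hηj : η ^ j * N1 ^ 4 ≤ 1 := by
    have h1 : η ^ j = (((8 : ℝ) ^ j) ^ 80)⁻¹ := by
      rw [hη, inv_pow, ← pow_mul, ← pow_mul, mul_comm]
    have h2 : N1 ^ 4 ≤ ((8 : ℝ) ^ j) ^ 80 := by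
      have h3 : (N1 ^ (1 / 20 : ℝ)) ^ 80 = N1 ^ 4 := by
        rw [← Real.rpow_natCast, ← Real.rpow_mul hN0.le, ← Real.rpow_natCast]
        norm_num
      rw [← h3]
      exact pow_le_pow_left₀ (by positivity) hj1 80
    rw [h1, inv_mul_le_iff₀ (by positivity), mul_one]
    exact h2
  have h9 : η ^ j * ((K + 1) * N1 ^ 4) ≤ K + 1 := by
    calc η ^ j * ((K + 1) * N1 ^ 4) = (K + 1) * (η ^ j * N1 ^ 4) := by ring
      _ ≤ (K + 1) * 1 := mul_le_mul_of_nonneg_left hηj (by positivity)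
      _ = K + 1 := mul_one _
  have hr3 : 1 ≤ N1 ^ (3 / 10 : ℝ) := Real.one_le_rpow hN (by norm_num)
  have hall : ∀ y, dist y x ≤ 101 → Lm Ψ y C0 := by
    intro y hy
    refine fe_mono (hind j y ((Metric.closedBall_subset_closedBall' ?_).trans hx)) ?_
    · linarith
    · rw [hC0]
      linarith
  have hb5 : ∀ y ∈ Metric.ball x (4 + 1), Lm Ψ y C0 := fun y hy => hall y (by
    have := Metric.mem_ball.1 hy
    linarith)
  have h0 : Lm Ψ x C0 := hall x (by rw [dist_self]; norm_num)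
  have b3 := H3 ι inferInstance q n k Λ Ψ hsm hI.one x C0 fun y hy => (hb5 y hy).t
  have b4 := H4 ι inferInstance q n k Λ Ψ hsm hI.one x C0 hb5
  have b5 := H5 ι inferInstance q n k Λ Ψ hsm hI.one x C0 fun y hy => (hb5 y hy).c
  simp only [Real.rpow_one, one_mul] at b4
  have hnear : mM Ψ (fun p => near p x) ≤ C2 * (C3 * C0 + (C0 + C4) + C5 * C0) := by
    have h1 : mM Ψ (fun p => near p x) ≤
        C2 * (TM Ψ x 4 + mM Ψ (fun p => ce p x 4 + cn p x 4)) := by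
      unfold mM TM
      rw [← sum_add_distrib, mul_sum]
      exact sum_le_sum fun i _ => H2 q n k Λ (Ψ i) (hsm i) x
    refine h1.trans (mul_le_mul_of_nonneg_left ?_ hC2)
    rw [fe_add (fun i => IM_ce (hsm i) x 4) (fun i => IM_cn (hsm i) x 4)]
    linarith
  have hP : 0 ≤ C2 * (C3 * C0 + (C0 + C4) + C5 * C0) := by positivity
  exact ⟨fe_mono h0 (by linarith), by linarith⟩

end H6.CT
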