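import Pool.Agent.H6.CT.FbW
import Pool.Agent.H6.CB.Lt53

/-! One step of the bootstrap. `fbK`: the inequality `tt` of `Inb` with `fbW`, `fbS`, `fbM` (`ρ = 4`, `s = 1`) and `fbc0` (`ρ = 4`) with `fbC` at the points of the ball of radius `5`. `fbN`: `lt53` with `s = 1`, summed over the family, `fbt0` with `ρ = 2` (with the bound of `fbK` at the points of the ball of radius `3`; the constant of `fbt0` is absorbed in the choice of the small constant) and `fbM` with `ρ = 2`, `s = 1`. `fbStep`: `2 * D + 100 ≤ 7 * D`. -/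

open MeasureTheory Finset

namespace H6.CT

open H6.CM H6.CB H6.CL

private theorem fk_sub {x y : E3} {a b c : ℝ} {Λ : Set E3} (hy : y ∈ Metric.ball x a)
    (h : Metric.closedBall x c ⊆ Λ) (habc : a + b ≤ c) : Metric.closedBall y b ⊆ Λ := by
  refine (Metric.closedBall_subset_closedBall' ?_).trans h
  rw [Metric.mem_ball] at hy
  linarith

private theorem fk_tri {x v y : E3} {a b c : ℝ} (hv : v ∈ Metric.ball x a)
    (hy : y ∈ Metric.ball v b) (h : a + b ≤ c) : y ∈ Metric.ball x c := by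
  rw [Metric.mem_ball] at *
  linarith [dist_triangle y v x]

private theorem fk_mono {x y : E3} {a b : ℝ} (hy : y ∈ Metric.ball x a) (h : a ≤ b) :
    y ∈ Metric.ball x b := Metric.ball_subset_ball h hy

private theorem fk_add {ι : Type} [Fintype ι] {q n k : ℕ}
    {Ψ : ι → (Fin n → Fin q) → Cfg n k → ℂ} {F G : Cfg n k → ℝ} (hF : ∀ i, IM (Ψ i) F)
    (hG : ∀ i, IM (Ψ i) G) : mM Ψ (fun p => F p + G p) = mM Ψ F + mM Ψ G := by
  unfold mM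
  rw [← sum_add_distrib]
  exact sum_congr rfl fun i _ => mean_add (hF i) (hG i)

private theorem fk_half (a b η B : ℝ) (ha : 0 ≤ a) (hab : a ≤ b) (hη : 0 ≤ η) (hB : 0 ≤ B) :
    a * (η / (b + 1)) * B ≤ η * B := by
  refine mul_le_mul_of_nonneg_right ?_ hB
  rw [mul_div_assoc', div_le_iff₀ (by linarith)]
  nlinarith

private theorem fk_one {ι : Type} [Fintype ι] {q n k : ℕ}
    (Ψ : ι → (Fin n → Fin q) → Cfg n k → ℂ) (x : E3) (r : ℝ) :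
    mM Ψ (fun p => ce p x r ^ (1 : ℝ)) = mM Ψ (fun p => ce p x r) := by
  simp only [Real.rpow_one]

theorem fbK (q : ℕ) (Ci zm zp : ℝ) (hCi : 0 ≤ Ci) (hzm : 0 < zm) {χ θ : E3 → ℝ} (hχ : Bump χ)
    (hθ : Cut θ) (η : ℝ) (hη : 0 < η) :
    ∃ C : ℝ, 0 ≤ C ∧ ∀ (ι : Type) (_ : Fintype ι) (n k : ℕ) (Λ : Set E3)
    (z : Fin k → ℝ) (W : Finset E3) (Ψ : ι → (Fin n → Fin q) → Cfg n k → ℂ)
    (_ : Inb Ci zm zp q n k Λ z W χ θ Ψ) (x : E3) (D : ℝ) (_ : 13 ≤ D)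
    (_ : Metric.closedBall x (D + 14) ⊆ Λ) (B : ℝ)
    (_ : ∀ y ∈ Metric.ball x (2 * D + 85), Lm Ψ y B),
    TM Ψ x 1 ≤ η * B + C * (1 + (n + k) * (D ^ 4)⁻¹) := by
  obtain ⟨C4, hC4, H4⟩ := fbc0 4 (by norm_num)
  obtain ⟨e, he⟩ : ∃ e : ℝ, e = η / (4 * Ci + 1) := ⟨_, rfl⟩
  have he0 : 0 < e := by rw [he]; positivity
  obtain ⟨f, hf⟩ : ∃ f : ℝ, f = e / (C4 + 1) := ⟨_, rfl⟩
  have hf0 : 0 < f := by rw [hf]; positivity
  obtain ⟨C1, hC1, H1⟩ := fbW q Ci zm zp hCi hzm hχ hθ e he0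
  obtain ⟨C2, hC2, H2⟩ := fbS q hθ e he0
  obtain ⟨C3, hC3, H3⟩ := fbM 4 1 (by norm_num) (by norm_num) (by norm_num) e he0
  obtain ⟨C5, hC5, H5⟩ := fbC q Ci zm zp hCi hzm hχ hθ f hf0
  refine ⟨Ci * (1 + C1 + C2 + C3 + C4 * C5), by positivity, ?_⟩
  intro ι _ n k Λ z W Ψ hI x D hD hx B hB
  have hsm : ∀ i, Sm q n k Λ (Ψ i) := fun i => St_sm (hI.st i)
  have hD4 : 0 ≤ ((n : ℝ) + k) * (D ^ 4)⁻¹ := by positivity
  obtain ⟨X, hX⟩ : ∃ X : ℝ, X = 1 + ((n : ℝ) + k) * (D ^ 4)⁻¹ := ⟨_, rfl⟩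
  have hX1 : 1 ≤ X := by rw [hX]; linarith
  have hB0 : 0 ≤ B :=
    (fbe hsm hI.one x B (hB x (Metric.mem_ball_self (by linarith)))).1
  have b1 := H1 ι inferInstance n k Λ z W Ψ hI x D hD
    ((Metric.closedBall_subset_closedBall (by linarith)).trans hx) B
    (fun y hy => hB y (fk_mono hy (by linarith)))
  have b2 := H2 ι inferInstance n k Λ Ψ hI.st hI.one x B
    (fun y hy => hB y (fk_mono hy (by linarith)))
  have b3 := H3 ι inferInstance q n k Λ Ψ hsm hI.one x B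
    (fun y hy => hB y (fk_mono hy (by linarith)))
  rw [fk_one] at b3
  have b5 : ∀ y ∈ Metric.ball x (4 + 1), mM Ψ (fun p => cn p y 1) ≤ f * B + C5 * X := by
    intro y hy
    rw [hX]
    refine H5 ι inferInstance n k Λ z W Ψ hI y (fk_sub hy hx (by linarith)) D hD B
      fun u hu => hB u (fk_tri hy hu (by linarith))
  have b4 := H4 ι inferInstance q n k Λ Ψ hsm hI.one x (f * B + C5 * X) b5
  have b6 := hI.tt x
  rw [fk_add (fun i => IM_ce (hsm i) x 4) (fun i => IM_cn (hsm i) x 4)] at b6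
  rw [← hX] at b1 ⊢
  have b7 : C4 * (f * B) ≤ e * B := by
    have := fk_half C4 C4 e B hC4 le_rfl he0.le hB0
    rw [hf]
    linarith
  have b8 : C4 * (f * B + C5 * X) ≤ e * B + C4 * C5 * X := by
    have : C4 * (f * B + C5 * X) = C4 * (f * B) + C4 * C5 * X := by ring
    linarith
  have b9 : 1 + WM χ θ W z Ψ x + SM θ Ψ x +
      (mM Ψ (fun p => ce p x 4) + mM Ψ (fun p => cn p x 4)) ≤
      4 * (e * B) + (1 + C1 + C2 + C3 + C4 * C5) * X := by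
    have c1 : C2 ≤ C2 * X := le_mul_of_one_le_right hC2 hX1
    have c2 : C3 ≤ C3 * X := le_mul_of_one_le_right hC3 hX1
    have c3 : (1 + C1 + C2 + C3 + C4 * C5) * X =
      X + C1 * X + C2 * X + C3 * X + C4 * C5 * X := by ring
    linarith
  have b10 := mul_le_mul_of_nonneg_left b9 hCi
  have b11 : Ci * (4 * (e * B)) ≤ η * B := by
    have := fk_half (4 * Ci) (4 * Ci) η B (by positivity) le_rfl hη.le hB0
    rw [he]
    linarith
  calc TM Ψ x 1 ≤ _ := b6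
    _ ≤ _ := b10
    _ = Ci * (4 * (e * B)) + Ci * (1 + C1 + C2 + C3 + C4 * C5) * X := by ring
    _ ≤ _ := by linarith

theorem fbN (q : ℕ) (Ci zm zp : ℝ) (hCi : 0 ≤ Ci) (hzm : 0 < zm) {χ θ : E3 → ℝ} (hχ : Bump χ)
    (hθ : Cut θ) (η : ℝ) (hη : 0 < η) :
    ∃ C : ℝ, 0 ≤ C ∧ ∀ (ι : Type) (_ : Fintype ι) (n k : ℕ) (Λ : Set E3)
    (z : Fin k → ℝ) (W : Finset E3) (Ψ : ι → (Fin n → Fin q) → Cfg n k → ℂ)
    (_ : Inb Ci zm zp q n k Λ z W χ θ Ψ) (x : E3) (D : ℝ) (_ : 13 ≤ D)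
    (_ : Metric.closedBall x (D + 18) ⊆ Λ) (B : ℝ)
    (_ : ∀ y ∈ Metric.ball x (2 * D + 90), Lm Ψ y B),
    mM Ψ (fun p => ce p x 1 ^ (5 / 3 : ℝ)) ≤ η * B + C * (1 + (n + k) * (D ^ 4)⁻¹) := by
  obtain ⟨C0, hC0, H0⟩ := lt53 q
  obtain ⟨Ct, hCt, Ht⟩ := fbt0 2 (by norm_num)
  obtain ⟨e, he⟩ : ∃ e : ℝ, e = η / (2 * C0 + 1) := ⟨_, rfl⟩
  have he0 : 0 < e := by rw [he]; positivity
  obtain ⟨f, hf⟩ : ∃ f : ℝ, f = e / (Ct + 1) := ⟨_, rfl⟩
  have hf0 : 0 < f := by rw [hf]; positivity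
  obtain ⟨C1, hC1, H1⟩ := fbK q Ci zm zp hCi hzm hχ hθ f hf0
  obtain ⟨C2, hC2, H2⟩ := fbM 2 1 (by norm_num) (by norm_num) (by norm_num) e he0
  refine ⟨C0 * (Ct * C1 + C2), by positivity, ?_⟩
  intro ι _ n k Λ z W Ψ hI x D hD hx B hB
  have hsm : ∀ i, Sm q n k Λ (Ψ i) := fun i => St_sm (hI.st i)
  have hD4 : 0 ≤ ((n : ℝ) + k) * (D ^ 4)⁻¹ := by positivity
  obtain ⟨X, hX⟩ : ∃ X : ℝ, X = 1 + ((n : ℝ) + k) * (D ^ 4)⁻¹ := ⟨_, rfl⟩
  have hX1 : 1 ≤ X := by rw [hX]; linarith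
  have hB0 : 0 ≤ B :=
    (fbe hsm hI.one x B (hB x (Metric.mem_ball_self (by linarith)))).1
  have b1 : ∀ y ∈ Metric.ball x (2 + 1), TM Ψ y 1 ≤ f * B + C1 * X := by
    intro y hy
    rw [hX]
    exact H1 ι inferInstance n k Λ z W Ψ hI y D hD (fk_sub hy hx (by linarith)) B
      fun u hu => hB u (fk_tri hy hu (by linarith))
  have b2 := Ht ι inferInstance q n k Λ Ψ hsm hI.one x (f * B + C1 * X) b1
  have b3 := H2 ι inferInstance q n k Λ Ψ hsm hI.one x B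
    (fun y hy => hB y (fk_mono hy (by linarith)))
  rw [fk_one] at b3
  have b4 : mM Ψ (fun p => ce p x 1 ^ (5 / 3 : ℝ)) ≤
      C0 * (TM Ψ x 2 + mM Ψ (fun p => ce p x 2)) := by
    unfold mM TM
    rw [← sum_add_distrib, mul_sum]
    refine sum_le_sum fun i _ => ?_
    have h1 := H0 n k Λ (Ψ i) (hI.st i) x 1 one_pos
    rw [one_pow, one_mul, mul_one] at h1
    refine h1.trans (mul_le_mul_of_nonneg_left ?_ hC0)
    have h2 := TN_nonneg (Ψ i) x 2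
    linarith
  rw [← hX]
  have b7 : Ct * (f * B) ≤ e * B := by
    have := fk_half Ct Ct e B hCt le_rfl he0.le hB0
    rw [hf]
    linarith
  have b8 : TM Ψ x 2 + mM Ψ (fun p => ce p x 2) ≤ 2 * (e * B) + (Ct * C1 + C2) * X := by
    have c1 : C2 ≤ C2 * X := le_mul_of_one_le_right hC2 hX1
    have c2 : Ct * (f * B + C1 * X) = Ct * (f * B) + Ct * C1 * X := by ring
    have c3 : (Ct * C1 + C2) * X = Ct * C1 * X + C2 * X := by ring
    linarith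
  have b10 := mul_le_mul_of_nonneg_left b8 hC0
  have b11 : C0 * (2 * (e * B)) ≤ η * B := by
    have := fk_half (2 * C0) (2 * C0) η B (by positivity) le_rfl hη.le hB0
    rw [he]
    linarith
  calc mM Ψ (fun p => ce p x 1 ^ (5 / 3 : ℝ)) ≤ _ := b4
    _ ≤ _ := b10
    _ = C0 * (2 * (e * B)) + C0 * (Ct * C1 + C2) * X := by ring
    _ ≤ _ := by linarith

theorem fbStep (q : ℕ) (Ci zm zp : ℝ) (hCi : 0 ≤ Ci) (hzm : 0 < zm) {χ θ : E3 → ℝ} (hχ : Bump χ)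
    (hθ : Cut θ) (η : ℝ) (hη : 0 < η) :
    ∃ C : ℝ, 0 ≤ C ∧ ∀ (ι : Type) (_ : Fintype ι) (n k : ℕ) (Λ : Set E3)
    (z : Fin k → ℝ) (W : Finset E3) (Ψ : ι → (Fin n → Fin q) → Cfg n k → ℂ)
    (_ : Inb Ci zm zp q n k Λ z W χ θ Ψ) (D : ℝ) (_ : 128 ≤ D) (B : ℝ)
    (_ : ∀ y, Metric.closedBall y D ⊆ Λ → Lm Ψ y B)
    (x : E3) (_ : Metric.closedBall x (8 * D) ⊆ Λ),
    Lm Ψ x (η * B + C * (1 + (n + k) * (D ^ 4)⁻¹)) := by
  obtain ⟨C1, hC1, H1⟩ := fbK q Ci zm zp hCi hzm hχ hθ η hη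
  obtain ⟨C2, hC2, H2⟩ := fbN q Ci zm zp hCi hzm hχ hθ η hη
  obtain ⟨C3, hC3, H3⟩ := fbC q Ci zm zp hCi hzm hχ hθ η hη
  refine ⟨C1 + C2 + C3, by positivity, ?_⟩
  intro ι _ n k Λ z W Ψ hI D hD B hB x hx
  have hD4 : 0 ≤ ((n : ℝ) + k) * (D ^ 4)⁻¹ := by positivity
  obtain ⟨X, hX⟩ : ∃ X : ℝ, X = 1 + ((n : ℝ) + k) * (D ^ 4)⁻¹ := ⟨_, rfl⟩
  have hX0 : 0 ≤ X := by rw [hX]; linarith
  have hall : ∀ y ∈ Metric.ball x (2 * D + 90), Lm Ψ y B := fun y hy =>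
    hB y (fk_sub hy hx (by linarith))
  have b1 := H1 ι inferInstance n k Λ z W Ψ hI x D (by linarith)
    ((Metric.closedBall_subset_closedBall (by linarith)).trans hx) B
    (fun y hy => hall y (fk_mono hy (by linarith)))
  have b2 := H2 ι inferInstance n k Λ z W Ψ hI x D (by linarith)
    ((Metric.closedBall_subset_closedBall (by linarith)).trans hx) B hall
  have b3 := H3 ι inferInstance n k Λ z W Ψ hI x
    ((Metric.closedBall_subset_closedBall (by linarith)).trans hx) D (by linarith) B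
    (fun y hy => hall y (fk_mono hy (by linarith)))
  rw [← hX] at b1 b2 b3 ⊢
  have e1 : (C1 + C2 + C3) * X = C1 * X + C2 * X + C3 * X := by ring
  have p1 : 0 ≤ C1 * X := mul_nonneg hC1 hX0
  have p2 : 0 ≤ C2 * X := mul_nonneg hC2 hX0
  have p3 : 0 ≤ C3 * X := mul_nonneg hC3 hX0
  rw [e1]
  exact ⟨by linarith, by linarith, by linarith⟩

end H6.CT
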