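import Pool.Agent.H6.CT.BDefs
import Pool.Agent.H6.CL.CovS
import Pool.Agent.H6.CL.ShI

/-! Moments at a point: sum `mom_covS`, `mm_covS`, `t_covS`, `c_cov` over the family; the points `x + c` lie in the ball of radius `ρ + 1` around `x`, so every term of the finite sum over `c ∈ t` is at most `B`. `fbe`: `u ≤ 1 + u ^ (5/3)`. -/

open MeasureTheory Finset

namespace H6.CT

open H6.CM H6.CB H6.CL

private theorem fb_swap {ι : Type} [Fintype ι] {q n k : ℕ}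
    (Ψ : ι → (Fin n → Fin q) → Cfg n k → ℂ) (h1 : ∑ i, mass (Ψ i) = 1) (η C : ℝ)
    (t : Finset E3) (F : E3 → Cfg n k → ℝ) :
    ∑ i, (η * (∑ c ∈ t, mean (Ψ i) (F c)) + C * mass (Ψ i)) =
      η * (∑ c ∈ t, mM Ψ (F c)) + C := by
  rw [sum_add_distrib, ← mul_sum, ← mul_sum, h1, mul_one, sum_comm]
  rfl

private theorem fb_in {ρ : ℝ} {x c : E3} (hc : ‖c‖ ≤ ρ) : x + c ∈ Metric.ball x (ρ + 1) := by
  rw [Metric.mem_ball, dist_eq_norm, add_sub_cancel_left]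
  linarith

private theorem fb_eta (η : ℝ) (hη : 0 < η) (m : ℕ) (B : ℝ) (hB : 0 ≤ B) :
    η / (m + 1) * (m * B) ≤ η * B := by
  have hm : (0 : ℝ) ≤ m := Nat.cast_nonneg m
  rw [div_mul_eq_mul_div, div_le_iff₀ (by linarith)]
  have : 0 ≤ η * B := by positivity
  nlinarith

private theorem fb_nn {ι : Type} [Fintype ι] {q n k : ℕ}
    {Ψ : ι → (Fin n → Fin q) → Cfg n k → ℂ} {F : Cfg n k → ℝ} (hF : ∀ p, 0 ≤ F p) :
    0 ≤ mM Ψ F :=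
  sum_nonneg fun _ _ => mean_nonneg fun _ p _ => hF p

theorem fbM (ρ s : ℝ) (hρ : 0 ≤ ρ) (hs : 0 ≤ s) (hs' : s < 5 / 3) (η : ℝ) (hη : 0 < η) :
    ∃ C : ℝ, 0 ≤ C ∧
    ∀ (ι : Type) (_ : Fintype ι) (q n k : ℕ) (Λ : Set E3)
    (Ψ : ι → (Fin n → Fin q) → Cfg n k → ℂ) (_ : ∀ i, Sm q n k Λ (Ψ i))
    (_ : ∑ i, mass (Ψ i) = 1) (x : E3) (B : ℝ)
    (_ : ∀ y ∈ Metric.ball x (ρ + 1), Lm Ψ y B),
    mM Ψ (fun p => ce p x ρ ^ s) ≤ η * B + C := by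
  obtain ⟨t, ht, H⟩ := mom_covS ρ
  obtain ⟨C, hC, H1⟩ := H s (η / (t.card + 1)) hs hs' (by positivity)
  refine ⟨C, hC, fun ι _ q n k Λ Ψ hΨ h1 x B hB => ?_⟩
  have hB0 : 0 ≤ B := by
    refine le_trans ?_ (hB x (Metric.mem_ball_self (by linarith))).e
    exact fb_nn fun p => Real.rpow_nonneg (ce_nonneg p x 1) _
  have h2 : ∑ c ∈ t, mM Ψ (fun p => ce p (x + c) 1 ^ (5 / 3 : ℝ)) ≤ t.card * B := by
    calc ∑ c ∈ t, mM Ψ (fun p => ce p (x + c) 1 ^ (5 / 3 : ℝ)) ≤ ∑ _c ∈ t, B :=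
          sum_le_sum fun c hc => (hB _ (fb_in (ht c hc))).e
      _ = _ := by rw [sum_const, nsmul_eq_mul]
  calc mM Ψ (fun p => ce p x ρ ^ s)
      ≤ ∑ i, (η / (t.card + 1) * (∑ c ∈ t, mean (Ψ i)
          (fun p => ce p (x + c) 1 ^ (5 / 3 : ℝ))) + C * mass (Ψ i)) :=
        sum_le_sum fun i _ => H1 q n k Λ (Ψ i) (hΨ i) x
    _ = η / (t.card + 1) * (∑ c ∈ t, mM Ψ (fun p => ce p (x + c) 1 ^ (5 / 3 : ℝ))) + C :=
        fb_swap Ψ h1 _ _ t (fun c p => ce p (x + c) 1 ^ (5 / 3 : ℝ))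
    _ ≤ η / (t.card + 1) * (t.card * B) + C := by gcongr
    _ ≤ _ := by linarith [fb_eta η hη t.card B hB0]

theorem fbmm {θ : E3 → ℝ} (hθ : Cut θ) (s : ℝ) (hs : 0 ≤ s) (hs' : s < 5 / 3) (η : ℝ)
    (hη : 0 < η) : ∃ C : ℝ, 0 ≤ C ∧
    ∀ (ι : Type) (_ : Fintype ι) (q n k : ℕ) (Λ : Set E3)
    (Ψ : ι → (Fin n → Fin q) → Cfg n k → ℂ) (_ : ∀ i, Sm q n k Λ (Ψ i))
    (_ : ∑ i, mass (Ψ i) = 1) (x : E3) (B : ℝ)
    (_ : ∀ y ∈ Metric.ball x 65, Lm Ψ y B),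
    mM Ψ (fun p => mm θ x p ^ s) ≤ η * B + C := by
  obtain ⟨t, ht, H⟩ := mm_covS hθ
  obtain ⟨C, hC, H1⟩ := H s (η / (t.card + 1)) hs hs' (by positivity)
  refine ⟨C, hC, fun ι _ q n k Λ Ψ hΨ h1 x B hB => ?_⟩
  have hB0 : 0 ≤ B := by
    refine le_trans ?_ (hB x (Metric.mem_ball_self (by norm_num))).e
    exact fb_nn fun p => Real.rpow_nonneg (ce_nonneg p x 1) _
  have h2 : ∑ c ∈ t, mM Ψ (fun p => ce p (x + c) 1 ^ (5 / 3 : ℝ)) ≤ t.card * B := by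
    calc ∑ c ∈ t, mM Ψ (fun p => ce p (x + c) 1 ^ (5 / 3 : ℝ)) ≤ ∑ _c ∈ t, B :=
          sum_le_sum fun c hc => (hB _ (by
            have := fb_in (x := x) (ht c hc)
            have e : (64 : ℝ) + 1 = 65 := by norm_num
            rwa [e] at this)).e
      _ = _ := by rw [sum_const, nsmul_eq_mul]
  calc mM Ψ (fun p => mm θ x p ^ s)
      ≤ ∑ i, (η / (t.card + 1) * (∑ c ∈ t, mean (Ψ i)
          (fun p => ce p (x + c) 1 ^ (5 / 3 : ℝ))) + C * mass (Ψ i)) :=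
        sum_le_sum fun i _ => H1 q n k Λ (Ψ i) (hΨ i) x
    _ = η / (t.card + 1) * (∑ c ∈ t, mM Ψ (fun p => ce p (x + c) 1 ^ (5 / 3 : ℝ))) + C :=
        fb_swap Ψ h1 _ _ t (fun c p => ce p (x + c) 1 ^ (5 / 3 : ℝ))
    _ ≤ η / (t.card + 1) * (t.card * B) + C := by gcongr
    _ ≤ _ := by linarith [fb_eta η hη t.card B hB0]

theorem fbt0 (ρ : ℝ) (hρ : 0 ≤ ρ) : ∃ C : ℝ, 0 ≤ C ∧
    ∀ (ι : Type) (_ : Fintype ι) (q n k : ℕ) (Λ : Set E3)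
    (Ψ : ι → (Fin n → Fin q) → Cfg n k → ℂ) (_ : ∀ i, Sm q n k Λ (Ψ i))
    (_ : ∑ i, mass (Ψ i) = 1) (x : E3) (B : ℝ)
    (_ : ∀ y ∈ Metric.ball x (ρ + 1), TM Ψ y 1 ≤ B),
    TM Ψ x ρ ≤ C * B := by
  obtain ⟨t, ht, H⟩ := t_covS ρ
  refine ⟨t.card, by positivity, fun ι _ q n k Λ Ψ hΨ h1 x B hB => ?_⟩
  calc TM Ψ x ρ ≤ ∑ i, ∑ c ∈ t, (TE (Ψ i) (x + c) 1 + TN (Ψ i) (x + c) 1) :=
        sum_le_sum fun i _ => H q n k Λ (Ψ i) (hΨ i) x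
    _ = ∑ c ∈ t, TM Ψ (x + c) 1 := sum_comm
    _ ≤ ∑ _c ∈ t, B := sum_le_sum fun c hc => hB _ (fb_in (ht c hc))
    _ = _ := by rw [sum_const, nsmul_eq_mul]

theorem fbc0 (ρ : ℝ) (hρ : 0 ≤ ρ) : ∃ C : ℝ, 0 ≤ C ∧
    ∀ (ι : Type) (_ : Fintype ι) (q n k : ℕ) (Λ : Set E3)
    (Ψ : ι → (Fin n → Fin q) → Cfg n k → ℂ) (_ : ∀ i, Sm q n k Λ (Ψ i))
    (_ : ∑ i, mass (Ψ i) = 1) (x : E3) (B : ℝ)
    (_ : ∀ y ∈ Metric.ball x (ρ + 1), mM Ψ (fun p => cn p y 1) ≤ B),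
    mM Ψ (fun p => cn p x ρ) ≤ C * B := by
  obtain ⟨t, ht, H⟩ := c_cov ρ
  refine ⟨t.card, by positivity, fun ι _ q n k Λ Ψ hΨ h1 x B hB => ?_⟩
  calc mM Ψ (fun p => cn p x ρ) ≤ ∑ i, ∑ c ∈ t, mean (Ψ i) (fun p => cn p (x + c) 1) := by
        refine sum_le_sum fun i _ => ?_
        rw [← mean_sum _ fun c _ => IM_cn (hΨ i) (x + c) 1]
        exact mean_mono (IM_cn (hΨ i) x ρ) (IM.sum _ fun c _ => IM_cn (hΨ i) (x + c) 1)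
          fun _ p _ => (H n k p x).2
    _ = ∑ c ∈ t, mM Ψ (fun p => cn p (x + c) 1) := sum_comm
    _ ≤ ∑ _c ∈ t, B := sum_le_sum fun c hc => hB _ (fb_in (ht c hc))
    _ = _ := by rw [sum_const, nsmul_eq_mul]

theorem fbe {ι : Type} [Fintype ι] {q n k : ℕ} {Λ : Set E3}
    {Ψ : ι → (Fin n → Fin q) → Cfg n k → ℂ} (hΨ : ∀ i, Sm q n k Λ (Ψ i))
    (h1 : ∑ i, mass (Ψ i) = 1) (y : E3) (B : ℝ) (h : Lm Ψ y B) :
    0 ≤ B ∧ mM Ψ (fun p => ce p y 1) ≤ 1 + B := by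
  have hB0 : 0 ≤ B := by
    refine le_trans ?_ h.e
    exact fb_nn fun p => Real.rpow_nonneg (ce_nonneg p y 1) _
  refine ⟨hB0, ?_⟩
  have i1 : ∀ i, IM (Ψ i) (fun p => ce p y 1 ^ (5 / 3 : ℝ)) := fun i =>
    IM_cet (hΨ i) y 1 (5 / 3) (by norm_num)
  have i2 : ∀ i, IM (Ψ i) (fun _ : Cfg n k => (1 : ℝ)) := fun i =>
    IM.cont (hΨ i) continuous_const
  calc mM Ψ (fun p => ce p y 1)
      ≤ ∑ i, (1 * mass (Ψ i) + mean (Ψ i) (fun p => ce p y 1 ^ (5 / 3 : ℝ))) := by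
        refine sum_le_sum fun i _ => ?_
        rw [← mean_const, ← mean_add (i2 i) (i1 i)]
        refine mean_mono (IM_ce (hΨ i) y 1) ((i2 i).add (i1 i)) fun _ p _ => ?_
        have h2 := ce_nonneg p y 1
        rcases le_total (ce p y 1) 1 with h3 | h3
        · have : 0 ≤ ce p y 1 ^ (5 / 3 : ℝ) := Real.rpow_nonneg h2 _
          linarith
        · have : ce p y 1 ^ (1 : ℝ) ≤ ce p y 1 ^ (5 / 3 : ℝ) :=
            Real.rpow_le_rpow_of_exponent_le h3 (by norm_num)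
          rw [Real.rpow_one] at this
          linarith
    _ = 1 + mM Ψ (fun p => ce p y 1 ^ (5 / 3 : ℝ)) := by
        rw [sum_add_distrib, ← mul_sum, h1, mul_one]
        rfl
    _ ≤ 1 + B := by linarith [h.e]

end H6.CT
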