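import Pool.Agent.H6.CT.FbM
import Pool.Agent.H6.CB.FTail

/-! The tail and the `3/2` moment of the relative potential. `fbtl`: integrate `tl_le` (`mM` of the integral over `v` of nonnegative functions, `mean_ball`; `w_int`). `fbq`: `q4 1 p x ≤ ce p x 13 + cn p x 13 + tl 13 p x`, `fbM` with `ρ = 13`, `s = 1`, `fbc0`, `fbtl` with `fbe`. `fbU`: the inequality `pp` of `Inb`, `fbM` with `ρ = 2`, `s = 3/2`, and `fbq`. -/

open MeasureTheory Finset

namespace H6.CT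

open H6.CM H6.CB H6.CL

private theorem fu_w (u : E3) : 0 ≤ (max 12 ‖u‖ ^ 4)⁻¹ ∧ (max 12 ‖u‖ ^ 4)⁻¹ ≤ 1 := by
  have h1 : (1 : ℝ) ≤ max 12 ‖u‖ ^ 4 := by
    refine one_le_pow₀ ?_
    exact le_trans (by norm_num) (le_max_left _ _)
  exact ⟨by positivity, inv_le_one_of_one_le₀ h1⟩

private theorem fu_tl0 {n k : ℕ} (r : ℝ) (p : Cfg n k) (x : E3) : 0 ≤ tl r p x := by
  unfold tl
  refine add_nonneg (sum_nonneg fun a _ => ?_) (sum_nonneg fun a _ => ?_)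
  · split_ifs
    · exact le_rfl
    · positivity
  · split_ifs
    · exact le_rfl
    · positivity

/-- one wave function -/
private theorem fu_one {C1 : ℝ} (htl : ∀ (n k : ℕ) (p : Cfg n k) (x : E3) (D : ℝ) (_ : 13 ≤ D),
    tl 13 p x ≤ C1 * (∫ v in Metric.ball x (D + 1), (max 12 ‖v - x‖ ^ 4)⁻¹ *
      (ce p v 1 + cn p v 1)) + (n + k) * (D ^ 4)⁻¹)
    {q n k : ℕ} {Λ : Set E3} {ψ : (Fin n → Fin q) → Cfg n k → ℂ} (hs : Sm q n k Λ ψ)
    (x : E3) (D : ℝ) (hD : 13 ≤ D) :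
    IntegrableOn (fun v => mean ψ (fun p => (max 12 ‖v - x‖ ^ 4)⁻¹ * (ce p v 1 + cn p v 1)))
      (Metric.ball x (D + 1)) ∧
    mean ψ (fun p => tl 13 p x) ≤
      C1 * (∫ v in Metric.ball x (D + 1),
        mean ψ (fun p => (max 12 ‖v - x‖ ^ 4)⁻¹ * (ce p v 1 + cn p v 1))) +
        ((n : ℝ) + k) * (D ^ 4)⁻¹ * mass ψ := by
  have hcm : Measurable (fun u : Cfg n k × E3 => ce u.1 u.2 1) := by
    unfold ce
    refine Finset.measurable_fun_sum _ fun a _ => ?_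
    have hmset : MeasurableSet {u : Cfg n k × E3 | ‖u.1.1 a - u.2‖ < 1} := by
      apply measurableSet_lt _ measurable_const
      exact (((meas_e a).comp measurable_fst).sub measurable_snd).norm
    exact Measurable.ite hmset measurable_const measurable_const
  have hcm2 : Measurable (fun u : Cfg n k × E3 => cn u.1 u.2 1) := by
    unfold cn
    refine Finset.measurable_fun_sum _ fun j _ => ?_
    have hmset : MeasurableSet {u : Cfg n k × E3 | ‖u.1.2 j - u.2‖ < 1} := by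
      apply measurableSet_lt _ measurable_const
      exact (((meas_n j).comp measurable_fst).sub measurable_snd).norm
    exact Measurable.ite hmset measurable_const measurable_const
  have hmw : Measurable (fun v : E3 => (max 12 ‖v - x‖ ^ 4)⁻¹) :=
    ((continuous_const.max (continuous_id.sub continuous_const).norm).pow 4).measurable.inv
  obtain ⟨m1, m2, m3⟩ := mean_ball hs x (D + 1)
    (F := fun v p => (max 12 ‖v - x‖ ^ 4)⁻¹ * (ce p v 1 + cn p v 1))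
    ((hmw.comp measurable_snd).mul (hcm.add hcm2)) (G := fun _ => (n : ℝ) + k) continuous_const
    fun v _ p => by
      have h1 := ce_nonneg p v 1
      have h2 := cn_nonneg p v 1
      have h3 := ce_le p v 1
      have h4 := cn_le p v 1
      rw [abs_of_nonneg (mul_nonneg (fu_w _).1 (by linarith))]
      calc (max 12 ‖v - x‖ ^ 4)⁻¹ * (ce p v 1 + cn p v 1) ≤ 1 * (ce p v 1 + cn p v 1) :=
            mul_le_mul_of_nonneg_right (fu_w _).2 (by linarith)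
        _ ≤ (n : ℝ) + k := by linarith
  have hone : IM ψ (fun _ => ((n : ℝ) + k) * (D ^ 4)⁻¹) := IM.cont hs continuous_const
  refine ⟨m1, ?_⟩
  rw [m3, ← mean_cmul, ← mean_const, ← mean_add (m2.cmul C1) hone]
  exact mean_mono0 (fun p => fu_tl0 13 p x) ((m2.cmul C1).add hone)
    fun σ p _ => htl n k p x D hD

private theorem fu_nn {ι : Type} [Fintype ι] {q n k : ℕ}
    {Ψ : ι → (Fin n → Fin q) → Cfg n k → ℂ} {F : Cfg n k → ℝ} (hF : ∀ p, 0 ≤ F p) :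
    0 ≤ mM Ψ F :=
  sum_nonneg fun _ _ => mean_nonneg fun _ p _ => hF p

theorem fbtl : ∃ C : ℝ, 0 ≤ C ∧
    ∀ (ι : Type) (_ : Fintype ι) (q n k : ℕ) (Λ : Set E3)
    (Ψ : ι → (Fin n → Fin q) → Cfg n k → ℂ) (_ : ∀ i, Sm q n k Λ (Ψ i))
    (_ : ∑ i, mass (Ψ i) = 1) (x : E3)
    (D : ℝ) (_ : 13 ≤ D) (K : ℝ) (_ : ∀ v ∈ Metric.ball x (D + 1),
      mM Ψ (fun p => ce p v 1 + cn p v 1) ≤ K),
    mM Ψ (fun p => tl 13 p x) ≤ C * K + (n + k) * (D ^ 4)⁻¹ := by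
  obtain ⟨C1, hC1, htl⟩ := tl_le
  obtain ⟨C2, hC2, hw⟩ := w_int
  refine ⟨C1 * C2, by positivity, ?_⟩
  intro ι _ q n k Λ Ψ hΨ h1 x D hD K hK
  obtain ⟨hwi, hwle⟩ := hw x
  have hK0 : 0 ≤ K := le_trans (fu_nn fun p => add_nonneg (ce_nonneg p x 1) (cn_nonneg p x 1))
    (hK x (Metric.mem_ball_self (by linarith)))
  have hint : ∀ i, IntegrableOn (fun v => mean (Ψ i) (fun p => (max 12 ‖v - x‖ ^ 4)⁻¹ *
      (ce p v 1 + cn p v 1))) (Metric.ball x (D + 1)) := fun i => (fu_one htl (hΨ i) x D hD).1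
  have hstep1 : mM Ψ (fun p => tl 13 p x) ≤
      C1 * (∫ v in Metric.ball x (D + 1),
        ∑ i, mean (Ψ i) (fun p => (max 12 ‖v - x‖ ^ 4)⁻¹ * (ce p v 1 + cn p v 1))) +
        ((n : ℝ) + k) * (D ^ 4)⁻¹ := by
    rw [integral_finsetSum _ fun i _ => hint i]
    calc mM Ψ (fun p => tl 13 p x) ≤ ∑ i, (C1 * (∫ v in Metric.ball x (D + 1),
          mean (Ψ i) (fun p => (max 12 ‖v - x‖ ^ 4)⁻¹ * (ce p v 1 + cn p v 1))) +
          ((n : ℝ) + k) * (D ^ 4)⁻¹ * mass (Ψ i)) :=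
          sum_le_sum fun i _ => (fu_one htl (hΨ i) x D hD).2
      _ = _ := by rw [sum_add_distrib, ← mul_sum, ← mul_sum, h1, mul_one]
  have hpt : ∀ v ∈ Metric.ball x (D + 1),
      ∑ i, mean (Ψ i) (fun p => (max 12 ‖v - x‖ ^ 4)⁻¹ * (ce p v 1 + cn p v 1)) ≤
      (max 12 ‖v - x‖ ^ 4)⁻¹ * K := by
    intro v hv
    have e1 : ∑ i, mean (Ψ i) (fun p => (max 12 ‖v - x‖ ^ 4)⁻¹ * (ce p v 1 + cn p v 1)) =
        (max 12 ‖v - x‖ ^ 4)⁻¹ * mM Ψ (fun p => ce p v 1 + cn p v 1) := by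
      unfold mM
      rw [mul_sum]
      exact sum_congr rfl fun i _ => mean_cmul _ _
    rw [e1]
    exact mul_le_mul_of_nonneg_left (hK v hv) (fu_w _).1
  have hstep2 : ∫ v in Metric.ball x (D + 1),
      ∑ i, mean (Ψ i) (fun p => (max 12 ‖v - x‖ ^ 4)⁻¹ * (ce p v 1 + cn p v 1)) ≤ C2 * K := by
    calc ∫ v in Metric.ball x (D + 1),
        ∑ i, mean (Ψ i) (fun p => (max 12 ‖v - x‖ ^ 4)⁻¹ * (ce p v 1 + cn p v 1)) ≤
        ∫ v in Metric.ball x (D + 1), (max 12 ‖v - x‖ ^ 4)⁻¹ * K :=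
          setIntegral_mono_on (integrable_finsetSum _ fun i _ => hint i)
            (hwi.mul_const _).integrableOn Metric.isOpen_ball.measurableSet hpt
      _ = (∫ v in Metric.ball x (D + 1), (max 12 ‖v - x‖ ^ 4)⁻¹) * K := integral_mul_const _ _
      _ ≤ C2 * K := by
          apply mul_le_mul_of_nonneg_right _ hK0
          refine le_trans ?_ hwle
          exact setIntegral_le_integral hwi (Filter.Eventually.of_forall fun v => (fu_w _).1)
  have hstep3 := mul_le_mul_of_nonneg_left hstep2 hC1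
  calc mM Ψ (fun p => tl 13 p x) ≤ _ := hstep1
    _ ≤ C1 * (C2 * K) + ((n : ℝ) + k) * (D ^ 4)⁻¹ := by linarith
    _ = _ := by ring

private theorem fu_q4 {n k : ℕ} (p : Cfg n k) (x : E3) :
    q4 1 p x ≤ ce p x 13 + (cn p x 13 + tl 13 p x) := by
  have h1 : ∀ u : E3, (max 1 ‖u - x‖ ^ 4)⁻¹ ≤ (if ‖u - x‖ < 13 then (1 : ℝ) else 0) +
      (if ‖u - x‖ < 13 then 0 else (‖u - x‖ ^ 4)⁻¹) := by
    intro u
    split_ifs with h
    · rw [add_zero]
      exact inv_le_one_of_one_le₀ (one_le_pow₀ (le_max_left _ _))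
    · rw [zero_add]
      rw [max_eq_right (by linarith)]
  unfold q4 ce cn tl
  have h2 := sum_le_sum (s := univ) fun (a : Fin n) _ => h1 (p.1 a)
  have h3 := sum_le_sum (s := univ) fun (a : Fin k) _ => h1 (p.2 a)
  rw [sum_add_distrib] at h2 h3
  linarith

private theorem fu_IMtl {q n k : ℕ} {Λ : Set E3} {ψ : (Fin n → Fin q) → Cfg n k → ℂ}
    (hs : Sm q n k Λ ψ) (x : E3) : IM ψ (fun p => tl 13 p x) := by
  refine IM.bdd hs ?_ ((n : ℝ) + k) fun p => ?_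
  · unfold tl
    refine Measurable.add ?_ ?_
    · refine Finset.measurable_fun_sum _ fun a _ => ?_
      have h1 : Measurable (fun p : Cfg n k => ‖p.1 a - x‖) := ((meas_e a).sub_const x).norm
      exact Measurable.ite (measurableSet_lt h1 measurable_const) measurable_const
        (h1.pow_const 4).inv
    · refine Finset.measurable_fun_sum _ fun a _ => ?_
      have h1 : Measurable (fun p : Cfg n k => ‖p.2 a - x‖) := ((meas_n a).sub_const x).norm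
      exact Measurable.ite (measurableSet_lt h1 measurable_const) measurable_const
        (h1.pow_const 4).inv
  · rw [abs_of_nonneg (fu_tl0 13 p x)]
    have h1 : ∀ u : E3, (if ‖u - x‖ < 13 then 0 else (‖u - x‖ ^ 4)⁻¹) ≤ (1 : ℝ) := by
      intro u
      split_ifs with h
      · norm_num
      · exact inv_le_one_of_one_le₀ (one_le_pow₀ (by linarith))
    unfold tl
    have h2 := sum_le_sum (s := univ) fun (a : Fin n) _ => h1 (p.1 a)
    have h3 := sum_le_sum (s := univ) fun (a : Fin k) _ => h1 (p.2 a)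
    rw [sum_const, card_univ, Fintype.card_fin, nsmul_eq_mul, mul_one] at h2 h3
    linarith

private theorem fu_add {ι : Type} [Fintype ι] {q n k : ℕ}
    {Ψ : ι → (Fin n → Fin q) → Cfg n k → ℂ} {F G : Cfg n k → ℝ} (hF : ∀ i, IM (Ψ i) F)
    (hG : ∀ i, IM (Ψ i) G) : mM Ψ (fun p => F p + G p) = mM Ψ F + mM Ψ G := by
  unfold mM
  rw [← sum_add_distrib]
  exact sum_congr rfl fun i _ => mean_add (hF i) (hG i)

theorem fbq : ∃ C : ℝ, 0 ≤ C ∧
    ∀ (ι : Type) (_ : Fintype ι) (q n k : ℕ) (Λ : Set E3)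
    (Ψ : ι → (Fin n → Fin q) → Cfg n k → ℂ) (_ : ∀ i, Sm q n k Λ (Ψ i))
    (_ : ∑ i, mass (Ψ i) = 1) (x : E3) (B : ℝ)
    (D : ℝ) (_ : 13 ≤ D) (_ : ∀ y ∈ Metric.ball x (D + 2), Lm Ψ y B),
    mM Ψ (fun p => q4 1 p x) ≤ C * (1 + B + (n + k) * (D ^ 4)⁻¹) := by
  obtain ⟨C1, hC1, H1⟩ := fbM 13 1 (by norm_num) (by norm_num) (by norm_num) 1 one_pos
  obtain ⟨C2, hC2, H2⟩ := fbc0 13 (by norm_num)
  obtain ⟨C3, hC3, H3⟩ := fbtl
  refine ⟨1 + C1 + C2 + 2 * C3 + 1, by positivity, ?_⟩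
  intro ι _ q n k Λ Ψ hΨ h1 x B D hD hL
  have hx := hL x (Metric.mem_ball_self (by linarith))
  have hB0 := (fbe hΨ h1 x B hx).1
  have hX : 0 ≤ ((n : ℝ) + k) * (D ^ 4)⁻¹ := by positivity
  have e1 : mM Ψ (fun p => ce p x 13) ≤ 1 * B + C1 := by
    have := H1 ι _ q n k Λ Ψ hΨ h1 x B fun y hy => hL y
      (Metric.ball_subset_ball (by linarith) hy)
    simpa only [Real.rpow_one] using this
  have e2 : mM Ψ (fun p => cn p x 13) ≤ C2 * B :=
    H2 ι _ q n k Λ Ψ hΨ h1 x B fun y hy => (hL y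
      (Metric.ball_subset_ball (by linarith) hy)).c
  have e3 : mM Ψ (fun p => tl 13 p x) ≤ C3 * (1 + 2 * B) + (n + k) * (D ^ 4)⁻¹ := by
    refine H3 ι _ q n k Λ Ψ hΨ h1 x D hD (1 + 2 * B) fun v hv => ?_
    have hv' := hL v (Metric.ball_subset_ball (by linarith) hv)
    rw [fu_add (fun i => IM_ce (hΨ i) v 1) (fun i => IM_cn (hΨ i) v 1)]
    have := (fbe hΨ h1 v B hv').2
    linarith [hv'.c]
  have i3 : ∀ i, IM (Ψ i) (fun p => tl 13 p x) := fun i => fu_IMtl (hΨ i) x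
  have i2 : ∀ i, IM (Ψ i) (fun p => cn p x 13 + tl 13 p x) := fun i =>
    (IM_cn (hΨ i) x 13).add (i3 i)
  have e4 : mM Ψ (fun p => q4 1 p x) ≤
      mM Ψ (fun p => ce p x 13) + (mM Ψ (fun p => cn p x 13) + mM Ψ (fun p => tl 13 p x)) := by
    rw [← fu_add (fun i => IM_cn (hΨ i) x 13) i3, ← fu_add (fun i => IM_ce (hΨ i) x 13) i2]
    refine sum_le_sum fun i _ => ?_
    refine mean_mono0 (fun p => ?_) ((IM_ce (hΨ i) x 13).add (i2 i)) fun _ p _ => fu_q4 p x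
    unfold q4
    positivity
  nlinarith

theorem fbU (q : ℕ) (Ci zm zp : ℝ) (hCi : 0 ≤ Ci) (hzm : 0 < zm) {χ θ : E3 → ℝ} (hχ : Bump χ)
    (hθ : Cut θ) :
    ∃ C : ℝ, 0 ≤ C ∧ ∀ (ι : Type) (_ : Fintype ι) (n k : ℕ) (Λ : Set E3)
    (z : Fin k → ℝ) (W : Finset E3) (Ψ : ι → (Fin n → Fin q) → Cfg n k → ℂ)
    (_ : Inb Ci zm zp q n k Λ z W χ θ Ψ) (v : E3)
    (_ : Metric.closedBall v 2 ⊆ Λ) (D : ℝ) (_ : 13 ≤ D) (B : ℝ)
    (_ : ∀ y ∈ Metric.ball v (D + 2), Lm Ψ y B),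
    mM Ψ (fun p => |uh χ 1 W z p v| ^ (3 / 2 : ℝ)) ≤
      C * (1 + B + (n + k) * (D ^ 4)⁻¹) := by
  obtain ⟨C1, hC1, H1⟩ := fbM 2 (3 / 2) (by norm_num) (by norm_num) (by norm_num) 1 one_pos
  obtain ⟨C2, hC2, H2⟩ := fbq
  refine ⟨Ci * (1 + C1 + 1 + C2), by positivity, ?_⟩
  intro ι _ n k Λ z W Ψ hI v hv D hD B hL
  have hΨ : ∀ i, Sm q n k Λ (Ψ i) := fun i => St_sm (hI.st i)
  have hx := hL v (Metric.mem_ball_self (by linarith))
  have hB0 := (fbe hΨ hI.one v B hx).1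
  have hX : 0 ≤ ((n : ℝ) + k) * (D ^ 4)⁻¹ := by positivity
  have e1 := H1 ι _ q n k Λ Ψ hΨ hI.one v B fun y hy => hL y
      (Metric.ball_subset_ball (by linarith) hy)
  have e2 := H2 ι _ q n k Λ Ψ hΨ hI.one v B D hD hL
  refine (hI.pp v hv).trans ?_
  rw [mul_assoc]
  refine mul_le_mul_of_nonneg_left ?_ hCi
  nlinarith

end H6.CT
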