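import Pool.Agent.H6.CT.FbC
import Pool.Agent.H6.CL.MixP
import Pool.Agent.H6.CL.SsP

/-! The second moments. `fbS`: sum `ssP` over the family; `fbt0` with `ρ = 14` (the terms `TN` are nonnegative), `fbmm` with `s = 7/6`; choose `L0` so large that the coefficient of `B` is small. `fbW`: the inequality `ww` of `Inb`; `fbmm` with `s = 4/3`; `fbS`; `mixP` with a small constant, `cnP` at the points `x + c` (`‖c‖ ≤ 14`; `fbU` at the points of the ball of radius `6` around them, `closedBall v 2 ⊆ Λ` because `14 + 6 + 2 ≤ D + 9`), `fbM` with `ρ = 7`, `s = 3/2`; `fbt`. -/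

open MeasureTheory Finset

namespace H6.CT

open H6.CM H6.CB H6.CL

private theorem fw_int {ι : Type} [Fintype ι] {q n k : ℕ} {Λ : Set E3}
    {Ψ : ι → (Fin n → Fin q) → Cfg n k → ℂ} (hΨ : ∀ i, Sm q n k Λ (Ψ i)) {χ : E3 → ℝ}
    (hχ : Bump χ) (W : Finset E3) (z : Fin k → ℝ) (x : E3) (i : ι) :
    IntegrableOn (fun v => mean (Ψ i) (fun p => |uh χ 1 W z p v| ^ (3 / 2 : ℝ)))
      (Metric.ball x 6) := by
  have h1 := sI_uh (Ψ := fun _ : Unit => Ψ i) (fun _ => hΨ i) hχ W z (3 / 2) (‖x‖ + 6)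
    (by norm_num)
  have h2 : (fun v => mM (fun _ : Unit => Ψ i) (fun p => |uh χ 1 W z p v| ^ (3 / 2 : ℝ))) =
      fun v => mean (Ψ i) (fun p => |uh χ 1 W z p v| ^ (3 / 2 : ℝ)) := by
    funext v
    simp [mM]
  rw [h2] at h1
  refine h1.mono_set fun v hv => ?_
  rw [Metric.mem_ball, dist_eq_norm] at hv ⊢
  rw [sub_zero]
  calc ‖v‖ = ‖(v - x) + x‖ := by rw [sub_add_cancel]
    _ ≤ ‖v - x‖ + ‖x‖ := norm_add_le _ _
    _ < ‖x‖ + 6 := by linarith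

private theorem fw_tri {x v y : E3} {a b c : ℝ} (hv : v ∈ Metric.ball x a)
    (hy : y ∈ Metric.ball v b) (h : a + b ≤ c) : y ∈ Metric.ball x c := by
  rw [Metric.mem_ball] at *
  linarith [dist_triangle y v x]

private theorem fw_in {ρ : ℝ} {x c : E3} (hc : ‖c‖ ≤ ρ) : x + c ∈ Metric.ball x (ρ + 1) := by
  rw [Metric.mem_ball, dist_eq_norm, add_sub_cancel_left]
  linarith

private theorem fw_half (a b η B : ℝ) (ha : 0 ≤ a) (hab : a ≤ b) (hη : 0 ≤ η) (hB : 0 ≤ B) :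
    a * (η / (b + 1)) * B ≤ η * B := by
  refine mul_le_mul_of_nonneg_right ?_ hB
  rw [mul_div_assoc', div_le_iff₀ (by linarith)]
  nlinarith

theorem fbS (q : ℕ) {θ : E3 → ℝ} (hθ : Cut θ) (η : ℝ) (hη : 0 < η) : ∃ C : ℝ, 0 ≤ C ∧
    ∀ (ι : Type) (_ : Fintype ι) (n k : ℕ) (Λ : Set E3)
    (Ψ : ι → (Fin n → Fin q) → Cfg n k → ℂ) (_ : ∀ i, St q n k Λ (Ψ i))
    (_ : ∑ i, mass (Ψ i) = 1) (x : E3) (B : ℝ)
    (_ : ∀ y ∈ Metric.ball x 80, Lm Ψ y B), SM θ Ψ x ≤ η * B + C := by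
  obtain ⟨C1, hC1, H1⟩ := ssP q hθ
  obtain ⟨Ct, hCt, Ht⟩ := fbt0 14 (by norm_num)
  obtain ⟨L0, hL0⟩ := pow_unbounded_of_one_lt (C1 * Ct * 2 / η) (one_lt_two (α := ℝ))
  obtain ⟨C', hC', H2⟩ := H1 L0
  obtain ⟨CM, hCM, HM⟩ := fbmm hθ (7 / 6) (by norm_num) (by norm_num)
    (η / 2 / (C' + 1)) (by positivity)
  obtain ⟨e, he⟩ : ∃ e : ℝ, e = C1 * ((2 : ℝ) ^ L0)⁻¹ := ⟨_, rfl⟩
  have he0 : 0 ≤ e := by rw [he]; positivity
  have he1 : e * Ct ≤ η / 2 := by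
    rw [div_lt_iff₀ hη] at hL0
    have h2 : (0 : ℝ) < 2 ^ L0 := by positivity
    rw [he, mul_assoc, mul_comm _ Ct, ← mul_assoc, ← div_eq_mul_inv,
      div_le_div_iff₀ h2 (by norm_num)]
    nlinarith
  refine ⟨e + C' * (1 + CM), by positivity, ?_⟩
  intro ι _ n k Λ Ψ hΨ h1 x B hL
  have hS : ∀ i, Sm q n k Λ (Ψ i) := fun i => St_sm (hΨ i)
  have hB0 := (fbe hS h1 x B (hL x (Metric.mem_ball_self (by norm_num)))).1
  have f1 : SM θ Ψ x ≤ e * (TM Ψ x 14 + 1) +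
      C' * (1 + mM Ψ (fun p => mm θ x p ^ (7 / 6 : ℝ))) := by
    calc SM θ Ψ x ≤ ∑ i, (e * ((TE (Ψ i) x 14 + TN (Ψ i) x 14) + mass (Ψ i)) +
          C' * (mass (Ψ i) + mean (Ψ i) (fun p => mm θ x p ^ (7 / 6 : ℝ)))) := by
          refine sum_le_sum fun i _ => ?_
          have h3 := H2 n k Λ (Ψ i) (hΨ i) x
          rw [← he] at h3
          have h4 := mul_nonneg he0 (TN_nonneg (Ψ i) x 14)
          linarith
      _ = _ := by
          have q1 : ∑ i, ((TE (Ψ i) x 14 + TN (Ψ i) x 14) + mass (Ψ i)) = TM Ψ x 14 + 1 := by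
            rw [sum_add_distrib, h1]
            rfl
          have q2 : ∑ i, (mass (Ψ i) + mean (Ψ i) (fun p => mm θ x p ^ (7 / 6 : ℝ))) =
              1 + mM Ψ (fun p => mm θ x p ^ (7 / 6 : ℝ)) := by
            rw [sum_add_distrib, h1]
            rfl
          rw [sum_add_distrib, ← mul_sum, ← mul_sum, q1, q2]
  have f2 : TM Ψ x 14 ≤ Ct * B := Ht ι _ q n k Λ Ψ hS h1 x B fun y hy =>
    (hL y (Metric.ball_subset_ball (by norm_num) hy)).t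
  have f3 := HM ι _ q n k Λ Ψ hS h1 x B fun y hy =>
    hL y (Metric.ball_subset_ball (by norm_num) hy)
  have g1 := mul_le_mul_of_nonneg_left f2 he0
  have g2 := mul_le_mul_of_nonneg_left f3 hC'
  have g3 := fw_half C' C' (η / 2) B hC' le_rfl (by positivity) hB0
  have g4 := mul_le_mul_of_nonneg_right he1 hB0
  nlinarith

theorem fbG (q : ℕ) (Ci zm zp : ℝ) (hCi : 0 ≤ Ci) (hzm : 0 < zm) {χ θ : E3 → ℝ} (hχ : Bump χ)
    (hθ : Cut θ) :
    ∃ C : ℝ, 0 ≤ C ∧ ∀ (ι : Type) (_ : Fintype ι) (n k : ℕ) (Λ : Set E3)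
    (z : Fin k → ℝ) (W : Finset E3) (Ψ : ι → (Fin n → Fin q) → Cfg n k → ℂ)
    (_ : Inb Ci zm zp q n k Λ z W χ θ Ψ) (x : E3)
    (_ : Metric.closedBall x 8 ⊆ Λ) (D : ℝ) (_ : 13 ≤ D) (B : ℝ)
    (_ : ∀ y ∈ Metric.ball x (D + 10), Lm Ψ y B),
    mM Ψ (fun p => cn p x 1 ^ (3 / 2 : ℝ)) ≤ C * (1 + B + (n + k) * (D ^ 4)⁻¹) := by
  obtain ⟨CU, hCU, HU⟩ := fbU q Ci zm zp hCi hzm hχ hθ
  obtain ⟨V, hV⟩ : ∃ V : ℝ, V = volume.real (Metric.ball (0 : E3) 6) := ⟨_, rfl⟩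
  have hV0 : 0 ≤ V := by rw [hV]; exact measureReal_nonneg
  obtain ⟨CQ, hCQ, HQ⟩ := cnP zm hzm hχ
  obtain ⟨CM, hCM, HM⟩ := fbM 7 (3 / 2) (by norm_num) (by norm_num) (by norm_num) 1 one_pos
  refine ⟨CQ * (V * CU + 1 + CM), by positivity, ?_⟩
  intro ι _ n k Λ z W Ψ hI x hx D hD B hL
  have hΨ : ∀ i, Sm q n k Λ (Ψ i) := fun i => St_sm (hI.st i)
  have hB0 := (fbe hΨ hI.one x B (hL x (Metric.mem_ball_self (by linarith)))).1
  have hX : 0 ≤ ((n : ℝ) + k) * (D ^ 4)⁻¹ := by positivity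
  have e1 : mM Ψ (fun p => cn p x 1 ^ (3 / 2 : ℝ)) ≤
      CQ * ((∫ v in Metric.ball x 6, mM Ψ (fun p => |uh χ 1 W z p v| ^ (3 / 2 : ℝ))) +
        mM Ψ (fun p => ce p x 7 ^ (3 / 2 : ℝ))) := by
    have e2 : ∫ v in Metric.ball x 6, mM Ψ (fun p => |uh χ 1 W z p v| ^ (3 / 2 : ℝ)) =
        ∑ i, ∫ v in Metric.ball x 6, mean (Ψ i) (fun p => |uh χ 1 W z p v| ^ (3 / 2 : ℝ)) := by
      unfold mM
      exact integral_finsetSum _ fun i _ => fw_int hΨ hχ W z x i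
    rw [e2]
    calc mM Ψ (fun p => cn p x 1 ^ (3 / 2 : ℝ)) ≤ ∑ i, (CQ * ((∫ v in Metric.ball x 6,
          mean (Ψ i) (fun p => |uh χ 1 W z p v| ^ (3 / 2 : ℝ))) +
          mean (Ψ i) (fun p => ce p x 7 ^ (3 / 2 : ℝ)))) :=
          sum_le_sum fun i _ => HQ q n k Λ z (fun j => (hI.hz j).1) hI.neu W (Ψ i) (hΨ i) x
      _ = _ := by
          rw [← mul_sum, sum_add_distrib]
          rfl
  have e3 : ∫ v in Metric.ball x 6, mM Ψ (fun p => |uh χ 1 W z p v| ^ (3 / 2 : ℝ)) ≤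
      V * (CU * (1 + B + (n + k) * (D ^ 4)⁻¹)) := by
    have hi : IntegrableOn (fun v => mM Ψ (fun p => |uh χ 1 W z p v| ^ (3 / 2 : ℝ)))
        (Metric.ball x 6) := by
      unfold mM
      exact integrable_finsetSum _ fun i _ => fw_int hΨ hχ W z x i
    calc _ ≤ ∫ _v in Metric.ball x 6, (CU * (1 + B + ((n : ℝ) + k) * (D ^ 4)⁻¹)) := by
          refine setIntegral_mono_on hi (integrableOn_const (hs := measure_ball_lt_top.ne))
            Metric.isOpen_ball.measurableSet fun v hv => ?_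
          refine HU ι _ n k Λ z W Ψ hI v ?_ D hD B fun y hy => hL y
            (fw_tri hv hy (by linarith))
          intro u hu
          refine hx ?_
          rw [Metric.mem_closedBall] at *
          rw [Metric.mem_ball] at hv
          linarith [dist_triangle u v x]
      _ = _ := by
          rw [setIntegral_const, smul_eq_mul, hV]
          unfold Measure.real
          rw [Measure.addHaar_ball_center]
  have e4 := HM ι _ q n k Λ Ψ hΨ hI.one x B fun y hy => hL y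
    (Metric.ball_subset_ball (by linarith) hy)
  have e5 : (∫ v in Metric.ball x 6, mM Ψ (fun p => |uh χ 1 W z p v| ^ (3 / 2 : ℝ))) +
        mM Ψ (fun p => ce p x 7 ^ (3 / 2 : ℝ)) ≤
      (V * CU + 1 + CM) * (1 + B + (n + k) * (D ^ 4)⁻¹) := by
    have g1 : 0 ≤ CM * (B + (n + k) * (D ^ 4)⁻¹) := by positivity
    nlinarith
  calc _ ≤ _ := e1
    _ ≤ CQ * ((V * CU + 1 + CM) * (1 + B + (n + k) * (D ^ 4)⁻¹)) :=
        mul_le_mul_of_nonneg_left e5 hCQ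
    _ = _ := by ring

theorem fbW (q : ℕ) (Ci zm zp : ℝ) (hCi : 0 ≤ Ci) (hzm : 0 < zm) {χ θ : E3 → ℝ} (hχ : Bump χ)
    (hθ : Cut θ) (η : ℝ) (hη : 0 < η) :
    ∃ C : ℝ, 0 ≤ C ∧ ∀ (ι : Type) (_ : Fintype ι) (n k : ℕ) (Λ : Set E3)
    (z : Fin k → ℝ) (W : Finset E3) (Ψ : ι → (Fin n → Fin q) → Cfg n k → ℂ)
    (_ : Inb Ci zm zp q n k Λ z W χ θ Ψ) (x : E3) (D : ℝ) (_ : 13 ≤ D)
    (_ : Metric.closedBall x (D + 9) ⊆ Λ) (B : ℝ)
    (_ : ∀ y ∈ Metric.ball x (2 * D + 80), Lm Ψ y B),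
    WM χ θ W z Ψ x ≤ η * B + C * (1 + (n + k) * (D ^ 4)⁻¹) := by
  obtain ⟨η1, hη1⟩ : ∃ η1 : ℝ, η1 = η / 5 / (Ci + 1) := ⟨_, rfl⟩
  have hη10 : 0 < η1 := by rw [hη1]; positivity
  obtain ⟨CA, hCA, HA⟩ := fbmm hθ (4 / 3) (by norm_num) (by norm_num) η1 hη10
  obtain ⟨CS, hCS, HS⟩ := fbS q hθ η1 hη10
  obtain ⟨CT, hCT, HT⟩ := fbt q Ci zm zp hCi hzm hχ hθ η1 hη10
  obtain ⟨CG, hCG, HG⟩ := fbG q Ci zm zp hCi hzm hχ hθ
  obtain ⟨t, ht, Hm⟩ := mixP hθ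
  obtain ⟨Cm, hCm, HX⟩ := Hm (η1 / (t.card * CG + 1)) (by positivity)
  obtain ⟨CB, hCB, HB⟩ := fbmm hθ (7 / 6) (by norm_num) (by norm_num)
    (η1 / (Cm + 1)) (by positivity)
  refine ⟨Ci * (1 + CA + CS + (η1 + Cm * (1 + CB)) + CT), by positivity, ?_⟩
  intro ι _ n k Λ z W Ψ hI x D hD hx B hL
  have hΨ : ∀ i, Sm q n k Λ (Ψ i) := fun i => St_sm (hI.st i)
  have hB0 := (fbe hΨ hI.one x B (hL x (Metric.mem_ball_self (by linarith)))).1
  have hX : 0 ≤ ((n : ℝ) + k) * (D ^ 4)⁻¹ := by positivity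
  obtain ⟨X, hXe⟩ : ∃ X : ℝ, X = ((n : ℝ) + k) * (D ^ 4)⁻¹ := ⟨_, rfl⟩
  rw [← hXe] at hX ⊢
  have a1 := hI.ww x fun u hu => hx (by
    rw [Metric.mem_closedBall] at *
    linarith)
  have a2 := HA ι _ q n k Λ Ψ hΨ hI.one x B fun y hy =>
    hL y (Metric.ball_subset_ball (by linarith) hy)
  have a3 := HS ι _ n k Λ Ψ hI.st hI.one x B fun y hy =>
    hL y (Metric.ball_subset_ball (by linarith) hy)
  have a4 := HT ι _ n k Λ z W Ψ hI x D hD hx B fun y hy =>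
    hL y (Metric.ball_subset_ball (by linarith) hy)
  rw [← hXe] at a4
  have a5 := HB ι _ q n k Λ Ψ hΨ hI.one x B fun y hy =>
    hL y (Metric.ball_subset_ball (by linarith) hy)
  have a6 : ∀ c ∈ t, mM Ψ (fun p => cn p (x + c) 1 ^ (3 / 2 : ℝ)) ≤ CG * (1 + B + X) := by
    intro c hc
    rw [hXe]
    have hc1 := fw_in (x := x) (ht c hc)
    refine HG ι _ n k Λ z W Ψ hI (x + c) ?_ D hD B fun y hy => hL y
      (fw_tri hc1 hy (by linarith))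
    intro u hu
    refine hx ?_
    rw [Metric.mem_closedBall] at *
    have hc2 : dist (x + c) x ≤ 14 := by
      rw [dist_eq_norm, add_sub_cancel_left]
      exact ht c hc
    linarith [dist_triangle u (x + c) x]
  have a7 : mM Ψ (fun p => (1 + mm θ x p ^ (1 / 6 : ℝ)) * (ce p x 14 + cn p x 14)) ≤
      η1 / (t.card * CG + 1) * (∑ c ∈ t, mM Ψ (fun p => cn p (x + c) 1 ^ (3 / 2 : ℝ))) +
        Cm * (1 + mM Ψ (fun p => mm θ x p ^ (7 / 6 : ℝ))) := by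
    calc _ ≤ ∑ i, (η1 / (t.card * CG + 1) *
          (∑ c ∈ t, mean (Ψ i) (fun p => cn p (x + c) 1 ^ (3 / 2 : ℝ))) +
          Cm * (mass (Ψ i) + mean (Ψ i) (fun p => mm θ x p ^ (7 / 6 : ℝ)))) :=
          sum_le_sum fun i _ => HX q n k Λ (Ψ i) (hΨ i) x
      _ = _ := by
          rw [sum_add_distrib, ← mul_sum, ← mul_sum, sum_add_distrib, hI.one, sum_comm]
          rfl
  have a8 : ∑ c ∈ t, mM Ψ (fun p => cn p (x + c) 1 ^ (3 / 2 : ℝ)) ≤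
      t.card * CG * (1 + B + X) := by
    calc _ ≤ ∑ _c ∈ t, CG * (1 + B + X) := sum_le_sum a6
      _ = _ := by rw [sum_const, nsmul_eq_mul]; ring
  have a9 : η1 / (t.card * CG + 1) * (∑ c ∈ t, mM Ψ (fun p => cn p (x + c) 1 ^ (3 / 2 : ℝ))) ≤
      η1 * (1 + B + X) := by
    have h1 : 0 ≤ η1 / (t.card * CG + 1) := by positivity
    have h2 := fw_half (t.card * CG) (t.card * CG) η1 (1 + B + X) (by positivity) le_rfl
      hη10.le (by positivity)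
    have h3 := mul_le_mul_of_nonneg_left a8 h1
    linarith
  have b1 := mul_le_mul_of_nonneg_left a5 hCm
  have b2 := fw_half Cm Cm η1 B hCm le_rfl hη10.le hB0
  have b3 : 1 + mM Ψ (fun p => mm θ x p ^ (4 / 3 : ℝ)) + SM θ Ψ x +
      mM Ψ (fun p => (1 + mm θ x p ^ (1 / 6 : ℝ)) * (ce p x 14 + cn p x 14)) +
      mM Ψ (fun p => tl 13 p x) ≤ 5 * η1 * B +
        (1 + CA + CS + (η1 + Cm * (1 + CB)) + CT) * (1 + X) := by
    have h1 : 0 ≤ (1 + CA + CS + Cm * (1 + CB)) * X := by positivity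
    nlinarith
  have b4 := mul_le_mul_of_nonneg_left b3 hCi
  have b5 : Ci * (5 * η1 * B) ≤ η * B := by
    have h1 := fw_half Ci Ci (η / 5) B hCi le_rfl (by positivity) hB0
    rw [← hη1] at h1
    linarith
  linarith

end H6.CT
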