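import Pool.Agent.H6.CT.InstL
import Pool.Agent.H6.CT.FbEnd
import Pool.Agent.H6.CT.BallPT
import Pool.Agent.H6.CL.Bt
import Pool.Agent.H6.CL.NearS
import Pool.Agent.H6.CL.Sph
import Pool.Agent.H6.CL.RefB
import Pool.Agent.H6.CB.ShellB

/-! The theorems for all temperatures. `bulkT`: `rf_sep` gives `Gt` (with `A = C ρ`); `instB`, `totT`, `fbEnd`, and `potT` for the potential (`ι = Fin m`). `ballT`: `ball_grid`, `rf_sep`; the volume of the ball is at most `Kv * n` because `(n : ℝ) + k ≥ ρ1 * R ^ 3` and `k ≤ n / zm`. `instT`, `bt`: `ShB R C Ψ`; `shlS`, `nearS`. (1) `ballPT` with `shlS`. (3) `fbEnd` (with `N1 ^ (3/10) ≤ C R ^ (9/10)`, `N1 = n + k + 1 ≤ ρ2 R ^ 3 + 1`) and (1). (4) as in `Pool/Agent/H6/CL/Fin.lean`: for `t ≤ 1`: `sph_in` and the bound for `t = 1`. For `1 ≤ t ≤ R / 2`: `sph`, with (3) at all points of `A t`, `A (t + 1)` and `cnt_loc` with the local bounds of `fbEnd`. For `R / 2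 ≤ t ≤ R - 10`: `sph`, (1) and (2) for the shells `A t`, `A (t + 1)`, `cnt_loc` and `ShB`. For `R - 10 ≤ t`: `sph_out`, `shl_loc`. -/

open MeasureTheory Finset

namespace H6.CT

open H6.CM H6.CB H6.CL

private theorem near_nn {n k : ℕ} (p : Cfg n k) (v : E3) : 0 ≤ near p v := by
  unfold near
  refine add_nonneg (sum_nonneg fun a _ => ?_) (sum_nonneg fun a _ => ?_)
  · split_ifs <;> positivity
  · split_ifs <;> positivity

/-- volumes of the shells -/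
private theorem volA : ∃ C : ℝ, 0 ≤ C ∧ (∀ r : ℝ, 0 ≤ r → volume (A r) ≠ ⊤ ∧
      volume.real (A r) ≤ C * (r + 1) ^ 2) ∧
    ∀ r R : ℝ, 0 ≤ r → r ≤ R + 1 → 1 ≤ R → volume.real (A r) ≤ C * R ^ 2 := by
  obtain ⟨C, hC, h⟩ := A_vol
  refine ⟨C, hC, fun r hr => ⟨?_, ?_⟩, fun r R hr h1 h2 => ?_⟩
  · exact ne_top_of_le_ne_top ENNReal.ofReal_ne_top (h r (r + 1) hr (by linarith) (by linarith))
  · exact ENNReal.toReal_le_of_le_ofReal (by positivity)
      (h r (r + 1) hr (by linarith) (by linarith))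
  · exact ENNReal.toReal_le_of_le_ofReal (by positivity) (h r R hr h1 h2)

/-- integral over a shell of a bounded function -/
private theorem intA {f : E3 → ℝ} {r c : ℝ} (hv : volume (A r) ≠ ⊤)
    (h : ∀ v ∈ A r, |f v| ≤ c) : |∫ v in A r, f v| ≤ c * volume.real (A r) := by
  have := norm_setIntegral_le_of_norm_le_const (μ := volume) (s := A r) (f := f) (C := c)
    (lt_top_iff_ne_top.2 hv) (fun v hv => by rw [Real.norm_eq_abs]; exact h v hv)
  rwa [Real.norm_eq_abs] at this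

/-- integral over a shell of a dominated function -/
private theorem intA2 {f g : E3 → ℝ} {r : ℝ} (hg : IntegrableOn g (A r))
    (h : ∀ v ∈ A r, |f v| ≤ g v) : |∫ v in A r, f v| ≤ ∫ v in A r, g v := by
  have := norm_integral_le_of_norm_le (μ := volume.restrict (A r)) (f := f) (g := g) hg
    ((ae_restrict_iff' (A_meas r)).2 (Filter.Eventually.of_forall fun v hv => by
      rw [Real.norm_eq_abs]; exact h v hv))
  rwa [Real.norm_eq_abs] at this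

private theorem A_ball {r s : ℝ} (h : r + 1 ≤ s) : A r ⊆ Metric.ball 0 s := by
  intro v hv
  rw [mem_ball_zero_iff]
  exact hv.2.trans_le h

private theorem ft_add {ι : Type} [Fintype ι] {q n k : ℕ}
    {Ψ : ι → (Fin n → Fin q) → Cfg n k → ℂ} {F G : Cfg n k → ℝ} (hF : ∀ i, IM (Ψ i) F)
    (hG : ∀ i, IM (Ψ i) G) : mM Ψ (fun p => F p + G p) = mM Ψ F + mM Ψ G := by
  unfold mM
  rw [← sum_add_distrib]
  exact sum_congr rfl fun i _ => mean_add (hF i) (hG i)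

private theorem ft_one {ι : Type} [Fintype ι] {q n k : ℕ}
    {Ψ : ι → (Fin n → Fin q) → Cfg n k → ℂ} (h1 : ∑ i, mass (Ψ i) = 1) :
    mM Ψ (fun _ => (1 : ℝ)) = 1 := by
  unfold mM
  simp only [mean_one]
  exact h1

private theorem ft_mono {ι : Type} [Fintype ι] {q n k : ℕ}
    {Ψ : ι → (Fin n → Fin q) → Cfg n k → ℂ} {F G : Cfg n k → ℝ} (hF : ∀ i, IM (Ψ i) F)
    (hG : ∀ i, IM (Ψ i) G) (h : ∀ p, F p ≤ G p) : mM Ψ F ≤ mM Ψ G :=
  sum_le_sum fun i _ => mean_mono (hF i) (hG i) fun _ p _ => h p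

/-- integrals of the local numbers over the shells -/
private theorem intG {ι : Type} [Fintype ι] {q n k : ℕ} {R B CA : ℝ}
    {Ψ : ι → (Fin n → Fin q) → Cfg n k → ℂ}
    (hS : ∀ i, Sm q n k (Metric.ball 0 R) (Ψ i)) (h1 : ∑ i, mass (Ψ i) = 1)
    (hB : ShB R B Ψ) {r : ℝ} (hr : 0 ≤ r) (hv : volume (A r) ≠ ⊤)
    (hV : volume.real (A r) ≤ CA * R ^ 2) :
    ∫ v in A r, mM Ψ (fun p => ce p v 1 + cn p v 1) ≤
      (CA + 2 * B) * R ^ 2 := by
  have i0 := (sI_sum (Ψ := Ψ) hS 1 (r + 1)).mono_set (A_ball le_rfl)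
  have i1 := (sI_ce (Ψ := Ψ) hS 1 (5 / 3) (r + 1) (by norm_num)).mono_set
    (A_ball le_rfl)
  have i2 := (sI_cn (Ψ := Ψ) hS 1 1 (r + 1) (by norm_num)).mono_set
    (A_ball le_rfl)
  simp only [Real.rpow_one] at i2
  have i3 : IntegrableOn (fun _ : E3 => (1 : ℝ)) (A r) := integrableOn_const (hs := hv)
  have key : ∫ v in A r, mM Ψ (fun p => ce p v 1 + cn p v 1) ≤
      ∫ v in A r, (1 + mM Ψ (fun p => ce p v 1 ^ (5 / 3 : ℝ)) +
        mM Ψ (fun p => cn p v 1)) := by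
    refine setIntegral_mono i0 ((i3.add i1).add i2) fun v => ?_
    simp only
    have c1 : ∀ i, IM (Ψ i) (fun _ : Cfg n k => (1 : ℝ)) := fun i =>
      IM.cont (hS i) continuous_const
    have c2 : ∀ i, IM (Ψ i) (fun p => ce p v 1 ^ (5 / 3 : ℝ)) := fun i =>
      IM_cet (hS i) v 1 _ (by norm_num)
    have c3 : ∀ i, IM (Ψ i) (fun p => cn p v 1) := fun i => IM_cn (hS i) v 1
    have e2 : mM Ψ (fun p => 1 + ce p v 1 ^ (5 / 3 : ℝ) + cn p v 1) =
        1 + mM Ψ (fun p => ce p v 1 ^ (5 / 3 : ℝ)) + mM Ψ (fun p => cn p v 1) := by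
      rw [ft_add (fun i => (c1 i).add (c2 i)) c3, ft_add c1 c2, ft_one h1]
    rw [← e2]
    refine ft_mono (fun i => (IM_ce (hS i) v 1).add (IM_cn (hS i) v 1))
      (fun i => ((c1 i).add (c2 i)).add (c3 i)) fun p => ?_
    have h2 := ce_nonneg p v 1
    have h3 : ce p v 1 ≤ 1 + ce p v 1 ^ (5 / 3 : ℝ) := by
      rcases le_total (ce p v 1) 1 with h | h
      · have := Real.rpow_nonneg h2 (5 / 3 : ℝ)
        linarith
      · have := Real.rpow_le_rpow_of_exponent_le h (show (1 : ℝ) ≤ 5 / 3 by norm_num)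
        rw [Real.rpow_one] at this
        linarith
    linarith
  refine key.trans ?_
  have i4 : IntegrableOn (fun v => 1 + mM Ψ
      (fun p => ce p v 1 ^ (5 / 3 : ℝ))) (A r) := i3.add i1
  rw [integral_add i4 i2, integral_add i3 i1]
  have a1 := hB.e r hr
  have a2 := hB.c r hr
  have a3 : ∫ _v in A r, (1 : ℝ) ≤ CA * R ^ 2 := by
    rw [setIntegral_const, smul_eq_mul, mul_one]
    exact hV
  linarith

private theorem shl_anti {n k : ℕ} {s t : ℝ} (h : s ≤ t) (p : Cfg n k) : shl t p ≤ shl s p := by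
  unfold shl
  refine add_le_add (sum_le_sum fun a _ => ?_) (sum_le_sum fun a _ => ?_)
  · split_ifs with h1 h2
    · exact le_rfl
    · exact absurd (h.trans_lt h1) h2
    · norm_num
    · exact le_rfl
  · split_ifs with h1 h2
    · exact le_rfl
    · exact absurd (h.trans_lt h1) h2
    · norm_num
    · exact le_rfl

private theorem shl_nn {n k : ℕ} (s : ℝ) (p : Cfg n k) : 0 ≤ shl s p := by
  unfold shl
  refine add_nonneg (sum_nonneg fun a _ => ?_) (sum_nonneg fun a _ => ?_)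
  · split_ifs <;> norm_num
  · split_ifs <;> norm_num

private theorem IM_shl {q n k : ℕ} {Λ : Set E3} {ψ : (Fin n → Fin q) → Cfg n k → ℂ}
    (hS : Sm q n k Λ ψ) (s : ℝ) : IM ψ (fun p => shl s p) := by
  refine IM.bdd hS ?_ ((n : ℝ) + k) fun p => ?_
  · refine Measurable.add ?_ ?_
    · refine Finset.measurable_fun_sum _ fun a _ => ?_
      exact Measurable.ite (measurableSet_lt measurable_const (meas_e a).norm)
        measurable_const measurable_const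
    · refine Finset.measurable_fun_sum _ fun a _ => ?_
      exact Measurable.ite (measurableSet_lt measurable_const (meas_n a).norm)
        measurable_const measurable_const
  · rw [abs_of_nonneg (shl_nn s p)]
    unfold shl
    refine add_le_add ?_ ?_
    · have : ∑ a, (if s < ‖p.1 a‖ then (1 : ℝ) else 0) ≤ ∑ _a : Fin n, (1 : ℝ) :=
        sum_le_sum fun a _ => by split_ifs <;> norm_num
      simpa using this
    · have : ∑ a, (if s < ‖p.2 a‖ then (1 : ℝ) else 0) ≤ ∑ _a : Fin k, (1 : ℝ) :=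
        sum_le_sum fun a _ => by split_ifs <;> norm_num
      simpa using this

/-- sum over five shells -/
private theorem five {G : E3 → ℝ} (hG : ∀ v, 0 ≤ G v)
    (hi : ∀ s, IntegrableOn G (Metric.ball 0 s)) {M t : ℝ} (ht : 1 ≤ t)
    (hM : ∀ r : ℝ, t - 1 ≤ r → r ≤ t + 3 → ∫ v in A r, G v ≤ M) :
    ∫ v in shc (t - 1) (t + 3), G v ≤ 5 * M := by
  have := shc_le G hG hi M (t - 1) (by linarith) 5 (fun i hi => ?_) (shc (t - 1) (t + 3))
    (fun v hv => ⟨hv.1, ?_⟩)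
  · exact_mod_cast this
  · have h1 : (i : ℝ) ≤ 4 := by exact_mod_cast (by omega : i ≤ 4)
    have h2 : (0 : ℝ) ≤ i := Nat.cast_nonneg i
    exact hM _ (by linarith) (by linarith)
  · have := hv.2
    push_cast
    linarith

private theorem sq_le {t a b : ℝ} (ht : 1 ≤ t) (ha : 0 ≤ a) (hb : 1 + a ≤ b) :
    (t + a) ^ 2 ≤ b ^ 2 * t ^ 2 := by
  rw [← mul_pow]
  refine pow_le_pow_left₀ (by linarith) ?_ 2
  nlinarith

/-- the bounds for the averages over spheres -/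
private theorem sphB (zp Cf D1 D2 D3 B : ℝ) (hCf : 0 ≤ Cf) (hD1 : 0 ≤ D1) (hD2 : 0 ≤ D2)
    (hD3 : 0 ≤ D3) (hB : 0 ≤ B) : ∃ E : ℝ, 0 ≤ E ∧ ∀ (q n k : ℕ) (R : ℝ) (_ : 100 ≤ R)
    (z : Fin k → ℝ) (_ : ∀ j, 0 ≤ z j ∧ z j ≤ zp) (_ : ∑ j, z j = n)
    (ι : Type) (_ : Fintype ι) (Ψ : ι → (Fin n → Fin q) → Cfg n k → ℂ)
    (_ : ∀ i, Sm q n k (Metric.ball 0 R) (Ψ i)) (_ : ∑ i, mass (Ψ i) = 1)
    (_ : ShB R B Ψ)
    (_ : ∀ v : E3, ‖v‖ ≤ R / 2 + 4 → |mM Ψ (fun p => phi z p v)| ≤ D3 ∧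
      mM Ψ (fun p => ce p v 1 + cn p v 1) ≤ Cf ∧ mM Ψ (fun p => near p v) ≤ Cf)
    (_ : ∀ v : E3, Metric.closedBall v 2 ⊆ Metric.ball 0 R →
      |mM Ψ (fun p => phi z p v)| ≤ D1 * (1 + mM Ψ (fun p => near p v)))
    (_ : ∀ r : ℝ, 0 ≤ r → IntegrableOn (fun v => mM Ψ (fun p => near p v)) (A r) ∧
      ∫ v in A r, mM Ψ (fun p => near p v) ≤ D2 * R ^ 2)
    (t : ℝ) (_ : 0 < t), |Ph z Ψ t| ≤ E := by
  obtain ⟨Cp, hCp, hsph⟩ := sph zp
  obtain ⟨CA, hCA, hvol, hvol2⟩ := volA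
  obtain ⟨E1, hE1⟩ : ∃ E1, E1 = Cp * (4 * (D3 * CA) + 9 * (D3 * CA) + 125 * (Cf * CA)) :=
    ⟨_, rfl⟩
  obtain ⟨E2, hE2⟩ : ∃ E2, E2 = Cp * (4 * (2 * (D1 * (CA + D2)) + 5 * (CA + 2 * B))) := ⟨_, rfl⟩
  obtain ⟨E3', hE3⟩ : ∃ E3', E3' = (1 + |zp|) * (40 * (13 * (CA + 2 * B))) := ⟨_, rfl⟩
  have hE10 : 0 ≤ E1 := by rw [hE1]; positivity
  have hE20 : 0 ≤ E2 := by rw [hE2]; positivity
  have hE30 : 0 ≤ E3' := by rw [hE3]; positivity
  have hzp : 0 ≤ (1 + |zp|) * Cf := by positivity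
  refine ⟨E1 + E2 + E3' + (1 + |zp|) * Cf, by positivity, ?_⟩
  intro q n k R hR z hz hn ι _ Ψ hS hm hShB hin hpt hnr t ht
  have hS' := hS
  have hG0 : ∀ v : E3, 0 ≤ mM Ψ (fun p => ce p v 1 + cn p v 1) := fun v =>
    mM_nonneg _ fun p => add_nonneg (ce_nonneg p v 1) (cn_nonneg p v 1)
  have hGi : ∀ s, IntegrableOn (fun v => mM Ψ
      (fun p => ce p v 1 + cn p v 1)) (Metric.ball 0 s) := fun s => sI_sum hS' 1 s
  -- small radii
  have hsmall : ∀ t : ℝ, 1 ≤ t → t ≤ R / 2 → |Ph z Ψ t| ≤ E1 := by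
    intro t ht1 ht2
    have h0 := hsph ι inferInstance q n k (Metric.ball 0 R) z hz Ψ hS' t ht1
    have ht2' : (0 : ℝ) < t ^ 2 := by positivity
    have a1 : |∫ v in A t, mM Ψ (fun p => phi z p v)| ≤
        4 * (D3 * CA) * t ^ 2 := by
      refine (intA (c := D3) (hvol t (by linarith)).1 fun v hv => ?_).trans ?_
      · exact (hin v (by have := hv.2; linarith)).1
      · have h1 := (hvol t (by linarith)).2
        have h2 := sq_le ht1 zero_le_one (show (1 : ℝ) + 1 ≤ 2 by norm_num)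
        calc D3 * volume.real (A t) ≤ D3 * (CA * (2 ^ 2 * t ^ 2)) :=
              mul_le_mul_of_nonneg_left (h1.trans (mul_le_mul_of_nonneg_left h2 hCA)) hD3
          _ = _ := by ring
    have a2 : |∫ v in A (t + 1), mM Ψ (fun p => phi z p v)| ≤
        9 * (D3 * CA) * t ^ 2 := by
      refine (intA (c := D3) (hvol (t + 1) (by linarith)).1 fun v hv => ?_).trans ?_
      · exact (hin v (by have := hv.2; linarith)).1
      · have h1 := (hvol (t + 1) (by linarith)).2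
        have h2 := sq_le ht1 zero_le_two (show (1 : ℝ) + 2 ≤ 3 by norm_num)
        have h3 : t + 1 + 1 = t + 2 := by ring
        rw [h3] at h1
        calc D3 * volume.real (A (t + 1)) ≤ D3 * (CA * (3 ^ 2 * t ^ 2)) :=
              mul_le_mul_of_nonneg_left (h1.trans (mul_le_mul_of_nonneg_left h2 hCA)) hD3
          _ = _ := by ring
    have a3 : mM Ψ (fun p => cS t p) ≤ 125 * (Cf * CA) * t ^ 2 := by
      refine (cnt_loc hS' t ht1).trans ?_
      refine (five hG0 hGi ht1 (M := 25 * (Cf * CA) * t ^ 2) fun r hr1 hr2 => ?_).trans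
        (le_of_eq (by ring))
      refine (le_abs_self _).trans ((intA (c := Cf) (hvol r (by linarith)).1
        fun v hv => ?_).trans ?_)
      · rw [abs_of_nonneg (hG0 v)]
        exact (hin v (by have := hv.2; linarith)).2.1
      · have h1 := (hvol r (by linarith)).2
        have h4 : (r + 1) ^ 2 ≤ (t + 4) ^ 2 := pow_le_pow_left₀ (by linarith) (by linarith) 2
        have h2 := h4.trans (sq_le ht1 (show (0 : ℝ) ≤ 4 by norm_num)
          (show (1 : ℝ) + 4 ≤ 5 by norm_num))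
        calc Cf * volume.real (A r) ≤ Cf * (CA * (5 ^ 2 * t ^ 2)) :=
              mul_le_mul_of_nonneg_left (h1.trans (mul_le_mul_of_nonneg_left h2 hCA)) hCf
          _ = _ := by ring
    refine h0.trans ?_
    calc Cp * (t ^ 2)⁻¹ * (|∫ v in A t, mM Ψ (fun p => phi z p v)| +
      |∫ v in A (t + 1), mM Ψ (fun p => phi z p v)| +
      mM Ψ (fun p => cS t p)) ≤ Cp * (t ^ 2)⁻¹ *
          (4 * (D3 * CA) * t ^ 2 + 9 * (D3 * CA) * t ^ 2 + 125 * (Cf * CA) * t ^ 2) :=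
          mul_le_mul_of_nonneg_left (by linarith) (by positivity)
      _ = E1 := by rw [hE1]; field_simp
  -- integrals over the shells up to the boundary
  have hGR : ∀ r : ℝ, 0 ≤ r → r ≤ R + 1 →
      ∫ v in A r, mM Ψ (fun p => ce p v 1 + cn p v 1) ≤
        (CA + 2 * B) * R ^ 2 := fun r hr0 hr1 =>
    intG hS hm hShB hr0 (hvol r hr0).1 (hvol2 r R hr0 hr1 (by linarith))
  have hmid : ∀ t : ℝ, 1 ≤ t → R / 2 ≤ t → t ≤ R - 10 → |Ph z Ψ t| ≤ E2 := by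
    intro t ht1 ht2 ht3
    have h0 := hsph ι inferInstance q n k (Metric.ball 0 R) z hz Ψ hS' t ht1
    have ht2' : (0 : ℝ) < t ^ 2 := by positivity
    have hRt : R ^ 2 ≤ 4 * t ^ 2 := by nlinarith
    have a1 : ∀ s : ℝ, 0 ≤ s → s ≤ t + 1 →
        |∫ v in A s, mM Ψ (fun p => phi z p v)| ≤
        D1 * (CA + D2) * R ^ 2 := by
      intro s hs0 hs1
      have i3 : IntegrableOn (fun _ : E3 => (1 : ℝ)) (A s) :=
        integrableOn_const (hs := (hvol s hs0).1)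
      have i4 := hnr s hs0
      refine (intA2 (g := fun v => D1 * (1 + mM Ψ (fun p => near p v)))
        ((i3.add i4.1).const_mul D1) fun v hv => ?_).trans ?_
      · refine hpt v ?_
        intro w hw
        rw [Metric.mem_closedBall, dist_eq_norm] at hw
        rw [mem_ball_zero_iff]
        have h1 : ‖w‖ ≤ ‖w - v‖ + ‖v‖ := by
          calc ‖w‖ = ‖(w - v) + v‖ := by rw [sub_add_cancel]
            _ ≤ _ := norm_add_le _ _
        have h2 := hv.2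
        linarith
      · rw [integral_const_mul, integral_add i3 i4.1, setIntegral_const, smul_eq_mul, mul_one]
        have h1 := hvol2 s R hs0 (by linarith) (by linarith)
        calc D1 * (volume.real (A s) + ∫ v in A s, mM Ψ (fun p => near p v)) ≤
            D1 * (CA * R ^ 2 + D2 * R ^ 2) := mul_le_mul_of_nonneg_left (by linarith [i4.2]) hD1
          _ = _ := by ring
    have a3 : mM Ψ (fun p => cS t p) ≤ 5 * ((CA + 2 * B) * R ^ 2) := by
      refine (cnt_loc hS' t ht1).trans ?_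
      exact five hG0 hGi ht1 fun r hr1 hr2 => hGR r (by linarith) (by linarith)
    refine h0.trans ?_
    calc Cp * (t ^ 2)⁻¹ * (|∫ v in A t, mM Ψ (fun p => phi z p v)| +
      |∫ v in A (t + 1), mM Ψ (fun p => phi z p v)| +
      mM Ψ (fun p => cS t p)) ≤ Cp * (t ^ 2)⁻¹ *
          ((2 * (D1 * (CA + D2)) + 5 * (CA + 2 * B)) * R ^ 2) := by
          refine mul_le_mul_of_nonneg_left ?_ (by positivity)
          have b1 := a1 t (by linarith) (by linarith)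
          have b2 := a1 (t + 1) (by linarith) le_rfl
          linarith
      _ ≤ Cp * (t ^ 2)⁻¹ * ((2 * (D1 * (CA + D2)) + 5 * (CA + 2 * B)) * (4 * t ^ 2)) := by
          refine mul_le_mul_of_nonneg_left ?_ (by positivity)
          exact mul_le_mul_of_nonneg_left hRt (by positivity)
      _ = E2 := by rw [hE2]; field_simp
  have hout : ∀ t : ℝ, R - 10 ≤ t → |Ph z Ψ t| ≤ E3' := by
    intro t ht1
    have ht0 : 0 < t := by linarith
    have h0 := sph_out zp z hz hn (Ψ := Ψ) hS' t ht0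
    have ht2' : (0 : ℝ) < t ^ 2 := by positivity
    have hRt : R ^ 2 ≤ 4 * t ^ 2 := by nlinarith
    have a1 : mM Ψ (fun p => shl t p) ≤
        13 * ((CA + 2 * B) * R ^ 2) := by
      have b1 : mM Ψ (fun p => shl t p) ≤
          mM Ψ (fun p => shl (R - 10) p) := by
        exact ft_mono (fun i => IM_shl (hS i) t) (fun i => IM_shl (hS i) (R - 10)) fun p =>
          shl_anti ht1 p
      refine b1.trans ((shl_loc hS' (R - 10)).trans ?_)
      have := shc_le _ hG0 hGi ((CA + 2 * B) * R ^ 2) (R - 11) (by linarith) 13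
        (fun i hi => ?_) (shc (R - 10 - 1) (R + 1)) (fun v hv => ⟨?_, ?_⟩)
      · exact_mod_cast this
      · have h1 : (i : ℝ) ≤ 12 := by exact_mod_cast (by omega : i ≤ 12)
        have h2 : (0 : ℝ) ≤ i := Nat.cast_nonneg i
        exact hGR _ (by linarith) (by linarith)
      · have := hv.1
        linarith
      · have := hv.2
        push_cast
        linarith
    have a2 : max (R - t) 0 ≤ 10 := max_le (by linarith) (by norm_num)
    have a3 : 0 ≤ mM Ψ (fun p => shl t p) := mM_nonneg _ fun p => shl_nn t p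
    refine h0.trans ?_
    calc (1 + |zp|) * (max (R - t) 0 * (t ^ 2)⁻¹) * mM Ψ (fun p => shl t p)
        ≤ (1 + |zp|) * (10 * (t ^ 2)⁻¹) * (13 * ((CA + 2 * B) * R ^ 2)) := by
          refine mul_le_mul ?_ a1 a3 (by positivity)
          refine mul_le_mul_of_nonneg_left ?_ (by positivity)
          exact mul_le_mul_of_nonneg_right a2 (by positivity)
      _ ≤ (1 + |zp|) * (10 * (t ^ 2)⁻¹) * (13 * ((CA + 2 * B) * (4 * t ^ 2))) := by
          refine mul_le_mul_of_nonneg_left ?_ (by positivity)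
          refine mul_le_mul_of_nonneg_left ?_ (by norm_num)
          exact mul_le_mul_of_nonneg_left hRt (by positivity)
      _ = E3' := by rw [hE3]; field_simp; ring
  rcases le_total t 1 with h1 | h1
  · have b1 := sph_in zp z hz (Ψ := Ψ) hS' t ht h1
    have b2 := hsmall 1 le_rfl (by linarith)
    have b3 : mM Ψ (fun p => near p 0) ≤ Cf := by
      exact (hin 0 (by rw [norm_zero]; linarith)).2.2
    have b4 : (1 + |zp|) * mM Ψ (fun p => near p 0) ≤ (1 + |zp|) * Cf :=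
      mul_le_mul_of_nonneg_left b3 (by positivity)
    have b5 := abs_sub_abs_le_abs_sub (Ph z Ψ t) (Ph z Ψ 1)
    linarith
  · rcases le_total t (R / 2) with h2 | h2
    · have := hsmall t h1 h2
      linarith
    · rcases le_total t (R - 10) with h3 | h3
      · have := hmid t h1 h2 h3
        linarith
      · have := hout t h3
        linarith

theorem bulkT (q : ℕ) (T zm zp κm κp ρ Kv : ℝ) (hT : 0 ≤ T) (hzm : 0 < zm)
    (hκm : 0 < κm) (hρ : 0 < ρ) (hKv : 0 ≤ Kv) :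
    ∃ C : ℝ, ∀ (Λ : Set E3) (n k : ℕ) (z κ : Fin k → ℝ),
      MeasurableSet Λ → Bornology.IsBounded Λ → (volume Λ).toReal ≤ Kv * n →
      (∀ j, zm ≤ z j ∧ z j ≤ zp) → (∀ j, κm ≤ κ j ∧ κ j ≤ κp) → ∑ j, z j = n →
      ∀ W : Finset E3, W.Nonempty → (∀ w ∈ W, Metric.closedBall w 2 ⊆ Λ) →
      (∀ w ∈ W, ∀ w' ∈ W, w ≠ w' → 4 ≤ dist w w') → (n : ℝ) + k ≤ ρ * W.card →
      ∀ (m : ℕ) (Ψ : Fin m → (Fin n → Fin q) → Cfg n k → ℂ),
      Eqs T (((n : ℝ) + k + 1) ^ 4)⁻¹ Λ z κ Ψ →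
      ∀ x : E3, Metric.closedBall x (C * ((n : ℝ) + k + 1) ^ (3 / 10 : ℝ)) ⊆ Λ →
        TM Ψ x 1 ≤ C ∧ mM Ψ (fun p => ce p x 1 ^ (5 / 3 : ℝ)) ≤ C ∧
        mM Ψ (fun p => cn p x 1) ≤ C ∧ mM Ψ (fun p => near p x) ≤ C ∧
        ∀ y : E3, Metric.closedBall y (C * ((n : ℝ) + k + 1) ^ (3 / 10 : ℝ)) ⊆ Λ →
          |mM Ψ (fun p => phi z p x) - mM Ψ (fun p => phi z p y)| ≤ C := by
  obtain ⟨C0, hC0, hrf⟩ := rf_sep
  obtain ⟨χ, hχ⟩ := bump_ex
  obtain ⟨θ, hθ⟩ := cut_ex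
  have hA0 : 0 ≤ C0 * ρ := by positivity
  obtain ⟨Ci, hCi, hinst⟩ := instB q T zm zp κm κp (C0 * ρ) Kv hT hzm hκm hA0 hKv hχ hθ
  obtain ⟨Kt, hKt, htot⟩ := totT q T zm zp κm κp (C0 * ρ) Kv hT hzm hκm hA0 hKv hχ
  obtain ⟨Cb, hCb, hbulk⟩ := fbEnd q Ci zm zp hCi hzm hχ hθ Kt hKt
  obtain ⟨Cp, hCp, hpot⟩ := potT q T zm zp κm κp (C0 * ρ) Kv hT hzm hκm hA0 hKv hχ
  have hP : 0 ≤ 2 * (Cp * (1 + Cb)) := by positivity
  refine ⟨2000 + Cb + 2 * (Cp * (1 + Cb)), ?_⟩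
  intro Λ n k z κ hm hb hV hz hκ hneu W hW hWΛ hWs hcard m Ψ hE x hx
  have hN1 : (1 : ℝ) ≤ (n : ℝ) + k + 1 := by
    have h1 : (0 : ℝ) ≤ n := Nat.cast_nonneg n
    have h2 : (0 : ℝ) ≤ k := Nat.cast_nonneg k
    linarith
  have hN4 : (1 : ℝ) ≤ ((n : ℝ) + k + 1) ^ 4 := one_le_pow₀ hN1
  have hδ0 : 0 ≤ (((n : ℝ) + k + 1) ^ 4)⁻¹ := by positivity
  have hδ1 : (((n : ℝ) + k + 1) ^ 4)⁻¹ ≤ 1 := inv_le_one_of_one_le₀ hN4
  have hN3 : (1 : ℝ) ≤ ((n : ℝ) + k + 1) ^ (3 / 10 : ℝ) := Real.one_le_rpow hN1 (by norm_num)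
  have hG : Gt q T zm zp κm κp (C0 * ρ) Kv n k Λ z κ W (((n : ℝ) + k + 1) ^ 4)⁻¹ Ψ :=
    { hz := hz
      hκ := hκ
      neu := hneu
      hm := hm
      hb := hb
      hV := hV
      hδ := hδ0
      eq := hE
      rf := fun i => hrf q n k Λ (Ψ i) ρ hρ.le W hW hWΛ hWs hcard }
  have hI := hinst (Fin m) inferInstance n k Λ z κ W _ Ψ hG le_rfl
  have hTT := htot (Fin m) inferInstance n k Λ z κ W _ Ψ hG hδ1
  have hsub : ∀ y : E3, Metric.closedBall y ((2000 + Cb + 2 * (Cp * (1 + Cb))) *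
      ((n : ℝ) + k + 1) ^ (3 / 10 : ℝ)) ⊆ Λ →
      Metric.closedBall y (2000 * ((n : ℝ) + k + 1) ^ (3 / 10 : ℝ)) ⊆ Λ ∧
      Metric.closedBall y 2 ⊆ Λ := by
    intro y hy
    have h1 : 0 ≤ (Cb + 2 * (Cp * (1 + Cb))) * ((n : ℝ) + k + 1) ^ (3 / 10 : ℝ) := by positivity
    exact ⟨(Metric.closedBall_subset_closedBall (by linarith)).trans hy,
      (Metric.closedBall_subset_closedBall (by linarith)).trans hy⟩
  have hall : ∀ y : E3, Metric.closedBall y ((2000 + Cb + 2 * (Cp * (1 + Cb))) *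
      ((n : ℝ) + k + 1) ^ (3 / 10 : ℝ)) ⊆ Λ → Lm Ψ y Cb ∧ mM Ψ (fun p => near p y) ≤ Cb ∧
      |mM Ψ (fun p => phi z p y) - mM Ψ (fun p => pr χ W z p)| ≤ Cp * (1 + Cb) := by
    intro y hy
    obtain ⟨h1, h2⟩ := hbulk (Fin m) inferInstance n k Λ z W Ψ hI hTT y (hsub y hy).1
    refine ⟨h1, h2, ?_⟩
    refine (hpot (Fin m) inferInstance n k Λ z κ W _ Ψ hG hδ1 y (hsub y hy).2).trans ?_
    exact mul_le_mul_of_nonneg_left (by linarith) hCp
  obtain ⟨h1, h2, h3⟩ := hall x hx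
  refine ⟨h1.t.trans (by linarith), h1.e.trans (by linarith), h1.c.trans (by linarith),
    h2.trans (by linarith), fun y hy => ?_⟩
  obtain ⟨_, _, h6⟩ := hall y hy
  have h7 := abs_sub_le (mM Ψ (fun p => phi z p x)) (mM Ψ (fun p => pr χ W z p))
    (mM Ψ (fun p => phi z p y))
  rw [abs_sub_comm (mM Ψ (fun p => pr χ W z p))] at h7
  linarith

theorem ballT (q : ℕ) (T zm zp κm κp ρ1 ρ2 : ℝ) (hT : 0 ≤ T) (hzm : 0 < zm)
    (hκm : 0 < κm) (hρ1 : 0 < ρ1) :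
    ∃ C : ℝ, ∀ (R : ℝ) (n k : ℕ) (z κ : Fin k → ℝ), C ≤ R → ρ1 * R ^ 3 ≤ (n : ℝ) + k →
      (n : ℝ) + k ≤ ρ2 * R ^ 3 →
      (∀ j, zm ≤ z j ∧ z j ≤ zp) → (∀ j, κm ≤ κ j ∧ κ j ≤ κp) → ∑ j, z j = n →
      ∀ (m : ℕ) (Ψ : Fin m → (Fin n → Fin q) → Cfg n k → ℂ),
      Eqs T (((n : ℝ) + k + 1) ^ 4)⁻¹ (Metric.ball 0 R) z κ Ψ →
      (∀ x : E3, Metric.closedBall x 2 ⊆ Metric.ball 0 R →
        |mM Ψ (fun p => phi z p x)| ≤ C * (1 + mM Ψ (fun p => near p x))) ∧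
      (∀ r : ℝ, 0 ≤ r → ∫ v in A r, mM Ψ (fun p => near p v) ≤ C * R ^ 2) ∧
      (∀ x : E3, ‖x‖ + C * R ^ (9 / 10 : ℝ) ≤ R →
        |mM Ψ (fun p => phi z p x)| ≤ C ∧ mM Ψ (fun p => near p x) ≤ C) ∧
      (∀ t : ℝ, 0 < t → |mM Ψ (fun p => ∑ j, z j * (max t ‖p.2 j‖)⁻¹ -
        ∑ a, (max t ‖p.1 a‖)⁻¹)| ≤ C) := by
  obtain ⟨c, hc, hgrid⟩ := ball_grid
  obtain ⟨C0, hC0, hrf⟩ := rf_sep
  obtain ⟨χ, hχ⟩ := bump_ex
  obtain ⟨θ, hθ⟩ := cut_ex
  obtain ⟨ρ, hρe⟩ : ∃ ρ : ℝ, ρ = |ρ2| := ⟨_, rfl⟩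
  have hρ : 0 ≤ ρ := by rw [hρe]; exact abs_nonneg _
  obtain ⟨Kv, hKve⟩ : ∃ Kv : ℝ, Kv = Real.pi * 4 / 3 * ((1 + zm⁻¹) / ρ1) := ⟨_, rfl⟩
  have hKv : 0 ≤ Kv := by
    rw [hKve]
    have := Real.pi_pos
    positivity
  obtain ⟨A0, hA0e⟩ : ∃ A0 : ℝ, A0 = C0 * (ρ / c) := ⟨_, rfl⟩
  have hA0 : 0 ≤ A0 := by rw [hA0e]; positivity
  obtain ⟨Ci, hCi, hinst⟩ := instT q T zm zp κm κp A0 Kv hT hzm hκm hA0 hKv hχ hθ
  obtain ⟨B, hB, hbt⟩ := bt q Ci zm zp hzm hCi hχ hθ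
  obtain ⟨Cs, hCs, hshl⟩ := shlS
  obtain ⟨Cn, hCn, hnear⟩ := nearS
  obtain ⟨Cm, hCm, hmain⟩ := ballPT q T zm zp κm κp A0 Kv hT hzm hκm hA0 hKv hχ
  obtain ⟨Ci', hCi', hinst'⟩ := instB q T zm zp κm κp A0 Kv hT hzm hκm hA0 hKv hχ hθ
  obtain ⟨Kt, hKt, htot⟩ := totT q T zm zp κm κp A0 Kv hT hzm hκm hA0 hKv hχ
  obtain ⟨Cb, hCb, hbulk⟩ := fbEnd q Ci' zm zp hCi' hzm hχ hθ Kt hKt
  obtain ⟨Cf, hCfe⟩ : ∃ Cf : ℝ, Cf = 1 + 2 * Cb := ⟨_, rfl⟩
  have hCf : 0 ≤ Cf := by rw [hCfe]; positivity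
  obtain ⟨D1, hD1⟩ : ∃ D1, D1 = Cm * (1 + Cs * (B + 1)) := ⟨_, rfl⟩
  obtain ⟨D2, hD2⟩ : ∃ D2, D2 = Cn * (B + 1) := ⟨_, rfl⟩
  have hD10 : 0 ≤ D1 := by rw [hD1]; positivity
  have hD20 : 0 ≤ D2 := by rw [hD2]; positivity
  have hD30 : 0 ≤ D1 * (1 + Cf) := by positivity
  obtain ⟨E, hE, hsphB⟩ := sphB zp Cf D1 D2 (D1 * (1 + Cf)) B hCf hD10 hD20 hD30 hB
  obtain ⟨K, hK⟩ : ∃ K, K = 2000 * (ρ + 1) ^ (3 / 10 : ℝ) + 1 := ⟨_, rfl⟩
  have hK1 : 1 ≤ K := by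
    rw [hK]
    have : 0 ≤ (ρ + 1) ^ (3 / 10 : ℝ) := by positivity
    linarith
  have hK10 : 0 ≤ (4 * K) ^ 10 := by positivity
  obtain ⟨C, hC⟩ : ∃ C, C = 100 + D1 + D2 + D1 * (1 + Cf) + Cf + K + (4 * K) ^ 10 + E :=
    ⟨_, rfl⟩
  have c1 : 100 ≤ C := by rw [hC]; linarith
  have c2 : D1 ≤ C := by rw [hC]; linarith
  have c3 : D2 ≤ C := by rw [hC]; linarith
  have c4 : D1 * (1 + Cf) ≤ C := by rw [hC]; linarith
  have c5 : Cf ≤ C := by rw [hC]; linarith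
  have c6 : K ≤ C := by rw [hC]; linarith
  have c7 : (4 * K) ^ 10 ≤ C := by rw [hC]; linarith
  have c8 : E ≤ C := by rw [hC]; linarith
  refine ⟨C, ?_⟩
  intro R n k z κ hCR hnk1 hnk2 hz hκ hneu m Ψ hEq
  have hR : 100 ≤ R := c1.trans hCR
  have hR0 : 0 < R := by linarith
  have hnk : (n : ℝ) + k ≤ ρ * R ^ 3 := by
    refine hnk2.trans (mul_le_mul_of_nonneg_right ?_ (by positivity))
    rw [hρe]
    exact le_abs_self _
  have hS : ∀ i, Sm q n k (Metric.ball 0 R) (Ψ i) := fun i => St_sm (hEq.st i)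
  have hz0 : ∀ j, 0 ≤ z j ∧ z j ≤ zp := fun j => ⟨hzm.le.trans (hz j).1, (hz j).2⟩
  have hn0 : (0 : ℝ) ≤ n := Nat.cast_nonneg n
  have hk0 : (0 : ℝ) ≤ k := Nat.cast_nonneg k
  have hN1 : (1 : ℝ) ≤ (n : ℝ) + k + 1 := by linarith
  have hN4 : (1 : ℝ) ≤ ((n : ℝ) + k + 1) ^ 4 := one_le_pow₀ hN1
  have hδ0 : 0 ≤ (((n : ℝ) + k + 1) ^ 4)⁻¹ := by positivity
  have hδ1 : (((n : ℝ) + k + 1) ^ 4)⁻¹ ≤ 1 := inv_le_one_of_one_le₀ hN4
  obtain ⟨W, hW, hWΛ, hWs, hWc⟩ := hgrid R hR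
  have hcard : (n : ℝ) + k ≤ ρ / c * W.card := by
    refine hnk.trans ?_
    rw [div_mul_eq_mul_div, le_div_iff₀ hc]
    have := mul_le_mul_of_nonneg_left hWc hρ
    linarith
  have hkn : (k : ℝ) ≤ zm⁻¹ * n := by
    have h1 : ∑ _j : Fin k, zm ≤ ∑ j, z j := sum_le_sum fun j _ => (hz j).1
    rw [hneu, sum_const, card_univ, Fintype.card_fin, nsmul_eq_mul] at h1
    rw [← div_eq_inv_mul, le_div_iff₀ hzm]
    exact h1
  have hvol : (volume (Metric.ball (0 : E3) R)).toReal ≤ Kv * n := by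
    rw [EuclideanSpace.volume_ball_fin_three, ENNReal.toReal_mul, ENNReal.toReal_pow,
      ENNReal.toReal_ofReal hR0.le, ENNReal.toReal_ofReal (by have := Real.pi_pos; positivity)]
    have h1 : R ^ 3 ≤ (1 + zm⁻¹) / ρ1 * n := by
      rw [div_mul_eq_mul_div, le_div_iff₀ hρ1]
      linarith
    have h2 := mul_le_mul_of_nonneg_right h1
      (show (0 : ℝ) ≤ Real.pi * 4 / 3 by have := Real.pi_pos; positivity)
    rw [hKve]
    linarith
  have hG : Gt q T zm zp κm κp A0 Kv n k (Metric.ball 0 R) z κ W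
      (((n : ℝ) + k + 1) ^ 4)⁻¹ Ψ :=
    { hz := hz
      hκ := hκ
      neu := hneu
      hm := measurableSet_ball
      hb := Metric.isBounded_ball
      hV := hvol
      hδ := hδ0
      eq := hEq
      rf := fun i => by
        rw [hA0e]
        exact hrf q n k _ (Ψ i) (ρ / c) (by positivity) W hW hWΛ hWs hcard }
  have hShB : ShB R B Ψ :=
    hbt (Fin m) inferInstance n k R hR z W Ψ
      (hinst (Fin m) inferInstance n k R hR z κ W _ Ψ hG le_rfl)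
  have hms := hEq.one
  -- (1)
  have h1 : ∀ x : E3, Metric.closedBall x 2 ⊆ Metric.ball 0 R →
      |mM Ψ (fun p => phi z p x)| ≤ D1 * (1 + mM Ψ (fun p => near p x)) := by
    intro x hx
    have a1 := hmain (Fin m) inferInstance n k R hR z κ W _ Ψ hG hδ1 x hx
    have a2 := hshl (Fin m) inferInstance q n k R hR Ψ hS hms B hShB
    have a3 : mM Ψ (fun p => shl (R - 6) p) / R ^ 2 ≤ Cs * (B + 1) := by
      rw [div_le_iff₀ (by positivity)]
      exact a2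
    have a4 : 0 ≤ mM Ψ (fun p => near p x) := mM_nonneg _ fun p => near_nn p x
    refine a1.trans ?_
    calc Cm * (1 + mM Ψ (fun p => near p x) + mM Ψ (fun p => shl (R - 6) p) / R ^ 2) ≤
        Cm * (1 + mM Ψ (fun p => near p x) + Cs * (B + 1)) :=
          mul_le_mul_of_nonneg_left (by linarith) hCm
      _ ≤ Cm * ((1 + Cs * (B + 1)) * (1 + mM Ψ (fun p => near p x))) := by
          refine mul_le_mul_of_nonneg_left ?_ hCm
          have : 0 ≤ Cs * (B + 1) * mM Ψ (fun p => near p x) := by positivity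
          linarith
      _ = _ := by rw [hD1]; ring
  -- (2)
  have h2 : ∀ r : ℝ, 0 ≤ r → IntegrableOn (fun v => mM Ψ (fun p => near p v)) (A r) ∧
      ∫ v in A r, mM Ψ (fun p => near p v) ≤ D2 * R ^ 2 := by
    intro r hr
    have := hnear (Fin m) inferInstance q n k R hR Ψ hS hms B hShB r hr
    rw [hD2]
    exact this
  -- (3)
  have hNR : 2000 * ((n : ℝ) + k + 1) ^ (3 / 10 : ℝ) < K * R ^ (9 / 10 : ℝ) := by
    have b1 : (n : ℝ) + k + 1 ≤ (ρ + 1) * R ^ 3 := by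
      have : (1 : ℝ) ≤ R ^ 3 := one_le_pow₀ (by linarith)
      linarith
    have b2 : ((n : ℝ) + k + 1) ^ (3 / 10 : ℝ) ≤ (ρ + 1) ^ (3 / 10 : ℝ) * R ^ (9 / 10 : ℝ) := by
      refine (Real.rpow_le_rpow (by linarith) b1 (by norm_num)).trans (le_of_eq ?_)
      rw [Real.mul_rpow (by linarith) (by positivity), ← Real.rpow_natCast R 3,
        ← Real.rpow_mul hR0.le]
      norm_num
    have b3 : 0 < R ^ (9 / 10 : ℝ) := Real.rpow_pos_of_pos hR0 _
    rw [hK]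
    nlinarith
  have hsub : ∀ x : E3, ‖x‖ + K * R ^ (9 / 10 : ℝ) ≤ R →
      Metric.closedBall x (2000 * ((n : ℝ) + k + 1) ^ (3 / 10 : ℝ)) ⊆ Metric.ball 0 R := by
    intro x hx w hw
    rw [Metric.mem_closedBall, dist_eq_norm] at hw
    rw [mem_ball_zero_iff]
    have b1 : ‖w‖ ≤ ‖w - x‖ + ‖x‖ := by
      calc ‖w‖ = ‖(w - x) + x‖ := by rw [sub_add_cancel]
        _ ≤ _ := norm_add_le _ _
    linarith
  have hI := hinst' (Fin m) inferInstance n k _ z κ W _ Ψ hG le_rfl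
  have hTT := htot (Fin m) inferInstance n k _ z κ W _ Ψ hG hδ1
  have h3 : ∀ x : E3, ‖x‖ + K * R ^ (9 / 10 : ℝ) ≤ R →
      |mM Ψ (fun p => phi z p x)| ≤ D1 * (1 + Cf) ∧
      mM Ψ (fun p => ce p x 1 + cn p x 1) ≤ Cf ∧ mM Ψ (fun p => near p x) ≤ Cf := by
    intro x hx
    obtain ⟨b1, b2⟩ := hbulk (Fin m) inferInstance n k _ z W Ψ hI hTT x (hsub x hx)
    have b3 := (fbe hS hms x Cb b1).2
    have b4 : mM Ψ (fun p => ce p x 1 + cn p x 1) ≤ Cf := by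
      rw [ft_add (fun i => IM_ce (hS i) x 1) (fun i => IM_cn (hS i) x 1), hCfe]
      have := b1.c
      linarith
    have b6 : mM Ψ (fun p => near p x) ≤ Cf := by rw [hCfe]; linarith
    refine ⟨?_, b4, b6⟩
    have b5 : (1 : ℝ) ≤ ((n : ℝ) + k + 1) ^ (3 / 10 : ℝ) :=
      Real.one_le_rpow hN1 (by norm_num)
    refine (h1 x ((Metric.closedBall_subset_closedBall (by linarith)).trans
      (hsub x hx))).trans ?_
    exact mul_le_mul_of_nonneg_left (by linarith) hD10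
  have hKR : K * R ^ (9 / 10 : ℝ) ≤ R / 4 := by
    have b1 : 4 * K ≤ R ^ (1 / 10 : ℝ) := by
      have b2 : ((4 * K) ^ 10) ^ (1 / 10 : ℝ) ≤ R ^ (1 / 10 : ℝ) :=
        Real.rpow_le_rpow hK10 (c7.trans hCR) (by norm_num)
      rw [← Real.rpow_natCast (4 * K) 10, ← Real.rpow_mul (by positivity)] at b2
      norm_num at b2
      exact b2
    have b3 : 0 < R ^ (9 / 10 : ℝ) := Real.rpow_pos_of_pos hR0 _
    have b4 : R ^ (9 / 10 : ℝ) * R ^ (1 / 10 : ℝ) = R := by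
      rw [← Real.rpow_add hR0]
      norm_num
    nlinarith
  refine ⟨fun x hx => (h1 x hx).trans ?_, fun r hr => (h2 r hr).2.trans ?_, fun x hx => ?_,
    fun t ht => ?_⟩
  · have a4 : 0 ≤ mM Ψ (fun p => near p x) := mM_nonneg _ fun p => near_nn p x
    exact mul_le_mul_of_nonneg_right c2 (by linarith)
  · exact mul_le_mul_of_nonneg_right c3 (by positivity)
  · have b3 : 0 < R ^ (9 / 10 : ℝ) := Real.rpow_pos_of_pos hR0 _
    have b4 := mul_le_mul_of_nonneg_right c6 b3.le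
    obtain ⟨d1, _, d3⟩ := h3 x (by linarith)
    exact ⟨d1.trans c4, d3.trans c5⟩
  · have b1 := hsphB q n k R hR z hz0 hneu (Fin m) inferInstance Ψ hS hms hShB
      (fun v hv => h3 v (by linarith)) h1 h2 t ht
    unfold H6.CL.Ph at b1
    exact b1.trans c8

end H6.CT
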