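import Pool.Agent.H6.CT.Defs
import Pool.Agent.H6.CM.Excl
import Pool.Agent.H6.CB.Lib

/-! The Pauli principle for a bounded measurable test function, in the presence of nuclei. For fixed positions of the nuclei the function `x ↦ ψ σ (x, R)` satisfies the hypotheses of `H6.CM.excl` (continuous test functions): integrate over the positions of the nuclei. The test function `f` may be replaced by `Λ.indicator f` because the positions in the support of `ψ` lie in `Λ`; it is square integrable, and is the limit in `L²` of continuous functions with compact support (`MeasureTheory.MemLp.exists_hasCompactSupport_eLpNorm_sub_le`), and `∫ ξ, f ξ * ψ σ (update ..)` depends continuously on `f` in `L²`, uniformly in the other variables. -/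

open MeasureTheory Finset

namespace H6.CT

open H6.CM H6.CB H6.CL

private noncomputable def Lt {n k : ℕ} (g : E3 → ℝ) (φ : Cfg n k → ℂ) (a : Fin n)
    (p : Cfg n k) : ℂ :=
  ∫ ξ, ((g ξ : ℝ) : ℂ) * φ (Function.update p.1 a ξ, p.2)

private noncomputable def Nt {n k : ℕ} (φ : Cfg n k → ℂ) (a : Fin n) (p : Cfg n k) : ℝ :=
  ∫ ξ, ‖φ (Function.update p.1 a ξ, p.2)‖

private theorem exB {n k : ℕ} (φ : Cfg n k → ℂ) (hc : Continuous φ) (hs : HasCompactSupport φ) :
    ∃ (C : Set E3) (S : ℝ), IsCompact C ∧ 0 ≤ S ∧ (∀ p, ‖φ p‖ ≤ S) ∧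
      ∀ p, φ p ≠ 0 → (∀ b, p.1 b ∈ C) ∧ ∀ j, p.2 j ∈ C := by
  obtain ⟨S, hS⟩ := hs.exists_bound_of_continuous hc
  refine ⟨(⋃ b : Fin n, (fun p : Cfg n k => p.1 b) '' tsupport φ) ∪
    ⋃ j : Fin k, (fun p : Cfg n k => p.2 j) '' tsupport φ, max S 0, ?_, le_max_right _ _,
    fun p => (hS p).trans (le_max_left _ _), ?_⟩
  · refine IsCompact.union (isCompact_iUnion fun b => hs.image ?_) (isCompact_iUnion fun j => hs.image ?_)
    · exact (continuous_apply b).comp continuous_fst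
    · exact (continuous_apply j).comp continuous_snd
  · intro p hp
    have h1 : p ∈ tsupport φ := subset_tsupport φ hp
    exact ⟨fun b => Or.inl (Set.mem_iUnion.2 ⟨b, ⟨p, h1, rfl⟩⟩),
      fun j => Or.inr (Set.mem_iUnion.2 ⟨j, ⟨p, h1, rfl⟩⟩)⟩

private theorem upd_cont {n k : ℕ} (a : Fin n) (ξ : E3) :
    Continuous (fun p : Cfg n k => ((Function.update p.1 a ξ, p.2) : Cfg n k)) :=
  (continuous_fst.update a continuous_const).prodMk continuous_snd

private theorem upd_cont2 {n k : ℕ} (a : Fin n) (p : Cfg n k) :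
    Continuous (fun ξ : E3 => ((Function.update p.1 a ξ, p.2) : Cfg n k)) := by
  have h1 : Continuous (fun ξ : E3 => Function.update p.1 a ξ) :=
    continuous_const.update a continuous_id
  exact h1.prodMk continuous_const

section
variable {n k : ℕ} {φ : Cfg n k → ℂ} (hc : Continuous φ) (a : Fin n) {C : Set E3} {S : ℝ}
  (hC : IsCompact C) (hS0 : 0 ≤ S) (hS : ∀ p, ‖φ p‖ ≤ S)
  (hφ : ∀ p, φ p ≠ 0 → (∀ b, p.1 b ∈ C) ∧ ∀ j, p.2 j ∈ C)

include hS hφ in
private theorem upd_bd (p : Cfg n k) (ξ : E3) :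
    ‖φ (Function.update p.1 a ξ, p.2)‖ ≤ C.indicator (fun _ => S) ξ := by
  by_cases h : φ (Function.update p.1 a ξ, p.2) = 0
  · rw [h, norm_zero]
    refine Set.indicator_nonneg (fun _ _ => ?_) _
    exact (norm_nonneg _).trans (hS p)
  · have h1 : ξ ∈ C := by
      have := (hφ _ h).1 a
      simpa using this
    rw [Set.indicator_of_mem h1]
    exact hS _

include hC in
private theorem ind_int : Integrable (C.indicator (fun _ : E3 => S)) :=
  (integrable_indicator_iff hC.measurableSet).2 (integrableOn_const hC.measure_lt_top.ne)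

include hc hC hS hφ in
private theorem Lt_cont (g : E3 → ℝ) (hg : Measurable g) (M : ℝ) (hM : ∀ v, |g v| ≤ M) :
    Continuous (Lt g φ a) := by
  unfold Lt
  refine continuous_of_dominated (bound := fun ξ => M * C.indicator (fun _ => S) ξ) ?_ ?_ ?_ ?_
  · intro p
    exact ((Complex.measurable_ofReal.comp hg).mul
      (hc.comp (upd_cont2 a p)).measurable).aestronglyMeasurable
  · intro p
    refine Filter.Eventually.of_forall fun ξ => ?_
    rw [norm_mul, Complex.norm_real, Real.norm_eq_abs]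
    exact mul_le_mul (hM ξ) (upd_bd a hS hφ p ξ) (norm_nonneg _) ((abs_nonneg _).trans (hM ξ))
  · exact (ind_int hC).const_mul M
  · refine Filter.Eventually.of_forall fun ξ => ?_
    exact continuous_const.mul (hc.comp (upd_cont a ξ))

include hc hC hS hφ in
private theorem Nt_cont : Continuous (Nt φ a) := by
  unfold Nt
  refine continuous_of_dominated (bound := fun ξ => C.indicator (fun _ => S) ξ) ?_ ?_ ?_ ?_
  · intro p
    exact (hc.comp (upd_cont2 a p)).norm.measurable.aestronglyMeasurable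
  · intro p
    refine Filter.Eventually.of_forall fun ξ => ?_
    rw [norm_norm]
    exact upd_bd a hS hφ p ξ
  · exact ind_int hC
  · refine Filter.Eventually.of_forall fun ξ => ?_
    exact (hc.comp (upd_cont a ξ)).norm

include hc hC hS hφ in
private theorem upd_int (p : Cfg n k) :
    Integrable (fun ξ => φ (Function.update p.1 a ξ, p.2)) := by
  refine (ind_int (S := S) hC).mono' (hc.comp (upd_cont2 a p)).measurable.aestronglyMeasurable ?_
  exact Filter.Eventually.of_forall fun ξ => upd_bd a hS hφ p ξ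

include hc hC hS hφ in
private theorem Lt_le (g : E3 → ℝ) (M : ℝ) (hM : ∀ v, |g v| ≤ M) (p : Cfg n k) :
    ‖Lt g φ a p‖ ≤ M * Nt φ a p := by
  unfold Lt Nt
  rw [← integral_const_mul]
  refine norm_integral_le_of_norm_le ((upd_int hc a hC hS hφ p).norm.const_mul M) ?_
  refine Filter.Eventually.of_forall fun ξ => ?_
  rw [norm_mul, Complex.norm_real, Real.norm_eq_abs]
  exact mul_le_mul_of_nonneg_right (hM ξ) (norm_nonneg _)

include hc hC hS hφ in
private theorem Lt_sub (f g : E3 → ℝ) (hf : Measurable f) (hg : Measurable g) (M : ℝ)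
    (hfM : ∀ v, |f v| ≤ M) (hgM : ∀ v, |g v| ≤ M) (hfg : Integrable (fun v => f v - g v))
    (p : Cfg n k) :
    ‖Lt g φ a p - Lt f φ a p‖ ≤ S * ∫ v, ‖f v - g v‖ := by
  have h1 : ∀ (h : E3 → ℝ), Measurable h → (∀ v, |h v| ≤ M) →
      Integrable (fun ξ => ((h ξ : ℝ) : ℂ) * φ (Function.update p.1 a ξ, p.2)) := by
    intro h hh hhM
    refine ((upd_int hc a hC hS hφ p).norm.const_mul M).mono' ((Complex.measurable_ofReal.comp hh).mul
      (hc.comp (upd_cont2 a p)).measurable).aestronglyMeasurable ?_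
    refine Filter.Eventually.of_forall fun ξ => ?_
    rw [norm_mul, Complex.norm_real, Real.norm_eq_abs]
    exact mul_le_mul_of_nonneg_right (hhM ξ) (norm_nonneg _)
  unfold Lt
  rw [← integral_sub (h1 g hg hgM) (h1 f hf hfM), ← integral_const_mul]
  refine norm_integral_le_of_norm_le (hfg.norm.const_mul S) ?_
  refine Filter.Eventually.of_forall fun ξ => ?_
  rw [← sub_mul, norm_mul, mul_comm, ← Complex.ofReal_sub, Complex.norm_real, norm_sub_rev]
  exact mul_le_mul_of_nonneg_right (hS _) (norm_nonneg _)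

include hφ in
private theorem Nt_supp (p : Cfg n k) (h : Nt φ a p ≠ 0) :
    (∀ b, b ≠ a → p.1 b ∈ C) ∧ ∀ j, p.2 j ∈ C := by
  have h1 : ∃ ξ, φ (Function.update p.1 a ξ, p.2) ≠ 0 := by
    by_contra h2
    push Not at h2
    apply h
    unfold Nt
    simp [h2]
  obtain ⟨ξ, hξ⟩ := h1
  refine ⟨fun b hb => ?_, (hφ _ hξ).2⟩
  have := (hφ _ hξ).1 b
  simpa only [Function.update_of_ne hb] using this

include hc hC hS hφ in
private theorem dom_int (ρ : E3 → ℝ) (hρ : Continuous ρ) (hρc : HasCompactSupport ρ) :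
    Integrable (fun p : Cfg n k => ρ (p.1 a) * (Nt φ a p) ^ 2) := by
  have hcont : Continuous (fun p : Cfg n k => ρ (p.1 a) * (Nt φ a p) ^ 2) :=
    (hρ.comp ((continuous_apply a).comp continuous_fst)).mul ((Nt_cont hc a hC hS hφ).pow 2)
  refine hcont.integrable_of_hasCompactSupport ?_
  have hK : IsCompact ((Set.univ.pi fun _ : Fin n => C ∪ tsupport ρ) ×ˢ
      (Set.univ.pi fun _ : Fin k => C)) :=
    (isCompact_univ_pi fun _ => hC.union hρc).prod (isCompact_univ_pi fun _ => hC)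
  refine HasCompactSupport.intro hK fun p hp => ?_
  by_contra h
  apply hp
  have h1 := left_ne_zero_of_mul h
  have h2 : Nt φ a p ≠ 0 := fun h3 => h (by rw [h3]; simp)
  have h3 := Nt_supp a hφ p h2
  refine ⟨fun b _ => ?_, fun j _ => h3.2 j⟩
  by_cases hb : b = a
  · rw [hb]
    exact Or.inr (subset_tsupport ρ h1)
  · exact Or.inl (h3.1 b hb)

end

private theorem Lt_sq_int {n k : ℕ} {φ : Cfg n k → ℂ} (hc : Continuous φ)
    (hs : HasCompactSupport φ) (a : Fin n) (g : E3 → ℝ) (hg : Measurable g) (M : ℝ)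
    (hM : ∀ v, |g v| ≤ M) (ρ : E3 → ℝ) (hρ : Continuous ρ) (hρc : HasCompactSupport ρ)
    (hρ0 : ∀ v, 0 ≤ ρ v) :
    Integrable (fun p : Cfg n k => ρ (p.1 a) * ‖Lt g φ a p‖ ^ 2) := by
  obtain ⟨C, S, hC, hS0, hS, hφ⟩ := exB φ hc hs
  refine ((dom_int hc a hC hS hφ ρ hρ hρc).const_mul (M ^ 2)).mono' ?_ ?_
  · exact ((hρ.comp ((continuous_apply a).comp continuous_fst)).mul
      ((Lt_cont hc a hC hS hφ g hg M hM).norm.pow 2)).measurable.aestronglyMeasurable
  · refine Filter.Eventually.of_forall fun p => ?_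
    have h1 := Lt_le hc a hC hS hφ g M hM p
    rw [Real.norm_eq_abs, abs_of_nonneg (mul_nonneg (hρ0 _) (sq_nonneg _))]
    have h2 : ‖Lt g φ a p‖ ^ 2 ≤ (M * Nt φ a p) ^ 2 := pow_le_pow_left₀ (norm_nonneg _) h1 2
    calc ρ (p.1 a) * ‖Lt g φ a p‖ ^ 2 ≤ ρ (p.1 a) * (M * Nt φ a p) ^ 2 :=
          mul_le_mul_of_nonneg_left h2 (hρ0 _)
      _ = M ^ 2 * (ρ (p.1 a) * Nt φ a p ^ 2) := by ring

private theorem pauli_cont {q n k : ℕ} {Λ : Set E3}
    {ψ : (Fin n → Fin q) → Cfg n k → ℂ} (hψ : St q n k Λ ψ) (g : E3 → ℝ)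
    (hg : Continuous g) (hgc : HasCompactSupport g) (M : ℝ) (hM : ∀ v, |g v| ≤ M) (ρ : E3 → ℝ)
    (hρ : Continuous ρ)
    (hρc : HasCompactSupport ρ) (hρ0 : ∀ v, 0 ≤ ρ v) (hρ1 : ∫ v, ρ v = 1) (a : Fin n)
    (τ : Fin q) :
    n * ∑ σ, (if σ a = τ then ∫ p : Cfg n k, ρ (p.1 a) * ‖Lt g (ψ σ) a p‖ ^ 2 else 0) ≤
      (∫ v, g v ^ 2) * mass ψ := by
  have hcont : ∀ σ, Continuous (ψ σ) := fun σ => (hψ.smooth σ).continuous
  have hI : ∀ σ, Integrable (fun p : Cfg n k => ρ (p.1 a) * ‖Lt g (ψ σ) a p‖ ^ 2) := fun σ =>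
    Lt_sq_int (hcont σ) (hψ.cpt σ) a g hg.measurable M hM ρ hρ hρc hρ0
  have hI2 : ∀ σ, Integrable (fun p : Cfg n k => ‖ψ σ p‖ ^ 2) := by
    intro σ
    have h0 : HasCompactSupport (fun p => ‖ψ σ p‖ ^ 2) :=
      HasCompactSupport.intro (hψ.cpt σ) fun p hp => by
        rw [image_eq_zero_of_notMem_tsupport hp, norm_zero, zero_pow two_ne_zero]
    exact ((hcont σ).norm.pow 2).integrable_of_hasCompactSupport h0
  have hg2 : Integrable (fun v => g v ^ 2) := by
    have h0 : HasCompactSupport (fun v => g v ^ 2) :=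
      HasCompactSupport.intro hgc fun p hp => by
        rw [image_eq_zero_of_notMem_tsupport hp, zero_pow two_ne_zero]
    exact (hg.pow 2).integrable_of_hasCompactSupport h0
  -- slices
  have e1 : ∀ σ, ∫ p : Cfg n k, ρ (p.1 a) * ‖Lt g (ψ σ) a p‖ ^ 2 =
      ∫ R, ∫ x : Fin n → E3, ρ (x a) * ‖∫ u, (g u : ℂ) * ψ σ (Function.update x a u, R)‖ ^ 2 :=
    fun σ => integral_prod_symm _ (hI σ)
  have e2 : ∀ σ, ∫ p : Cfg n k, ‖ψ σ p‖ ^ 2 = ∫ R, ∫ x : Fin n → E3, ‖ψ σ (x, R)‖ ^ 2 :=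
    fun σ => integral_prod_symm _ (hI2 σ)
  have i1 : ∀ σ, Integrable (fun R => ∫ x : Fin n → E3,
      ρ (x a) * ‖∫ u, (g u : ℂ) * ψ σ (Function.update x a u, R)‖ ^ 2) :=
    fun σ => (hI σ).integral_prod_right
  have i2 : ∀ σ, Integrable (fun R => ∫ x : Fin n → E3, ‖ψ σ (x, R)‖ ^ 2) :=
    fun σ => (hI2 σ).integral_prod_right
  have i1' : ∀ σ, Integrable (fun R => if σ a = τ then ∫ x : Fin n → E3,
      ρ (x a) * ‖∫ u, (g u : ℂ) * ψ σ (Function.update x a u, R)‖ ^ 2 else 0) := by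
    intro σ
    split_ifs
    · exact i1 σ
    · exact integrable_zero _ _ _
  have l1 : (n : ℝ) * ∑ σ, (if σ a = τ then ∫ p : Cfg n k, ρ (p.1 a) * ‖Lt g (ψ σ) a p‖ ^ 2
      else 0) = ∫ R : Fin k → E3, (n : ℝ) * ∑ σ, (if σ a = τ then ∫ x : Fin n → E3,
      ρ (x a) * ‖∫ u, (g u : ℂ) * ψ σ (Function.update x a u, R)‖ ^ 2 else 0) := by
    rw [integral_const_mul, integral_finset_sum _ (fun σ _ => i1' σ)]
    congr 1
    refine Finset.sum_congr rfl fun σ _ => ?_
    split_ifs
    · exact e1 σ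
    · simp
  have l2 : (∫ v, g v ^ 2) * mass ψ = ∫ R : Fin k → E3, (∫ v, g v ^ 2) *
      ∑ σ, ∫ x : Fin n → E3, ‖ψ σ (x, R)‖ ^ 2 := by
    rw [integral_const_mul, integral_finset_sum _ (fun σ _ => i2 σ)]
    congr 1
    exact Finset.sum_congr rfl fun σ _ => e2 σ
  rw [l1, l2]
  refine integral_mono ((integrable_finset_sum _ (fun σ _ => i1' σ)).const_mul _)
    ((integrable_finset_sum _ (fun σ _ => i2 σ)).const_mul _) ?_
  intro R
  refine excl (fun σ x => ψ σ (x, R)) (fun σ => (hcont σ).comp (continuous_id.prodMk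
    continuous_const)) ?_ (fun π σ x => hψ.anti π σ (x, R)) g hg hg2 ρ hρ hρc hρ0 hρ1 a τ
  intro σ
  refine HasCompactSupport.intro ((hψ.cpt σ).image continuous_fst) fun x hx => ?_
  by_contra h
  exact hx ⟨(x, R), subset_tsupport _ h, rfl⟩

private theorem clamp_le (M f g : ℝ) (hf : |f| ≤ M) : |f - max (-M) (min g M)| ≤ |f - g| := by
  have h1 := abs_le.1 hf
  rcases le_total g M with h | h
  · rw [min_eq_left h]
    rcases le_total (-M) g with h2 | h2
    · rw [max_eq_right h2]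
    · rw [max_eq_left h2, abs_of_nonneg (by linarith), abs_of_nonneg (by linarith)]
      linarith
  · rw [min_eq_right h, max_eq_right (by linarith), abs_of_nonpos (by linarith),
      abs_of_nonpos (by linarith)]
    linarith

private theorem exSeq (f : E3 → ℝ) (hf : Measurable f) (M : ℝ) (hM : ∀ v, |f v| ≤ M)
    (hfi : Integrable f) (ε : ℝ) (hε : 0 < ε) :
    ∃ g : E3 → ℝ, Continuous g ∧ HasCompactSupport g ∧ (∀ v, |g v| ≤ M) ∧ Integrable g ∧
      ∫ v, ‖f v - g v‖ ≤ ε := by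
  obtain ⟨g, hgc, hgi, hg, hgI⟩ := hfi.exists_hasCompactSupport_integral_sub_le hε
  have hM0 : 0 ≤ M := (abs_nonneg _).trans (hM 0)
  have hg'c : Continuous (fun v => max (-M) (min (g v) M)) :=
    continuous_const.max (hg.min continuous_const)
  have hg'k : HasCompactSupport (fun v => max (-M) (min (g v) M)) := by
    have : (fun v => max (-M) (min (g v) M)) = (fun z : ℝ => max (-M) (min z M)) ∘ g := rfl
    rw [this]
    refine hgc.comp_left ?_
    simp [hM0]
  refine ⟨fun v => max (-M) (min (g v) M), hg'c, hg'k, ?_,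
    hg'c.integrable_of_hasCompactSupport hg'k, ?_⟩
  · intro v
    rw [abs_le]
    exact ⟨le_max_left _ _, max_le (by linarith) (min_le_right _ _)⟩
  · refine le_trans (integral_mono ?_ (hfi.sub hgI).norm ?_) hgi
    · exact (hfi.sub (hg'c.integrable_of_hasCompactSupport hg'k)).norm
    · intro v
      exact clamp_le M (f v) (g v) (hM v)

theorem pauliT {q n k : ℕ} {Λ : Set E3} (hm : MeasurableSet Λ) (hb : Bornology.IsBounded Λ)
    {ψ : (Fin n → Fin q) → Cfg n k → ℂ} (hψ : St q n k Λ ψ) (f : E3 → ℝ)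
    (hf : Measurable f) (M : ℝ) (hM : ∀ v, |f v| ≤ M) (ρ : E3 → ℝ) (hρ : Continuous ρ)
    (hρc : HasCompactSupport ρ) (hρ0 : ∀ v, 0 ≤ ρ v) (hρ1 : ∫ v, ρ v = 1) (a : Fin n)
    (τ : Fin q) :
    n * ∑ σ, (if σ a = τ then ∫ p : Cfg n k, ρ (p.1 a) *
      ‖∫ ξ, ((f ξ : ℝ) : ℂ) * ψ σ (Function.update p.1 a ξ, p.2)‖ ^ 2 else 0) ≤
      (∫ v in Λ, f v ^ 2) * mass ψ := by
  have hM0 : 0 ≤ M := (abs_nonneg _).trans (hM 0)
  set f' : E3 → ℝ := Λ.indicator f with hf'
  have hf'm : Measurable f' := hf.indicator hm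
  have hf'M : ∀ v, |f' v| ≤ M := by
    intro v
    rw [hf']
    by_cases hv : v ∈ Λ
    · rw [Set.indicator_of_mem hv]
      exact hM v
    · rw [Set.indicator_of_notMem hv, abs_zero]
      exact hM0
  have hfin : volume Λ < ⊤ := hb.measure_lt_top
  have hf'i : Integrable f' := by
    refine ((integrable_indicator_iff hm).2 (integrableOn_const (μ := volume) (C := M)
      hfin.ne)).mono' hf'm.aestronglyMeasurable (Filter.Eventually.of_forall fun v => ?_)
    rw [hf', Real.norm_eq_abs]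
    by_cases hv : v ∈ Λ
    · rw [Set.indicator_of_mem hv, Set.indicator_of_mem hv]
      exact hM v
    · rw [Set.indicator_of_notMem hv, Set.indicator_of_notMem hv, abs_zero]
  have hcont : ∀ σ, Continuous (ψ σ) := fun σ => (hψ.smooth σ).continuous
  have hL : ∀ σ p, ∫ ξ, ((f ξ : ℝ) : ℂ) * ψ σ (Function.update p.1 a ξ, p.2) =
      Lt f' (ψ σ) a p := by
    intro σ p
    unfold Lt
    refine integral_congr_ae (Filter.Eventually.of_forall fun ξ => ?_)
    show ((f ξ : ℝ) : ℂ) * ψ σ (Function.update p.1 a ξ, p.2) =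
      ((f' ξ : ℝ) : ℂ) * ψ σ (Function.update p.1 a ξ, p.2)
    by_cases h : ψ σ (Function.update p.1 a ξ, p.2) = 0
    · rw [h, mul_zero, mul_zero]
    · have h1 := (hψ.supp σ _ (subset_tsupport _ h)).1 a
      simp only [Function.update_self] at h1
      rw [hf', Set.indicator_of_mem h1]
  have hR : ∫ v in Λ, f v ^ 2 = ∫ v, f' v ^ 2 := by
    rw [← integral_indicator hm]
    refine integral_congr_ae (Filter.Eventually.of_forall fun v => ?_)
    show Λ.indicator (fun v => f v ^ 2) v = f' v ^ 2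
    rw [hf']
    by_cases hv : v ∈ Λ
    · rw [Set.indicator_of_mem hv, Set.indicator_of_mem hv]
    · rw [Set.indicator_of_notMem hv, Set.indicator_of_notMem hv]
      simp
  simp_rw [hL]
  rw [hR]
  have hex := fun m : ℕ => exSeq f' hf'm M hf'M hf'i (1 / ((m : ℝ) + 1)) (by positivity)
  choose g hgc hgk hgM hgi hgf using hex
  have hto : Filter.Tendsto (fun m => ∫ v, ‖f' v - g m v‖) Filter.atTop (nhds 0) :=
    squeeze_zero (fun m => integral_nonneg fun v => norm_nonneg _) hgf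
      tendsto_one_div_add_atTop_nhds_zero_nat
  have hsq : Filter.Tendsto (fun m => ∫ v, g m v ^ 2) Filter.atTop (nhds (∫ v, f' v ^ 2)) := by
    rw [tendsto_iff_norm_sub_tendsto_zero]
    have hb2 : ∀ (h : E3 → ℝ), Measurable h → (∀ v, |h v| ≤ M) → Integrable h →
        Integrable (fun v => h v ^ 2) := by
      intro h hh hhM hhi
      refine (hhi.norm.const_mul M).mono' (hh.pow_const 2).aestronglyMeasurable
        (Filter.Eventually.of_forall fun v => ?_)
      rw [Real.norm_eq_abs, abs_pow, Real.norm_eq_abs, sq]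
      exact mul_le_mul_of_nonneg_right (hhM v) (abs_nonneg _)
    refine squeeze_zero (fun m => norm_nonneg _) (g := fun m => 2 * M * ∫ v, ‖f' v - g m v‖) ?_ ?_
    · intro m
      rw [← integral_sub (hb2 _ (hgc m).measurable (hgM m) (hgi m)) (hb2 _ hf'm hf'M hf'i),
        ← integral_const_mul]
      refine norm_integral_le_of_norm_le ((hf'i.sub (hgi m)).norm.const_mul _)
        (Filter.Eventually.of_forall fun v => ?_)
      have h1 : g m v ^ 2 - f' v ^ 2 = -((g m v + f' v) * (f' v - g m v)) := by ring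
      rw [h1, norm_neg, norm_mul]
      refine mul_le_mul_of_nonneg_right ?_ (norm_nonneg _)
      rw [Real.norm_eq_abs]
      have h2 := abs_add_le (g m v) (f' v)
      have h3 := hgM m v
      have h4 := hf'M v
      linarith
    · have := hto.const_mul (2 * M)
      rwa [mul_zero] at this
  have hlim : ∀ σ, Filter.Tendsto (fun m => ∫ p : Cfg n k, ρ (p.1 a) * ‖Lt (g m) (ψ σ) a p‖ ^ 2)
      Filter.atTop (nhds (∫ p : Cfg n k, ρ (p.1 a) * ‖Lt f' (ψ σ) a p‖ ^ 2)) := by
    intro σ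
    obtain ⟨C, S, hC, hS0, hS, hφ⟩ := exB (ψ σ) (hcont σ) (hψ.cpt σ)
    refine tendsto_integral_of_dominated_convergence
      (fun p : Cfg n k => M ^ 2 * (ρ (p.1 a) * Nt (ψ σ) a p ^ 2)) ?_ ?_ ?_ ?_
    · intro m
      exact ((hρ.comp ((continuous_apply a).comp continuous_fst)).mul
        ((Lt_cont (hcont σ) a hC hS hφ (g m) (hgc m).measurable M (hgM m)).norm.pow 2)).measurable.aestronglyMeasurable
    · exact (dom_int (hcont σ) a hC hS hφ ρ hρ hρc).const_mul (M ^ 2)
    · intro m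
      refine Filter.Eventually.of_forall fun p => ?_
      have h1 := Lt_le (hcont σ) a hC hS hφ (g m) M (hgM m) p
      rw [Real.norm_eq_abs, abs_of_nonneg (mul_nonneg (hρ0 _) (sq_nonneg _))]
      have h2 : ‖Lt (g m) (ψ σ) a p‖ ^ 2 ≤ (M * Nt (ψ σ) a p) ^ 2 :=
        pow_le_pow_left₀ (norm_nonneg _) h1 2
      calc ρ (p.1 a) * ‖Lt (g m) (ψ σ) a p‖ ^ 2 ≤ ρ (p.1 a) * (M * Nt (ψ σ) a p) ^ 2 :=
            mul_le_mul_of_nonneg_left h2 (hρ0 _)
        _ = M ^ 2 * (ρ (p.1 a) * Nt (ψ σ) a p ^ 2) := by ring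
    · refine Filter.Eventually.of_forall fun p => ?_
      have h1 : Filter.Tendsto (fun m => Lt (g m) (ψ σ) a p) Filter.atTop
          (nhds (Lt f' (ψ σ) a p)) := by
        rw [tendsto_iff_norm_sub_tendsto_zero]
        refine squeeze_zero (fun m => norm_nonneg _) (g := fun m => S * ∫ v, ‖f' v - g m v‖)
          (fun m => Lt_sub (hcont σ) a hC hS hφ f' (g m) hf'm (hgc m).measurable M hf'M (hgM m)
            (hf'i.sub (hgi m)) p) ?_
        have := hto.const_mul S
        rwa [mul_zero] at this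
      exact (h1.norm.pow 2).const_mul _
  refine le_of_tendsto_of_tendsto' (f := fun m => (n : ℝ) * ∑ σ, (if σ a = τ then
    ∫ p : Cfg n k, ρ (p.1 a) * ‖Lt (g m) (ψ σ) a p‖ ^ 2 else 0))
    (g := fun m => (∫ v, g m v ^ 2) * mass ψ) ?_ (hsq.mul_const _) ?_
  · refine (tendsto_finset_sum _ fun σ _ => ?_).const_mul _
    split_ifs
    · exact hlim σ
    · exact tendsto_const_nhds
  · intro m
    exact pauli_cont hψ (g m) (hgc m) (hgk m) M (hgM m) ρ hρ hρc hρ0 hρ1 a τ

end H6.CT
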