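import Pool.Agent.H6.CT.TrfSt
import Pool.Agent.H6.CT.PauliT
import Pool.Agent.H6.CT.Bess

/-! The frame bound for the electrons. Let `F p = g p * (J (p.1 a) * s p.1)`. Since `h` is antisymmetric, `ip (anti a X) h = n * ip X h` (`X = trf ..`), so `ip (atr ..) h = sqrt n * ip (trf ..) h` up to conjugation. By Fubini (exchange of `p.1 a` and `ξ` and of the spins `α` and `τ`, compare `Pool/Agent/H6/CM/Exch.lean`) `ip (trf χ r a w f α τ (mf F (Ψ i))) h = ip (Ψ i) H` with `H σ p = if σ a = τ then f (p.1 a) * F p * ∫ y, chr χ r (y - w) * h (update σ a α) (update p.1 a y, p.2) else 0`. `bess` with `B = (n⁻¹ * M * ..) ^ 2`: for `ψ ∈ St`, `ip ψ H = ∑ σ (σ a = τ), ∫ over the other variables of conj (∫ ξ, f ξ * J ξ * (mf g ψ) σ (update p.1 a ξ, p.2)) * s * (∫ y, chr * h)`, so by Cauchy-Schwarz (with a normalised weight `ρ (p.1 a)` for the dummy variable, `ρ = chr χ r (· - w) ^ 2`) and `pauliT` twice (`ψ' = mf g ψ` with the test function `f * J`, mass at most `M ^ 2 * mass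 ψ`; and `h` with the test function `chr χ r (· - w)`, whose square has integral one) `‖ip ψ H‖ ^ 2 ≤ (n⁻¹ * ∫ v in Λ, (f v * J v) ^ 2) * (M ^ 2 * mass ψ) * (n⁻¹ * mass h)`. `1 ≤ n` because `a : Fin n`. -/

open MeasureTheory Finset

namespace H6.CT

open H6.CM H6.CB H6.CL

section

variable {q n k : ℕ} {Λ : Set E3}

private theorem fe_emb (a : Fin n) : MeasurableEmbedding (swE (k := k) a) :=
  (MeasurableEquiv.mk ⟨swE a, swE a, swE_swE a, swE_swE a⟩ (swE_mp a).measurable
    (swE_mp a).measurable).measurableEmbedding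

/-- exchange of `p.1 a` and the spare point -/
private theorem fe_ex (a : Fin n) (G : Cfg n k × E3 → ℂ) (hG : Integrable G) :
    ∫ p : Cfg n k, ∫ ξ : E3, G (swE a (p, ξ)) = ∫ p : Cfg n k, ∫ y : E3, G (p, y) := by
  have h1 : Integrable (fun u => G (swE a u)) :=
    ((swE_mp a).integrable_comp_emb (fe_emb a)).2 hG
  have h2 : ∫ u, G (swE a u) = ∫ u, G u := (swE_mp a).integral_comp (fe_emb a) G
  rw [Measure.volume_eq_prod] at h1 hG h2
  rw [integral_prod _ h1, integral_prod _ hG] at h2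
  exact h2

private theorem fe_perm (a b : Fin n) (G : Cfg n k → ℂ) :
    ∫ p : Cfg n k, G (p.1 ∘ Equiv.swap a b, p.2) = ∫ p, G p := by
  haveI : (volume : Measure (Cfg n k)).IsAddHaarMeasure :=
    Measure.prod.instIsAddHaarMeasure (volume : Measure (Fin n → E3))
      (volume : Measure (Fin k → E3))
  have hinv : ∀ p : Cfg n k, ((((p.1 ∘ Equiv.swap a b) ∘ Equiv.swap a b), p.2) : Cfg n k) = p := by
    intro p
    refine Prod.ext ?_ rfl
    funext i
    simp
  have h1 : MeasurePreserving (fun p : Cfg n k => ((p.1 ∘ Equiv.swap a b, p.2) : Cfg n k))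
      volume volume :=
    inv_mp (volume : Measure (Cfg n k))
      { toFun := fun p => (p.1 ∘ Equiv.swap a b, p.2)
        map_add' := fun u w => rfl
        map_smul' := fun c u => rfl } hinv
  have hl : Function.LeftInverse (fun p : Cfg n k => ((p.1 ∘ Equiv.swap a b, p.2) : Cfg n k))
      (fun p : Cfg n k => ((p.1 ∘ Equiv.swap a b, p.2) : Cfg n k)) := hinv
  have h2 : MeasurableEmbedding (fun p : Cfg n k => ((p.1 ∘ Equiv.swap a b, p.2) : Cfg n k)) :=
    (MeasurableEquiv.mk ⟨fun p : Cfg n k => ((p.1 ∘ Equiv.swap a b, p.2) : Cfg n k),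
      fun p : Cfg n k => ((p.1 ∘ Equiv.swap a b, p.2) : Cfg n k), hl, hl⟩
      h1.measurable h1.measurable).measurableEmbedding
  exact h1.integral_comp h2 G

private theorem fe_anti {X h : (Fin n → Fin q) → Cfg n k → ℂ} (hX : Sm q n k Λ X)
    (hh : St q n k Λ h) (a : Fin n) : ip (anti a X) h = n * ip X h := by
  have hc : ∀ b : Fin n, Continuous (fun p : Cfg n k =>
      ((p.1 ∘ Equiv.swap a b, p.2) : Cfg n k)) := fun b =>
    (continuous_pi fun i => (continuous_apply (Equiv.swap a b i)).comp continuous_fst).prodMk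
      continuous_snd
  have hi : ∀ (σ : Fin n → Fin q) (b : Fin n), Integrable (fun p : Cfg n k =>
      (starRingEnd ℂ) (((Equiv.Perm.sign (Equiv.swap a b) : ℤ) : ℂ) *
        X (σ ∘ Equiv.swap a b) (p.1 ∘ Equiv.swap a b, p.2)) * h σ p) := by
    intro σ b
    refine Continuous.integrable_of_hasCompactSupport ?_ ?_
    · exact (Complex.continuous_conj.comp (continuous_const.mul
        ((hX.smooth _).continuous.comp (hc b)))).mul (hh.smooth σ).continuous
    · exact (hh.cpt σ).mul_left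
  have key : ∀ b : Fin n, ∑ σ : Fin n → Fin q, ∫ p : Cfg n k,
      (starRingEnd ℂ) (((Equiv.Perm.sign (Equiv.swap a b) : ℤ) : ℂ) *
        X (σ ∘ Equiv.swap a b) (p.1 ∘ Equiv.swap a b, p.2)) * h σ p = ip X h := by
    intro b
    have hinvσ : ∀ σ : Fin n → Fin q, (σ ∘ Equiv.swap a b) ∘ Equiv.swap a b = σ := by
      intro σ
      funext i
      simp
    have hinvp : ∀ x : Fin n → E3, (x ∘ Equiv.swap a b) ∘ Equiv.swap a b = x := by
      intro σ
      funext i
      simp
    have hinvσ' : Function.Involutive (fun σ : Fin n → Fin q => σ ∘ Equiv.swap a b) := hinvσ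
    obtain ⟨e, he⟩ : ∃ e : Equiv.Perm (Fin n → Fin q), ∀ σ, e σ = σ ∘ Equiv.swap a b :=
      ⟨hinvσ'.toPerm, fun _ => rfl⟩
    rw [← Equiv.sum_comp e]
    unfold ip
    refine sum_congr rfl fun σ _ => ?_
    rw [he]
    rw [hinvσ, ← fe_perm a b (fun p : Cfg n k =>
      (starRingEnd ℂ) (((Equiv.Perm.sign (Equiv.swap a b) : ℤ) : ℂ) *
        X σ (p.1 ∘ Equiv.swap a b, p.2)) * h (σ ∘ Equiv.swap a b) p)]
    congr 1
    funext p
    dsimp only
    rw [hinvp, hh.anti (Equiv.swap a b) σ p]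
    have h4 : ((Equiv.Perm.sign (Equiv.swap a b) : ℤ) : ℂ) *
        ((Equiv.Perm.sign (Equiv.swap a b) : ℤ) : ℂ) = 1 := by
      rw [← Int.cast_mul, ← Units.val_mul, Int.units_mul_self]
      simp
    rw [map_mul, map_intCast]
    linear_combination ((starRingEnd ℂ) (X σ p) * h σ p) * h4
  have h1 : ip (anti a X) h = ∑ σ : Fin n → Fin q, ∑ b : Fin n, ∫ p : Cfg n k,
      (starRingEnd ℂ) (((Equiv.Perm.sign (Equiv.swap a b) : ℤ) : ℂ) *
        X (σ ∘ Equiv.swap a b) (p.1 ∘ Equiv.swap a b, p.2)) * h σ p := by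
    unfold ip anti
    refine sum_congr rfl fun σ _ => ?_
    rw [← integral_finsetSum _ fun b _ => hi σ b]
    congr 1
    funext p
    rw [map_sum, sum_mul]
  rw [h1, sum_comm, sum_congr rfl fun b _ => key b, sum_const, card_univ, Fintype.card_fin,
    nsmul_eq_mul]

/-- reindexing of spins -/
private theorem fe_spin {R : Type} [AddCommMonoid R] (a : Fin n) (α τ : Fin q)
    (T : (Fin n → Fin q) → (Fin n → Fin q) → R) :
    ∑ σ : Fin n → Fin q, (if σ a = α then T (Function.update σ a τ) σ else 0) =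
      ∑ σ : Fin n → Fin q, (if σ a = τ then T σ (Function.update σ a α) else 0) := by
  rw [← sum_filter, ← sum_filter]
  refine sum_nbij' (fun σ => Function.update σ a τ) (fun σ => Function.update σ a α) ?_ ?_ ?_ ?_ ?_
  · intro σ _
    simp
  · intro σ _
    simp
  · intro σ hσ
    have h1 : σ a = α := (mem_filter.1 hσ).2
    rw [Function.update_idem, ← h1, Function.update_eq_self]
  · intro σ hσ
    have h1 : σ a = τ := (mem_filter.1 hσ).2
    rw [Function.update_idem, ← h1, Function.update_eq_self]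
  · intro σ hσ
    have h1 : σ a = α := (mem_filter.1 hσ).2
    rw [Function.update_idem, ← h1, Function.update_eq_self]

/-- contraction with the bump -/
private noncomputable def feH (χ : E3 → ℝ) (r : ℝ) (w : E3) (a : Fin n) (h : Cfg n k → ℂ)
    (p : Cfg n k) : ℂ :=
  ∫ y : E3, ((chr χ r (y - w) : ℝ) : ℂ) * h (Function.update p.1 a y, p.2)

private theorem feH_upd (χ : E3 → ℝ) (r : ℝ) (w : E3) (a : Fin n) (h : Cfg n k → ℂ)
    (p : Cfg n k) (ξ : E3) :
    feH χ r w a h (Function.update p.1 a ξ, p.2) = feH χ r w a h p := by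
  unfold feH
  simp only [Function.update_idem]

private theorem fe_chc {χ : E3 → ℝ} (hχ : Bump χ) {r : ℝ} (hr : 0 < r) (w : E3) :
    Continuous (fun y : E3 => chr χ r (y - w)) :=
  (chr_smooth hχ r hr).continuous.comp (continuous_id.sub continuous_const)

private theorem fe_chz {χ : E3 → ℝ} (hχ : Bump χ) {r : ℝ} (hr : 0 < r) (w : E3) (y : E3)
    (hy : y ∉ Metric.closedBall w r) : chr χ r (y - w) = 0 := by
  by_contra h0
  have h1 := chr_supp hχ r hr _ h0
  exact hy (by rw [Metric.mem_closedBall, dist_eq_norm]; linarith)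

private theorem fe_updc (a : Fin n) : Continuous (fun u : Cfg n k × E3 =>
    ((Function.update u.1.1 a u.2, u.1.2) : Cfg n k)) :=
  (Continuous.update (f := fun u : Cfg n k × E3 => u.1.1) (continuous_fst.comp continuous_fst) a
    continuous_snd).prodMk (continuous_snd.comp continuous_fst)

private theorem feH_cont {χ : E3 → ℝ} (hχ : Bump χ) {r : ℝ} (hr : 0 < r) (w : E3) (a : Fin n)
    {h : Cfg n k → ℂ} (hh : Continuous h) : Continuous (feH χ r w a h) := by
  have h1 : feH χ r w a h = fun p => ∫ y in Metric.closedBall w r,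
      ((chr χ r (y - w) : ℝ) : ℂ) * h (Function.update p.1 a y, p.2) := by
    funext p
    unfold feH
    rw [setIntegral_eq_integral_of_forall_compl_eq_zero]
    intro y hy
    rw [fe_chz hχ hr w y hy]
    simp
  rw [h1]
  refine continuous_parametric_integral_of_continuous
    (f := fun (p : Cfg n k) (y : E3) =>
      ((chr χ r (y - w) : ℝ) : ℂ) * h (Function.update p.1 a y, p.2)) ?_
    (isCompact_closedBall w r)
  have h2 : Continuous (fun u : Cfg n k × E3 => ((chr χ r (u.2 - w) : ℝ) : ℂ)) :=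
    Complex.continuous_ofReal.comp ((fe_chc hχ hr w).comp continuous_snd)
  exact h2.mul (hh.comp (fe_updc a))

/-- integrability of a bounded measurable function times a continuous function with compact
support -/
private theorem fe_ib {V : Type} [TopologicalSpace V] [MeasurableSpace V] [BorelSpace V]
    [SecondCountableTopology V] {μ : Measure V} [IsFiniteMeasureOnCompacts μ] (b : V → ℝ) (hb : Measurable b)
    (M : ℝ) (hM : ∀ v, |b v| ≤ M) (K : V → ℂ) (hK : Continuous K) (hc : HasCompactSupport K) :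
    Integrable (fun v => ((b v : ℝ) : ℂ) * K v) μ := by
  refine (hK.integrable_of_hasCompactSupport hc).bdd_mul (c := M)
    (Complex.measurable_ofReal.comp hb).aestronglyMeasurable
    (Filter.Eventually.of_forall fun v => ?_)
  simp only [Complex.norm_real, Real.norm_eq_abs, Function.comp]
  exact hM v

private theorem fe_B {φ h : (Fin n → Fin q) → Cfg n k → ℂ} (hφ : Sm q n k Λ φ)
    (hh : Sm q n k Λ h) {χ : E3 → ℝ} (hχ : Bump χ) (r : ℝ) (hr : 0 < r) (w : E3) (f : E3 → ℝ)
    (hf : Measurable f) (Mf : ℝ) (hMf : ∀ v, |f v| ≤ Mf) (a : Fin n) (α τ : Fin q) :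
    ip (trf χ r a w f α τ φ) h = ip φ (fun σ p => if σ a = τ then
      ((f (p.1 a) : ℝ) : ℂ) * feH χ r w a (h (Function.update σ a α)) p else 0) := by
  obtain ⟨T, hT⟩ : ∃ T : (Fin n → Fin q) → (Fin n → Fin q) → ℂ, T = fun σ' σ =>
      ∫ p : Cfg n k, (starRingEnd ℂ) (φ σ' p) *
        (((f (p.1 a) : ℝ) : ℂ) * feH χ r w a (h σ) p) := ⟨_, rfl⟩
  have h1 : ip φ (fun σ p => if σ a = τ then
      ((f (p.1 a) : ℝ) : ℂ) * feH χ r w a (h (Function.update σ a α)) p else 0) =
      ∑ σ : Fin n → Fin q, (if σ a = τ then T σ (Function.update σ a α) else 0) := by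
    unfold ip
    refine sum_congr rfl fun σ _ => ?_
    by_cases hσ : σ a = τ
    · simp only [if_pos hσ, hT]
    · simp only [if_neg hσ, mul_zero, integral_zero]
  have h2 : ip (trf χ r a w f α τ φ) h =
      ∑ σ : Fin n → Fin q, (if σ a = α then T (Function.update σ a τ) σ else 0) := by
    unfold ip trf
    refine sum_congr rfl fun σ _ => ?_
    by_cases hσ : σ a = α
    · simp only [if_pos hσ, hT]
      obtain ⟨σ', hσ'⟩ : ∃ σ', σ' = Function.update σ a τ := ⟨_, rfl⟩
      rw [← hσ']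
      obtain ⟨G, hG⟩ : ∃ G : Cfg n k × E3 → ℂ, G = fun u => ((f (u.1.1 a) : ℝ) : ℂ) *
        ((starRingEnd ℂ) (φ σ' u.1) * (((chr χ r (u.2 - w) : ℝ) : ℂ) *
          h σ (Function.update u.1.1 a u.2, u.1.2))) := ⟨_, rfl⟩
      have hGi : Integrable G := by
        rw [hG]
        refine fe_ib (fun u : Cfg n k × E3 => f (u.1.1 a))
          (hf.comp ((measurable_pi_apply a).comp (measurable_fst.comp measurable_fst))) Mf
          (fun u => hMf _) _ ?_ ?_
        · have c1 : Continuous (fun u : Cfg n k × E3 => (starRingEnd ℂ) (φ σ' u.1)) :=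
            Complex.continuous_conj.comp ((hφ.smooth σ').continuous.comp continuous_fst)
          have c2 : Continuous (fun u : Cfg n k × E3 => ((chr χ r (u.2 - w) : ℝ) : ℂ)) :=
            Complex.continuous_ofReal.comp ((fe_chc hχ hr w).comp continuous_snd)
          exact c1.mul (c2.mul ((hh.smooth σ).continuous.comp (fe_updc a)))
        · refine HasCompactSupport.intro
            ((hφ.cpt σ').prod (isCompact_closedBall w r)) fun u hu => ?_
          rw [Set.mem_prod, not_and_or] at hu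
          rcases hu with hu | hu
          · rw [image_eq_zero_of_notMem_tsupport hu]
            simp
          · rw [fe_chz hχ hr w _ hu]
            simp
      have hex := fe_ex a G hGi
      have e1 : ∀ p : Cfg n k, (starRingEnd ℂ) (((chr χ r (p.1 a - w) : ℝ) : ℂ) *
          ∫ ξ, ((f ξ : ℝ) : ℂ) * φ σ' (Function.update p.1 a ξ, p.2)) * h σ p =
          ∫ ξ : E3, G (swE a (p, ξ)) := by
        intro p
        rw [map_mul, ← integral_conj, Complex.conj_ofReal, ← integral_const_mul,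
          ← integral_mul_const]
        congr 1
        funext ξ
        rw [hG]
        simp only [swE, Function.update_self, Function.update_idem, Function.update_eq_self,
          map_mul, Complex.conj_ofReal]
        ring
      have e2 : ∀ p : Cfg n k, ∫ y : E3, G (p, y) = (starRingEnd ℂ) (φ σ' p) *
          (((f (p.1 a) : ℝ) : ℂ) * feH χ r w a (h σ) p) := by
        intro p
        rw [hG]
        simp only
        unfold feH
        rw [integral_const_mul, integral_const_mul]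
        ring
      simp_rw [e1]
      rw [hex]
      simp_rw [e2]
    · simp only [if_neg hσ, map_zero, zero_mul, integral_zero]
  rw [h1, h2, fe_spin]

private theorem fe_C {φ h : (Fin n → Fin q) → Cfg n k → ℂ} (hφ : Sm q n k Λ φ)
    (hh : Sm q n k Λ h) {χ : E3 → ℝ} (hχ : Bump χ) (r : ℝ) (hr : 0 < r) (w : E3) (f : E3 → ℝ)
    (hf : Measurable f) (Mf : ℝ) (hMf : ∀ v, |f v| ≤ Mf) (a : Fin n) (α τ : Fin q)
    (s : (Fin n → E3) → ℝ) (hs : Continuous s)
    (hsu : ∀ x v, s (Function.update x a v) = s x) :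
    ip φ (fun σ p => if σ a = τ then ((s p.1 : ℝ) : ℂ) *
      (((f (p.1 a) : ℝ) : ℂ) * feH χ r w a (h (Function.update σ a α)) p) else 0) =
    ip (trf χ r a w f τ τ φ) (mf (fun p => s p.1)
      (trf χ r a w (fun v => chr χ r (v - w)) τ α h)) := by
  unfold ip trf mf
  refine sum_congr rfl fun σ _ => ?_
  by_cases hσ : σ a = τ
  · simp only [if_pos hσ]
    have hup : Function.update σ a τ = σ := by rw [← hσ, Function.update_eq_self]
    rw [hup]
    obtain ⟨hs', hhs'⟩ : ∃ hs', hs' = h (Function.update σ a α) := ⟨_, rfl⟩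
    rw [← hhs']
    have hcs : Continuous hs' := by rw [hhs']; exact (hh.smooth _).continuous
    obtain ⟨G, hG⟩ : ∃ G : Cfg n k × E3 → ℂ, G = fun u => ((f (u.1.1 a) : ℝ) : ℂ) *
      ((starRingEnd ℂ) (φ σ u.1) * (((chr χ r (u.2 - w) : ℝ) : ℂ) ^ 2 *
        (((s u.1.1 : ℝ) : ℂ) * feH χ r w a hs' u.1))) := ⟨_, rfl⟩
    have hGi : Integrable G := by
      rw [hG]
      refine fe_ib (fun u : Cfg n k × E3 => f (u.1.1 a))
        (hf.comp ((measurable_pi_apply a).comp (measurable_fst.comp measurable_fst))) Mf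
        (fun u => hMf _) _ ?_ ?_
      · have c1 : Continuous (fun u : Cfg n k × E3 => (starRingEnd ℂ) (φ σ u.1)) :=
          Complex.continuous_conj.comp ((hφ.smooth σ).continuous.comp continuous_fst)
        have c2 : Continuous (fun u : Cfg n k × E3 => ((chr χ r (u.2 - w) : ℝ) : ℂ)) :=
          Complex.continuous_ofReal.comp ((fe_chc hχ hr w).comp continuous_snd)
        have c3 : Continuous (fun u : Cfg n k × E3 => ((s u.1.1 : ℝ) : ℂ)) :=
          Complex.continuous_ofReal.comp (hs.comp (continuous_fst.comp continuous_fst))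
        exact c1.mul ((c2.pow 2).mul (c3.mul ((feH_cont hχ hr w a hcs).comp continuous_fst)))
      · refine HasCompactSupport.intro
          ((hφ.cpt σ).prod (isCompact_closedBall w r)) fun u hu => ?_
        rw [Set.mem_prod, not_and_or] at hu
        rcases hu with hu | hu
        · rw [image_eq_zero_of_notMem_tsupport hu]
          simp
        · rw [fe_chz hχ hr w _ hu]
          simp
    have hex := fe_ex a G hGi
    have e1 : ∀ p : Cfg n k, (starRingEnd ℂ) (((chr χ r (p.1 a - w) : ℝ) : ℂ) *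
        ∫ ξ, ((f ξ : ℝ) : ℂ) * φ σ (Function.update p.1 a ξ, p.2)) *
        (((s p.1 : ℝ) : ℂ) * (((chr χ r (p.1 a - w) : ℝ) : ℂ) *
          ∫ ξ, ((chr χ r (ξ - w) : ℝ) : ℂ) * hs' (Function.update p.1 a ξ, p.2))) =
        ∫ ξ : E3, G (swE a (p, ξ)) := by
      intro p
      have e0 : ∫ ξ, ((chr χ r (ξ - w) : ℝ) : ℂ) * hs' (Function.update p.1 a ξ, p.2) =
          feH χ r w a hs' p := rfl
      rw [e0, map_mul, ← integral_conj, Complex.conj_ofReal, ← integral_const_mul,
        ← integral_mul_const]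
      congr 1
      funext ξ
      rw [hG]
      simp only [swE, Function.update_self, hsu, feH_upd, map_mul, Complex.conj_ofReal]
      ring
    have e2 : ∀ p : Cfg n k, ∫ y : E3, G (p, y) = (starRingEnd ℂ) (φ σ p) *
        (((s p.1 : ℝ) : ℂ) * (((f (p.1 a) : ℝ) : ℂ) * feH χ r w a hs' p)) := by
      intro p
      rw [hG]
      simp only
      rw [integral_const_mul, integral_const_mul, integral_mul_const]
      have e3 : ∫ y : E3, ((chr χ r (y - w) : ℝ) : ℂ) ^ 2 = 1 := by
        have e4 : ∀ y : E3, ((chr χ r (y - w) : ℝ) : ℂ) ^ 2 = ((chr χ r (y - w) ^ 2 : ℝ) : ℂ) := by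
          intro y
          push_cast
          rfl
        simp_rw [e4]
        rw [integral_complex_ofReal, integral_sub_right_eq_self (fun v => chr χ r v ^ 2) w,
          chr_norm hχ r hr]
        simp
      rw [e3]
      ring
    simp_rw [e1]
    rw [hex]
    simp_rw [e2]
  · simp only [if_neg hσ, map_zero, zero_mul, mul_zero, integral_zero]

private theorem fe_m (hm : MeasurableSet Λ) (hb : Bornology.IsBounded Λ)
    {φ : (Fin n → Fin q) → Cfg n k → ℂ} (hφ : St q n k Λ φ) {χ : E3 → ℝ} (hχ : Bump χ) (r : ℝ)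
    (hr : 0 < r) (w : E3) (f : E3 → ℝ) (hf : Measurable f) (Mf : ℝ) (hMf : ∀ v, |f v| ≤ Mf)
    (a : Fin n) (α τ : Fin q) :
    n * mass (trf χ r a w f α τ φ) ≤ (∫ v in Λ, f v ^ 2) * mass φ := by
  have hρc : Continuous (fun v : E3 => chr χ r (v - w) ^ 2) := (fe_chc hχ hr w).pow 2
  have hρs : HasCompactSupport (fun v : E3 => chr χ r (v - w) ^ 2) := by
    refine HasCompactSupport.intro (isCompact_closedBall w r) fun v hv => ?_
    rw [fe_chz hχ hr w v hv]
    simp
  have hρ1 : ∫ v : E3, chr χ r (v - w) ^ 2 = 1 := by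
    rw [integral_sub_right_eq_self (fun v => chr χ r v ^ 2) w]
    exact chr_norm hχ r hr
  have h1 := pauliT hm hb hφ f hf Mf hMf (fun v => chr χ r (v - w) ^ 2) hρc hρs
    (fun v => sq_nonneg _) hρ1 a τ
  have h2 : mass (trf χ r a w f α τ φ) = ∑ σ : Fin n → Fin q, (if σ a = τ then
      ∫ p : Cfg n k, chr χ r (p.1 a - w) ^ 2 *
        ‖∫ ξ, ((f ξ : ℝ) : ℂ) * φ σ (Function.update p.1 a ξ, p.2)‖ ^ 2 else 0) := by
    have h3 := fe_spin (R := ℝ) a α τ (fun σ' _ => ∫ p : Cfg n k, chr χ r (p.1 a - w) ^ 2 *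
        ‖∫ ξ, ((f ξ : ℝ) : ℂ) * φ σ' (Function.update p.1 a ξ, p.2)‖ ^ 2)
    rw [← h3]
    unfold mass trf
    refine sum_congr rfl fun σ _ => ?_
    by_cases hσ : σ a = α
    · simp only [if_pos hσ]
      congr 1
      funext p
      rw [norm_mul, Complex.norm_real, mul_pow, Real.norm_eq_abs, sq_abs]
    · simp only [if_neg hσ]
      simp
  rw [h2]
  exact h1

end

theorem frmE {ι : Type} [Fintype ι] {q n k : ℕ} {Λ : Set E3} (hm : MeasurableSet Λ)
    (hb : Bornology.IsBounded Λ) {Ψ : ι → (Fin n → Fin q) → Cfg n k → ℂ}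
    (hst : ∀ i, St q n k Λ (Ψ i)) (hort : Ort Ψ) (a : Fin n) (g : Cfg n k → ℝ)
    (hg : ContDiff ℝ (⊤ : ℕ∞) g) (hgs : Sy g) (M : ℝ) (hM : ∀ p, |g p| ≤ M) (J : E3 → ℝ)
    (hJ : ContDiff ℝ (⊤ : ℕ∞) J) (hJ1 : ∀ v, 0 ≤ J v ∧ J v ≤ 1) (s : (Fin n → E3) → ℝ)
    (hs : ContDiff ℝ (⊤ : ℕ∞) s) (hsu : ∀ x v, s (Function.update x a v) = s x)
    (hs1 : ∀ x, |s x| ≤ 1) (f : E3 → ℝ) (hf : Measurable f) (Mf : ℝ) (hMf : ∀ v, |f v| ≤ Mf)
    {χ : E3 → ℝ} (hχ : Bump χ) (r : ℝ) (hr : 0 < r) (hr1 : r ≤ 1) (w : E3)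
    (hw : Metric.closedBall w 1 ⊆ Λ) (α τ : Fin q)
    (h : (Fin n → Fin q) → Cfg n k → ℂ) (hh : St q n k Λ h) :
    ∑ i, ‖ip (atr χ r a w f α τ (mf (fun p => g p * (J (p.1 a) * s p.1)) (Ψ i))) h‖ ^ 2 /
        mass (Ψ i) ≤
      (n : ℝ)⁻¹ * (M ^ 2 * (∫ v in Λ, (f v * J v) ^ 2)) * mass h := by
  have hn1 : (1 : ℝ) ≤ n := by
    have : 0 < n := lt_of_le_of_lt (Nat.zero_le _) a.2
    exact_mod_cast this
  have hn0 : (0 : ℝ) < n := by linarith
  have hhs := St_sm hh
  obtain ⟨F, hF⟩ : ∃ F : Cfg n k → ℝ, F = fun p => g p * (J (p.1 a) * s p.1) := ⟨_, rfl⟩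
  have hFc : ContDiff ℝ (⊤ : ℕ∞) F := by
    rw [hF]
    exact hg.mul ((hJ.comp ((contDiff_apply ℝ E3 a).comp contDiff_fst)).mul
      (hs.comp contDiff_fst))
  rw [← hF]
  obtain ⟨H0, hH0⟩ : ∃ H0 : (Fin n → Fin q) → Cfg n k → ℂ, H0 = fun σ p => if σ a = τ then
      ((f (p.1 a) : ℝ) : ℂ) * feH χ r w a (h (Function.update σ a α)) p else 0 := ⟨_, rfl⟩
  obtain ⟨Y, hY⟩ : ∃ Y : (Fin n → Fin q) → Cfg n k → ℂ, Y = fun σ p => if σ a = τ then
      ((s p.1 : ℝ) : ℂ) * (((f (p.1 a) * J (p.1 a) : ℝ) : ℂ) *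
        feH χ r w a (h (Function.update σ a α)) p) else 0 := ⟨_, rfl⟩
  have hYH : mf F H0 = mf g Y := by
    funext σ p
    rw [hF, hH0, hY]
    unfold mf
    by_cases hσ : σ a = τ
    · simp only [if_pos hσ]
      push_cast
      ring
    · simp only [if_neg hσ, mul_zero]
  have hfJ : Measurable (fun v => f v * J v) := hf.mul hJ.continuous.measurable
  have hfJM : ∀ v, |f v * J v| ≤ Mf := by
    intro v
    rw [abs_mul, abs_of_nonneg (hJ1 v).1]
    have := hMf v
    have h2 := (hJ1 v).2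
    have h3 := (hJ1 v).1
    calc |f v| * J v ≤ |f v| * 1 := mul_le_mul_of_nonneg_left h2 (abs_nonneg _)
      _ ≤ Mf := by linarith
  have hchb : ∃ Mc : ℝ, ∀ v : E3, |chr χ r (v - w)| ≤ Mc := by
    have hcs : HasCompactSupport (fun v : E3 => chr χ r (v - w)) :=
      HasCompactSupport.intro (isCompact_closedBall w r) fun v hv => fe_chz hχ hr w v hv
    obtain ⟨Mc, hMc⟩ := hcs.exists_bound_of_continuous (fe_chc hχ hr w)
    exact ⟨Mc, hMc⟩
  obtain ⟨Mc, hMc⟩ := hchb
  have hchr1 : ∫ v in Λ, chr χ r (v - w) ^ 2 ≤ 1 := by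
    have e1 : ∫ v : E3, chr χ r (v - w) ^ 2 = 1 := by
      rw [integral_sub_right_eq_self (fun v => chr χ r v ^ 2) w]
      exact chr_norm hχ r hr
    rw [← e1]
    refine setIntegral_le_integral ?_ (Filter.Eventually.of_forall fun v => sq_nonneg _)
    exact ((fe_chc hχ hr w).pow 2).integrable_of_hasCompactSupport
      (HasCompactSupport.intro (isCompact_closedBall w r) fun v hv => by
        simp [fe_chz hχ hr w v hv])
  have hmh : 0 ≤ mass h := mass_nonneg
  have hI0 : 0 ≤ ∫ v in Λ, (f v * J v) ^ 2 := integral_nonneg fun v => sq_nonneg _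
  -- the bound for a single wave function
  have hbd : ∀ ψ, St q n k Λ ψ → ‖ip ψ (mf F H0)‖ ^ 2 ≤
      ((n : ℝ)⁻¹ * (n : ℝ)⁻¹ * (M ^ 2 * (∫ v in Λ, (f v * J v) ^ 2)) * mass h) * mass ψ := by
    intro ψ hψ
    have hφ' := mf_st hψ hg hgs
    have hφs := St_sm hφ'
    rw [hYH, ← ip_mf, hY, fe_C hφs hhs hχ r hr w (fun v => f v * J v) hfJ Mf hfJM a α τ s
      hs.continuous hsu]
    have s1 := trf_sm hφs hχ r hr hr1 a w hw (fun v => f v * J v) hfJ Mf hfJM τ τ
    have s2 := trf_sm hhs hχ r hr hr1 a w hw (fun v => chr χ r (v - w))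
      (fe_chc hχ hr w).measurable Mc hMc τ α
    have hsc : ContDiff ℝ (⊤ : ℕ∞) (fun p : Cfg n k => s p.1) := hs.comp contDiff_fst
    have s3 := mf_sm s2 hsc
    refine (ip_cs s1 s3).trans ?_
    have m1 := fe_m hm hb hφ' hχ r hr w (fun v => f v * J v) hfJ Mf hfJM a τ τ
    have m2 := fe_m hm hb hh hχ r hr w (fun v => chr χ r (v - w))
      (fe_chc hχ hr w).measurable Mc hMc a τ α
    have m3 : mass (mf g ψ) ≤ M ^ 2 * mass ψ := by
      rw [mass_mf, ← mean_const]
      refine mean_mono (IM.cont (St_sm hψ) (hg.continuous.pow 2))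
        (IM.cont (St_sm hψ) continuous_const) fun σ p _ => ?_
      have := hM p
      rw [← sq_abs]
      exact pow_le_pow_left₀ (abs_nonneg _) this 2
    have m4 : mass (mf (fun p : Cfg n k => s p.1)
        (trf χ r a w (fun v => chr χ r (v - w)) τ α h)) ≤
        mass (trf χ r a w (fun v => chr χ r (v - w)) τ α h) := by
      rw [mass_mf, ← mean_one]
      refine mean_mono (IM.cont s2 (hsc.continuous.pow 2))
        (IM.cont s2 continuous_const) fun σ p _ => ?_
      have := hs1 p.1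
      rw [← sq_abs]
      have h5 := pow_le_pow_left₀ (abs_nonneg _) this 2
      simpa using h5
    have m5 : (0 : ℝ) ≤ mass (trf χ r a w (fun v => f v * J v) τ τ (mf g ψ)) := mass_nonneg
    have m6 : (0 : ℝ) ≤ mass (trf χ r a w (fun v => chr χ r (v - w)) τ α h) := mass_nonneg
    have m7 : mass (trf χ r a w (fun v => f v * J v) τ τ (mf g ψ)) ≤
        (n : ℝ)⁻¹ * ((∫ v in Λ, (f v * J v) ^ 2) * (M ^ 2 * mass ψ)) := by
      rw [← mul_le_mul_iff_right₀ hn0, ← mul_assoc, mul_inv_cancel₀ hn0.ne', one_mul]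
      exact m1.trans (mul_le_mul_of_nonneg_left m3 hI0)
    have m8 : mass (trf χ r a w (fun v => chr χ r (v - w)) τ α h) ≤ (n : ℝ)⁻¹ * mass h := by
      rw [← mul_le_mul_iff_right₀ hn0, ← mul_assoc, mul_inv_cancel₀ hn0.ne', one_mul]
      refine m2.trans ?_
      calc (∫ v in Λ, chr χ r (v - w) ^ 2) * mass h ≤ 1 * mass h :=
            mul_le_mul_of_nonneg_right hchr1 hmh
        _ = mass h := one_mul _
    calc mass (trf χ r a w (fun v => f v * J v) τ τ (mf g ψ)) *
          mass (mf (fun p : Cfg n k => s p.1)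
            (trf χ r a w (fun v => chr χ r (v - w)) τ α h))
        ≤ ((n : ℝ)⁻¹ * ((∫ v in Λ, (f v * J v) ^ 2) * (M ^ 2 * mass ψ))) *
            ((n : ℝ)⁻¹ * mass h) := by
          refine mul_le_mul m7 (m4.trans m8) mass_nonneg ?_
          exact m5.trans m7
      _ = ((n : ℝ)⁻¹ * (n : ℝ)⁻¹ * (M ^ 2 * (∫ v in Λ, (f v * J v) ^ 2)) * mass h) * mass ψ := by
          ring
  -- local integrability
  have hloc : ∀ σ, LocallyIntegrable (mf F H0 σ) := by
    intro σ
    by_cases hσ : σ a = τ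
    · have c1 : Continuous (fun p : Cfg n k => ((Mf : ℝ) : ℂ) * (((F p : ℝ) : ℂ) *
          feH χ r w a (h (Function.update σ a α)) p)) :=
        continuous_const.mul ((Complex.continuous_ofReal.comp hFc.continuous).mul
          (feH_cont hχ hr w a (hh.smooth _).continuous))
      refine c1.locallyIntegrable.mono ?_ (Filter.Eventually.of_forall fun p => ?_)
      · have c2 : mf F H0 σ = fun p : Cfg n k => ((F p : ℝ) : ℂ) * (((f (p.1 a) : ℝ) : ℂ) *
            feH χ r w a (h (Function.update σ a α)) p) := by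
          funext p
          rw [hH0]
          unfold mf
          simp only [if_pos hσ]
        rw [c2]
        exact ((Complex.continuous_ofReal.comp hFc.continuous).measurable.mul
          ((Complex.measurable_ofReal.comp (hf.comp ((measurable_pi_apply a).comp
            measurable_fst))).mul
            (feH_cont hχ hr w a (hh.smooth _).continuous).measurable)).aestronglyMeasurable
      · rw [hH0]
        unfold mf
        simp only [if_pos hσ, norm_mul, Complex.norm_real, Real.norm_eq_abs]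
        have h1 : |f (p.1 a)| ≤ |Mf| := (hMf _).trans (le_abs_self _)
        have h2 : 0 ≤ |F p| * ‖feH χ r w a (h (Function.update σ a α)) p‖ := by positivity
        calc |F p| * (|f (p.1 a)| * ‖feH χ r w a (h (Function.update σ a α)) p‖)
            = |f (p.1 a)| * (|F p| * ‖feH χ r w a (h (Function.update σ a α)) p‖) := by ring
          _ ≤ |Mf| * (|F p| * ‖feH χ r w a (h (Function.update σ a α)) p‖) :=
              mul_le_mul_of_nonneg_right h1 h2
    · have c2 : mf F H0 σ = fun _ => 0 := by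
        funext p
        rw [hH0]
        unfold mf
        simp only [if_neg hσ, mul_zero]
      rw [c2]
      exact continuous_const.locallyIntegrable
  have hB0 : 0 ≤ (n : ℝ)⁻¹ * (n : ℝ)⁻¹ * (M ^ 2 * (∫ v in Λ, (f v * J v) ^ 2)) * mass h := by
    positivity
  have hbess := bess hst hort (mf F H0) hloc _ hB0 hbd
  -- the products with the relocated functions
  have hpr : ∀ i, ‖ip (atr χ r a w f α τ (mf F (Ψ i))) h‖ ^ 2 =
      n * ‖ip (Ψ i) (mf F H0)‖ ^ 2 := by
    intro i
    have hΨs := mf_sm (St_sm (hst i)) hFc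
    have e1 : atr χ r a w f α τ (mf F (Ψ i)) =
        (((Real.sqrt n)⁻¹ : ℝ) : ℂ) • anti a (trf χ r a w f α τ (mf F (Ψ i))) := by
      funext σ p
      rfl
    have e2 : ip ((((Real.sqrt n)⁻¹ : ℝ) : ℂ) • anti a (trf χ r a w f α τ (mf F (Ψ i)))) h =
        (((Real.sqrt n)⁻¹ : ℝ) : ℂ) * ip (anti a (trf χ r a w f α τ (mf F (Ψ i)))) h := by
      rw [← ip_conj, ip_smul, map_mul, ip_conj, Complex.conj_ofReal]
    rw [e1, e2, fe_anti (trf_sm hΨs hχ r hr hr1 a w hw f hf Mf hMf α τ) hh a,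
      fe_B hΨs hhs hχ r hr w f hf Mf hMf a α τ, ← hH0, ip_mf]
    rw [norm_mul, norm_mul, Complex.norm_real, Complex.norm_natCast, mul_pow, mul_pow,
      Real.norm_eq_abs, sq_abs, inv_pow, Real.sq_sqrt (Nat.cast_nonneg n)]
    field_simp
  calc ∑ i, ‖ip (atr χ r a w f α τ (mf F (Ψ i))) h‖ ^ 2 / mass (Ψ i)
      = n * ∑ i, ‖ip (Ψ i) (mf F H0)‖ ^ 2 / mass (Ψ i) := by
        rw [mul_sum]
        refine sum_congr rfl fun i _ => ?_
        rw [hpr i]
        ring
    _ ≤ n * ((n : ℝ)⁻¹ * (n : ℝ)⁻¹ * (M ^ 2 * (∫ v in Λ, (f v * J v) ^ 2)) * mass h) :=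
        mul_le_mul_of_nonneg_left hbess hn0.le
    _ = (n : ℝ)⁻¹ * (M ^ 2 * (∫ v in Λ, (f v * J v) ^ 2)) * mass h := by
        field_simp

end H6.CT
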