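import Pool.Agent.H6.CT.Defs
import Pool.Agent.H6.CB.MmF
import Pool.Agent.H6.CB.ImsG

/-! The dyadic partition. `Gz c t = 1` for `t ≤ 2 ^ c` and `0` for `2 ^ (c + 1) ≤ t`; so `cos (π/2 * Gz (c + 1) t) = 0` wherever `Gz c t ≠ 0`, and `∑ c ≤ L, zt c t ^ 2 = sin (π/2 * Gz L t) ^ 2` by induction. `zt_lo`: `zt (c + 1) t ≠ 0` needs `2 ^ c < t`. `zt_cost`: `c * log 2 ≤ log 2 + log (1 + t)` where `zt c t ≠ 0` and `t ≥ 0`. `zt_deriv`: the derivative of `Gz c` is bounded by `C 2 ^ -c` (`Real.smoothTransition` has bounded derivative: it is smooth and constant outside `[0, 1]`), and it vanishes unless `2 ^ c ≤ t ≤ 2 ^ (c + 1)`, so that of `zt c` is at most `C 2 ^ -c ≤ 4 C / (1 + t)` in absolute value and at most three of them are nonzero at `t`. `mj_gm`: `gr (Jc ^ 2) ≤ C * Jc ^ 2` (`Jc_grad` with `r = 1/2`: `∇ (Jc ^ 2) = 2 Jc ∇ Jc`), the sum over `l ≠ j` is `C * κp * mj`. `zt_gm`: `∑ c, deriv (zt c) (mj) ^ 2 * Gm κ mj ≤ C (1 + mj) ^ -2 *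 mj`. `mj_cn`: `Jc θ w (1/2) v ≤ 1[‖v - w‖ < 1]`. `mj_upd`: `mj θ w j` does not depend on the position of nucleus `j` nor on the electrons. `mj_near`: if `l` is within `1/2` of `w` its summand is `1`. -/

open MeasureTheory Finset

namespace H6.CT

open H6.CM H6.CB H6.CL

private theorem zf_G1 (c : ℕ) (t : ℝ) (h : t ≤ 2 ^ c) : Gz c t = 1 := by
  unfold Gz
  refine Real.smoothTransition.one_of_one_le ?_
  have h1 : t / 2 ^ c ≤ 1 := by
    rw [div_le_one (by positivity)]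
    exact h
  linarith

private theorem zf_G0 (c : ℕ) (t : ℝ) (h : 2 ^ (c + 1) ≤ t) : Gz c t = 0 := by
  unfold Gz
  refine Real.smoothTransition.zero_of_nonpos ?_
  have h1 : 2 ≤ t / 2 ^ c := by
    rw [le_div_iff₀ (by positivity)]
    rw [pow_succ] at h
    linarith
  linarith

private theorem zf_sin0 : Real.sin (Real.pi / 2 * 0) = 0 := by
  rw [mul_zero, Real.sin_zero]

private theorem zf_sin1 : Real.sin (Real.pi / 2 * 1) = 1 := by
  rw [mul_one, Real.sin_pi_div_two]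

private theorem zf_cos1 : Real.cos (Real.pi / 2 * 1) = 0 := by
  rw [mul_one, Real.cos_pi_div_two]

private theorem zf_Gs (c : ℕ) : ContDiff ℝ (⊤ : ℕ∞) (Gz c) := by
  unfold Gz
  exact Real.smoothTransition.contDiff.comp (contDiff_const.sub (contDiff_id.div_const _))

theorem zt_smooth (c : ℕ) : ContDiff ℝ (⊤ : ℕ∞) (zt c) := by
  cases c with
  | zero =>
    show ContDiff ℝ (⊤ : ℕ∞) fun t => Real.sin (Real.pi / 2 * Gz 0 t)
    exact Real.contDiff_sin.comp (contDiff_const.mul (zf_Gs 0))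
  | succ c =>
    show ContDiff ℝ (⊤ : ℕ∞) fun t => Real.cos (Real.pi / 2 * Gz c t) *
      Real.sin (Real.pi / 2 * Gz (c + 1) t)
    exact (Real.contDiff_cos.comp (contDiff_const.mul (zf_Gs c))).mul
      (Real.contDiff_sin.comp (contDiff_const.mul (zf_Gs (c + 1))))

private theorem zf_sum (L : ℕ) (t : ℝ) : ∑ c ∈ range (L + 1), zt c t ^ 2 =
    Real.sin (Real.pi / 2 * Gz L t) ^ 2 := by
  induction L with
  | zero =>
    rw [zero_add, sum_range_one]
    rfl
  | succ L ih =>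
    rw [sum_range_succ, ih]
    show _ + (Real.cos (Real.pi / 2 * Gz L t) * Real.sin (Real.pi / 2 * Gz (L + 1) t)) ^ 2 = _
    by_cases h : t ≤ 2 ^ (L + 1)
    · rw [zf_G1 (L + 1) t h, zf_sin1, mul_one, Real.sin_sq_add_cos_sq, one_pow]
    · rw [zf_G0 L t (le_of_lt (not_le.1 h)), zf_sin0, mul_zero, Real.cos_zero]
      ring

theorem zt_sum (L : ℕ) (t : ℝ) (ht : t ≤ 2 ^ L) : ∑ c ∈ range (L + 1), zt c t ^ 2 = 1 := by
  rw [zf_sum, zf_G1 L t ht, zf_sin1, one_pow]

theorem zt_le (c : ℕ) (t : ℝ) : |zt c t| ≤ 1 := by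
  cases c with
  | zero => exact Real.abs_sin_le_one _
  | succ c =>
    show |Real.cos (Real.pi / 2 * Gz c t) * Real.sin (Real.pi / 2 * Gz (c + 1) t)| ≤ 1
    rw [abs_mul]
    exact mul_le_one₀ (Real.abs_cos_le_one _) (abs_nonneg _) (Real.abs_sin_le_one _)

theorem zt_hi (c : ℕ) (t : ℝ) (h : zt c t ≠ 0) : t < 2 ^ (c + 1) := by
  by_contra hc
  push Not at hc
  apply h
  cases c with
  | zero =>
    show Real.sin (Real.pi / 2 * Gz 0 t) = 0
    rw [zf_G0 0 t hc, zf_sin0]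
  | succ c =>
    show Real.cos (Real.pi / 2 * Gz c t) * Real.sin (Real.pi / 2 * Gz (c + 1) t) = 0
    rw [zf_G0 (c + 1) t hc, zf_sin0, mul_zero]

theorem zt_lo (c : ℕ) (t : ℝ) (h : zt (c + 1) t ≠ 0) : (2 : ℝ) ^ c < t := by
  by_contra hc
  push Not at hc
  apply h
  show Real.cos (Real.pi / 2 * Gz c t) * Real.sin (Real.pi / 2 * Gz (c + 1) t) = 0
  rw [zf_G1 c t hc, zf_cos1, zero_mul]

theorem zt_cost (L : ℕ) (t : ℝ) (ht : 0 ≤ t) (hL : t ≤ 2 ^ L) :
    ∑ c ∈ range (L + 1), (2 * c * Real.log 2) * zt c t ^ 2 ≤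
      2 * Real.log 2 + 2 * Real.log (1 + t) := by
  have hl2 : 0 < Real.log 2 := Real.log_pos (by norm_num)
  have hlt : 0 ≤ Real.log (1 + t) := Real.log_nonneg (by linarith)
  have h1 : ∀ c ∈ range (L + 1), (2 * c * Real.log 2) * zt c t ^ 2 ≤
      (2 * Real.log 2 + 2 * Real.log (1 + t)) * zt c t ^ 2 := by
    intro c _
    by_cases hz : zt c t = 0
    · rw [hz]
      simp
    · refine mul_le_mul_of_nonneg_right ?_ (sq_nonneg _)
      cases c with
      | zero =>
        simp only [Nat.cast_zero, mul_zero, zero_mul]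
        linarith
      | succ c =>
        have h2 := zt_lo c t hz
        have h3 : Real.log ((2 : ℝ) ^ c) ≤ Real.log (1 + t) :=
          Real.log_le_log (by positivity) (by linarith)
        rw [Real.log_pow] at h3
        push_cast
        linarith
  refine (sum_le_sum h1).trans (le_of_eq ?_)
  rw [← mul_sum, zt_sum L t hL, mul_one]

private theorem zf_st0 (x : ℝ) (h : deriv Real.smoothTransition x ≠ 0) : 0 < x ∧ x < 1 := by
  constructor
  · by_contra hx
    push Not at hx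
    apply h
    have h1 : IsLocalMin Real.smoothTransition x := Filter.Eventually.of_forall fun u => by
      show Real.smoothTransition x ≤ Real.smoothTransition u
      rw [Real.smoothTransition.zero_of_nonpos hx]
      exact Real.smoothTransition.nonneg u
    exact h1.deriv_eq_zero
  · by_contra hx
    push Not at hx
    apply h
    have h1 : IsLocalMax Real.smoothTransition x := Filter.Eventually.of_forall fun u => by
      show Real.smoothTransition u ≤ Real.smoothTransition x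
      rw [Real.smoothTransition.one_of_one_le hx]
      exact Real.smoothTransition.le_one u
    exact h1.deriv_eq_zero

private theorem zf_stb : ∃ K : ℝ, 0 ≤ K ∧ ∀ t, |deriv Real.smoothTransition t| ≤ K := by
  have hc : Continuous (deriv Real.smoothTransition) :=
    (Real.smoothTransition.contDiff (n := 1)).continuous_deriv le_rfl
  obtain ⟨K, hK⟩ := (isCompact_Icc (a := (0 : ℝ)) (b := 1)).exists_bound_of_continuousOn
    hc.continuousOn
  refine ⟨max K 0, le_max_right _ _, fun t => ?_⟩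
  by_cases ht : deriv Real.smoothTransition t = 0
  · rw [ht, abs_zero]
    exact le_max_right _ _
  · have h1 := zf_st0 t ht
    exact (hK t ⟨h1.1.le, h1.2.le⟩).trans (le_max_left _ _)

private theorem zf_Gd (c : ℕ) (t : ℝ) : HasDerivAt (Gz c)
    (deriv Real.smoothTransition (2 - t / 2 ^ c) * (-(1 / 2 ^ c))) t := by
  have h1 : HasDerivAt (fun t : ℝ => 2 - t / 2 ^ c) (-(1 / 2 ^ c)) t :=
    ((hasDerivAt_id t).div_const _).const_sub 2
  have h2 : HasDerivAt Real.smoothTransition (deriv Real.smoothTransition (2 - t / 2 ^ c))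
      (2 - t / 2 ^ c) :=
    (((Real.smoothTransition.contDiff (n := 1)).differentiable one_ne_zero) _).hasDerivAt
  exact h2.comp t h1

private theorem zf_d0 (t : ℝ) : deriv (zt 0) t =
    Real.cos (Real.pi / 2 * Gz 0 t) * (Real.pi / 2 * deriv (Gz 0) t) := by
  have h1 : HasDerivAt (Gz 0) (deriv (Gz 0) t) t := by
    rw [(zf_Gd 0 t).deriv]
    exact zf_Gd 0 t
  have h2 : HasDerivAt (fun t => Real.sin (Real.pi / 2 * Gz 0 t))
      (Real.cos (Real.pi / 2 * Gz 0 t) * (Real.pi / 2 * deriv (Gz 0) t)) t :=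
    (h1.const_mul (Real.pi / 2)).sin
  exact h2.deriv

private theorem zf_d1 (c : ℕ) (t : ℝ) : deriv (zt (c + 1)) t =
    -Real.sin (Real.pi / 2 * Gz c t) * (Real.pi / 2 * deriv (Gz c) t) *
      Real.sin (Real.pi / 2 * Gz (c + 1) t) + Real.cos (Real.pi / 2 * Gz c t) *
      (Real.cos (Real.pi / 2 * Gz (c + 1) t) * (Real.pi / 2 * deriv (Gz (c + 1)) t)) := by
  have h0 : ∀ c, HasDerivAt (Gz c) (deriv (Gz c) t) t := by
    intro c
    rw [(zf_Gd c t).deriv]
    exact zf_Gd c t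
  have h2 : HasDerivAt (fun t => Real.cos (Real.pi / 2 * Gz c t) *
      Real.sin (Real.pi / 2 * Gz (c + 1) t))
      (-Real.sin (Real.pi / 2 * Gz c t) * (Real.pi / 2 * deriv (Gz c) t) *
      Real.sin (Real.pi / 2 * Gz (c + 1) t) + Real.cos (Real.pi / 2 * Gz c t) *
      (Real.cos (Real.pi / 2 * Gz (c + 1) t) * (Real.pi / 2 * deriv (Gz (c + 1)) t))) t :=
    ((h0 c).const_mul (Real.pi / 2)).cos.mul ((h0 (c + 1)).const_mul (Real.pi / 2)).sin
  exact h2.deriv

private theorem zf_sq (a b x : ℝ) (ha : |a| ≤ 1) (hb : |b| ≤ 1) :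
    (a * (b * (Real.pi / 2 * x))) ^ 2 ≤ 4 * x ^ 2 := by
  have h1 : (Real.pi / 2) ^ 2 ≤ 4 := by
    nlinarith [Real.pi_le_four, Real.pi_pos]
  have ha2 : a ^ 2 ≤ 1 := by
    rw [← sq_abs]
    exact pow_le_one₀ (abs_nonneg _) ha
  have hb2 : b ^ 2 ≤ 1 := by
    rw [← sq_abs]
    exact pow_le_one₀ (abs_nonneg _) hb
  calc (a * (b * (Real.pi / 2 * x))) ^ 2 = a ^ 2 * (b ^ 2 * ((Real.pi / 2) ^ 2 * x ^ 2)) := by ring
    _ ≤ 1 * (1 * (4 * x ^ 2)) := by gcongr
    _ = 4 * x ^ 2 := by ring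

private theorem zf_dsum (L : ℕ) (t : ℝ) : ∑ c ∈ range (L + 1), deriv (zt c) t ^ 2 ≤
    16 * ∑ c ∈ range (L + 1), deriv (Gz c) t ^ 2 := by
  have key : ∑ c ∈ range (L + 1), deriv (zt c) t ^ 2 ≤
      16 * ∑ c ∈ range (L + 1), deriv (Gz c) t ^ 2 - 8 * deriv (Gz L) t ^ 2 := by
    induction L with
    | zero =>
      rw [zero_add, sum_range_one, sum_range_one, zf_d0]
      have h1 := zf_sq 1 (Real.cos (Real.pi / 2 * Gz 0 t)) (deriv (Gz 0) t) (by norm_num)
        (Real.abs_cos_le_one _)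
      rw [one_mul] at h1
      have h2 := sq_nonneg (deriv (Gz 0) t)
      linarith
    | succ L ih =>
      rw [sum_range_succ, sum_range_succ (fun c => deriv (Gz c) t ^ 2), zf_d1]
      have h1 := zf_sq (Real.sin (Real.pi / 2 * Gz (L + 1) t))
        (-Real.sin (Real.pi / 2 * Gz L t)) (deriv (Gz L) t) (Real.abs_sin_le_one _)
        (by rw [abs_neg]; exact Real.abs_sin_le_one _)
      have h2 := zf_sq (Real.cos (Real.pi / 2 * Gz L t))
        (Real.cos (Real.pi / 2 * Gz (L + 1) t)) (deriv (Gz (L + 1)) t) (Real.abs_cos_le_one _)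
        (Real.abs_cos_le_one _)
      have h3 : ∀ x y : ℝ, (x + y) ^ 2 ≤ 2 * (x ^ 2 + y ^ 2) := fun x y => by
        nlinarith [sq_nonneg (x - y)]
      have h4 := h3 (-Real.sin (Real.pi / 2 * Gz L t) * (Real.pi / 2 * deriv (Gz L) t) *
        Real.sin (Real.pi / 2 * Gz (L + 1) t)) (Real.cos (Real.pi / 2 * Gz L t) *
        (Real.cos (Real.pi / 2 * Gz (L + 1) t) * (Real.pi / 2 * deriv (Gz (L + 1)) t)))
      have h5 : -Real.sin (Real.pi / 2 * Gz L t) * (Real.pi / 2 * deriv (Gz L) t) *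
        Real.sin (Real.pi / 2 * Gz (L + 1) t) = Real.sin (Real.pi / 2 * Gz (L + 1) t) *
        (-Real.sin (Real.pi / 2 * Gz L t) * (Real.pi / 2 * deriv (Gz L) t)) := by ring
      rw [h5] at h4 ⊢
      linarith
  have := sq_nonneg (deriv (Gz L) t)
  linarith

theorem zt_deriv : ∃ C : ℝ, 0 ≤ C ∧ ∀ (L : ℕ) (t : ℝ) (_ : 0 ≤ t),
    ∑ c ∈ range (L + 1), deriv (zt c) t ^ 2 ≤ C * ((1 + t) ^ 2)⁻¹ := by
  obtain ⟨K, hK0, hK⟩ := zf_stb
  refine ⟨16 * (9 * K ^ 2), by positivity, fun L t ht => ?_⟩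
  refine (zf_dsum L t).trans ?_
  rw [mul_assoc]
  refine mul_le_mul_of_nonneg_left ?_ (by norm_num)
  have hne : ∀ c, deriv (Gz c) t ≠ 0 → (2 : ℝ) ^ c < t ∧ t < 2 ^ (c + 1) := by
    intro c hc
    rw [(zf_Gd c t).deriv] at hc
    have h1 := zf_st0 _ (left_ne_zero_of_mul hc)
    have hp : (0 : ℝ) < 2 ^ c := by positivity
    constructor
    · have h2 : 1 < t / 2 ^ c := by linarith [h1.2]
      rwa [one_lt_div hp] at h2
    · have h2 : t / 2 ^ c < 2 := by linarith [h1.1]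
      rw [div_lt_iff₀ hp] at h2
      rw [pow_succ]
      linarith
  have hb : ∀ c, deriv (Gz c) t ≠ 0 → deriv (Gz c) t ^ 2 ≤ 9 * K ^ 2 * ((1 + t) ^ 2)⁻¹ := by
    intro c hc
    have h1 := hne c hc
    have hp : (1 : ℝ) ≤ 2 ^ c := one_le_pow₀ (by norm_num)
    have h2 : 1 + t ≤ 3 * 2 ^ c := by
      have := h1.2
      rw [pow_succ] at this
      linarith
    rw [(zf_Gd c t).deriv, mul_pow, neg_sq, div_pow, one_pow]
    have h3 : deriv Real.smoothTransition (2 - t / 2 ^ c) ^ 2 ≤ K ^ 2 := by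
      rw [← sq_abs]
      exact pow_le_pow_left₀ (abs_nonneg _) (hK _) 2
    have h4 : 1 / ((2 : ℝ) ^ c) ^ 2 ≤ 9 * ((1 + t) ^ 2)⁻¹ := by
      have h5 : (1 + t) ^ 2 ≤ (3 * 2 ^ c) ^ 2 := pow_le_pow_left₀ (by linarith) h2 2
      rw [div_le_iff₀ (by positivity), mul_comm (9 : ℝ), mul_assoc,
        ← div_eq_inv_mul, le_div_iff₀ (by positivity)]
      nlinarith
    calc deriv Real.smoothTransition (2 - t / 2 ^ c) ^ 2 * (1 / ((2 : ℝ) ^ c) ^ 2)
        ≤ K ^ 2 * (9 * ((1 + t) ^ 2)⁻¹) := by gcongr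
      _ = 9 * K ^ 2 * ((1 + t) ^ 2)⁻¹ := by ring
  by_cases hex : ∃ c ∈ range (L + 1), deriv (Gz c) t ≠ 0
  · obtain ⟨c0, hc0, h0⟩ := hex
    rw [sum_eq_single c0]
    · exact hb c0 h0
    · intro c _ hcc
      have h1 : deriv (Gz c) t = 0 := by
        by_contra h2
        have h3 := hne c h2
        have h4 := hne c0 h0
        have h5 : (2 : ℝ) ^ c < 2 ^ (c0 + 1) := h3.1.trans h4.2
        have h6 : (2 : ℝ) ^ c0 < 2 ^ (c + 1) := h4.1.trans h3.2
        rw [pow_lt_pow_iff_right₀ (by norm_num)] at h5 h6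
        omega
      rw [h1]
      norm_num
    · intro h
      exact absurd hc0 h
  · push Not at hex
    rw [sum_eq_zero fun c hc => by rw [hex c hc]; norm_num]
    positivity

private theorem zf_gr (F : ℝ → ℝ) (h : E3 → ℝ) (v : E3) (hF : DifferentiableAt ℝ F (h v))
    (hh : DifferentiableAt ℝ h v) : gr (fun u => F (h u)) v = deriv F (h v) ^ 2 * gr h v := by
  have h1 : HasFDerivAt (fun u => F (h u)) (deriv F (h v) • fderiv ℝ h v) v :=
    hF.hasDerivAt.comp_hasFDerivAt v hh.hasFDerivAt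
  unfold gr
  rw [mul_sum]
  refine sum_congr rfl fun d _ => ?_
  rw [h1.fderiv]
  simp only [smul_apply, smul_eq_mul]
  ring

private theorem zf_Gm {n k : ℕ} (κ : Fin k → ℝ) (F : ℝ → ℝ) (hF : Differentiable ℝ F)
    (f : Cfg n k → ℝ) (hf : Differentiable ℝ f) (p : Cfg n k) :
    Gm κ (fun p => F (f p)) p = deriv F (f p) ^ 2 * Gm κ f p := by
  unfold Gm
  rw [mul_add, mul_sum, mul_sum]
  congr 1
  · refine sum_congr rfl fun a _ => ?_
    have h1 : DifferentiableAt ℝ (fun v : E3 => f ((Function.update p.1 a v, p.2) : Cfg n k))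
        (p.1 a) := by
      have h2 : DifferentiableAt ℝ (fun v : E3 => ((Function.update p.1 a v, p.2) : Cfg n k))
          (p.1 a) :=
        ((hasFDerivAt_update p.1 (p.1 a)).differentiableAt).prodMk (differentiableAt_const _)
      exact (hf _).comp _ h2
    have h3 := zf_gr F (fun v : E3 => f ((Function.update p.1 a v, p.2) : Cfg n k)) (p.1 a)
      (hF _) h1
    have h4 : f ((Function.update p.1 a (p.1 a), p.2) : Cfg n k) = f p := by
      rw [Function.update_eq_self]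
    simp only [h4] at h3
    exact h3
  · refine sum_congr rfl fun j _ => ?_
    have h1 : DifferentiableAt ℝ (fun v : E3 => f ((p.1, Function.update p.2 j v) : Cfg n k))
        (p.2 j) := by
      have h2 : DifferentiableAt ℝ (fun v : E3 => ((p.1, Function.update p.2 j v) : Cfg n k))
          (p.2 j) :=
        (differentiableAt_const _).prodMk ((hasFDerivAt_update p.2 (p.2 j)).differentiableAt)
      exact (hf _).comp _ h2
    have h3 := zf_gr F (fun v : E3 => f ((p.1, Function.update p.2 j v) : Cfg n k)) (p.2 j)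
      (hF _) h1
    have h4 : f ((p.1, Function.update p.2 j (p.2 j)) : Cfg n k) = f p := by
      rw [Function.update_eq_self]
    simp only [h4] at h3
    rw [h3]
    ring

section

variable {θ : E3 → ℝ} (hθ : Cut θ)
include hθ

theorem mj_smooth {n k : ℕ} (w : E3) (j : Fin k) :
    ContDiff ℝ (⊤ : ℕ∞) (mj (n := n) θ w j) := by
  unfold mj
  refine ContDiff.sum fun l _ => ?_
  refine ContDiff.pow ?_ 2
  exact (Jc_smooth hθ w (1 / 2)).comp ((contDiff_apply ℝ E3 l).comp contDiff_snd)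

theorem mj_mem {n k : ℕ} (w : E3) (j : Fin k) (p : Cfg n k) :
    0 ≤ mj θ w j p ∧ mj θ w j p ≤ k ∧ mj θ w j p ≤ cn p w 1 := by
  have h1 : mj θ w j p ≤ cn p w 1 := by
    unfold mj cn
    refine le_trans (sum_le_sum_of_subset_of_nonneg (erase_subset _ _)
      fun l _ _ => sq_nonneg (Jc θ w (1 / 2) (p.2 l))) ?_
    refine sum_le_sum fun l _ => ?_
    split_ifs with hx
    · obtain ⟨h1, h2⟩ := Jc_mem hθ w (1 / 2) (p.2 l)
      exact pow_le_one₀ h1 h2
    · rw [Jc_zero hθ w (1 / 2) (by norm_num) _ (by linarith [not_lt.mp hx])]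
      norm_num
  refine ⟨sum_nonneg fun _ _ => sq_nonneg _, h1.trans ?_, h1⟩
  unfold cn
  calc ∑ j : Fin k, (if ‖p.2 j - w‖ < 1 then (1 : ℝ) else 0) ≤ ∑ _j : Fin k, (1 : ℝ) := by
        refine sum_le_sum fun l _ => ?_
        split_ifs <;> norm_num
    _ = k := by simp

theorem mj_near {n k : ℕ} (w : E3) (j : Fin k) (p : Cfg n k) :
    ∑ l, (if ‖p.2 l - w‖ ≤ 1 / 2 then 1 else 0) ≤ mj θ w j p + 1 := by
  rw [← sum_erase_add univ _ (mem_univ j)]
  unfold mj
  refine add_le_add (sum_le_sum fun l _ => ?_) (by split_ifs <;> norm_num)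
  split_ifs with hx
  · rw [Jc_one hθ w (1 / 2) (by norm_num) _ hx]
    norm_num
  · exact sq_nonneg _

theorem mj_gm (κp : ℝ) : ∃ C : ℝ, 0 ≤ C ∧ ∀ (n k : ℕ) (κ : Fin k → ℝ)
    (_ : ∀ j, 0 ≤ κ j ∧ κ j ≤ κp) (w : E3) (j : Fin k) (p : Cfg n k),
    Gm κ (mj θ w j) p ≤ C * mj θ w j p := by
  obtain ⟨C1, hC1, hJ⟩ := Jc_grad hθ
  refine ⟨16 * C1 * |κp|, by positivity, fun n k κ hκ w j p => ?_⟩
  have hE : ∀ a : Fin n, gr (fun v => mj θ w j ((Function.update p.1 a v, p.2) : Cfg n k))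
      (p.1 a) = 0 := by
    intro a
    have e3 : (fun v => mj θ w j ((Function.update p.1 a v, p.2) : Cfg n k)) =
        fun _ => mj θ w j p := by
      funext v
      rfl
    rw [e3]
    unfold gr
    refine sum_eq_zero fun d _ => ?_
    simp
  have hNj : gr (fun v => mj θ w j ((p.1, Function.update p.2 j v) : Cfg n k)) (p.2 j) = 0 := by
    have e3 : (fun v => mj θ w j ((p.1, Function.update p.2 j v) : Cfg n k)) =
        fun _ => mj θ w j p := by
      funext v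
      unfold mj
      refine sum_congr rfl fun l hl => ?_
      show Jc θ w (1 / 2) (Function.update p.2 j v l) ^ 2 = _
      rw [Function.update_of_ne (mem_erase.1 hl).1]
    rw [e3]
    unfold gr
    refine sum_eq_zero fun d _ => ?_
    simp
  have hN : ∀ l ∈ univ.erase j, κ l * gr (fun v => mj θ w j
      ((p.1, Function.update p.2 l v) : Cfg n k)) (p.2 l) ≤
      16 * C1 * |κp| * Jc θ w (1 / 2) (p.2 l) ^ 2 := by
    intro l hl
    obtain ⟨S, hS⟩ : ∃ S : ℝ, S = ∑ b ∈ (univ.erase j).erase l, Jc θ w (1 / 2) (p.2 b) ^ 2 :=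
      ⟨_, rfl⟩
    have e1 : (fun v => mj θ w j ((p.1, Function.update p.2 l v) : Cfg n k)) =
        fun v => S + Jc θ w (1 / 2) v ^ 2 := by
      funext v
      unfold mj
      rw [hS, ← Finset.sum_erase_add (univ.erase j) _ hl]
      simp only [Function.update_self]
      congr 1
      refine sum_congr rfl fun b hb => ?_
      rw [Function.update_of_ne (mem_erase.1 hb).1]
    rw [e1]
    have d1 : DifferentiableAt ℝ (Jc θ w (1 / 2)) (p.2 l) :=
      (Jc_smooth hθ w (1 / 2)).differentiable (by simp) _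
    have d0 : HasDerivAt (fun y : ℝ => S + y ^ 2) (2 * Jc θ w (1 / 2) (p.2 l))
        (Jc θ w (1 / 2) (p.2 l)) := by
      have := ((hasDerivAt_id (Jc θ w (1 / 2) (p.2 l))).pow 2).const_add S
      simpa using this
    have e2 := zf_gr (fun y => S + y ^ 2) (Jc θ w (1 / 2)) (p.2 l) d0.differentiableAt d1
    rw [e2, d0.deriv]
    have e5 := hJ w (1 / 2) (by norm_num) (p.2 l)
    have e6 : gr (Jc θ w (1 / 2)) (p.2 l) ≤ 4 * C1 := by
      refine e5.trans ?_
      split_ifs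
      · norm_num
        linarith
      · rw [mul_zero]
        positivity
    have hg0 : 0 ≤ gr (Jc θ w (1 / 2)) (p.2 l) := gr_nonneg _ _
    have hk := hκ l
    have hk2 : κ l ≤ |κp| := hk.2.trans (le_abs_self _)
    calc κ l * ((2 * Jc θ w (1 / 2) (p.2 l)) ^ 2 * gr (Jc θ w (1 / 2)) (p.2 l))
        ≤ |κp| * ((2 * Jc θ w (1 / 2) (p.2 l)) ^ 2 * (4 * C1)) := by
          gcongr
      _ = 16 * C1 * |κp| * Jc θ w (1 / 2) (p.2 l) ^ 2 := by ring
  unfold Gm
  rw [sum_eq_zero fun a _ => hE a, zero_add, ← Finset.sum_erase_add univ _ (mem_univ j), hNj,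
    mul_zero, add_zero]
  refine (sum_le_sum hN).trans (le_of_eq ?_)
  rw [← mul_sum]
  rfl

theorem zt_gm (κp : ℝ) : ∃ C : ℝ, 0 ≤ C ∧ ∀ (n k : ℕ) (κ : Fin k → ℝ)
    (_ : ∀ j, 0 ≤ κ j ∧ κ j ≤ κp) (w : E3) (j : Fin k) (p : Cfg n k) (L : ℕ),
    ∑ c ∈ range (L + 1), Gm κ (fun p => zt c (mj θ w j p)) p ≤ C := by
  obtain ⟨C1, hC1, h1⟩ := mj_gm hθ κp
  obtain ⟨C2, hC2, h2⟩ := zt_deriv
  refine ⟨C2 * C1, by positivity, fun n k κ hκ w j p L => ?_⟩
  have h3 : ∀ c, Gm κ (fun p => zt c (mj θ w j p)) p =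
      deriv (zt c) (mj θ w j p) ^ 2 * Gm κ (mj θ w j) p := fun c =>
    zf_Gm κ (zt c) ((zt_smooth c).differentiable (by simp)) _
      ((mj_smooth hθ w j).differentiable (by simp)) p
  rw [sum_congr rfl fun c _ => h3 c, ← sum_mul]
  have hm0 := (mj_mem hθ w j p).1
  have h4 := h2 L (mj θ w j p) hm0
  have h5 := h1 n k κ hκ w j p
  have h6 : 0 ≤ Gm κ (mj θ w j) p := Gm_nonneg (fun j => (hκ j).1) _ _
  obtain ⟨M, hM⟩ : ∃ M : ℝ, M = mj θ w j p := ⟨_, rfl⟩
  rw [← hM] at h4 h5 hm0 ⊢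
  calc (∑ c ∈ range (L + 1), deriv (zt c) M ^ 2) * Gm κ (mj θ w j) p
      ≤ (C2 * ((1 + M) ^ 2)⁻¹) * (C1 * M) := by gcongr
    _ = C2 * C1 * (M * ((1 + M) ^ 2)⁻¹) := by ring
    _ ≤ C2 * C1 * 1 := by
        refine mul_le_mul_of_nonneg_left ?_ (by positivity)
        rw [← div_eq_mul_inv, div_le_one (by positivity)]
        nlinarith
    _ = C2 * C1 := mul_one _

end

theorem mj_upd {n k : ℕ} (θ : E3 → ℝ) (w : E3) (j : Fin k) (p : Cfg n k)
    (x : Fin n → E3) (v : E3) :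
    mj θ w j ((x, Function.update p.2 j v) : Cfg n k) = mj θ w j p := by
  unfold mj
  refine sum_congr rfl fun l hl => ?_
  show Jc θ w (1 / 2) (Function.update p.2 j v l) ^ 2 = _
  rw [Function.update_of_ne (mem_erase.1 hl).1]

end H6.CT
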