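import Pool.Agent.H6.CT.NtrSt
import Pool.Agent.H6.CT.ZtF
import Pool.Agent.H6.CT.Bess

/-! The frame bound for the nuclei. `ip (ntr χ r j w f (mf F (Ψ i))) h = ip (Ψ i) H` with `H σ p = f (p.2 j) * F p * ∫ y, chr χ r (y - w) * h σ (p.1, update p.2 j y)` (Fubini, exchange of `p.2 j` and `ξ`), `F = fN θ w g J j c`. For `ψ ∈ St` (positions in `Λ`), by Cauchy-Schwarz `‖ip ψ H‖ ^ 2 ≤ mass ψ * ∑ σ ∫ 1_Λ (p.2 j) ‖H σ p‖ ^ 2`, and `‖∫ y, chr χ r (y - w) * h‖ ^ 2 ≤ ∫ y, 1[‖y - w‖ < r / 2] ‖h‖ ^ 2` (`∫ chr ^ 2 = 1`), so the second factor is at most `M ^ 2 * (∫ v in Λ, (f v * J v) ^ 2) * mean h (fun p => if ‖p.2 j - w‖ ≤ 1 / 2 then zt c (mj θ w j p) ^ 2 else 0)` (`mj_upd`). `bess`. `frmN_sum`: where `zt c (mj θ w j p) ≠ 0` and `‖p.2 j - w‖ ≤ 1/2`, the number of nuclei within `1/2` of `w` is at most `mj + 1 ≤ 2 ^ (c + 1) + 1` (`mj_near`, `zt_hi`), so the sum over these `j` is at most `2 ^ (c + 1) + 1`. -/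

open MeasureTheory Finset

namespace H6.CT

open H6.CM H6.CB H6.CL

/-- Cauchy-Schwarz -/
private theorem cs1 {α : Type*} [MeasurableSpace α] {μ : Measure α} (u v : α → ℝ)
    (hu : Integrable (fun x => u x ^ 2) μ) (hv : Integrable (fun x => v x ^ 2) μ)
    (huv : Integrable (fun x => u x * v x) μ) :
    (∫ x, u x * v x ∂μ) ^ 2 ≤ (∫ x, u x ^ 2 ∂μ) * ∫ x, v x ^ 2 ∂μ := by
  have h1 : ∀ t : ℝ, 0 ≤ (∫ x, u x ^ 2 ∂μ) * (t * t) + (2 * ∫ x, u x * v x ∂μ) * t +
      ∫ x, v x ^ 2 ∂μ := by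
    intro t
    have h2 : (∫ x, u x ^ 2 ∂μ) * (t * t) + (2 * ∫ x, u x * v x ∂μ) * t +
        ∫ x, v x ^ 2 ∂μ = ∫ x, (t * u x + v x) ^ 2 ∂μ := by
      have e : (fun x => (t * u x + v x) ^ 2) = fun x =>
          (t * t) * u x ^ 2 + (2 * t) * (u x * v x) + v x ^ 2 := by
        funext x
        ring
      have hA : Integrable (fun x => (t * t) * u x ^ 2 + (2 * t) * (u x * v x)) μ :=
        (hu.const_mul _).add (huv.const_mul _)
      rw [e, integral_add hA hv,
        integral_add (hu.const_mul _) (huv.const_mul _), integral_const_mul, integral_const_mul]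
      ring
    rw [h2]
    exact integral_nonneg fun x => sq_nonneg _
  have h3 := discrim_le_zero h1
  unfold discrim at h3
  nlinarith

private noncomputable def swE' {n k : ℕ} (j : Fin k) : (Cfg n k × E3) ≃ᵐ (Cfg n k × E3) :=
  MeasurableEquiv.mk ⟨swN j, swN j, swN_swN j, swN_swN j⟩ (swN_mp j).measurable
    (swN_mp j).measurable

private theorem sw_emb {n k : ℕ} (j : Fin k) : MeasurableEmbedding (swN (n := n) j) :=
  (swE' (n := n) j).measurableEmbedding

private theorem sw_int {n k : ℕ} (j : Fin k) (F : Cfg n k × E3 → ℂ) :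
    ∫ u, F (swN j u) = ∫ u, F u :=
  (swN_mp j).integral_comp (sw_emb j) F

private theorem sw_intble {n k : ℕ} (j : Fin k) (F : Cfg n k × E3 → ℂ) (hF : Integrable F) :
    Integrable (fun u => F (swN j u)) :=
  ((swN_mp j).integrable_comp_emb (sw_emb j)).2 hF

/-- locally integrable times bounded -/
private theorem loc_bdd {α : Type*} [TopologicalSpace α] [MeasurableSpace α] {μ : Measure α}
    {g : α → ℂ} (hg : LocallyIntegrable g μ) {c : α → ℝ} (hc : Measurable c) (M : ℝ)
    (hM : ∀ x, |c x| ≤ M) : LocallyIntegrable (fun x => ((c x : ℝ) : ℂ) * g x) μ := by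
  intro x
  obtain ⟨U, hU, hi⟩ := hg x
  refine ⟨U, hU, ?_⟩
  refine Integrable.bdd_mul (c := M) hi (Complex.measurable_ofReal.comp hc).aestronglyMeasurable ?_
  refine Filter.Eventually.of_forall fun y => ?_
  rw [Complex.norm_real]
  exact hM y

section

variable {q n k : ℕ}

/-- the integral over the new position -/
private noncomputable def Kn (χ : E3 → ℝ) (r : ℝ) (j : Fin k) (w : E3)
    (h : (Fin n → Fin q) → Cfg n k → ℂ) (σ : Fin n → Fin q) (p : Cfg n k) : ℂ :=
  ∫ y, ((chr χ r (y - w) : ℝ) : ℂ) * h σ (p.1, Function.update p.2 j y)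

private theorem upn_smooth (j : Fin k) : ContDiff ℝ (⊤ : ℕ∞)
    (fun u : Cfg n k × E3 => ((u.1.1, Function.update u.1.2 j u.2) : Cfg n k)) := by
  refine (contDiff_fst.comp contDiff_fst).prodMk (contDiff_pi.2 fun l => ?_)
  by_cases h : l = j
  · subst h
    simp only [Function.update_self]
    exact contDiff_snd
  · simp only [Function.update_of_ne h]
    exact (contDiff_apply ℝ E3 l).comp (contDiff_snd.comp contDiff_fst)

private theorem chr_bd {χ : E3 → ℝ} (hχ : Bump χ) (r : ℝ) (hr : 0 < r) :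
    ∃ C : ℝ, ∀ v, |chr χ r v| ≤ C := by
  have h1 : HasCompactSupport (chr χ r) := by
    refine HasCompactSupport.intro (isCompact_closedBall (0 : E3) (r / 2)) fun v hv => ?_
    by_contra h2
    exact hv (by rw [mem_closedBall_zero_iff]; exact (chr_supp hχ r hr v h2).le)
  obtain ⟨C, hC⟩ := h1.exists_bound_of_continuous (chr_smooth hχ r hr).continuous
  exact ⟨C, hC⟩

private theorem Kn_smooth {Λ : Set E3} {h : (Fin n → Fin q) → Cfg n k → ℂ} (hh : Sm q n k Λ h)
    {χ : E3 → ℝ} (hχ : Bump χ) (r : ℝ) (hr : 0 < r) (j : Fin k) (w : E3) (σ : Fin n → Fin q) :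
    ContDiff ℝ (⊤ : ℕ∞) (Kn χ r j w h σ) := by
  obtain ⟨C, hC⟩ := chr_bd hχ r hr
  unfold Kn
  refine trf_par (h σ) (hh.smooth _)
    (fun u : Cfg n k × E3 => ((u.1.1, Function.update u.1.2 j u.2) : Cfg n k)) (upn_smooth j)
    ((fun p : Cfg n k => p.2 j) '' tsupport (h σ))
    ((hh.cpt _).image ((continuous_apply j).comp continuous_snd)) ?_
    (fun y => chr χ r (y - w)) ((chr_smooth hχ r hr).continuous.comp
      (continuous_id.sub continuous_const)).measurable C fun v => hC _
  intro p ξ hξ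
  by_contra hne
  apply hξ
  refine ⟨(p.1, Function.update p.2 j ξ), subset_tsupport _ hne, ?_⟩
  exact Function.update_self j ξ p.2

/-- the exchange formula -/
private theorem frm_ip {Λ : Set E3} {ψ h : (Fin n → Fin q) → Cfg n k → ℂ} (hψ : Sm q n k Λ ψ)
    (hh : Sm q n k Λ h) {χ : E3 → ℝ} (hχ : Bump χ) (r : ℝ) (hr : 0 < r) (j : Fin k) (w : E3)
    (f : E3 → ℝ) (hf : Measurable f) (Mf : ℝ) (hMf : ∀ v, |f v| ≤ Mf) (F : Cfg n k → ℝ)
    (hF : Continuous F) :
    ip (ntr χ r j w f (mf F ψ)) h =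
      ip ψ (fun σ p => ((f (p.2 j) : ℝ) : ℂ) * (((F p : ℝ) : ℂ) * Kn χ r j w h σ p)) := by
  unfold ip
  refine sum_congr rfl fun σ _ => ?_
  -- the function on the product
  let Q : Cfg n k × E3 → ℂ := fun u => (((f (u.1.2 j)) : ℝ) : ℂ) *
    ((starRingEnd ℂ) (ψ σ u.1) * ((F u.1 : ℝ) : ℂ) * ((chr χ r (u.2 - w) : ℝ) : ℂ) *
      h σ (u.1.1, Function.update u.1.2 j u.2))
  have hQ : Integrable Q := by
    have h1 : Integrable (fun u : Cfg n k × E3 =>
        (starRingEnd ℂ) (ψ σ u.1) * ((F u.1 : ℝ) : ℂ) * ((chr χ r (u.2 - w) : ℝ) : ℂ) *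
          h σ (u.1.1, Function.update u.1.2 j u.2)) := by
      refine Continuous.integrable_of_hasCompactSupport ?_ ?_
      · refine (((Complex.continuous_conj.comp ((hψ.smooth σ).continuous.comp
          continuous_fst)).mul (Complex.continuous_ofReal.comp (hF.comp continuous_fst))).mul
          (Complex.continuous_ofReal.comp ((chr_smooth hχ r hr).continuous.comp
            (continuous_snd.sub continuous_const)))).mul ?_
        exact (hh.smooth σ).continuous.comp (upn_smooth (n := n) j).continuous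
      · refine HasCompactSupport.intro ((hψ.cpt σ).isCompact.prod
          (isCompact_closedBall w (r / 2))) fun u hu => ?_
        by_contra hne
        apply hu
        have h2 := left_ne_zero_of_mul hne
        have h3 := right_ne_zero_of_mul h2
        have h4 := left_ne_zero_of_mul (left_ne_zero_of_mul h2)
        refine ⟨subset_tsupport _ fun h0 => h4 (by rw [h0, map_zero]), ?_⟩
        rw [Metric.mem_closedBall, dist_eq_norm]
        exact (chr_supp hχ r hr _ fun h0 => h3 (by rw [h0, Complex.ofReal_zero])).le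
    refine Integrable.bdd_mul (c := Mf) h1 ?_ (Filter.Eventually.of_forall fun u => ?_)
    · exact (Complex.measurable_ofReal.comp (hf.comp ((measurable_pi_apply j).comp
        (measurable_snd.comp measurable_fst)))).aestronglyMeasurable
    · rw [Complex.norm_real]
      exact hMf _
  have hQ2 := sw_intble j Q hQ
  have e1 := sw_int j Q
  have e2 : ∫ u, Q u = ∫ p, (starRingEnd ℂ) (ψ σ p) *
      (((f (p.2 j) : ℝ) : ℂ) * (((F p : ℝ) : ℂ) * Kn χ r j w h σ p)) := by
    rw [Measure.volume_eq_prod] at hQ ⊢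
    rw [integral_prod _ hQ]
    refine integral_congr_ae (Filter.Eventually.of_forall fun p => ?_)
    simp only [Q, Kn]
    rw [← integral_const_mul, ← integral_const_mul, ← integral_const_mul]
    refine integral_congr_ae (Filter.Eventually.of_forall fun y => ?_)
    simp only
    ring
  have e3 : ∫ u, Q (swN j u) = ∫ p, (starRingEnd ℂ) (ntr χ r j w f (mf F ψ) σ p) * h σ p := by
    rw [Measure.volume_eq_prod] at hQ2 ⊢
    rw [integral_prod _ hQ2]
    refine integral_congr_ae (Filter.Eventually.of_forall fun p => ?_)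
    simp only [ntr]
    rw [map_mul, Complex.conj_ofReal, ← integral_conj, ← integral_const_mul,
      ← integral_mul_const]
    refine integral_congr_ae (Filter.Eventually.of_forall fun y => ?_)
    simp only [Q, swN, mf, map_mul, Complex.conj_ofReal, Function.update_self,
      Function.update_idem, Function.update_eq_self]
    ring
  rw [← e3, e1, e2]

private theorem Kn_le {Λ : Set E3} {h : (Fin n → Fin q) → Cfg n k → ℂ} (hh : Sm q n k Λ h)
    {χ : E3 → ℝ} (hχ : Bump χ) (r : ℝ) (hr : 0 < r) (hr1 : r ≤ 1) (j : Fin k) (w : E3)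
    (σ : Fin n → Fin q) (p : Cfg n k) :
    ‖Kn χ r j w h σ p‖ ^ 2 ≤ ∫ y, (if ‖y - w‖ ≤ 1 / 2 then 1 else 0) *
      ‖h σ (p.1, Function.update p.2 j y)‖ ^ 2 := by
  have hc : Continuous (fun y : E3 => h σ (p.1, Function.update p.2 j y)) :=
    (hh.smooth σ).continuous.comp ((upn_smooth (n := n) j).continuous.comp
      (continuous_const.prodMk continuous_id) : Continuous fun y : E3 =>
        ((p.1, Function.update p.2 j y) : Cfg n k))
  have hχc : Continuous (fun y : E3 => chr χ r (y - w)) :=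
    (chr_smooth hχ r hr).continuous.comp (continuous_id.sub continuous_const)
  have hχs : HasCompactSupport (fun y : E3 => chr χ r (y - w)) := by
    refine HasCompactSupport.intro (isCompact_closedBall w (r / 2)) fun v hv => ?_
    by_contra h2
    exact hv (by rw [Metric.mem_closedBall, dist_eq_norm]; exact (chr_supp hχ r hr _ h2).le)
  let u : E3 → ℝ := fun y => |chr χ r (y - w)|
  let v : E3 → ℝ := fun y => (if ‖y - w‖ ≤ 1 / 2 then 1 else 0) *
    ‖h σ (p.1, Function.update p.2 j y)‖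
  have hvm : Measurable (fun y : E3 => if ‖y - w‖ ≤ 1 / 2 then (1 : ℝ) else 0) :=
    Measurable.ite (measurableSet_le (continuous_id.sub continuous_const).norm.measurable
      measurable_const) measurable_const measurable_const
  have huv : ∀ y, u y * v y = ‖((chr χ r (y - w) : ℝ) : ℂ) *
      h σ (p.1, Function.update p.2 j y)‖ := by
    intro y
    simp only [u, v]
    rw [norm_mul, Complex.norm_real, Real.norm_eq_abs]
    by_cases h0 : chr χ r (y - w) = 0
    · rw [h0]
      simp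
    · have := chr_supp hχ r hr _ h0
      rw [if_pos (by linarith), one_mul]
  have hI : Integrable (fun y => ((chr χ r (y - w) : ℝ) : ℂ) *
      h σ (p.1, Function.update p.2 j y)) := by
    refine Continuous.integrable_of_hasCompactSupport
      ((Complex.continuous_ofReal.comp hχc).mul hc) ?_
    exact (hχs.comp_left (g := fun x : ℝ => (x : ℂ)) (by simp)).mul_right
  have h1 : Integrable (fun y => u y ^ 2) := by
    refine Continuous.integrable_of_hasCompactSupport (hχc.abs.pow 2) ?_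
    exact hχs.comp_left (g := fun x : ℝ => |x| ^ 2) (by simp)
  have h2 : Integrable (fun y => v y ^ 2) := by
    have h3 : Integrable (fun y => ‖h σ (p.1, Function.update p.2 j y)‖ ^ 2) := by
      refine Continuous.integrable_of_hasCompactSupport (hc.norm.pow 2) ?_
      refine HasCompactSupport.intro ((hh.cpt σ).image
        ((continuous_apply j).comp continuous_snd : Continuous fun p : Cfg n k => p.2 j))
        fun y hy => ?_
      by_contra hne
      apply hy
      have hne' : h σ (p.1, Function.update p.2 j y) ≠ 0 := fun h0 => hne (by rw [h0]; simp)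
      refine ⟨(p.1, Function.update p.2 j y), subset_tsupport _ hne', ?_⟩
      exact Function.update_self j y p.2
    have h4 : (fun y => v y ^ 2) = fun y => (if ‖y - w‖ ≤ 1 / 2 then (1 : ℝ) else 0) *
        ‖h σ (p.1, Function.update p.2 j y)‖ ^ 2 := by
      funext y
      simp only [v, mul_pow]
      congr 1
      split_ifs <;> norm_num
    rw [h4]
    refine Integrable.bdd_mul (c := 1) h3 hvm.aestronglyMeasurable
      (Filter.Eventually.of_forall fun y => ?_)
    split_ifs <;> norm_num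
  have h3 : Integrable (fun y => u y * v y) := by
    simp only [huv]
    exact hI.norm
  have h4 := cs1 u v h1 h2 h3
  have h5 : ∫ y, u y ^ 2 = 1 := by
    simp only [u, sq_abs]
    rw [integral_sub_right_eq_self (fun y => chr χ r y ^ 2) w, chr_norm hχ r hr]
  have h6 : ‖Kn χ r j w h σ p‖ ≤ ∫ y, u y * v y := by
    simp only [huv]
    exact norm_integral_le_integral_norm _
  have h7 : ∫ y, v y ^ 2 = ∫ y, (if ‖y - w‖ ≤ 1 / 2 then 1 else 0) *
      ‖h σ (p.1, Function.update p.2 j y)‖ ^ 2 := by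
    refine integral_congr_ae (Filter.Eventually.of_forall fun y => ?_)
    simp only [v, mul_pow]
    congr 1
    split_ifs <;> norm_num
  rw [h5, one_mul, h7] at h4
  exact (pow_le_pow_left₀ (norm_nonneg _) h6 2).trans h4

end

theorem frmN {ι : Type} [Fintype ι] {q n k : ℕ} {Λ : Set E3} (hm : MeasurableSet Λ)
    (hb : Bornology.IsBounded Λ) {Ψ : ι → (Fin n → Fin q) → Cfg n k → ℂ}
    (hst : ∀ i, St q n k Λ (Ψ i)) (hort : Ort Ψ) (j : Fin k) {θ : E3 → ℝ} (hθ : Cut θ)
    (g : Cfg n k → ℝ) (hg : ContDiff ℝ (⊤ : ℕ∞) g) (M : ℝ) (hM : ∀ p, |g p| ≤ M)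
    (J : E3 → ℝ) (hJ : ContDiff ℝ (⊤ : ℕ∞) J) (hJ1 : ∀ v, 0 ≤ J v ∧ J v ≤ 1) (c : ℕ)
    (f : E3 → ℝ) (hf : Measurable f) (Mf : ℝ) (hMf : ∀ v, |f v| ≤ Mf)
    {χ : E3 → ℝ} (hχ : Bump χ) (r : ℝ) (hr : 0 < r) (hr1 : r ≤ 1) (w : E3)
    (hw : Metric.closedBall w 1 ⊆ Λ)
    (h : (Fin n → Fin q) → Cfg n k → ℂ) (hh : St q n k Λ h) :
    ∑ i, ‖ip (ntr χ r j w f (mf (fN θ w g J j c) (Ψ i))) h‖ ^ 2 / mass (Ψ i) ≤
      M ^ 2 * (∫ v in Λ, (f v * J v) ^ 2) *
        mean h (fun p => if ‖p.2 j - w‖ ≤ 1 / 2 then zt c (mj θ w j p) ^ 2 else 0) := by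
  have hhm := St_sm hh
  -- the localisation function
  have hzc : Continuous (fun p : Cfg n k => zt c (mj θ w j p)) :=
    (zt_smooth c).continuous.comp (mj_smooth hθ w j).continuous
  have hFc : Continuous (fN θ w g J j c) := by
    unfold fN
    exact hg.continuous.mul ((hJ.continuous.comp ((continuous_apply j).comp
      continuous_snd)).mul hzc)
  set H : (Fin n → Fin q) → Cfg n k → ℂ := fun σ p => ((f (p.2 j) : ℝ) : ℂ) *
    (((fN θ w g J j c p : ℝ) : ℂ) * Kn χ r j w h σ p) with hH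
  have hKc : ∀ σ, Continuous (Kn χ r j w h σ) := fun σ =>
    (Kn_smooth hhm hχ r hr j w σ).continuous
  have hfm : Measurable (fun p : Cfg n k => f (p.2 j)) := hf.comp (meas_n j)
  have hHl : ∀ σ, LocallyIntegrable (H σ) := fun σ =>
    loc_bdd ((Complex.continuous_ofReal.comp hFc).mul (hKc σ)).locallyIntegrable hfm Mf
      fun p => hMf _
  have hip : ∀ i, ip (ntr χ r j w f (mf (fN θ w g J j c) (Ψ i))) h = ip (Ψ i) H := fun i =>
    frm_ip (St_sm (hst i)) hhm hχ r hr j w f hf Mf hMf _ hFc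
  simp only [hip]
  -- the auxiliary functions
  let a : E3 → ℝ := Λ.indicator (fun v => (f v * J v) ^ 2)
  have ha0 : ∀ v, 0 ≤ a v := fun v => Set.indicator_nonneg (fun _ _ => sq_nonneg _) _
  have ham : Measurable a := ((hf.mul hJ.continuous.measurable).pow_const 2).indicator hm
  have hai : Integrable a := by
    refine (integrable_indicator_iff hm).2 ?_
    refine Measure.integrableOn_of_bounded (M := Mf ^ 2) hb.measure_lt_top.ne
      ((hf.mul hJ.continuous.measurable).pow_const 2).aestronglyMeasurable ?_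
    refine Filter.Eventually.of_forall fun v => ?_
    rw [Real.norm_eq_abs, abs_pow, abs_mul]
    have h1 : |f v| * |J v| ≤ Mf * 1 := by
      refine mul_le_mul (hMf v) ?_ (abs_nonneg _) ((abs_nonneg _).trans (hMf v))
      rw [abs_of_nonneg (hJ1 v).1]
      exact (hJ1 v).2
    rw [mul_one] at h1
    exact pow_le_pow_left₀ (by positivity) h1 2
  have hae : ∫ v, a v = ∫ v in Λ, (f v * J v) ^ 2 := integral_indicator hm
  let b : E3 → ℝ := fun y => if ‖y - w‖ ≤ 1 / 2 then 1 else 0
  have hbm : Measurable b :=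
    Measurable.ite (measurableSet_le (continuous_id.sub continuous_const).norm.measurable
      measurable_const) measurable_const measurable_const
  have hb1 : ∀ y, 0 ≤ b y ∧ b y ≤ 1 := by
    intro y
    simp only [b]
    split_ifs <;> norm_num
  let P : (Fin n → Fin q) → Cfg n k × E3 → ℝ := fun σ u => a (u.1.2 j) *
    (b u.2 * zt c (mj θ w j u.1) ^ 2 * ‖h σ (u.1.1, Function.update u.1.2 j u.2)‖ ^ 2)
  have hPs : ∀ σ u, P σ (swN j u) = (b (u.1.2 j) * zt c (mj θ w j u.1) ^ 2 * ‖h σ u.1‖ ^ 2) *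
      a u.2 := by
    intro σ u
    simp only [P, swN, Function.update_self, Function.update_idem, Function.update_eq_self,
      mj_upd]
    ring
  have hbz : ∀ p : Cfg n k, |b (p.2 j) * zt c (mj θ w j p) ^ 2| ≤ 1 := by
    intro p
    rw [abs_mul, abs_of_nonneg (hb1 _).1, abs_pow]
    exact mul_le_one₀ (hb1 _).2 (by positivity) (pow_le_one₀ (abs_nonneg _) (zt_le _ _))
  have hbzm : Measurable (fun p : Cfg n k => b (p.2 j) * zt c (mj θ w j p) ^ 2) :=
    (hbm.comp (meas_n j)).mul (hzc.measurable.pow_const 2)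
  have hbi : IM h (fun p => b (p.2 j) * zt c (mj θ w j p) ^ 2) :=
    IM.bdd hhm hbzm 1 hbz
  have hPsi : ∀ σ, Integrable (fun u => P σ (swN j u)) := by
    intro σ
    simp only [hPs]
    exact (hbi σ).mul_prod hai
  have hPi : ∀ σ, Integrable (P σ) := by
    intro σ
    have := swN_intble j (fun u => P σ (swN j u)) (hPsi σ)
    simpa only [swN_swN] using this
  have hPint : ∀ σ, ∫ p, ∫ y, P σ (p, y) =
      (∫ v in Λ, (f v * J v) ^ 2) * ∫ p, b (p.2 j) * zt c (mj θ w j p) ^ 2 * ‖h σ p‖ ^ 2 := by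
    intro σ
    have h1 := swN_int j (P σ)
    simp only [hPs] at h1
    have h2 := hPi σ
    rw [Measure.volume_eq_prod] at h1 h2
    rw [integral_prod_mul (fun p : Cfg n k => b (p.2 j) * zt c (mj θ w j p) ^ 2 * ‖h σ p‖ ^ 2) a,
      integral_prod _ h2, hae] at h1
    rw [← h1, mul_comm]
  have hPleft : ∀ σ, Integrable (fun p => ∫ y, P σ (p, y)) := by
    intro σ
    have h2 := hPi σ
    rw [Measure.volume_eq_prod] at h2
    exact h2.integral_prod_left
  have hM0 : 0 ≤ M ^ 2 := sq_nonneg _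
  -- the bound of `H`
  have hHb : ∀ σ p, (Λ.indicator (fun _ => (1 : ℝ)) (p.2 j) * ‖H σ p‖) ^ 2 ≤
      M ^ 2 * ∫ y, P σ (p, y) := by
    intro σ p
    by_cases hp : p.2 j ∈ Λ
    · rw [Set.indicator_of_mem hp, one_mul]
      have e1 : ‖H σ p‖ ^ 2 = (f (p.2 j) * fN θ w g J j c p) ^ 2 * ‖Kn χ r j w h σ p‖ ^ 2 := by
        simp only [hH]
        rw [norm_mul, norm_mul, Complex.norm_real, Complex.norm_real, Real.norm_eq_abs,
          Real.norm_eq_abs, mul_pow, mul_pow, sq_abs, sq_abs]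
        ring
      have e2 : (f (p.2 j) * fN θ w g J j c p) ^ 2 ≤
          M ^ 2 * (a (p.2 j) * zt c (mj θ w j p) ^ 2) := by
        simp only [a, Set.indicator_of_mem hp, fN]
        have h1 : g p ^ 2 ≤ M ^ 2 := by
          rw [← sq_abs]
          exact pow_le_pow_left₀ (abs_nonneg _) (hM p) 2
        have h2 : (f (p.2 j) * (g p * (J (p.2 j) * zt c (mj θ w j p)))) ^ 2 =
            g p ^ 2 * ((f (p.2 j) * J (p.2 j)) ^ 2 * zt c (mj θ w j p) ^ 2) := by ring
        rw [h2]
        exact mul_le_mul_of_nonneg_right h1 (by positivity)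
      have e3 : ∫ y, P σ (p, y) = a (p.2 j) * zt c (mj θ w j p) ^ 2 *
          ∫ y, b y * ‖h σ (p.1, Function.update p.2 j y)‖ ^ 2 := by
        rw [← integral_const_mul]
        refine integral_congr_ae (Filter.Eventually.of_forall fun y => ?_)
        simp only [P]
        ring
      rw [e1, e3, ← mul_assoc]
      refine mul_le_mul e2 (Kn_le hhm hχ r hr hr1 j w σ p) (by positivity) ?_
      exact mul_nonneg hM0 (mul_nonneg (ha0 _) (sq_nonneg _))
    · rw [Set.indicator_of_notMem hp]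
      have : 0 ≤ ∫ y, P σ (p, y) := integral_nonneg fun y =>
        mul_nonneg (ha0 _) (mul_nonneg (mul_nonneg (hb1 _).1 (sq_nonneg _)) (sq_nonneg _))
      nlinarith
  have hGm : ∀ σ, Measurable (fun p : Cfg n k =>
      Λ.indicator (fun _ => (1 : ℝ)) (p.2 j) * ‖H σ p‖) := by
    intro σ
    refine ((measurable_const.indicator hm).comp (meas_n j)).mul ?_
    refine Measurable.norm ?_
    exact (Complex.measurable_ofReal.comp hfm).mul
      ((Complex.measurable_ofReal.comp hFc.measurable).mul (hKc σ).measurable)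
  have hGi : ∀ σ, Integrable (fun p : Cfg n k =>
      (Λ.indicator (fun _ => (1 : ℝ)) (p.2 j) * ‖H σ p‖) ^ 2) := by
    intro σ
    refine ((hPleft σ).const_mul (M ^ 2)).mono' ((hGm σ).pow_const 2).aestronglyMeasurable
      (Filter.Eventually.of_forall fun p => ?_)
    rw [Real.norm_of_nonneg (sq_nonneg _)]
    exact hHb σ p
  refine bess hst hort H hHl _ ?_ ?_
  · refine mul_nonneg (mul_nonneg hM0 (integral_nonneg fun v => sq_nonneg _)) ?_
    refine mean_nonneg fun σ p _ => ?_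
    split_ifs
    · exact sq_nonneg _
    · exact le_rfl
  intro ψ hψ
  have hψm := St_sm hψ
  -- Cauchy-Schwarz for the sum of the integrals
  have hψi : ∀ σ, Integrable (fun p => ‖ψ σ p‖ ^ 2) := fun σ =>
    (Sm_sq hψm σ).1.integrable_of_hasCompactSupport (Sm_sq hψm σ).2
  have huv : ∀ σ p, ‖(starRingEnd ℂ) (ψ σ p) * H σ p‖ =
      ‖ψ σ p‖ * (Λ.indicator (fun _ => (1 : ℝ)) (p.2 j) * ‖H σ p‖) := by
    intro σ p
    rw [norm_mul, RCLike.norm_conj]
    by_cases h0 : ψ σ p = 0
    · rw [h0, norm_zero, zero_mul, zero_mul]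
    · rw [Set.indicator_of_mem ((hψ.supp σ p (subset_tsupport _ h0)).2 j), one_mul]
  have huvi : ∀ σ, Integrable (fun p => ‖ψ σ p‖ *
      (Λ.indicator (fun _ => (1 : ℝ)) (p.2 j) * ‖H σ p‖)) := by
    intro σ
    have := (ip_int hψm H hHl σ).norm
    simpa only [huv] using this
  set X : ℝ := ∑ σ, ∫ p, ‖ψ σ p‖ * (Λ.indicator (fun _ => (1 : ℝ)) (p.2 j) * ‖H σ p‖) with hX
  set Y : ℝ := ∑ σ, ∫ p, (Λ.indicator (fun _ => (1 : ℝ)) (p.2 j) * ‖H σ p‖) ^ 2 with hY
  have h1 : ‖ip ψ H‖ ≤ X := by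
    unfold ip
    refine (norm_sum_le _ _).trans (sum_le_sum fun σ _ => ?_)
    refine (norm_integral_le_integral_norm _).trans (le_of_eq ?_)
    simp only [huv]
  have h2 : X ^ 2 ≤ mass ψ * Y := by
    have h3 : ∀ t : ℝ, 0 ≤ mass ψ * (t * t) + (2 * X) * t + Y := by
      intro t
      have h4 : mass ψ * (t * t) + (2 * X) * t + Y = ∑ σ, ∫ p, (t * ‖ψ σ p‖ +
          Λ.indicator (fun _ => (1 : ℝ)) (p.2 j) * ‖H σ p‖) ^ 2 := by
        have e : ∀ σ, ∫ p, (t * ‖ψ σ p‖ +
            Λ.indicator (fun _ => (1 : ℝ)) (p.2 j) * ‖H σ p‖) ^ 2 =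
            (t * t) * (∫ p, ‖ψ σ p‖ ^ 2) + (2 * t) * (∫ p, ‖ψ σ p‖ *
              (Λ.indicator (fun _ => (1 : ℝ)) (p.2 j) * ‖H σ p‖)) +
            ∫ p, (Λ.indicator (fun _ => (1 : ℝ)) (p.2 j) * ‖H σ p‖) ^ 2 := by
          intro σ
          have e' : (fun p => (t * ‖ψ σ p‖ +
              Λ.indicator (fun _ => (1 : ℝ)) (p.2 j) * ‖H σ p‖) ^ 2) = fun p =>
              (t * t) * ‖ψ σ p‖ ^ 2 + (2 * t) * (‖ψ σ p‖ *
              (Λ.indicator (fun _ => (1 : ℝ)) (p.2 j) * ‖H σ p‖)) +
              (Λ.indicator (fun _ => (1 : ℝ)) (p.2 j) * ‖H σ p‖) ^ 2 := by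
            funext p
            ring
          have hA : Integrable (fun p => (t * t) * ‖ψ σ p‖ ^ 2 + (2 * t) * (‖ψ σ p‖ *
              (Λ.indicator (fun _ => (1 : ℝ)) (p.2 j) * ‖H σ p‖))) :=
            ((hψi σ).const_mul _).add ((huvi σ).const_mul _)
          rw [e', integral_add hA (hGi σ),
            integral_add ((hψi σ).const_mul _) ((huvi σ).const_mul _), integral_const_mul,
            integral_const_mul]
        rw [sum_congr rfl fun σ _ => e σ, sum_add_distrib, sum_add_distrib, ← mul_sum, ← mul_sum]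
        unfold mass
        rw [hX, hY]
        ring
      rw [h4]
      exact sum_nonneg fun σ _ => integral_nonneg fun p => sq_nonneg _
    have h5 := discrim_le_zero h3
    unfold discrim at h5
    nlinarith
  have h3 : Y ≤ M ^ 2 * (∫ v in Λ, (f v * J v) ^ 2) *
      mean h (fun p => if ‖p.2 j - w‖ ≤ 1 / 2 then zt c (mj θ w j p) ^ 2 else 0) := by
    unfold mean
    rw [hY, mul_sum]
    refine sum_le_sum fun σ _ => ?_
    calc ∫ p, (Λ.indicator (fun _ => (1 : ℝ)) (p.2 j) * ‖H σ p‖) ^ 2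
        ≤ ∫ p, M ^ 2 * ∫ y, P σ (p, y) :=
          integral_mono (hGi σ) ((hPleft σ).const_mul _) (hHb σ)
      _ = _ := by
          rw [integral_const_mul, hPint σ, ← mul_assoc]
          congr 1
          refine integral_congr_ae (Filter.Eventually.of_forall fun p => ?_)
          simp only [b]
          split_ifs <;> ring
  have h4 : ‖ip ψ H‖ ^ 2 ≤ X ^ 2 := pow_le_pow_left₀ (norm_nonneg _) h1 2
  calc ‖ip ψ H‖ ^ 2 ≤ mass ψ * Y := h4.trans h2
    _ ≤ mass ψ * _ := mul_le_mul_of_nonneg_left h3 mass_nonneg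
    _ = _ := mul_comm _ _

theorem frmN_sum {q n k : ℕ} {Λ : Set E3} {θ : E3 → ℝ} (hθ : Cut θ) (w : E3) (c : ℕ)
    (h : (Fin n → Fin q) → Cfg n k → ℂ) (hh : Sm q n k Λ h) :
    ∑ j : Fin k, mean h (fun p => if ‖p.2 j - w‖ ≤ 1 / 2 then zt c (mj θ w j p) ^ 2 else 0) ≤
      (2 ^ (c + 1) + 1) * mass h := by
  have hI : ∀ j ∈ (univ : Finset (Fin k)), IM h (fun p =>
      if ‖p.2 j - w‖ ≤ 1 / 2 then zt c (mj θ w j p) ^ 2 else 0) := by
    intro j _
    refine IM.bdd hh ?_ 1 fun p => ?_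
    · refine Measurable.ite (measurableSet_le ((meas_n j).sub_const w).norm measurable_const) ?_
        measurable_const
      exact ((zt_smooth c).continuous.comp (mj_smooth hθ w j).continuous).measurable.pow_const 2
    · split_ifs
      · rw [abs_pow]
        exact pow_le_one₀ (abs_nonneg _) (zt_le _ _)
      · norm_num
  rw [← mean_sum univ hI, ← mean_const]
  refine mean_mono (IM.sum univ hI) (IM.cont hh continuous_const) fun σ p _ => ?_
  by_cases hex : ∃ j : Fin k, ‖p.2 j - w‖ ≤ 1 / 2 ∧ zt c (mj θ w j p) ≠ 0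
  · obtain ⟨j0, h1, h2⟩ := hex
    have h3 := zt_hi c _ h2
    have h4 := mj_near hθ w j0 p
    have h5 : ∑ j : Fin k, (if ‖p.2 j - w‖ ≤ 1 / 2 then zt c (mj θ w j p) ^ 2 else 0) ≤
        ∑ l : Fin k, (if ‖p.2 l - w‖ ≤ 1 / 2 then (1 : ℝ) else 0) := by
      refine sum_le_sum fun j _ => ?_
      split_ifs
      · rw [← sq_abs]
        exact pow_le_one₀ (abs_nonneg _) (zt_le _ _)
      · exact le_rfl
    linarith
  · push Not at hex
    rw [sum_eq_zero fun j _ => ?_]
    · positivity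
    · split_ifs with h1
      · rw [hex j h1]
        norm_num
      · rfl

end H6.CT
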