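import Pool.Agent.H6.CB.Hardy
import Pool.Agent.H6.CT.Defs
import Pool.Agent.H6.CB.UhF

/-! Hardy's inequality and the smeared potential at a small scale. `hardy0`: `∫ ‖x - v‖⁻¹ ^ 2 * ‖f v‖ ^ 2 ≤ 4 ∫ g3 f` for `f` smooth with compact support (see the proof of `hardy` in `Pool/Agent/H6/CB/Hardy.lean`), for every variable separately (Fubini, as `mean_fub`; `IM` included). `near0`: for `v ≠ 0` (the configurations with a particle at `x` have measure zero) `0 ≤ ‖v‖⁻¹ - UU χ s v`, it vanishes for `s ≤ ‖v‖` (`UU_eq`) and is at most `‖v‖⁻¹ ≤ s * ‖v‖⁻¹ ^ 2` for `‖v‖ < s`. -/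

/-! Hardy's inequality and the smeared potential at a small scale. `hardy0`: `∫ ‖x - v‖⁻¹ ^ 2 * ‖f v‖ ^ 2 ≤ 4 ∫ g3 f` for `f` smooth with compact support (see the proof of `hardy` in `Pool/Agent/H6/CB/Hardy.lean`), for every variable separately (Fubini, as `mean_fub`; `IM` included). `near0`: for `v ≠ 0` (the configurations with a particle at `x` have measure zero) `0 ≤ ‖v‖⁻¹ - UU χ s v`, it vanishes for `s ≤ ‖v‖` (`UU_eq`) and is at most `‖v‖⁻¹ ≤ s * ‖v‖⁻¹ ^ 2` for `‖v‖ < s`. -/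

open MeasureTheory Finset

namespace H6.CT

open H6.CM H6.CB H6.CL

private noncomputable def hzG (x : E3) (ε : ℝ) (d : Fin 3) (w : E3) : ℝ :=
  (w - x) d * (‖w - x‖ ^ 2 + ε)⁻¹

private theorem hz_smooth (x : E3) (ε : ℝ) (hε : 0 < ε) (d : Fin 3) :
    ContDiff ℝ (⊤ : ℕ∞) (hzG x ε d) := by
  unfold hzG
  have hp : ∀ w : E3, 0 < ‖w - x‖ ^ 2 + ε := fun w => by positivity
  refine ContDiff.mul ?_ ?_
  · exact (EuclideanSpace.proj d : E3 →L[ℝ] ℝ).contDiff.comp (contDiff_id.sub contDiff_const)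
  · refine ContDiff.inv ?_ fun w => (hp w).ne'
    exact ((contDiff_id.sub contDiff_const).norm_sq ℝ).add contDiff_const

private theorem hz_fd (x : E3) (ε : ℝ) (hε : 0 < ε) (d : Fin 3) (w : E3) :
    fderiv ℝ (hzG x ε d) w (EuclideanSpace.single d 1) =
      (‖w - x‖ ^ 2 + ε)⁻¹ - 2 * (w - x) d ^ 2 * (‖w - x‖ ^ 2 + ε)⁻¹ ^ 2 := by
  have hp : 0 < ‖w - x‖ ^ 2 + ε := by positivity
  have h0 : HasFDerivAt (fun w : E3 => w - x) (ContinuousLinearMap.id ℝ E3) w :=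
    (hasFDerivAt_id w).sub_const x
  have h1 : HasFDerivAt (fun w : E3 => (w - x) d)
      ((EuclideanSpace.proj d : E3 →L[ℝ] ℝ).comp (ContinuousLinearMap.id ℝ E3)) w :=
    (EuclideanSpace.proj d : E3 →L[ℝ] ℝ).hasFDerivAt.comp w h0
  have h2 := (h0.norm_sq).add_const ε
  have h4 := (hasDerivAt_inv hp.ne').comp_hasFDerivAt w h2
  have h5 : HasFDerivAt (fun w : E3 => (‖w - x‖ ^ 2 + ε)⁻¹) _ w := h4
  have h6 := h1.mul h5
  have h7 : HasFDerivAt (hzG x ε d) _ w := h6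
  rw [h7.fderiv]
  have hin : inner ℝ (w - x) (EuclideanSpace.single d (1 : ℝ)) = (w - x) d := by
    rw [EuclideanSpace.inner_single_right]
    simp
  have hpj : (EuclideanSpace.proj d : E3 →L[ℝ] ℝ) (EuclideanSpace.single d 1) = 1 := by simp
  simp only [add_apply, smul_apply, smul_eq_mul, ContinuousLinearMap.comp_apply,
    ContinuousLinearMap.id_apply, innerSL_apply_apply, hin, hpj, nsmul_eq_mul]
  field_simp
  ring

/-- Hardy's inequality on the configuration space -/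
private theorem hz_main {V : Type} [NormedAddCommGroup V] [NormedSpace ℝ V]
    [MeasurableSpace V] [BorelSpace V] [FiniteDimensional ℝ V] (μ : Measure V)
    [μ.IsAddHaarMeasure] (π : V →L[ℝ] E3) (e : Fin 3 → V)
    (he : ∀ d, π (e d) = EuclideanSpace.single d 1) (x : E3) (F : V → ℂ)
    (hF : ContDiff ℝ 1 F) (hc : HasCompactSupport F) :
    Integrable (fun p => ‖x - π p‖⁻¹ ^ 2 * ‖F p‖ ^ 2) μ ∧
    ∫ p, ‖x - π p‖⁻¹ ^ 2 * ‖F p‖ ^ 2 ∂μ ≤ 4 * ∫ p, ∑ d, ‖fderiv ℝ F p (e d)‖ ^ 2 ∂μ := by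
  have hπ : Continuous (fun p => π p) := π.continuous
  have hFc : Continuous F := hF.continuous
  have hF' : Continuous (fderiv ℝ F) := hF.continuous_fderiv one_ne_zero
  have hcF' : HasCompactSupport (fderiv ℝ F) := hc.fderiv ℝ
  have hAc : Continuous (fun p => ‖F p‖ ^ 2) := hFc.norm.pow 2
  have hAs : HasCompactSupport (fun p => ‖F p‖ ^ 2) :=
    hc.comp_left (g := fun x : ℂ => ‖x‖ ^ 2) (by simp)
  have hAi : Integrable (fun p => ‖F p‖ ^ 2) μ := hAc.integrable_of_hasCompactSupport hAs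
  have hA1 : ContDiff ℝ 1 (fun p => ‖F p‖ ^ 2) := hF.norm_sq ℝ
  obtain ⟨R, hR⟩ : ∃ R : V → ℝ, R = fun p => ∑ d, ‖fderiv ℝ F p (e d)‖ ^ 2 := ⟨_, rfl⟩
  have hRi : Integrable R μ := by
    rw [hR]
    refine integrable_finsetSum _ fun d _ => ?_
    refine (((hF'.clm_apply continuous_const).norm.pow 2)).integrable_of_hasCompactSupport ?_
    refine HasCompactSupport.intro (K := tsupport (fderiv ℝ F)) hcF' fun p hp => ?_
    show ‖fderiv ℝ F p (e d)‖ ^ 2 = 0
    rw [image_eq_zero_of_notMem_tsupport hp]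
    simp
  have hcont : ∀ ε : ℝ, 0 < ε →
      Continuous (fun p => (‖π p - x‖ ^ 2 + ε)⁻¹ * ‖F p‖ ^ 2) := by
    intro ε hε
    refine Continuous.mul ?_ hAc
    exact Continuous.inv₀ (((hπ.sub continuous_const).norm.pow 2).add continuous_const)
      fun p => (by positivity)
  have hLi : ∀ ε : ℝ, 0 < ε →
      Integrable (fun p => (‖π p - x‖ ^ 2 + ε)⁻¹ * ‖F p‖ ^ 2) μ := fun ε hε =>
    (hcont ε hε).integrable_of_hasCompactSupport hAs.mul_left
  -- for every positive regularisation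
  have key : ∀ ε : ℝ, 0 < ε →
      ∫ p, (‖π p - x‖ ^ 2 + ε)⁻¹ * ‖F p‖ ^ 2 ∂μ ≤ 4 * ∫ p, R p ∂μ := by
    intro ε hε
    have hs : ∀ d, ContDiff ℝ (⊤ : ℕ∞) (hzG x ε d) := fun d => hz_smooth x ε hε d
    have hgd : ∀ d, ContDiff ℝ (⊤ : ℕ∞) (fun p => hzG x ε d (π p)) := fun d =>
      (hs d).comp π.contDiff
    have hfd : ∀ d p, fderiv ℝ (fun p => hzG x ε d (π p)) p (e d) =
        fderiv ℝ (hzG x ε d) (π p) (EuclideanSpace.single d 1) := by
      intro d p
      have h1 : HasFDerivAt (fun p => hzG x ε d (π p))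
          ((fderiv ℝ (hzG x ε d) (π p)).comp π) p :=
        ((hs d).differentiable (by simp) (π p)).hasFDerivAt.comp p π.hasFDerivAt
      rw [h1.fderiv, ContinuousLinearMap.comp_apply, he]
    have hA' : ∀ p v, |fderiv ℝ (fun p => ‖F p‖ ^ 2) p v| ≤ 2 * (‖F p‖ * ‖fderiv ℝ F p v‖) := by
      intro p v
      have h1 := ((hF.differentiable one_ne_zero p).hasFDerivAt).norm_sq
      rw [h1.fderiv]
      simp only [smul_apply, ContinuousLinearMap.comp_apply, innerSL_apply_apply, nsmul_eq_mul]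
      rw [abs_mul]
      have h2 := abs_real_inner_le_norm (F p) (fderiv ℝ F p v)
      have h3 : |((2 : ℕ) : ℝ)| = 2 := by norm_num
      rw [h3]
      linarith
    have i1 : ∀ d, Integrable (fun p => ‖F p‖ ^ 2 *
        fderiv ℝ (fun p => hzG x ε d (π p)) p (e d)) μ := by
      intro d
      refine (hAc.mul (((hgd d).continuous_fderiv (by simp)).clm_apply
        continuous_const)).integrable_of_hasCompactSupport hAs.mul_right
    have i2 : ∀ d, Integrable (fun p => fderiv ℝ (fun p => ‖F p‖ ^ 2) p (e d) *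
        hzG x ε d (π p)) μ := by
      intro d
      have h1 : Continuous (fderiv ℝ (fun p => ‖F p‖ ^ 2)) := hA1.continuous_fderiv one_ne_zero
      have h2 : HasCompactSupport (fderiv ℝ (fun p => ‖F p‖ ^ 2)) := hAs.fderiv ℝ
      have h3 : HasCompactSupport (fun p => fderiv ℝ (fun p => ‖F p‖ ^ 2) p (e d)) := by
        refine HasCompactSupport.intro (K := tsupport (fderiv ℝ (fun p => ‖F p‖ ^ 2))) h2
          fun p hp => ?_
        rw [image_eq_zero_of_notMem_tsupport hp]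
        simp
      exact ((h1.clm_apply continuous_const).mul
        (hgd d).continuous).integrable_of_hasCompactSupport h3.mul_right
    have i3 : ∀ d, Integrable (fun p => ‖F p‖ ^ 2 * hzG x ε d (π p)) μ := fun d =>
      (hAc.mul (hgd d).continuous).integrable_of_hasCompactSupport hAs.mul_right
    have hibp : ∀ d, ∫ p, ‖F p‖ ^ 2 * fderiv ℝ (fun p => hzG x ε d (π p)) p (e d) ∂μ =
        -∫ p, fderiv ℝ (fun p => ‖F p‖ ^ 2) p (e d) * hzG x ε d (π p) ∂μ := fun d =>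
      integral_mul_fderiv_eq_neg_fderiv_mul_of_integrable (i2 d) (i1 d) (i3 d)
        (fun p _ => hA1.differentiable one_ne_zero p)
        (fun p _ => (hgd d).differentiable (by simp) p)
    -- pointwise
    have hpt : ∀ p, 2⁻¹ * ((‖π p - x‖ ^ 2 + ε)⁻¹ * ‖F p‖ ^ 2) ≤
        ∑ d, ‖F p‖ ^ 2 * fderiv ℝ (fun p => hzG x ε d (π p)) p (e d) +
        ∑ d, fderiv ℝ (fun p => ‖F p‖ ^ 2) p (e d) * hzG x ε d (π p) + 2 * R p := by
      intro p
      obtain ⟨w, hw⟩ : ∃ w : E3, w = π p := ⟨_, rfl⟩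
      obtain ⟨A, hA⟩ : ∃ A : ℝ, A = ‖F p‖ ^ 2 := ⟨_, rfl⟩
      have hA0 : 0 ≤ A := by rw [hA]; positivity
      simp only [hfd, hz_fd x ε hε, ← hw, ← hA]
      have hq : 0 < ‖w - x‖ ^ 2 + ε := by positivity
      obtain ⟨κ, hκ⟩ : ∃ κ : ℝ, κ = (‖w - x‖ ^ 2 + ε)⁻¹ := ⟨_, rfl⟩
      have hκ0 : 0 < κ := by rw [hκ]; exact inv_pos.2 hq
      have hκ2 : κ * (‖w - x‖ ^ 2 + ε) = 1 := by
        rw [hκ, inv_mul_cancel₀ hq.ne']
      have hκ3 : κ ^ 2 * ‖w - x‖ ^ 2 ≤ κ := by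
        have h1 : 0 ≤ κ * (κ * ε) := by positivity
        have h2 : κ * (κ * (‖w - x‖ ^ 2 + ε)) = κ := by rw [hκ2, mul_one]
        nlinarith
      have hn : ∑ d : Fin 3, (w - x) d ^ 2 = ‖w - x‖ ^ 2 := by
        rw [EuclideanSpace.norm_sq_eq]
        exact sum_congr rfl fun d _ => by rw [Real.norm_eq_abs, sq_abs]
      rw [← hκ]
      -- the divergence
      have hdiv : κ * A ≤ ∑ d : Fin 3, A * (κ - 2 * (w - x) d ^ 2 * κ ^ 2) := by
        have e1 : ∑ d : Fin 3, A * (κ - 2 * (w - x) d ^ 2 * κ ^ 2) =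
            A * (3 * κ - 2 * (κ ^ 2 * ‖w - x‖ ^ 2)) := by
          rw [← hn, ← mul_sum, sum_sub_distrib, mul_sum, mul_sum]
          simp only [sum_const, card_univ, Fintype.card_fin, nsmul_eq_mul]
          congr 2
          exact sum_congr rfl fun d _ => by ring
        rw [e1]
        have h4 := mul_le_mul_of_nonneg_left hκ3 hA0
        linarith
      -- the other term
      have hoth : -(2 * ∑ d, ‖fderiv ℝ F p (e d)‖ ^ 2 + 2⁻¹ * (κ * A)) ≤
          ∑ d, fderiv ℝ (fun p => ‖F p‖ ^ 2) p (e d) * hzG x ε d w := by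
        have h1 : ∀ d : Fin 3, -(2 * ‖fderiv ℝ F p (e d)‖ ^ 2 + 2⁻¹ * (A * hzG x ε d w ^ 2)) ≤
            fderiv ℝ (fun p => ‖F p‖ ^ 2) p (e d) * hzG x ε d w := by
          intro d
          have h2 := hA' p (e d)
          have h3 : |fderiv ℝ (fun p => ‖F p‖ ^ 2) p (e d) * hzG x ε d w| ≤
              2 * (‖F p‖ * ‖fderiv ℝ F p (e d)‖) * |hzG x ε d w| := by
            rw [abs_mul]
            exact mul_le_mul_of_nonneg_right h2 (abs_nonneg _)
          have h4 := neg_abs_le (fderiv ℝ (fun p => ‖F p‖ ^ 2) p (e d) * hzG x ε d w)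
          have h5 : A * hzG x ε d w ^ 2 = (‖F p‖ * |hzG x ε d w|) ^ 2 := by
            rw [mul_pow, sq_abs, hA]
          rw [h5]
          nlinarith [sq_nonneg (2 * ‖fderiv ℝ F p (e d)‖ - ‖F p‖ * |hzG x ε d w|)]
        refine le_trans ?_ (sum_le_sum fun d _ => h1 d)
        rw [sum_neg_distrib, sum_add_distrib, ← mul_sum, ← mul_sum, ← mul_sum]
        have h6 : ∑ d : Fin 3, hzG x ε d w ^ 2 ≤ κ := by
          have h7 : ∀ d : Fin 3, hzG x ε d w ^ 2 = κ ^ 2 * (w - x) d ^ 2 := by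
            intro d
            unfold hzG
            rw [← hκ]
            ring
          simp only [h7]
          rw [← mul_sum, hn]
          exact hκ3
        have h8 := mul_le_mul_of_nonneg_left h6 hA0
        linarith
      have hRp : R p = ∑ d, ‖fderiv ℝ F p (e d)‖ ^ 2 := by rw [hR]
      rw [hRp]
      linarith
    -- integrate
    have j1 : Integrable (fun p => ∑ d, ‖F p‖ ^ 2 *
        fderiv ℝ (fun p => hzG x ε d (π p)) p (e d)) μ := integrable_finsetSum _ fun d _ => i1 d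
    have j2 : Integrable (fun p => ∑ d, fderiv ℝ (fun p => ‖F p‖ ^ 2) p (e d) *
        hzG x ε d (π p)) μ := integrable_finsetSum _ fun d _ => i2 d
    have j3 : Integrable (fun p => ∑ d, ‖F p‖ ^ 2 *
        fderiv ℝ (fun p => hzG x ε d (π p)) p (e d) +
        ∑ d, fderiv ℝ (fun p => ‖F p‖ ^ 2) p (e d) * hzG x ε d (π p)) μ := j1.add j2
    have h1 : ∫ p, 2⁻¹ * ((‖π p - x‖ ^ 2 + ε)⁻¹ * ‖F p‖ ^ 2) ∂μ ≤
        ∫ p, (∑ d, ‖F p‖ ^ 2 * fderiv ℝ (fun p => hzG x ε d (π p)) p (e d) +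
        ∑ d, fderiv ℝ (fun p => ‖F p‖ ^ 2) p (e d) * hzG x ε d (π p) + 2 * R p) ∂μ :=
      integral_mono ((hLi ε hε).const_mul _) (j3.add (hRi.const_mul 2)) hpt
    rw [integral_add j3 (hRi.const_mul 2), integral_add j1 j2,
      integral_finsetSum _ fun d _ => i1 d, integral_finsetSum _ fun d _ => i2 d,
      sum_congr rfl fun d _ => hibp d, sum_neg_distrib, integral_const_mul,
      integral_const_mul] at h1
    linarith
  -- the limit by Fatou
  have hm : AEStronglyMeasurable (fun p => ‖x - π p‖⁻¹ ^ 2 * ‖F p‖ ^ 2) μ := by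
    have h1 : Measurable (fun p => ‖x - π p‖⁻¹ ^ 2 * ‖F p‖ ^ 2) := by
      refine Measurable.mul ?_ hAc.measurable
      exact ((measurable_const.sub hπ.measurable).norm.inv).pow_const 2
    exact h1.aestronglyMeasurable
  have h0 : ∀ p, 0 ≤ ‖x - π p‖⁻¹ ^ 2 * ‖F p‖ ^ 2 := fun p => by positivity
  have hfat : ∫⁻ p, ENNReal.ofReal (‖x - π p‖⁻¹ ^ 2 * ‖F p‖ ^ 2) ∂μ ≤
      ENNReal.ofReal (4 * ∫ p, R p ∂μ) := by
    have h1 : ∀ p, ENNReal.ofReal (‖x - π p‖⁻¹ ^ 2 * ‖F p‖ ^ 2) ≤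
        Filter.liminf (fun m : ℕ => ENNReal.ofReal
          ((‖π p - x‖ ^ 2 + 1 / ((m : ℝ) + 1))⁻¹ * ‖F p‖ ^ 2)) Filter.atTop := by
      intro p
      rcases (norm_nonneg (π p - x)).eq_or_lt with h | h
      · have h2 : ‖x - π p‖ = 0 := by rw [norm_sub_rev]; exact h.symm
        rw [h2]
        simp
      · refine le_of_eq ?_
        symm
        refine Filter.Tendsto.liminf_eq ?_
        refine (ENNReal.continuous_ofReal.tendsto _).comp ?_
        refine Filter.Tendsto.mul_const _ ?_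
        have h3 : Filter.Tendsto (fun m : ℕ => ‖π p - x‖ ^ 2 + 1 / ((m : ℝ) + 1)) Filter.atTop
            (nhds (‖π p - x‖ ^ 2 + 0)) :=
          tendsto_const_nhds.add tendsto_one_div_add_atTop_nhds_zero_nat
        have h4 := h3.inv₀ (by positivity)
        rw [add_zero] at h4
        rw [norm_sub_rev x (π p), inv_pow]
        exact h4
    calc ∫⁻ p, ENNReal.ofReal (‖x - π p‖⁻¹ ^ 2 * ‖F p‖ ^ 2) ∂μ
        ≤ ∫⁻ p, Filter.liminf (fun m : ℕ => ENNReal.ofReal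
          ((‖π p - x‖ ^ 2 + 1 / ((m : ℝ) + 1))⁻¹ * ‖F p‖ ^ 2)) Filter.atTop ∂μ :=
          lintegral_mono h1
      _ ≤ Filter.liminf (fun m : ℕ => ∫⁻ p, ENNReal.ofReal
          ((‖π p - x‖ ^ 2 + 1 / ((m : ℝ) + 1))⁻¹ * ‖F p‖ ^ 2) ∂μ) Filter.atTop :=
          lintegral_liminf_le fun m =>
            ((hcont _ (by positivity)).measurable).ennreal_ofReal
      _ ≤ ENNReal.ofReal (4 * ∫ p, R p ∂μ) := by
          refine Filter.liminf_le_of_frequently_le' (Filter.Frequently.of_forall fun m => ?_)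
          rw [← ofReal_integral_eq_lintegral_ofReal (hLi _ (by positivity))
            (Filter.Eventually.of_forall fun p => by positivity)]
          exact ENNReal.ofReal_le_ofReal (key _ (by positivity))
  have hR0 : 0 ≤ 4 * ∫ p, R p ∂μ := by
    refine mul_nonneg (by norm_num) (integral_nonneg fun p => ?_)
    rw [hR]
    exact sum_nonneg fun d _ => by positivity
  have hint : Integrable (fun p => ‖x - π p‖⁻¹ ^ 2 * ‖F p‖ ^ 2) μ := by
    refine ⟨hm, ?_⟩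
    rw [hasFiniteIntegral_iff_ofReal (Filter.Eventually.of_forall h0)]
    exact lt_of_le_of_lt hfat ENNReal.ofReal_lt_top
  refine ⟨hint, ?_⟩
  rw [integral_eq_lintegral_of_nonneg_ae (Filter.Eventually.of_forall h0) hm]
  have h5 := ENNReal.toReal_mono ENNReal.ofReal_ne_top hfat
  rw [ENNReal.toReal_ofReal hR0] at h5
  rw [hR] at h5
  exact h5

theorem hardy0 {q n k : ℕ} {Λ : Set E3} {ψ : (Fin n → Fin q) → Cfg n k → ℂ}
    (h : Sm q n k Λ ψ) (x : E3) :
    (∀ a, IM ψ (fun p => ‖x - p.1 a‖⁻¹ ^ 2) ∧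
      mean ψ (fun p => ‖x - p.1 a‖⁻¹ ^ 2) ≤ 4 * kE ψ a) ∧
    (∀ j, IM ψ (fun p => ‖x - p.2 j‖⁻¹ ^ 2) ∧
      mean ψ (fun p => ‖x - p.2 j‖⁻¹ ^ 2) ≤ 4 * kN ψ j) := by
  have : (volume : Measure (Cfg n k)).IsAddHaarMeasure :=
    Measure.prod.instIsAddHaarMeasure (G := Fin n → E3) (H := Fin k → E3) volume volume
  have hsm1 : ∀ σ, ContDiff ℝ 1 (ψ σ) := fun σ =>
    (h.smooth σ).of_le (by exact_mod_cast le_top)
  constructor
  · intro a
    have h1 := fun σ => hz_main (volume : Measure (Cfg n k))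
      ((ContinuousLinearMap.proj a : (Fin n → E3) →L[ℝ] E3).comp
        (ContinuousLinearMap.fst ℝ (Fin n → E3) (Fin k → E3)))
      (fun d => (Pi.single a (EuclideanSpace.single d 1), 0)) (fun d => by simp) x
      (ψ σ) (hsm1 σ) (h.cpt σ)
    refine ⟨fun σ => (h1 σ).1, ?_⟩
    unfold mean kE
    rw [mul_sum]
    refine sum_le_sum fun σ _ => (h1 σ).2.trans (le_of_eq ?_)
    congr 1
    refine integral_congr_ae (Filter.Eventually.of_forall fun p => ?_)
    dsimp only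
    rw [ge_eq (ψ σ) ((hsm1 σ).differentiable one_ne_zero) a p]
  · intro j
    have h1 := fun σ => hz_main (volume : Measure (Cfg n k))
      ((ContinuousLinearMap.proj j : (Fin k → E3) →L[ℝ] E3).comp
        (ContinuousLinearMap.snd ℝ (Fin n → E3) (Fin k → E3)))
      (fun d => (0, Pi.single j (EuclideanSpace.single d 1))) (fun d => by simp) x
      (ψ σ) (hsm1 σ) (h.cpt σ)
    refine ⟨fun σ => (h1 σ).1, ?_⟩
    unfold mean kN
    rw [mul_sum]
    refine sum_le_sum fun σ _ => (h1 σ).2.trans (le_of_eq ?_)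
    congr 1
    refine integral_congr_ae (Filter.Eventually.of_forall fun p => ?_)
    dsimp only
    rw [gn_eq (ψ σ) ((hsm1 σ).differentiable one_ne_zero) j p]

private theorem hz_ae (n k : ℕ) (x : E3) :
    ∀ᵐ p : Cfg n k, (∀ a, p.1 a ≠ x) ∧ ∀ j, p.2 j ≠ x := by
  have h1 : ∀ m : ℕ, ∀ᵐ y : Fin m → E3, ∀ a, y a ≠ x := by
    intro m
    rw [ae_all_iff]
    intro a
    rw [ae_iff]
    have h2 := Measure.pi_hyperplane (fun _ : Fin m => (volume : Measure E3)) a x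
    rw [volume_pi]
    simpa using h2
  have h3 := (Measure.quasiMeasurePreserving_fst (μ := (volume : Measure (Fin n → E3)))
    (ν := (volume : Measure (Fin k → E3)))).ae (h1 n)
  have h4 := (Measure.quasiMeasurePreserving_snd (μ := (volume : Measure (Fin n → E3)))
    (ν := (volume : Measure (Fin k → E3)))).ae (h1 k)
  filter_upwards [h3, h4] with p hp hq
  exact ⟨hp, hq⟩

private theorem hz_pt {χ : E3 → ℝ} (hχ : Bump χ) (s : ℝ) (hs : 0 < s) (v : E3) (hv : v ≠ 0) :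
    |‖v‖⁻¹ - UU χ s v| ≤ s * ‖v‖⁻¹ ^ 2 := by
  have hv' : 0 < ‖v‖ := norm_pos_iff.2 hv
  rcases le_or_gt s ‖v‖ with h | h
  · rw [UU_eq hχ s hs v h, sub_self, abs_zero]
    positivity
  · have h1 := UU_inv hχ s hs v hv
    have h2 := UU_nonneg hχ s hs v
    rw [abs_of_nonneg (by linarith)]
    have h3 : ‖v‖⁻¹ ≤ s * ‖v‖⁻¹ ^ 2 := by
      have h4 : 1 ≤ s * ‖v‖⁻¹ := by
        rw [← div_eq_mul_inv, one_le_div hv']
        exact h.le
      have h5 : 0 < ‖v‖⁻¹ := inv_pos.2 hv'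
      nlinarith
    linarith

private theorem hz_mean {q n k : ℕ} {ψ : (Fin n → Fin q) → Cfg n k → ℂ} {F G : Cfg n k → ℝ}
    (hF : IM ψ F) (hG : IM ψ G) (h : ∀ᵐ p : Cfg n k, |F p| ≤ G p) :
    |mean ψ F| ≤ mean ψ G := by
  unfold mean
  refine (abs_sum_le_sum_abs _ _).trans (sum_le_sum fun σ _ => ?_)
  refine (abs_integral_le_integral_abs).trans ?_
  refine integral_mono_ae (hF σ).abs (hG σ) ?_
  filter_upwards [h] with p hp
  rw [abs_mul, abs_of_nonneg (sq_nonneg ‖ψ σ p‖)]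
  exact mul_le_mul_of_nonneg_right hp (sq_nonneg _)

/-- a combination of the particles -/
private theorem hz_comb {n k : ℕ} (z : Fin k → ℝ) (zp : ℝ)
    (hz : ∀ j, 0 ≤ z j ∧ z j ≤ zp) (A B : Fin n → ℝ) (C D : Fin k → ℝ)
    (hA : ∀ a, |A a| ≤ B a) (hC : ∀ j, |C j| ≤ D j) :
    |∑ j, z j * C j - ∑ a, A a| ≤ (1 + |zp|) * (∑ a, B a + ∑ j, D j) := by
  have h1 : |∑ j, z j * C j| ≤ |zp| * ∑ j, D j := by
    refine (abs_sum_le_sum_abs _ _).trans ?_
    rw [mul_sum]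
    refine sum_le_sum fun j _ => ?_
    rw [abs_mul, abs_of_nonneg (hz j).1]
    exact mul_le_mul ((hz j).2.trans (le_abs_self zp)) (hC j) (abs_nonneg _) (abs_nonneg _)
  have h2 : |∑ a, A a| ≤ ∑ a, B a :=
    (abs_sum_le_sum_abs _ _).trans (sum_le_sum fun a _ => hA a)
  have h3 : 0 ≤ ∑ a, B a := sum_nonneg fun a _ => (abs_nonneg _).trans (hA a)
  have h4 : 0 ≤ ∑ j, D j := sum_nonneg fun j _ => (abs_nonneg _).trans (hC j)
  have h5 := abs_sub (∑ j, z j * C j) (∑ a, A a)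
  have h6 : 0 ≤ |zp| * ∑ a, B a := mul_nonneg (abs_nonneg _) h3
  nlinarith

theorem near0 {χ : E3 → ℝ} (hχ : Bump χ) {ι : Type} [Fintype ι] {q n k : ℕ} {Λ : Set E3}
    {Ψ : ι → (Fin n → Fin q) → Cfg n k → ℂ} (hΨ : ∀ i, Sm q n k Λ (Ψ i)) (z : Fin k → ℝ)
    (zp : ℝ) (hz : ∀ j, 0 ≤ z j ∧ z j ≤ zp) (s : ℝ) (hs : 0 < s) (x : E3) :
    |mM Ψ (fun p => phi z p x) - mM Ψ (fun p => ph χ s z p x)| ≤
      4 * (1 + |zp|) * s * ∑ i, (∑ a, kE (Ψ i) a + ∑ j, kN (Ψ i) j) := by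
  unfold mM
  rw [← sum_sub_distrib, mul_sum]
  refine (abs_sum_le_sum_abs _ _).trans (sum_le_sum fun i _ => ?_)
  have h := hΨ i
  have hU := (UU_smooth hχ s hs).continuous
  have iU1 : ∀ a : Fin n, IM (Ψ i) (fun p => UU χ s (x - p.1 a)) := fun a =>
    IM.cont h (hU.comp (continuous_const.sub ((continuous_apply a).comp continuous_fst)))
  have iU2 : ∀ j : Fin k, IM (Ψ i) (fun p => UU χ s (x - p.2 j)) := fun j =>
    IM.cont h (hU.comp (continuous_const.sub ((continuous_apply j).comp continuous_snd)))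
  have iD1 : ∀ a : Fin n, IM (Ψ i) (fun p => ‖x - p.1 a‖⁻¹ - UU χ s (x - p.1 a)) := fun a =>
    (IM_we h x a).sub (iU1 a)
  have iD2 : ∀ j : Fin k, IM (Ψ i) (fun p => ‖x - p.2 j‖⁻¹ - UU χ s (x - p.2 j)) := fun j =>
    (IM_wn h x j).sub (iU2 j)
  have hsm : IM (Ψ i) (fun p => ph χ s z p x) := IM.cont h (ph_smooth hχ s hs z x).continuous
  rw [← mean_sub (IM_phi h z x) hsm]
  have e1 : (fun p : Cfg n k => phi z p x - ph χ s z p x) = fun p =>
      ∑ j, z j * (‖x - p.2 j‖⁻¹ - UU χ s (x - p.2 j)) -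
        ∑ a, (‖x - p.1 a‖⁻¹ - UU χ s (x - p.1 a)) := by
    funext p
    unfold phi ph
    simp only [mul_sub, sum_sub_distrib]
    ring
  rw [e1, mean_sub (IM.sum _ fun j _ => (iD2 j).cmul (z j)) (IM.sum _ fun a _ => iD1 a),
    mean_sum _ fun j _ => (iD2 j).cmul (z j), mean_sum _ fun a _ => iD1 a]
  simp only [mean_cmul]
  have hae := hz_ae n k x
  have b1 : ∀ a : Fin n, |mean (Ψ i) (fun p => ‖x - p.1 a‖⁻¹ - UU χ s (x - p.1 a))| ≤
      s * (4 * kE (Ψ i) a) := by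
    intro a
    have h1 := (hardy0 h x).1 a
    have h2 := hz_mean (iD1 a) (h1.1.cmul s) (by
      filter_upwards [hae] with p hp
      exact hz_pt hχ s hs (x - p.1 a) (sub_ne_zero.2 (hp.1 a).symm))
    rw [mean_cmul] at h2
    exact h2.trans (mul_le_mul_of_nonneg_left h1.2 hs.le)
  have b2 : ∀ j : Fin k, |mean (Ψ i) (fun p => ‖x - p.2 j‖⁻¹ - UU χ s (x - p.2 j))| ≤
      s * (4 * kN (Ψ i) j) := by
    intro j
    have h1 := (hardy0 h x).2 j
    have h2 := hz_mean (iD2 j) (h1.1.cmul s) (by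
      filter_upwards [hae] with p hp
      exact hz_pt hχ s hs (x - p.2 j) (sub_ne_zero.2 (hp.2 j).symm))
    rw [mean_cmul] at h2
    exact h2.trans (mul_le_mul_of_nonneg_left h1.2 hs.le)
  refine (hz_comb z zp hz _ _ _ _ b1 b2).trans (le_of_eq ?_)
  simp only [← mul_sum]
  ring

theorem phi_le {ι : Type} [Fintype ι] {q n k : ℕ} {Λ : Set E3}
    {Ψ : ι → (Fin n → Fin q) → Cfg n k → ℂ} (hΨ : ∀ i, Sm q n k Λ (Ψ i))
    (h1 : ∑ i, mass (Ψ i) = 1) (z : Fin k → ℝ) (zp : ℝ) (hz : ∀ j, 0 ≤ z j ∧ z j ≤ zp)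
    (x : E3) :
    |mM Ψ (fun p => phi z p x)| ≤
      4 * (1 + |zp|) * (n + k + ∑ i, (∑ a, kE (Ψ i) a + ∑ j, kN (Ψ i) j)) := by
  have hpt : ∀ v : E3, |‖v‖⁻¹| ≤ 1 + ‖v‖⁻¹ ^ 2 := by
    intro v
    rw [abs_of_nonneg (inv_nonneg.2 (norm_nonneg v))]
    nlinarith [sq_nonneg (‖v‖⁻¹ - 1)]
  have hone : ∀ i, IM (Ψ i) (fun _ => (1 : ℝ)) := fun i => IM.cont (hΨ i) continuous_const
  have key : ∀ i, |mean (Ψ i) (fun p => phi z p x)| ≤
      (1 + |zp|) * ((n + k) * mass (Ψ i) + 4 * (∑ a, kE (Ψ i) a + ∑ j, kN (Ψ i) j)) := by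
    intro i
    have h := hΨ i
    have e1 : (fun p : Cfg n k => phi z p x) = fun p =>
        ∑ j, z j * ‖x - p.2 j‖⁻¹ - ∑ a, ‖x - p.1 a‖⁻¹ := rfl
    rw [e1, mean_sub (IM.sum _ fun j _ => (IM_wn h x j).cmul (z j))
      (IM.sum _ fun a _ => IM_we h x a),
      mean_sum _ fun j _ => (IM_wn h x j).cmul (z j), mean_sum _ fun a _ => IM_we h x a]
    simp only [mean_cmul]
    have b1 : ∀ a : Fin n, |mean (Ψ i) (fun p => ‖x - p.1 a‖⁻¹)| ≤
        mass (Ψ i) + 4 * kE (Ψ i) a := by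
      intro a
      have h1 := (hardy0 h x).1 a
      have h2 := hz_mean (IM_we h x a) ((hone i).add h1.1)
        (Filter.Eventually.of_forall fun p => hpt (x - p.1 a))
      rw [mean_add (hone i) h1.1, mean_one] at h2
      linarith [h1.2]
    have b2 : ∀ j : Fin k, |mean (Ψ i) (fun p => ‖x - p.2 j‖⁻¹)| ≤
        mass (Ψ i) + 4 * kN (Ψ i) j := by
      intro j
      have h1 := (hardy0 h x).2 j
      have h2 := hz_mean (IM_wn h x j) ((hone i).add h1.1)
        (Filter.Eventually.of_forall fun p => hpt (x - p.2 j))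
      rw [mean_add (hone i) h1.1, mean_one] at h2
      linarith [h1.2]
    refine (hz_comb z zp hz _ _ _ _ b1 b2).trans (le_of_eq ?_)
    simp only [sum_add_distrib, ← mul_sum, sum_const, card_univ, Fintype.card_fin,
      nsmul_eq_mul]
    ring
  unfold mM
  refine (abs_sum_le_sum_abs _ _).trans ?_
  refine (sum_le_sum fun i _ => key i).trans ?_
  rw [← mul_sum, sum_add_distrib, ← mul_sum, ← mul_sum, h1]
  have h2 : 0 ≤ 1 + |zp| := by positivity
  have h3 : (0 : ℝ) ≤ (n : ℝ) + k := by positivity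
  have h4 := mul_nonneg h2 h3
  nlinarith

end H6.CT
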