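import Pool.Agent.H6.CT.EntK
import Pool.Agent.H6.CT.HarT
import Pool.Agent.H6.CB.StabD
import Pool.Agent.H6.CM.NonE

/-! Bounded numbers of particles. `trial_ex`: a normalised wave function of `n` electrons and `k` nuclei in a small ball (as in `Pool/Agent/H6/CM/NonE.lean`: an antisymmetrised product of bumps with disjoint supports, times bumps for the nuclei). `smallT`: for each of the finitely many pairs `(n, k)` with `n + k ≤ N0` fix such a function `φ` in the ball of radius `R0`; its energy is at most `∑ kE + |κp| * ∑ kN + mean (..)`, a constant, and `Eqs.min` for this single function gives `FE T z κ Ψ ≤ C`. If `1 ≤ n` and `q = 0` there is no state with `∑ mass = 1`. Lower bound: `energy z κ (Ψ i) ≥ (1/2) * (∑ kE + κm * ∑ kN) - C * (n + k) * mass` by `stabD` with `δ = 1/2`, and `entK` with `T * ε ≤ (1/4) * min 1 κm` (in the ball of radius `R1`; wave functions in `Λ` are wave functions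 in larger sets: `St` only uses `Λ` in the field `supp`). Then `phi_le`. -/

open MeasureTheory Finset

namespace H6.CT

open H6.CM H6.CB H6.CL

private theorem sr_haar (n k : ℕ) : (volume : Measure (Cfg n k)).IsAddHaarMeasure :=
  Measure.prod.instIsAddHaarMeasure (G := Fin n → E3) (H := Fin k → E3) volume volume

private theorem sr_mass_pos {q n k : ℕ} {Λ : Set E3} {ψ : (Fin n → Fin q) → Cfg n k → ℂ}
    (hψ : St q n k Λ ψ) (σ : Fin n → Fin q) (p : Cfg n k) (h : ψ σ p ≠ 0) : 0 < mass ψ := by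
  have hinst := sr_haar n k
  obtain ⟨hc, hk⟩ := Sm_sq (St_sm hψ) σ
  have h1 : 0 < ∫ p, ‖ψ σ p‖ ^ 2 := by
    refine Continuous.integral_pos_of_hasCompactSupport_nonneg_nonzero (x := p)
      hc hk (fun p => by positivity) ?_
    have := norm_pos_iff.mpr h
    positivity
  refine lt_of_lt_of_le h1 ?_
  exact single_le_sum (f := fun σ => ∫ p, ‖ψ σ p‖ ^ 2)
    (fun σ _ => integral_nonneg fun p => by positivity) (mem_univ σ)

private theorem sr_bumps (n : ℕ) (r : ℝ) (hr : 0 < r) :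
    ∃ (c : Fin n → E3) (f : Fin n → E3 → ℝ),
      (∀ b, ContDiff ℝ (⊤ : ℕ∞) (f b)) ∧
      (∀ b v, f b v ≠ 0 → v ∈ Metric.closedBall (0 : E3) (r / 2)) ∧
      ∀ a b, f b (c a) = if a = b then 1 else 0 := by
  obtain ⟨e0, he0⟩ : ∃ e0 : E3, e0 = EuclideanSpace.single (0 : Fin 3) (1 : ℝ) := ⟨_, rfl⟩
  have hne0 : ‖e0‖ = 1 := by rw [he0]; simp
  obtain ⟨s, hs⟩ : ∃ s : ℝ, s = r / (8 * ((n : ℝ) + 1)) := ⟨_, rfl⟩
  have hs0 : 0 < s := by rw [hs]; positivity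
  have hns : ((n : ℝ) + 1) * s = r / 8 := by
    rw [hs]
    field_simp
  obtain ⟨c, hc⟩ : ∃ c : Fin n → E3, c = fun b : Fin n => (((b : ℕ) : ℝ) * s) • e0 :=
    ⟨_, rfl⟩
  have hcm : ∀ b, ‖c b‖ ≤ r / 8 := by
    intro b
    rw [hc]
    simp only
    rw [norm_smul, hne0, mul_one, Real.norm_eq_abs, abs_of_nonneg (by positivity), ← hns]
    refine mul_le_mul_of_nonneg_right ?_ hs0.le
    have : ((b : ℕ) : ℝ) ≤ n := by
      exact_mod_cast b.2.le
    linarith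
  have hdist : ∀ a b, a ≠ b → s ≤ dist (c a) (c b) := by
    intro a b hab
    rw [hc, dist_eq_norm]
    have h1 : (((a : ℕ) : ℝ) * s) • e0 - (((b : ℕ) : ℝ) * s) • e0
        = ((((a : ℕ) : ℝ) - ((b : ℕ) : ℝ)) * s) • e0 := by
      rw [← sub_smul, sub_mul]
    simp only [h1]
    rw [norm_smul, hne0, mul_one, Real.norm_eq_abs, abs_mul, abs_of_pos hs0]
    have h2 : (1 : ℝ) ≤ |((a : ℕ) : ℝ) - ((b : ℕ) : ℝ)| := by
      have h3 : ((a : ℕ) : ℤ) - ((b : ℕ) : ℤ) ≠ 0 := by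
        intro h
        apply hab
        apply Fin.ext
        omega
      have h4 : (1 : ℤ) ≤ |((a : ℕ) : ℤ) - ((b : ℕ) : ℤ)| := Int.one_le_abs h3
      have h5 : ((1 : ℤ) : ℝ) ≤ ((|((a : ℕ) : ℤ) - ((b : ℕ) : ℤ)| : ℤ) : ℝ) := by
        exact_mod_cast h4
      push_cast at h5
      exact h5
    nlinarith
  have hbump : ∀ b, ∃ χ : ContDiffBump (c b), χ.rOut = s :=
    fun b => ⟨⟨s / 2, s, by linarith, by linarith⟩, rfl⟩
  choose χ hχ using hbump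
  refine ⟨c, fun b => χ b, ?_, ?_, ?_⟩
  · intro b
    exact (χ b).contDiff
  · intro b v hv
    by_contra hnot
    apply hv
    apply (χ b).zero_of_le_dist
    rw [hχ b]
    by_contra hlt
    push Not at hlt
    apply hnot
    rw [mem_closedBall_zero_iff]
    have h1 : ‖v‖ ≤ dist v (c b) + ‖c b‖ := by
      rw [dist_eq_norm]
      calc ‖v‖ = ‖(v - c b) + c b‖ := by rw [sub_add_cancel]
        _ ≤ _ := norm_add_le _ _
    have h2 := hcm b
    have h3 : s ≤ r / 8 := by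
      rw [← hns]
      have : (0 : ℝ) ≤ n := Nat.cast_nonneg n
      nlinarith
    linarith
  · intro a b
    by_cases hab : a = b
    · rw [if_pos hab, hab]
      apply (χ b).one_of_mem_closedBall
      exact Metric.mem_closedBall_self (χ b).rIn_pos.le
    · rw [if_neg hab]
      apply (χ b).zero_of_le_dist
      rw [hχ b]
      exact hdist a b hab

/-- the Slater determinant -/
private noncomputable def sDt {n : ℕ} (f : Fin n → E3 → ℝ) (x : Fin n → E3) : ℝ :=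
  Matrix.det (Matrix.of fun a b => f b (x a))

private theorem sDt_smooth {n : ℕ} (f : Fin n → E3 → ℝ) (hf : ∀ b, ContDiff ℝ (⊤ : ℕ∞) (f b)) :
    ContDiff ℝ (⊤ : ℕ∞) (sDt f) := by
  have h1 : sDt f = fun x : Fin n → E3 => ∑ σ : Equiv.Perm (Fin n),
      ((Equiv.Perm.sign σ : ℤ) : ℝ) * ∏ i, f i (x (σ i)) := by
    funext x
    unfold sDt
    rw [Matrix.det_apply']
    rfl
  rw [h1]
  refine ContDiff.sum fun σ _ => ?_
  refine contDiff_const.mul ?_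
  refine contDiff_prod fun i _ => ?_
  exact (hf i).comp (contDiff_apply ℝ E3 (σ i))

private theorem sDt_perm {n : ℕ} (f : Fin n → E3 → ℝ) (x : Fin n → E3) (π : Equiv.Perm (Fin n)) :
    sDt f (x ∘ π) = ((Equiv.Perm.sign π : ℤ) : ℝ) * sDt f x := by
  unfold sDt
  exact Matrix.det_permute π (Matrix.of fun a b => f b (x a))

private theorem sDt_supp {n : ℕ} (f : Fin n → E3 → ℝ) (K : Set E3)
    (h : ∀ b v, f b v ≠ 0 → v ∈ K) (x : Fin n → E3) (hx : sDt f x ≠ 0) (a : Fin n) :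
    x a ∈ K := by
  by_contra hn
  apply hx
  refine Matrix.det_eq_zero_of_row_eq_zero a fun b => ?_
  by_contra h0
  exact hn (h b _ h0)

private noncomputable def ssc {q n k : ℕ} (c : ℝ) (ψ : (Fin n → Fin q) → Cfg n k → ℂ) :
    (Fin n → Fin q) → Cfg n k → ℂ := fun σ p => (c : ℂ) * ψ σ p

private theorem ssc_st {q n k : ℕ} {Λ : Set E3} {ψ : (Fin n → Fin q) → Cfg n k → ℂ}
    (hψ : St q n k Λ ψ) (c : ℝ) : St q n k Λ (ssc c ψ) := by
  refine ⟨fun σ => ?_, fun σ => ?_, fun σ p hp => ?_, fun π σ p => ?_⟩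
  · exact contDiff_const.mul (hψ.smooth σ)
  · exact (hψ.cpt σ).mul_left
  · refine hψ.supp σ p (closure_mono ?_ hp)
    intro x hx h0
    apply hx
    show (c : ℂ) * ψ σ x = 0
    rw [h0, mul_zero]
  · unfold ssc
    rw [hψ.anti π σ p]
    ring

private theorem ssc_mass {q n k : ℕ} (c : ℝ) (ψ : (Fin n → Fin q) → Cfg n k → ℂ) :
    mass (ssc c ψ) = c ^ 2 * mass ψ := by
  unfold mass ssc
  rw [mul_sum]
  refine sum_congr rfl fun σ _ => ?_
  rw [← integral_const_mul]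
  congr 1
  funext p
  rw [norm_mul, mul_pow, Complex.norm_real, Real.norm_eq_abs, sq_abs]

private theorem sr_trial (q n k : ℕ) (s0 : Fin n → Fin q)
    (hs0 : ∀ π : Equiv.Perm (Fin n), s0 ∘ π = s0) (r : ℝ) (hr : 0 < r) :
    ∃ ψ : (Fin n → Fin q) → Cfg n k → ℂ, St q n k (Metric.ball 0 r) ψ ∧ mass ψ = 1 := by
  classical
  obtain ⟨c, f, hfs, hfK, hfc⟩ := sr_bumps n r hr
  obtain ⟨χ0, hχ0⟩ : ∃ χ0 : ContDiffBump (0 : E3), χ0.rOut = r / 2 :=
    ⟨⟨r / 4, r / 2, by linarith, by linarith⟩, rfl⟩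
  have hK : IsCompact (Metric.closedBall (0 : E3) (r / 2)) := isCompact_closedBall _ _
  have hKb : Metric.closedBall (0 : E3) (r / 2) ⊆ Metric.ball 0 r :=
    Metric.closedBall_subset_ball (by linarith)
  have hχK : ∀ v, χ0 v ≠ 0 → v ∈ Metric.closedBall (0 : E3) (r / 2) := by
    intro v hv
    by_contra hnot
    apply hv
    apply χ0.zero_of_le_dist
    rw [hχ0]
    rw [Metric.mem_closedBall] at hnot
    push Not at hnot
    exact hnot.le
  obtain ⟨ψ, hψd⟩ : ∃ ψ : (Fin n → Fin q) → Cfg n k → ℂ, ψ = fun σ p => if σ = s0 then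
      ((sDt f p.1 * ∏ j, χ0 (p.2 j) : ℝ) : ℂ) else 0 := ⟨_, rfl⟩
  obtain ⟨KK, hKKd⟩ : ∃ KK : Set (Cfg n k),
      KK = (Set.univ.pi fun _ : Fin n => Metric.closedBall (0 : E3) (r / 2)) ×ˢ
      (Set.univ.pi fun _ : Fin k => Metric.closedBall (0 : E3) (r / 2)) := ⟨_, rfl⟩
  have hKK : IsCompact KK := by
    rw [hKKd]
    exact (isCompact_univ_pi fun _ => hK).prod (isCompact_univ_pi fun _ => hK)
  have hsub : ∀ σ, Function.support (ψ σ) ⊆ KK := by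
    intro σ p hp
    rw [Function.mem_support, hψd] at hp
    simp only at hp
    by_cases hσ : σ = s0
    · rw [if_pos hσ] at hp
      have h1 : sDt f p.1 * ∏ j, χ0 (p.2 j) ≠ 0 := by
        intro h
        apply hp
        rw [h, Complex.ofReal_zero]
      have h2 : sDt f p.1 ≠ 0 := left_ne_zero_of_mul h1
      have h3 : ∏ j, χ0 (p.2 j) ≠ 0 := right_ne_zero_of_mul h1
      rw [hKKd]
      refine ⟨fun a _ => sDt_supp f _ hfK p.1 h2 a, fun j _ => ?_⟩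
      exact hχK _ (prod_ne_zero_iff.mp h3 j (mem_univ j))
    · rw [if_neg hσ] at hp
      exact absurd rfl hp
  have hψ : St q n k (Metric.ball 0 r) ψ := by
    refine ⟨fun σ => ?_, fun σ => ?_, fun σ p hp => ?_, fun π σ p => ?_⟩
    · rw [hψd]
      by_cases hσ : σ = s0
      · simp only [if_pos hσ]
        refine Complex.ofRealCLM.contDiff.comp ?_
        refine ((sDt_smooth f hfs).comp contDiff_fst).mul ?_
        refine contDiff_prod fun j _ => ?_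
        exact χ0.contDiff.comp ((contDiff_apply ℝ E3 j).comp contDiff_snd)
      · simp only [if_neg hσ]
        exact contDiff_const
    · exact HasCompactSupport.of_support_subset_isCompact hKK (hsub σ)
    · have h1 : p ∈ KK := closure_minimal (hsub σ) hKK.isClosed hp
      rw [hKKd] at h1
      exact ⟨fun a => hKb (h1.1 a (Set.mem_univ a)), fun j => hKb (h1.2 j (Set.mem_univ j))⟩
    · rw [hψd]
      simp only
      have hc0 : (σ ∘ π = s0) ↔ (σ = s0) := by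
        constructor
        · intro h
          have h1 : (σ ∘ π) ∘ π.symm = s0 ∘ π.symm := by rw [h]
          rw [hs0 π.symm, Function.comp_assoc] at h1
          simpa using h1
        · intro h
          rw [h, hs0 π]
      by_cases hσ : σ = s0
      · rw [if_pos (hc0.mpr hσ), if_pos hσ, sDt_perm]
        push_cast
        ring
      · rw [if_neg (fun h => hσ (hc0.mp h)), if_neg hσ, mul_zero]
  have hne : ψ s0 (c, fun _ => 0) ≠ 0 := by
    rw [hψd]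
    simp only [if_true]
    have h1 : sDt f c = 1 := by
      unfold sDt
      have h2 : (Matrix.of fun a b => f b (c a)) = (1 : Matrix (Fin n) (Fin n) ℝ) := by
        ext a b
        rw [Matrix.of_apply, hfc, Matrix.one_apply]
      rw [h2, Matrix.det_one]
    have h3 : χ0 (0 : E3) = 1 := χ0.one_of_mem_closedBall
      (Metric.mem_closedBall_self χ0.rIn_pos.le)
    rw [h1, h3]
    simp
  have hpos : 0 < mass ψ := sr_mass_pos hψ s0 (c, fun _ => 0) hne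
  refine ⟨ssc ((Real.sqrt (mass ψ))⁻¹) ψ, ssc_st hψ _, ?_⟩
  rw [ssc_mass, inv_pow, Real.sq_sqrt hpos.le, inv_mul_cancel₀ hpos.ne']

theorem trial_ex (q n k : ℕ) (hq : 1 ≤ q) (r : ℝ) (hr : 0 < r) :
    ∃ ψ : (Fin n → Fin q) → Cfg n k → ℂ, St q n k (Metric.ball 0 r) ψ ∧ mass ψ = 1 :=
  sr_trial q n k (fun _ => ⟨0, hq⟩) (fun _ => rfl) r hr

private theorem sr_st {q n k : ℕ} {Λ Λ' : Set E3} (hΛ : Λ ⊆ Λ')
    {ψ : (Fin n → Fin q) → Cfg n k → ℂ} (h : St q n k Λ ψ) : St q n k Λ' ψ :=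
  ⟨h.smooth, h.cpt, fun σ p hp => ⟨fun a => hΛ ((h.supp σ p hp).1 a),
    fun j => hΛ ((h.supp σ p hp).2 j)⟩, h.anti⟩

/-- all inverse distances -/
private noncomputable def sF {n k : ℕ} (p : Cfg n k) : ℝ :=
  ∑ a, ∑ b, ‖p.1 a - p.1 b‖⁻¹ + ∑ j, ∑ l, ‖p.2 j - p.2 l‖⁻¹

private theorem sr_V {n k : ℕ} (z : Fin k → ℝ) (zp : ℝ) (hz : ∀ j, 0 ≤ z j ∧ z j ≤ zp)
    (p : Cfg n k) : V z p ≤ (1 + zp ^ 2) * sF p := by
  unfold V sF
  have h1 : 0 ≤ ∑ a, ∑ b, ‖p.1 a - p.1 b‖⁻¹ :=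
    sum_nonneg fun a _ => sum_nonneg fun b _ => by positivity
  have h2 : 0 ≤ ∑ a, ∑ j, z j * ‖p.1 a - p.2 j‖⁻¹ :=
    sum_nonneg fun a _ => sum_nonneg fun j _ => mul_nonneg (hz j).1 (by positivity)
  have h3 : 0 ≤ ∑ j, ∑ l, ‖p.2 j - p.2 l‖⁻¹ :=
    sum_nonneg fun a _ => sum_nonneg fun b _ => by positivity
  have h4 : ∑ j, ∑ l, z j * z l * ‖p.2 j - p.2 l‖⁻¹ ≤ zp ^ 2 * ∑ j, ∑ l, ‖p.2 j - p.2 l‖⁻¹ := by
    rw [mul_sum]
    refine sum_le_sum fun j _ => ?_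
    rw [mul_sum]
    refine sum_le_sum fun l _ => ?_
    refine mul_le_mul_of_nonneg_right ?_ (by positivity)
    rw [sq]
    exact mul_le_mul (hz j).2 (hz l).2 (hz l).1 ((hz j).1.trans (hz j).2)
  have h5 : 0 ≤ zp ^ 2 * ∑ a, ∑ b, ‖p.1 a - p.1 b‖⁻¹ := mul_nonneg (sq_nonneg _) h1
  have h6 : 0 ≤ zp ^ 2 * ∑ j, ∑ l, ‖p.2 j - p.2 l‖⁻¹ := mul_nonneg (sq_nonneg _) h3
  linarith

/-- a trial state with bounded energy -/
private theorem sr_up (q n k : ℕ) (hq : 1 ≤ q ∨ n = 0) (zp κp R0 : ℝ) (hR0 : 0 < R0) :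
    ∃ E : ℝ, 0 ≤ E ∧ ∀ (Λ : Set E3) (_ : Metric.ball 0 R0 ⊆ Λ) (z κ : Fin k → ℝ)
      (_ : ∀ j, 0 ≤ z j ∧ z j ≤ zp) (_ : ∀ j, 0 ≤ κ j ∧ κ j ≤ κp),
      ∃ φ : (Fin n → Fin q) → Cfg n k → ℂ, St q n k Λ φ ∧ mass φ = 1 ∧
        energy z κ φ ≤ E := by
  obtain ⟨φ, hφ, hm⟩ : ∃ ψ : (Fin n → Fin q) → Cfg n k → ℂ,
      St q n k (Metric.ball 0 R0) ψ ∧ mass ψ = 1 := by
    rcases hq with hq | hn
    · exact trial_ex q n k hq R0 hR0
    · subst hn
      exact sr_trial q 0 k Fin.elim0 (fun π => Subsingleton.elim _ _) R0 hR0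
  have hSm := St_sm hφ
  have iF : IM φ (fun p => sF p) :=
    (IM.sum _ fun a _ => IM.sum _ fun b _ => IM_ee hSm a b).add
      (IM.sum _ fun a _ => IM.sum _ fun b _ => IM_nn hSm a b)
  have hF0 : 0 ≤ mean φ (fun p => sF p) := by
    refine mean_nonneg fun σ p _ => ?_
    unfold sF
    exact add_nonneg (sum_nonneg fun a _ => sum_nonneg fun b _ => by positivity)
      (sum_nonneg fun a _ => sum_nonneg fun b _ => by positivity)
  have hkE : 0 ≤ ∑ a, kE φ a := sum_nonneg fun a _ => kE_nonneg φ a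
  have hkN : 0 ≤ ∑ j, kN φ j := sum_nonneg fun a _ => kN_nonneg φ a
  refine ⟨∑ a, kE φ a + |κp| * ∑ j, kN φ j + (1 + zp ^ 2) * mean φ (fun p => sF p),
    by positivity, ?_⟩
  intro Λ hΛ z κ hz hκ
  refine ⟨φ, sr_st hΛ hφ, hm, ?_⟩
  unfold energy
  have h1 : ∑ j, κ j * kN φ j ≤ |κp| * ∑ j, kN φ j := by
    rw [mul_sum]
    refine sum_le_sum fun j _ => ?_
    exact mul_le_mul_of_nonneg_right ((hκ j).2.trans (le_abs_self _)) (kN_nonneg φ j)
  have h2 : mean φ (V z) ≤ (1 + zp ^ 2) * mean φ (fun p => sF p) := by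
    rw [← mean_cmul]
    exact mean_mono (IM_V hSm z) (iF.cmul _) fun σ p _ => sr_V z zp hz p
  linarith

theorem smallT (q N0 : ℕ) (T zm zp κm κp R0 R1 : ℝ) (hT : 0 ≤ T) (hzm : 0 < zm)
    (hκm : 0 < κm) (hR0 : 0 < R0) : ∃ C : ℝ, 0 ≤ C ∧
    ∀ (ι : Type) (_ : Fintype ι) (n k : ℕ) (_ : n + k ≤ N0) (Λ : Set E3)
    (_ : Metric.ball 0 R0 ⊆ Λ) (_ : Λ ⊆ Metric.ball 0 R1) (z κ : Fin k → ℝ)
    (_ : ∀ j, zm ≤ z j ∧ z j ≤ zp)
    (_ : ∀ j, κm ≤ κ j ∧ κ j ≤ κp) (δ : ℝ) (_ : δ ≤ 1)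
    (Ψ : ι → (Fin n → Fin q) → Cfg n k → ℂ)
    (_ : Eqs T δ Λ z κ Ψ) (x : E3),
    |mM Ψ (fun p => phi z p x)| ≤ C := by
  obtain ⟨E, hE⟩ : ∃ E : ℕ → ℕ → ℝ, ∀ n k, 0 ≤ E n k ∧ ((1 ≤ q ∨ n = 0) →
      ∀ (Λ : Set E3) (_ : Metric.ball 0 R0 ⊆ Λ) (z κ : Fin k → ℝ)
      (_ : ∀ j, 0 ≤ z j ∧ z j ≤ zp) (_ : ∀ j, 0 ≤ κ j ∧ κ j ≤ κp),
      ∃ φ : (Fin n → Fin q) → Cfg n k → ℂ, St q n k Λ φ ∧ mass φ = 1 ∧
        energy z κ φ ≤ E n k) := by
    have h1 : ∀ n k : ℕ, ∃ E : ℝ, 0 ≤ E ∧ ((1 ≤ q ∨ n = 0) →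
        ∀ (Λ : Set E3) (_ : Metric.ball 0 R0 ⊆ Λ) (z κ : Fin k → ℝ)
        (_ : ∀ j, 0 ≤ z j ∧ z j ≤ zp) (_ : ∀ j, 0 ≤ κ j ∧ κ j ≤ κp),
        ∃ φ : (Fin n → Fin q) → Cfg n k → ℂ, St q n k Λ φ ∧ mass φ = 1 ∧
          energy z κ φ ≤ E) := by
      intro n k
      by_cases hq : 1 ≤ q ∨ n = 0
      · obtain ⟨E, hE0, hE⟩ := sr_up q n k hq zp κp R0 hR0
        exact ⟨E, hE0, fun _ => hE⟩
      · exact ⟨0, le_rfl, fun h => absurd h hq⟩
    choose E hE using h1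
    exact ⟨E, hE⟩
  obtain ⟨C1, hC1, hst⟩ := stabD q zp (1 / 2) (by norm_num)
  obtain ⟨c, hc⟩ : ∃ c : ℝ, c = min 1 κm := ⟨_, rfl⟩
  have hc0 : 0 < c := by
    rw [hc]
    exact lt_min one_pos hκm
  have hc1 : c ≤ 1 := by
    rw [hc]
    exact min_le_left _ _
  have hcκ : c ≤ κm := by
    rw [hc]
    exact min_le_right _ _
  obtain ⟨ε, hε⟩ : ∃ ε : ℝ, ε = c / (4 * (T + 1)) := ⟨_, rfl⟩
  have hε0 : 0 < ε := by
    rw [hε]
    positivity
  have hTε : T * ε ≤ c / 4 := by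
    rw [hε, ← mul_div_assoc, div_le_div_iff₀ (by positivity) (by norm_num)]
    nlinarith
  obtain ⟨C2, hC2, hent⟩ := entK q ε hε0 R1
  obtain ⟨Eu, hEu⟩ : ∃ Eu : ℝ, Eu = ∑ n ∈ range (N0 + 1), ∑ k ∈ range (N0 + 1), E n k :=
    ⟨_, rfl⟩
  have hEle : ∀ n k : ℕ, n + k ≤ N0 → E n k ≤ Eu := by
    intro n k hnk
    rw [hEu]
    refine le_trans ?_ (single_le_sum (f := fun n => ∑ k ∈ range (N0 + 1), E n k)
      (fun n _ => sum_nonneg fun k _ => (hE n k).1) (mem_range.2 (by omega : n < N0 + 1)))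
    exact single_le_sum (f := fun k => E n k) (fun k _ => (hE n k).1)
      (mem_range.2 (by omega : k < N0 + 1))
  have hEu0 : 0 ≤ Eu := by
    rw [hEu]
    exact sum_nonneg fun n _ => sum_nonneg fun k _ => (hE n k).1
  obtain ⟨Km, hKm⟩ : ∃ Km : ℝ, Km = 4 / c * (Eu + 1 + (C1 + T * C2) * N0) := ⟨_, rfl⟩
  have hKm0 : 0 ≤ Km := by
    rw [hKm]
    positivity
  refine ⟨4 * (1 + |zp|) * (N0 + Km), by positivity, ?_⟩
  intro ι _ n k hnk Λ hΛ0 hΛ1 z κ hz hκ δ hδ Ψ hEq x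
  have hz' : ∀ j, 0 ≤ z j ∧ z j ≤ zp := fun j => ⟨hzm.le.trans (hz j).1, (hz j).2⟩
  have hκ' : ∀ j, 0 ≤ κ j ∧ κ j ≤ κp := fun j => ⟨hκm.le.trans (hκ j).1, (hκ j).2⟩
  have hnkR : (n : ℝ) + k ≤ N0 := by exact_mod_cast hnk
  -- there is a spin configuration
  have hq : 1 ≤ q ∨ n = 0 := by
    by_contra hcon
    push Not at hcon
    obtain ⟨hq0, hn0⟩ := hcon
    have hq0' : q = 0 := by omega
    subst hq0'
    have h0 : ∀ i, mass (Ψ i) = 0 := by
      intro i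
      unfold mass
      have he : IsEmpty (Fin n → Fin 0) := ⟨fun s => (s ⟨0, Nat.pos_of_ne_zero hn0⟩).elim0⟩
      exact Fintype.sum_empty _
    have h1 := hEq.one
    simp only [h0, sum_const_zero] at h1
    exact zero_ne_one h1
  obtain ⟨φ, hφ, hφm, hφE⟩ := (hE n k).2 hq Λ hΛ0 z κ hz' hκ'
  -- the upper bound
  have hup : FE T z κ Ψ ≤ Eu + 1 := by
    have h1 := hEq.min 1 (fun _ => φ) (fun _ => hφ)
      (fun i j hij => absurd (Subsingleton.elim i j) hij) (by simp [hφm])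
    have h2 : FE T z κ (fun _ : Fin 1 => φ) = energy z κ φ := by
      unfold FE
      simp [hφm]
    rw [h2] at h1
    have h3 := hEle n k hnk
    linarith
  -- the lower bound
  obtain ⟨Ke, hKe⟩ : ∃ Ke : ℝ, Ke = ∑ i, ∑ a, kE (Ψ i) a := ⟨_, rfl⟩
  obtain ⟨Kn, hKn⟩ : ∃ Kn : ℝ, Kn = ∑ i, ∑ j, kN (Ψ i) j := ⟨_, rfl⟩
  have hKe0 : 0 ≤ Ke := by
    rw [hKe]
    exact sum_nonneg fun i _ => sum_nonneg fun a _ => kE_nonneg (Ψ i) a
  have hKn0 : 0 ≤ Kn := by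
    rw [hKn]
    exact sum_nonneg fun i _ => sum_nonneg fun a _ => kN_nonneg (Ψ i) a
  have hKK : ∑ i, (∑ a, kE (Ψ i) a + ∑ j, kN (Ψ i) j) = Ke + Kn := by
    rw [hKe, hKn, sum_add_distrib]
  have hen : ∀ i, 1 / 2 * ∑ a, kE (Ψ i) a + c * ∑ j, kN (Ψ i) j -
      C1 * (n + k) * mass (Ψ i) ≤ energy z κ (Ψ i) := by
    intro i
    have h1 := hst n k Λ z hz' (Ψ i) (hEq.st i)
    have h2 : c * ∑ j, kN (Ψ i) j ≤ ∑ j, κ j * kN (Ψ i) j := by
      rw [mul_sum]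
      refine sum_le_sum fun j _ => ?_
      exact mul_le_mul_of_nonneg_right (hcκ.trans (hκ j).1) (kN_nonneg (Ψ i) j)
    unfold energy
    linarith
  have hlow : 1 / 2 * Ke + c * Kn - C1 * (n + k) +
      T * ∑ i, mass (Ψ i) * Real.log (mass (Ψ i)) ≤ FE T z κ Ψ := by
    unfold FE
    have h1 := sum_le_sum fun i (_ : i ∈ (univ : Finset ι)) => hen i
    rw [sum_sub_distrib, sum_add_distrib, ← mul_sum, ← mul_sum, ← mul_sum, hEq.one, ← hKe,
      ← hKn, mul_one] at h1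
    rw [sum_add_distrib, ← mul_sum]
    linarith
  have hent1 := hent ι _ n k R1 le_rfl Ψ (fun i => sr_st hΛ1 (hEq.st i)) hEq.ort hEq.one
  rw [hKK] at hent1
  have hent2 := mul_le_mul_of_nonneg_left hent1 hT
  have hKs : Ke + Kn ≤ Km := by
    have h1 : T * (ε * (Ke + Kn) + C2 * (n + k)) ≤ c / 4 * (Ke + Kn) + T * C2 * N0 := by
      have h2 : T * ε * (Ke + Kn) ≤ c / 4 * (Ke + Kn) :=
        mul_le_mul_of_nonneg_right hTε (by linarith)
      have h3 : T * C2 * (n + k) ≤ T * C2 * N0 :=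
        mul_le_mul_of_nonneg_left hnkR (by positivity)
      calc T * (ε * (Ke + Kn) + C2 * (n + k)) = T * ε * (Ke + Kn) + T * C2 * (n + k) := by ring
        _ ≤ _ := add_le_add h2 h3
    have h4 : C1 * (n + k) ≤ C1 * N0 := mul_le_mul_of_nonneg_left hnkR hC1
    have h5 : c / 2 * (Ke + Kn) ≤ 1 / 2 * Ke + c * Kn := by nlinarith
    have h6 : c / 4 * (Ke + Kn) ≤ Eu + 1 + (C1 + T * C2) * N0 := by linarith
    have h7 : Km = 4 / c * (Eu + 1 + (C1 + T * C2) * N0) := hKm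
    rw [h7]
    calc Ke + Kn = 4 / c * (c / 4 * (Ke + Kn)) := by field_simp
      _ ≤ _ := mul_le_mul_of_nonneg_left h6 (by positivity)
  have hfin := phi_le (fun i => St_sm (hEq.st i)) hEq.one z zp hz' x
  rw [hKK] at hfin
  refine hfin.trans (mul_le_mul_of_nonneg_left ?_ (by positivity))
  linarith

end H6.CT
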