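import Pool.Agent.H6.CT.RotP
import Pool.Agent.H6.CL.Sph

/-! From averages over spheres to points, for almost rotation invariant potentials. Let `h u = mM Ψ (ph χ s z · u)`, a continuous function, and `t = ‖x‖ ≥ 1`. For `ε > 0` let `m` be a radial probability density supported in the shell `t ≤ ‖u‖ ≤ t + ε` (e.g. the normalised indicator function). `UU χ s (u - y) = ∫ c, ν c * ‖u - y - c‖⁻¹` with `ν` the convolution of `chr χ s ^ 2` with itself, a probability density supported in `‖c‖ < s` (definition of `UU`, `U`; Fubini). By Newton's theorem (mean of `‖u - y‖⁻¹` with respect to a radial density: `∫ u, m u * ‖u - y‖⁻¹ = ∫ u, m u * (max ‖u‖ ‖y‖)⁻¹`; compare `newton_max` in `Pool/Agent/H6/CB/NMax.lean`), `∫ u, m u * UU χ s (u - y) = ∫ c, ν c * ∫ u, m u * (max ‖u‖ ‖y + c‖)⁻¹`, which differs from `∫ u, m u * (max ‖u‖ ‖y‖)⁻¹` by at most `s / t ^ 2 ≤ s`. Summing over the charges (the sum of their absolute values is `2 n`), `|∫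 u, m u * h u - ∫ u, m u * H6.CL.Ph z Ψ ‖u‖| ≤ 2 n s`. By hypothesis `|h u - h ((‖u‖ / t) • x)| ≤ K1`. Let `ε → 0`: `h ((‖u‖ / t) • x) → h x`. -/

open MeasureTheory Finset

namespace H6.CT

open H6.CM H6.CB H6.CL

private theorem sp_smooth (a b : ℝ) :
    ContDiff ℝ (⊤ : ℕ∞) fun v : E3 => Real.smoothTransition (a * ‖v‖ ^ 2 + b) :=
  Real.smoothTransition.contDiff.comp ((contDiff_const.mul (contDiff_norm_sq ℝ)).add contDiff_const)

/-- a radial bump concentrated near the sphere of radius `1 / 4`, outside of it -/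
private theorem sp_bump (ε : ℝ) (hε : 0 < ε) (hε1 : ε ≤ 1 / 4) : ∃ χ : E3 → ℝ, Bump χ ∧
    ∀ v, χ v ≠ 0 → 1 / 4 < ‖v‖ ∧ ‖v‖ < 1 / 4 + ε := by
  have hs : ContDiff ℝ (⊤ : ℕ∞) fun v : E3 => Real.smoothTransition (1 * ‖v‖ ^ 2 + (-(1 / 16))) *
      Real.smoothTransition ((-1) * ‖v‖ ^ 2 + (1 / 4 + ε) ^ 2) :=
    (sp_smooth 1 (-(1 / 16))).mul (sp_smooth (-1) ((1 / 4 + ε) ^ 2))
  set g : E3 → ℝ := fun v : E3 => Real.smoothTransition (1 * ‖v‖ ^ 2 + (-(1 / 16))) *
      Real.smoothTransition ((-1) * ‖v‖ ^ 2 + (1 / 4 + ε) ^ 2) with hg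
  have hsupp : ∀ v, g v ≠ 0 → 1 / 4 < ‖v‖ ∧ ‖v‖ < 1 / 4 + ε := by
    intro v hv
    have hn := norm_nonneg v
    constructor
    · by_contra h
      push Not at h
      apply hv
      have h0 : Real.smoothTransition (1 * ‖v‖ ^ 2 + (-(1 / 16))) = 0 := by
        refine Real.smoothTransition.zero_of_nonpos ?_
        nlinarith
      simp only [hg, h0, zero_mul]
    · by_contra h
      push Not at h
      apply hv
      have h0 : Real.smoothTransition ((-1) * ‖v‖ ^ 2 + (1 / 4 + ε) ^ 2) = 0 := by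
        refine Real.smoothTransition.zero_of_nonpos ?_
        nlinarith
      simp only [hg, h0, mul_zero]
  have hrad : ∀ u v : E3, ‖u‖ = ‖v‖ → g u = g v := by
    intro u v h
    simp only [hg, h]
  have hcpt : HasCompactSupport fun v => g v ^ 2 := by
    refine HasCompactSupport.intro (isCompact_closedBall (0 : E3) (1 / 2)) fun v hv => ?_
    have h0 : g v = 0 := by
      by_contra h
      apply hv
      rw [Metric.mem_closedBall, dist_zero_right]
      linarith [(hsupp v h).2]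
    simp only [h0]
    norm_num
  have hpos : 0 < ∫ v, g v ^ 2 := by
    refine Continuous.integral_pos_of_hasCompactSupport_nonneg_nonzero
      (x := ((1 / 4 + ε / 2) • (EuclideanSpace.single (2 : Fin 3) (1 : ℝ)) : E3))
      (hs.continuous.pow 2) hcpt (fun v => sq_nonneg _) ?_
    have hn : ‖((1 / 4 + ε / 2) • (EuclideanSpace.single (2 : Fin 3) (1 : ℝ)) : E3)‖ =
        1 / 4 + ε / 2 := by
      rw [norm_smul, Real.norm_of_nonneg (by positivity)]
      simp
    have h1 : 0 < g ((1 / 4 + ε / 2) • (EuclideanSpace.single (2 : Fin 3) (1 : ℝ)) : E3) := by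
      simp only [hg, hn]
      apply mul_pos
      · apply Real.smoothTransition.pos_of_pos
        nlinarith
      · apply Real.smoothTransition.pos_of_pos
        nlinarith
    positivity
  refine ⟨fun v => (Real.sqrt (∫ v, g v ^ 2))⁻¹ * g v, ⟨contDiff_const.mul hs, ?_, ?_, ?_⟩, ?_⟩
  · intro v hv
    have := (hsupp v fun h => hv (by rw [h, mul_zero])).2
    linarith
  · intro u v h
    rw [hrad u v h]
  · simp only [mul_pow]
    rw [integral_const_mul, inv_pow, Real.sq_sqrt hpos.le, inv_mul_cancel₀ hpos.ne']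
  · intro v hv
    refine hsupp v fun h => hv ?_
    show (Real.sqrt (∫ v, g v ^ 2))⁻¹ * g v = 0
    rw [h, mul_zero]

private noncomputable def sp_N (m : E3 → ℝ) (r : ℝ) (y : E3) : ℝ :=
  ∫ u, m u ^ 2 * (max (r * ‖u‖) ‖y‖)⁻¹

private theorem sp_new {m : E3 → ℝ} (h : Bump m) (r : ℝ) (hr : 0 < r) (y : E3) :
    Integrable (fun u => m u ^ 2 * (max (r * ‖u‖) ‖y‖)⁻¹) ∧
    ∫ u, m u ^ 2 * ‖r • u - y‖⁻¹ = sp_N m r y := by
  obtain ⟨h1, h2⟩ := newton_max h (r⁻¹ • y)
  have e1 : ∀ u : E3, m u ^ 2 * (max (r * ‖u‖) ‖y‖)⁻¹ =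
      r⁻¹ * (m u ^ 2 * (max ‖r⁻¹ • y‖ ‖u‖)⁻¹) := by
    intro u
    have : max (r * ‖u‖) ‖y‖ = r * max ‖r⁻¹ • y‖ ‖u‖ := by
      rw [norm_smul, Real.norm_of_nonneg (inv_nonneg.2 hr.le), mul_max_of_nonneg _ _ hr.le,
        mul_inv_cancel_left₀ hr.ne', max_comm]
    rw [this, mul_inv]
    ring
  have e2 : ∀ u : E3, m u ^ 2 * ‖r • u - y‖⁻¹ = r⁻¹ * (m u ^ 2 * ‖r⁻¹ • y - u‖⁻¹) := by
    intro u
    have : ‖r • u - y‖ = r * ‖r⁻¹ • y - u‖ := by
      have h3 : r • u - y = (-r) • (r⁻¹ • y - u) := by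
        rw [smul_sub, smul_smul, neg_mul, mul_inv_cancel₀ hr.ne']
        simp
        abel
      rw [h3, norm_smul, norm_neg, Real.norm_of_nonneg hr.le]
    rw [this, mul_inv]
    ring
  constructor
  · simp only [e1]
    exact h1.const_mul _
  · unfold sp_N
    simp only [e1, e2]
    rw [integral_const_mul, integral_const_mul, ← h2]
    rfl

private theorem sp_lip {m : E3 → ℝ} (h : Bump m) (r : ℝ) (hr : 0 < r)
    (h1 : ∀ u, m u ≠ 0 → 1 ≤ r * ‖u‖) (y y' : E3) :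
    |sp_N m r y - sp_N m r y'| ≤ ‖y - y'‖ := by
  have hi := (sp_new h r hr y).1
  have hi' := (sp_new h r hr y').1
  unfold sp_N
  rw [← integral_sub hi hi', ← Real.norm_eq_abs]
  have e1 : ‖y - y'‖ = ∫ u, m u ^ 2 * ‖y - y'‖ := by
    rw [integral_mul_const, h.norm, one_mul]
  rw [e1]
  refine norm_integral_le_of_norm_le (h.int.mul_const _) (Filter.Eventually.of_forall fun u => ?_)
  rw [← mul_sub, norm_mul, Real.norm_of_nonneg (sq_nonneg _), Real.norm_eq_abs]
  rcases eq_or_ne (m u) 0 with h0 | h0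
  · rw [h0]
    norm_num
  · refine mul_le_mul_of_nonneg_left ?_ (sq_nonneg _)
    have ha := h1 u h0
    set a : ℝ := max (r * ‖u‖) ‖y‖ with hadef
    set b : ℝ := max (r * ‖u‖) ‖y'‖ with hbdef
    have ha1 : 1 ≤ a := ha.trans (le_max_left _ _)
    have hb1 : 1 ≤ b := ha.trans (le_max_left _ _)
    have hab : |a - b| ≤ ‖y - y'‖ := by
      have h2 : |max ‖y‖ (r * ‖u‖) - max ‖y'‖ (r * ‖u‖)| ≤ |‖y‖ - ‖y'‖| :=
        abs_max_sub_max_le_abs _ _ _
      rw [hadef, hbdef, max_comm (r * ‖u‖), max_comm (r * ‖u‖)]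
      exact h2.trans (abs_norm_sub_norm_le y y')
    have e2 : a⁻¹ - b⁻¹ = (b - a) / (a * b) := by
      field_simp
    rw [e2, abs_div, abs_sub_comm, abs_of_pos (by positivity : 0 < a * b)]
    rw [div_le_iff₀ (by positivity)]
    have h3 : 1 ≤ a * b := by nlinarith
    have h4 : 0 ≤ ‖y - y'‖ := norm_nonneg _
    nlinarith

private theorem sp_Ncont {m : E3 → ℝ} (h : Bump m) (r : ℝ) (hr : 0 < r)
    (h1 : ∀ u, m u ≠ 0 → 1 ≤ r * ‖u‖) : Continuous (sp_N m r) := by
  have : LipschitzWith 1 (sp_N m r) := by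
    refine LipschitzWith.of_dist_le_mul fun y y' => ?_
    rw [NNReal.coe_one, one_mul, Real.dist_eq, dist_eq_norm]
    exact sp_lip h r hr h1 y y'
  exact this.continuous

private theorem sp_cpt {χ : E3 → ℝ} (hχ : Bump χ) : HasCompactSupport fun v => χ v ^ 2 := by
  refine HasCompactSupport.intro (isCompact_closedBall (0 : E3) (1 / 2)) fun v hv => ?_
  have h0 : χ v = 0 := by
    by_contra h0
    apply hv
    rw [Metric.mem_closedBall, dist_zero_right]
    exact (hχ.supp v h0).le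
  rw [h0]
  norm_num

private noncomputable def sp_F (m χ : E3 → ℝ) (s r : ℝ) (y : E3) : ℝ :=
  ∫ u, m u ^ 2 * U (chr χ s) (r • u - y)

private theorem sp_Fval {m χ : E3 → ℝ} (h : Bump m) (hχ : Bump χ) (s r : ℝ) (hs : 0 < s)
    (hs1 : s ≤ 1) (hr : 0 < r) (h1 : ∀ u, m u ≠ 0 → 1 ≤ r * ‖u‖) (y : E3) :
    |sp_F m χ s r y - sp_N m r y| ≤ s / 2 := by
  have hc : Bump (chr χ s) := chr_bump hχ s hs hs1
  have hUc : Continuous (U (chr χ s)) := U_cont hχ s hs
  -- integrability on the product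
  have hmeas : Measurable (fun x : E3 × E3 => m x.1 ^ 2 *
      (chr χ s x.2 ^ 2 * ‖r • x.1 - y - x.2‖⁻¹)) := by
    have a1 : Continuous m := h.smooth.continuous
    have a2 : Continuous (chr χ s) := hc.smooth.continuous
    have a3 : Measurable (fun x : E3 × E3 => ‖r • x.1 - y - x.2‖⁻¹) := by
      have : Continuous (fun x : E3 × E3 => ‖r • x.1 - y - x.2‖) := by fun_prop
      exact this.measurable.inv
    exact ((a1.comp continuous_fst).pow 2).measurable.mul
      (((a2.comp continuous_snd).pow 2).measurable.mul a3)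
  have hin : ∀ u : E3, Integrable (fun c => chr χ s c ^ 2 * ‖r • u - y - c‖⁻¹) := by
    intro u
    have h2 := chr_pot_int hχ s hs 0 (r • u - y)
    refine h2.congr (Filter.Eventually.of_forall fun w => ?_)
    simp only [sub_zero]
    rw [norm_sub_rev]
  have hint : Integrable (fun x : E3 × E3 => m x.1 ^ 2 *
      (chr χ s x.2 ^ 2 * ‖r • x.1 - y - x.2‖⁻¹)) (volume.prod volume) := by
    rw [integrable_prod_iff hmeas.aestronglyMeasurable]
    refine ⟨Filter.Eventually.of_forall fun u => ?_, ?_⟩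
    · show Integrable (fun c => m u ^ 2 * (chr χ s c ^ 2 * ‖r • u - y - c‖⁻¹))
      exact (hin u).const_mul _
    have e1 : (fun u : E3 => ∫ c, ‖m u ^ 2 * (chr χ s c ^ 2 * ‖r • u - y - c‖⁻¹)‖) =
        fun u => m u ^ 2 * U (chr χ s) (r • u - y) := by
      funext u
      unfold U
      rw [← integral_const_mul]
      refine integral_congr_ae (Filter.Eventually.of_forall fun c => ?_)
      show ‖m u ^ 2 * (chr χ s c ^ 2 * ‖r • u - y - c‖⁻¹)‖ =
        m u ^ 2 * (chr χ s c ^ 2 * ‖r • u - y - c‖⁻¹)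
      rw [Real.norm_of_nonneg (by positivity)]
    have e2 : Integrable (fun u : E3 => m u ^ 2 * U (chr χ s) (r • u - y)) := by
      refine Continuous.integrable_of_hasCompactSupport ?_ (sp_cpt h).mul_right
      exact (h.smooth.continuous.pow 2).mul (hUc.comp (by fun_prop))
    exact (congrArg (fun f => Integrable f) e1).mpr e2
  have e3 : sp_F m χ s r y = ∫ c, chr χ s c ^ 2 * sp_N m r (y + c) := by
    unfold sp_F
    have e4 : ∀ u : E3, m u ^ 2 * U (chr χ s) (r • u - y) =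
        ∫ c, m u ^ 2 * (chr χ s c ^ 2 * ‖r • u - y - c‖⁻¹) := by
      intro u
      unfold U
      rw [← integral_const_mul]
    simp only [e4]
    rw [integral_integral_swap hint]
    refine integral_congr_ae (Filter.Eventually.of_forall fun c => ?_)
    show ∫ u, m u ^ 2 * (chr χ s c ^ 2 * ‖r • u - y - c‖⁻¹) = chr χ s c ^ 2 * sp_N m r (y + c)
    rw [← (sp_new h r hr (y + c)).2, ← integral_const_mul]
    refine integral_congr_ae (Filter.Eventually.of_forall fun u => ?_)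
    show m u ^ 2 * (chr χ s c ^ 2 * ‖r • u - y - c‖⁻¹) =
      chr χ s c ^ 2 * (m u ^ 2 * ‖r • u - (y + c)‖⁻¹)
    rw [sub_sub]
    ring
  have hNc := sp_Ncont h r hr h1
  have hi1 : Integrable (fun c => chr χ s c ^ 2 * sp_N m r (y + c)) := by
    refine Continuous.integrable_of_hasCompactSupport ?_ (sp_cpt hc).mul_right
    exact (hc.smooth.continuous.pow 2).mul (hNc.comp (by fun_prop))
  have e5 : sp_N m r y = ∫ c, chr χ s c ^ 2 * sp_N m r y := by
    rw [integral_mul_const, hc.norm, one_mul]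
  have e6 : s / 2 = ∫ c, chr χ s c ^ 2 * (s / 2) := by
    rw [integral_mul_const, hc.norm, one_mul]
  rw [e3]
  conv_lhs => rw [e5]
  rw [← integral_sub hi1 (hc.int.mul_const _), ← Real.norm_eq_abs]
  conv_rhs => rw [e6]
  refine norm_integral_le_of_norm_le (hc.int.mul_const _) (Filter.Eventually.of_forall fun c => ?_)
  rw [← mul_sub, norm_mul, Real.norm_of_nonneg (sq_nonneg _), Real.norm_eq_abs]
  rcases eq_or_ne (chr χ s c) 0 with h0 | h0
  · rw [h0]
    norm_num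
  · refine mul_le_mul_of_nonneg_left ?_ (sq_nonneg _)
    refine (sp_lip h r hr h1 _ _).trans ?_
    rw [add_sub_cancel_left]
    exact (chr_supp hχ s hs c h0).le

private theorem sp_Mval {m χ : E3 → ℝ} (h : Bump m) (hχ : Bump χ) (s r : ℝ) (hs : 0 < s)
    (hs1 : s ≤ 1) (hr : 0 < r) (h1 : ∀ u, m u ≠ 0 → 1 ≤ r * ‖u‖) (y : E3) :
    |∫ u, m u ^ 2 * (UU χ s (r • u - y) - (max (r * ‖u‖) ‖y‖)⁻¹)| ≤ s := by
  have hc : Bump (chr χ s) := chr_bump hχ s hs hs1
  have hUc : Continuous (U (chr χ s)) := U_cont hχ s hs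
  have hmc : Continuous (fun u => m u ^ 2) := h.smooth.continuous.pow 2
  have hcc : Continuous (fun u => chr χ s u ^ 2) := hc.smooth.continuous.pow 2
  have hint : Integrable (fun x : E3 × E3 => m x.1 ^ 2 *
      (chr χ s x.2 ^ 2 * U (chr χ s) (r • x.1 - y - x.2))) (volume.prod volume) := by
    refine Continuous.integrable_of_hasCompactSupport ?_ ?_
    · exact (hmc.comp continuous_fst).mul ((hcc.comp continuous_snd).mul (hUc.comp (by fun_prop)))
    · refine HasCompactSupport.intro ((sp_cpt h).isCompact.prod (sp_cpt hc).isCompact)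
        fun x hx => ?_
      by_cases h2 : x.1 ∈ tsupport (fun v => m v ^ 2)
      · have h3 : x.2 ∉ tsupport (fun v => chr χ s v ^ 2) := fun h3 => hx ⟨h2, h3⟩
        have h4 : (fun v => chr χ s v ^ 2) x.2 = 0 :=
          image_eq_zero_of_notMem_tsupport (f := fun v => chr χ s v ^ 2) h3
        have h4 : chr χ s x.2 ^ 2 = 0 := h4
        rw [h4]
        ring
      · have h4 : m x.1 ^ 2 = 0 :=
          image_eq_zero_of_notMem_tsupport (f := fun v => m v ^ 2) h2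
        rw [h4]
        ring
  have hUUi : Integrable (fun u => m u ^ 2 * UU χ s (r • u - y)) := by
    refine Continuous.integrable_of_hasCompactSupport ?_ (sp_cpt h).mul_right
    exact hmc.mul ((UU_smooth hχ s hs).continuous.comp (by fun_prop))
  have e3 : ∫ u, m u ^ 2 * UU χ s (r • u - y) = ∫ c, chr χ s c ^ 2 * sp_F m χ s r (y + c) := by
    have e4 : ∀ u : E3, m u ^ 2 * UU χ s (r • u - y) =
        ∫ c, m u ^ 2 * (chr χ s c ^ 2 * U (chr χ s) (r • u - y - c)) := by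
      intro u
      unfold UU
      rw [← integral_const_mul]
    simp only [e4]
    rw [integral_integral_swap hint]
    refine integral_congr_ae (Filter.Eventually.of_forall fun c => ?_)
    show ∫ u, m u ^ 2 * (chr χ s c ^ 2 * U (chr χ s) (r • u - y - c)) =
      chr χ s c ^ 2 * sp_F m χ s r (y + c)
    unfold sp_F
    rw [← integral_const_mul]
    refine integral_congr_ae (Filter.Eventually.of_forall fun u => ?_)
    show m u ^ 2 * (chr χ s c ^ 2 * U (chr χ s) (r • u - y - c)) =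
      chr χ s c ^ 2 * (m u ^ 2 * U (chr χ s) (r • u - (y + c)))
    rw [sub_sub]
    ring
  have hi1 : Integrable (fun c => chr χ s c ^ 2 * sp_F m χ s r (y + c)) := by
    have h2 := hint.integral_prod_right
    refine h2.congr (Filter.Eventually.of_forall fun c => ?_)
    show ∫ u, m u ^ 2 * (chr χ s c ^ 2 * U (chr χ s) (r • u - y - c)) =
      chr χ s c ^ 2 * sp_F m χ s r (y + c)
    unfold sp_F
    rw [← integral_const_mul]
    refine integral_congr_ae (Filter.Eventually.of_forall fun u => ?_)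
    show m u ^ 2 * (chr χ s c ^ 2 * U (chr χ s) (r • u - y - c)) =
      chr χ s c ^ 2 * (m u ^ 2 * U (chr χ s) (r • u - (y + c)))
    rw [sub_sub]
    ring
  have e7 : ∫ u, m u ^ 2 * (UU χ s (r • u - y) - (max (r * ‖u‖) ‖y‖)⁻¹) =
      ∫ c, chr χ s c ^ 2 * (sp_F m χ s r (y + c) - sp_N m r y) := by
    simp only [mul_sub]
    rw [integral_sub hUUi (sp_new h r hr y).1, e3, integral_sub hi1 (hc.int.mul_const _),
      integral_mul_const, hc.norm, one_mul]
    rfl
  have e6 : s = ∫ c, chr χ s c ^ 2 * s := by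
    rw [integral_mul_const, hc.norm, one_mul]
  rw [e7, ← Real.norm_eq_abs]
  conv_rhs => rw [e6]
  refine norm_integral_le_of_norm_le (hc.int.mul_const _) (Filter.Eventually.of_forall fun c => ?_)
  rw [norm_mul, Real.norm_of_nonneg (sq_nonneg _), Real.norm_eq_abs]
  rcases eq_or_ne (chr χ s c) 0 with h0 | h0
  · rw [h0]
    norm_num
  · refine mul_le_mul_of_nonneg_left ?_ (sq_nonneg _)
    have h3 := sp_Fval h hχ s r hs hs1 hr h1 (y + c)
    have h4 := sp_lip h r hr h1 (y + c) y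
    rw [add_sub_cancel_left] at h4
    have h5 := (chr_supp hχ s hs c h0).le
    have h6 := abs_sub_le (sp_F m χ s r (y + c)) (sp_N m r (y + c)) (sp_N m r y)
    linarith

/-- the average over a sphere of the potential of the charges at `u`, minus the potential -/
private noncomputable def sp_G {n k : ℕ} (χ : E3 → ℝ) (s r : ℝ) (z : Fin k → ℝ) (u : E3)
    (p : Cfg n k) : ℝ :=
  ph χ s z p (r • u) - (∑ j, z j * (max (r * ‖u‖) ‖p.2 j‖)⁻¹ - ∑ a, (max (r * ‖u‖) ‖p.1 a‖)⁻¹)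

private theorem sp_Gbd {n k : ℕ} {m χ : E3 → ℝ} (h : Bump m) (hχ : Bump χ) (s r : ℝ) (hs : 0 < s)
    (hs1 : s ≤ 1) (hr : 0 < r) (h1 : ∀ u, m u ≠ 0 → 1 ≤ r * ‖u‖) (z : Fin k → ℝ)
    (hz : ∀ j, 0 ≤ z j) (hn : ∑ j, z j = n) (p : Cfg n k) :
    |∫ u, m u ^ 2 * sp_G χ s r z u p| ≤ 2 * (n * s) := by
  have hmc : Continuous (fun u => m u ^ 2) := h.smooth.continuous.pow 2
  have hi : ∀ y : E3, Integrable (fun u => m u ^ 2 *
      (UU χ s (r • u - y) - (max (r * ‖u‖) ‖y‖)⁻¹)) := by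
    intro y
    simp only [mul_sub]
    refine Integrable.sub ?_ (sp_new h r hr y).1
    refine Continuous.integrable_of_hasCompactSupport ?_ (sp_cpt h).mul_right
    exact hmc.mul ((UU_smooth hχ s hs).continuous.comp (by fun_prop))
  have e1 : ∫ u, m u ^ 2 * sp_G χ s r z u p =
      ∑ j, z j * (∫ u, m u ^ 2 * (UU χ s (r • u - p.2 j) - (max (r * ‖u‖) ‖p.2 j‖)⁻¹)) -
      ∑ a, (∫ u, m u ^ 2 * (UU χ s (r • u - p.1 a) - (max (r * ‖u‖) ‖p.1 a‖)⁻¹)) := by
    have e2 : ∀ u, m u ^ 2 * sp_G χ s r z u p =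
        ∑ j, z j * (m u ^ 2 * (UU χ s (r • u - p.2 j) - (max (r * ‖u‖) ‖p.2 j‖)⁻¹)) -
        ∑ a, m u ^ 2 * (UU χ s (r • u - p.1 a) - (max (r * ‖u‖) ‖p.1 a‖)⁻¹) := by
      intro u
      unfold sp_G ph
      have e3 : ∑ j, z j * (m u ^ 2 * (UU χ s (r • u - p.2 j) - (max (r * ‖u‖) ‖p.2 j‖)⁻¹)) =
          m u ^ 2 * (∑ j, z j * UU χ s (r • u - p.2 j) -
            ∑ j, z j * (max (r * ‖u‖) ‖p.2 j‖)⁻¹) := by
        rw [← sum_sub_distrib, mul_sum]
        refine sum_congr rfl fun j _ => ?_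
        ring
      have e4 : ∑ a, m u ^ 2 * (UU χ s (r • u - p.1 a) - (max (r * ‖u‖) ‖p.1 a‖)⁻¹) =
          m u ^ 2 * (∑ a, UU χ s (r • u - p.1 a) - ∑ a, (max (r * ‖u‖) ‖p.1 a‖)⁻¹) := by
        rw [← sum_sub_distrib, mul_sum]
      rw [e3, e4]
      ring
    simp only [e2]
    rw [integral_sub (integrable_finsetSum _ fun j _ => (hi _).const_mul _)
      (integrable_finsetSum _ fun a _ => hi _), integral_finsetSum _ fun j _ => (hi _).const_mul _,
      integral_finsetSum _ fun a _ => hi _]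
    simp only [integral_const_mul]
  rw [e1]
  have b1 : |∑ j, z j * (∫ u, m u ^ 2 *
      (UU χ s (r • u - p.2 j) - (max (r * ‖u‖) ‖p.2 j‖)⁻¹))| ≤ n * s := by
    refine (abs_sum_le_sum_abs _ _).trans ?_
    rw [← hn, sum_mul]
    refine sum_le_sum fun j _ => ?_
    rw [abs_mul, abs_of_nonneg (hz j)]
    exact mul_le_mul_of_nonneg_left (sp_Mval h hχ s r hs hs1 hr h1 _) (hz j)
  have b2 : |∑ a, (∫ u, m u ^ 2 *
      (UU χ s (r • u - p.1 a) - (max (r * ‖u‖) ‖p.1 a‖)⁻¹))| ≤ n * s := by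
    refine (abs_sum_le_sum_abs _ _).trans ?_
    refine (sum_le_card_nsmul univ _ s fun a _ => sp_Mval h hχ s r hs hs1 hr h1 _).trans_eq ?_
    rw [card_univ, Fintype.card_fin, nsmul_eq_mul]
  refine (abs_sub _ _).trans ?_
  linarith

private theorem sp_ph_bd {χ : E3 → ℝ} (hχ : Bump χ) : ∃ C : ℝ, 0 ≤ C ∧
    ∀ (n k : ℕ) (z : Fin k → ℝ) (_ : ∀ j, 0 ≤ z j) (_ : ∑ j, z j = n) (s : ℝ) (_ : 0 < s)
    (p : Cfg n k) (x : E3), |ph χ s z p x| ≤ 2 * n * (C * s⁻¹) := by
  obtain ⟨C, hC, hb⟩ := UU_bd hχ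
  refine ⟨C, hC, ?_⟩
  intro n k z hz hzn s hs p x
  have hp : ∀ y, 0 ≤ UU χ s y ∧ UU χ s y ≤ C * s⁻¹ := fun y =>
    ⟨UU_nonneg hχ s hs y, hb s hs y⟩
  have e1 : 0 ≤ ∑ j, z j * UU χ s (x - p.2 j) :=
    sum_nonneg fun j _ => mul_nonneg (hz j) (hp _).1
  have e2 : ∑ j, z j * UU χ s (x - p.2 j) ≤ n * (C * s⁻¹) := by
    rw [← hzn, sum_mul]
    exact sum_le_sum fun j _ => mul_le_mul_of_nonneg_left (hp _).2 (hz j)
  have e3 : 0 ≤ ∑ a, UU χ s (x - p.1 a) := sum_nonneg fun a _ => (hp _).1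
  have e4 : ∑ a, UU χ s (x - p.1 a) ≤ n * (C * s⁻¹) := by
    refine (sum_le_card_nsmul univ _ (C * s⁻¹) fun a _ => (hp _).2).trans_eq ?_
    rw [card_univ, Fintype.card_fin, nsmul_eq_mul]
  unfold ph
  rw [abs_le]
  constructor <;> linarith

private theorem sp_ph_joint {χ : E3 → ℝ} (hχ : Bump χ) {n k : ℕ} (s : ℝ) (hs : 0 < s)
    (z : Fin k → ℝ) : Continuous (fun u : Cfg n k × E3 => ph χ s z u.1 u.2) := by
  have hU := (UU_smooth hχ s hs).continuous
  unfold ph
  refine Continuous.sub (continuous_finsetSum _ fun j _ => continuous_const.mul (hU.comp ?_))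
    (continuous_finsetSum _ fun a _ => hU.comp ?_)
  · exact continuous_snd.sub ((continuous_apply j).comp (continuous_snd.comp continuous_fst))
  · exact continuous_snd.sub ((continuous_apply a).comp (continuous_fst.comp continuous_fst))

private theorem sp_hcont {χ : E3 → ℝ} (hχ : Bump χ) {q n k : ℕ} {Λ : Set E3}
    {ψ : (Fin n → Fin q) → Cfg n k → ℂ} (hψ : Sm q n k Λ ψ) (z : Fin k → ℝ)
    (hz : ∀ j, 0 ≤ z j) (hn : ∑ j, z j = n) (s : ℝ) (hs : 0 < s) :
    Continuous (fun v => mean ψ (fun p => ph χ s z p v)) := by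
  obtain ⟨C, hC, hb⟩ := sp_ph_bd hχ
  unfold mean
  refine continuous_finsetSum _ fun σ _ => ?_
  have hj := sp_ph_joint (n := n) hχ s hs z
  refine continuous_of_dominated (bound := fun p => 2 * n * (C * s⁻¹) * ‖ψ σ p‖ ^ 2) ?_ ?_ ?_ ?_
  · intro v
    exact ((hj.comp (Continuous.prodMk continuous_id continuous_const)).mul
      (Sm_sq hψ σ).1).aestronglyMeasurable
  · intro v
    refine Filter.Eventually.of_forall fun p => ?_
    rw [norm_mul, Real.norm_eq_abs, Real.norm_of_nonneg (sq_nonneg _)]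
    exact mul_le_mul_of_nonneg_right (hb n k z hz hn s hs p v) (sq_nonneg _)
  · exact ((Sm_sq hψ σ).1.integrable_of_hasCompactSupport (Sm_sq hψ σ).2).const_mul _
  · refine Filter.Eventually.of_forall fun p => ?_
    exact (hj.comp (Continuous.prodMk continuous_const continuous_id)).mul continuous_const

private theorem sp_avbd {n k : ℕ} (z : Fin k → ℝ) (hz : ∀ j, 0 ≤ z j) (hn : ∑ j, z j = n)
    (t : ℝ) (ht : 1 ≤ t) (p : Cfg n k) :
    |∑ j, z j * (max t ‖p.2 j‖)⁻¹ - ∑ a, (max t ‖p.1 a‖)⁻¹| ≤ 2 * n := by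
  have h1 : ∀ y : E3, 0 ≤ (max t ‖y‖)⁻¹ ∧ (max t ‖y‖)⁻¹ ≤ 1 := by
    intro y
    have h2 : 1 ≤ max t ‖y‖ := ht.trans (le_max_left _ _)
    exact ⟨by positivity, inv_le_one_of_one_le₀ h2⟩
  have e1 : 0 ≤ ∑ j, z j * (max t ‖p.2 j‖)⁻¹ := sum_nonneg fun j _ => mul_nonneg (hz j) (h1 _).1
  have e2 : ∑ j, z j * (max t ‖p.2 j‖)⁻¹ ≤ n := by
    rw [← hn]
    exact sum_le_sum fun j _ => mul_le_of_le_one_right (hz j) (h1 _).2
  have e3 : 0 ≤ ∑ a, (max t ‖p.1 a‖)⁻¹ := sum_nonneg fun a _ => (h1 _).1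
  have e4 : ∑ a, (max t ‖p.1 a‖)⁻¹ ≤ n := by
    refine (sum_le_card_nsmul univ _ 1 fun a _ => (h1 _).2).trans_eq ?_
    rw [card_univ, Fintype.card_fin, nsmul_eq_mul, mul_one]
  rw [abs_le]
  constructor <;> linarith

private theorem sp_IP {m χ : E3 → ℝ} (h : Bump m) (hχ : Bump χ) {q n k : ℕ} {Λ : Set E3}
    {ψ : (Fin n → Fin q) → Cfg n k → ℂ} (hψ : Sm q n k Λ ψ) (z : Fin k → ℝ)
    (hz : ∀ j, 0 ≤ z j) (hn : ∑ j, z j = n) (s r : ℝ) (hs : 0 < s)
    (h1 : ∀ u, m u ≠ 0 → 1 ≤ r * ‖u‖) :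
    IP ψ (fun u => m u ^ 2) (fun u p => sp_G χ s r z u p) := by
  obtain ⟨C, hC, hb⟩ := sp_ph_bd hχ
  intro σ
  have hj := sp_ph_joint (n := n) hχ s hs z
  have hm1 : Measurable (fun x : Cfg n k × E3 => sp_G χ s r z x.2 x.1) := by
    unfold sp_G
    have a1 : Measurable (fun x : Cfg n k × E3 => ph χ s z x.1 (r • x.2)) :=
      (hj.comp (Continuous.prodMk continuous_fst (continuous_snd.const_smul r))).measurable
    have a2 : ∀ j, Measurable (fun x : Cfg n k × E3 => (max (r * ‖x.2‖) ‖x.1.2 j‖)⁻¹) := by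
      intro j
      have : Continuous (fun x : Cfg n k × E3 => max (r * ‖x.2‖) ‖x.1.2 j‖) := by fun_prop
      exact this.measurable.inv
    have a3 : ∀ a, Measurable (fun x : Cfg n k × E3 => (max (r * ‖x.2‖) ‖x.1.1 a‖)⁻¹) := by
      intro j
      have : Continuous (fun x : Cfg n k × E3 => max (r * ‖x.2‖) ‖x.1.1 j‖) := by fun_prop
      exact this.measurable.inv
    exact a1.sub ((Finset.measurable_fun_sum _ fun j _ => (a2 j).const_mul _).sub
      (Finset.measurable_fun_sum _ fun a _ => a3 a))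
  have hI : Integrable (fun x : Cfg n k × E3 => ‖ψ σ x.1‖ ^ 2 * m x.2 ^ 2) :=
    ((Sm_sq hψ σ).1.integrable_of_hasCompactSupport (Sm_sq hψ σ).2).mul_prod h.int
  refine (hI.const_mul (2 * n * (C * s⁻¹) + 2 * n)).mono' ?_
    (Filter.Eventually.of_forall fun x => ?_)
  · exact ((((h.smooth.continuous.comp continuous_snd).pow 2).measurable.mul hm1).mul
      ((Sm_sq hψ σ).1.measurable.comp measurable_fst)).aestronglyMeasurable
  · show ‖m x.2 ^ 2 * sp_G χ s r z x.2 x.1 * ‖ψ σ x.1‖ ^ 2‖ ≤ _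
    rw [norm_mul, norm_mul, Real.norm_of_nonneg (sq_nonneg _), Real.norm_of_nonneg (sq_nonneg _),
      Real.norm_eq_abs]
    rcases eq_or_ne (m x.2) 0 with h0 | h0
    · rw [h0]
      norm_num
    · have h2 : |sp_G χ s r z x.2 x.1| ≤ 2 * n * (C * s⁻¹) + 2 * n := by
        unfold sp_G
        exact (abs_sub _ _).trans (add_le_add (hb n k z hz hn s hs _ _)
          (sp_avbd z hz hn _ (h1 _ h0) _))
      calc m x.2 ^ 2 * |sp_G χ s r z x.2 x.1| * ‖ψ σ x.1‖ ^ 2 =
          |sp_G χ s r z x.2 x.1| * (‖ψ σ x.1‖ ^ 2 * m x.2 ^ 2) := by ring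
        _ ≤ _ := mul_le_mul_of_nonneg_right h2 (by positivity)

theorem sphP {χ : E3 → ℝ} (hχ : Bump χ) {ι : Type} [Fintype ι] {q n k : ℕ} {Λ : Set E3}
    {Ψ : ι → (Fin n → Fin q) → Cfg n k → ℂ} (hΨ : ∀ i, Sm q n k Λ (Ψ i))
    (h1 : ∑ i, mass (Ψ i) = 1) (z : Fin k → ℝ) (hz : ∀ j, 0 ≤ z j) (hn : ∑ j, z j = n)
    (s : ℝ) (hs : 0 < s) (hs1 : s ≤ 1) (K1 K2 : ℝ)
    (hrot : ∀ u v : E3, ‖u‖ = ‖v‖ →
      |mM Ψ (fun p => ph χ s z p u) - mM Ψ (fun p => ph χ s z p v)| ≤ K1)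
    (hav : ∀ t : ℝ, 1 ≤ t → |H6.CL.Ph z Ψ t| ≤ K2) (x : E3) (hx : 1 ≤ ‖x‖) :
    |mM Ψ (fun p => ph χ s z p x)| ≤ K1 + K2 + 8 * (n * s) := by
  classical
  set h : E3 → ℝ := fun v => mM Ψ (fun p => ph χ s z p v) with hh
  have hcont : Continuous h := by
    rw [hh]
    unfold mM
    exact continuous_finsetSum _ fun i _ => sp_hcont hχ (hΨ i) z hz hn s hs
  have hx0 : 0 < ‖x‖ := lt_of_lt_of_le one_pos hx
  refine le_of_forall_pos_le_add fun η hη => ?_
  obtain ⟨ε0, hε0, hc0⟩ : ∃ ε0 : ℝ, 0 < ε0 ∧ ∀ c : ℝ, |c - 1| < ε0 → |h (c • x) - h x| < η := by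
    have hc1 : Continuous (fun c : ℝ => h (c • x)) := hcont.comp (by fun_prop)
    obtain ⟨ε0, h1, h2⟩ := Metric.continuous_iff.1 hc1 1 η hη
    refine ⟨ε0, h1, fun c hc => ?_⟩
    have h3 := h2 c (by rwa [Real.dist_eq])
    rwa [Real.dist_eq, one_smul] at h3
  obtain ⟨m, hm, hms⟩ := sp_bump (min (1 / 4) (ε0 / 4)) (by positivity) (min_le_left _ _)
  set r : ℝ := 4 * ‖x‖ with hr
  have hr0 : 0 < r := by positivity
  have h1' : ∀ u, m u ≠ 0 → 1 ≤ r * ‖u‖ := by
    intro u hu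
    have h2 := (hms u hu).1
    rw [hr]
    nlinarith
  have hIM : ∀ i, ∀ u, m u ≠ 0 → mean (Ψ i) (fun p => sp_G χ s r z u p) =
      mean (Ψ i) (fun p => ph χ s z p (r • u)) - mean (Ψ i) (fun p =>
        ∑ j, z j * (max (r * ‖u‖) ‖p.2 j‖)⁻¹ - ∑ a, (max (r * ‖u‖) ‖p.1 a‖)⁻¹) := by
    intro i u hu
    have ht := h1' u hu
    unfold sp_G
    refine mean_sub ?_ ?_
    · exact IM.cont (hΨ i) (ph_smooth hχ s hs z _).continuous
    · refine IM.cont (hΨ i) ?_
      have a2 : ∀ j, Continuous (fun p : Cfg n k => (max (r * ‖u‖) ‖p.2 j‖)⁻¹) := by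
        intro j
        refine Continuous.inv₀ (by fun_prop) fun p => ?_
        have := le_max_left (r * ‖u‖) ‖p.2 j‖
        linarith
      have a3 : ∀ a, Continuous (fun p : Cfg n k => (max (r * ‖u‖) ‖p.1 a‖)⁻¹) := by
        intro j
        refine Continuous.inv₀ (by fun_prop) fun p => ?_
        have := le_max_left (r * ‖u‖) ‖p.1 j‖
        linarith
      exact (continuous_finsetSum _ fun j _ => continuous_const.mul (a2 j)).sub
        (continuous_finsetSum _ fun a _ => a3 a)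
  have hG : ∀ u, m u ≠ 0 → |h x - ∑ i, mean (Ψ i) (fun p => sp_G χ s r z u p)| ≤
      η + K1 + K2 := by
    intro u hu
    have e1 : ∑ i, mean (Ψ i) (fun p => sp_G χ s r z u p) = h (r • u) -
        H6.CL.Ph z Ψ (r * ‖u‖) := by
      rw [sum_congr rfl fun i _ => hIM i u hu, sum_sub_distrib]
      rfl
    have h2 := hms u hu
    have h3 : |4 * ‖u‖ - 1| < ε0 := by
      rw [abs_of_nonneg (by linarith)]
      have := min_le_right (1 / 4) (ε0 / 4)
      linarith
    have h4 := hc0 _ h3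
    have h5 := hrot (r • u) ((4 * ‖u‖) • x) (by
      rw [norm_smul, norm_smul, Real.norm_of_nonneg hr0.le, Real.norm_of_nonneg (by positivity),
        hr]
      ring)
    have h6 := hav (r * ‖u‖) (h1' u hu)
    rw [e1]
    have e2 : h x - (h (r • u) - H6.CL.Ph z Ψ (r * ‖u‖)) = -(h ((4 * ‖u‖) • x) - h x) -
        (h (r • u) - h ((4 * ‖u‖) • x)) + H6.CL.Ph z Ψ (r * ‖u‖) := by ring
    rw [e2, abs_le]
    have h5' : |h (r • u) - h ((4 * ‖u‖) • x)| ≤ K1 := h5
    rw [abs_le] at h5' h6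
    rw [abs_lt] at h4
    constructor <;> linarith [h4.1, h4.2, h5'.1, h5'.2, h6.1, h6.2]
  have hF := fun i => mean_fub (sp_IP hm hχ (hΨ i) z hz hn s r hs h1')
  have hI1 : Integrable (fun u => m u ^ 2 * ∑ i, mean (Ψ i) (fun p => sp_G χ s r z u p)) := by
    simp only [mul_sum]
    exact integrable_finsetSum _ fun i _ => (hF i).1
  have e1 : |∫ u, m u ^ 2 * ∑ i, mean (Ψ i) (fun p => sp_G χ s r z u p)| ≤ 2 * (n * s) := by
    simp only [mul_sum]
    rw [integral_finsetSum _ fun i _ => (hF i).1, sum_congr rfl fun i _ => (hF i).2.2]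
    refine (abs_sum_le_sum_abs _ _).trans ?_
    have e2 : 2 * (n * s) = ∑ i, 2 * (n * s) * mass (Ψ i) := by
      rw [← mul_sum, h1, mul_one]
    rw [e2]
    refine sum_le_sum fun i _ => ?_
    have b := fun p => sp_Gbd hm hχ s r hs hs1 hr0 h1' z hz hn p
    have hm1 := (hF i).2.1
    have c1 : mean (Ψ i) (fun p => ∫ u, m u ^ 2 * sp_G χ s r z u p) ≤
        2 * (n * s) * mass (Ψ i) := by
      rw [← mean_const]
      exact mean_mono hm1 (IM.cont (hΨ i) continuous_const) fun σ p _ => (abs_le.1 (b p)).2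
    have c2 : -(2 * (n * s) * mass (Ψ i)) ≤
        mean (Ψ i) (fun p => ∫ u, m u ^ 2 * sp_G χ s r z u p) := by
      rw [← neg_mul, ← mean_const]
      exact mean_mono (IM.cont (hΨ i) continuous_const) hm1 fun σ p _ => (abs_le.1 (b p)).1
    exact abs_le.2 ⟨c2, c1⟩
  have e3 : |∫ u, m u ^ 2 * (h x - ∑ i, mean (Ψ i) (fun p => sp_G χ s r z u p))| ≤
      η + K1 + K2 := by
    have e6 : η + K1 + K2 = ∫ c, m c ^ 2 * (η + K1 + K2) := by
      rw [integral_mul_const, hm.norm, one_mul]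
    rw [← Real.norm_eq_abs]
    conv_rhs => rw [e6]
    refine norm_integral_le_of_norm_le (hm.int.mul_const _)
      (Filter.Eventually.of_forall fun c => ?_)
    rw [norm_mul, Real.norm_of_nonneg (sq_nonneg _), Real.norm_eq_abs]
    rcases eq_or_ne (m c) 0 with h0 | h0
    · rw [h0]
      norm_num
    · exact mul_le_mul_of_nonneg_left (hG c h0) (sq_nonneg _)
  have e4 : ∫ u, m u ^ 2 * (h x - ∑ i, mean (Ψ i) (fun p => sp_G χ s r z u p)) =
      h x - ∫ u, m u ^ 2 * ∑ i, mean (Ψ i) (fun p => sp_G χ s r z u p) := by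
    simp only [mul_sub]
    rw [integral_sub (hm.int.mul_const _) hI1, integral_mul_const, hm.norm, one_mul]
  rw [e4] at e3
  have hns : 0 ≤ (n : ℝ) * s := by positivity
  show |h x| ≤ K1 + K2 + 8 * (n * s) + η
  rw [abs_le] at e1 e3 ⊢
  constructor <;> linarith [e1.1, e1.2, e3.1, e3.2]

end H6.CT
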