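import Pool.Agent.H6.CT.FinT
import Pool.Agent.H6.CT.SphP
import Pool.Agent.H6.CT.SmallR

/-! The theorem for Gibbs states in balls. Let `N = n + k + 1`, `δ = N ^ -4`, `s = N⁻¹`, and `C1` the constant of `ballT`. If `R < C1`: `n + k ≤ ρ2 * C1 ^ 3`, and `n + k = 0` (all sums are empty) or `R ≥ (1 / ρ2) ^ (1/3)` (if `ρ2 ≤ 0` there are no particles): `smallT`. If `C1 ≤ R`: for `‖x‖ < 1` part (3) of `ballT` (enlarge `C1` so that `1 + C1 * R ^ (9/10) ≤ R`). For `1 ≤ ‖x‖`: `ktotT` (the hypotheses `Gt` are obtained as in `FinT.lean`; `kN ≤ κm⁻¹ * (κ j * kN)`) bounds the total kinetic energy by `C * N`, so by `near0` it suffices to bound `mM Ψ (ph χ s z · x)`; `rotP`: `K1 = C * (n * N) * sqrt (N ^ -4 / T) ≤ C / sqrt T`; part (4) of `ballT` is the hypothesis `hav` of `sphP` (`H6.CL.Ph` unfolds to this expression); `n * s ≤ 1`. -/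

open MeasureTheory Finset

namespace H6.CT

open H6.CM H6.CB H6.CL

private theorem gb_vol (R : ℝ) (hR : 0 ≤ R) :
    (volume (Metric.ball (0 : E3) R)).toReal ≤ 5 * R ^ 3 := by
  rw [EuclideanSpace.volume_ball_fin_three, ENNReal.toReal_mul, ENNReal.toReal_pow,
    ENNReal.toReal_ofReal hR, ENNReal.toReal_ofReal (by positivity)]
  have h1 := Real.pi_lt_d2
  have h2 : 0 ≤ R ^ 3 := by positivity
  nlinarith

private theorem gb_pow (C R : ℝ) (h1 : 1 ≤ R) (h2 : (|C| + 1) ^ 10 ≤ R) :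
    1 + C * R ^ (9 / 10 : ℝ) ≤ R := by
  have h3 : |C| + 1 ≤ R ^ (1 / 10 : ℝ) := by
    have h4 : ((|C| + 1) ^ 10) ^ (1 / 10 : ℝ) ≤ R ^ (1 / 10 : ℝ) :=
      Real.rpow_le_rpow (by positivity) h2 (by norm_num)
    have h5 : ((|C| + 1) ^ 10) ^ (1 / 10 : ℝ) = |C| + 1 := by
      rw [← Real.rpow_natCast (|C| + 1) 10, ← Real.rpow_mul (by positivity)]
      norm_num
    rwa [h5] at h4
  have h6 : R ^ (1 / 10 : ℝ) * R ^ (9 / 10 : ℝ) = R := by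
    rw [← Real.rpow_add (by linarith)]
    norm_num
  have h7 : 1 ≤ R ^ (9 / 10 : ℝ) := Real.one_le_rpow h1 (by norm_num)
  have h8 : C ≤ |C| := le_abs_self C
  nlinarith

private theorem gb_small (q : ℕ) (T zm zp κm κp ρ2 C1 : ℝ) (hT : 0 < T) (hzm : 0 < zm)
    (hκm : 0 < κm) :
    ∃ C : ℝ, 0 ≤ C ∧ ∀ (R : ℝ) (n k : ℕ) (z κ : Fin k → ℝ), 0 < R → R < C1 →
      (n : ℝ) + k ≤ ρ2 * R ^ 3 →
      (∀ j, zm ≤ z j ∧ z j ≤ zp) → (∀ j, κm ≤ κ j ∧ κ j ≤ κp) →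
      ∀ (m : ℕ) (Ψ : Fin m → (Fin n → Fin q) → Cfg n k → ℂ),
      Eqs T (((n : ℝ) + k + 1) ^ 4)⁻¹ (Metric.ball 0 R) z κ Ψ →
      ∀ x : E3, |mM Ψ (fun p => phi z p x)| ≤ C := by
  obtain ⟨M, hM⟩ : ∃ M : ℝ, M = max 1 ρ2 := ⟨_, rfl⟩
  have hM1 : 1 ≤ M := by rw [hM]; exact le_max_left _ _
  have hM2 : ρ2 ≤ M := by rw [hM]; exact le_max_right _ _
  have hM0 : 0 < M := by linarith
  obtain ⟨Cs, hCs, hS⟩ := smallT q ⌈M * |C1| ^ 3⌉₊ T zm zp κm κp M⁻¹ |C1| hT.le hzm hκm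
    (by positivity)
  refine ⟨Cs, hCs, ?_⟩
  intro R n k z κ hR hRC hnk hz hκ m Ψ hΨ x
  rcases Nat.eq_zero_or_pos (n + k) with h0 | h0
  · have hn : n = 0 := by omega
    have hk : k = 0 := by omega
    subst hn
    subst hk
    have : mM Ψ (fun p => phi z p x) = 0 := by
      unfold mM mean phi
      simp
    rw [this, abs_zero]
    exact hCs
  · have h1 : (1 : ℝ) ≤ (n : ℝ) + k := by exact_mod_cast h0
    have hR3 : 0 < R ^ 3 := by positivity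
    have h2 : (n : ℝ) + k ≤ M * R ^ 3 := hnk.trans (mul_le_mul_of_nonneg_right hM2 hR3.le)
    have hRM : M⁻¹ ≤ R := by
      by_contra hlt
      push Not at hlt
      have h3 : M * R < 1 := by
        have := mul_lt_mul_of_pos_left hlt hM0
        rwa [mul_inv_cancel₀ hM0.ne'] at this
      have h4 : R < 1 := by nlinarith
      have h5 : R ^ 2 < 1 := by nlinarith
      have h6 : M * R ^ 3 < 1 := by
        calc M * R ^ 3 = (M * R) * R ^ 2 := by ring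
          _ < 1 := by nlinarith [sq_nonneg R, mul_pos hM0 hR]
      linarith
    have hC1 : 0 < C1 := hR.trans hRC
    have hab : |C1| = C1 := abs_of_pos hC1
    have h3 : (n : ℝ) + k ≤ M * |C1| ^ 3 := by
      refine h2.trans (mul_le_mul_of_nonneg_left ?_ hM0.le)
      rw [hab]
      exact pow_le_pow_left₀ hR.le hRC.le 3
    have h4 : n + k ≤ ⌈M * |C1| ^ 3⌉₊ := by
      have h5 : ((n + k : ℕ) : ℝ) ≤ (⌈M * |C1| ^ 3⌉₊ : ℝ) := by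
        push_cast
        exact h3.trans (Nat.le_ceil _)
      exact_mod_cast h5
    have hδ : (((n : ℝ) + k + 1) ^ 4)⁻¹ ≤ 1 :=
      inv_le_one_of_one_le₀ (one_le_pow₀ (by linarith))
    exact hS (Fin m) inferInstance n k h4 (Metric.ball 0 R) (Metric.ball_subset_ball hRM)
      (Metric.ball_subset_ball (by rw [hab]; exact hRC.le)) z κ hz hκ _ hδ Ψ hΨ x

theorem gibbsBall (q : ℕ) (T zm zp κm κp ρ1 ρ2 : ℝ) (hT : 0 < T) (hzm : 0 < zm)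
    (hκm : 0 < κm) (hρ1 : 0 < ρ1) :
    ∃ C : ℝ, ∀ (R : ℝ) (n k : ℕ) (z κ : Fin k → ℝ), 0 < R → ρ1 * R ^ 3 ≤ (n : ℝ) + k →
      (n : ℝ) + k ≤ ρ2 * R ^ 3 →
      (∀ j, zm ≤ z j ∧ z j ≤ zp) → (∀ j, κm ≤ κ j ∧ κ j ≤ κp) → ∑ j, z j = n →
      ∀ (m : ℕ) (Ψ : Fin m → (Fin n → Fin q) → Cfg n k → ℂ),
      Eqs T (((n : ℝ) + k + 1) ^ 4)⁻¹ (Metric.ball 0 R) z κ Ψ →
      ∀ x : E3, |mM Ψ (fun p => phi z p x)| ≤ C := by
  obtain ⟨χ, hχ⟩ := bump_ex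
  obtain ⟨C0, h0⟩ := ballT q T zm zp κm κp ρ1 ρ2 hT.le hzm hκm hρ1
  obtain ⟨c, hc, hgrid⟩ := ball_grid
  obtain ⟨Cr, hCr, hrf⟩ := rf_sep
  obtain ⟨ρ, hρ⟩ : ∃ ρ : ℝ, ρ = |ρ2| / c := ⟨_, rfl⟩
  have hρ0 : 0 ≤ ρ := by rw [hρ]; positivity
  obtain ⟨Kv, hKv⟩ : ∃ Kv : ℝ, Kv = 5 / ρ1 * (1 + 1 / zm) := ⟨_, rfl⟩
  have hKv0 : 0 ≤ Kv := by rw [hKv]; positivity
  obtain ⟨Ck, hCk, hk⟩ := ktotT q T zm zp κm κp (Cr * ρ) Kv hT.le hzm hκm
    (mul_nonneg hCr.le hρ0) hKv0 hχ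
  obtain ⟨Co, hCo, hrot⟩ := rotP hχ
  obtain ⟨C1, hC1⟩ : ∃ C1 : ℝ, C1 = max C0 (max 100 ((|C0| + 1) ^ 10)) := ⟨_, rfl⟩
  obtain ⟨Cs, hCs, hsm⟩ := gb_small q T zm zp κm κp ρ2 C1 hT hzm hκm
  obtain ⟨Cb, hCb⟩ : ∃ Cb : ℝ, Cb = 4 * (1 + |zp|) * ((1 + κm⁻¹) * Ck) +
    (Co / Real.sqrt T + |C0| + 8) := ⟨_, rfl⟩
  have hCb0 : 0 ≤ Cb := by rw [hCb]; positivity
  refine ⟨Cs + |C0| + Cb, ?_⟩
  intro R n k z κ hR hlow hup hz hκ hneu m Ψ hΨ x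
  rcases lt_or_ge R C1 with hRC | hRC
  · have h1 := hsm R n k z κ hR hRC hup hz hκ m Ψ hΨ x
    linarith [abs_nonneg C0]
  rw [hC1] at hRC
  have hRC0 : C0 ≤ R := (le_max_left _ _).trans hRC
  have hR100 : 100 ≤ R := ((le_max_left _ _).trans (le_max_right _ _)).trans hRC
  have hR10 : (|C0| + 1) ^ 10 ≤ R := ((le_max_right _ _).trans (le_max_right _ _)).trans hRC
  obtain ⟨-, -, p3, p4⟩ := h0 R n k z κ hRC0 hlow hup hz hκ hneu m Ψ hΨ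
  rcases lt_or_ge ‖x‖ 1 with hx | hx
  · have h1 := (p3 x (by
      have := gb_pow C0 R (by linarith) hR10
      linarith)).1
    linarith [le_abs_self C0]
  have hz0 : ∀ j, 0 ≤ z j := fun j => hzm.le.trans (hz j).1
  have hκ0 : ∀ j, 0 ≤ κ j := fun j => hκm.le.trans (hκ j).1
  have hn0 : (0 : ℝ) ≤ n := Nat.cast_nonneg n
  have hk0 : (0 : ℝ) ≤ k := Nat.cast_nonneg k
  have hkn : zm * k ≤ n := by
    rw [← hneu]
    calc zm * k = ∑ _j : Fin k, zm := by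
          rw [sum_const, card_univ, Fintype.card_fin, nsmul_eq_mul, mul_comm]
      _ ≤ _ := sum_le_sum fun j _ => (hz j).1
  obtain ⟨N, hN⟩ : ∃ N : ℝ, N = (n : ℝ) + k + 1 := ⟨_, rfl⟩
  rw [← hN] at hΨ
  have hN1 : 1 ≤ N := by linarith
  have hN0 : 0 < N := by linarith
  obtain ⟨W, hWne, hWsub, hWsep, hWcard⟩ := hgrid R hR100
  have hcard : (n : ℝ) + k ≤ ρ * W.card := by
    have e1 : ρ2 * R ^ 3 ≤ |ρ2| * R ^ 3 :=
      mul_le_mul_of_nonneg_right (le_abs_self _) (by positivity)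
    have e2 : |ρ2| * R ^ 3 = ρ * (c * R ^ 3) := by
      rw [hρ]
      field_simp
    have e3 : ρ * (c * R ^ 3) ≤ ρ * W.card := mul_le_mul_of_nonneg_left hWcard hρ0
    linarith
  have hvol : (volume (Metric.ball (0 : E3) R)).toReal ≤ Kv * n := by
    have e1 := gb_vol R (by linarith)
    have e2 : R ^ 3 ≤ (n + k) / ρ1 := by
      rw [le_div_iff₀ hρ1]
      linarith
    have e3 : (k : ℝ) ≤ 1 / zm * n := by
      rw [one_div, ← div_eq_inv_mul, le_div_iff₀ hzm]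
      linarith
    calc (volume (Metric.ball (0 : E3) R)).toReal ≤ 5 * R ^ 3 := e1
      _ ≤ 5 * ((n + k) / ρ1) := by linarith
      _ = 5 / ρ1 * (n + k) := by ring
      _ ≤ 5 / ρ1 * (n + 1 / zm * n) := by gcongr
      _ = Kv * n := by rw [hKv]; ring
  have hδ0 : 0 ≤ (N ^ 4)⁻¹ := by positivity
  have hδ1 : (N ^ 4)⁻¹ ≤ 1 := inv_le_one_of_one_le₀ (one_le_pow₀ hN1)
  have hG : Gt q T zm zp κm κp (Cr * ρ) Kv n k (Metric.ball 0 R) z κ W (N ^ 4)⁻¹ Ψ :=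
    ⟨hz, hκ, hneu, measurableSet_ball, Metric.isBounded_ball, hvol, hδ0, hΨ,
      fun i => hrf q n k _ (Ψ i) ρ hρ0 W hWne hWsub hWsep hcard⟩
  have hkin := hk (Fin m) inferInstance n k _ z κ W _ Ψ hG hδ1
  have hkin2 : ∑ i, (∑ a, kE (Ψ i) a + ∑ j, kN (Ψ i) j) ≤ (1 + κm⁻¹) * Ck * (n + k) := by
    have e1 : ∀ i, ∑ a, kE (Ψ i) a + ∑ j, kN (Ψ i) j ≤
        (1 + κm⁻¹) * (∑ a, kE (Ψ i) a + ∑ j, κ j * kN (Ψ i) j) := by
      intro i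
      have a5 : 0 ≤ ∑ a, kE (Ψ i) a := sum_nonneg fun a _ => kE_nonneg _ a
      have a6 : ∑ j, kN (Ψ i) j ≤ κm⁻¹ * ∑ j, κ j * kN (Ψ i) j := by
        rw [mul_sum]
        refine sum_le_sum fun j _ => ?_
        have b1 := kN_nonneg (Ψ i) j
        have b2 : 1 ≤ κm⁻¹ * κ j := by
          rw [← div_eq_inv_mul, le_div_iff₀ hκm, one_mul]
          exact (hκ j).1
        rw [← mul_assoc]
        exact le_mul_of_one_le_left b1 b2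
      have a7 : 0 ≤ ∑ j, κ j * kN (Ψ i) j :=
        sum_nonneg fun j _ => mul_nonneg (hκ0 j) (kN_nonneg _ j)
      have a8 : 0 ≤ κm⁻¹ := by positivity
      nlinarith [mul_nonneg a8 a5]
    calc ∑ i, (∑ a, kE (Ψ i) a + ∑ j, kN (Ψ i) j)
        ≤ ∑ i, (1 + κm⁻¹) * (∑ a, kE (Ψ i) a + ∑ j, κ j * kN (Ψ i) j) :=
          sum_le_sum fun i _ => e1 i
      _ = (1 + κm⁻¹) * ∑ i, (∑ a, kE (Ψ i) a + ∑ j, κ j * kN (Ψ i) j) := (mul_sum _ _ _).symm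
      _ ≤ (1 + κm⁻¹) * (Ck * (n + k)) := mul_le_mul_of_nonneg_left hkin (by positivity)
      _ = _ := by ring
  have hΨs : ∀ i, Sm q n k (Metric.ball 0 R) (Ψ i) := fun i => St_sm (hΨ.st i)
  have hs : 0 < N⁻¹ := by positivity
  have hnear := near0 hχ hΨs z zp (fun j => ⟨hz0 j, (hz j).2⟩) N⁻¹ hs x
  have hnear2 : |mM Ψ (fun p => phi z p x) - mM Ψ (fun p => ph χ N⁻¹ z p x)| ≤
      4 * (1 + |zp|) * ((1 + κm⁻¹) * Ck) := by
    have e0 : N⁻¹ * ((n : ℝ) + k) ≤ 1 := by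
      rw [inv_mul_le_iff₀ hN0]
      linarith
    calc |mM Ψ (fun p => phi z p x) - mM Ψ (fun p => ph χ N⁻¹ z p x)|
        ≤ 4 * (1 + |zp|) * N⁻¹ * ∑ i, (∑ a, kE (Ψ i) a + ∑ j, kN (Ψ i) j) := hnear
      _ ≤ 4 * (1 + |zp|) * N⁻¹ * ((1 + κm⁻¹) * Ck * (n + k)) :=
          mul_le_mul_of_nonneg_left hkin2 (by positivity)
      _ = 4 * (1 + |zp|) * ((1 + κm⁻¹) * Ck) * (N⁻¹ * (n + k)) := by ring
      _ ≤ 4 * (1 + |zp|) * ((1 + κm⁻¹) * Ck) * 1 := mul_le_mul_of_nonneg_left e0 (by positivity)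
      _ = _ := mul_one _
  have hK1 : ∀ u v : E3, ‖u‖ = ‖v‖ →
      |mM Ψ (fun p => ph χ N⁻¹ z p u) - mM Ψ (fun p => ph χ N⁻¹ z p v)| ≤
        Co / Real.sqrt T := by
    intro u v huv
    have h1 := hrot (Fin m) inferInstance q n k R T (N ^ 4)⁻¹ hT z κ hz0 hneu Ψ hΨ N⁻¹ hs
      u v huv
    refine h1.trans ?_
    have e1 : Real.sqrt ((N ^ 4)⁻¹ / T) = (N ^ 2)⁻¹ / Real.sqrt T := by
      rw [Real.sqrt_div hδ0, Real.sqrt_inv, show N ^ 4 = (N ^ 2) ^ 2 by ring,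
        Real.sqrt_sq (by positivity)]
    rw [e1, inv_inv]
    have e2 : (n : ℝ) * N * (N ^ 2)⁻¹ ≤ 1 := by
      rw [← div_eq_mul_inv, div_le_one (by positivity)]
      nlinarith
    calc Co * (n * N) * ((N ^ 2)⁻¹ / Real.sqrt T)
        = Co / Real.sqrt T * (n * N * (N ^ 2)⁻¹) := by ring
      _ ≤ Co / Real.sqrt T * 1 := mul_le_mul_of_nonneg_left e2 (by positivity)
      _ = _ := mul_one _
  have hfin := sphP hχ hΨs hΨ.one z hz0 hneu N⁻¹ hs (inv_le_one_of_one_le₀ hN1)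
    (Co / Real.sqrt T) |C0| hK1 (fun t ht => (p4 t (by linarith)).trans (le_abs_self _)) x hx
  have hns : (n : ℝ) * N⁻¹ ≤ 1 := by
    rw [← div_eq_mul_inv, div_le_one hN0]
    linarith
  have htri := abs_sub_abs_le_abs_sub (mM Ψ (fun p => phi z p x))
    (mM Ψ (fun p => ph χ N⁻¹ z p x))
  rw [hCb]
  linarith [abs_nonneg C0]

end H6.CT
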