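import Pool.Agent.H6.CT.HPoi

/-! The costs of the scales, integrated over a bounded set. -/

open MeasureTheory Finset

namespace H6.CT

open H6.CM H6.CB H6.CL

theorem hsum_int {Λ : Set E3} (hm : MeasurableSet Λ) (hb : Bornology.IsBounded Λ) (J : E3 → ℝ)
    (hJ : ContDiff ℝ (⊤ : ℕ∞) J) (hJ1 : ∀ v, 0 ≤ J v ∧ J v ≤ 1) (N : ℕ) (R : ℝ) :
    ∑ b ∈ hB N R, Real.exp (-hx b.1) * ∫ v in Λ, (hf b.1 b.2 v * J v) ^ 2 ≤
      2 * ∫ v in Λ, J v ^ 2 := by
  have hfin : volume Λ ≠ ⊤ := hb.measure_lt_top.ne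
  have hJi : IntegrableOn (fun v => J v ^ 2) Λ := by
    refine Measure.integrableOn_of_bounded (M := 1) hfin
      ((hJ.continuous.pow 2).aestronglyMeasurable) (Filter.Eventually.of_forall fun v => ?_)
    rw [Real.norm_eq_abs, abs_of_nonneg (sq_nonneg _)]
    nlinarith [(hJ1 v).1, (hJ1 v).2]
  have hfi : ∀ b : ℕ × (Fin 3 → ℤ), IntegrableOn (fun v => (hf b.1 b.2 v * J v) ^ 2) Λ := by
    intro b
    refine Measure.integrableOn_of_bounded (M := (8 : ℝ) ^ b.1) hfin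
      ((((hf_meas b.1 b.2).mul hJ.continuous.measurable).pow_const 2).aestronglyMeasurable)
      (Filter.Eventually.of_forall fun v => ?_)
    rw [Real.norm_eq_abs, abs_of_nonneg (sq_nonneg _)]
    have h1 := hf_bd b.1 b.2 v
    have h2 : hf b.1 b.2 v ^ 2 ≤ 8 ^ b.1 := by
      have h3 := sq_le_sq' (by linarith [neg_abs_le (hf b.1 b.2 v)])
        ((le_abs_self _).trans h1)
      rwa [Real.sq_sqrt (by positivity)] at h3
    have h4 : J v ^ 2 ≤ 1 := by nlinarith [(hJ1 v).1, (hJ1 v).2]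
    calc (hf b.1 b.2 v * J v) ^ 2 = hf b.1 b.2 v ^ 2 * J v ^ 2 := by ring
      _ ≤ 8 ^ b.1 * 1 := mul_le_mul h2 h4 (sq_nonneg _) (by positivity)
      _ = 8 ^ b.1 := mul_one _
  simp_rw [← integral_const_mul]
  rw [← integral_finsetSum _ fun b _ => (hfi b).const_mul _]
  refine integral_mono (integrable_finsetSum _ fun b _ => (hfi b).const_mul _)
    (hJi.const_mul 2) fun v => ?_
  have h1 := mul_le_mul_of_nonneg_right (hsum2 N R v) (sq_nonneg (J v))
  refine le_trans (le_of_eq ?_) h1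
  rw [sum_mul]
  refine sum_congr rfl fun b _ => ?_
  ring

end H6.CT
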