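import Pool.Agent.H6.CT.Defs
import Pool.Agent.H6.CB.Lib

/-! The multiscale frame `hf` is a Parseval frame. The cubes `Qc j m` of level `j` (half open, side `2 ^ -j`, volume `8 ^ -j`) are disjoint and cover the space, and `Qc (j + 1) m ⊆ Qc j (m / 2)` (`Int.ediv` rounds down), each cube having `8` children. For `F` continuous with compact support let `A j m = ∫ ξ in Qc j m, F ξ`. Then `∑ m, ‖∫ hf 0 m * F‖ ^ 2 = ∑ m, ‖A 0 m‖ ^ 2` and, for the children of a cube, `∑ 8 ^ (j+1) ‖A_c - A / 8‖ ^ 2 = 8 ^ (j+1) ∑ ‖A_c‖ ^ 2 - 8 ^ j ‖A‖ ^ 2`; telescoping, the sum over all levels up to `J` is `8 ^ J ∑ m, ‖A J m‖ ^ 2`, which is at most `∫ ‖F‖ ^ 2` (Cauchy-Schwarz on every cube) and tends to it (uniform continuity). For a function with `‖ξ‖ ≤ R` on its support all cubes with nonzero contribution have indices in `hB J R`; `hpar_le` holds for every finite set of indices (for the sums over subsets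 use that the full sums over cubes meeting the compact support have only nonnegative terms). -/

open MeasureTheory Finset

namespace H6.CT

open H6.CM H6.CB H6.CL

theorem hpar_mem (j : ℕ) (m : Fin 3 → ℤ) (v : E3) :
    v ∈ Qc j m ↔ ∀ d, ⌊(2 : ℝ) ^ j * v d⌋ = m d := by
  simp only [Qc, Set.mem_ofPred_eq, Int.floor_eq_iff]

theorem Qc_meas (j : ℕ) (m : Fin 3 → ℤ) : MeasurableSet (Qc j m) := by
  have h : Qc j m = ⋂ d : Fin 3, {v : E3 | (m d : ℝ) ≤ 2 ^ j * v d ∧ 2 ^ j * v d < m d + 1} := by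
    ext v
    simp only [Qc, Set.mem_ofPred_eq, Set.mem_iInter]
  rw [h]
  refine MeasurableSet.iInter fun d => ?_
  have hd : Measurable fun v : E3 => 2 ^ j * v d :=
    (((EuclideanSpace.proj (𝕜 := ℝ) d).continuous).measurable).const_mul _
  exact (measurableSet_le measurable_const hd).inter (measurableSet_lt hd measurable_const)

theorem Qc_vol (j : ℕ) (m : Fin 3 → ℤ) : (volume (Qc j m)).toReal = ((8 : ℝ) ^ j)⁻¹ := by
  have hp : (0 : ℝ) < 2 ^ j := by positivity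
  have h1 : Qc j m = (MeasurableEquiv.toLp 2 (Fin 3 → ℝ)).symm ⁻¹'
      (Set.pi Set.univ fun d => Set.Ico ((m d : ℝ) / 2 ^ j) (((m d : ℝ) + 1) / 2 ^ j)) := by
    ext v
    simp only [Qc, Set.mem_ofPred_eq, Set.mem_preimage, Set.mem_pi, Set.mem_univ, true_implies,
      Set.mem_Ico]
    refine forall_congr' fun d => ?_
    rw [div_le_iff₀ hp, lt_div_iff₀ hp, mul_comm (2 ^ j) (v d)]
    rfl
  have h2 := (EuclideanSpace.volume_preserving_symm_measurableEquiv_toLp (Fin 3)).measure_preimage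
    (MeasurableSet.univ_pi (fun d : Fin 3 => measurableSet_Ico
      (a := (m d : ℝ) / 2 ^ j) (b := ((m d : ℝ) + 1) / 2 ^ j))).nullMeasurableSet
  rw [h1, h2, Real.volume_pi_Ico, ENNReal.toReal_prod]
  have h3 : ∀ d : Fin 3, (ENNReal.ofReal (((m d : ℝ) + 1) / 2 ^ j - (m d : ℝ) / 2 ^ j)).toReal =
      (2 ^ j)⁻¹ := by
    intro d
    have : ((m d : ℝ) + 1) / 2 ^ j - (m d : ℝ) / 2 ^ j = (2 ^ j)⁻¹ := by
      field_simp
      ring
    rw [this, ENNReal.toReal_ofReal (by positivity)]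
  rw [prod_congr rfl fun d _ => h3 d, prod_const, card_univ, Fintype.card_fin, inv_pow, ← pow_mul,
    mul_comm j 3, pow_mul]
  norm_num

private theorem hpar_ind (S : Set E3) (v : E3) :
    S.indicator (fun _ => (1 : ℝ)) v = 0 ∨ S.indicator (fun _ => (1 : ℝ)) v = 1 := by
  by_cases h : v ∈ S
  · right
    exact Set.indicator_of_mem h _
  · left
    exact Set.indicator_of_notMem h _

theorem hf_meas (j : ℕ) (m : Fin 3 → ℤ) : Measurable (hf j m) := by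
  cases j with
  | zero => exact measurable_const.indicator (Qc_meas 0 m)
  | succ j =>
    exact ((measurable_const.indicator (Qc_meas (j + 1) m)).sub
      ((measurable_const.indicator (Qc_meas j fun d => m d / 2)).const_mul _)).const_mul _

theorem hf_bd (j : ℕ) (m : Fin 3 → ℤ) (v : E3) : |hf j m v| ≤ Real.sqrt (8 ^ j) := by
  cases j with
  | zero =>
    change |(Qc 0 m).indicator (fun _ => (1 : ℝ)) v| ≤ _
    rcases hpar_ind (Qc 0 m) v with h | h <;> rw [h] <;> simp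
  | succ j =>
    change |Real.sqrt (8 ^ (j + 1)) * ((Qc (j + 1) m).indicator (fun _ => (1 : ℝ)) v -
      8⁻¹ * (Qc j (fun d => m d / 2)).indicator (fun _ => (1 : ℝ)) v)| ≤ _
    rw [abs_mul, abs_of_nonneg (Real.sqrt_nonneg _)]
    refine mul_le_of_le_one_right (Real.sqrt_nonneg _) ?_
    rw [abs_le]
    rcases hpar_ind (Qc (j + 1) m) v with h | h <;>
      rcases hpar_ind (Qc j fun d => m d / 2) v with h' | h' <;> rw [h, h'] <;> norm_num

/-- children of a cube -/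
def hch (p : Fin 3 → ℤ) : Finset (Fin 3 → ℤ) :=
  Fintype.piFinset fun d => {2 * p d, 2 * p d + 1}

theorem mem_hch (p m : Fin 3 → ℤ) : m ∈ hch p ↔ (fun d => m d / 2) = p := by
  rw [hch, Fintype.mem_piFinset, funext_iff]
  refine forall_congr' fun d => ?_
  rw [mem_insert, mem_singleton]
  omega

theorem card_hch (p : Fin 3 → ℤ) : (hch p).card = 8 := by
  rw [hch, Fintype.card_piFinset]
  have : ∀ d, ({2 * p d, 2 * p d + 1} : Finset ℤ).card = 2 := fun d => by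
    rw [card_pair]
    omega
  rw [prod_congr rfl fun d _ => this d]
  norm_num

/-- the big box of level `j` -/
private noncomputable def Kb (N j : ℕ) : Finset (Fin 3 → ℤ) :=
  Fintype.piFinset fun _ => Finset.Ico (-((N : ℤ) * 2 ^ j)) ((N : ℤ) * 2 ^ j)

private theorem mem_Kb {N j : ℕ} {m : Fin 3 → ℤ} :
    m ∈ Kb N j ↔ ∀ d, -((N : ℤ) * 2 ^ j) ≤ m d ∧ m d < (N : ℤ) * 2 ^ j := by
  rw [Kb, Fintype.mem_piFinset]
  simp only [mem_Ico]

private theorem Kb_succ (N j : ℕ) : Kb N (j + 1) = (Kb N j).biUnion hch := by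
  ext m
  rw [mem_biUnion]
  constructor
  · intro h
    refine ⟨fun d => m d / 2, ?_, (mem_hch _ _).2 rfl⟩
    rw [mem_Kb] at h ⊢
    intro d
    have h1 := h d
    have h2 : (N : ℤ) * 2 ^ (j + 1) = 2 * ((N : ℤ) * 2 ^ j) := by ring
    rw [h2] at h1
    generalize (N : ℤ) * 2 ^ j = M at *
    constructor <;> omega
  · rintro ⟨p, hp, hm⟩
    rw [mem_hch] at hm
    rw [mem_Kb] at hp ⊢
    intro d
    have h1 := hp d
    rw [← hm] at h1
    have h2 : (N : ℤ) * 2 ^ (j + 1) = 2 * ((N : ℤ) * 2 ^ j) := by ring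
    rw [h2]
    generalize (N : ℤ) * 2 ^ j = M at *
    simp only at h1
    constructor <;> omega

theorem hch_disj (s : Set (Fin 3 → ℤ)) : s.PairwiseDisjoint hch := by
  intro p _ p' _ h
  rw [Function.onFun, Finset.disjoint_left]
  intro m hm hm'
  rw [mem_hch] at hm hm'
  exact h (hm.symm.trans hm')

theorem Qc_disj (j : ℕ) (s : Set (Fin 3 → ℤ)) : s.PairwiseDisjoint (Qc j) := by
  intro p _ p' _ h
  rw [Function.onFun, Set.disjoint_left]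
  intro v hv hv'
  rw [hpar_mem] at hv hv'
  exact h (funext fun d => (hv d).symm.trans (hv' d))

theorem Qc_ch (j : ℕ) (p : Fin 3 → ℤ) : Qc j p = ⋃ m ∈ hch p, Qc (j + 1) m := by
  ext v
  simp only [Set.mem_iUnion, exists_prop]
  have key : ∀ d, ⌊(2 : ℝ) ^ (j + 1) * v d⌋ / 2 = ⌊(2 : ℝ) ^ j * v d⌋ := by
    intro d
    have h1 := Int.floor_div_natCast ((2 : ℝ) ^ (j + 1) * v d) 2
    push_cast at h1
    rw [← h1]
    congr 1
    rw [pow_succ]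
    ring
  constructor
  · intro hv
    rw [hpar_mem] at hv
    refine ⟨fun d => ⌊(2 : ℝ) ^ (j + 1) * v d⌋, ?_, ?_⟩
    · rw [mem_hch]
      funext d
      exact (key d).trans (hv d)
    · rw [hpar_mem]
      intro d
      rfl
  · rintro ⟨m, hm, hv⟩
    rw [mem_hch] at hm
    rw [hpar_mem] at hv ⊢
    intro d
    rw [← key d, hv d]
    exact congrFun hm d

section
variable {F : E3 → ℂ} (hF : Continuous F) (hc : HasCompactSupport F)
include hF hc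

theorem hpar_hi : Integrable F := hF.integrable_of_hasCompactSupport hc

theorem hpar_hi2 : Integrable fun ξ => ‖F ξ‖ ^ 2 := by
  have h1 : Continuous (fun ξ => ‖F ξ‖ ^ 2) := hF.norm.pow 2
  have h2 : HasCompactSupport (fun ξ => ‖F ξ‖ ^ 2) := by
    have := hc.comp_left (g := fun x : ℂ => ‖x‖ ^ 2) (by rw [norm_zero]; norm_num)
    exact this
  exact h1.integrable_of_hasCompactSupport h2

theorem A_ch (j : ℕ) (p : Fin 3 → ℤ) :
    ∫ ξ in Qc j p, F ξ = ∑ m ∈ hch p, ∫ ξ in Qc (j + 1) m, F ξ := by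
  have h := integral_biUnion_finset (μ := (volume : Measure E3)) (f := F) (hch p)
    (s := Qc (j + 1)) (fun m _ => Qc_meas (j + 1) m)
    (Qc_disj (j + 1) _) fun m _ => (hpar_hi hF hc).integrableOn
  rw [← h]
  exact congrArg (fun S => ∫ ξ in S, F ξ) (Qc_ch j p)

omit hF hc in
private theorem c_zero (m : Fin 3 → ℤ) :
    ∫ ξ, ((hf 0 m ξ : ℝ) : ℂ) * F ξ = ∫ ξ in Qc 0 m, F ξ := by
  rw [← integral_indicator (Qc_meas 0 m)]
  refine integral_congr_ae (Filter.Eventually.of_forall fun ξ => ?_)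
  change (((Qc 0 m).indicator (fun _ => (1 : ℝ)) ξ : ℝ) : ℂ) * F ξ = (Qc 0 m).indicator F ξ
  by_cases h : ξ ∈ Qc 0 m
  · rw [Set.indicator_of_mem h, Set.indicator_of_mem h]
    simp
  · rw [Set.indicator_of_notMem h, Set.indicator_of_notMem h]
    simp

private theorem c_succ (j : ℕ) (m : Fin 3 → ℤ) :
    ∫ ξ, ((hf (j + 1) m ξ : ℝ) : ℂ) * F ξ = ((Real.sqrt (8 ^ (j + 1)) : ℝ) : ℂ) *
      ((∫ ξ in Qc (j + 1) m, F ξ) - 8⁻¹ * ∫ ξ in Qc j (fun d => m d / 2), F ξ) := by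
  rw [← integral_indicator (Qc_meas (j + 1) m), ← integral_indicator (Qc_meas j _),
    ← integral_const_mul, ← integral_sub, ← integral_const_mul]
  · refine integral_congr_ae (Filter.Eventually.of_forall fun ξ => ?_)
    change ((Real.sqrt (8 ^ (j + 1)) * ((Qc (j + 1) m).indicator (fun _ => (1 : ℝ)) ξ -
      8⁻¹ * (Qc j (fun d => m d / 2)).indicator (fun _ => (1 : ℝ)) ξ) : ℝ) : ℂ) * F ξ =
      ((Real.sqrt (8 ^ (j + 1)) : ℝ) : ℂ) * ((Qc (j + 1) m).indicator F ξ -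
        8⁻¹ * (Qc j (fun d => m d / 2)).indicator F ξ)
    by_cases h : ξ ∈ Qc (j + 1) m <;> by_cases h' : ξ ∈ Qc j (fun d => m d / 2) <;>
      simp only [Set.indicator_of_mem, Set.indicator_of_notMem, h, h', not_false_eq_true] <;>
      push_cast <;> ring
  · exact (hpar_hi hF hc).indicator (Qc_meas _ _)
  · exact ((hpar_hi hF hc).indicator (Qc_meas _ _)).const_mul _

theorem hch_sum (j : ℕ) (p : Fin 3 → ℤ) :
    ∑ m ∈ hch p, ‖∫ ξ, ((hf (j + 1) m ξ : ℝ) : ℂ) * F ξ‖ ^ 2 =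
      8 ^ (j + 1) * ∑ m ∈ hch p, ‖∫ ξ in Qc (j + 1) m, F ξ‖ ^ 2 -
        8 ^ j * ‖∫ ξ in Qc j p, F ξ‖ ^ 2 := by
  have h1 : ∀ m ∈ hch p, ‖∫ ξ, ((hf (j + 1) m ξ : ℝ) : ℂ) * F ξ‖ ^ 2 =
      8 ^ (j + 1) * ‖(∫ ξ in Qc (j + 1) m, F ξ) - 8⁻¹ * ∫ ξ in Qc j p, F ξ‖ ^ 2 := by
    intro m hm
    rw [mem_hch] at hm
    rw [c_succ hF hc, hm, norm_mul, mul_pow, Complex.norm_real, Real.norm_eq_abs, sq_abs,
      Real.sq_sqrt (by positivity)]
  rw [sum_congr rfl h1, ← mul_sum]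
  set s := ∫ ξ in Qc j p, F ξ with hs
  have h2 : ∀ m ∈ hch p, ‖(∫ ξ in Qc (j + 1) m, F ξ) - 8⁻¹ * s‖ ^ 2 =
      ‖∫ ξ in Qc (j + 1) m, F ξ‖ ^ 2 - 2 * inner ℝ (∫ ξ in Qc (j + 1) m, F ξ) (8⁻¹ * s) +
        ‖8⁻¹ * s‖ ^ 2 := fun m _ => norm_sub_sq_real _ _
  rw [sum_congr rfl h2, sum_add_distrib, sum_sub_distrib, ← mul_sum, ← sum_inner,
    ← A_ch hF hc j p, ← hs, sum_const, card_hch]
  have h3 : (8⁻¹ * s : ℂ) = (8⁻¹ : ℝ) • s := by
    rw [Complex.real_smul]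
    push_cast
    rfl
  rw [h3, inner_smul_right, real_inner_self_eq_norm_sq, norm_smul, Real.norm_eq_abs,
    abs_of_pos (by norm_num : (0 : ℝ) < 8⁻¹), pow_succ]
  simp only [nsmul_eq_mul]
  push_cast
  ring

private theorem S_tel (N J : ℕ) :
    ∑ j ∈ range (J + 1), ∑ m ∈ Kb N j, ‖∫ ξ, ((hf j m ξ : ℝ) : ℂ) * F ξ‖ ^ 2 =
      8 ^ J * ∑ m ∈ Kb N J, ‖∫ ξ in Qc J m, F ξ‖ ^ 2 := by
  induction J with
  | zero =>
    rw [sum_range_one, pow_zero, one_mul]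
    exact sum_congr rfl fun m _ => by rw [c_zero]
  | succ J ih =>
    rw [sum_range_succ, ih, Kb_succ, sum_biUnion (hch_disj _), sum_biUnion (hch_disj _),
      sum_congr rfl fun p _ => hch_sum hF hc J p, sum_sub_distrib, ← mul_sum, ← mul_sum]
    ring

private theorem cube_id (J : ℕ) (m : Fin 3 → ℤ) :
    ∫ ξ in Qc J m, ‖F ξ - (8 ^ J : ℝ) • ∫ ξ in Qc J m, F ξ‖ ^ 2 =
      (∫ ξ in Qc J m, ‖F ξ‖ ^ 2) - 8 ^ J * ‖∫ ξ in Qc J m, F ξ‖ ^ 2 := by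
  set A := ∫ ξ in Qc J m, F ξ with hA
  have hfin : volume (Qc J m) ≠ ⊤ := by
    intro h
    have h1 := Qc_vol J m
    rw [h, ENNReal.toReal_top] at h1
    have : (0 : ℝ) < (8 ^ J)⁻¹ := by positivity
    linarith
  have h1 : ∀ ξ, ‖F ξ - (8 ^ J : ℝ) • A‖ ^ 2 =
      ‖F ξ‖ ^ 2 - 2 * inner ℝ ((8 ^ J : ℝ) • A) (F ξ) + ‖(8 ^ J : ℝ) • A‖ ^ 2 := by
    intro ξ
    rw [norm_sub_sq_real, real_inner_comm]
  have i1 : IntegrableOn (fun ξ => ‖F ξ‖ ^ 2) (Qc J m) := (hpar_hi2 hF hc).integrableOn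
  have i2 : IntegrableOn F (Qc J m) := (hpar_hi hF hc).integrableOn
  have i3 : IntegrableOn (fun ξ => 2 * inner ℝ ((8 ^ J : ℝ) • A) (F ξ)) (Qc J m) :=
    (Integrable.const_inner _ i2).const_mul 2
  have i4 : IntegrableOn (fun ξ => ‖F ξ‖ ^ 2 - 2 * inner ℝ ((8 ^ J : ℝ) • A) (F ξ)) (Qc J m) :=
    i1.sub i3
  have i5 : IntegrableOn (fun _ : E3 => ‖(8 ^ J : ℝ) • A‖ ^ 2) (Qc J m) :=
    integrableOn_const hfin enorm_ne_top
  simp only [h1]
  rw [integral_add i4 i5, integral_sub i1 i3,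
    integral_const_mul, integral_inner i2, setIntegral_const, ← hA]
  have hv : (volume : Measure E3).real (Qc J m) = (8 ^ J)⁻¹ := Qc_vol J m
  rw [hv, real_inner_smul_left, real_inner_self_eq_norm_sq, norm_smul, Real.norm_eq_abs,
    abs_of_pos (by positivity : (0 : ℝ) < 8 ^ J), smul_eq_mul]
  field_simp
  ring

private theorem K_sum (N J : ℕ) :
    ∑ m ∈ Kb N J, ∫ ξ in Qc J m, ‖F ξ‖ ^ 2 = ∫ ξ in ⋃ m ∈ Kb N J, Qc J m, ‖F ξ‖ ^ 2 := by
  exact (integral_biUnion_finset (Kb N J) (s := Qc J) (fun m _ => Qc_meas J m)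
    (Qc_disj J _) fun m _ => (hpar_hi2 hF hc).integrableOn).symm

private theorem S_le (N J : ℕ) :
    8 ^ J * ∑ m ∈ Kb N J, ‖∫ ξ in Qc J m, F ξ‖ ^ 2 ≤ ∫ ξ, ‖F ξ‖ ^ 2 := by
  have h1 : 8 ^ J * ∑ m ∈ Kb N J, ‖∫ ξ in Qc J m, F ξ‖ ^ 2 ≤
      ∑ m ∈ Kb N J, ∫ ξ in Qc J m, ‖F ξ‖ ^ 2 := by
    rw [mul_sum]
    refine sum_le_sum fun m _ => ?_
    have h2 := cube_id hF hc J m
    have h3 : 0 ≤ ∫ ξ in Qc J m, ‖F ξ - (8 ^ J : ℝ) • ∫ ξ in Qc J m, F ξ‖ ^ 2 :=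
      integral_nonneg fun ξ => by positivity
    linarith
  refine h1.trans ?_
  rw [K_sum hF hc]
  exact setIntegral_le_integral (hpar_hi2 hF hc) (Filter.Eventually.of_forall fun ξ => by positivity)

end

theorem hpar_le (F : E3 → ℂ) (hF : Continuous F) (hc : HasCompactSupport F)
    (B : Finset (ℕ × (Fin 3 → ℤ))) :
    ∑ b ∈ B, ‖∫ ξ, ((hf b.1 b.2 ξ : ℝ) : ℂ) * F ξ‖ ^ 2 ≤ ∫ ξ, ‖F ξ‖ ^ 2 := by
  classical
  obtain ⟨J, hJ⟩ : ∃ J : ℕ, ∀ b ∈ B, b.1 ≤ J := ⟨∑ b ∈ B, b.1, fun b hb =>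
    single_le_sum (f := fun b : ℕ × (Fin 3 → ℤ) => b.1) (fun _ _ => Nat.zero_le _) hb⟩
  obtain ⟨N, hN⟩ : ∃ N : ℕ, ∀ b ∈ B, ∀ d, (b.2 d).natAbs < N := by
    refine ⟨(∑ b ∈ B, ∑ d, (b.2 d).natAbs) + 1, fun b hb d => ?_⟩
    have h1 : (b.2 d).natAbs ≤ ∑ d, (b.2 d).natAbs :=
      single_le_sum (f := fun d => (b.2 d).natAbs) (fun _ _ => Nat.zero_le _) (mem_univ d)
    have h2 : ∑ d, (b.2 d).natAbs ≤ ∑ b ∈ B, ∑ d, (b.2 d).natAbs :=
      single_le_sum (f := fun b : ℕ × (Fin 3 → ℤ) => ∑ d, (b.2 d).natAbs)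
        (fun _ _ => Nat.zero_le _) hb
    omega
  have h1 : B ⊆ (range (J + 1)).biUnion fun j => (Kb N j).image fun m => (j, m) := by
    intro b hb
    rw [mem_biUnion]
    refine ⟨b.1, mem_range.2 (Nat.lt_succ_of_le (hJ b hb)), mem_image.2 ⟨b.2, ?_, rfl⟩⟩
    rw [mem_Kb]
    intro d
    have h2 := hN b hb d
    have h3 : (1 : ℤ) ≤ 2 ^ b.1 := one_le_pow₀ (by norm_num)
    have h4 : (N : ℤ) ≤ N * 2 ^ b.1 := le_mul_of_one_le_right (by positivity) h3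
    omega
  refine (sum_le_sum_of_subset_of_nonneg h1 fun _ _ _ => by positivity).trans ?_
  rw [sum_biUnion]
  · have h2 : ∀ j ∈ range (J + 1), ∑ b ∈ (Kb N j).image (fun m => (j, m)),
        ‖∫ ξ, ((hf b.1 b.2 ξ : ℝ) : ℂ) * F ξ‖ ^ 2 =
        ∑ m ∈ Kb N j, ‖∫ ξ, ((hf j m ξ : ℝ) : ℂ) * F ξ‖ ^ 2 := fun j _ => by
      rw [sum_image]
      intro m _ m' _ h
      exact (Prod.ext_iff.1 h).2
    rw [sum_congr rfl h2, S_tel hF hc]
    exact S_le hF hc N J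
  · intro j _ j' _ h
    rw [Function.onFun, Finset.disjoint_left]
    intro b hb hb'
    rw [mem_image] at hb hb'
    obtain ⟨m, _, hm⟩ := hb
    obtain ⟨m', _, hm'⟩ := hb'
    exact h (by rw [← hm] at hm'; exact ((Prod.ext_iff.1 hm').1).symm)

theorem hpar_coord_le (ξ : E3) (d : Fin 3) : |ξ d| ≤ ‖ξ‖ := by
  have h := PiLp.norm_apply_le (p := 2) ξ d
  rwa [Real.norm_eq_abs] at h

theorem hpar_cube_dist {J : ℕ} {m : Fin 3 → ℤ} {ξ η : E3} (h1 : ξ ∈ Qc J m) (h2 : η ∈ Qc J m) :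
    dist ξ η ≤ 2 * ((2 : ℝ) ^ J)⁻¹ := by
  have hp : (0 : ℝ) < 2 ^ J := by positivity
  rw [EuclideanSpace.dist_eq]
  have h3 : ∀ d : Fin 3, dist (ξ d) (η d) ^ 2 ≤ (((2 : ℝ) ^ J)⁻¹) ^ 2 := by
    intro d
    obtain ⟨a1, a2⟩ := h1 d
    obtain ⟨b1, b2⟩ := h2 d
    have h4 : |2 ^ J * (ξ d - η d)| ≤ 1 := by
      rw [abs_le]
      constructor <;> nlinarith
    rw [abs_mul, abs_of_pos hp] at h4
    have h5 : |ξ d - η d| ≤ ((2 : ℝ) ^ J)⁻¹ := by
      rw [← one_div, le_div_iff₀ hp, mul_comm]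
      exact h4
    rw [Real.dist_eq]
    exact pow_le_pow_left₀ (abs_nonneg _) h5 2
  refine Real.sqrt_le_iff.2 ⟨by positivity, ?_⟩
  refine (sum_le_sum fun d _ => h3 d).trans ?_
  rw [sum_const, card_univ, Fintype.card_fin, nsmul_eq_mul]
  have h6 : 0 ≤ (((2 : ℝ) ^ J)⁻¹) ^ 2 := by positivity
  push_cast
  nlinarith

private theorem cube_osc {F : E3 → ℂ} (hF : Continuous F) (hc : HasCompactSupport F) {η : ℝ}
    {J : ℕ} {m : Fin 3 → ℤ}
    (h : ∀ ξ ∈ Qc J m, ∀ ζ ∈ Qc J m, ‖F ξ - F ζ‖ ≤ η) :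
    (∫ ξ in Qc J m, ‖F ξ‖ ^ 2) - 8 ^ J * ‖∫ ξ in Qc J m, F ξ‖ ^ 2 ≤ η ^ 2 * (8 ^ J)⁻¹ := by
  have hv : (volume : Measure E3).real (Qc J m) = (8 ^ J)⁻¹ := Qc_vol J m
  have hfin : volume (Qc J m) < ⊤ := by
    rw [lt_top_iff_ne_top]
    intro h
    have h1 := Qc_vol J m
    rw [h, ENNReal.toReal_top] at h1
    have : (0 : ℝ) < (8 ^ J)⁻¹ := by positivity
    linarith
  have h8 : (0 : ℝ) < 8 ^ J := by positivity
  rw [← cube_id hF hc J m]
  have h1 : ∀ ξ ∈ Qc J m, ‖F ξ - (8 ^ J : ℝ) • ∫ ξ in Qc J m, F ξ‖ ≤ η := by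
    intro ξ hξ
    have e1 : F ξ - (8 ^ J : ℝ) • ∫ ζ in Qc J m, F ζ =
        (8 ^ J : ℝ) • ∫ ζ in Qc J m, (F ξ - F ζ) := by
      have i5 : IntegrableOn (fun _ : E3 => F ξ) (Qc J m) := integrableOn_const hfin.ne enorm_ne_top
      rw [integral_sub i5 (hpar_hi hF hc).integrableOn, setIntegral_const, hv,
        smul_sub, smul_smul, mul_inv_cancel₀ h8.ne', one_smul]
    rw [e1, norm_smul, Real.norm_eq_abs, abs_of_pos h8]
    have h2 := norm_setIntegral_le_of_norm_le_const hfin (f := fun ζ => F ξ - F ζ) (C := η)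
      (fun ζ hζ => h ξ hξ ζ hζ)
    rw [hv] at h2
    calc 8 ^ J * ‖∫ ζ in Qc J m, (F ξ - F ζ)‖ ≤ 8 ^ J * (η * (8 ^ J)⁻¹) :=
          mul_le_mul_of_nonneg_left h2 h8.le
      _ = η := by field_simp
  have h2 := norm_setIntegral_le_of_norm_le_const hfin
    (f := fun ξ => ‖F ξ - (8 ^ J : ℝ) • ∫ ξ in Qc J m, F ξ‖ ^ 2) (C := η ^ 2)
    (fun ξ hξ => by
      rw [Real.norm_eq_abs, abs_of_nonneg (by positivity)]
      exact pow_le_pow_left₀ (norm_nonneg _) (h1 ξ hξ) 2)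
  rw [hv] at h2
  exact (le_abs_self _).trans h2

private theorem card_Kb (N J : ℕ) : ((Kb N J).card : ℝ) = 8 * N ^ 3 * 8 ^ J := by
  rw [Kb, Fintype.card_piFinset]
  simp only [Int.card_Ico, prod_const, card_univ, Fintype.card_fin]
  have h1 : ((N : ℤ) * 2 ^ J - -((N : ℤ) * 2 ^ J)).toNat = 2 * N * 2 ^ J := by
    have : (N : ℤ) * 2 ^ J - -((N : ℤ) * 2 ^ J) = ((2 * N * 2 ^ J : ℕ) : ℤ) := by
      push_cast
      ring
    rw [this, Int.toNat_natCast]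
  rw [h1]
  push_cast
  rw [mul_pow, mul_pow, ← pow_mul, mul_comm J 3, pow_mul]
  norm_num

theorem hpar_lim (R : ℝ) (F : E3 → ℂ) (hF : Continuous F) (hR : ∀ ξ, F ξ ≠ 0 → ‖ξ‖ ≤ R) :
    Filter.Tendsto (fun J : ℕ => ∑ b ∈ hB J R, ‖∫ ξ, ((hf b.1 b.2 ξ : ℝ) : ℂ) * F ξ‖ ^ 2)
      Filter.atTop (nhds (∫ ξ, ‖F ξ‖ ^ 2)) := by
  classical
  rcases lt_or_ge R 0 with hR0 | hR0
  · have hz : ∀ ξ, F ξ = 0 := by
      intro ξ
      by_contra h
      have := hR ξ h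
      linarith [norm_nonneg ξ]
    simp [hz]
  have hc : HasCompactSupport F := by
    refine HasCompactSupport.of_support_subset_isCompact (isCompact_closedBall (0 : E3) R) ?_
    intro ξ hξ
    rw [mem_closedBall_zero_iff]
    exact hR ξ hξ
  obtain ⟨N, hN1, hN2⟩ : ∃ N : ℕ, R < N ∧ (N : ℝ) ≤ R + 1 :=
    ⟨⌊R⌋₊ + 1, by exact_mod_cast Nat.lt_floor_add_one R, by
      push_cast
      linarith [Nat.floor_le hR0]⟩
  have hlow : ∀ J : ℕ, 8 ^ J * ∑ m ∈ Kb N J, ‖∫ ξ in Qc J m, F ξ‖ ^ 2 ≤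
      ∑ b ∈ hB J R, ‖∫ ξ, ((hf b.1 b.2 ξ : ℝ) : ℂ) * F ξ‖ ^ 2 := by
    intro J
    rw [← S_tel hF hc N J]
    have h1 : ((range (J + 1)).biUnion fun j => (Kb N j).image fun m => (j, m)) ⊆ hB J R := by
      intro b hb
      rw [mem_biUnion] at hb
      obtain ⟨j, hj, hb⟩ := hb
      rw [mem_image] at hb
      obtain ⟨m, hm, rfl⟩ := hb
      rw [hB, mem_product, Fintype.mem_piFinset]
      refine ⟨hj, fun d => ?_⟩
      rw [mem_Kb] at hm
      have h2 := hm d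
      have h3 : (N : ℤ) * 2 ^ j ≤ ⌈(2 : ℝ) ^ J * (R + 2)⌉ := by
        have h4 : (((N : ℤ) * 2 ^ j : ℤ) : ℝ) ≤ (2 : ℝ) ^ J * (R + 2) := by
          push_cast
          have h5 : (2 : ℝ) ^ j ≤ 2 ^ J :=
            pow_le_pow_right₀ (by norm_num) (Nat.lt_succ_iff.1 (mem_range.1 hj))
          have h6 : (0 : ℝ) < 2 ^ j := by positivity
          nlinarith
        exact_mod_cast h4.trans (Int.le_ceil _)
      rw [mem_Icc]
      constructor <;> simp only <;> omega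
    refine le_trans (le_of_eq ?_) (sum_le_sum_of_subset_of_nonneg h1 fun _ _ _ => by positivity)
    rw [sum_biUnion]
    · refine sum_congr rfl fun j _ => ?_
      rw [sum_image]
      intro m _ m' _ h
      exact (Prod.ext_iff.1 h).2
    · intro j _ j' _ h
      rw [Function.onFun, Finset.disjoint_left]
      intro b hb hb'
      rw [mem_image] at hb hb'
      obtain ⟨m, _, hm⟩ := hb
      obtain ⟨m', _, hm'⟩ := hb'
      exact h (by rw [← hm] at hm'; exact ((Prod.ext_iff.1 hm').1).symm)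
  have hup : ∀ J : ℕ, ∑ b ∈ hB J R, ‖∫ ξ, ((hf b.1 b.2 ξ : ℝ) : ℂ) * F ξ‖ ^ 2 ≤
      ∫ ξ, ‖F ξ‖ ^ 2 := fun J => hpar_le F hF hc _
  have hsupp : ∀ J : ℕ, ∑ m ∈ Kb N J, ∫ ξ in Qc J m, ‖F ξ‖ ^ 2 = ∫ ξ, ‖F ξ‖ ^ 2 := by
    intro J
    rw [K_sum hF hc]
    refine setIntegral_eq_integral_of_forall_compl_eq_zero fun ξ hξ => ?_
    by_contra h0
    have h1 : F ξ ≠ 0 := by
      intro h2
      apply h0
      rw [h2]
      simp
    apply hξ
    simp only [Set.mem_iUnion, exists_prop]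
    refine ⟨fun d => ⌊(2 : ℝ) ^ J * ξ d⌋, ?_, ?_⟩
    · rw [mem_Kb]
      intro d
      have h2 := (hpar_coord_le ξ d).trans (hR ξ h1)
      rw [abs_le] at h2
      have hp : (0 : ℝ) < 2 ^ J := by positivity
      constructor
      · rw [Int.le_floor]
        push_cast
        nlinarith
      · rw [Int.floor_lt]
        push_cast
        nlinarith
    · rw [hpar_mem]
      intro d
      rfl
  rw [Metric.tendsto_atTop]
  intro ε hε
  obtain ⟨η, hη, hηε⟩ : ∃ η : ℝ, 0 < η ∧ 8 * (N : ℝ) ^ 3 * η ^ 2 < ε := by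
    refine ⟨Real.sqrt (ε / (8 * (N : ℝ) ^ 3 + 1)) , Real.sqrt_pos.2 (by positivity), ?_⟩
    rw [Real.sq_sqrt (by positivity), mul_div_assoc', div_lt_iff₀ (by positivity)]
    nlinarith [pow_nonneg (Nat.cast_nonneg N : (0 : ℝ) ≤ N) 3]
  have huc := hc.uniformContinuous_of_continuous hF
  rw [Metric.uniformContinuous_iff] at huc
  obtain ⟨δ, hδ, hd⟩ := huc η hη
  obtain ⟨J0, hJ0⟩ : ∃ J0 : ℕ, ∀ J ≥ J0, 2 * ((2 : ℝ) ^ J)⁻¹ < δ := by
    obtain ⟨J0, h0⟩ := exists_pow_lt_of_lt_one (half_pos hδ) (by norm_num : (1 / 2 : ℝ) < 1)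
    refine ⟨J0, fun J hJ => ?_⟩
    have h1 : (1 / 2 : ℝ) ^ J ≤ (1 / 2 : ℝ) ^ J0 :=
      pow_le_pow_of_le_one (by norm_num) (by norm_num) hJ
    rw [one_div, inv_pow, inv_pow] at h1
    rw [one_div, inv_pow] at h0
    linarith
  refine ⟨J0, fun J hJ => ?_⟩
  have h1 : (∫ ξ, ‖F ξ‖ ^ 2) - 8 ^ J * ∑ m ∈ Kb N J, ‖∫ ξ in Qc J m, F ξ‖ ^ 2 ≤
      8 * (N : ℝ) ^ 3 * η ^ 2 := by
    rw [← hsupp J, mul_sum, ← sum_sub_distrib]
    refine (sum_le_sum fun m _ => cube_osc hF hc (η := η) (m := m) (J := J) ?_).trans ?_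
    · intro ξ hξ ζ hζ
      have h2 := hd (a := ξ) (b := ζ) ((hpar_cube_dist hξ hζ).trans_lt (hJ0 J hJ))
      rw [dist_eq_norm] at h2
      exact h2.le
    · rw [sum_const, nsmul_eq_mul, card_Kb]
      have : (0 : ℝ) < 8 ^ J := by positivity
      field_simp
      exact le_refl _
  rw [Real.dist_eq, abs_lt]
  have h2 := hlow J
  have h3 := hup J
  constructor <;> linarith

end H6.CT
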