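import Pool.Agent.H6.CL.TLocL

/-! The lower bound for one wave function used in `Pool/Agent/H6/CL/TLocL.lean` (repeat that part of the proof of `tlocL`, with `3/4` in place of `1` in front of the kinetic energies; `tstL` has the factor `1/2`). -/

open MeasureTheory Finset

namespace H6.CT

open H6.CM H6.CB H6.CL

theorem tlocLA (q : ℕ) (zm zp κm κp : ℝ) (hzm : 0 < zm) (hκm : 0 < κm)
    {χ : E3 → ℝ} (hχ : Bump χ) {θ : E3 → ℝ} (hθ : Cut θ) : ∃ C : ℝ, 0 ≤ C ∧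
    ∀ (n k : ℕ) (R : ℝ) (_ : 100 ≤ R) (z κ : Fin k → ℝ) (_ : ∀ j, zm ≤ z j ∧ z j ≤ zp)
    (_ : ∀ j, κm ≤ κ j ∧ κ j ≤ κp) (_ : ∑ j, z j = n)
    (ψ : (Fin n → Fin q) → Cfg n k → ℂ) (_ : St q n k (Metric.ball 0 R) ψ)
    (W : Finset E3),
    (1 / 4) * min 1 κm * TO ψ (R - 40) ≤
      (3 / 4) * (∑ a, kE (mf (fun p => JL R (p.1 a)) ψ) a +
        ∑ j, κ j * kN (mf (fun p => JL R (p.2 j)) ψ) j) +
      mean ψ (fun p => ∑ j, z j * (JL R (p.2 j) ^ 2 *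
          (phiN z j p (p.2 j) - pr χ W z p)) -
        ∑ a, JL R (p.1 a) ^ 2 * (phiE z a p (p.1 a) - pr χ W z p)) +
      C * ((∫ x in shc (R - 44) (R - 37), (WW χ θ W z ψ x + SS θ ψ x)) +
        mean ψ (fun p => shl (R - 44) p)) := by
  obtain ⟨C, hC, k2⟩ := tlocl_low q zm zp hzm hχ hθ
  refine ⟨C, hC, ?_⟩
  intro n k R hR z κ hz hκ hneu ψ hψ W
  have hs := St_sm hψ
  have a2 := k2 n k R hR z hz hneu ψ hψ W
  have a7 := tlocl_TO hs R hR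
  have a8 : κm * ∑ j, kN (mf (fun p => JL R (p.2 j)) ψ) j ≤
      ∑ j, κ j * kN (mf (fun p => JL R (p.2 j)) ψ) j := by
    rw [mul_sum]
    exact sum_le_sum fun j _ => mul_le_mul_of_nonneg_right (hκ j).1 (kN_nonneg _ j)
  have a9 : 0 ≤ ∑ a, kE (mf (fun p => JL R (p.1 a)) ψ) a :=
    sum_nonneg fun a _ => kE_nonneg _ a
  have a10 : 0 ≤ ∑ j, kN (mf (fun p => JL R (p.2 j)) ψ) j :=
    sum_nonneg fun j _ => kN_nonneg _ j
  have hm0 : 0 ≤ min 1 κm := le_min zero_le_one hκm.le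
  have c1 := mul_le_mul_of_nonneg_left a7 hm0
  have c2 := mul_le_mul_of_nonneg_right (min_le_left 1 κm) a9
  have c3 := mul_le_mul_of_nonneg_right (min_le_right 1 κm) a10
  have c0 := mul_nonneg hκm.le a10
  rw [mul_add] at c1
  linarith

end H6.CT
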