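import Pool.Agent.H6.CT.KSumT
import Pool.Agent.H6.CT.TLocLA
import Pool.Agent.H6.CL.JLay
import Pool.Agent.H6.CL.ShI

/-! The kinetic energy in the boundary layer: sum `tlocLA` over the family and use `ksumT` with `J = JL R` (`JL_lay`): `∫ v in ball 0 R, J v ^ 2` is at most the volume of the layer, `C R ^ 2`; `J ^ 2 + gr J ≤ (1 + L) * 1[R - 44 < ‖v‖]`; `(n + k + C R ^ 2) * δ ≤ C R ^ 2`. The integral of the sum of the nonnegative functions `WW`, `SS` over the shell: `sI_W`, `sI_S` of `Pool/Agent/H6/CL/ShI.lean` for the integrability of each member. -/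

open MeasureTheory Finset

namespace H6.CT

open H6.CM H6.CB H6.CL

private theorem tl_vol (R : ℝ) (hR : 100 ≤ R) {J : E3 → ℝ} (hJ : Continuous J)
    (h01 : ∀ v, 0 ≤ J v ∧ J v ≤ 1) (h0 : ∀ v, ‖v‖ ≤ R - 41 → J v = 0) :
    ∫ v in Metric.ball (0 : E3) R, J v ^ 2 ≤ 600 * R ^ 2 := by
  have hsub : Metric.ball (0 : E3) (R - 41) ⊆ Metric.ball (0 : E3) R :=
    Metric.ball_subset_ball (by linarith)
  have hcomp : IntegrableOn (fun v : E3 => J v ^ 2) (Metric.ball (0 : E3) R) :=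
    ((hJ.pow 2).continuousOn.integrableOn_compact
      (isCompact_closedBall (0 : E3) R)).mono_set Metric.ball_subset_closedBall
  have hfin : ∀ s : ℝ, volume (Metric.ball (0 : E3) s) ≠ ⊤ := fun s => measure_ball_lt_top.ne
  have hone : IntegrableOn (fun _ : E3 => (1 : ℝ)) (Metric.ball (0 : E3) R) :=
    integrableOn_const (hfin R)
  have hind : IntegrableOn ((Metric.ball (0 : E3) (R - 41)).indicator (fun _ : E3 => (1 : ℝ)))
      (Metric.ball (0 : E3) R) := hone.indicator measurableSet_ball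
  have h1 : ∫ v in Metric.ball (0 : E3) R, J v ^ 2 ≤
      ∫ v in Metric.ball (0 : E3) R,
        ((1 : ℝ) - (Metric.ball (0 : E3) (R - 41)).indicator (fun _ : E3 => (1 : ℝ)) v) := by
    refine setIntegral_mono_on hcomp (hone.sub hind) measurableSet_ball fun v _ => ?_
    by_cases hv : v ∈ Metric.ball (0 : E3) (R - 41)
    · rw [Set.indicator_of_mem hv]
      have h2 : J v = 0 := h0 v (by
        rw [Metric.mem_ball, dist_zero_right] at hv
        exact hv.le)
      rw [h2]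
      norm_num
    · rw [Set.indicator_of_notMem hv]
      obtain ⟨h2, h3⟩ := h01 v
      nlinarith
  refine h1.trans ?_
  rw [integral_sub hone hind, setIntegral_const, setIntegral_indicator measurableSet_ball,
    setIntegral_const, Set.inter_eq_self_of_subset_right hsub]
  have hv : ∀ s : ℝ, 0 ≤ s → (volume : Measure E3).real (Metric.ball (0 : E3) s) =
      s ^ 3 * (Real.pi * 4 / 3) := by
    intro s hs
    rw [Measure.real, EuclideanSpace.volume_ball_fin_three]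
    rw [ENNReal.toReal_mul, ENNReal.toReal_pow, ENNReal.toReal_ofReal hs,
      ENNReal.toReal_ofReal (by positivity)]
  rw [hv R (by linarith), hv (R - 41) (by linarith)]
  have hpi := Real.pi_lt_d2
  have hpi0 := Real.pi_pos
  simp only [smul_eq_mul, mul_one]
  have h4 : R ^ 3 - (R - 41) ^ 3 ≤ 123 * R ^ 2 := by nlinarith
  have h5 : 0 ≤ R ^ 3 - (R - 41) ^ 3 := by nlinarith
  have h6 : R ^ 3 * (Real.pi * 4 / 3) - (R - 41) ^ 3 * (Real.pi * 4 / 3) =
      (R ^ 3 - (R - 41) ^ 3) * (Real.pi * 4 / 3) := by ring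
  rw [h6]
  calc (R ^ 3 - (R - 41) ^ 3) * (Real.pi * 4 / 3) ≤
      (R ^ 3 - (R - 41) ^ 3) * (3.15 * 4 / 3) := by
        refine mul_le_mul_of_nonneg_left ?_ h5
        linarith
    _ ≤ (123 * R ^ 2) * (3.15 * 4 / 3) := mul_le_mul_of_nonneg_right h4 (by norm_num)
    _ ≤ 600 * R ^ 2 := by nlinarith [sq_nonneg R]

private theorem tl_shl {q n k : ℕ} {Λ : Set E3} {ψ : (Fin n → Fin q) → Cfg n k → ℂ}
    (hS : Sm q n k Λ ψ) (s : ℝ) : IM ψ (fun p => shl s p) := by
  refine IM.bdd hS ?_ ((n : ℝ) + k) fun p => ?_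
  · unfold shl
    refine Measurable.add (Finset.measurable_fun_sum _ fun a _ => ?_)
      (Finset.measurable_fun_sum _ fun j _ => ?_)
    · refine Measurable.ite ?_ measurable_const measurable_const
      exact measurableSet_lt measurable_const
        (((continuous_apply a).comp continuous_fst).norm.measurable)
    · refine Measurable.ite ?_ measurable_const measurable_const
      exact measurableSet_lt measurable_const
        (((continuous_apply j).comp continuous_snd).norm.measurable)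
  · unfold shl
    have h1 : ∀ c : Prop, ∀ _ : Decidable c, (0 : ℝ) ≤ (if c then 1 else 0) ∧
        (if c then (1 : ℝ) else 0) ≤ 1 := by
      intro c _
      split_ifs <;> norm_num
    have h2 : 0 ≤ ∑ a, (if s < ‖p.1 a‖ then (1 : ℝ) else 0) := sum_nonneg fun a _ => (h1 _ _).1
    have h3 : 0 ≤ ∑ j, (if s < ‖p.2 j‖ then (1 : ℝ) else 0) := sum_nonneg fun a _ => (h1 _ _).1
    have h4 : ∑ a, (if s < ‖p.1 a‖ then (1 : ℝ) else 0) ≤ n := by
      refine (sum_le_sum fun a _ => (h1 _ _).2).trans ?_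
      simp
    have h5 : ∑ j, (if s < ‖p.2 j‖ then (1 : ℝ) else 0) ≤ k := by
      refine (sum_le_sum fun a _ => (h1 _ _).2).trans ?_
      simp
    rw [abs_of_nonneg (by linarith)]
    linarith

theorem tlocLT (q : ℕ) (T zm zp κm κp A Kv : ℝ) (hT : 0 ≤ T) (hzm : 0 < zm) (hκm : 0 < κm)
    (hA : 0 ≤ A) (hKv : 0 ≤ Kv) {χ θ : E3 → ℝ} (hχ : Bump χ) (hθ : Cut θ) : ∃ C : ℝ, 0 ≤ C ∧
    ∀ (ι : Type) (_ : Fintype ι) (n k : ℕ) (R : ℝ) (_ : 100 ≤ R) (z κ : Fin k → ℝ)
    (W : Finset E3) (δ : ℝ) (Ψ : ι → (Fin n → Fin q) → Cfg n k → ℂ)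
    (_ : Gt q T zm zp κm κp A Kv n k (Metric.ball 0 R) z κ W δ Ψ)
    (_ : δ ≤ (((n : ℝ) + k + 1) ^ 4)⁻¹),
    ∑ i, TO (Ψ i) (R - 40) ≤ C * (R ^ 2 +
      (∫ x in shc (R - 44) (R - 37), (WM χ θ W z Ψ x + SM θ Ψ x)) +
      mM Ψ (fun p => shl (R - 44) p)) := by
  obtain ⟨C1, hC1, h1⟩ := ksumT q T zm zp κm κp A Kv hT hzm hκm hA hKv hχ
  obtain ⟨C2, hC2, h2⟩ := tlocLA q zm zp κm κp hzm hκm hχ hθ
  obtain ⟨L, hL, hLay⟩ := JL_lay
  obtain ⟨c0, hc0⟩ : ∃ c0 : ℝ, c0 = (1 / 4) * min 1 κm := ⟨_, rfl⟩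
  have hmin : 0 < min 1 κm := lt_min one_pos hκm
  have hc0p : 0 < c0 := by rw [hc0]; positivity
  refine ⟨c0⁻¹ * (C1 * (1 + L) + C1 * 1201 + C2), by positivity, ?_⟩
  intro ι _ n k R hR z κ W δ Ψ hG hδ4
  obtain ⟨hLy, hz0, -, -, -⟩ := hLay R hR
  have hk := h1 ι _ n k (Metric.ball 0 R) z κ W δ Ψ hG (JL R) hLy.smooth hLy.mem
  have ht := fun i => h2 n k R hR z κ hG.hz hG.hκ hG.neu (Ψ i) (hG.eq.st i) W
  have hsm := fun i => St_sm (hG.eq.st i)
  -- the integral of the sum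
  have hsub : shc (R - 44) (R - 37) ⊆ Metric.ball (0 : E3) R := by
    intro v hv
    rw [Metric.mem_ball, dist_zero_right]
    have := hv.2
    linarith
  have hint : ∀ i, IntegrableOn (fun x => WW χ θ W z (Ψ i) x + SS θ (Ψ i) x)
      (shc (R - 44) (R - 37)) := by
    intro i
    have g1 := sI_W (Ψ := fun _ : Unit => Ψ i) (fun _ => hsm i) hχ hθ W z R
    have g2 := sI_S (Ψ := fun _ : Unit => Ψ i) (fun _ => hsm i) hθ R
    simp only [WM, SM, univ_unique, sum_singleton] at g1 g2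
    exact (g1.add g2).mono_set hsub
  have hI : ∑ i, ∫ x in shc (R - 44) (R - 37), (WW χ θ W z (Ψ i) x + SS θ (Ψ i) x) =
      ∫ x in shc (R - 44) (R - 37), (WM χ θ W z Ψ x + SM θ Ψ x) := by
    rw [← integral_finsetSum _ fun i _ => hint i]
    refine integral_congr_ae (Filter.Eventually.of_forall fun x => ?_)
    simp only [WM, SM, sum_add_distrib]
  -- the volume
  obtain ⟨I, hIdef⟩ : ∃ I : ℝ, I = ∫ v in Metric.ball (0 : E3) R, JL R v ^ 2 := ⟨_, rfl⟩
  have hI1 : I ≤ 600 * R ^ 2 := by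
    rw [hIdef]
    exact tl_vol R hR hLy.smooth.continuous hLy.mem hz0
  have hI0 : 0 ≤ I := by
    rw [hIdef]
    exact integral_nonneg fun v => sq_nonneg _
  rw [← hIdef] at hk
  -- the weight
  have hgr0 : ∀ v, 0 ≤ gr (JL R) v := fun v => sum_nonneg fun d _ => sq_nonneg _
  have hgrz : ∀ v : E3, ‖v‖ ≤ R - 44 → gr (JL R) v = 0 := by
    intro v hv
    have h3 : JL R =ᶠ[nhds v] fun _ => 0 := by
      have h4 : Metric.ball (0 : E3) (R - 41) ∈ nhds v :=
        Metric.isOpen_ball.mem_nhds (by rw [Metric.mem_ball, dist_zero_right]; linarith)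
      refine Filter.eventually_of_mem h4 fun w hw => ?_
      rw [Metric.mem_ball, dist_zero_right] at hw
      exact hz0 w hw.le
    unfold gr
    refine sum_eq_zero fun d _ => ?_
    rw [h3.fderiv_eq]
    simp
  have hw : ∀ v : E3, JL R v ^ 2 + gr (JL R) v ≤ (1 + L) * (if R - 44 < ‖v‖ then 1 else 0) := by
    intro v
    split_ifs with hv
    · have g1 := hLy.mem v
      have g2 := hLy.grad v
      nlinarith
    · rw [hgrz v (not_lt.1 hv), hz0 v (by linarith [not_lt.1 hv])]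
      norm_num
  have hgc : Continuous (fun v => gr (JL R) v) := by
    unfold gr
    have h1 : Continuous (fderiv ℝ (JL R)) := hLy.smooth.continuous_fderiv (by simp)
    exact continuous_finsetSum _ fun d _ => ((h1.clm_apply continuous_const).pow 2)
  have hJc := hLy.smooth.continuous
  have hM : mM Ψ (fun p => ∑ a, (JL R (p.1 a) ^ 2 + gr (JL R) (p.1 a)) +
      ∑ j, (JL R (p.2 j) ^ 2 + gr (JL R) (p.2 j))) ≤
      (1 + L) * mM Ψ (fun p => shl (R - 44) p) := by
    unfold mM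
    rw [mul_sum]
    refine sum_le_sum fun i _ => ?_
    rw [← mean_cmul]
    refine mean_mono (IM.cont (hsm i) ?_) ((tl_shl (hsm i) _).cmul _) fun σ p _ => ?_
    · refine Continuous.add (continuous_finsetSum _ fun a _ => ?_)
        (continuous_finsetSum _ fun j _ => ?_)
      · exact ((hJc.comp ((continuous_apply a).comp continuous_fst)).pow 2).add
          (hgc.comp ((continuous_apply a).comp continuous_fst))
      · exact ((hJc.comp ((continuous_apply j).comp continuous_snd)).pow 2).add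
          (hgc.comp ((continuous_apply j).comp continuous_snd))
    · unfold shl
      rw [mul_add, mul_sum, mul_sum]
      exact add_le_add (sum_le_sum fun a _ => hw _) (sum_le_sum fun j _ => hw _)
  -- the error
  have hδ := hG.hδ
  have hN : ((n : ℝ) + k + I) * δ ≤ 1 + I := by
    have hN0 : (0 : ℝ) ≤ (n : ℝ) + k := by positivity
    have g1 : (n : ℝ) + k + 1 ≤ ((n : ℝ) + k + 1) ^ 4 := by
      have : (1 : ℝ) ≤ (n : ℝ) + k + 1 := by linarith
      exact le_self_pow₀ this (by norm_num)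
    have g2 : δ ≤ ((n : ℝ) + k + 1)⁻¹ := hδ4.trans (inv_anti₀ (by linarith) g1)
    have g3 : ((n : ℝ) + k + 1) * δ ≤ 1 := by
      calc ((n : ℝ) + k + 1) * δ ≤ ((n : ℝ) + k + 1) * ((n : ℝ) + k + 1)⁻¹ :=
            mul_le_mul_of_nonneg_left g2 (by linarith)
        _ = 1 := mul_inv_cancel₀ (by linarith)
    have g4 : δ ≤ 1 := by nlinarith
    nlinarith
  -- the sum
  obtain ⟨S, hS⟩ : ∃ S : ℝ, S = mM Ψ (fun p => shl (R - 44) p) := ⟨_, rfl⟩
  have hS0 : 0 ≤ S := by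
    rw [hS]
    refine mM_nonneg Ψ fun p => ?_
    unfold shl
    refine add_nonneg (sum_nonneg fun a _ => ?_) (sum_nonneg fun a _ => ?_) <;>
      (split_ifs <;> norm_num)
  obtain ⟨U, hU⟩ : ∃ U : ℝ, U = ∫ x in shc (R - 44) (R - 37),
      (WM χ θ W z Ψ x + SM θ Ψ x) := ⟨_, rfl⟩
  have hU0 : 0 ≤ U := by
    rw [hU]
    exact integral_nonneg fun x => add_nonneg (WM_nonneg _ _ _ _ _ _) (SM_nonneg _ _ _)
  rw [← hS] at hM ⊢
  rw [← hU] at hI ⊢
  have hsum := sum_le_sum fun i (_ : i ∈ (univ : Finset ι)) => ht i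
  rw [← mul_sum, ← hc0] at hsum
  have e1 : ∑ i, ((3 / 4) * (∑ a, kE (mf (fun p => JL R (p.1 a)) (Ψ i)) a +
        ∑ j, κ j * kN (mf (fun p => JL R (p.2 j)) (Ψ i)) j) +
      mean (Ψ i) (fun p => ∑ j, z j * (JL R (p.2 j) ^ 2 *
          (phiN z j p (p.2 j) - pr χ W z p)) -
        ∑ a, JL R (p.1 a) ^ 2 * (phiE z a p (p.1 a) - pr χ W z p)) +
      C2 * ((∫ x in shc (R - 44) (R - 37), (WW χ θ W z (Ψ i) x + SS θ (Ψ i) x)) +
        mean (Ψ i) (fun p => shl (R - 44) p))) =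
      ∑ i, ((3 / 4) * (∑ a, kE (mf (fun p => JL R (p.1 a)) (Ψ i)) a +
        ∑ j, κ j * kN (mf (fun p => JL R (p.2 j)) (Ψ i)) j) +
      mean (Ψ i) (fun p => ∑ j, z j * (JL R (p.2 j) ^ 2 *
          (phiN z j p (p.2 j) - pr χ W z p)) -
        ∑ a, JL R (p.1 a) ^ 2 * (phiE z a p (p.1 a) - pr χ W z p))) + C2 * (U + S) := by
    have e2 : ∑ i, ((∫ x in shc (R - 44) (R - 37), (WW χ θ W z (Ψ i) x + SS θ (Ψ i) x)) +
        mean (Ψ i) (fun p => shl (R - 44) p)) = U + S := by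
      rw [sum_add_distrib, hI, hS]
      rfl
    rw [sum_add_distrib, ← mul_sum, e2]
  rw [e1] at hsum
  have hR2 : 1 ≤ R ^ 2 := by nlinarith
  have hfin : c0 * ∑ i, TO (Ψ i) (R - 40) ≤
      (C1 * (1 + L) + C1 * 1201 + C2) * (R ^ 2 + U + S) := by
    refine hsum.trans ?_
    have k1 : C1 * (mM Ψ (fun p => ∑ a, (JL R (p.1 a) ^ 2 + gr (JL R) (p.1 a)) +
        ∑ j, (JL R (p.2 j) ^ 2 + gr (JL R) (p.2 j))) + I + ((n : ℝ) + k + I) * δ) ≤
        C1 * ((1 + L) * S + 1201 * R ^ 2) := by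
      refine mul_le_mul_of_nonneg_left ?_ hC1
      linarith
    have k2 : 0 ≤ C1 * (1 + L) * (R ^ 2 + U) := by positivity
    have k3 : 0 ≤ C1 * 1201 * (U + S) := by positivity
    have k4 : 0 ≤ C2 * R ^ 2 := by positivity
    linarith
  have hfin2 : ∑ i, TO (Ψ i) (R - 40) = c0⁻¹ * (c0 * ∑ i, TO (Ψ i) (R - 40)) := by
    rw [← mul_assoc, inv_mul_cancel₀ hc0p.ne', one_mul]
  rw [hfin2, mul_assoc]
  exact mul_le_mul_of_nonneg_left hfin (by positivity)

end H6.CT
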