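import Pool.Agent.H6.CT.InstT
import Pool.Agent.H6.CT.TLocLT

/-! Equilibrium states in balls satisfy the inequalities `Ine`: `wwT`, `sm32T`, `tlocT`, `tlocLT`; take the maximum of the constants. (Not needed for the main theorem.) -/

open MeasureTheory Finset

namespace H6.CT

open H6.CM H6.CB H6.CL

theorem instT (q : ℕ) (T zm zp κm κp A Kv : ℝ) (hT : 0 ≤ T) (hzm : 0 < zm) (hκm : 0 < κm)
    (hA : 0 ≤ A) (hKv : 0 ≤ Kv) {χ θ : E3 → ℝ} (hχ : Bump χ) (hθ : Cut θ) : ∃ Ci : ℝ, 0 ≤ Ci ∧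
    ∀ (ι : Type) (_ : Fintype ι) (n k : ℕ) (R : ℝ) (_ : 100 ≤ R) (z κ : Fin k → ℝ)
    (W : Finset E3) (δ : ℝ) (Ψ : ι → (Fin n → Fin q) → Cfg n k → ℂ)
    (_ : Gt q T zm zp κm κp A Kv n k (Metric.ball 0 R) z κ W δ Ψ)
    (_ : δ ≤ (((n : ℝ) + k + 1) ^ 4)⁻¹),
    Ine Ci zm zp q n k R z W χ θ Ψ := by
  sorry

end H6.CT
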