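import Pool.Agent.H6.CT.RelW
import Pool.Agent.H6.CB.P12

/-! The total kinetic energy: add `relEW` and `relNW` with `J = 1`, `η = 1/2` and the single amplitude `f = 1` (`M = 1`, `x = 0`, `Cf = 1`, index type `Unit`); the reference potential cancels by neutrality, the Coulomb terms add up to `2 * V`, and `stabD` with `δ = 1/8`. -/

open MeasureTheory Finset

namespace H6.CT

open H6.CM H6.CB H6.CL

private theorem ktt_vsum {q n k : ℕ} {Λ : Set E3} {ψ : (Fin n → Fin q) → Cfg n k → ℂ}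
    (hψ : St q n k Λ ψ) (z : Fin k → ℝ) :
    ∑ j, z j * mean ψ (fun p => phiN z j p (p.2 j)) -
      ∑ a, mean ψ (fun p => phiE z a p (p.1 a)) = 2 * mean ψ (V z) := by
  have hS := St_sm hψ
  have e1 : ∑ j, z j * mean ψ (fun p => phiN z j p (p.2 j)) =
      mean ψ (fun p => ∑ j, z j * phiN z j p (p.2 j)) := by
    rw [mean_sum univ fun j _ => (IM_phiN hS z j).cmul (z j)]
    exact sum_congr rfl fun j _ => (mean_cmul _ _).symm
  have e2 : ∑ a, mean ψ (fun p => phiE z a p (p.1 a)) =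
      mean ψ (fun p => ∑ a, phiE z a p (p.1 a)) :=
    (mean_sum univ fun a _ => IM_phiE hS z a).symm
  have i1 : IM ψ (fun p => ∑ j, z j * phiN z j p (p.2 j)) :=
    IM.sum univ fun j _ => (IM_phiN hS z j).cmul (z j)
  have i2 : IM ψ (fun p => ∑ a, phiE z a p (p.1 a)) := IM.sum univ fun a _ => IM_phiE hS z a
  rw [e1, e2, ← mean_sub i1 i2, ← mean_cmul]
  congr 1
  funext p
  exact sum_rule z p

private theorem ktt_gr0 (c : ℝ) (v : E3) : gr (fun _ => c) v = 0 := by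
  unfold gr
  refine sum_eq_zero fun d _ => ?_
  simp

private theorem ktt_gm {n k : ℕ} (κ : Fin k → ℝ) (p : Cfg n k) :
    Gm κ (fun _ : Cfg n k => (1 : ℝ)) p = 0 := by
  unfold Gm
  simp only [ktt_gr0, mul_zero, sum_const_zero, add_zero]

theorem ktotT (q : ℕ) (T zm zp κm κp A Kv : ℝ) (hT : 0 ≤ T) (hzm : 0 < zm) (hκm : 0 < κm)
    (hA : 0 ≤ A) (hKv : 0 ≤ Kv) {χ : E3 → ℝ} (hχ : Bump χ) :
    ∃ C : ℝ, 0 ≤ C ∧
    ∀ (ι : Type) (_ : Fintype ι) (n k : ℕ) (Λ : Set E3) (z κ : Fin k → ℝ) (W : Finset E3)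
    (δ : ℝ) (Ψ : ι → (Fin n → Fin q) → Cfg n k → ℂ)
    (_ : Gt q T zm zp κm κp A Kv n k Λ z κ W δ Ψ) (_ : δ ≤ 1),
    ∑ i, (∑ a, kE (Ψ i) a + ∑ j, κ j * kN (Ψ i) j) ≤ C * (n + k) := by
  obtain ⟨C1, hC1, hE⟩ := relEW q T zm zp κm κp A Kv hT hzm hκm hA hKv hχ (1 / 2) (by norm_num)
  obtain ⟨C2, hC2, hN⟩ := relNW q T zm zp κm κp A Kv hT hzm hκm hA hKv hχ (1 / 2) (by norm_num)
  obtain ⟨Cs, hCs, hS⟩ := stabD q zp (1 / 8) (by norm_num)
  refine ⟨4 * ((C1 + C2) * (2 * (1 + Kv)) + 2 * Cs), by positivity, ?_⟩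
  intro ι _ n k Λ z κ W δ Ψ hG hδ1
  have hAm : Am (n := n) (k := k) (fun (_ : Unit) (_ : Cfg n k) => (1 : ℝ)) (fun _ => 1)
      (fun _ => 0) 1 :=
    ⟨fun _ => contDiff_const, fun _ _ _ => rfl, fun _ _ => by simp, fun _ => le_rfl, by simp⟩
  have h1 := hE ι _ n k Λ z κ W δ Ψ hG Unit _ _ _ _ _ hAm (fun _ => 1) contDiff_const
    (fun _ => ⟨zero_le_one, le_rfl⟩)
  have h2 := hN ι _ n k Λ z κ W δ Ψ hG Unit _ _ _ _ _ hAm (fun _ => 1) contDiff_const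
    (fun _ => ⟨zero_le_one, le_rfl⟩)
  have eE : ∀ (a : Fin n) (ψ : (Fin n → Fin q) → Cfg n k → ℂ),
      mE (fun _ => (1 : ℝ)) (fun _ => 1) a ψ = ψ := by
    intro a ψ
    unfold mE mf
    funext σ p
    simp
  have eN : ∀ (j : Fin k) (ψ : (Fin n → Fin q) → Cfg n k → ℂ),
      mN (fun _ => (1 : ℝ)) (fun _ => 1) j ψ = ψ := by
    intro a ψ
    unfold mN mf
    funext σ p
    simp
  have hm1 : ∑ i, mean (Ψ i) (fun _ => (1 : ℝ)) = 1 :=
    (sum_congr rfl fun i _ => mean_one).trans hG.eq.one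
  have hvol : ∫ _v in Λ, (1 : ℝ) = (volume Λ).toReal := by
    rw [setIntegral_const, smul_eq_mul, mul_one, Measure.real]
  have hm0 : ∀ i, mean (Ψ i) (fun _ => (0 : ℝ)) = 0 := by
    intro i
    unfold mean
    simp
  simp only [univ_unique, sum_singleton, eE, eN, one_mul, ktt_gm, zero_add, one_pow,
    mul_one, hvol, sum_const_zero, hm0, add_zero] at h1 h2
  have e1 : ∑ i, ∑ _a : Fin n, mean (Ψ i) (fun _ => (1 : ℝ)) = n := by
    rw [sum_comm, hm1]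
    simp
  have e2 : ∑ i, ∑ _a : Fin k, mean (Ψ i) (fun _ => (1 : ℝ)) = k := by
    rw [sum_comm, hm1]
    simp
  rw [e1] at h1
  rw [e2] at h2
  obtain ⟨v, hv⟩ : ∃ v : ℝ, v = (volume Λ).toReal := ⟨_, rfl⟩
  have hv0 : 0 ≤ v := by rw [hv]; exact ENNReal.toReal_nonneg
  have hvK : v ≤ Kv * n := by rw [hv]; exact hG.hV
  have hvol' : volume.real Λ = v := by rw [hv]; rfl
  rw [← hv] at h1 h2
  have hκ0 : ∀ j, 0 ≤ κ j := fun j => hκm.le.trans (hG.hκ j).1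
  have hδ0 := hG.hδ
  have hn : (0 : ℝ) ≤ n := Nat.cast_nonneg n
  have hk : (0 : ℝ) ≤ k := Nat.cast_nonneg k
  -- for one member of the family
  have key : ∀ i, (1 / 4) * (∑ a, kE (Ψ i) a + ∑ j, κ j * kN (Ψ i) j) ≤
      (∑ a, ((1 - 1 / 2) * kE (Ψ i) a - mean (Ψ i) (fun p => phiE z a p (p.1 a)) +
        mean (Ψ i) (fun p => pr χ W z p))) +
      (∑ j, ((1 - 1 / 2) * (κ j * kN (Ψ i) j) +
        z j * mean (Ψ i) (fun p => phiN z j p (p.2 j)) -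
        z j * mean (Ψ i) (fun p => pr χ W z p))) + 2 * (Cs * (n + k)) * mass (Ψ i) := by
    intro i
    have hst := hG.eq.st i
    have a1 := hS n k Λ z (fun j => ⟨hzm.le.trans (hG.hz j).1, (hG.hz j).2⟩) (Ψ i) hst
    have a2 := ktt_vsum hst z
    have a3 : ∑ j, z j * mean (Ψ i) (fun p => pr χ W z p) =
        n * mean (Ψ i) (fun p => pr χ W z p) := by
      rw [← sum_mul, hG.neu]
    have a4 : ∑ _a : Fin n, mean (Ψ i) (fun p => pr χ W z p) =
        n * mean (Ψ i) (fun p => pr χ W z p) := by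
      simp
    have a5 : 0 ≤ ∑ a, kE (Ψ i) a := sum_nonneg fun a _ => kE_nonneg _ a
    have a6 : 0 ≤ ∑ j, κ j * kN (Ψ i) j :=
      sum_nonneg fun j _ => mul_nonneg (hκ0 j) (kN_nonneg _ j)
    simp only [sum_add_distrib, sum_sub_distrib, ← mul_sum (a := (1 - 1 / 2 : ℝ))]
    rw [a3, a4]
    linarith
  have s1 := sum_le_sum fun i (_ : i ∈ (univ : Finset ι)) => key i
  rw [sum_add_distrib, sum_add_distrib, ← mul_sum, ← mul_sum, hG.eq.one, mul_one] at s1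
  have b1 : C1 * ((n : ℝ) + v + ((n : ℝ) + v) * δ) ≤
      C1 * (2 * (1 + Kv) * (n + k)) := by
    refine mul_le_mul_of_nonneg_left ?_ hC1
    have g1 : ((n : ℝ) + v) * δ ≤ ((n : ℝ) + v) * 1 :=
      mul_le_mul_of_nonneg_left hδ1 (by positivity)
    have g2 : 0 ≤ Kv * k := by positivity
    linarith
  have b2 : C2 * ((k : ℝ) + v + ((k : ℝ) + v) * δ) ≤
      C2 * (2 * (1 + Kv) * (n + k)) := by
    refine mul_le_mul_of_nonneg_left ?_ hC2
    have g1 : ((k : ℝ) + v) * δ ≤ ((k : ℝ) + v) * 1 :=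
      mul_le_mul_of_nonneg_left hδ1 (by positivity)
    have g2 : 0 ≤ Kv * k := by positivity
    linarith
  have e : 4 * ((C1 + C2) * (2 * (1 + Kv)) + 2 * Cs) * ((n : ℝ) + k) =
      4 * (C1 * (2 * (1 + Kv) * (n + k)) + C2 * (2 * (1 + Kv) * (n + k)) +
        2 * (Cs * (n + k))) := by ring
  rw [e]
  linarith

end H6.CT
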