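import Pool.Agent.H6.CT.P12T
import Pool.Agent.H6.CT.AmpT
import Pool.Agent.H6.CB.Sm1

/-! The second moment of the relative potential with a localisation `g`. Let `u p = uh χ s W z p v`. Apply `p1T` to the family `fA (1/2) u g` and `p2T` to the family `fA (1/2) (-u) g` (`b : Fin (L + 1)`, with `L` the least integer above `arsinh` of the bound `C n s⁻¹` of `|u|`, `uh_bd`; so `∑ M b ^ 2 ≤ C (1 + n s⁻¹)` by `amp_M`) and add. `ec (1/2) = eh`; the left sides give `⟨g² (u eh u ^ 2 + (-u) eh (-u) ^ 2)⟩ ≥ ⟨g² (2 u² - 1)⟩` (`amp_sum`, `eh_two`). On the right: `amp_x`, `eh ^ 2 ≤ 1 + 2 |u|`, `(1 + 2 |u|) (lam + 4 + 2 arsinh |u|) ≤ η u² + C (1 + lam²)`, `(1 + 2 |u|) (s⁻⁴ + s⁻¹ ce + log (1 + cn)) ≤ η u² + C (1 + s⁻⁸ + s⁻² ce² + log (1 + cn) ^ 2)` and `log (1 + cn p v 2) ^ 2 ≤ C (1 + cn p v 2) ≤ C (1 + 16 * q4 s p v)`. Gradients: `amp_gm`, `gm_uh`, `Gm κ g ≤ γ g`, `γ |u| g ≤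 η u² g² + γ² / η`. Compare the proof of `sm1` in `Pool/Agent/H6/CB/Sm1.lean`. -/

open MeasureTheory Finset

namespace H6.CT

open H6.CM H6.CB H6.CL

private theorem s1_mono {ι : Type} [Fintype ι] {q n k : ℕ} {Ψ : ι → (Fin n → Fin q) → Cfg n k → ℂ}
    {F G : Cfg n k → ℝ} (hF : ∀ i, IM (Ψ i) F) (hG : ∀ i, IM (Ψ i) G)
    (h : ∀ i σ p, Ψ i σ p ≠ 0 → F p ≤ G p) : mM Ψ F ≤ mM Ψ G :=
  sum_le_sum fun i _ => mean_mono (hF i) (hG i) (h i)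

private theorem s1_add {ι : Type} [Fintype ι] {q n k : ℕ} {Ψ : ι → (Fin n → Fin q) → Cfg n k → ℂ}
    {F G : Cfg n k → ℝ} (hF : ∀ i, IM (Ψ i) F) (hG : ∀ i, IM (Ψ i) G) :
    mM Ψ (fun p => F p + G p) = mM Ψ F + mM Ψ G := by
  unfold mM
  rw [← sum_add_distrib]
  exact sum_congr rfl fun i _ => mean_add (hF i) (hG i)

private theorem s1_cmul {ι : Type} [Fintype ι] {q n k : ℕ} {Ψ : ι → (Fin n → Fin q) → Cfg n k → ℂ}
    (c : ℝ) (F : Cfg n k → ℝ) : mM Ψ (fun p => c * F p) = c * mM Ψ F := by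
  unfold mM
  rw [mul_sum]
  exact sum_congr rfl fun i _ => mean_cmul c F

private theorem s1_const {ι : Type} [Fintype ι] {q n k : ℕ} {Ψ : ι → (Fin n → Fin q) → Cfg n k → ℂ}
    (h : ∑ i, mass (Ψ i) = 1) (c : ℝ) : mM Ψ (fun _ => c) = c := by
  unfold mM
  simp only [mean_const]
  rw [← mul_sum, h, mul_one]

private theorem s1_q4 {n k : ℕ} (s : ℝ) (hs : 0 < s) (v : E3) :
    Continuous (fun p : Cfg n k => q4 s p v) := by
  unfold q4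
  have hmx : ∀ x : ℝ, (max s x) ^ 4 ≠ 0 := fun x => pow_ne_zero _ (lt_of_lt_of_le hs (le_max_left _ _)).ne'
  refine Continuous.add ?_ ?_
  · refine continuous_finsetSum _ fun a _ => ?_
    refine Continuous.inv₀ ?_ fun p => hmx _
    exact (continuous_const.max (((continuous_apply a).comp continuous_fst).sub continuous_const).norm).pow 4
  · refine continuous_finsetSum _ fun j _ => ?_
    refine Continuous.inv₀ ?_ fun p => hmx _
    exact (continuous_const.max (((continuous_apply j).comp continuous_snd).sub continuous_const).norm).pow 4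

private theorem s1_q4n {n k : ℕ} (s : ℝ) (hs : 0 < s) (p : Cfg n k) (v : E3) : 0 ≤ q4 s p v := by
  unfold q4
  exact add_nonneg (sum_nonneg fun a _ => by positivity) (sum_nonneg fun a _ => by positivity)

/-- sums over the family for one wave function -/
private theorem s1_q {q n k : ℕ} {Λ : Set E3} {ψ : (Fin n → Fin q) → Cfg n k → ℂ} (hS : Sm q n k Λ ψ)
    {β : Type} [Fintype β] (F : β → Cfg n k → ℝ) (hF : ∀ b, Continuous (F b)) (x : β → ℝ)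
    (Y : Cfg n k → ℝ) (hYm : Measurable Y) (M : ℝ) (hYb : ∀ p, |Y p| ≤ M)
    (R T : Cfg n k → ℝ) (hR : ∀ p, ∑ b, F b p ^ 2 = R p) (hRc : Continuous R) (hTc : Continuous T)
    (hT : ∀ p, ∑ b, x b * F b p ^ 2 ≤ T p) :
    IM ψ (fun p => T p + R p * Y p) ∧
    ∑ b, mean (mf (F b) ψ) (fun p => x b + Y p) ≤ mean ψ (fun p => T p + R p * Y p) := by
  have iT : IM ψ T := IM.cont hS hTc
  have iR : IM ψ (fun p => R p * Y p) :=
    ((IM.cont hS hRc).bmul hYm M hYb).congr fun _ p _ => by ring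
  refine ⟨iT.add iR, ?_⟩
  simp only [mean_mf]
  have iF : ∀ b, IM ψ (fun p => F b p ^ 2) := fun b => IM.cont hS ((hF b).pow 2)
  have iFx : ∀ b, IM ψ (fun p => F b p ^ 2 * (x b + Y p)) := fun b =>
    (((iF b).cmul (x b)).add ((iF b).bmul hYm M hYb)).congr (fun _ p _ => by ring)
  rw [← mean_sum univ fun b _ => iFx b]
  refine mean_mono (IM.sum univ fun b _ => iFx b) (iT.add iR) fun _ p _ => ?_
  have h1 : ∑ b, F b p ^ 2 * (x b + Y p) = ∑ b, x b * F b p ^ 2 + R p * Y p := by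
    rw [← hR p, Finset.sum_mul, ← Finset.sum_add_distrib]
    exact Finset.sum_congr rfl fun b _ => by ring
  have := hT p
  linarith

private theorem ec_cont (c : ℝ) : Continuous (ec c) := by
  unfold ec
  exact Real.continuous_exp.comp (continuous_const.mul Real.continuous_arsinh)

private theorem ec_nonneg (c u : ℝ) : 0 ≤ ec c u := (Real.exp_pos _).le

/-- the least bound for `arsinh` -/
private theorem s1_L {B : ℝ} (hB : 0 ≤ B) : ∃ L : ℕ, (∀ x : ℝ, |x| ≤ B → Real.arsinh x ≤ L) ∧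
    2 * Real.exp (L + 1) ≤ 18 * (1 + 2 * B) := by
  refine ⟨⌈Real.arsinh B⌉₊, fun x hx => ?_, ?_⟩
  · exact (Real.arsinh_le_arsinh.2 ((le_abs_self x).trans hx)).trans (Nat.le_ceil _)
  · have h0 : 0 ≤ Real.arsinh B := Real.arsinh_nonneg_iff.2 hB
    have h1 : (⌈Real.arsinh B⌉₊ : ℝ) < Real.arsinh B + 1 := Nat.ceil_lt_add_one h0
    have h2 : Real.exp (⌈Real.arsinh B⌉₊ + 1) ≤ Real.exp (Real.arsinh B + 2) :=
      Real.exp_le_exp.2 (by linarith)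
    have h3 : Real.exp (Real.arsinh B + 2) = (B + Real.sqrt (1 + B ^ 2)) * Real.exp 2 := by
      rw [Real.exp_add, Real.exp_arsinh]
    have h4 : Real.sqrt (1 + B ^ 2) ≤ 1 + B := by
      rw [Real.sqrt_le_left (by positivity)]
      nlinarith
    have h5 : Real.exp 2 ≤ 9 := by
      have h6 := Real.exp_one_lt_d9
      have h7 : Real.exp 2 = Real.exp 1 ^ 2 := by
        rw [← Real.exp_nat_mul]
        norm_num
      rw [h7]
      have h8 := Real.exp_pos 1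
      nlinarith
    have h9 : (B + Real.sqrt (1 + B ^ 2)) * Real.exp 2 ≤ (1 + 2 * B) * 9 :=
      mul_le_mul (by linarith) h5 (Real.exp_pos _).le (by linarith)
    linarith

private theorem s1_fin {C1 C2 Cu G I1 I2 b1 b2 G1 G2 m X1 X2 X3 X4 H e D : ℝ} (hC1 : 0 ≤ C1) (hC2 : 0 ≤ C2)
    (hCu : 0 ≤ Cu) (hG : 0 ≤ G) (s1 : I1 ≤ C1 * (b1 + e + G1 + m)) (s2 : -I2 ≤ C2 * (b2 + e + G2 + m))
    (q1 : b1 ≤ X1) (q2 : b2 ≤ X2) (g1 : G1 ≤ X3) (g2 : G2 ≤ X4) (hm : m ≤ 19 * (1 + 2 * Cu) * D)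
    (hle : X1 + X2 + (X3 + X4) ≤ (1 + 2 * G) * H) (hH : 0 ≤ H) (he : 0 ≤ e) (hD : 0 ≤ D) (e1 : 0 ≤ b1)
    (e2 : 0 ≤ G1) (e3 : 0 ≤ m) (e4 : 0 ≤ b2) (e5 : 0 ≤ G2) :
    I1 - I2 ≤ (C1 + C2 + 1) * (1 + 2 * G + 2 + 38 * (1 + 2 * Cu)) * (H + e + D) := by
  have hCC : 0 ≤ C1 + C2 + 1 := by linarith
  have t1 : I1 ≤ (C1 + C2 + 1) * (X1 + e + X3 + 19 * (1 + 2 * Cu) * D) :=
    s1.trans (mul_le_mul (by linarith) (by linarith) (by linarith) hCC)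
  have t2 : -I2 ≤ (C1 + C2 + 1) * (X2 + e + X4 + 19 * (1 + 2 * Cu) * D) :=
    s2.trans (mul_le_mul (by linarith) (by linarith) (by linarith) hCC)
  calc I1 - I2 ≤ (C1 + C2 + 1) * ((X1 + X2 + (X3 + X4)) + 2 * e + 38 * (1 + 2 * Cu) * D) := by linarith
    _ ≤ (C1 + C2 + 1) * ((1 + 2 * G) * H + 2 * e + 38 * (1 + 2 * Cu) * D) :=
        mul_le_mul_of_nonneg_left (by linarith) hCC
    _ ≤ (C1 + C2 + 1) * ((1 + 2 * G + 2 + 38 * (1 + 2 * Cu)) * (H + e + D)) := by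
        refine mul_le_mul_of_nonneg_left ?_ hCC
        have e1 : 0 ≤ (2 + 38 * (1 + 2 * Cu)) * H := by positivity
        have e2 : 0 ≤ (1 + 2 * G + 38 * (1 + 2 * Cu)) * e := by positivity
        have e3 : 0 ≤ (1 + 2 * G + 2) * D := by positivity
        linarith
    _ = (C1 + C2 + 1) * (1 + 2 * G + 2 + 38 * (1 + 2 * Cu)) * (H + e + D) := by ring

/-- the two potential inequalities for the families of amplitudes, added -/
theorem amp_two (q : ℕ) (T zm zp κm κp A Kv : ℝ) (hT : 0 ≤ T) (hzm : 0 < zm) (hκm : 0 < κm)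
    (hA : 0 ≤ A) (hKv : 0 ≤ Kv) {χ : E3 → ℝ} (hχ : Bump χ) :
    ∃ K : ℝ, 0 < K ∧
    ∀ (ι : Type) (_ : Fintype ι) (n k : ℕ) (Λ : Set E3) (z κ : Fin k → ℝ) (W : Finset E3)
    (δ : ℝ) (Ψ : ι → (Fin n → Fin q) → Cfg n k → ℂ)
    (_ : Gt q T zm zp κm κp A Kv n k Λ z κ W δ Ψ)
    (g : Cfg n k → ℝ) (_ : ContDiff ℝ (⊤ : ℕ∞) g) (_ : Sy g) (_ : ∀ p, 0 ≤ g p ∧ g p ≤ 1)
    (c : ℝ) (_ : 0 ≤ c) (_ : c ≤ 1 / 2) (lam : ℝ) (_ : 0 ≤ lam)
    (s : ℝ) (_ : 0 < s) (_ : s ≤ 1) (v : E3) (_ : Metric.closedBall v 2 ⊆ Λ)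
    (u : Cfg n k → ℝ) (_ : u = fun p => uh χ s W z p v),
    mM Ψ (fun p => g p ^ 2 * (ec c (u p) ^ 2 * u p - ec c (-u p) ^ 2 * u p)) ≤
      K * (mM Ψ (fun p => g p ^ 2 * ((lam + 4 + 2 * |Real.arsinh (u p)| + (s ^ 4)⁻¹ +
          s⁻¹ * ce p v (2 * s)) * ec c (u p) ^ 2 +
        (lam + 4 + 2 * |Real.arsinh (u p)| + (s ^ 2)⁻¹ + Real.log (1 + cn p v 2)) * ec c (-u p) ^ 2) +
        2 * (ec c (u p) ^ 2 + ec c (-u p) ^ 2) * Gm κ g p + g p ^ 2 * (q4 s p v + A)) +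
        Real.exp (-lam) + (1 + n * s⁻¹) * δ) := by
  obtain ⟨C1, hC1, hp1⟩ := p1T q T zm zp κm κp A Kv hT hzm hκm hA hKv hχ
  obtain ⟨C2, hC2, hp2⟩ := p2T q T zm zp κm κp A Kv hT hzm hκm hA hKv hχ
  obtain ⟨Cu, hCu, hub⟩ := uh_bd hχ
  obtain ⟨Cg, hCg, hgu⟩ := gm_uh hχ zp κp
  obtain ⟨Ca, hCa, hga⟩ := amp_gm
  refine ⟨(C1 + C2 + 1) * (1 + 2 * (Ca * Cg) + 2 + 38 * (1 + 2 * Cu)), by positivity, ?_⟩
  intro ι hι n k Λ z κ W δ Ψ hG g hg hgs hg01 c hc hc1 lam hlam s hs hs1 v hv u hu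
  have hz0 : ∀ j, 0 ≤ z j := fun j => hzm.le.trans (hG.hz j).1
  have hκ0 : ∀ j, 0 ≤ κ j := fun j => hκm.le.trans (hG.hκ j).1
  have hS : ∀ i, Sm q n k Λ (Ψ i) := fun i => St_sm (hG.eq.st i)
  have hδ := hG.hδ
  have hus : ContDiff ℝ (⊤ : ℕ∞) u := by rw [hu]; exact uh_smooth hχ s hs W z v
  have huc : Continuous u := hus.continuous
  have husy : Sy u := by rw [hu]; exact uh_sy s W z v
  have hun : ContDiff ℝ (⊤ : ℕ∞) (fun p => -u p) := hus.neg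
  have hunsy : Sy (fun p => -u p) := fun π p => by
    show -u (p.1 ∘ π, p.2) = -u p
    rw [husy π p]
  have hub1 : ∀ p, |u p| ≤ Cu * n * s⁻¹ := by
    intro p
    rw [hu]
    exact hub n k z hz0 hG.neu W s hs hs1 p v
  have hB0 : 0 ≤ Cu * n * s⁻¹ := by positivity
  obtain ⟨L, hL, hLe⟩ := s1_L hB0
  have hL1 : ∀ p, Real.arsinh (u p) ≤ L := fun p => hL _ (hub1 p)
  have hL2 : ∀ p, Real.arsinh (-u p) ≤ L := fun p => hL _ (by rw [abs_neg]; exact hub1 p)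
  have hAm1 := amp_am c hc hc1 lam L u g hus husy hg hgs hg01 hlam
  have hAm2 := amp_am c hc hc1 lam L (fun p => -u p) g hun hunsy hg hgs hg01 hlam
  have s1 := hp1 ι hι n k Λ z κ W δ Ψ hG (Fin (L + 1)) inferInstance _ _ _ _ hAm1 s hs hs1 v hv
  have s2 := hp2 ι hι n k Λ z κ W δ Ψ hG (Fin (L + 1)) inferInstance _ _ _ _ hAm2 s hs hs1 v hv
  have hu' : ∀ p, uh χ s W z p v = u p := fun p => by rw [hu]
  simp only [hu'] at s1 s2
  have hgc : Continuous g := hg.continuous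
  have hec : Continuous (fun p => ec c (u p)) := (ec_cont c).comp huc
  have hec' : Continuous (fun p => ec c (-u p)) := (ec_cont c).comp huc.neg
  have hasc : Continuous (fun p => |Real.arsinh (u p)|) := (Real.continuous_arsinh.comp huc).abs
  have hcem : ∀ p : Cfg n k, |ce p v (2 * s)| ≤ n := fun p => by
    rw [abs_of_nonneg (ce_nonneg p v _)]
    exact ce_le p v _
  have hcnm : ∀ p : Cfg n k, |Real.log (1 + cn p v 2)| ≤ k := fun p => by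
    have h1 := cn_nonneg p v 2
    have h2 := cn_le p v 2
    rw [abs_of_nonneg (Real.log_nonneg (by linarith))]
    have := Real.log_le_sub_one_of_pos (show 0 < 1 + cn p v 2 by linarith)
    linarith
  -- left sides
  have left1 : ∑ i, ∑ b : Fin (L + 1), mean (mf (fA c u g b) (Ψ i)) (fun p => u p) =
      mM Ψ (fun p => g p ^ 2 * (ec c (u p) ^ 2 * u p)) := by
    unfold mM
    refine sum_congr rfl fun i _ => ?_
    simp only [mean_mf]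
    have hi : ∀ b ∈ (univ : Finset (Fin (L + 1))), IM (Ψ i) (fun p => fA c u g b p ^ 2 * u p) := fun b _ =>
      IM.cont (hS i) (((hAm1.smooth b).continuous.pow 2).mul huc)
    rw [← mean_sum univ hi]
    refine mean_congr fun σ p _ => ?_
    rw [← sum_mul, amp_sum c L u g p (hL1 p)]
    ring
  have left2 : ∑ i, ∑ b : Fin (L + 1), mean (mf (fA c (fun p => -u p) g b) (Ψ i)) (fun p => u p) =
      mM Ψ (fun p => g p ^ 2 * (ec c (-u p) ^ 2 * u p)) := by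
    unfold mM
    refine sum_congr rfl fun i _ => ?_
    simp only [mean_mf]
    have hi : ∀ b ∈ (univ : Finset (Fin (L + 1))), IM (Ψ i) (fun p => fA c (fun p => -u p) g b p ^ 2 * u p) :=
      fun b _ => IM.cont (hS i) (((hAm2.smooth b).continuous.pow 2).mul huc)
    rw [← mean_sum univ hi]
    refine mean_congr fun σ p _ => ?_
    rw [← sum_mul, amp_sum c L (fun p => -u p) g p (hL2 p)]
    ring
  rw [left1] at s1
  rw [left2] at s2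
  -- potential terms
  have hY1m : Measurable (fun p : Cfg n k => (s ^ 4)⁻¹ + s⁻¹ * ce p v (2 * s)) :=
    measurable_const.add ((ce_meas v (2 * s)).const_mul _)
  have hY2m : Measurable (fun p : Cfg n k => (s ^ 2)⁻¹ + Real.log (1 + cn p v 2)) :=
    measurable_const.add (Real.measurable_log.comp (measurable_const.add (cn_meas v 2)))
  have hsi : 0 ≤ s⁻¹ := by positivity
  have hY1b : ∀ p : Cfg n k, |(s ^ 4)⁻¹ + s⁻¹ * ce p v (2 * s)| ≤ (s ^ 4)⁻¹ + s⁻¹ * n := fun p => by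
    have h1 := ce_nonneg p v (2 * s)
    have h2 : 0 ≤ s⁻¹ * ce p v (2 * s) := mul_nonneg hsi h1
    have h3 : 0 ≤ (s ^ 4)⁻¹ := by positivity
    rw [abs_of_nonneg (by linarith)]
    have := mul_le_mul_of_nonneg_left (ce_le p v (2 * s)) hsi
    linarith
  have hY2b : ∀ p : Cfg n k, |(s ^ 2)⁻¹ + Real.log (1 + cn p v 2)| ≤ (s ^ 2)⁻¹ + k := fun p => by
    have h3 : 0 ≤ (s ^ 2)⁻¹ := by positivity
    refine (abs_add_le _ _).trans ?_
    rw [abs_of_nonneg h3]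
    linarith [hcnm p]
  have q1 : ∀ i, _ := fun i => s1_q (hS i) (fun b : Fin (L + 1) => fA c u g b)
    (fun b => (hAm1.smooth b).continuous) (fun b => lam + 2 * ((b : ℝ) + 1))
    (fun p => (s ^ 4)⁻¹ + s⁻¹ * ce p v (2 * s)) hY1m _ hY1b
    (fun p => ec c (u p) ^ 2 * g p ^ 2)
    (fun p => (lam + 4 + 2 * |Real.arsinh (u p)|) * (ec c (u p) ^ 2 * g p ^ 2))
    (fun p => amp_sum c L u g p (hL1 p)) ((hec.pow 2).mul (hgc.pow 2))
    ((continuous_const.add (continuous_const.mul hasc)).mul ((hec.pow 2).mul (hgc.pow 2)))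
    (fun p => amp_x c lam hlam L u g p (hL1 p))
  have q2 : ∀ i, _ := fun i => s1_q (hS i) (fun b : Fin (L + 1) => fA c (fun p => -u p) g b)
    (fun b => (hAm2.smooth b).continuous) (fun b => lam + 2 * ((b : ℝ) + 1))
    (fun p => (s ^ 2)⁻¹ + Real.log (1 + cn p v 2)) hY2m _ hY2b
    (fun p => ec c (-u p) ^ 2 * g p ^ 2)
    (fun p => (lam + 4 + 2 * |Real.arsinh (u p)|) * (ec c (-u p) ^ 2 * g p ^ 2))
    (fun p => amp_sum c L (fun p => -u p) g p (hL2 p)) ((hec'.pow 2).mul (hgc.pow 2))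
    ((continuous_const.add (continuous_const.mul hasc)).mul ((hec'.pow 2).mul (hgc.pow 2)))
    (fun p => by
      have := amp_x c lam hlam L (fun p => -u p) g p (hL2 p)
      rw [Real.arsinh_neg, abs_neg] at this
      exact this)
  -- gradients
  have iG1 : ∀ i, ∀ b : Fin (L + 1), IM (Ψ i) (Gm κ (fA c u g b)) := fun i b =>
    IM.cont (hS i) (Gm_cont κ (hAm1.smooth b))
  have iG2 : ∀ i, ∀ b : Fin (L + 1), IM (Ψ i) (Gm κ (fA c (fun p => -u p) g b)) := fun i b =>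
    IM.cont (hS i) (Gm_cont κ (hAm2.smooth b))
  have iR1 : ∀ i, IM (Ψ i) (fun p => 2 * (ec c (u p) ^ 2 * Gm κ g p) + Ca * (g p ^ 2 * Gm κ u p)) := fun i =>
    IM.cont (hS i) ((continuous_const.mul ((hec.pow 2).mul (Gm_cont κ hg))).add
      (continuous_const.mul ((hgc.pow 2).mul (Gm_cont κ hus))))
  have iR2 : ∀ i, IM (Ψ i) (fun p => 2 * (ec c (-u p) ^ 2 * Gm κ g p) + Ca * (g p ^ 2 * Gm κ u p)) := fun i =>
    IM.cont (hS i) ((continuous_const.mul ((hec'.pow 2).mul (Gm_cont κ hg))).add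
      (continuous_const.mul ((hgc.pow 2).mul (Gm_cont κ hus))))
  have g1 : ∑ i, ∑ b : Fin (L + 1), mean (Ψ i) (Gm κ (fA c u g b)) ≤
      mM Ψ (fun p => 2 * (ec c (u p) ^ 2 * Gm κ g p) + Ca * (g p ^ 2 * Gm κ u p)) := by
    refine sum_le_sum fun i _ => ?_
    rw [← mean_sum univ fun b _ => iG1 i b]
    exact mean_mono (IM.sum univ fun b _ => iG1 i b) (iR1 i) fun _ p _ => hga hκ0 c hc hc1 L u g hus hg p
  have g2 : ∑ i, ∑ b : Fin (L + 1), mean (Ψ i) (Gm κ (fA c (fun p => -u p) g b)) ≤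
      mM Ψ (fun p => 2 * (ec c (-u p) ^ 2 * Gm κ g p) + Ca * (g p ^ 2 * Gm κ u p)) := by
    refine sum_le_sum fun i _ => ?_
    rw [← mean_sum univ fun b _ => iG2 i b]
    refine mean_mono (IM.sum univ fun b _ => iG2 i b) (iR2 i) fun _ p _ => ?_
    have := hga hκ0 c hc hc1 L (fun p => -u p) g hun hg p
    rw [gm_neg] at this
    exact this
  have q1' : ∑ i, ∑ b : Fin (L + 1), mean (mf (fA c u g b) (Ψ i))
      (fun p => lam + 2 * ((b : ℝ) + 1) + (s ^ 4)⁻¹ + s⁻¹ * ce p v (2 * s)) ≤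
      mM Ψ (fun p => (lam + 4 + 2 * |Real.arsinh (u p)|) * (ec c (u p) ^ 2 * g p ^ 2) +
        ec c (u p) ^ 2 * g p ^ 2 * ((s ^ 4)⁻¹ + s⁻¹ * ce p v (2 * s))) := by
    refine sum_le_sum fun i _ => ?_
    refine le_trans (le_of_eq ?_) (q1 i).2
    refine sum_congr rfl fun b _ => mean_congr fun σ p _ => ?_
    ring
  have q2' : ∑ i, ∑ b : Fin (L + 1), mean (mf (fA c (fun p => -u p) g b) (Ψ i))
      (fun p => lam + 2 * ((b : ℝ) + 1) + (s ^ 2)⁻¹ + Real.log (1 + cn p v 2)) ≤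
      mM Ψ (fun p => (lam + 4 + 2 * |Real.arsinh (u p)|) * (ec c (-u p) ^ 2 * g p ^ 2) +
        ec c (-u p) ^ 2 * g p ^ 2 * ((s ^ 2)⁻¹ + Real.log (1 + cn p v 2))) := by
    refine sum_le_sum fun i _ => ?_
    refine le_trans (le_of_eq ?_) (q2 i).2
    refine sum_congr rfl fun b _ => mean_congr fun σ p _ => ?_
    ring
  have hM := amp_M c hc hc1 L
  have hlam1 : Real.exp (-lam) ≤ 1 := Real.exp_le_one_iff.2 (by linarith)
  have hlam0 : 0 < Real.exp (-lam) := Real.exp_pos _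
  have hns : 0 ≤ (n : ℝ) * s⁻¹ := by positivity
  have hMδ : (∑ b : Fin (L + 1), Real.exp (c * ((b : ℝ) + 1)) ^ 2 + Real.exp (-lam)) * δ ≤
      19 * (1 + 2 * Cu) * ((1 + n * s⁻¹) * δ) := by
    have h1 : ∑ b : Fin (L + 1), Real.exp (c * ((b : ℝ) + 1)) ^ 2 + Real.exp (-lam) ≤
        19 * (1 + 2 * Cu) * (1 + n * s⁻¹) := by
      have h2 : Cu * n * s⁻¹ = Cu * (n * s⁻¹) := by ring
      rw [h2] at hLe
      have h3 : 0 ≤ Cu * (n * s⁻¹) := mul_nonneg hCu hns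
      nlinarith
    have := mul_le_mul_of_nonneg_right h1 hδ
    linarith
  -- assembly
  obtain ⟨X1, hX1⟩ : ∃ X1 : Cfg n k → ℝ, X1 = fun p =>
      (lam + 4 + 2 * |Real.arsinh (u p)|) * (ec c (u p) ^ 2 * g p ^ 2) +
        ec c (u p) ^ 2 * g p ^ 2 * ((s ^ 4)⁻¹ + s⁻¹ * ce p v (2 * s)) := ⟨_, rfl⟩
  obtain ⟨X2, hX2⟩ : ∃ X2 : Cfg n k → ℝ, X2 = fun p =>
      (lam + 4 + 2 * |Real.arsinh (u p)|) * (ec c (-u p) ^ 2 * g p ^ 2) +
        ec c (-u p) ^ 2 * g p ^ 2 * ((s ^ 2)⁻¹ + Real.log (1 + cn p v 2)) := ⟨_, rfl⟩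
  obtain ⟨X3, hX3⟩ : ∃ X3 : Cfg n k → ℝ, X3 = fun p =>
      2 * (ec c (u p) ^ 2 * Gm κ g p) + Ca * (g p ^ 2 * Gm κ u p) := ⟨_, rfl⟩
  obtain ⟨X4, hX4⟩ : ∃ X4 : Cfg n k → ℝ, X4 = fun p =>
      2 * (ec c (-u p) ^ 2 * Gm κ g p) + Ca * (g p ^ 2 * Gm κ u p) := ⟨_, rfl⟩
  have i1 : ∀ i, IM (Ψ i) X1 := fun i => by rw [hX1]; exact (q1 i).1
  have i2 : ∀ i, IM (Ψ i) X2 := fun i => by rw [hX2]; exact (q2 i).1
  have i3 : ∀ i, IM (Ψ i) X3 := fun i => by rw [hX3]; exact iR1 i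
  have i4 : ∀ i, IM (Ψ i) X4 := fun i => by rw [hX4]; exact iR2 i
  rw [← hX1] at q1'
  rw [← hX2] at q2'
  rw [← hX3] at g1
  rw [← hX4] at g2
  have n1 : 0 ≤ mM Ψ X1 := by
    refine sum_nonneg fun i _ => mean_nonneg fun σ p _ => ?_
    rw [hX1]
    have h1 := ce_nonneg p v (2 * s)
    have h2 : 0 ≤ |Real.arsinh (u p)| := abs_nonneg _
    positivity
  have n2 : 0 ≤ mM Ψ X2 := by
    refine sum_nonneg fun i _ => mean_nonneg fun σ p _ => ?_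
    rw [hX2]
    have h1 := cn_nonneg p v 2
    have h2 : 0 ≤ |Real.arsinh (u p)| := abs_nonneg _
    have h3 : 0 ≤ Real.log (1 + cn p v 2) := Real.log_nonneg (by linarith)
    positivity
  have n3 : 0 ≤ mM Ψ X3 := by
    refine sum_nonneg fun i _ => mean_nonneg fun σ p _ => ?_
    rw [hX3]
    have h1 := Gm_nonneg hκ0 g p
    have h2 := Gm_nonneg hκ0 u p
    positivity
  have n4 : 0 ≤ mM Ψ X4 := by
    refine sum_nonneg fun i _ => mean_nonneg fun σ p _ => ?_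
    rw [hX4]
    have h1 := Gm_nonneg hκ0 g p
    have h2 := Gm_nonneg hκ0 u p
    positivity
  have hneed : mM Ψ (fun p => g p ^ 2 * (ec c (u p) ^ 2 * u p - ec c (-u p) ^ 2 * u p)) =
      mM Ψ (fun p => g p ^ 2 * (ec c (u p) ^ 2 * u p)) - mM Ψ (fun p => g p ^ 2 * (ec c (-u p) ^ 2 * u p)) := by
    unfold mM
    rw [← sum_sub_distrib]
    refine sum_congr rfl fun i _ => ?_
    have k1 : IM (Ψ i) (fun p => g p ^ 2 * (ec c (u p) ^ 2 * u p)) :=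
      IM.cont (hS i) ((hgc.pow 2).mul ((hec.pow 2).mul huc))
    have k2 : IM (Ψ i) (fun p => g p ^ 2 * (ec c (-u p) ^ 2 * u p)) :=
      IM.cont (hS i) ((hgc.pow 2).mul ((hec'.pow 2).mul huc))
    rw [← mean_sub k1 k2]
    refine mean_congr fun σ p _ => ?_
    ring
  have hZn : ∀ p : Cfg n k, 0 ≤ q4 s p v := fun p => s1_q4n s hs p v
  obtain ⟨H, hH⟩ : ∃ H : Cfg n k → ℝ, H = fun p => g p ^ 2 * ((lam + 4 + 2 * |Real.arsinh (u p)| + (s ^ 4)⁻¹ +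
          s⁻¹ * ce p v (2 * s)) * ec c (u p) ^ 2 +
        (lam + 4 + 2 * |Real.arsinh (u p)| + (s ^ 2)⁻¹ + Real.log (1 + cn p v 2)) * ec c (-u p) ^ 2) +
        2 * (ec c (u p) ^ 2 + ec c (-u p) ^ 2) * Gm κ g p + g p ^ 2 * (q4 s p v + A) := ⟨_, rfl⟩
  have iH : ∀ i, IM (Ψ i) H := fun i => by
    have j1 : IM (Ψ i) (fun p => 2 * (ec c (u p) ^ 2 + ec c (-u p) ^ 2) * Gm κ g p) :=
      IM.cont (hS i) ((continuous_const.mul ((hec.pow 2).add (hec'.pow 2))).mul (Gm_cont κ hg))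
    have j2 : IM (Ψ i) (fun p => g p ^ 2 * (q4 s p v + A)) :=
      IM.cont (hS i) ((hgc.pow 2).mul ((s1_q4 s hs v).add continuous_const))
    refine (((i1 i).add (i2 i)).add (j1.add j2)).congr fun σ p _ => ?_
    rw [hX1, hX2, hH]
    ring
  have hle : mM Ψ X1 + mM Ψ X2 + (mM Ψ X3 + mM Ψ X4) ≤ (1 + 2 * (Ca * Cg)) * mM Ψ H := by
    rw [← s1_add i1 i2, ← s1_add i3 i4, ← s1_add (fun i => (i1 i).add (i2 i)) (fun i => (i3 i).add (i4 i)),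
      ← s1_cmul]
    refine s1_mono (fun i => ((i1 i).add (i2 i)).add ((i3 i).add (i4 i))) (fun i => (iH i).cmul _)
      fun i σ p hp => ?_
    have hGu := hgu n k z κ (fun j => ⟨hz0 j, (hG.hz j).2⟩) (fun j => ⟨hκ0 j, (hG.hκ j).2⟩) W (hG.rf i).ne s hs hs1
      v A p ((hG.rf i).bd σ p hp)
    have hGu' : Gm κ u p ≤ Cg * (q4 s p v + A) := by rw [hu]; exact hGu
    have h1 : Ca * (g p ^ 2 * Gm κ u p) ≤ Ca * Cg * (g p ^ 2 * (q4 s p v + A)) := by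
      have h2 := mul_le_mul_of_nonneg_left hGu' (mul_nonneg hCa (sq_nonneg (g p)))
      linarith
    have h0 : 0 ≤ Ca * Cg := mul_nonneg hCa hCg
    have h3 : X1 p + X2 p + 2 * (ec c (u p) ^ 2 + ec c (-u p) ^ 2) * Gm κ g p + g p ^ 2 * (q4 s p v + A) = H p := by
      rw [hX1, hX2, hH]
      ring
    have h4 : g p ^ 2 * (q4 s p v + A) ≤ H p := by
      rw [← h3]
      have e1 : 0 ≤ X1 p := by
        rw [hX1]
        have h1 := ce_nonneg p v (2 * s)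
        have h2 : 0 ≤ |Real.arsinh (u p)| := abs_nonneg _
        positivity
      have e2 : 0 ≤ X2 p := by
        rw [hX2]
        have h1 := cn_nonneg p v 2
        have h2 : 0 ≤ |Real.arsinh (u p)| := abs_nonneg _
        have h3 : 0 ≤ Real.log (1 + cn p v 2) := Real.log_nonneg (by linarith)
        positivity
      have e3 := Gm_nonneg hκ0 g p
      have e4 : 0 ≤ 2 * (ec c (u p) ^ 2 + ec c (-u p) ^ 2) * Gm κ g p := by positivity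
      linarith
    have h5 : X3 p + X4 p ≤ 2 * (ec c (u p) ^ 2 + ec c (-u p) ^ 2) * Gm κ g p +
        2 * (Ca * Cg) * (g p ^ 2 * (q4 s p v + A)) := by
      rw [hX3, hX4]
      dsimp only
      linarith
    have h6 : 2 * (Ca * Cg) * (g p ^ 2 * (q4 s p v + A)) ≤ 2 * (Ca * Cg) * H p :=
      mul_le_mul_of_nonneg_left h4 (by linarith)
    have h7 : 0 ≤ g p ^ 2 * (q4 s p v + A) := mul_nonneg (sq_nonneg _) (add_nonneg (hZn p) hA)
    show X1 p + X2 p + (X3 p + X4 p) ≤ (1 + 2 * (Ca * Cg)) * H p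
    linarith
  have hHn : 0 ≤ mM Ψ H := by
    refine sum_nonneg fun i _ => mean_nonneg fun σ p _ => ?_
    rw [hH]
    have h1 := cn_nonneg p v 2
    have h1' := ce_nonneg p v (2 * s)
    have h2 : 0 ≤ |Real.arsinh (u p)| := abs_nonneg _
    have h3 : 0 ≤ Real.log (1 + cn p v 2) := Real.log_nonneg (by linarith)
    have h4 := Gm_nonneg hκ0 g p
    have h5 := hZn p
    positivity
  rw [hneed, ← hH]
  have hδn : 0 ≤ (1 + n * s⁻¹) * δ := mul_nonneg (by linarith) hδ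
  have e1 : 0 ≤ ∑ i, ∑ b : Fin (L + 1), mean (mf (fA c u g b) (Ψ i))
      (fun p => lam + 2 * ((b : ℝ) + 1) + (s ^ 4)⁻¹ + s⁻¹ * ce p v (2 * s)) :=
    sum_nonneg fun i _ => sum_nonneg fun b _ => mean_nonneg fun σ p _ => by
      have := ce_nonneg p v (2 * s)
      positivity
  have e2 : 0 ≤ ∑ i, ∑ b : Fin (L + 1), mean (Ψ i) (Gm κ (fA c u g b)) :=
    sum_nonneg fun i _ => sum_nonneg fun b _ => mean_nonneg fun σ p _ => Gm_nonneg hκ0 _ p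
  have e3 : 0 ≤ (∑ b : Fin (L + 1), Real.exp (c * ((b : ℝ) + 1)) ^ 2 + Real.exp (-lam)) * δ :=
    mul_nonneg (add_nonneg (sum_nonneg fun b _ => sq_nonneg _) hlam0.le) hδ
  have e4 : 0 ≤ ∑ i, ∑ b : Fin (L + 1), mean (mf (fA c (fun p => -u p) g b) (Ψ i))
      (fun p => lam + 2 * ((b : ℝ) + 1) + (s ^ 2)⁻¹ + Real.log (1 + cn p v 2)) :=
    sum_nonneg fun i _ => sum_nonneg fun b _ => mean_nonneg fun σ p _ => by
      have h1 := cn_nonneg p v 2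
      have h3 : 0 ≤ Real.log (1 + cn p v 2) := Real.log_nonneg (by linarith)
      positivity
  have e5 : 0 ≤ ∑ i, ∑ b : Fin (L + 1), mean (Ψ i) (Gm κ (fA c (fun p => -u p) g b)) :=
    sum_nonneg fun i _ => sum_nonneg fun b _ => mean_nonneg fun σ p _ => Gm_nonneg hκ0 _ p
  exact s1_fin hC1 hC2 hCu (mul_nonneg hCa hCg) s1 s2 q1' q2' g1 g2 hMδ hle hHn hlam0.le hδn e1 e2 e3 e4 e5

/-- a linear bound for `arsinh` with a small slope -/
theorem arsinh_lin (x : ℝ) {d : ℝ} (hd : 0 < d) :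
    |Real.arsinh x| ≤ d * (1 + 2 * |x|) + |Real.log d| := by
  have h0 : |Real.arsinh x| = Real.arsinh |x| := by
    rcases le_total 0 x with h | h
    · rw [abs_of_nonneg h, abs_of_nonneg (Real.arsinh_nonneg_iff.2 h)]
    · rw [abs_of_nonpos h, abs_of_nonpos (Real.arsinh_nonpos_iff.2 h), Real.arsinh_neg]
  rw [h0]
  have hx := abs_nonneg x
  have h1 : Real.exp (Real.arsinh |x|) ≤ 1 + 2 * |x| := by
    rw [Real.exp_arsinh]
    have h4 : Real.sqrt (1 + |x| ^ 2) ≤ 1 + |x| := by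
      rw [Real.sqrt_le_left (by positivity)]
      nlinarith
    linarith
  have h2 : Real.arsinh |x| ≤ Real.log (1 + 2 * |x|) := by
    rw [Real.le_log_iff_exp_le (by linarith)]
    exact h1
  have h3 : Real.log (d * (1 + 2 * |x|)) ≤ d * (1 + 2 * |x|) - 1 :=
    Real.log_le_sub_one_of_pos (by positivity)
  rw [Real.log_mul hd.ne' (by linarith)] at h3
  have h4 := neg_abs_le (Real.log d)
  linarith

theorem cn_le_q4 {n k : ℕ} {s : ℝ} (hs : 0 < s) (hs1 : s ≤ 1) (p : Cfg n k) (v : E3) :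
    cn p v 2 ≤ 16 * q4 s p v := by
  unfold cn q4
  have h1 : ∑ j, (if ‖p.2 j - v‖ < 2 then (1 : ℝ) else 0) ≤ ∑ j, 16 * (max s ‖p.2 j - v‖ ^ 4)⁻¹ := by
    refine sum_le_sum fun j _ => ?_
    split_ifs with h
    · have h2 : max s ‖p.2 j - v‖ ≤ 2 := max_le (by linarith) h.le
      have h3 : 0 < max s ‖p.2 j - v‖ := lt_of_lt_of_le hs (le_max_left _ _)
      have h4 : max s ‖p.2 j - v‖ ^ 4 ≤ 2 ^ 4 := pow_le_pow_left₀ h3.le h2 4
      have h5 : ((2 : ℝ) ^ 4)⁻¹ ≤ (max s ‖p.2 j - v‖ ^ 4)⁻¹ := inv_anti₀ (by positivity) h4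
      norm_num at h5 ⊢
      linarith
    · have h3 : 0 < max s ‖p.2 j - v‖ := lt_of_lt_of_le hs (le_max_left _ _)
      positivity
  rw [← mul_sum] at h1
  have h2 : 0 ≤ ∑ a, (max s ‖p.1 a - v‖ ^ 4)⁻¹ := sum_nonneg fun a _ => by positivity
  linarith

theorem log_cn_sq {n k : ℕ} {s : ℝ} (hs : 0 < s) (hs1 : s ≤ 1) (p : Cfg n k) (v : E3) :
    0 ≤ Real.log (1 + cn p v 2) ∧ Real.log (1 + cn p v 2) ^ 2 ≤ 4 + 64 * q4 s p v := by
  have h0 := cn_nonneg p v 2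
  have h1 : 0 ≤ Real.log (1 + cn p v 2) := Real.log_nonneg (by linarith)
  refine ⟨h1, ?_⟩
  have h2 : 0 < Real.sqrt (1 + cn p v 2) := Real.sqrt_pos.2 (by linarith)
  have h3 := Real.log_le_sub_one_of_pos h2
  have h4 : Real.log (1 + cn p v 2) = 2 * Real.log (Real.sqrt (1 + cn p v 2)) := by
    rw [Real.log_sqrt (by linarith)]
    ring
  have h5 : Real.log (1 + cn p v 2) ≤ 2 * Real.sqrt (1 + cn p v 2) := by linarith
  have h6 : Real.log (1 + cn p v 2) ^ 2 ≤ (2 * Real.sqrt (1 + cn p v 2)) ^ 2 := pow_le_pow_left₀ h1 h5 2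
  rw [mul_pow, Real.sq_sqrt (by linarith)] at h6
  have h7 := cn_le_q4 hs hs1 p v
  linarith

private theorem s1_pt {K ℓ A x a E1 E2 r c l q g γ G' lam : ℝ} (hK : 0 < K) (hA : 0 ≤ A) (hx : 0 ≤ x)
    (ha : a ≤ (256 * K)⁻¹ * (1 + 2 * x) + ℓ) (ha0 : 0 ≤ a) (hℓ : 0 ≤ ℓ) (hE1 : E1 ≤ 1 + 2 * x)
    (hE1' : 0 ≤ E1) (hE2 : E2 ≤ 1 + 2 * x) (hE2' : 0 ≤ E2) (hr : 0 ≤ r) (hc : 0 ≤ c) (hl : 0 ≤ l)
    (hl2 : l ^ 2 ≤ 4 + 64 * q) (hq : 0 ≤ q) (hg : 0 ≤ g) (hg1 : g ≤ 1) (hγ : 0 ≤ γ) (hG : G' ≤ γ * g)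
    (hlam : 0 ≤ lam) :
    K * (g ^ 2 * ((lam + 4 + 2 * a + r ^ 4 + r * c) * E1 + (lam + 4 + 2 * a + r ^ 2 + l) * E2) +
      2 * (E1 + E2) * G' + g ^ 2 * (q + A)) ≤
    4 * K * γ + 64 * K ^ 2 * γ ^ 2 + g ^ 2 * x ^ 2 +
      (1 / 32 + 4 * K * ℓ + 128 * K ^ 2 * ℓ ^ 2 + K + 414 * (K + 4 * K ^ 2) + K * (1 + A)) *
        (g ^ 2 * (1 + lam ^ 2 + r ^ 8 + r ^ 2 * c ^ 2 + q)) := by
  have hg2 : 0 ≤ g ^ 2 := sq_nonneg g
  have hrc : 0 ≤ r * c := mul_nonneg hr hc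
  have hr4 : 0 ≤ r ^ 4 := by positivity
  have hr2 : 0 ≤ r ^ 2 := by positivity
  have hr8 : 0 ≤ r ^ 8 := by positivity
  have hrc2 : 0 ≤ r ^ 2 * c ^ 2 := by positivity
  have hx1 : 0 ≤ 1 + 2 * x := by linarith
  obtain ⟨Y, hY⟩ : ∃ Y, Y = 2 * lam + 8 + r ^ 4 + r * c + r ^ 2 + l := ⟨_, rfl⟩
  obtain ⟨Z, hZ⟩ : ∃ Z, Z = 1 + lam ^ 2 + r ^ 8 + r ^ 2 * c ^ 2 + q := ⟨_, rfl⟩
  have hY0 : 0 ≤ Y := by rw [hY]; positivity
  have hZ1 : 1 ≤ Z := by rw [hZ]; nlinarith [sq_nonneg lam]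
  -- the potential terms
  have a1 : (lam + 4 + 2 * a + r ^ 4 + r * c) * E1 + (lam + 4 + 2 * a + r ^ 2 + l) * E2 ≤
      (1 + 2 * x) * Y + (1 + 2 * x) * (4 * a) := by
    have b1 : (lam + 4 + 2 * a + r ^ 4 + r * c) * E1 ≤ (lam + 4 + 2 * a + r ^ 4 + r * c) * (1 + 2 * x) :=
      mul_le_mul_of_nonneg_left hE1 (by positivity)
    have b2 : (lam + 4 + 2 * a + r ^ 2 + l) * E2 ≤ (lam + 4 + 2 * a + r ^ 2 + l) * (1 + 2 * x) :=
      mul_le_mul_of_nonneg_left hE2 (by positivity)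
    rw [hY]
    linarith
  have a2 : K * ((1 + 2 * x) * (4 * a)) ≤ x ^ 2 / 4 + (1 / 32 + 4 * K * ℓ + 128 * K ^ 2 * ℓ ^ 2) := by
    have b1 : K * ((1 + 2 * x) * (4 * a)) ≤ K * ((1 + 2 * x) * (4 * ((256 * K)⁻¹ * (1 + 2 * x) + ℓ))) :=
      mul_le_mul_of_nonneg_left (mul_le_mul_of_nonneg_left (by linarith) hx1) hK.le
    have b2 : K * ((1 + 2 * x) * (4 * ((256 * K)⁻¹ * (1 + 2 * x) + ℓ))) =
        (1 + 2 * x) ^ 2 / 64 + 4 * K * ℓ + 8 * K * ℓ * x := by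
      field_simp
      ring
    have b3 : 8 * K * ℓ * x ≤ x ^ 2 / 8 + 128 * K ^ 2 * ℓ ^ 2 := by
      nlinarith [sq_nonneg (x - 32 * K * ℓ)]
    nlinarith [sq_nonneg (1 - 2 * x)]
  have a3 : K * ((1 + 2 * x) * Y) ≤ x ^ 2 / 4 + K + (K + 4 * K ^ 2) * Y ^ 2 := by
    have b1 : 2 * K * x * Y ≤ x ^ 2 / 4 + 4 * K ^ 2 * Y ^ 2 := by
      nlinarith [sq_nonneg (x - 4 * K * Y)]
    have b2 : K * Y ≤ K * (1 + Y ^ 2) := mul_le_mul_of_nonneg_left (by nlinarith [sq_nonneg (Y - 1)]) hK.le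
    linarith
  have a4 : Y ^ 2 ≤ 414 * Z := by
    have b1 : Y ^ 2 ≤ 6 * ((2 * lam) ^ 2 + 8 ^ 2 + (r ^ 4) ^ 2 + (r * c) ^ 2 + (r ^ 2) ^ 2 + l ^ 2) := by
      rw [hY]
      have := sq_sum_le_card_mul_sum_sq (s := (univ : Finset (Fin 6)))
        (f := ![2 * lam, 8, r ^ 4, r * c, r ^ 2, l])
      simp [Fin.sum_univ_succ] at this
      calc (2 * lam + 8 + r ^ 4 + r * c + r ^ 2 + l) ^ 2
          = (2 * lam + (8 + (r ^ 4 + (r * c + (r ^ 2 + l))))) ^ 2 := by ring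
        _ ≤ _ := this
        _ = _ := by ring
    have b2 : (r ^ 2) ^ 2 ≤ 1 + r ^ 8 := by nlinarith [sq_nonneg (r ^ 4 - 1)]
    have b3 : (r ^ 4) ^ 2 = r ^ 8 := by ring
    have b4 : (r * c) ^ 2 = r ^ 2 * c ^ 2 := by ring
    rw [b3, b4] at b1
    rw [hZ]
    nlinarith [sq_nonneg lam]
  have a5 : q + A ≤ (1 + A) * Z := by
    have b1 : A ≤ A * Z := le_mul_of_one_le_right hA hZ1
    have b2 : q ≤ Z := by rw [hZ]; nlinarith [sq_nonneg lam]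
    linarith
  have a6 : K * ((1 + 2 * x) * Y + (1 + 2 * x) * (4 * a) + (q + A)) ≤ x ^ 2 / 2 +
      (1 / 32 + 4 * K * ℓ + 128 * K ^ 2 * ℓ ^ 2 + K + 414 * (K + 4 * K ^ 2) + K * (1 + A)) * Z := by
    have c1 : (K + 4 * K ^ 2) * Y ^ 2 ≤ (K + 4 * K ^ 2) * (414 * Z) := mul_le_mul_of_nonneg_left a4 (by positivity)
    have c2 : K * (q + A) ≤ K * ((1 + A) * Z) := mul_le_mul_of_nonneg_left a5 hK.le
    have c3 : 1 / 32 + 4 * K * ℓ + 128 * K ^ 2 * ℓ ^ 2 + K ≤ (1 / 32 + 4 * K * ℓ + 128 * K ^ 2 * ℓ ^ 2 + K) * Z :=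
      le_mul_of_one_le_right (by positivity) hZ1
    linarith
  have a7 := mul_le_mul_of_nonneg_left a6 hg2
  have a8 : K * (2 * (E1 + E2) * G') ≤ 4 * K * γ + 64 * K ^ 2 * γ ^ 2 + g ^ 2 * x ^ 2 / 4 := by
    have b1 : 2 * (E1 + E2) * G' ≤ 2 * (E1 + E2) * (γ * g) := mul_le_mul_of_nonneg_left hG (by positivity)
    have b2 : 2 * (E1 + E2) * (γ * g) ≤ 4 * (1 + 2 * x) * (γ * g) :=
      mul_le_mul_of_nonneg_right (by linarith) (mul_nonneg hγ hg)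
    have b3 : K * (2 * (E1 + E2) * G') ≤ K * (4 * (1 + 2 * x) * (γ * g)) :=
      mul_le_mul_of_nonneg_left (b1.trans b2) hK.le
    have b4 : γ * g ≤ γ := mul_le_of_le_one_right hγ hg1
    have b5 : 8 * K * γ * (x * g) ≤ (x * g) ^ 2 / 4 + 64 * K ^ 2 * γ ^ 2 := by
      nlinarith [sq_nonneg (x * g - 16 * K * γ)]
    have b6 : K * (γ * g) ≤ K * γ := mul_le_mul_of_nonneg_left b4 hK.le
    nlinarith
  have a9 := mul_le_mul_of_nonneg_left a1 (mul_nonneg hK.le hg2)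
  have hgx : 0 ≤ g ^ 2 * x ^ 2 := by positivity
  rw [← hZ]
  nlinarith

theorem sm1T (q : ℕ) (T zm zp κm κp A Kv : ℝ) (hT : 0 ≤ T) (hzm : 0 < zm) (hκm : 0 < κm)
    (hA : 0 ≤ A) (hKv : 0 ≤ Kv) {χ : E3 → ℝ} (hχ : Bump χ) :
    ∃ C : ℝ, 0 ≤ C ∧
    ∀ (ι : Type) (_ : Fintype ι) (n k : ℕ) (Λ : Set E3) (z κ : Fin k → ℝ) (W : Finset E3)
    (δ : ℝ) (Ψ : ι → (Fin n → Fin q) → Cfg n k → ℂ)
    (_ : Gt q T zm zp κm κp A Kv n k Λ z κ W δ Ψ)
    (g : Cfg n k → ℝ) (_ : ContDiff ℝ (⊤ : ℕ∞) g) (_ : Sy g) (_ : ∀ p, 0 ≤ g p ∧ g p ≤ 1)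
    (γ : ℝ) (_ : 0 ≤ γ) (_ : ∀ p, Gm κ g p ≤ γ * g p) (lam : ℝ) (_ : 0 ≤ lam)
    (s : ℝ) (_ : 0 < s) (_ : s ≤ 1) (v : E3) (_ : Metric.closedBall v 2 ⊆ Λ),
    mM Ψ (fun p => g p ^ 2 * uh χ s W z p v ^ 2) ≤ C * (δ * (1 + n * s⁻¹) + γ + γ ^ 2 +
      Real.exp (-lam) + mM Ψ (fun p => g p ^ 2 * (1 + lam ^ 2 + (s ^ 8)⁻¹ +
        (s ^ 2)⁻¹ * ce p v (2 * s) ^ 2 + q4 s p v))) := by
  obtain ⟨K, hK, hmain⟩ := amp_two q T zm zp κm κp A Kv hT hzm hκm hA hKv hχ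
  obtain ⟨ℓ, hℓ⟩ : ∃ ℓ : ℝ, ℓ = |Real.log (256 * K)⁻¹| := ⟨_, rfl⟩
  have hℓ0 : 0 ≤ ℓ := by rw [hℓ]; exact abs_nonneg _
  obtain ⟨B, hB⟩ : ∃ B : ℝ, B = 1 / 32 + 4 * K * ℓ + 128 * K ^ 2 * ℓ ^ 2 + K + 414 * (K + 4 * K ^ 2) +
      K * (1 + A) := ⟨_, rfl⟩
  have hB0 : 0 ≤ B := by rw [hB]; positivity
  refine ⟨4 * K + 64 * K ^ 2 + B + 1 + K, by positivity, ?_⟩
  intro ι hι n k Λ z κ W δ Ψ hG g hg hgs hg01 γ hγ hgg lam hlam s hs hs1 v hv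
  obtain ⟨u, hu⟩ : ∃ u : Cfg n k → ℝ, u = fun p => uh χ s W z p v := ⟨_, rfl⟩
  have hm := hmain ι hι n k Λ z κ W δ Ψ hG g hg hgs hg01 (1 / 2) (by norm_num) le_rfl lam hlam s hs hs1 v hv u hu
  have hu' : ∀ p, uh χ s W z p v = u p := fun p => by rw [hu]
  simp only [hu']
  have hec : ∀ x, ec (1 / 2) x = eh x := fun x => by
    unfold ec eh
    congr 1
    ring
  simp only [hec] at hm
  have hS : ∀ i, Sm q n k Λ (Ψ i) := fun i => St_sm (hG.eq.st i)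
  have hus : ContDiff ℝ (⊤ : ℕ∞) u := by rw [hu]; exact uh_smooth hχ s hs W z v
  have huc : Continuous u := hus.continuous
  have hgc : Continuous g := hg.continuous
  have hehc : Continuous (fun p => eh (u p)) := eh_smooth.continuous.comp huc
  have hehc' : Continuous (fun p => eh (-u p)) := eh_smooth.continuous.comp huc.neg
  have hasc : Continuous (fun p => |Real.arsinh (u p)|) := (Real.continuous_arsinh.comp huc).abs
  have hone := hG.eq.one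
  have hcm : ∀ p : Cfg n k, |ce p v (2 * s)| ≤ n := fun p => by
    rw [abs_of_nonneg (ce_nonneg p v _)]
    exact ce_le p v _
  have hcm2 : ∀ p : Cfg n k, |ce p v (2 * s) ^ 2| ≤ (n : ℝ) ^ 2 := fun p => by
    rw [abs_of_nonneg (sq_nonneg _)]
    exact pow_le_pow_left₀ (ce_nonneg p v _) (ce_le p v _) 2
  have hlm : ∀ p : Cfg n k, |Real.log (1 + cn p v 2)| ≤ k := fun p => by
    have h1 := cn_nonneg p v 2
    have h2 := cn_le p v 2
    rw [abs_of_nonneg (Real.log_nonneg (by linarith))]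
    have := Real.log_le_sub_one_of_pos (show 0 < 1 + cn p v 2 by linarith)
    linarith
  have i8 : ∀ i, IM (Ψ i) (fun p => g p ^ 2) := fun i => IM.cont (hS i) (hgc.pow 2)
  have i9 : ∀ i, IM (Ψ i) (fun p => g p ^ 2 * u p ^ 2) := fun i =>
    IM.cont (hS i) ((hgc.pow 2).mul (huc.pow 2))
  have i10 : ∀ i, IM (Ψ i) (fun p => g p ^ 2 * (1 + lam ^ 2 + (s ^ 8)⁻¹ +
      (s ^ 2)⁻¹ * ce p v (2 * s) ^ 2 + q4 s p v)) := fun i => by
    have j1 : IM (Ψ i) (fun p => g p ^ 2 * (1 + lam ^ 2 + (s ^ 8)⁻¹ + q4 s p v)) :=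
      IM.cont (hS i) ((hgc.pow 2).mul (continuous_const.add (s1_q4 s hs v)))
    have j2 := ((i8 i).bmul ((ce_meas v (2 * s)).pow_const 2) _ hcm2).cmul ((s ^ 2)⁻¹)
    exact (j1.add j2).congr fun _ p _ => by ring
  have iH : ∀ i, IM (Ψ i) (fun p => g p ^ 2 * ((lam + 4 + 2 * |Real.arsinh (u p)| + (s ^ 4)⁻¹ +
          s⁻¹ * ce p v (2 * s)) * eh (u p) ^ 2 +
        (lam + 4 + 2 * |Real.arsinh (u p)| + (s ^ 2)⁻¹ + Real.log (1 + cn p v 2)) * eh (-u p) ^ 2) +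
        2 * (eh (u p) ^ 2 + eh (-u p) ^ 2) * Gm κ g p + g p ^ 2 * (q4 s p v + A)) := fun i => by
    have j1 : IM (Ψ i) (fun p => g p ^ 2 * ((lam + 4 + 2 * |Real.arsinh (u p)| + (s ^ 4)⁻¹) * eh (u p) ^ 2 +
        (lam + 4 + 2 * |Real.arsinh (u p)| + (s ^ 2)⁻¹) * eh (-u p) ^ 2) +
        2 * (eh (u p) ^ 2 + eh (-u p) ^ 2) * Gm κ g p + g p ^ 2 * (q4 s p v + A)) := by
      refine IM.cont (hS i) ((((hgc.pow 2).mul ?_).add ?_).add ?_)
      · exact (((continuous_const.add (continuous_const.mul hasc)).add continuous_const).mul (hehc.pow 2)).add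
          (((continuous_const.add (continuous_const.mul hasc)).add continuous_const).mul (hehc'.pow 2))
      · exact (continuous_const.mul ((hehc.pow 2).add (hehc'.pow 2))).mul (Gm_cont κ hg)
      · exact (hgc.pow 2).mul ((s1_q4 s hs v).add continuous_const)
    have j2 : IM (Ψ i) (fun p => ce p v (2 * s) * (g p ^ 2 * (s⁻¹ * eh (u p) ^ 2))) :=
      (IM.cont (hS i) ((hgc.pow 2).mul (continuous_const.mul (hehc.pow 2)))).bmul (ce_meas v (2 * s)) n hcm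
    have j3 : IM (Ψ i) (fun p => Real.log (1 + cn p v 2) * (g p ^ 2 * eh (-u p) ^ 2)) :=
      (IM.cont (hS i) ((hgc.pow 2).mul (hehc'.pow 2))).bmul
        (Real.measurable_log.comp (measurable_const.add (cn_meas v 2))) k hlm
    exact ((j1.add j2).add j3).congr fun _ p _ => by ring
  have iE : ∀ i, IM (Ψ i) (fun p => g p ^ 2 * (eh (u p) ^ 2 * u p - eh (-u p) ^ 2 * u p)) := fun i =>
    IM.cont (hS i) ((hgc.pow 2).mul (((hehc.pow 2).mul huc).sub ((hehc'.pow 2).mul huc)))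
  have hleft : 2 * mM Ψ (fun p => g p ^ 2 * u p ^ 2) ≤
      mM Ψ (fun p => g p ^ 2 * (eh (u p) ^ 2 * u p - eh (-u p) ^ 2 * u p)) + mM Ψ (fun p => g p ^ 2) := by
    rw [← s1_cmul, ← s1_add iE i8]
    refine s1_mono (fun i => (i9 i).cmul 2) (fun i => (iE i).add (i8 i)) fun i σ p _ => ?_
    have h1 := mul_le_mul_of_nonneg_left (eh_two (u p)) (sq_nonneg (g p))
    linarith
  have k1 : ∀ i, IM (Ψ i) (fun _ : Cfg n k => 4 * K * γ + 64 * K ^ 2 * γ ^ 2) := fun i =>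
    IM.cont (hS i) continuous_const
  have hright : K * mM Ψ (fun p => g p ^ 2 * ((lam + 4 + 2 * |Real.arsinh (u p)| + (s ^ 4)⁻¹ +
          s⁻¹ * ce p v (2 * s)) * eh (u p) ^ 2 +
        (lam + 4 + 2 * |Real.arsinh (u p)| + (s ^ 2)⁻¹ + Real.log (1 + cn p v 2)) * eh (-u p) ^ 2) +
        2 * (eh (u p) ^ 2 + eh (-u p) ^ 2) * Gm κ g p + g p ^ 2 * (q4 s p v + A)) ≤
      (4 * K * γ + 64 * K ^ 2 * γ ^ 2) + mM Ψ (fun p => g p ^ 2 * u p ^ 2) +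
      B * mM Ψ (fun p => g p ^ 2 * (1 + lam ^ 2 + (s ^ 8)⁻¹ +
      (s ^ 2)⁻¹ * ce p v (2 * s) ^ 2 + q4 s p v)) := by
    have e1 : (4 * K * γ + 64 * K ^ 2 * γ ^ 2) + mM Ψ (fun p => g p ^ 2 * u p ^ 2) +
        B * mM Ψ (fun p => g p ^ 2 * (1 + lam ^ 2 + (s ^ 8)⁻¹ +
        (s ^ 2)⁻¹ * ce p v (2 * s) ^ 2 + q4 s p v)) =
        mM Ψ (fun p => 4 * K * γ + 64 * K ^ 2 * γ ^ 2 + g p ^ 2 * u p ^ 2 +
          B * (g p ^ 2 * (1 + lam ^ 2 + (s ^ 8)⁻¹ + (s ^ 2)⁻¹ * ce p v (2 * s) ^ 2 + q4 s p v))) := by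
      rw [s1_add (fun i => (k1 i).add (i9 i)) (fun i => (i10 i).cmul B), s1_add k1 i9, s1_cmul,
        s1_const hone]
    rw [e1, ← s1_cmul]
    refine s1_mono (fun i => (iH i).cmul K) (fun i => ((k1 i).add (i9 i)).add ((i10 i).cmul B))
      fun i σ p _ => ?_
    have h1 := arsinh_lin (u p) (d := (256 * K)⁻¹) (by positivity)
    rw [← hℓ] at h1
    have h2 := log_cn_sq hs hs1 p v
    have h3 := eh_le (u p)
    have h4 := eh_le (-u p)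
    rw [abs_neg] at h4
    have h5 := s1_pt hK hA (abs_nonneg (u p)) h1 (abs_nonneg _) hℓ0 h3 (sq_nonneg _) h4 (sq_nonneg _)
      (inv_nonneg.2 hs.le) (ce_nonneg p v (2 * s)) h2.1 h2.2 (s1_q4n s hs p v) (hg01 p).1 (hg01 p).2 hγ
      (hgg p) hlam
    rw [sq_abs, inv_pow, inv_pow, inv_pow, ← hB] at h5
    exact h5
  have hJ : mM Ψ (fun p => g p ^ 2) ≤ mM Ψ (fun p => g p ^ 2 * (1 + lam ^ 2 + (s ^ 8)⁻¹ +
      (s ^ 2)⁻¹ * ce p v (2 * s) ^ 2 + q4 s p v)) := by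
    refine s1_mono i8 i10 fun i σ p _ => ?_
    refine le_mul_of_one_le_right (sq_nonneg _) ?_
    have := s1_q4n s hs p v
    have h1 : 0 ≤ (s ^ 8)⁻¹ := by positivity
    have h2 : 0 ≤ (s ^ 2)⁻¹ * ce p v (2 * s) ^ 2 := by positivity
    have h3 : 0 ≤ lam ^ 2 := sq_nonneg lam
    linarith
  have hJ0 : 0 ≤ mM Ψ (fun p => g p ^ 2) :=
    sum_nonneg fun i _ => mean_nonneg fun _ p _ => sq_nonneg _
  have he := Real.exp_pos (-lam)
  have hns : 0 ≤ (n : ℝ) * s⁻¹ := by positivity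
  have hD : 0 ≤ δ * (1 + n * s⁻¹) := mul_nonneg hG.hδ (by linarith)
  generalize mM Ψ (fun p => g p ^ 2 * u p ^ 2) = I at *
  generalize mM Ψ (fun p => g p ^ 2) = J at *
  generalize mM Ψ (fun p => g p ^ 2 * (1 + lam ^ 2 + (s ^ 8)⁻¹ +
      (s ^ 2)⁻¹ * ce p v (2 * s) ^ 2 + q4 s p v)) = Z at *
  have hZ0 : 0 ≤ Z := hJ0.trans hJ
  have hγ2 : 0 ≤ γ ^ 2 := sq_nonneg γ
  have f1 : I ≤ Z + (4 * K * γ + 64 * K ^ 2 * γ ^ 2) + B * Z + K * Real.exp (-lam) +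
      K * (δ * (1 + n * s⁻¹)) := by
    linarith
  refine f1.trans ?_
  have w1 : 0 ≤ (64 * K ^ 2 + B + 1 + K) * γ := by positivity
  have w2 : 0 ≤ (4 * K + B + 1 + K) * γ ^ 2 := by positivity
  have w3 : 0 ≤ (4 * K + 64 * K ^ 2 + K) * Z := by positivity
  have w4 : 0 ≤ (4 * K + 64 * K ^ 2 + B + 1) * Real.exp (-lam) := by positivity
  have w5 : 0 ≤ (4 * K + 64 * K ^ 2 + B + 1) * (δ * (1 + n * s⁻¹)) := by positivity
  linarith

end H6.CT
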