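import Pool.Agent.H6.CT.P12T
import Pool.Agent.H6.CT.AmpT
import Pool.Agent.H6.CT.Sm1T
import Pool.Agent.H6.CL.Eh3
import Pool.Agent.H6.CL.CnP
import Pool.Agent.H6.CB.UhF

/-! The `3/2` moment of the relative potential: as `sm1T` with the amplitudes `fA (1/4) u 1` (`ec (1/4) = e3`), `g = 1`, `lam = 0`, `s = 1`; `e3_two`, `e3_le`; `(1 + 2 |u| ^ (1/2)) Y ≤ η |u| ^ (3/2) + C (1 + Y ^ (3/2))` with `Y = 1 + ce p v 2 + arsinh |u| + log (1 + cn p v 2)`. Compare `Pool/Agent/H6/CL/Sm32.lean`. -/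

open MeasureTheory Finset

namespace H6.CT

open H6.CM H6.CB H6.CL

private theorem s32_mono {ι : Type} [Fintype ι] {q n k : ℕ} {Ψ : ι → (Fin n → Fin q) → Cfg n k → ℂ}
    {F G : Cfg n k → ℝ} (hF : ∀ i, IM (Ψ i) F) (hG : ∀ i, IM (Ψ i) G)
    (h : ∀ i σ p, Ψ i σ p ≠ 0 → F p ≤ G p) : mM Ψ F ≤ mM Ψ G :=
  sum_le_sum fun i _ => mean_mono (hF i) (hG i) (h i)

private theorem s32_add {ι : Type} [Fintype ι] {q n k : ℕ} {Ψ : ι → (Fin n → Fin q) → Cfg n k → ℂ}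
    {F G : Cfg n k → ℝ} (hF : ∀ i, IM (Ψ i) F) (hG : ∀ i, IM (Ψ i) G) :
    mM Ψ (fun p => F p + G p) = mM Ψ F + mM Ψ G := by
  unfold mM
  rw [← sum_add_distrib]
  exact sum_congr rfl fun i _ => mean_add (hF i) (hG i)

private theorem s32_cmul {ι : Type} [Fintype ι] {q n k : ℕ} {Ψ : ι → (Fin n → Fin q) → Cfg n k → ℂ}
    (c : ℝ) (F : Cfg n k → ℝ) : mM Ψ (fun p => c * F p) = c * mM Ψ F := by
  unfold mM
  rw [mul_sum]
  exact sum_congr rfl fun i _ => mean_cmul c F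

private theorem s32_const {ι : Type} [Fintype ι] {q n k : ℕ} {Ψ : ι → (Fin n → Fin q) → Cfg n k → ℂ}
    (h : ∑ i, mass (Ψ i) = 1) (c : ℝ) : mM Ψ (fun _ => c) = c := by
  unfold mM
  simp only [mean_const]
  rw [← mul_sum, h, mul_one]

private theorem s32_q4 {n k : ℕ} (s : ℝ) (hs : 0 < s) (v : E3) :
    Continuous (fun p : Cfg n k => q4 s p v) := by
  unfold q4
  have hmx : ∀ x : ℝ, (max s x) ^ 4 ≠ 0 := fun x => pow_ne_zero _ (lt_of_lt_of_le hs (le_max_left _ _)).ne'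
  refine Continuous.add ?_ ?_
  · refine continuous_finsetSum _ fun a _ => ?_
    refine Continuous.inv₀ ?_ fun p => hmx _
    exact (continuous_const.max (((continuous_apply a).comp continuous_fst).sub continuous_const).norm).pow 4
  · refine continuous_finsetSum _ fun j _ => ?_
    refine Continuous.inv₀ ?_ fun p => hmx _
    exact (continuous_const.max (((continuous_apply j).comp continuous_snd).sub continuous_const).norm).pow 4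

private theorem s32_q4n {n k : ℕ} (s : ℝ) (hs : 0 < s) (p : Cfg n k) (v : E3) : 0 ≤ q4 s p v := by
  unfold q4
  exact add_nonneg (sum_nonneg fun a _ => by positivity) (sum_nonneg fun a _ => by positivity)

private theorem s32_gm1 {n k : ℕ} (κ : Fin k → ℝ) (p : Cfg n k) : Gm κ (fun _ => (1 : ℝ)) p = 0 := by
  unfold Gm gr
  simp

private theorem s32_yng {t w ρ : ℝ} (ht : 0 ≤ t) (hw : 0 ≤ w) (hρ : 0 < ρ) :
    t * w ^ 2 ≤ ρ ^ 2 * t ^ 3 + ρ⁻¹ * w ^ 3 := by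
  rcases le_total w (ρ * t) with h | h
  · have h1 : w ^ 2 ≤ (ρ * t) ^ 2 := pow_le_pow_left₀ hw h 2
    have h2 : t * w ^ 2 ≤ t * (ρ * t) ^ 2 := mul_le_mul_of_nonneg_left h1 ht
    have h3 : 0 ≤ ρ⁻¹ * w ^ 3 := by positivity
    calc t * w ^ 2 ≤ t * (ρ * t) ^ 2 := h2
      _ = ρ ^ 2 * t ^ 3 := by ring
      _ ≤ _ := by linarith
  · have h1 : t ≤ ρ⁻¹ * w := by
      rw [inv_mul_eq_div, le_div_iff₀ hρ]
      linarith
    have h2 : t * w ^ 2 ≤ (ρ⁻¹ * w) * w ^ 2 := mul_le_mul_of_nonneg_right h1 (sq_nonneg w)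
    have h3 : 0 ≤ ρ ^ 2 * t ^ 3 := by positivity
    calc t * w ^ 2 ≤ (ρ⁻¹ * w) * w ^ 2 := h2
      _ = ρ⁻¹ * w ^ 3 := by ring
      _ ≤ _ := by linarith

private theorem s32_pt {K ℓ A x a E1 E2 c l q ρ : ℝ} (hK : 0 < K) (hA : 0 ≤ A) (hx : 0 ≤ x)
    (ha : a ≤ (512 * K)⁻¹ * (1 + 2 * x) + ℓ) (ha0 : 0 ≤ a) (hℓ : 0 ≤ ℓ)
    (hE1 : E1 ≤ 1 + 2 * x ^ (1 / 2 : ℝ)) (hE1' : 0 ≤ E1) (hE2 : E2 ≤ 1 + 2 * x ^ (1 / 2 : ℝ))
    (hE2' : 0 ≤ E2) (hc : 0 ≤ c) (hl : 0 ≤ l) (hl2 : l ^ 2 ≤ 4 + 64 * q) (hq : 0 ≤ q)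
    (hρ : ρ = (16 * (K + 1) * (24 + 8 * ℓ))⁻¹) :
    K * ((4 + 2 * a + 1 + c) * E1 + (4 + 2 * a + 1 + l) * E2 + (q + A)) ≤
    (1 / 4) * x ^ (3 / 2 : ℝ) + (18 * K + 4 * K * ℓ + ρ⁻¹ * (K * (30 + 8 * ℓ)) + 1 + K * A + 65 * K +
      130 * (K * ρ⁻¹)) * (1 + c ^ (3 / 2 : ℝ) + q) := by
  obtain ⟨t, ht⟩ : ∃ t : ℝ, t = x ^ (1 / 2 : ℝ) := ⟨_, rfl⟩
  obtain ⟨w, hw⟩ : ∃ w : ℝ, w = c ^ (1 / 2 : ℝ) := ⟨_, rfl⟩
  obtain ⟨m, hm⟩ : ∃ m : ℝ, m = l ^ (1 / 2 : ℝ) := ⟨_, rfl⟩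
  have ht0 : 0 ≤ t := by rw [ht]; positivity
  have hw0 : 0 ≤ w := by rw [hw]; positivity
  have hm0 : 0 ≤ m := by rw [hm]; positivity
  have hx3 : x ^ (3 / 2 : ℝ) = t ^ 3 := by
    rw [ht, ← Real.rpow_natCast, ← Real.rpow_mul hx]
    norm_num
  have hx1 : x = t ^ 2 := by
    rw [ht, ← Real.rpow_natCast, ← Real.rpow_mul hx]
    norm_num
  have hc3 : c ^ (3 / 2 : ℝ) = w ^ 3 := by
    rw [hw, ← Real.rpow_natCast, ← Real.rpow_mul hc]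
    norm_num
  have hc1 : c = w ^ 2 := by
    rw [hw, ← Real.rpow_natCast, ← Real.rpow_mul hc]
    norm_num
  have hl1 : l = m ^ 2 := by
    rw [hm, ← Real.rpow_natCast, ← Real.rpow_mul hl]
    norm_num
  rw [← ht] at hE1 hE2
  rw [hx3, hc3]
  rw [hx1] at ha
  rw [hl1] at hl2
  rw [hc1, hl1]
  have hD : 1 ≤ 16 * (K + 1) * (24 + 8 * ℓ) := by nlinarith [mul_nonneg hK.le hℓ]
  have hρ0 : 0 < ρ := by
    rw [hρ]
    exact inv_pos.2 (by linarith)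
  have hρ1 : ρ ≤ 1 := by
    rw [hρ]
    exact inv_le_one_of_one_le₀ hD
  have hρi : 0 < ρ⁻¹ := inv_pos.2 hρ0
  have ht3 : 0 ≤ t ^ 3 := by positivity
  have hw3 : 0 ≤ w ^ 3 := by positivity
  have hm3 : 0 ≤ m ^ 3 := by positivity
  have cube : ∀ y : ℝ, 0 ≤ y → y ≤ 1 + y ^ 3 ∧ y ^ 2 ≤ 1 + y ^ 3 := by
    intro y hy
    rcases le_total y 1 with h | h
    · have h5 : y ^ 2 ≤ 1 := pow_le_one₀ hy h
      have h6 : 0 ≤ y ^ 3 := by positivity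
      exact ⟨by linarith, by linarith⟩
    · have h5 : 1 ≤ y ^ 2 := one_le_pow₀ h
      constructor
      · nlinarith
      · nlinarith [sq_nonneg y]
  have hρ2 : K * (24 + 8 * ℓ) * ρ ^ 2 ≤ 1 / 16 := by
    have e1 : (K + 1) * (24 + 8 * ℓ) * ρ = 1 / 16 := by
      rw [hρ]
      have hK0 : K + 1 ≠ 0 := by linarith
      have hA0 : 24 + 8 * ℓ ≠ 0 := by linarith
      field_simp
    have e2 : K * (24 + 8 * ℓ) * ρ ≤ 1 / 16 := by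
      have : 0 ≤ (24 + 8 * ℓ) * ρ := by positivity
      linarith
    calc K * (24 + 8 * ℓ) * ρ ^ 2 = (K * (24 + 8 * ℓ) * ρ) * ρ := by ring
      _ ≤ (K * (24 + 8 * ℓ) * ρ) * 1 := mul_le_mul_of_nonneg_left hρ1 (by positivity)
      _ ≤ 1 / 16 := by linarith
  have y1 : t ≤ ρ ^ 2 * t ^ 3 + ρ⁻¹ := by
    have := s32_yng ht0 zero_le_one hρ0
    simpa using this
  have y2 : t * w ^ 2 ≤ ρ ^ 2 * t ^ 3 + ρ⁻¹ * w ^ 3 := s32_yng ht0 hw0 hρ0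
  have y3 : t * m ^ 2 ≤ ρ ^ 2 * t ^ 3 + ρ⁻¹ * m ^ 3 := s32_yng ht0 hm0 hρ0
  have y4 := (cube w hw0).2
  have y5 : m ^ 2 ≤ 5 + 64 * q := by nlinarith [sq_nonneg (m ^ 2 - 1)]
  have y6 : m ^ 3 ≤ 5 + 64 * q := by
    have h1 : m ^ 3 ≤ 1 + (m ^ 2) ^ 2 := by
      rcases le_total m 1 with h | h
      · have h5 : m ^ 3 ≤ 1 := pow_le_one₀ hm0 h
        nlinarith [sq_nonneg (m ^ 2)]
      · have h6 : m ^ 3 * 1 ≤ m ^ 3 * m := mul_le_mul_of_nonneg_left h (by positivity)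
        nlinarith
    linarith
  -- the terms with a
  have a1 : K * ((1 + 2 * t) * (4 * a)) ≤ t ^ 3 / 16 + 1 + 4 * K * ℓ + 8 * K * ℓ * t := by
    have b0 : 0 ≤ 1 + 2 * t := by linarith
    have b1 : K * ((1 + 2 * t) * (4 * a)) ≤ K * ((1 + 2 * t) * (4 * ((512 * K)⁻¹ * (1 + 2 * t ^ 2) + ℓ))) :=
      mul_le_mul_of_nonneg_left (mul_le_mul_of_nonneg_left (by linarith) b0) hK.le
    have b2 : K * ((1 + 2 * t) * (4 * ((512 * K)⁻¹ * (1 + 2 * t ^ 2) + ℓ))) =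
        (1 + 2 * t + 2 * t ^ 2 + 4 * t ^ 3) / 128 + 4 * K * ℓ + 8 * K * ℓ * t := by
      field_simp
      ring
    have b3 := cube t ht0
    linarith [b3.1, b3.2]
  have a2 : (4 + 2 * a + 1 + w ^ 2) * E1 + (4 + 2 * a + 1 + m ^ 2) * E2 ≤
      (1 + 2 * t) * (10 + w ^ 2 + m ^ 2) + (1 + 2 * t) * (4 * a) := by
    have b1 : (4 + 2 * a + 1 + w ^ 2) * E1 ≤ (4 + 2 * a + 1 + w ^ 2) * (1 + 2 * t) :=
      mul_le_mul_of_nonneg_left hE1 (by positivity)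
    have b2 : (4 + 2 * a + 1 + m ^ 2) * E2 ≤ (4 + 2 * a + 1 + m ^ 2) * (1 + 2 * t) :=
      mul_le_mul_of_nonneg_left hE2 (by positivity)
    linarith
  have a3 := mul_le_mul_of_nonneg_left a2 hK.le
  have a4 : K * ((1 + 2 * t) * (10 + w ^ 2 + m ^ 2)) =
      K * (10 + w ^ 2 + m ^ 2) + 20 * K * t + 2 * K * (t * w ^ 2) + 2 * K * (t * m ^ 2) := by ring
  have z1 : (20 * K + 8 * K * ℓ) * t ≤ (20 * K + 8 * K * ℓ) * (ρ ^ 2 * t ^ 3 + ρ⁻¹) :=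
    mul_le_mul_of_nonneg_left y1 (by positivity)
  have z2 : 2 * K * (t * w ^ 2) ≤ 2 * K * (ρ ^ 2 * t ^ 3 + ρ⁻¹ * w ^ 3) :=
    mul_le_mul_of_nonneg_left y2 (by positivity)
  have z3 : 2 * K * (t * m ^ 2) ≤ 2 * K * (ρ ^ 2 * t ^ 3 + ρ⁻¹ * m ^ 3) :=
    mul_le_mul_of_nonneg_left y3 (by positivity)
  have z4 : K * (24 + 8 * ℓ) * ρ ^ 2 * t ^ 3 ≤ (1 / 16) * t ^ 3 := mul_le_mul_of_nonneg_right hρ2 ht3
  have z5 : 2 * K * (ρ⁻¹ * m ^ 3) ≤ 2 * K * (ρ⁻¹ * (5 + 64 * q)) :=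
    mul_le_mul_of_nonneg_left (mul_le_mul_of_nonneg_left y6 hρi.le) (by positivity)
  have z6 : K * w ^ 2 ≤ K * (1 + w ^ 3) := mul_le_mul_of_nonneg_left y4 hK.le
  have z7 : K * m ^ 2 ≤ K * (5 + 64 * q) := mul_le_mul_of_nonneg_left y5 hK.le
  have hKρ : 0 ≤ K * ρ⁻¹ := by positivity
  have hKℓ : 0 ≤ K * ℓ := by positivity
  have hKρℓ : 0 ≤ ρ⁻¹ * (K * (30 + 8 * ℓ)) := by positivity
  have hKA : 0 ≤ K * A := by positivity
  obtain ⟨B, hB⟩ : ∃ B : ℝ, B = 18 * K + 4 * K * ℓ + ρ⁻¹ * (K * (30 + 8 * ℓ)) + 1 + K * A + 65 * K +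
      130 * (K * ρ⁻¹) := ⟨_, rfl⟩
  rw [← hB]
  have hBw : (K + 2 * (K * ρ⁻¹)) * w ^ 3 ≤ B * w ^ 3 := mul_le_mul_of_nonneg_right (by rw [hB]; linarith) hw3
  have hBq : (65 * K + 128 * (K * ρ⁻¹)) * q ≤ B * q := mul_le_mul_of_nonneg_right (by rw [hB]; linarith) hq
  have hB1 : 16 * K + 4 * K * ℓ + ρ⁻¹ * (K * (30 + 8 * ℓ)) + 1 + K * A ≤ B := by rw [hB]; linarith
  have key : K * ((4 + 2 * a + 1 + w ^ 2) * E1 + (4 + 2 * a + 1 + m ^ 2) * E2 + (q + A)) ≤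
      t ^ 3 / 8 + (16 * K + 4 * K * ℓ + ρ⁻¹ * (K * (30 + 8 * ℓ)) + 1 + K * A) +
      (K + 2 * (K * ρ⁻¹)) * w ^ 3 + (65 * K + 128 * (K * ρ⁻¹)) * q := by
    linarith
  linarith

theorem sm32T (q : ℕ) (T zm zp κm κp A Kv : ℝ) (hT : 0 ≤ T) (hzm : 0 < zm) (hκm : 0 < κm)
    (hA : 0 ≤ A) (hKv : 0 ≤ Kv) {χ : E3 → ℝ} (hχ : Bump χ) :
    ∃ C : ℝ, 0 ≤ C ∧
    ∀ (ι : Type) (_ : Fintype ι) (n k : ℕ) (Λ : Set E3) (z κ : Fin k → ℝ) (W : Finset E3)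
    (δ : ℝ) (Ψ : ι → (Fin n → Fin q) → Cfg n k → ℂ)
    (_ : Gt q T zm zp κm κp A Kv n k Λ z κ W δ Ψ) (_ : δ ≤ (((n : ℝ) + k + 1) ^ 4)⁻¹)
    (v : E3) (_ : Metric.closedBall v 2 ⊆ Λ),
    mM Ψ (fun p => |uh χ 1 W z p v| ^ (3 / 2 : ℝ)) ≤
      C * (1 + mM Ψ (fun p => ce p v 2 ^ (3 / 2 : ℝ)) + mM Ψ (fun p => q4 1 p v)) := by
  obtain ⟨K, hK, hmain⟩ := amp_two q T zm zp κm κp A Kv hT hzm hκm hA hKv hχ
  obtain ⟨ℓ, hℓ⟩ : ∃ ℓ : ℝ, ℓ = |Real.log (512 * K)⁻¹| := ⟨_, rfl⟩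
  have hℓ0 : 0 ≤ ℓ := by rw [hℓ]; exact abs_nonneg _
  obtain ⟨ρ, hρ⟩ : ∃ ρ : ℝ, ρ = (16 * (K + 1) * (24 + 8 * ℓ))⁻¹ := ⟨_, rfl⟩
  have hρ0 : 0 < ρ := by
    rw [hρ]
    exact inv_pos.2 (by positivity)
  obtain ⟨B, hB⟩ : ∃ B : ℝ, B = 18 * K + 4 * K * ℓ + ρ⁻¹ * (K * (30 + 8 * ℓ)) + 1 + K * A + 65 * K +
      130 * (K * ρ⁻¹) := ⟨_, rfl⟩
  have hB0 : 0 ≤ B := by rw [hB]; positivity
  refine ⟨4 * (1 + 2 * K + B), by positivity, ?_⟩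
  intro ι hι n k Λ z κ W δ Ψ hG hδ v hv
  obtain ⟨u, hu⟩ : ∃ u : Cfg n k → ℝ, u = fun p => uh χ 1 W z p v := ⟨_, rfl⟩
  have hm := hmain ι hι n k Λ z κ W δ Ψ hG (fun _ => 1) contDiff_const (fun _ _ => rfl)
    (fun _ => ⟨zero_le_one, le_rfl⟩) (1 / 4) (by norm_num) (by norm_num) 0 le_rfl 1 one_pos le_rfl v hv u hu
  have hu' : ∀ p, uh χ 1 W z p v = u p := fun p => by rw [hu]
  have hec : ∀ x, ec (1 / 4) x = e3 x := fun x => by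
    unfold ec e3
    congr 1
    ring
  simp only [hec, s32_gm1, one_pow, inv_one, mul_one, one_mul, mul_zero, add_zero, zero_add, neg_zero,
    Real.exp_zero] at hm
  have hS : ∀ i, Sm q n k Λ (Ψ i) := fun i => St_sm (hG.eq.st i)
  have hus : ContDiff ℝ (⊤ : ℕ∞) u := by rw [hu]; exact uh_smooth hχ 1 one_pos W z v
  have huc : Continuous u := hus.continuous
  have hec1 : Continuous (fun p => e3 (u p)) := e3_smooth.continuous.comp huc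
  have hec2 : Continuous (fun p => e3 (-u p)) := e3_smooth.continuous.comp huc.neg
  have hasc : Continuous (fun p => |Real.arsinh (u p)|) := (Real.continuous_arsinh.comp huc).abs
  have hone := hG.eq.one
  have hcm : ∀ p : Cfg n k, |ce p v 2| ≤ n := fun p => by
    rw [abs_of_nonneg (ce_nonneg p v _)]
    exact ce_le p v _
  have hlm : ∀ p : Cfg n k, |Real.log (1 + cn p v 2)| ≤ k := fun p => by
    have h1 := cn_nonneg p v 2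
    have h2 := cn_le p v 2
    rw [abs_of_nonneg (Real.log_nonneg (by linarith))]
    have := Real.log_le_sub_one_of_pos (show 0 < 1 + cn p v 2 by linarith)
    linarith
  have i8 : ∀ i, IM (Ψ i) (fun _ : Cfg n k => (1 : ℝ)) := fun i => IM.cont (hS i) continuous_const
  have i9 : ∀ i, IM (Ψ i) (fun p => |u p| ^ (3 / 2 : ℝ)) := fun i => by
    have := IM_uht hχ (hS i) 1 one_pos W z v (3 / 2) (by norm_num)
    simpa only [hu'] using this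
  have i10 : ∀ i, IM (Ψ i) (fun p => ce p v 2 ^ (3 / 2 : ℝ)) := fun i => IM_cet (hS i) v 2 _ (by norm_num)
  have i11 : ∀ i, IM (Ψ i) (fun p => q4 1 p v) := fun i => IM.cont (hS i) (s32_q4 1 one_pos v)
  have iE : ∀ i, IM (Ψ i) (fun p => e3 (u p) ^ 2 * u p - e3 (-u p) ^ 2 * u p) := fun i =>
    IM.cont (hS i) (((hec1.pow 2).mul huc).sub ((hec2.pow 2).mul huc))
  have iH : ∀ i, IM (Ψ i) (fun p => (4 + 2 * |Real.arsinh (u p)| + 1 + ce p v 2) * e3 (u p) ^ 2 +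
      (4 + 2 * |Real.arsinh (u p)| + 1 + Real.log (1 + cn p v 2)) * e3 (-u p) ^ 2 + (q4 1 p v + A)) := fun i => by
    have j1 : IM (Ψ i) (fun p => (4 + 2 * |Real.arsinh (u p)| + 1) * e3 (u p) ^ 2 +
        (4 + 2 * |Real.arsinh (u p)| + 1) * e3 (-u p) ^ 2 + (q4 1 p v + A)) := by
      refine IM.cont (hS i) (Continuous.add (Continuous.add ?_ ?_) ?_)
      · exact ((continuous_const.add (continuous_const.mul hasc)).add continuous_const).mul (hec1.pow 2)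
      · exact ((continuous_const.add (continuous_const.mul hasc)).add continuous_const).mul (hec2.pow 2)
      · exact (s32_q4 1 one_pos v).add continuous_const
    have j2 : IM (Ψ i) (fun p => ce p v 2 * e3 (u p) ^ 2) :=
      (IM.cont (hS i) (hec1.pow 2)).bmul (ce_meas v 2) n hcm
    have j3 : IM (Ψ i) (fun p => Real.log (1 + cn p v 2) * e3 (-u p) ^ 2) :=
      (IM.cont (hS i) (hec2.pow 2)).bmul
        (Real.measurable_log.comp (measurable_const.add (cn_meas v 2))) k hlm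
    exact ((j1.add j2).add j3).congr fun _ p _ => by ring
  have hleft : (1 / 2) * mM Ψ (fun p => |u p| ^ (3 / 2 : ℝ)) ≤
      mM Ψ (fun p => e3 (u p) ^ 2 * u p - e3 (-u p) ^ 2 * u p) + 1 := by
    have e0 : (1 : ℝ) = mM Ψ (fun _ => (1 : ℝ)) := (s32_const hone 1).symm
    have e1 : mM Ψ (fun p => e3 (u p) ^ 2 * u p - e3 (-u p) ^ 2 * u p) + 1 =
        mM Ψ (fun p => e3 (u p) ^ 2 * u p - e3 (-u p) ^ 2 * u p + 1) := by
      rw [s32_add iE i8, s32_const hone]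
    rw [e1, ← s32_cmul]
    refine s32_mono (fun i => (i9 i).cmul _) (fun i => (iE i).add (i8 i)) fun i σ p _ => ?_
    have h1 := e3_two (u p)
    linarith
  have hright : K * mM Ψ (fun p => (4 + 2 * |Real.arsinh (u p)| + 1 + ce p v 2) * e3 (u p) ^ 2 +
      (4 + 2 * |Real.arsinh (u p)| + 1 + Real.log (1 + cn p v 2)) * e3 (-u p) ^ 2 + (q4 1 p v + A)) ≤
      (1 / 4) * mM Ψ (fun p => |u p| ^ (3 / 2 : ℝ)) +
      B * (1 + mM Ψ (fun p => ce p v 2 ^ (3 / 2 : ℝ)) + mM Ψ (fun p => q4 1 p v)) := by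
    have e2 : (1 / 4) * mM Ψ (fun p => |u p| ^ (3 / 2 : ℝ)) +
        B * (1 + mM Ψ (fun p => ce p v 2 ^ (3 / 2 : ℝ)) + mM Ψ (fun p => q4 1 p v)) =
        mM Ψ (fun p => (1 / 4) * |u p| ^ (3 / 2 : ℝ) + B * (1 + ce p v 2 ^ (3 / 2 : ℝ) + q4 1 p v)) := by
      rw [s32_add (fun i => (i9 i).cmul _) (fun i => (((i8 i).add (i10 i)).add (i11 i)).cmul _), s32_cmul,
        s32_cmul, s32_add (fun i => (i8 i).add (i10 i)) i11, s32_add i8 i10, s32_const hone]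
    rw [e2, ← s32_cmul]
    refine s32_mono (fun i => (iH i).cmul K)
      (fun i => ((i9 i).cmul _).add ((((i8 i).add (i10 i)).add (i11 i)).cmul _)) fun i σ p _ => ?_
    have h1 := arsinh_lin (u p) (d := (512 * K)⁻¹) (by positivity)
    rw [← hℓ] at h1
    have h2 := log_cn_sq one_pos le_rfl p v
    have h3 := e3_le (u p)
    have h4 := e3_le (-u p)
    rw [abs_neg] at h4
    have h5 := s32_pt hK hA (abs_nonneg (u p)) h1 (abs_nonneg _) hℓ0 h3 (sq_nonneg _) h4 (sq_nonneg _)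
      (ce_nonneg p v 2) h2.1 h2.2 (s32_q4n 1 one_pos p v) hρ
    rw [← hB] at h5
    exact h5
  have m6 : 0 ≤ mM Ψ (fun p => ce p v 2 ^ (3 / 2 : ℝ)) :=
    sum_nonneg fun i _ => mean_nonneg fun _ p _ => Real.rpow_nonneg (ce_nonneg p v _) _
  have m7 : 0 ≤ mM Ψ (fun p => q4 1 p v) :=
    sum_nonneg fun i _ => mean_nonneg fun _ p _ => s32_q4n 1 one_pos p v
  have hnδ : (1 + (n : ℝ)) * δ ≤ 1 := by
    have h1 : ((n : ℝ) + 1) * (((n : ℝ) + k + 1) ^ 4)⁻¹ ≤ 1 := by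
      rw [← div_eq_mul_inv, div_le_one (by positivity)]
      have h2 : (1 : ℝ) ≤ (n : ℝ) + k + 1 := by
        have h3 : (0 : ℝ) ≤ n := Nat.cast_nonneg n
        have h4 : (0 : ℝ) ≤ k := Nat.cast_nonneg k
        linarith
      have h3 : (n : ℝ) + 1 ≤ (n : ℝ) + k + 1 := by
        have h4 : (0 : ℝ) ≤ k := Nat.cast_nonneg k
        linarith
      exact h3.trans (le_self_pow₀ h2 (by norm_num))
    have h2 := mul_le_mul_of_nonneg_left hδ (show 0 ≤ 1 + (n : ℝ) by positivity)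
    linarith
  simp only [hu']
  generalize mM Ψ (fun p => ce p v 2 ^ (3 / 2 : ℝ)) = c6 at *
  generalize mM Ψ (fun p => q4 1 p v) = c7 at *
  generalize mM Ψ (fun p => |u p| ^ (3 / 2 : ℝ)) = I at *
  have h1 : K * ((1 + (n : ℝ)) * δ) ≤ K * 1 := mul_le_mul_of_nonneg_left hnδ hK.le
  have h2 : (1 / 4) * I ≤ 1 + 2 * K + B * (1 + c6 + c7) := by
    linarith
  have h3 : 1 + 2 * K ≤ (1 + 2 * K) * (1 + c6 + c7) := le_mul_of_one_le_right (by positivity) (by linarith)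
  linarith

end H6.CT
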