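import Pool.Agent.H6.CB.KSum
import Pool.Agent.H6.CB.HFin
import Pool.Agent.H6.CB.VJLow
import Pool.Agent.H6.CB.TSt
import Pool.Agent.H6.CB.PhL3
import Pool.Agent.H6.CT.Defs
import Pool.Agent.H6.CB.TLoc

/-! The lower bound for one wave function used in `Pool/Agent/H6/CB/TLoc.lean` (repeat that part of the proof of `tloc`): `hfin` (with `c = pr χ W z p`), `vjlow`, `tst` (with `K = 2 K0`), `Gs_sum_ge`, `ph_l3`, and `TE ψ x 1 ≤ ∑ kE (J_a ψ)`, `κm * TN ψ x 1 ≤ ∑ κ j kN (J_j ψ)`. -/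

open MeasureTheory Finset

namespace H6.CT

open H6.CM H6.CB H6.CL

private theorem tloc_haar (n k : ℕ) : (volume : Measure (Cfg n k)).IsAddHaarMeasure :=
  Measure.prod.instIsAddHaarMeasure (G := Fin n → E3) (H := Fin k → E3) volume volume

private theorem tloc_null_ker {n k : ℕ} (L : Cfg n k →ₗ[ℝ] E3) (p0 : Cfg n k) (h0 : L p0 ≠ 0) :
    ∀ᵐ p : Cfg n k, L p ≠ 0 := by
  have h : (volume : Measure (Cfg n k)) (LinearMap.ker L : Set (Cfg n k)) = 0 := by
    have := tloc_haar n k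
    apply Measure.addHaar_submodule
    intro h
    apply h0
    have : p0 ∈ LinearMap.ker L := by rw [h]; trivial
    exact this
  rw [ae_iff]
  have e : {a : Cfg n k | ¬L a ≠ 0} = (LinearMap.ker L : Set (Cfg n k)) := by
    ext a; simp
  rw [e]; exact h

private theorem tloc_ae_gen {n k : ℕ} : ∀ᵐ p : Cfg n k, Function.Injective p.1 ∧
    Function.Injective p.2 ∧ ∀ a j, p.1 a ≠ p.2 j := by
  have e : ∃ e : E3, e ≠ 0 := exists_ne 0
  obtain ⟨e, he⟩ := e
  have h1 : ∀ᵐ p : Cfg n k, ∀ a b, a ≠ b → p.1 a ≠ p.1 b := by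
    rw [ae_all_iff]; intro a
    rw [ae_all_iff]; intro b
    by_cases hab : a = b
    · exact Filter.Eventually.of_forall fun p h => absurd hab h
    · have := tloc_null_ker (n := n) (k := k)
        ((LinearMap.proj a ∘ₗ LinearMap.fst ℝ (Fin n → E3) (Fin k → E3)) -
          (LinearMap.proj b ∘ₗ LinearMap.fst ℝ (Fin n → E3) (Fin k → E3)))
        (Pi.single a e, 0) (by simp [Ne.symm hab, he])
      filter_upwards [this] with p hp _ h
      exact hp (by simp [h])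
  have h2 : ∀ᵐ p : Cfg n k, ∀ a b, a ≠ b → p.2 a ≠ p.2 b := by
    rw [ae_all_iff]; intro a
    rw [ae_all_iff]; intro b
    by_cases hab : a = b
    · exact Filter.Eventually.of_forall fun p h => absurd hab h
    · have := tloc_null_ker (n := n) (k := k)
        ((LinearMap.proj a ∘ₗ LinearMap.snd ℝ (Fin n → E3) (Fin k → E3)) -
          (LinearMap.proj b ∘ₗ LinearMap.snd ℝ (Fin n → E3) (Fin k → E3)))
        (0, Pi.single a e) (by simp [Ne.symm hab, he])
      filter_upwards [this] with p hp _ h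
      exact hp (by simp [h])
  have h3 : ∀ᵐ p : Cfg n k, ∀ a j, p.1 a ≠ p.2 j := by
    rw [ae_all_iff]; intro a
    rw [ae_all_iff]; intro j
    have := tloc_null_ker (n := n) (k := k)
        ((LinearMap.proj a ∘ₗ LinearMap.fst ℝ (Fin n → E3) (Fin k → E3)) -
          (LinearMap.proj j ∘ₗ LinearMap.snd ℝ (Fin n → E3) (Fin k → E3)))
        (Pi.single a e, 0) (by simp [he])
    filter_upwards [this] with p hp h
    exact hp (by simp [h])
  filter_upwards [h1, h2, h3] with p h1 h2 h3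
  refine ⟨fun a b h => ?_, fun a b h => ?_, h3⟩
  · by_contra hab; exact h1 a b hab h
  · by_contra hab; exact h2 a b hab h


private theorem tloc_ev {f g : E3 → ℂ} {v : E3} (h : f =ᶠ[nhds v] g) : g3 f v = g3 g v := by
  unfold g3
  rw [h.fderiv_eq]

private theorem tloc_near (x u : E3) (h : ‖u - x‖ < 1) : ∀ᶠ v in nhds u, ‖v - x‖ < 1 := by
  have hc : Continuous (fun v : E3 => ‖v - x‖) := (continuous_id.sub continuous_const).norm
  exact hc.continuousAt.eventually_lt continuousAt_const h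

private theorem tloc_Je {n k : ℕ} {θ : E3 → ℝ} (hθ : Cut θ) (x : E3) (a : Fin n) :
    ContDiff ℝ (⊤ : ℕ∞) (fun p : Cfg n k => Jc θ x 1 (p.1 a)) :=
  (Jc_smooth hθ x 1).comp ((contDiff_apply ℝ E3 a).comp contDiff_fst)

private theorem tloc_Jn {n k : ℕ} {θ : E3 → ℝ} (hθ : Cut θ) (x : E3) (j : Fin k) :
    ContDiff ℝ (⊤ : ℕ∞) (fun p : Cfg n k => Jc θ x 1 (p.2 j)) :=
  (Jc_smooth hθ x 1).comp ((contDiff_apply ℝ E3 j).comp contDiff_snd)

private theorem tloc_te {q n k : ℕ} {Λ : Set E3} {θ : E3 → ℝ} (hθ : Cut θ)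
    {ψ : (Fin n → Fin q) → Cfg n k → ℂ} (hψ : Sm q n k Λ ψ) (x : E3) :
    TE ψ x 1 ≤ ∑ a, kE (mf (fun p => Jc θ x 1 (p.1 a)) ψ) a := by
  unfold TE kE
  refine sum_le_sum fun a _ => sum_le_sum fun σ _ => ?_
  refine integral_mono_of_nonneg (Filter.Eventually.of_forall fun p => ?_)
    (kE_int (mf_sm hψ (tloc_Je hθ x a)) σ a) (Filter.Eventually.of_forall fun p => ?_)
  · dsimp only
    split_ifs
    · exact ge_nonneg _ _ _
    · exact le_refl 0
  · dsimp only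
    split_ifs with h
    · refine le_of_eq ?_
      unfold ge
      refine tloc_ev ?_
      filter_upwards [tloc_near x _ h] with v hv
      unfold mf
      simp only [Function.update_self, Jc_one hθ x 1 one_pos v hv.le, Complex.ofReal_one, one_mul]
    · exact ge_nonneg _ _ _

private theorem tloc_tn {q n k : ℕ} {Λ : Set E3} {θ : E3 → ℝ} (hθ : Cut θ)
    {ψ : (Fin n → Fin q) → Cfg n k → ℂ} (hψ : Sm q n k Λ ψ) (x : E3) :
    TN ψ x 1 ≤ ∑ j, kN (mf (fun p => Jc θ x 1 (p.2 j)) ψ) j := by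
  unfold TN kN
  refine sum_le_sum fun a _ => sum_le_sum fun σ _ => ?_
  refine integral_mono_of_nonneg (Filter.Eventually.of_forall fun p => ?_)
    (kN_int (mf_sm hψ (tloc_Jn hθ x a)) σ a) (Filter.Eventually.of_forall fun p => ?_)
  · dsimp only
    split_ifs
    · exact gn_nonneg _ _ _
    · exact le_refl 0
  · dsimp only
    split_ifs with h
    · refine le_of_eq ?_
      unfold gn
      refine tloc_ev ?_
      filter_upwards [tloc_near x _ h] with v hv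
      unfold mf
      simp only [Function.update_self, Jc_one hθ x 1 one_pos v hv.le, Complex.ofReal_one, one_mul]
    · exact gn_nonneg _ _ _

private theorem tloc_mono {q n k : ℕ} {ψ : (Fin n → Fin q) → Cfg n k → ℂ} {F G : Cfg n k → ℝ}
    (hF : IM ψ F) (hG : IM ψ G) (h : ∀ᵐ p, F p ≤ G p) : mean ψ F ≤ mean ψ G := by
  unfold mean
  refine sum_le_sum fun σ _ => integral_mono_ae (hF σ) (hG σ) ?_
  filter_upwards [h] with p hp
  exact mul_le_mul_of_nonneg_right hp (sq_nonneg _)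

private theorem tloc_ce_joint {n k : ℕ} (r : ℝ) :
    Measurable (fun u : Cfg n k × E3 => ce u.1 u.2 r) := by
  unfold ce
  refine Finset.measurable_fun_sum _ fun a _ => ?_
  have h1 : Measurable (fun u : Cfg n k × E3 => ‖u.1.1 a - u.2‖) :=
    (((meas_e a).comp measurable_fst).sub measurable_snd).norm
  exact Measurable.ite (measurableSet_lt h1 measurable_const) measurable_const measurable_const

private theorem tloc_sup {n k : ℕ} {f : Cfg n k × E3 → ℝ} (hf : Continuous f) (x : E3) (r : ℝ) :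
    ∃ G : Cfg n k → ℝ, Continuous G ∧ ∀ v ∈ Metric.ball x r, ∀ p, |f (p, v)| ≤ G p := by
  have hK : IsCompact (Metric.closedBall x r) := isCompact_closedBall x r
  have h1 : Continuous (fun u : Cfg n k × E3 => |f (u.1, u.2)|) := hf.abs
  have h2 : Continuous (Function.uncurry fun (p : Cfg n k) (v : E3) => |f (p, v)|) := h1
  refine ⟨fun p => sSup ((fun v => |f (p, v)|) '' Metric.closedBall x r), ?_, fun v hv p => ?_⟩
  · exact hK.continuous_sSup (f := fun p v => |f (p, v)|) h2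
  · refine le_csSup ?_ ⟨v, Metric.ball_subset_closedBall hv, rfl⟩
    have h3 : Continuous (fun v => |f (p, v)|) :=
      (hf.comp (continuous_const.prodMk continuous_id)).abs
    exact (hK.image h3).bddAbove

section ex

variable {q n k : ℕ} {Λ : Set E3} {θ χ : E3 → ℝ} (hθ : Cut θ) (hχ : Bump χ)
  {ψ : (Fin n → Fin q) → Cfg n k → ℂ} (hψ : Sm q n k Λ ψ) (x : E3) (l : ℕ) (W : Finset E3)
  (z : Fin k → ℝ)
include hθ hχ hψ

private theorem tloc_sc_pos (l : ℕ) : 0 < sc l := by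
  unfold sc
  positivity

omit hχ in
private theorem tloc_ss :
    IM ψ (fun p => ∫ v in Metric.ball x 12,
      Gs θ x l p ^ 2 * ((sc l ^ 2)⁻¹ * ce p v (7 * sc l) ^ 2)) ∧
    ∫ v in Metric.ball x 12,
      mean ψ (fun p => Gs θ x l p ^ 2 * ((sc l ^ 2)⁻¹ * ce p v (7 * sc l) ^ 2)) =
    mean ψ (fun p => ∫ v in Metric.ball x 12,
      Gs θ x l p ^ 2 * ((sc l ^ 2)⁻¹ * ce p v (7 * sc l) ^ 2)) := by
  have h := mean_ball hψ x 12
    (F := fun v p => Gs θ x l p ^ 2 * ((sc l ^ 2)⁻¹ * ce p v (7 * sc l) ^ 2))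
    (((((Gs_smooth hθ x l).continuous.measurable).comp measurable_fst).pow_const 2).mul
      (((tloc_ce_joint (7 * sc l)).pow_const 2).const_mul _))
    (G := fun _ => (sc l ^ 2)⁻¹ * (n : ℝ) ^ 2) continuous_const (fun v _ p => by
      have h1 := Gs_mem (θ := θ) x l p
      have h2 := ce_nonneg p v (7 * sc l)
      have h3 := ce_le p v (7 * sc l)
      have h4 : (0 : ℝ) ≤ (sc l ^ 2)⁻¹ := by positivity
      have h5 : ce p v (7 * sc l) ^ 2 ≤ (n : ℝ) ^ 2 := pow_le_pow_left₀ h2 h3 2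
      have h6 : Gs θ x l p ^ 2 ≤ 1 := pow_le_one₀ h1.1 h1.2
      rw [abs_of_nonneg (by positivity)]
      calc Gs θ x l p ^ 2 * ((sc l ^ 2)⁻¹ * ce p v (7 * sc l) ^ 2)
          ≤ 1 * ((sc l ^ 2)⁻¹ * (n : ℝ) ^ 2) :=
            mul_le_mul h6 (mul_le_mul_of_nonneg_left h5 h4) (by positivity) zero_le_one
        _ = _ := one_mul _)
  exact ⟨h.2.1, h.2.2⟩

private theorem tloc_ww :
    IM ψ (fun p => ∫ v in Metric.ball x 12, Gs θ x l p ^ 2 * uh χ (sc l) W z p v ^ 2) ∧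
    ∫ v in Metric.ball x 12, mean ψ (fun p => Gs θ x l p ^ 2 * uh χ (sc l) W z p v ^ 2) =
    mean ψ (fun p => ∫ v in Metric.ball x 12, Gs θ x l p ^ 2 * uh χ (sc l) W z p v ^ 2) := by
  have hj := uh_joint hχ (n := n) (sc l) (tloc_sc_pos hθ hχ hψ l) W z
  have hc : Continuous (fun u : Cfg n k × E3 => Gs θ x l u.1 ^ 2 * uh χ (sc l) W z u.1 u.2 ^ 2) :=
    (((Gs_smooth hθ x l).continuous.comp continuous_fst).pow 2).mul (hj.pow 2)
  obtain ⟨G, hG, hGF⟩ := tloc_sup hc x 12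
  have h := mean_ball hψ x 12 (F := fun v p => Gs θ x l p ^ 2 * uh χ (sc l) W z p v ^ 2)
    hc.measurable hG hGF
  exact ⟨h.2.1, h.2.2⟩

private theorem tloc_split (p : Cfg n k) :
    Gs θ x l p ^ 2 * ∫ v in Metric.ball x 12,
      (uh χ (sc l) W z p v ^ 2 + (sc l ^ 2)⁻¹ * ce p v (7 * sc l) ^ 2) =
    (∫ v in Metric.ball x 12, Gs θ x l p ^ 2 * uh χ (sc l) W z p v ^ 2) +
    ∫ v in Metric.ball x 12, Gs θ x l p ^ 2 * ((sc l ^ 2)⁻¹ * ce p v (7 * sc l) ^ 2) := by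
  have hj := uh_joint hχ (n := n) (sc l) (tloc_sc_pos hθ hχ hψ l) W z
  have h1 : IntegrableOn (fun v => uh χ (sc l) W z p v ^ 2) (Metric.ball x 12) := by
    have hc : Continuous (fun v => uh χ (sc l) W z p v ^ 2) :=
      (hj.comp (continuous_const.prodMk continuous_id)).pow 2
    exact (hc.continuousOn.integrableOn_compact (isCompact_closedBall x 12)).mono_set
      Metric.ball_subset_closedBall
  have h2 : IntegrableOn (fun v => (sc l ^ 2)⁻¹ * ce p v (7 * sc l) ^ 2)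
      (Metric.ball x 12) := by
    have hb : IntegrableOn (fun _ : E3 => (sc l ^ 2)⁻¹ * (n : ℝ) ^ 2) (Metric.ball x 12) :=
      integrableOn_const (hs := measure_ball_lt_top.ne)
    refine hb.mono' ?_ (Filter.Eventually.of_forall fun v => ?_)
    · exact ((((tloc_ce_joint (7 * sc l)).comp
        (measurable_const.prodMk measurable_id)).pow_const 2).const_mul _).aestronglyMeasurable
    · have h2 := ce_nonneg p v (7 * sc l)
      have h3 := ce_le p v (7 * sc l)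
      rw [Real.norm_eq_abs, abs_of_nonneg (by positivity)]
      exact mul_le_mul_of_nonneg_left (pow_le_pow_left₀ h2 h3 2) (by positivity)
  rw [integral_add h1 h2, mul_add, ← integral_const_mul, ← integral_const_mul]

end ex

theorem tlocA (q : ℕ) (zm zp κm κp : ℝ) (hzm : 0 < zm) (hκm : 0 < κm)
    {χ : E3 → ℝ} (hχ : Bump χ) {θ : E3 → ℝ} (hθ : Cut θ) : ∃ C : ℝ, 0 ≤ C ∧
    ∀ (n k : ℕ) (Λ : Set E3) (z κ : Fin k → ℝ) (_ : ∀ j, zm ≤ z j ∧ z j ≤ zp)
    (_ : ∀ j, κm ≤ κ j ∧ κ j ≤ κp) (ψ : (Fin n → Fin q) → Cfg n k → ℂ)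
    (_ : St q n k Λ ψ) (W : Finset E3) (x : E3),
    (1 / 4) * (TE ψ x 1 + κm * TN ψ x 1) ≤
      (3 / 4) * (∑ a, kE (mf (fun p => Jc θ x 1 (p.1 a)) ψ) a +
        ∑ j, κ j * kN (mf (fun p => Jc θ x 1 (p.2 j)) ψ) j) +
      mean ψ (fun p => ∑ j, z j * (Jc θ x 1 (p.2 j) ^ 2 *
          (phiN z j p (p.2 j) - pr χ W z p)) -
        ∑ a, Jc θ x 1 (p.1 a) ^ 2 * (phiE z a p (p.1 a) - pr χ W z p)) +
      C * (WW χ θ W z ψ x + SS θ ψ x + mean ψ (fun p => ce p x 4 + cn p x 4)) := by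
  obtain ⟨Ch, hCh, k2⟩ := hfin hθ
  obtain ⟨K0, hK0, k3⟩ := vjlow (max zp 0) (le_max_right _ _) hθ
  obtain ⟨Ct, hCt, k4⟩ := tst q (2 * K0) (by positivity) hθ
  obtain ⟨Cp, hCp, k5⟩ := ph_l3 zm zp hzm hχ
  refine ⟨Ct + 2 * K0 + Ch * Cp, by positivity, ?_⟩
  intro n k Λ z κ hz hκ ψ hψ W x
  have hz0 : ∀ j, 0 ≤ z j := fun j => hzm.le.trans (hz j).1
  have hs := St_sm hψ
  obtain ⟨iS, a2⟩ := k4 n k Λ ψ hψ x
  -- integrability
  have ipr : Continuous (fun p : Cfg n k => pr χ W z p) := by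
    unfold pr
    exact continuous_const.mul
      (continuous_finsetSum _ fun w _ => (ph_smooth hχ 1 one_pos z w).continuous)
  have iX : IM ψ (fun p => ∑ j, z j * (Jc θ x 1 (p.2 j) ^ 2 * (phiN z j p (p.2 j) - pr χ W z p)) -
      ∑ a, Jc θ x 1 (p.1 a) ^ 2 * (phiE z a p (p.1 a) - pr χ W z p)) := by
    refine IM.sub (IM.sum _ fun j _ => ?_) (IM.sum _ fun a _ => ?_)
    · refine IM.cmul (z j) (IM.bmul ((IM_phiN hs z j).sub (IM.cont hs ipr))
        (c := fun p => Jc θ x 1 (p.2 j) ^ 2)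
        ((tloc_Jn hθ x j).continuous.pow 2).measurable 1 fun p => ?_)
      have h1 := Jc_mem hθ x 1 (p.2 j)
      rw [abs_of_nonneg (sq_nonneg _)]
      exact pow_le_one₀ h1.1 h1.2
    · refine IM.bmul ((IM_phiE hs z a).sub (IM.cont hs ipr))
        (c := fun p => Jc θ x 1 (p.1 a) ^ 2)
        ((tloc_Je hθ x a).continuous.pow 2).measurable 1 fun p => ?_
      have h1 := Jc_mem hθ x 1 (p.1 a)
      rw [abs_of_nonneg (sq_nonneg _)]
      exact pow_le_one₀ h1.1 h1.2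
  have i4 : IM ψ (fun p => ce p x 4 + cn p x 4) := (IM_ce hs x 4).add (IM_cn hs x 4)
  have iH : IM ψ (fun p => ∑ l ∈ range (n + 1),
      ((∫ v in Metric.ball x 12, Gs θ x l p ^ 2 * uh χ (sc l) W z p v ^ 2) +
      ∫ v in Metric.ball x 12, Gs θ x l p ^ 2 * ((sc l ^ 2)⁻¹ * ce p v (7 * sc l) ^ 2))) :=
    IM.sum _ fun l _ => (tloc_ww hθ hχ hs x l W z).1.add (tloc_ss hθ hs x l).1
  have eH : mean ψ (fun p => ∑ l ∈ range (n + 1),
      ((∫ v in Metric.ball x 12, Gs θ x l p ^ 2 * uh χ (sc l) W z p v ^ 2) +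
      ∫ v in Metric.ball x 12, Gs θ x l p ^ 2 * ((sc l ^ 2)⁻¹ * ce p v (7 * sc l) ^ 2))) =
      WW χ θ W z ψ x + SS θ ψ x := by
    rw [mean_sum _ fun l _ => (tloc_ww hθ hχ hs x l W z).1.add (tloc_ss hθ hs x l).1]
    unfold WW SS
    rw [← sum_add_distrib]
    refine sum_congr rfl fun l _ => ?_
    rw [mean_add (tloc_ww hθ hχ hs x l W z).1 (tloc_ss hθ hs x l).1,
      (tloc_ww hθ hχ hs x l W z).2, (tloc_ss hθ hs x l).2]
  -- the pointwise bound
  have hpt : ∀ᵐ p : Cfg n k,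
      (-1 : ℝ) * ((2 * K0) * (∑ a, Jc θ x 1 (p.1 a) ^ 2 * (⨆ j, ‖p.1 a - p.2 j‖⁻¹)) +
        ((2 * K0) * (ce p x 4 + cn p x 4) + (Ch * Cp) * ∑ l ∈ range (n + 1),
      ((∫ v in Metric.ball x 12, Gs θ x l p ^ 2 * uh χ (sc l) W z p v ^ 2) +
      ∫ v in Metric.ball x 12, Gs θ x l p ^ 2 * ((sc l ^ 2)⁻¹ * ce p v (7 * sc l) ^ 2)))) ≤
      ∑ j, z j * (Jc θ x 1 (p.2 j) ^ 2 * (phiN z j p (p.2 j) - pr χ W z p)) -
      ∑ a, Jc θ x 1 (p.1 a) ^ 2 * (phiE z a p (p.1 a) - pr χ W z p) := by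
    filter_upwards [tloc_ae_gen (n := n) (k := k)] with p hp
    have b1 := k2 n k z p x (pr χ W z p)
    have b2 := k3 n k z (fun j => ⟨hz0 j, (hz j).2.trans (le_max_left _ _)⟩) p hp.1 hp.2.1 hp.2.2 x
    have b3 : ce p x 2 ≤ ce p x 4 + cn p x 4 := by
      have h1 := ce_mono p (v := x) (w := x) (r := 2) (t := 4) (by simp; norm_num)
      have h2 := cn_nonneg p x 4
      linarith
    have b4 : (∫ v in Metric.ball x 2, (phi z p v - pr χ W z p) ^ 2) ≤
        Cp * ∑ l ∈ range (n + 1),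
        ((∫ v in Metric.ball x 12, Gs θ x l p ^ 2 * uh χ (sc l) W z p v ^ 2) +
        ∫ v in Metric.ball x 12, Gs θ x l p ^ 2 * ((sc l ^ 2)⁻¹ * ce p v (7 * sc l) ^ 2)) := by
      have c1 : 0 ≤ ∫ v in Metric.ball x 2, (phi z p v - pr χ W z p) ^ 2 :=
        integral_nonneg fun v => sq_nonneg _
      have c2 := Gs_sum_ge hθ (k := k) x p
      calc (∫ v in Metric.ball x 2, (phi z p v - pr χ W z p) ^ 2)
          ≤ (∑ l ∈ range (n + 1), Gs θ x l p ^ 2) *
            ∫ v in Metric.ball x 2, (phi z p v - pr χ W z p) ^ 2 :=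
            le_mul_of_one_le_left c1 c2
        _ = ∑ l ∈ range (n + 1), Gs θ x l p ^ 2 *
            ∫ v in Metric.ball x 2, (phi z p v - pr χ W z p) ^ 2 := by rw [sum_mul]
        _ ≤ ∑ l ∈ range (n + 1), Cp *
            ((∫ v in Metric.ball x 12, Gs θ x l p ^ 2 * uh χ (sc l) W z p v ^ 2) +
            ∫ v in Metric.ball x 12,
              Gs θ x l p ^ 2 * ((sc l ^ 2)⁻¹ * ce p v (7 * sc l) ^ 2)) := by
            refine sum_le_sum fun l _ => ?_
            rw [← tloc_split hθ hχ hs x l W z p]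
            have hsl : sc l ≤ 1 := by
              unfold sc
              exact inv_le_one_of_one_le₀ (one_le_pow₀ (by norm_num))
            have c3 := k5 n k z hz W p x (sc l) (tloc_sc_pos hθ hχ hs l) hsl
            calc _ ≤ Gs θ x l p ^ 2 * (Cp * ∫ v in Metric.ball x 12,
                  (uh χ (sc l) W z p v ^ 2 + (sc l ^ 2)⁻¹ * ce p v (7 * sc l) ^ 2)) :=
                  mul_le_mul_of_nonneg_left c3 (sq_nonneg _)
              _ = _ := by ring
        _ = _ := by rw [mul_sum]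
    have b5 := mul_le_mul_of_nonneg_left b4 hCh
    have b6 := mul_le_mul_of_nonneg_left b3 hK0
    refine le_trans ?_ b1
    rw [← mul_assoc] at b5
    linarith
  have iR : IM ψ (fun p => (-1 : ℝ) *
      ((2 * K0) * (∑ a, Jc θ x 1 (p.1 a) ^ 2 * (⨆ j, ‖p.1 a - p.2 j‖⁻¹)) +
        ((2 * K0) * (ce p x 4 + cn p x 4) + (Ch * Cp) * ∑ l ∈ range (n + 1),
      ((∫ v in Metric.ball x 12, Gs θ x l p ^ 2 * uh χ (sc l) W z p v ^ 2) +
      ∫ v in Metric.ball x 12, Gs θ x l p ^ 2 * ((sc l ^ 2)⁻¹ * ce p v (7 * sc l) ^ 2))))) :=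
    IM.cmul _ ((iS.cmul _).add ((i4.cmul _).add (iH.cmul _)))
  have a3 := tloc_mono iR iX hpt
  rw [mean_cmul, mean_add (iS.cmul _) ((i4.cmul _).add (iH.cmul _)), mean_add (i4.cmul _)
    (iH.cmul _), mean_cmul, mean_cmul, mean_cmul, eH] at a3
  -- the rest
  have a5 : 0 ≤ mean ψ (fun p => ce p x 4 + cn p x 4) :=
    mean_nonneg fun _ p _ => add_nonneg (ce_nonneg p x 4) (cn_nonneg p x 4)
  have a6 : 0 ≤ WW χ θ W z ψ x := by
    unfold WW
    exact sum_nonneg fun l _ => integral_nonneg fun v => mean_nonneg fun _ p _ => by positivity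
  have a7 : 0 ≤ SS θ ψ x := by
    unfold SS
    refine sum_nonneg fun l _ => integral_nonneg fun v => mean_nonneg fun _ p _ => ?_
    have h2 := ce_nonneg p v (7 * sc l)
    positivity
  have a8 := tloc_te hθ hs x
  have a9 := tloc_tn hθ hs x
  have a10 : κm * TN ψ x 1 ≤ ∑ j, κ j * kN (mf (fun p => Jc θ x 1 (p.2 j)) ψ) j := by
    refine (mul_le_mul_of_nonneg_left a9 hκm.le).trans ?_
    rw [mul_sum]
    exact sum_le_sum fun j _ => mul_le_mul_of_nonneg_right (hκ j).1 (kN_nonneg _ j)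
  have a11 : 0 ≤ ∑ a, kE (mf (fun p => Jc θ x 1 (p.1 a)) ψ) a :=
    sum_nonneg fun a _ => kE_nonneg _ a
  have a12 : 0 ≤ ∑ j, κ j * kN (mf (fun p => Jc θ x 1 (p.2 j)) ψ) j :=
    sum_nonneg fun j _ => mul_nonneg (hκm.le.trans (hκ j).1) (kN_nonneg _ j)
  generalize mean ψ (fun p => ∑ j, z j * (Jc θ x 1 (p.2 j) ^ 2 *
    (phiN z j p (p.2 j) - pr χ W z p)) -
      ∑ a, Jc θ x 1 (p.1 a) ^ 2 * (phiE z a p (p.1 a) - pr χ W z p)) = X at *
  generalize mean ψ (fun p => ∑ a, Jc θ x 1 (p.1 a) ^ 2 * (⨆ j, ‖p.1 a - p.2 j‖⁻¹)) = S at *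
  generalize ∑ a, kE (mf (fun p => Jc θ x 1 (p.1 a)) ψ) a = KE at *
  generalize ∑ j, κ j * kN (mf (fun p => Jc θ x 1 (p.2 j)) ψ) j = KN at *
  generalize mean ψ (fun p => ce p x 4 + cn p x 4) = M at *
  generalize WW χ θ W z ψ x = w at *
  generalize SS θ ψ x = t at *
  have e : (Ct + 2 * K0 + Ch * Cp) * (w + t + M) =
      (Ct * M + 2 * K0 * M + Ch * Cp * (w + t)) +
      ((Ct + 2 * K0) * (w + t) + Ch * Cp * M) := by
    ring
  have e2 : 0 ≤ (Ct + 2 * K0) * (w + t) + Ch * Cp * M := by positivity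
  rw [e]
  linarith

end H6.CT
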