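import Pool.Agent.H6.CT.KSumT
import Pool.Agent.H6.CT.TLocA
import Pool.Agent.H6.CB.MmF

/-! The local kinetic energy: sum `tlocA` over the family and use `ksumT` with `J = Jc θ x 1` (`Jc_smooth`, `Jc_mem`, `Jc_zero`, `Jc_grad`): `∫ v in Λ, J v ^ 2` is at most the volume of a ball of radius `2`, and `(n + k + C) * δ ≤ C`. -/

open MeasureTheory Finset

namespace H6.CT

open H6.CM H6.CB H6.CL

private theorem tlt_TE0 {q n k : ℕ} (ψ : (Fin n → Fin q) → Cfg n k → ℂ) (x : E3) (r : ℝ) :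
    0 ≤ TE ψ x r := by
  unfold TE
  refine sum_nonneg fun a _ => sum_nonneg fun σ _ => integral_nonneg fun p => ?_
  dsimp only
  split_ifs
  · exact ge_nonneg _ _ _
  · exact le_refl 0

private theorem tlt_TN0 {q n k : ℕ} (ψ : (Fin n → Fin q) → Cfg n k → ℂ) (x : E3) (r : ℝ) :
    0 ≤ TN ψ x r := by
  unfold TN
  refine sum_nonneg fun a _ => sum_nonneg fun σ _ => integral_nonneg fun p => ?_
  dsimp only
  split_ifs
  · exact gn_nonneg _ _ _
  · exact le_refl 0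

theorem tlocT (q : ℕ) (T zm zp κm κp A Kv : ℝ) (hT : 0 ≤ T) (hzm : 0 < zm) (hκm : 0 < κm)
    (hA : 0 ≤ A) (hKv : 0 ≤ Kv) {χ θ : E3 → ℝ} (hχ : Bump χ) (hθ : Cut θ) :
    ∃ C : ℝ, 0 ≤ C ∧
    ∀ (ι : Type) (_ : Fintype ι) (n k : ℕ) (Λ : Set E3) (z κ : Fin k → ℝ) (W : Finset E3)
    (δ : ℝ) (Ψ : ι → (Fin n → Fin q) → Cfg n k → ℂ)
    (_ : Gt q T zm zp κm κp A Kv n k Λ z κ W δ Ψ) (_ : δ ≤ (((n : ℝ) + k + 1) ^ 4)⁻¹)
    (x : E3), TM Ψ x 1 ≤ C * (1 + WM χ θ W z Ψ x + SM θ Ψ x +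
      mM Ψ (fun p => ce p x 4 + cn p x 4)) := by
  obtain ⟨CA, hCA, hA1⟩ := tlocA q zm zp κm κp hzm hκm hχ hθ
  obtain ⟨Ck, hCk, hK⟩ := ksumT q T zm zp κm κp A Kv hT hzm hκm hA hKv hχ
  obtain ⟨C3, hC3, hJg⟩ := Jc_grad hθ
  obtain ⟨V2, hV2⟩ : ∃ V2 : ℝ, V2 = volume.real (Metric.ball (0 : E3) 2) := ⟨_, rfl⟩
  have hV20 : 0 ≤ V2 := by rw [hV2]; exact measureReal_nonneg
  refine ⟨(1 + κm⁻¹) * (4 * (CA + Ck * ((1 + C3) + V2 + (1 + V2)))), by positivity, ?_⟩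
  intro ι _ n k Λ z κ W δ Ψ hG hδ x
  have hsm : ∀ i, Sm q n k Λ (Ψ i) := fun i => St_sm (hG.eq.st i)
  obtain ⟨J, hJ⟩ : ∃ J : E3 → ℝ, J = Jc θ x 1 := ⟨_, rfl⟩
  have hJs : ContDiff ℝ (⊤ : ℕ∞) J := by rw [hJ]; exact Jc_smooth hθ x 1
  have hJm : ∀ v, 0 ≤ J v ∧ J v ≤ 1 := by rw [hJ]; exact Jc_mem hθ x 1
  have hJ2 : ∀ v, J v ^ 2 ≤ (if ‖v - x‖ < 2 then 1 else 0) := by
    intro v
    rw [hJ]
    split_ifs with h
    · exact pow_le_one₀ (Jc_mem hθ x 1 v).1 (Jc_mem hθ x 1 v).2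
    · rw [Jc_zero hθ x 1 one_pos v (by rw [mul_one]; exact not_lt.1 h)]
      norm_num
  have hJgr : ∀ v, gr J v ≤ C3 * (if ‖v - x‖ < 2 then 1 else 0) := by
    intro v
    have h1 := hJg x 1 one_pos v
    rw [← hJ] at h1
    simpa using h1
  have hgr0 : ∀ v, 0 ≤ gr J v := fun v => sum_nonneg fun d _ => sq_nonneg _
  have k1 := hK ι _ n k Λ z κ W δ Ψ hG J hJs hJm
  have k2 : ∀ i, (1 / 4) * (TE (Ψ i) x 1 + κm * TN (Ψ i) x 1) ≤
      ((3 / 4) * (∑ a, kE (mf (fun p => J (p.1 a)) (Ψ i)) a +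
        ∑ j, κ j * kN (mf (fun p => J (p.2 j)) (Ψ i)) j) +
      mean (Ψ i) (fun p => ∑ j, z j * (J (p.2 j) ^ 2 * (phiN z j p (p.2 j) - pr χ W z p)) -
        ∑ a, J (p.1 a) ^ 2 * (phiE z a p (p.1 a) - pr χ W z p))) +
      CA * (WW χ θ W z (Ψ i) x + SS θ (Ψ i) x + mean (Ψ i) (fun p => ce p x 4 + cn p x 4)) := by
    intro i
    rw [hJ]
    exact hA1 n k Λ z κ hG.hz hG.hκ (Ψ i) (hG.eq.st i) W x
  -- the integral of `J ^ 2`
  have hI : ∫ v in Λ, J v ^ 2 ≤ V2 := by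
    have i1 : Integrable ((Metric.ball x 2).indicator (fun _ : E3 => (1 : ℝ))) :=
      (integrableOn_const (hs := measure_ball_lt_top.ne)).integrable_indicator measurableSet_ball
    have h2 : ∀ v, J v ^ 2 ≤ (Metric.ball x 2).indicator (fun _ : E3 => (1 : ℝ)) v := by
      intro v
      refine (hJ2 v).trans (le_of_eq ?_)
      by_cases hv : ‖v - x‖ < 2
      · rw [if_pos hv, Set.indicator_of_mem (mem_ball_iff_norm.2 hv)]
      · rw [if_neg hv, Set.indicator_of_notMem fun h => hv (mem_ball_iff_norm.1 h)]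
    calc ∫ v in Λ, J v ^ 2 ≤ ∫ v in Λ, (Metric.ball x 2).indicator (fun _ : E3 => (1 : ℝ)) v := by
          refine integral_mono_of_nonneg (Filter.Eventually.of_forall fun v => sq_nonneg _)
            i1.integrableOn (Filter.Eventually.of_forall h2)
      _ ≤ ∫ v, (Metric.ball x 2).indicator (fun _ : E3 => (1 : ℝ)) v := by
          refine setIntegral_le_integral i1 (Filter.Eventually.of_forall fun v => ?_)
          exact Set.indicator_nonneg (fun _ _ => zero_le_one) v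
      _ = V2 := by
          rw [integral_indicator measurableSet_ball, setIntegral_const, smul_eq_mul, mul_one,
            hV2, Measure.real, Measure.real, Measure.addHaar_ball_center volume x 2]
  have hI0 : 0 ≤ ∫ v in Λ, J v ^ 2 := integral_nonneg fun v => sq_nonneg _
  -- the mean of the weights
  have hM0 : 0 ≤ mM Ψ (fun p => ce p x 4 + cn p x 4) :=
    sum_nonneg fun i _ => mean_nonneg fun _ p _ => add_nonneg (ce_nonneg p x 4) (cn_nonneg p x 4)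
  have hMM : mM Ψ (fun p => ∑ a, (J (p.1 a) ^ 2 + gr J (p.1 a)) +
        ∑ j, (J (p.2 j) ^ 2 + gr J (p.2 j))) ≤
      (1 + C3) * mM Ψ (fun p => ce p x 4 + cn p x 4) := by
    unfold mM
    rw [mul_sum]
    refine sum_le_sum fun i _ => ?_
    rw [← mean_cmul]
    refine mean_mono0 (fun p => ?_) (((IM_ce (hsm i) x 4).add (IM_cn (hsm i) x 4)).cmul _)
      fun σ p _ => ?_
    · refine add_nonneg (sum_nonneg fun a _ => ?_) (sum_nonneg fun a _ => ?_)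
      · exact add_nonneg (sq_nonneg _) (hgr0 _)
      · exact add_nonneg (sq_nonneg _) (hgr0 _)
    · have h1 := ce_mono p (v := x) (w := x) (r := 2) (t := 4) (by simp; norm_num)
      have h2 := cn_mono p (v := x) (w := x) (r := 2) (t := 4) (by simp; norm_num)
      have h3 : ∑ a, (J (p.1 a) ^ 2 + gr J (p.1 a)) ≤ (1 + C3) * ce p x 2 := by
        unfold ce
        rw [mul_sum]
        refine sum_le_sum fun a _ => ?_
        have a1 := hJ2 (p.1 a)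
        have a2 := hJgr (p.1 a)
        linarith
      have h4 : ∑ j, (J (p.2 j) ^ 2 + gr J (p.2 j)) ≤ (1 + C3) * cn p x 2 := by
        unfold cn
        rw [mul_sum]
        refine sum_le_sum fun a _ => ?_
        have a1 := hJ2 (p.2 a)
        have a2 := hJgr (p.2 a)
        linarith
      have h5 := mul_le_mul_of_nonneg_left (add_le_add h1 h2) (by positivity : 0 ≤ 1 + C3)
      linarith
  -- the error
  have hnk : (1 : ℝ) ≤ (n : ℝ) + k + 1 := by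
    have h1 : (0 : ℝ) ≤ n := Nat.cast_nonneg n
    have h2 : (0 : ℝ) ≤ k := Nat.cast_nonneg k
    linarith
  have hδ1 : δ ≤ ((n : ℝ) + k + 1)⁻¹ := by
    refine hδ.trans (inv_anti₀ (by positivity) ?_)
    calc ((n : ℝ) + k + 1) = ((n : ℝ) + k + 1) ^ 1 := (pow_one _).symm
      _ ≤ ((n : ℝ) + k + 1) ^ 4 := pow_le_pow_right₀ hnk (by norm_num)
  have hδ2 : δ ≤ 1 := hδ1.trans (inv_le_one_of_one_le₀ hnk)
  have hδ0 := hG.hδ
  have hE : ((n : ℝ) + k + ∫ v in Λ, J v ^ 2) * δ ≤ 1 + V2 := by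
    have h1 : ((n : ℝ) + k) * δ ≤ 1 := by
      calc ((n : ℝ) + k) * δ ≤ ((n : ℝ) + k + 1) * ((n : ℝ) + k + 1)⁻¹ := by
            refine mul_le_mul (by linarith) hδ1 hδ0 (by positivity)
        _ = 1 := mul_inv_cancel₀ (by positivity)
    have h2 : (∫ v in Λ, J v ^ 2) * δ ≤ V2 * 1 := mul_le_mul hI hδ2 hδ0 hV20
    linarith
  -- assembly
  have s1 := sum_le_sum fun i (_ : i ∈ (univ : Finset ι)) => k2 i
  rw [sum_add_distrib, ← mul_sum, ← mul_sum] at s1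
  simp only [sum_add_distrib (f := fun i => WW χ θ W z (Ψ i) x + SS θ (Ψ i) x),
    sum_add_distrib (f := fun i => WW χ θ W z (Ψ i) x)] at s1
  have s2 : TM Ψ x 1 ≤ (1 + κm⁻¹) * ∑ i, (TE (Ψ i) x 1 + κm * TN (Ψ i) x 1) := by
    unfold TM
    rw [mul_sum]
    refine sum_le_sum fun i _ => ?_
    have a1 := tlt_TE0 (Ψ i) x 1
    have a2 := tlt_TN0 (Ψ i) x 1
    have a3 : 0 ≤ κm⁻¹ * TE (Ψ i) x 1 := by positivity
    have a4 : κm⁻¹ * (κm * TN (Ψ i) x 1) = TN (Ψ i) x 1 := by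
      rw [← mul_assoc, inv_mul_cancel₀ hκm.ne', one_mul]
    have a5 : 0 ≤ κm * TN (Ψ i) x 1 := by positivity
    have a6 : (1 + κm⁻¹) * (TE (Ψ i) x 1 + κm * TN (Ψ i) x 1) =
        TE (Ψ i) x 1 + κm * TN (Ψ i) x 1 + κm⁻¹ * TE (Ψ i) x 1 + κm⁻¹ * (κm * TN (Ψ i) x 1) := by
      ring
    rw [a6, a4]
    linarith
  have w0 : 0 ≤ WM χ θ W z Ψ x := by
    unfold WM WW
    exact sum_nonneg fun i _ => sum_nonneg fun l _ => integral_nonneg fun v =>
      mean_nonneg fun _ p _ => by positivity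
  have t0 : 0 ≤ SM θ Ψ x := by
    unfold SM SS
    refine sum_nonneg fun i _ => sum_nonneg fun l _ => integral_nonneg fun v =>
      mean_nonneg fun _ p _ => ?_
    have h2 := ce_nonneg p v (7 * sc l)
    positivity
  have ew : ∑ i, WW χ θ W z (Ψ i) x = WM χ θ W z Ψ x := rfl
  have et : ∑ i, SS θ (Ψ i) x = SM θ Ψ x := rfl
  have em : ∑ i, mean (Ψ i) (fun p => ce p x 4 + cn p x 4) =
    mM Ψ (fun p => ce p x 4 + cn p x 4) := rfl
  rw [ew, et, em] at s1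
  generalize mM Ψ (fun p => ce p x 4 + cn p x 4) = M at *
  generalize WM χ θ W z Ψ x = w at *
  generalize SM θ Ψ x = t at *
  have k3 : Ck * (mM Ψ (fun p => ∑ a, (J (p.1 a) ^ 2 + gr J (p.1 a)) +
        ∑ j, (J (p.2 j) ^ 2 + gr J (p.2 j))) +
      (∫ v in Λ, J v ^ 2) + (n + k + ∫ v in Λ, J v ^ 2) * δ) ≤
      Ck * ((1 + C3) * M + V2 + (1 + V2)) :=
    mul_le_mul_of_nonneg_left (add_le_add (add_le_add hMM hI) hE) hCk
  have s3 : ∑ i, (TE (Ψ i) x 1 + κm * TN (Ψ i) x 1) ≤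
      4 * (CA * (w + t + M) + Ck * ((1 + C3) * M + V2 + (1 + V2))) := by
    linarith
  refine s2.trans ?_
  rw [mul_assoc]
  refine mul_le_mul_of_nonneg_left (s3.trans ?_) (by positivity)
  have e : 4 * (CA + Ck * ((1 + C3) + V2 + (1 + V2))) * (1 + w + t + M) =
      4 * (CA * (w + t + M) + Ck * ((1 + C3) * M + V2 + (1 + V2))) +
      4 * (CA + Ck * ((1 + C3) * (1 + w + t) + (V2 + (1 + V2)) * (w + t + M))) := by ring
  rw [e]
  have : 0 ≤ 4 * (CA + Ck * ((1 + C3) * (1 + w + t) + (V2 + (1 + V2)) * (w + t + M))) := by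
    positivity
  linarith

end H6.CT
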