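import Pool.Agent.H6.CT.WwT
import Pool.Agent.H6.CT.Sm32T
import Pool.Agent.H6.CT.TLocT
import Pool.Agent.H6.CT.KTotT
import Pool.Agent.H6.CT.BDefs
import Pool.Agent.H6.CB.Lib

/-! Equilibrium states satisfy the inequalities `Inb`: `wwT`, `sm32T`, `tlocT`; take the sum of the constants. `totT`: `TM Ψ y 1` is at most the total kinetic energy `∑ kE + ∑ kN`, and `kN ≤ κm⁻¹ * (κ j * kN)`; `ktotT` (with `δ ≤ 1`). -/

open MeasureTheory Finset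

namespace H6.CT

open H6.CM H6.CB H6.CL

private theorem mMn {ι : Type} [Fintype ι] {q n k : ℕ} (Ψ : ι → (Fin n → Fin q) → Cfg n k → ℂ)
    {F : Cfg n k → ℝ} (h : ∀ p, 0 ≤ F p) : 0 ≤ mM Ψ F :=
  sum_nonneg fun _ _ => mean_nonneg fun _ p _ => h p

private theorem WMn {ι : Type} [Fintype ι] {q n k : ℕ} (Ψ : ι → (Fin n → Fin q) → Cfg n k → ℂ)
    (χ θ : E3 → ℝ) (W : Finset E3) (z : Fin k → ℝ) (x : E3) : 0 ≤ WM χ θ W z Ψ x :=
  sum_nonneg fun _ _ => sum_nonneg fun _ _ => integral_nonneg fun _ =>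
    mean_nonneg fun _ _ _ => mul_nonneg (sq_nonneg _) (sq_nonneg _)

private theorem SMn {ι : Type} [Fintype ι] {q n k : ℕ} (Ψ : ι → (Fin n → Fin q) → Cfg n k → ℂ)
    (θ : E3 → ℝ) (x : E3) : 0 ≤ SM θ Ψ x :=
  sum_nonneg fun _ _ => sum_nonneg fun _ _ => integral_nonneg fun _ =>
    mean_nonneg fun _ _ _ => mul_nonneg (sq_nonneg _)
      (mul_nonneg (inv_nonneg.2 (sq_nonneg _)) (sq_nonneg _))

private theorem mmn {n k : ℕ} (θ : E3 → ℝ) (x : E3) (p : Cfg n k) : 0 ≤ mm θ x p :=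
  sum_nonneg fun _ _ => sq_nonneg _

theorem instB (q : ℕ) (T zm zp κm κp A Kv : ℝ) (hT : 0 ≤ T) (hzm : 0 < zm) (hκm : 0 < κm)
    (hA : 0 ≤ A) (hKv : 0 ≤ Kv) {χ θ : E3 → ℝ} (hχ : Bump χ) (hθ : Cut θ) : ∃ Ci : ℝ, 0 ≤ Ci ∧
    ∀ (ι : Type) (_ : Fintype ι) (n k : ℕ) (Λ : Set E3) (z κ : Fin k → ℝ) (W : Finset E3)
    (δ : ℝ) (Ψ : ι → (Fin n → Fin q) → Cfg n k → ℂ)
    (_ : Gt q T zm zp κm κp A Kv n k Λ z κ W δ Ψ) (_ : δ ≤ (((n : ℝ) + k + 1) ^ 4)⁻¹),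
    Inb Ci zm zp q n k Λ z W χ θ Ψ := by
  obtain ⟨C1, hC1, h1⟩ := wwT q T zm zp κm κp A Kv hT hzm hκm hA hKv hχ hθ
  obtain ⟨C2, hC2, h2⟩ := sm32T q T zm zp κm κp A Kv hT hzm hκm hA hKv hχ
  obtain ⟨C3, hC3, h3⟩ := tlocT q T zm zp κm κp A Kv hT hzm hκm hA hKv hχ hθ
  refine ⟨C1 + C2 + C3, by positivity, ?_⟩
  intro ι _ n k Λ z κ W δ Ψ hG hδ
  refine ⟨hG.hz, hG.neu, hG.eq.st, hG.eq.one, fun x hx => ?_, fun v hv => ?_, fun x => ?_⟩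
  · refine (h1 ι _ n k Λ z κ W δ Ψ hG hδ x hx).trans ?_
    apply mul_le_mul_of_nonneg_right (by linarith)
    have a1 := mMn Ψ (F := fun p => mm θ x p ^ (4 / 3 : ℝ))
      fun p => Real.rpow_nonneg (mmn θ x p) _
    have a2 := SMn Ψ θ x
    have a3 := mMn Ψ (F := fun p => (1 + mm θ x p ^ (1 / 6 : ℝ)) * (ce p x 14 + cn p x 14))
      fun p => mul_nonneg (add_nonneg zero_le_one (Real.rpow_nonneg (mmn θ x p) _))
        (add_nonneg (ce_nonneg p x 14) (cn_nonneg p x 14))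
    have a4 := mMn Ψ (F := fun p => tl 13 p x) fun p => by
      unfold tl
      refine add_nonneg (sum_nonneg fun a _ => ?_) (sum_nonneg fun j _ => ?_) <;>
        split_ifs <;> positivity
    linarith
  · refine (h2 ι _ n k Λ z κ W δ Ψ hG hδ v hv).trans ?_
    apply mul_le_mul_of_nonneg_right (by linarith)
    have a1 := mMn Ψ (F := fun p => ce p v 2 ^ (3 / 2 : ℝ))
      fun p => Real.rpow_nonneg (ce_nonneg p v 2) _
    have a2 := mMn Ψ (F := fun p => q4 1 p v) fun p => by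
      unfold q4
      positivity
    linarith
  · refine (h3 ι _ n k Λ z κ W δ Ψ hG hδ x).trans ?_
    apply mul_le_mul_of_nonneg_right (by linarith)
    have a1 := WMn Ψ χ θ W z x
    have a2 := SMn Ψ θ x
    have a3 := mMn Ψ (F := fun p => ce p x 4 + cn p x 4)
      fun p => add_nonneg (ce_nonneg p x 4) (cn_nonneg p x 4)
    linarith

private theorem TE_tot {q n k : ℕ} {Λ : Set E3} {ψ : (Fin n → Fin q) → Cfg n k → ℂ}
    (h : Sm q n k Λ ψ) (y : E3) (r : ℝ) : TE ψ y r ≤ ∑ a, kE ψ a := by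
  unfold TE kE
  refine sum_le_sum fun a _ => sum_le_sum fun σ _ => ?_
  refine integral_mono_of_nonneg (Filter.Eventually.of_forall fun p => ?_) (kE_int h σ a)
    (Filter.Eventually.of_forall fun p => ?_)
  · simp only [Pi.zero_apply]
    split_ifs
    · exact ge_nonneg _ _ _
    · exact le_rfl
  · simp only
    split_ifs
    · exact le_rfl
    · exact ge_nonneg _ _ _

private theorem TN_tot {q n k : ℕ} {Λ : Set E3} {ψ : (Fin n → Fin q) → Cfg n k → ℂ}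
    (h : Sm q n k Λ ψ) (y : E3) (r : ℝ) : TN ψ y r ≤ ∑ j, kN ψ j := by
  unfold TN kN
  refine sum_le_sum fun a _ => sum_le_sum fun σ _ => ?_
  refine integral_mono_of_nonneg (Filter.Eventually.of_forall fun p => ?_) (kN_int h σ a)
    (Filter.Eventually.of_forall fun p => ?_)
  · simp only [Pi.zero_apply]
    split_ifs
    · exact gn_nonneg _ _ _
    · exact le_rfl
  · simp only
    split_ifs
    · exact le_rfl
    · exact gn_nonneg _ _ _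

theorem totT (q : ℕ) (T zm zp κm κp A Kv : ℝ) (hT : 0 ≤ T) (hzm : 0 < zm) (hκm : 0 < κm)
    (hA : 0 ≤ A) (hKv : 0 ≤ Kv) {χ : E3 → ℝ} (hχ : Bump χ) :
    ∃ C : ℝ, 0 ≤ C ∧
    ∀ (ι : Type) (_ : Fintype ι) (n k : ℕ) (Λ : Set E3) (z κ : Fin k → ℝ) (W : Finset E3)
    (δ : ℝ) (Ψ : ι → (Fin n → Fin q) → Cfg n k → ℂ)
    (_ : Gt q T zm zp κm κp A Kv n k Λ z κ W δ Ψ) (_ : δ ≤ 1),
    ∀ y, TM Ψ y 1 ≤ C * (n + k + 1) := by
  obtain ⟨C, hC, h⟩ := ktotT q T zm zp κm κp A Kv hT hzm hκm hA hKv hχ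
  refine ⟨(1 + κm⁻¹) * C, by positivity, ?_⟩
  intro ι _ n k Λ z κ W δ Ψ hG hδ y
  have h1 := h ι _ n k Λ z κ W δ Ψ hG hδ
  have hst := hG.eq.st
  have h2 : TM Ψ y 1 ≤ ∑ i, ((1 + κm⁻¹) * (∑ a, kE (Ψ i) a + ∑ j, κ j * kN (Ψ i) j)) := by
    unfold TM
    refine sum_le_sum fun i _ => ?_
    have a1 := TE_tot (St_sm (hst i)) y 1
    have a2 := TN_tot (St_sm (hst i)) y 1
    have a3 : 0 ≤ ∑ a, kE (Ψ i) a := sum_nonneg fun a _ => kE_nonneg _ _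
    have a4 : 0 ≤ ∑ j, κ j * kN (Ψ i) j := sum_nonneg fun j _ =>
      mul_nonneg (hκm.le.trans (hG.hκ j).1) (kN_nonneg _ _)
    have a5 : ∑ j, kN (Ψ i) j ≤ κm⁻¹ * ∑ j, κ j * kN (Ψ i) j := by
      rw [mul_sum]
      refine sum_le_sum fun j _ => ?_
      have b1 := kN_nonneg (Ψ i) j
      have b2 := mul_le_mul_of_nonneg_right (hG.hκ j).1 b1
      rw [← div_eq_inv_mul, le_div_iff₀ hκm]
      linarith
    have a6 : 0 ≤ κm⁻¹ := by positivity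
    have a7 : 0 ≤ κm⁻¹ * ∑ a, kE (Ψ i) a := mul_nonneg a6 a3
    linarith
  have h3 : ∑ i, ((1 + κm⁻¹) * (∑ a, kE (Ψ i) a + ∑ j, κ j * kN (Ψ i) j)) =
      (1 + κm⁻¹) * ∑ i, (∑ a, kE (Ψ i) a + ∑ j, κ j * kN (Ψ i) j) := by
    rw [mul_sum]
  rw [h3] at h2
  refine h2.trans ?_
  have h4 : (1 + κm⁻¹) * ∑ i, (∑ a, kE (Ψ i) a + ∑ j, κ j * kN (Ψ i) j) ≤
      (1 + κm⁻¹) * (C * (n + k)) := mul_le_mul_of_nonneg_left h1 (by positivity)
  refine h4.trans ?_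
  have h5 : 0 ≤ (1 + κm⁻¹) * C := by positivity
  nlinarith

end H6.CT
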