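import Pool.Agent.H6.CT.Defs
import Pool.Agent.H6.CB.Lib

/-! Elementary properties of the inner product `ip φ ψ = ∑ σ, ∫ p, conj (φ σ p) * ψ σ p` on wave functions (continuous with compact support, `Sm_sq`), and of sums and multiples of wave functions. `mass_zero`: a continuous function with `∫ ‖ψ‖ ^ 2 = 0` vanishes. `ip_cs`: Cauchy-Schwarz, from `0 ≤ mass (φ - c • ψ)`. `ip_mf`: a real multiplier can be moved to the other side. -/

open MeasureTheory Finset

namespace H6.CT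

open H6.CM H6.CB H6.CL

section

variable {q n k : ℕ} {Λ : Set E3} {φ ψ χ : (Fin n → Fin q) → Cfg n k → ℂ}

theorem ip_int (hφ : Sm q n k Λ φ) (H : (Fin n → Fin q) → Cfg n k → ℂ)
    (hH : ∀ σ, LocallyIntegrable (H σ)) (σ : Fin n → Fin q) :
    Integrable (fun p => (starRingEnd ℂ) (φ σ p) * H σ p) := by
  have h := (hH σ).integrable_smul_left_of_hasCompactSupport
    (g := fun p => (starRingEnd ℂ) (φ σ p)) ?_ ?_
  · simpa only [smul_eq_mul] using h
  · exact Complex.continuous_conj.comp (hφ.smooth σ).continuous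
  · exact (hφ.cpt σ).comp_left (g := fun c : ℂ => (starRingEnd ℂ) c) (by simp)

private theorem Sm_loc (hφ : Sm q n k Λ φ) (σ : Fin n → Fin q) : LocallyIntegrable (φ σ) :=
  (hφ.smooth σ).continuous.locallyIntegrable

theorem ip_self (hφ : Sm q n k Λ φ) : ip φ φ = ((mass φ : ℝ) : ℂ) := by
  unfold ip mass
  rw [Complex.ofReal_sum]
  refine sum_congr rfl fun σ _ => ?_
  rw [← integral_complex_ofReal]
  congr 1
  funext p
  rw [mul_comm, Complex.mul_conj, Complex.normSq_eq_norm_sq]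

theorem ip_conj (φ ψ : (Fin n → Fin q) → Cfg n k → ℂ) :
    (starRingEnd ℂ) (ip φ ψ) = ip ψ φ := by
  unfold ip
  rw [map_sum]
  refine sum_congr rfl fun σ _ => ?_
  rw [← integral_conj]
  congr 1
  funext p
  rw [map_mul, Complex.conj_conj, mul_comm]

theorem ip_add (hχ : Sm q n k Λ χ) (hφ : ∀ σ, LocallyIntegrable (φ σ))
    (hψ : ∀ σ, LocallyIntegrable (ψ σ)) : ip χ (φ + ψ) = ip χ φ + ip χ ψ := by
  unfold ip
  rw [← sum_add_distrib]
  refine sum_congr rfl fun σ _ => ?_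
  rw [← integral_add (ip_int hχ φ hφ σ) (ip_int hχ ψ hψ σ)]
  congr 1
  funext p
  simp only [Pi.add_apply]
  ring

theorem ip_smul (χ φ : (Fin n → Fin q) → Cfg n k → ℂ) (c : ℂ) : ip χ (c • φ) = c * ip χ φ := by
  unfold ip
  rw [mul_sum]
  refine sum_congr rfl fun σ _ => ?_
  rw [← integral_const_mul]
  congr 1
  funext p
  simp only [Pi.smul_apply, smul_eq_mul]
  ring

theorem ip_sum_left {ι : Type} (I : Finset ι) (c : ι → ℂ)
    (Ψ : ι → (Fin n → Fin q) → Cfg n k → ℂ) (hΨ : ∀ i, Sm q n k Λ (Ψ i))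
    (H : (Fin n → Fin q) → Cfg n k → ℂ) (hH : ∀ σ, LocallyIntegrable (H σ)) :
    ip (fun σ p => ∑ i ∈ I, c i * Ψ i σ p) H =
      ∑ i ∈ I, (starRingEnd ℂ) (c i) * ip (Ψ i) H := by
  unfold ip
  simp_rw [mul_sum]
  rw [sum_comm]
  refine sum_congr rfl fun σ _ => ?_
  simp_rw [← integral_const_mul]
  rw [← integral_finsetSum I fun i _ => (ip_int (hΨ i) H hH σ).const_mul _]
  congr 1
  funext p
  rw [map_sum, sum_mul]
  refine sum_congr rfl fun i _ => ?_
  rw [map_mul]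
  ring

private theorem st_smul' (hφ : Sm q n k Λ φ) (c : ℂ) : Sm q n k Λ (c • φ) where
  smooth := fun σ => (hφ.smooth σ).const_smul c
  cpt := fun σ => (hφ.cpt σ).smul_left (f := fun _ => c)
  supp := fun σ p hp => hφ.supp σ p (closure_mono (Function.support_const_smul_subset c (φ σ)) hp)

private theorem st_add' (hφ : Sm q n k Λ φ) (hψ : Sm q n k Λ ψ) : Sm q n k Λ (φ + ψ) where
  smooth := fun σ => (hφ.smooth σ).add (hψ.smooth σ)
  cpt := fun σ => (hφ.cpt σ).add (hψ.cpt σ)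
  supp := fun σ p hp => by
    have h := tsupport_add (φ σ) (ψ σ) hp
    rcases h with h | h
    · exact hφ.supp σ p h
    · exact hψ.supp σ p h

theorem mass_smul (c : ℂ) (φ : (Fin n → Fin q) → Cfg n k → ℂ) :
    mass (c • φ) = ‖c‖ ^ 2 * mass φ := by
  unfold mass
  rw [mul_sum]
  refine sum_congr rfl fun σ _ => ?_
  rw [← integral_const_mul]
  congr 1
  funext p
  simp only [Pi.smul_apply, smul_eq_mul, norm_mul]
  ring

theorem ip_mf (f : Cfg n k → ℝ) (φ ψ : (Fin n → Fin q) → Cfg n k → ℂ) :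
    ip (mf f φ) ψ = ip φ (mf f ψ) := by
  unfold ip mf
  refine sum_congr rfl fun σ _ => ?_
  congr 1
  funext p
  rw [map_mul, Complex.conj_ofReal]
  ring

theorem mass_zero (hφ : Sm q n k Λ φ) (h : mass φ = 0) : φ = 0 := by
  unfold mass at h
  have h1 := (sum_eq_zero_iff_of_nonneg fun σ _ =>
    integral_nonneg fun p => by positivity).1 h
  funext σ
  have h2 := h1 σ (mem_univ _)
  have hc := Sm_sq hφ σ
  rw [integral_eq_zero_iff_of_nonneg (fun p => by positivity)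
    (hc.1.integrable_of_hasCompactSupport hc.2)] at h2
  have h3 : (fun p => ‖φ σ p‖ ^ 2) = 0 := by
    refine (Continuous.ae_eq_iff_eq (μ := (volume : Measure (Cfg n k))) hc.1
      continuous_zero).1 h2
  funext p
  have h4 := congrFun h3 p
  simpa using h4

/-- the algebraic inequality -/
private theorem ip_cs_aux (A B : ℝ) (w : ℂ) (hA : 0 ≤ A) (hB : 0 < B)
    (h : ∀ c : ℂ, 0 ≤ A + 2 * (c * w).re + ‖c‖ ^ 2 * B) : ‖w‖ ^ 2 ≤ A * B := by
  have h1 := h (-(((B : ℝ) : ℂ)⁻¹ * (starRingEnd ℂ) w))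
  have e1 : (-(((B : ℝ) : ℂ)⁻¹ * (starRingEnd ℂ) w) * w).re = -(B⁻¹ * ‖w‖ ^ 2) := by
    have : -(((B : ℝ) : ℂ)⁻¹ * (starRingEnd ℂ) w) * w = ((-(B⁻¹ * ‖w‖ ^ 2) : ℝ) : ℂ) := by
      push_cast
      rw [neg_mul, mul_assoc, mul_comm ((starRingEnd ℂ) w) w, Complex.mul_conj,
        Complex.normSq_eq_norm_sq]
      push_cast
      ring
    rw [this, Complex.ofReal_re]
  have e2 : ‖(-(((B : ℝ) : ℂ)⁻¹ * (starRingEnd ℂ) w))‖ ^ 2 = B⁻¹ ^ 2 * ‖w‖ ^ 2 := by
    rw [norm_neg, norm_mul, norm_inv, Complex.norm_real, RCLike.norm_conj, mul_pow,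
      Real.norm_of_nonneg hB.le]
  rw [e1, e2] at h1
  have h2 : A + 2 * -(B⁻¹ * ‖w‖ ^ 2) + B⁻¹ ^ 2 * ‖w‖ ^ 2 * B = A - B⁻¹ * ‖w‖ ^ 2 := by
    field_simp
    ring
  rw [h2] at h1
  have h3 : B⁻¹ * ‖w‖ ^ 2 ≤ A := by linarith
  rwa [inv_mul_le_iff₀ hB, mul_comm] at h3

theorem ip_cs (hφ : Sm q n k Λ φ) (hψ : Sm q n k Λ ψ) : ‖ip φ ψ‖ ^ 2 ≤ mass φ * mass ψ := by
  rcases (mass_nonneg (ψ := ψ)).eq_or_lt with h0 | h0
  · have := mass_zero hψ h0.symm
    subst this
    have : ip φ 0 = 0 := by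
      unfold ip
      simp
    rw [this]
    have := mul_nonneg (mass_nonneg (ψ := φ)) (mass_nonneg (ψ := (0 : (Fin n → Fin q) → Cfg n k → ℂ)))
    simpa using this
  refine ip_cs_aux _ _ _ mass_nonneg h0 fun c => ?_
  have hc := st_smul' hψ c
  have hs := st_add' hφ hc
  have h1 : ((mass (φ + c • ψ) : ℝ) : ℂ) =
      ((mass φ + 2 * (c * ip φ ψ).re + ‖c‖ ^ 2 * mass ψ : ℝ) : ℂ) := by
    rw [← ip_self hs, ip_add hs (Sm_loc hφ) (Sm_loc hc), ← ip_conj φ (φ + c • ψ),
      ip_add hφ (Sm_loc hφ) (Sm_loc hc), ← ip_conj (c • ψ) (φ + c • ψ),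
      ip_add hc (Sm_loc hφ) (Sm_loc hc), map_add, map_add, ip_conj, ip_conj, ip_conj, ip_conj,
      ip_self hφ, ip_self hc, mass_smul, ip_smul, ← ip_conj φ (c • ψ), ip_smul]
    apply Complex.ext
    · simp [← Complex.ofReal_pow]
      ring
    · simp [← Complex.ofReal_pow]
      ring
  have h2 := Complex.ofReal_injective h1
  rw [← h2]
  exact mass_nonneg

theorem zero_energy (z κ : Fin k → ℝ) : energy z κ (0 : (Fin n → Fin q) → Cfg n k → ℂ) = 0 := by
  have h1 : ∀ a, kE (0 : (Fin n → Fin q) → Cfg n k → ℂ) a = 0 := by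
    intro a
    unfold kE ge g3
    simp
  have h2 : ∀ j, kN (0 : (Fin n → Fin q) → Cfg n k → ℂ) j = 0 := by
    intro a
    unfold kN gn g3
    simp
  unfold energy mean
  simp [h1, h2]

theorem energy_smul (hφ : Sm q n k Λ φ) (z κ : Fin k → ℝ) (c : ℂ) :
    energy z κ (c • φ) = ‖c‖ ^ 2 * energy z κ φ := by
  have hg : ∀ (f : E3 → ℂ) (v : E3), g3 (fun u => c * f u) v = ‖c‖ ^ 2 * g3 f v := by
    intro f v
    unfold g3
    rw [mul_sum]
    refine sum_congr rfl fun d _ => ?_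
    have : fderiv ℝ (fun u => c * f u) v = c • fderiv ℝ f v := by
      exact congrFun (fderiv_const_smul_field (𝕜 := ℝ) (f := f) c) v
    rw [this]
    rw [show (c • fderiv ℝ f v) (EuclideanSpace.single d 1) =
      c * fderiv ℝ f v (EuclideanSpace.single d 1) from rfl, norm_mul]
    ring
  have h1 : ∀ a, kE (c • φ) a = ‖c‖ ^ 2 * kE φ a := by
    intro a
    unfold kE
    rw [mul_sum]
    refine sum_congr rfl fun σ _ => ?_
    rw [← integral_const_mul]
    congr 1
    funext p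
    unfold ge
    rw [← hg]
    rfl
  have h2 : ∀ j, kN (c • φ) j = ‖c‖ ^ 2 * kN φ j := by
    intro j
    unfold kN
    rw [mul_sum]
    refine sum_congr rfl fun σ _ => ?_
    rw [← integral_const_mul]
    congr 1
    funext p
    unfold gn
    rw [← hg]
    rfl
  have h3 : mean (c • φ) (V z) = ‖c‖ ^ 2 * mean φ (V z) := by
    unfold mean
    rw [mul_sum]
    refine sum_congr rfl fun σ _ => ?_
    rw [← integral_const_mul]
    congr 1
    funext p
    simp only [Pi.smul_apply, smul_eq_mul, norm_mul]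
    ring
  unfold energy
  rw [h3, mul_add, mul_add, mul_sum, mul_sum]
  congr 2
  · exact sum_congr rfl fun a _ => h1 a
  · refine sum_congr rfl fun j _ => ?_
    rw [h2 j]
    ring

theorem st_zero : St q n k Λ (0 : (Fin n → Fin q) → Cfg n k → ℂ) where
  smooth := fun σ => contDiff_const
  cpt := fun σ => HasCompactSupport.zero
  supp := fun σ p hp => by
    have : tsupport (0 : Cfg n k → ℂ) = ∅ := by
      rw [tsupport_eq_empty_iff]
    simp [this] at hp
  anti := fun π σ p => by simp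

theorem st_add (hφ : St q n k Λ φ) (hψ : St q n k Λ ψ) : St q n k Λ (φ + ψ) where
  smooth := (st_add' (St_sm hφ) (St_sm hψ)).smooth
  cpt := (st_add' (St_sm hφ) (St_sm hψ)).cpt
  supp := (st_add' (St_sm hφ) (St_sm hψ)).supp
  anti := fun π σ p => by
    simp only [Pi.add_apply]
    rw [hφ.anti, hψ.anti]
    ring

theorem st_smul (hφ : St q n k Λ φ) (c : ℂ) : St q n k Λ (c • φ) where
  smooth := (st_smul' (St_sm hφ) c).smooth
  cpt := (st_smul' (St_sm hφ) c).cpt
  supp := (st_smul' (St_sm hφ) c).supp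
  anti := fun π σ p => by
    simp only [Pi.smul_apply, smul_eq_mul]
    rw [hφ.anti]
    ring

theorem st_sum {ι : Type} (I : Finset ι) (c : ι → ℂ)
    (Ψ : ι → (Fin n → Fin q) → Cfg n k → ℂ) (hΨ : ∀ i, St q n k Λ (Ψ i)) :
    St q n k Λ (fun σ p => ∑ i ∈ I, c i * Ψ i σ p) := by
  classical
  induction I using Finset.induction_on with
  | empty =>
    simp only [sum_empty]
    exact (st_zero : St q n k Λ (0 : (Fin n → Fin q) → Cfg n k → ℂ))
  | insert i I hi ih =>
    have h := st_add (st_smul (hΨ i) (c i)) ih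
    have e : (c i • Ψ i + fun σ p => ∑ i ∈ I, c i * Ψ i σ p) =
        fun σ p => ∑ i ∈ insert i I, c i * Ψ i σ p := by
      funext σ p
      simp only [Pi.add_apply, Pi.smul_apply, smul_eq_mul]
      rw [sum_insert hi]
    rwa [e] at h

end

end H6.CT
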