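import Pool.Agent.H6.CT.RelW
import Pool.Agent.H6.CB.KSum

/-! Relocation of all particles with the weight `J ^ 2`: add `relEW` and `relNW` with the single amplitude `f = 1` (`M = 1`, `x = 0`, `Cf = 1`, index type `Unit`) and `η = 1/4`. `mE (fun _ => 1) J a ψ = mf (fun p => J (p.1 a)) ψ`; `mean_mf`; the gradients are `gr J (p.1 a)` and `κ j * gr J (p.2 j)`. -/

open MeasureTheory Finset

namespace H6.CT

open H6.CM H6.CB H6.CL

private theorem kst_pr_cont {χ : E3 → ℝ} (hχ : Bump χ) {n k : ℕ} (W : Finset E3)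
    (z : Fin k → ℝ) : Continuous (fun p : Cfg n k => pr χ W z p) := by
  have hUc : Continuous (UU χ 1) := (UU_smooth hχ 1 one_pos).continuous
  unfold pr ph
  refine continuous_const.mul (continuous_finsetSum _ fun w _ => Continuous.sub ?_ ?_)
  · refine continuous_finsetSum _ fun l _ => continuous_const.mul (hUc.comp ?_)
    exact continuous_const.sub ((continuous_apply l).comp continuous_snd)
  · refine continuous_finsetSum _ fun a _ => hUc.comp ?_
    exact continuous_const.sub ((continuous_apply a).comp continuous_fst)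

private theorem kst_gr0 (c : ℝ) (v : E3) : gr (fun _ => c) v = 0 := by
  unfold gr
  refine sum_eq_zero fun d _ => ?_
  simp

private theorem kst_gmE {n k : ℕ} (κ : Fin k → ℝ) (J : E3 → ℝ) (a : Fin n) (p : Cfg n k) :
    Gm κ (fun p : Cfg n k => J (p.1 a)) p = gr J (p.1 a) := by
  unfold Gm
  have h1 : ∀ b ∈ (univ : Finset (Fin n)), b ≠ a →
      gr (fun v => J (Function.update p.1 b v a)) (p.1 b) = 0 := by
    intro b _ hb
    have e : (fun v => J (Function.update p.1 b v a)) = fun _ => J (p.1 a) := by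
      funext v
      rw [Function.update_of_ne hb.symm]
    rw [e]
    exact kst_gr0 _ _
  rw [sum_eq_single_of_mem a (mem_univ a) h1]
  simp only [Function.update_self, kst_gr0, mul_zero, sum_const_zero, add_zero]

private theorem kst_gmN {n k : ℕ} (κ : Fin k → ℝ) (J : E3 → ℝ) (j : Fin k) (p : Cfg n k) :
    Gm κ (fun p : Cfg n k => J (p.2 j)) p = κ j * gr J (p.2 j) := by
  unfold Gm
  have h1 : ∀ l ∈ (univ : Finset (Fin k)), l ≠ j →
      κ l * gr (fun v => J (Function.update p.2 l v j)) (p.2 l) = 0 := by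
    intro l _ hl
    have e : (fun v => J (Function.update p.2 l v j)) = fun _ => J (p.2 j) := by
      funext v
      rw [Function.update_of_ne hl.symm]
    rw [e, kst_gr0, mul_zero]
  rw [sum_eq_single_of_mem j (mem_univ j) h1]
  simp only [Function.update_self, kst_gr0, sum_const_zero, zero_add]

theorem ksumT (q : ℕ) (T zm zp κm κp A Kv : ℝ) (hT : 0 ≤ T) (hzm : 0 < zm) (hκm : 0 < κm)
    (hA : 0 ≤ A) (hKv : 0 ≤ Kv) {χ : E3 → ℝ} (hχ : Bump χ) :
    ∃ C : ℝ, 0 ≤ C ∧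
    ∀ (ι : Type) (_ : Fintype ι) (n k : ℕ) (Λ : Set E3) (z κ : Fin k → ℝ) (W : Finset E3)
    (δ : ℝ) (Ψ : ι → (Fin n → Fin q) → Cfg n k → ℂ)
    (_ : Gt q T zm zp κm κp A Kv n k Λ z κ W δ Ψ)
    (J : E3 → ℝ) (_ : ContDiff ℝ (⊤ : ℕ∞) J) (_ : ∀ v, 0 ≤ J v ∧ J v ≤ 1),
    ∑ i, ((3 / 4) * (∑ a, kE (mf (fun p => J (p.1 a)) (Ψ i)) a +
        ∑ j, κ j * kN (mf (fun p => J (p.2 j)) (Ψ i)) j) +
      mean (Ψ i) (fun p => ∑ j, z j * (J (p.2 j) ^ 2 * (phiN z j p (p.2 j) - pr χ W z p)) -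
        ∑ a, J (p.1 a) ^ 2 * (phiE z a p (p.1 a) - pr χ W z p))) ≤
    C * (mM Ψ (fun p => ∑ a, (J (p.1 a) ^ 2 + gr J (p.1 a)) +
        ∑ j, (J (p.2 j) ^ 2 + gr J (p.2 j))) +
      (∫ v in Λ, J v ^ 2) + (n + k + ∫ v in Λ, J v ^ 2) * δ) := by
  obtain ⟨C1, hC1, hE⟩ := relEW q T zm zp κm κp A Kv hT hzm hκm hA hKv hχ (1 / 4) (by norm_num)
  obtain ⟨C2, hC2, hN⟩ := relNW q T zm zp κm κp A Kv hT hzm hκm hA hKv hχ (1 / 4) (by norm_num)
  refine ⟨C1 + C2 * (1 + |κp|), by positivity, ?_⟩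
  intro ι _ n k Λ z κ W δ Ψ hG J hJs hJ
  have hAm : Am (n := n) (k := k) (fun (_ : Unit) (_ : Cfg n k) => (1 : ℝ)) (fun _ => 1)
      (fun _ => 0) 1 :=
    ⟨fun _ => contDiff_const, fun _ _ _ => rfl, fun _ _ => by simp, fun _ => le_rfl, by simp⟩
  have h1 := hE ι _ n k Λ z κ W δ Ψ hG Unit _ _ _ _ _ hAm J hJs hJ
  have h2 := hN ι _ n k Λ z κ W δ Ψ hG Unit _ _ _ _ _ hAm J hJs hJ
  have eE : ∀ (a : Fin n) (ψ : (Fin n → Fin q) → Cfg n k → ℂ),
      mE (fun _ => (1 : ℝ)) J a ψ = mf (fun p => J (p.1 a)) ψ := by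
    intro a ψ
    unfold mE
    simp only [one_mul]
  have eN : ∀ (j : Fin k) (ψ : (Fin n → Fin q) → Cfg n k → ℂ),
      mN (fun _ => (1 : ℝ)) J j ψ = mf (fun p => J (p.2 j)) ψ := by
    intro j ψ
    unfold mN
    simp only [one_mul]
  simp only [univ_unique, sum_singleton, eE, eN, one_mul, kst_gmE, kst_gmN, zero_add, one_pow,
    mul_one, mean_mf] at h1 h2
  have hδ := hG.hδ
  have hκ0 : ∀ j, 0 ≤ κ j := fun j => hκm.le.trans (hG.hκ j).1
  have hκ1 : ∀ j, κ j ≤ |κp| := fun j => (hG.hκ j).2.trans (le_abs_self κp)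
  have hI0 : 0 ≤ ∫ v in Λ, J v ^ 2 := integral_nonneg fun v => sq_nonneg _
  have hfE : ∀ a : Fin n, ContDiff ℝ (⊤ : ℕ∞) (fun p : Cfg n k => J (p.1 a)) := fun a =>
    hJs.comp ((contDiff_apply ℝ E3 a).comp contDiff_fst)
  have hfN : ∀ j : Fin k, ContDiff ℝ (⊤ : ℕ∞) (fun p : Cfg n k => J (p.2 j)) := fun j =>
    hJs.comp ((contDiff_apply ℝ E3 j).comp contDiff_snd)
  have hprc : Continuous (fun p : Cfg n k => pr χ W z p) := kst_pr_cont hχ W z
  have hgc : Continuous (fun v => gr J v) := by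
    unfold gr
    have h1 : Continuous (fderiv ℝ J) := hJs.continuous_fderiv (by simp)
    exact continuous_finsetSum _ fun d _ => ((h1.clm_apply continuous_const).pow 2)
  have hgr0 : ∀ v, 0 ≤ gr J v := fun v => sum_nonneg fun d _ => sq_nonneg _
  have cgE : ∀ a : Fin n, Continuous (fun p : Cfg n k => gr J (p.1 a)) := fun a =>
    hgc.comp ((continuous_apply a).comp continuous_fst)
  have cgN : ∀ j : Fin k, Continuous (fun p : Cfg n k => gr J (p.2 j)) := fun j =>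
    hgc.comp ((continuous_apply j).comp continuous_snd)
  -- the left side
  have hL : ∀ i, (3 / 4) * (∑ a, kE (mf (fun p => J (p.1 a)) (Ψ i)) a +
        ∑ j, κ j * kN (mf (fun p => J (p.2 j)) (Ψ i)) j) +
      mean (Ψ i) (fun p => ∑ j, z j * (J (p.2 j) ^ 2 * (phiN z j p (p.2 j) - pr χ W z p)) -
        ∑ a, J (p.1 a) ^ 2 * (phiE z a p (p.1 a) - pr χ W z p)) =
      (∑ a, ((1 - 1 / 4) * kE (mf (fun p => J (p.1 a)) (Ψ i)) a -
        mean (Ψ i) (fun p => J (p.1 a) ^ 2 * phiE z a p (p.1 a)) +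
        mean (Ψ i) (fun p => J (p.1 a) ^ 2 * pr χ W z p))) +
      ∑ j, ((1 - 1 / 4) * (κ j * kN (mf (fun p => J (p.2 j)) (Ψ i)) j) +
        z j * mean (Ψ i) (fun p => J (p.2 j) ^ 2 * phiN z j p (p.2 j)) -
        z j * mean (Ψ i) (fun p => J (p.2 j) ^ 2 * pr χ W z p)) := by
    intro i
    have hsm := St_sm (hG.eq.st i)
    have iE : ∀ a : Fin n, IM (Ψ i) (fun p => J (p.1 a) ^ 2 * phiE z a p (p.1 a)) := fun a =>
      IM_mf.1 (IM_phiE (mf_sm hsm (hfE a)) z a)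
    have iN : ∀ j : Fin k, IM (Ψ i) (fun p => J (p.2 j) ^ 2 * phiN z j p (p.2 j)) := fun j =>
      IM_mf.1 (IM_phiN (mf_sm hsm (hfN j)) z j)
    have iEp : ∀ a : Fin n, IM (Ψ i) (fun p => J (p.1 a) ^ 2 * pr χ W z p) := fun a =>
      IM.cont hsm (((hfE a).continuous.pow 2).mul hprc)
    have iNp : ∀ j : Fin k, IM (Ψ i) (fun p => J (p.2 j) ^ 2 * pr χ W z p) := fun j =>
      IM.cont hsm (((hfN j).continuous.pow 2).mul hprc)
    have hpot : mean (Ψ i) (fun p => ∑ j, z j * (J (p.2 j) ^ 2 * (phiN z j p (p.2 j) -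
        pr χ W z p)) - ∑ a, J (p.1 a) ^ 2 * (phiE z a p (p.1 a) - pr χ W z p)) =
        ∑ j, (z j * mean (Ψ i) (fun p => J (p.2 j) ^ 2 * phiN z j p (p.2 j)) -
          z j * mean (Ψ i) (fun p => J (p.2 j) ^ 2 * pr χ W z p)) -
        ∑ a, (mean (Ψ i) (fun p => J (p.1 a) ^ 2 * phiE z a p (p.1 a)) -
          mean (Ψ i) (fun p => J (p.1 a) ^ 2 * pr χ W z p)) := by
      have e1 : (fun p : Cfg n k => ∑ j, z j * (J (p.2 j) ^ 2 * (phiN z j p (p.2 j) -
          pr χ W z p)) - ∑ a, J (p.1 a) ^ 2 * (phiE z a p (p.1 a) - pr χ W z p)) =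
          fun p => ∑ j, (z j * (J (p.2 j) ^ 2 * phiN z j p (p.2 j)) -
            z j * (J (p.2 j) ^ 2 * pr χ W z p)) -
            ∑ a, (J (p.1 a) ^ 2 * phiE z a p (p.1 a) - J (p.1 a) ^ 2 * pr χ W z p) := by
        funext p
        congr 1
        · exact sum_congr rfl fun j _ => by ring
        · exact sum_congr rfl fun a _ => by ring
      rw [e1, mean_sub (IM.sum _ fun j _ => ((iN j).cmul (z j)).sub ((iNp j).cmul (z j)))
        (IM.sum _ fun a _ => (iE a).sub (iEp a)),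
        mean_sum _ fun j _ => ((iN j).cmul (z j)).sub ((iNp j).cmul (z j)),
        mean_sum _ fun a _ => (iE a).sub (iEp a)]
      congr 1
      · refine sum_congr rfl fun j _ => ?_
        rw [mean_sub ((iN j).cmul (z j)) ((iNp j).cmul (z j)), mean_cmul, mean_cmul]
      · refine sum_congr rfl fun a _ => ?_
        rw [mean_sub (iE a) (iEp a)]
    rw [hpot]
    simp only [sum_add_distrib, sum_sub_distrib, ← mul_sum]
    ring
  rw [sum_congr rfl fun i _ => hL i, sum_add_distrib]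
  -- the right side
  obtain ⟨X, hX⟩ : ∃ X : ℝ, X = mM Ψ (fun p => ∑ a, (J (p.1 a) ^ 2 + gr J (p.1 a))) := ⟨_, rfl⟩
  obtain ⟨Y, hY⟩ : ∃ Y : ℝ, Y = mM Ψ (fun p => ∑ j, (J (p.2 j) ^ 2 + gr J (p.2 j))) := ⟨_, rfl⟩
  have hX0 : 0 ≤ X := by
    rw [hX]
    exact sum_nonneg fun i _ => mean_nonneg fun σ p _ => sum_nonneg fun a _ =>
      add_nonneg (sq_nonneg _) (hgr0 _)
  have hY0 : 0 ≤ Y := by
    rw [hY]
    exact sum_nonneg fun i _ => mean_nonneg fun σ p _ => sum_nonneg fun a _ =>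
      add_nonneg (sq_nonneg _) (hgr0 _)
  have eXY : mM Ψ (fun p => ∑ a, (J (p.1 a) ^ 2 + gr J (p.1 a)) +
        ∑ j, (J (p.2 j) ^ 2 + gr J (p.2 j))) = X + Y := by
    rw [hX, hY]
    unfold mM
    rw [← sum_add_distrib]
    refine sum_congr rfl fun i _ => ?_
    have hsm := St_sm (hG.eq.st i)
    refine mean_add (IM.cont hsm ?_) (IM.cont hsm ?_)
    · exact continuous_finsetSum _ fun a _ => ((hfE a).continuous.pow 2).add (cgE a)
    · exact continuous_finsetSum _ fun j _ => ((hfN j).continuous.pow 2).add (cgN j)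
  have eX : (∑ i, ∑ a, mean (Ψ i) (fun p => J (p.1 a) ^ 2)) +
      (∑ i, mean (Ψ i) (fun p => ∑ a, gr J (p.1 a))) = X := by
    rw [hX]
    unfold mM
    rw [← sum_add_distrib]
    refine sum_congr rfl fun i _ => ?_
    have hsm := St_sm (hG.eq.st i)
    have iE2 : ∀ a : Fin n, IM (Ψ i) (fun p => J (p.1 a) ^ 2) := fun a =>
      IM.cont hsm ((hfE a).continuous.pow 2)
    rw [← mean_sum _ fun a _ => iE2 a,
      ← mean_add (IM.sum _ fun a _ => iE2 a)
        (IM.cont hsm (continuous_finsetSum _ fun a _ => cgE a))]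
    simp only [sum_add_distrib]
  have eY : (∑ i, ∑ j, mean (Ψ i) (fun p => J (p.2 j) ^ 2)) +
      (∑ i, mean (Ψ i) (fun p => ∑ j, κ j * gr J (p.2 j))) ≤ (1 + |κp|) * Y := by
    rw [hY]
    unfold mM
    rw [← sum_add_distrib, mul_sum]
    refine sum_le_sum fun i _ => ?_
    have hsm := St_sm (hG.eq.st i)
    have iN2 : ∀ a : Fin k, IM (Ψ i) (fun p => J (p.2 a) ^ 2) := fun a =>
      IM.cont hsm ((hfN a).continuous.pow 2)
    have i1 : IM (Ψ i) (fun p => ∑ j, J (p.2 j) ^ 2) :=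
      IM.sum _ fun a _ => iN2 a
    have i2 : IM (Ψ i) (fun p => ∑ j, κ j * gr J (p.2 j)) :=
      IM.cont hsm (continuous_finsetSum _ fun a _ => continuous_const.mul (cgN a))
    have i3 : IM (Ψ i) (fun p => ∑ j, (J (p.2 j) ^ 2 + gr J (p.2 j))) :=
      IM.cont hsm (continuous_finsetSum _ fun a _ => ((hfN a).continuous.pow 2).add (cgN a))
    rw [← mean_sum _ fun a _ => iN2 a,
      ← mean_add i1 i2, ← mean_cmul]
    refine mean_mono (i1.add i2) (i3.cmul _) fun σ p _ => ?_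
    rw [← sum_add_distrib, mul_sum]
    refine sum_le_sum fun j _ => ?_
    have g0 := hgr0 (p.2 j)
    have g1 : κ j * gr J (p.2 j) ≤ |κp| * gr J (p.2 j) := mul_le_mul_of_nonneg_right (hκ1 j) g0
    have g2 : 0 ≤ |κp| * J (p.2 j) ^ 2 := by positivity
    linarith
  rw [eXY]
  obtain ⟨I, hI⟩ : ∃ I : ℝ, I = ∫ v in Λ, J v ^ 2 := ⟨_, rfl⟩
  rw [← hI] at h1 h2 hI0 ⊢
  refine (add_le_add h1 h2).trans ?_
  have k1 : C1 * ((∑ i, ∑ a, mean (Ψ i) (fun p => J (p.1 a) ^ 2)) + I +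
      (∑ i, mean (Ψ i) (fun p => ∑ a, gr J (p.1 a))) + ((n : ℝ) + I) * δ) ≤
      C1 * (X + Y + I + ((n : ℝ) + k + I) * δ) := by
    refine mul_le_mul_of_nonneg_left ?_ hC1
    have : 0 ≤ (k : ℝ) * δ := by positivity
    linarith
  have k2 : C2 * ((∑ i, ∑ j, mean (Ψ i) (fun p => J (p.2 j) ^ 2)) + I +
      (∑ i, mean (Ψ i) (fun p => ∑ j, κ j * gr J (p.2 j))) + ((k : ℝ) + I) * δ) ≤
      C2 * ((1 + |κp|) * (X + Y + I + ((n : ℝ) + k + I) * δ)) := by
    refine mul_le_mul_of_nonneg_left ?_ hC2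
    have g1 : 0 ≤ (n : ℝ) * δ := by positivity
    have g2 : 0 ≤ |κp| * (I + ((n : ℝ) + k + I) * δ) := by positivity
    have g3 : 0 ≤ (1 + |κp|) * X := by positivity
    linarith
  refine (add_le_add k1 k2).trans (le_of_eq ?_)
  ring

end H6.CT
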