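import Pool.Agent.H6.CT.IpL
import Pool.Agent.H6.CM.Asym
import Pool.Agent.H6.CM.TriSt
import Pool.Agent.H6.CB.Lib

/-! The relocated wave functions are wave functions. `trf_smooth`: the integral over `ξ` of a smooth function with compact support times a bounded measurable function is smooth in the other variables (`contDiff_parametric..`/differentiation under the integral, `hasFDerivAt_integral_of_dominated_of_fderiv_le`, or `ContDiff` of a convolution: `contDiff_of_differentiable_iteratedFDeriv`; the map `p ↦ ∫ ξ, f ξ * φ (Function.update p.1 a ξ, p.2)` is an integral over a fixed compact set of a jointly smooth function with respect to a finite complex measure, e.g. `hasCompactSupport.contDiff_convolution_right` style arguments or induction over the order). Supports: `p ∈ tsupport` implies that the positions other than `p.1 a` are in a compact subset of `Λ` (projection of the compact support), and `‖p.1 a - w‖ ≤ r / 2`. Compare `tri_smooth`, `tri_supp`, `tri_anti`,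 `tri_far` in `Pool/Agent/H6/CM/TriSt.lean`. `atr`: `anti_st`, `anti_mass`, `anti_energy` (`Pool/Agent/H6/CM/AsymA.lean` and the files which import it), and `(sqrt n)⁻¹ ^ 2 * n = 1`. -/

open MeasureTheory Finset

namespace H6.CT

open H6.CM H6.CB H6.CL

/-- smoothness of a parametric integral over a compact set -/
theorem trf_par {n k : ℕ} (φ : Cfg n k → ℂ) (hφ : ContDiff ℝ (⊤ : ℕ∞) φ)
    (Φ : Cfg n k × E3 → Cfg n k) (hΦ : ContDiff ℝ (⊤ : ℕ∞) Φ) (K : Set E3) (hK : IsCompact K)
    (h0 : ∀ p ξ, ξ ∉ K → φ (Φ (p, ξ)) = 0) (f : E3 → ℝ) (hf : Measurable f)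
    (M : ℝ) (hM : ∀ v, |f v| ≤ M) :
    ContDiff ℝ (⊤ : ℕ∞) fun p : Cfg n k => ∫ ξ, ((f ξ : ℝ) : ℂ) * φ (Φ (p, ξ)) := by
  have hloc : LocallyIntegrable f := by
    intro x
    refine ⟨Metric.ball x 1, Metric.ball_mem_nhds x one_pos, ?_⟩
    refine Measure.integrableOn_of_bounded (M := M) measure_ball_lt_top.ne
      hf.aestronglyMeasurable ?_
    exact Filter.Eventually.of_forall fun v => hM v
  have h1 := contDiffOn_convolution_right_with_param (n := (⊤ : ℕ∞)) (μ := volume)
    (ContinuousLinearMap.lsmul ℝ ℝ : ℝ →L[ℝ] ℂ →L[ℝ] ℂ) (f := f)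
    (g := fun (p : Cfg n k) (x : E3) => φ (Φ (p, -x))) (s := Set.univ) (k := -K)
    isOpen_univ hK.neg (fun p x _ hx => h0 p (-x) (by simpa using hx)) hloc (by
      refine ContDiff.contDiffOn ?_
      exact hφ.comp (hΦ.comp (contDiff_fst.prodMk contDiff_snd.neg)))
  rw [Set.univ_prod_univ, contDiffOn_univ] at h1
  have h2 : ContDiff ℝ (⊤ : ℕ∞) fun p : Cfg n k => ((p, (0 : E3)) : Cfg n k × E3) :=
    contDiff_id.prodMk contDiff_const
  have h3 := h1.comp h2
  convert h3 using 1
  funext p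
  simp only [Function.comp_apply, MeasureTheory.convolution_def, ContinuousLinearMap.lsmul_apply,
    zero_sub, neg_neg]
  rfl

section

variable {q n k : ℕ} {Λ : Set E3} {φ : (Fin n → Fin q) → Cfg n k → ℂ} {χ : E3 → ℝ}

/-- the values of the relocated function different from zero -/
private theorem trf_ne (χ : E3 → ℝ) (r : ℝ) (a : Fin n) (w : E3) (f : E3 → ℝ) (α τ : Fin q)
    (σ : Fin n → Fin q) (p : Cfg n k) (hp : trf χ r a w f α τ φ σ p ≠ 0) :
    chr χ r (p.1 a - w) ≠ 0 ∧ ∃ ξ, φ (Function.update σ a τ) (Function.update p.1 a ξ, p.2) ≠ 0 := by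
  unfold trf at hp
  by_cases hσ : σ a = α
  · rw [if_pos hσ] at hp
    have h1 := left_ne_zero_of_mul hp
    have h2 := right_ne_zero_of_mul hp
    refine ⟨fun h => h1 (by rw [h]; simp), ?_⟩
    by_contra hno
    push Not at hno
    apply h2
    simp only [hno, mul_zero, integral_zero]
  · rw [if_neg hσ] at hp
    exact absurd rfl hp

private theorem trf_upd (a : Fin n) : ContDiff ℝ (⊤ : ℕ∞) fun u : Cfg n k × E3 =>
    ((Function.update u.1.1 a u.2, u.1.2) : Cfg n k) := by
  refine ContDiff.prodMk ?_ (contDiff_snd.comp contDiff_fst)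
  rw [contDiff_pi]
  intro b
  by_cases hb : b = a
  · subst hb
    simp only [Function.update_self]
    exact contDiff_snd
  · simp only [Function.update_of_ne hb]
    exact (contDiff_apply ℝ E3 b).comp (contDiff_fst.comp contDiff_fst)

/-- the compact set which contains the support -/
private theorem trf_K (hc : ∀ σ, HasCompactSupport (φ σ)) (a : Fin n) (w : E3) (r : ℝ)
    (σ : Fin n → Fin q) :
    IsCompact ((fun u : E3 × Cfg n k => ((Function.update u.2.1 a u.1, u.2.2) : Cfg n k)) ''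
      (Metric.closedBall w (r / 2) ×ˢ tsupport (φ σ))) := by
  refine IsCompact.image ((isCompact_closedBall w (r / 2)).prod (hc _)) ?_
  exact Continuous.prodMk ((continuous_fst.comp continuous_snd).update a continuous_fst)
    (continuous_snd.comp continuous_snd)

private theorem trf_sub (hχ : Bump χ) (r : ℝ) (hr : 0 < r) (a : Fin n) (w : E3) (f : E3 → ℝ)
    (α τ : Fin q) (σ : Fin n → Fin q) : Function.support (trf χ r a w f α τ φ σ) ⊆
    ((fun u : E3 × Cfg n k => ((Function.update u.2.1 a u.1, u.2.2) : Cfg n k)) ''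
      (Metric.closedBall w (r / 2) ×ˢ tsupport (φ (Function.update σ a τ)))) := by
  intro p hp
  obtain ⟨h1, ξ, h3⟩ := trf_ne χ r a w f α τ σ p hp
  refine ⟨(p.1 a, (Function.update p.1 a ξ, p.2)), ⟨?_, subset_tsupport _ h3⟩, ?_⟩
  · rw [Metric.mem_closedBall, dist_eq_norm]
    exact (chr_supp hχ r hr _ h1).le
  · change ((Function.update (Function.update p.1 a ξ) a (p.1 a), p.2) : Cfg n k) = p
    rw [Function.update_idem, Function.update_eq_self]

theorem trf_sm (hφ : Sm q n k Λ φ) (hχ : Bump χ) (r : ℝ) (hr : 0 < r) (hr1 : r ≤ 1)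
    (a : Fin n) (w : E3) (hw : Metric.closedBall w 1 ⊆ Λ) (f : E3 → ℝ) (hf : Measurable f)
    (M : ℝ) (hM : ∀ v, |f v| ≤ M) (α τ : Fin q) :
    Sm q n k Λ (trf χ r a w f α τ φ) := by
  refine ⟨fun σ => ?_, fun σ => ?_, fun σ p hp => ?_⟩
  · unfold trf
    by_cases hσ : σ a = α
    · simp only [if_pos hσ]
      have h1 : ContDiff ℝ (⊤ : ℕ∞) fun p : Cfg n k => p.1 a - w :=
        ((contDiff_apply ℝ E3 a).comp contDiff_fst).sub contDiff_const
      have h2 : ContDiff ℝ (⊤ : ℕ∞) fun p : Cfg n k => ((chr χ r (p.1 a - w) : ℝ) : ℂ) :=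
        Complex.ofRealCLM.contDiff.comp ((chr_smooth hχ r hr).comp h1)
      refine h2.mul ?_
      refine trf_par (φ (Function.update σ a τ)) (hφ.smooth _)
        (fun u : Cfg n k × E3 => ((Function.update u.1.1 a u.2, u.1.2) : Cfg n k)) (trf_upd a)
        ((fun p : Cfg n k => p.1 a) '' tsupport (φ (Function.update σ a τ)))
        ((hφ.cpt _).image ((continuous_apply a).comp continuous_fst)) ?_ f hf M hM
      intro p ξ hξ
      by_contra hne
      apply hξ
      refine ⟨(Function.update p.1 a ξ, p.2), subset_tsupport _ hne, ?_⟩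
      exact Function.update_self a ξ p.1
    · simp only [if_neg hσ]
      exact contDiff_const
  · exact HasCompactSupport.of_support_subset_isCompact
      (trf_K hφ.cpt a w r (Function.update σ a τ)) (trf_sub hχ r hr a w f α τ σ)
  · have h1 := closure_minimal (trf_sub hχ r hr a w f α τ σ)
      (trf_K hφ.cpt a w r (Function.update σ a τ)).isClosed hp
    obtain ⟨u, ⟨hu1, hu2⟩, rfl⟩ := h1
    obtain ⟨h3, h4⟩ := hφ.supp _ _ hu2
    refine ⟨fun b => ?_, h4⟩
    by_cases hb : b = a
    · subst hb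
      simp only [Function.update_self]
      refine hw (Metric.closedBall_subset_closedBall ?_ hu1)
      linarith
    · simp only [Function.update_of_ne hb]
      exact h3 b

theorem trf_sa (a : Fin n) (hφ : Sa q n k Λ a φ) (hχ : Bump χ) (r : ℝ) (hr : 0 < r)
    (hr1 : r ≤ 1) (w : E3) (hw : Metric.closedBall w 1 ⊆ Λ) (f : E3 → ℝ) (hf : Measurable f)
    (M : ℝ) (hM : ∀ v, |f v| ≤ M) (α τ : Fin q) :
    Sa q n k Λ a (trf χ r a w f α τ φ) := by
  have hS := trf_sm (Sa_sm hφ) hχ r hr hr1 a w hw f hf M hM α τ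
  refine ⟨hS.smooth, hS.cpt, hS.supp, ?_⟩
  intro π hπ σ p
  have hup : ∀ (γ : Type) (f : Fin n → γ) (c : γ),
      Function.update (f ∘ π) a c = Function.update f a c ∘ π := by
    intro γ f c
    funext b
    by_cases hb : b = a
    · subst hb
      rw [Function.update_self, Function.comp_apply, hπ, Function.update_self]
    · have hb' : π b ≠ a := fun h => hb (π.injective (by rw [h, hπ]))
      rw [Function.update_of_ne hb, Function.comp_apply, Function.comp_apply,
        Function.update_of_ne hb']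
  unfold trf
  have h1 : (σ ∘ π) a = σ a := by rw [Function.comp_apply, hπ]
  have h2 : (p.1 ∘ π) a = p.1 a := by rw [Function.comp_apply, hπ]
  rw [h1]
  by_cases hσ : σ a = α
  · rw [if_pos hσ, if_pos hσ]
    dsimp only
    rw [h2]
    have h3 : ∀ ξ : E3, ((f ξ : ℝ) : ℂ) * φ (Function.update (σ ∘ π) a τ)
        (Function.update (p.1 ∘ π) a ξ, p.2) = ((Equiv.Perm.sign π : ℤ) : ℂ) *
        (((f ξ : ℝ) : ℂ) * φ (Function.update σ a τ) (Function.update p.1 a ξ, p.2)) := by
      intro ξ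
      rw [hup, hup, hφ.anti π hπ (Function.update σ a τ) (Function.update p.1 a ξ, p.2)]
      ring
    simp only [h3]
    rw [integral_const_mul]
    ring
  · rw [if_neg hσ, if_neg hσ, mul_zero]

theorem trf_far (a : Fin n) (hχ : Bump χ) (r : ℝ) (hr : 0 < r) (w : E3) (f : E3 → ℝ)
    (α τ : Fin q) (hfar : ∀ σ p, φ σ p ≠ 0 → ∀ b, b ≠ a → r ≤ ‖p.1 b - w‖)
    (σ : Fin n → Fin q) (p : Cfg n k) (hp : trf χ r a w f α τ φ σ p ≠ 0) :
    ‖p.1 a - w‖ ≤ r / 2 ∧ ∀ b, b ≠ a → r ≤ ‖p.1 b - w‖ := by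
  obtain ⟨h1, ξ, h2⟩ := trf_ne χ r a w f α τ σ p hp
  refine ⟨(chr_supp hχ r hr _ h1).le, fun b hb => ?_⟩
  have h3 := hfar _ _ h2 b hb
  simp only [Function.update_of_ne hb] at h3
  exact h3

theorem atr_st (a : Fin n) (hφ : Sa q n k Λ a φ) (hχ : Bump χ) (r : ℝ) (hr : 0 < r)
    (hr1 : r ≤ 1) (w : E3) (hw : Metric.closedBall w 1 ⊆ Λ) (f : E3 → ℝ) (hf : Measurable f)
    (M : ℝ) (hM : ∀ v, |f v| ≤ M) (α τ : Fin q)
    (hfar : ∀ σ p, φ σ p ≠ 0 → ∀ b, b ≠ a → r ≤ ‖p.1 b - w‖) (z κ : Fin k → ℝ) :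
    St q n k Λ (atr χ r a w f α τ φ) ∧
    mass (atr χ r a w f α τ φ) = mass (trf χ r a w f α τ φ) ∧
    energy z κ (atr χ r a w f α τ φ) = energy z κ (trf χ r a w f α τ φ) := by
  have hT := trf_sa a hφ hχ r hr hr1 w hw f hf M hM α τ
  have hA := anti_st a _ hT.smooth hT.cpt hT.supp hT.anti
  have hd := trf_far a hχ r hr w f α τ hfar
  have hm := anti_mass a _ hT.smooth hT.cpt w r hr hd
  have he := anti_energy z κ a _ hT.smooth hT.cpt w r hr hd
  have hn : 0 < (n : ℝ) := by
    have := a.pos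
    exact_mod_cast this
  have heq : atr χ r a w f α τ φ = ((((Real.sqrt n)⁻¹ : ℝ)) : ℂ) •
      anti a (trf χ r a w f α τ φ) := rfl
  have hc : ‖((((Real.sqrt n)⁻¹ : ℝ)) : ℂ)‖ ^ 2 = (n : ℝ)⁻¹ := by
    rw [Complex.norm_real, norm_inv, Real.norm_of_nonneg (Real.sqrt_nonneg _), inv_pow,
      Real.sq_sqrt hn.le]
  rw [heq]
  refine ⟨st_smul hA _, ?_, ?_⟩
  · rw [mass_smul, hc, hm, ← mul_assoc, inv_mul_cancel₀ hn.ne', one_mul]
  · rw [energy_smul (St_sm hA), hc, he, ← mul_assoc, inv_mul_cancel₀ hn.ne', one_mul]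

end

end H6.CT
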