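import Pool.Agent.H6.CT.Defs
import Pool.Agent.H6.CM.NucSt
import Pool.Agent.H6.CT.TrfSt

/-! The wave function after the relocation of nucleus `j` is a wave function: as in `TrfSt.lean` (smoothness of the integral over `ξ`) and `Pool/Agent/H6/CM/NucSt.lean`; the antisymmetry in the electrons is not affected. -/

open MeasureTheory Finset

namespace H6.CT

open H6.CM H6.CB H6.CL

theorem ntr_st {q n k : ℕ} {Λ : Set E3} {φ : (Fin n → Fin q) → Cfg n k → ℂ}
    (hφ : St q n k Λ φ) {χ : E3 → ℝ} (hχ : Bump χ) (r : ℝ) (hr : 0 < r) (hr1 : r ≤ 1)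
    (j : Fin k) (w : E3) (hw : Metric.closedBall w 1 ⊆ Λ) (f : E3 → ℝ) (hf : Measurable f)
    (M : ℝ) (hM : ∀ v, |f v| ≤ M) : St q n k Λ (ntr χ r j w f φ) := by
  have hΦs : ContDiff ℝ (⊤ : ℕ∞)
      (fun u : Cfg n k × E3 => ((u.1.1, Function.update u.1.2 j u.2) : Cfg n k)) := by
    refine (contDiff_fst.comp contDiff_fst).prodMk (contDiff_pi.2 fun l => ?_)
    by_cases h : l = j
    · subst h
      simp only [Function.update_self]
      exact contDiff_snd
    · simp only [Function.update_of_ne h]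
      exact (contDiff_apply ℝ E3 l).comp (contDiff_snd.comp contDiff_fst)
  have hΦ := hΦs.continuous
  have hK : ∀ σ, IsCompact ((fun u : Cfg n k × E3 => ((u.1.1, Function.update u.1.2 j u.2) : Cfg n k)) ''
      (tsupport (φ σ) ×ˢ Metric.closedBall w (r / 2))) := fun σ =>
    ((hφ.cpt σ).isCompact.prod (isCompact_closedBall _ _)).image hΦ
  have hsub : ∀ σ, Function.support (ntr χ r j w f φ σ) ⊆
      (fun u : Cfg n k × E3 => ((u.1.1, Function.update u.1.2 j u.2) : Cfg n k)) ''
      (tsupport (φ σ) ×ˢ Metric.closedBall w (r / 2)) := by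
    intro σ p hp
    rw [Function.mem_support] at hp
    unfold ntr at hp
    have h1 : chr χ r (p.2 j - w) ≠ 0 := by
      intro h0
      apply hp
      simp [h0]
    obtain ⟨ξ, h2⟩ : ∃ ξ, φ σ (p.1, Function.update p.2 j ξ) ≠ 0 := by
      by_contra hno
      push Not at hno
      apply hp
      simp only [hno, mul_zero, integral_zero]
    refine ⟨((p.1, Function.update p.2 j ξ), p.2 j), ⟨subset_tsupport _ h2, ?_⟩, ?_⟩
    · rw [Metric.mem_closedBall, dist_eq_norm]
      exact (chr_supp hχ r hr _ h1).le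
    · ext1
      · rfl
      · simp
  refine ⟨fun σ => ?_, fun σ => ?_, fun σ p hp => ?_, fun π σ p => ?_⟩
  · unfold ntr
    have h1 : ContDiff ℝ (⊤ : ℕ∞) fun p : Cfg n k => p.2 j - w :=
      ((contDiff_apply ℝ E3 j).comp contDiff_snd).sub contDiff_const
    have h2 : ContDiff ℝ (⊤ : ℕ∞) fun p : Cfg n k => ((chr χ r (p.2 j - w) : ℝ) : ℂ) :=
      Complex.ofRealCLM.contDiff.comp ((chr_smooth hχ r hr).comp h1)
    refine h2.mul ?_
    refine trf_par (φ σ) (hφ.smooth _)
      (fun u : Cfg n k × E3 => ((u.1.1, Function.update u.1.2 j u.2) : Cfg n k)) hΦs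
      ((fun p : Cfg n k => p.2 j) '' tsupport (φ σ))
      ((hφ.cpt _).image ((continuous_apply j).comp continuous_snd)) ?_ f hf M hM
    intro p ξ hξ
    by_contra hne
    apply hξ
    refine ⟨(p.1, Function.update p.2 j ξ), subset_tsupport _ hne, ?_⟩
    exact Function.update_self j ξ p.2
  · exact HasCompactSupport.of_support_subset_isCompact (hK σ) (hsub σ)
  · have h1 := closure_minimal (hsub σ) (hK σ).isClosed hp
    obtain ⟨u, ⟨hu1, hu2⟩, rfl⟩ := h1
    obtain ⟨h3, h4⟩ := hφ.supp σ u.1 hu1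
    refine ⟨h3, fun l => ?_⟩
    by_cases h : l = j
    · subst h
      simp only [Function.update_self]
      refine hw (Metric.closedBall_subset_closedBall ?_ hu2)
      linarith
    · simp only [Function.update_of_ne h]
      exact h4 l
  · unfold ntr
    have h1 : ∀ ξ : E3, ((f ξ : ℝ) : ℂ) * φ (σ ∘ π) (p.1 ∘ π, Function.update p.2 j ξ) =
        ((Equiv.Perm.sign π : ℤ) : ℂ) * (((f ξ : ℝ) : ℂ) * φ σ (p.1, Function.update p.2 j ξ)) := by
      intro ξ
      rw [hφ.anti π σ (p.1, Function.update p.2 j ξ)]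
      ring
    simp only [h1]
    rw [integral_const_mul]
    ring

end H6.CT
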