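import Pool.Agent.H6.CT.RelW
import Pool.Agent.H6.CB.P12

/-! The two potential inequalities. `p1T`: add `relE` (with `J = 1`, `r0 = s ^ 2`, `η = 1/2`) and `relNW` (with `J = 1`, `η = 1/2`): the Coulomb terms add up to `2 * V` for every `mf (f b) (Ψ i)` (`sum_rule`, as in `Pool/Agent/H6/CB/P12.lean`), and `(1/2) * ∑ kE + 2 V ≥ - C (n + k)` times the mass by `stabD` with `δ = 1/4` (`mf_st`); the nuclei have nonnegative kinetic energies; `n * (ph χ s z p v - pr χ W z p) = n * uh` (`∑ z j = n`); `∫ v in Λ, 1 ≤ Kv * n`; `∑ a, ∑ b, Gm κ (f b * 1) = n * ∑ b, Gm κ (f b)`; divide by `n` and use `k ≤ n / zm`. `p2T`: the same with `relEW` and `relN`. If `n = 0` then `k = 0` and `uh = 0`, and the right side is nonnegative. -/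

open MeasureTheory Finset

namespace H6.CT

open H6.CM H6.CB H6.CL

private theorem p12t_vsum {q n k : ℕ} {Λ : Set E3} {ψ : (Fin n → Fin q) → Cfg n k → ℂ}
    (hψ : St q n k Λ ψ) (z : Fin k → ℝ) :
    ∑ j, z j * mean ψ (fun p => phiN z j p (p.2 j)) -
      ∑ a, mean ψ (fun p => phiE z a p (p.1 a)) = 2 * mean ψ (V z) := by
  have hS := St_sm hψ
  have e1 : ∑ j, z j * mean ψ (fun p => phiN z j p (p.2 j)) =
      mean ψ (fun p => ∑ j, z j * phiN z j p (p.2 j)) := by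
    rw [mean_sum univ fun j _ => (IM_phiN hS z j).cmul (z j)]
    exact sum_congr rfl fun j _ => (mean_cmul _ _).symm
  have e2 : ∑ a, mean ψ (fun p => phiE z a p (p.1 a)) =
      mean ψ (fun p => ∑ a, phiE z a p (p.1 a)) :=
    (mean_sum univ fun a _ => IM_phiE hS z a).symm
  have i1 : IM ψ (fun p => ∑ j, z j * phiN z j p (p.2 j)) :=
    IM.sum univ fun j _ => (IM_phiN hS z j).cmul (z j)
  have i2 : IM ψ (fun p => ∑ a, phiE z a p (p.1 a)) := IM.sum univ fun a _ => IM_phiE hS z a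
  rw [e1, e2, ← mean_sub i1 i2, ← mean_cmul]
  congr 1
  funext p
  exact sum_rule z p

private theorem p12t_phc {n k : ℕ} {χ : E3 → ℝ} (hχ : Bump χ) (s : ℝ) (hs : 0 < s) (z : Fin k → ℝ) (v : E3) :
    Continuous (fun p : Cfg n k => ph χ s z p v) := by
  have hUc : Continuous (UU χ s) := (UU_smooth hχ s hs).continuous
  unfold ph
  refine Continuous.sub ?_ ?_
  · refine continuous_finsetSum _ fun l _ => continuous_const.mul (hUc.comp ?_)
    exact continuous_const.sub ((continuous_apply l).comp continuous_snd)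
  · refine continuous_finsetSum _ fun a _ => hUc.comp ?_
    exact continuous_const.sub ((continuous_apply a).comp continuous_fst)

private theorem p12t_uh {q n k : ℕ} {Λ : Set E3} {ψ : (Fin n → Fin q) → Cfg n k → ℂ}
    (hψ : Sm q n k Λ ψ) {χ : E3 → ℝ} (hχ : Bump χ) (s : ℝ) (hs : 0 < s) (W : Finset E3) (z : Fin k → ℝ)
    (v : E3) : mean ψ (fun p => uh χ s W z p v) =
      mean ψ (fun p => ph χ s z p v) - mean ψ (fun p => pr χ W z p) := by
  have i1 : IM ψ (fun p => ph χ s z p v) := IM.cont hψ (p12t_phc hχ s hs z v)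
  have i2 : IM ψ (fun p => pr χ W z p) := by
    refine IM.cont hψ ?_
    unfold pr
    exact continuous_const.mul (continuous_finsetSum _ fun w _ => p12t_phc hχ 1 one_pos z w)
  exact mean_sub i1 i2

private theorem p12t_k {n k : ℕ} {zm zp : ℝ} (hzm : 0 < zm) {z : Fin k → ℝ}
    (hz : ∀ j, zm ≤ z j ∧ z j ≤ zp) (hsum : ∑ j, z j = n) : (k : ℝ) ≤ n * (1 / zm) := by
  have h1 : ∑ j : Fin k, zm ≤ ∑ j, z j := Finset.sum_le_sum fun j _ => (hz j).1
  rw [hsum] at h1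
  simp only [Finset.sum_const, Finset.card_univ, Fintype.card_fin, nsmul_eq_mul] at h1
  rw [mul_one_div, le_div_iff₀ hzm]
  exact h1

private theorem p12t_zero {q n k : ℕ} {zm zp : ℝ} (hzm : 0 < zm) {z : Fin k → ℝ}
    (hz : ∀ j, zm ≤ z j ∧ z j ≤ zp) (hsum : ∑ j, z j = n) (hn : n = 0)
    (ψ : (Fin n → Fin q) → Cfg n k → ℂ) (χ : E3 → ℝ) (s : ℝ) (W : Finset E3) (v : E3) :
    mean ψ (fun p => uh χ s W z p v) = 0 := by
  subst hn
  have hk : k = 0 := by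
    by_contra hk
    have : Nonempty (Fin k) := ⟨⟨0, Nat.pos_of_ne_zero hk⟩⟩
    have : 0 < ∑ j, z j := Finset.sum_pos (fun j _ => hzm.trans_le (hz j).1) univ_nonempty
    rw [hsum] at this
    simp at this
  subst hk
  have e : ∀ p : Cfg 0 0, uh χ s W z p v = 0 := by
    intro p
    unfold uh pr ph
    simp
  unfold mean
  simp [e]

private theorem p12t_Gm0 {n k : ℕ} {κ : Fin k → ℝ} (hκ : ∀ j, 0 ≤ κ j) (f : Cfg n k → ℝ)
    (p : Cfg n k) : 0 ≤ Gm κ f p := by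
  unfold Gm gr
  refine add_nonneg (sum_nonneg fun a _ => sum_nonneg fun d _ => sq_nonneg _)
    (sum_nonneg fun j _ => mul_nonneg (hκ j) (sum_nonneg fun d _ => sq_nonneg _))

private theorem p12t_Cf {n k : ℕ} {β : Type} [Fintype β] {f : β → Cfg n k → ℝ} {M x : β → ℝ}
    {Cf : ℝ} (h : Am f M x Cf) : 0 ≤ Cf :=
  (sum_nonneg fun b _ => by positivity).trans h.sum

private theorem p12t_asm {q : ℕ} {T zm zp κm κp A Kv Cs : ℝ} (hzm : 0 < zm) (hκm : 0 < κm)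
    (hKv : 0 ≤ Kv) (hCs : 0 ≤ Cs)
    (hstab : ∀ (n k : ℕ) (Λ : Set E3) (z : Fin k → ℝ)
    (_ : ∀ j, 0 ≤ z j ∧ z j ≤ zp) (ψ : (Fin n → Fin q) → Cfg n k → ℂ) (_ : St q n k Λ ψ),
    -(Cs * (n + k)) * mass ψ ≤ (1 / 4) * ∑ a, kE ψ a + mean ψ (V z))
    {ι : Type} [Fintype ι] {n k : ℕ} {Λ : Set E3} {z κ : Fin k → ℝ} {W : Finset E3}
    {δ : ℝ} {Ψ : ι → (Fin n → Fin q) → Cfg n k → ℂ}
    (hG : Gt q T zm zp κm κp A Kv n k Λ z κ W δ Ψ)
    {β : Type} [Fintype β] {f : β → Cfg n k → ℝ} {M x : β → ℝ} {Cf : ℝ}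
    (hf : Am f M x Cf) (F G P Q S : ι → β → ℝ) {C1 C2 vol : ℝ} (hC1 : 0 ≤ C1) (hC2 : 0 ≤ C2)
    (hvol : vol ≤ Kv * n)
    (h1 : ∑ i, ∑ a, ∑ b, ((1 - 1 / 2) * kE (mf (f b) (Ψ i)) a -
      mean (mf (f b) (Ψ i)) (fun p => phiE z a p (p.1 a)) + F i b) ≤
      C1 * (∑ i, ∑ _a : Fin n, ∑ b, P i b + Cf * vol +
        (∑ i, mean (Ψ i) (fun p => ∑ _a : Fin n, ∑ b, Gm κ (f b) p)) +
        (n * (∑ b, M b ^ 2) + Cf * vol) * δ))
    (h2 : ∑ i, ∑ j, ∑ b, ((1 - 1 / 2) * (κ j * kN (mf (f b) (Ψ i)) j) +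
      z j * mean (mf (f b) (Ψ i)) (fun p => phiN z j p (p.2 j)) - z j * G i b) ≤
      C2 * (∑ i, ∑ _j : Fin k, ∑ b, Q i b + Cf * vol +
        (∑ i, mean (Ψ i) (fun p => ∑ _j : Fin k, ∑ b, Gm κ (f b) p)) +
        (k * (∑ b, M b ^ 2) + Cf * vol) * δ))
    (hP : ∀ i b, P i b ≤ 2 * S i b) (hQ : ∀ i b, Q i b ≤ 2 * S i b)
    (hm : ∀ i b, mass (mf (f b) (Ψ i)) ≤ S i b)
    (h0 : n = 0 → ∀ i b, F i b - G i b = 0) :
    ∑ i, ∑ b, (F i b - G i b) ≤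
      (2 * Cs * (1 + 1 / zm) + (C1 + C2) * (2 + 2 * (1 / zm) + 2 * Kv)) *
      (∑ i, ∑ b, S i b + Cf + ∑ i, ∑ b, mean (Ψ i) (Gm κ (f b)) +
        ((∑ b, M b ^ 2) + Cf) * δ) := by
  have hκ0 : ∀ j, 0 ≤ κ j := fun j => hκm.le.trans (hG.hκ j).1
  have hCf := p12t_Cf hf
  have hδ := hG.hδ
  obtain ⟨s, hs⟩ : ∃ s : ℝ, s = ∑ i, ∑ b, S i b := ⟨_, rfl⟩
  obtain ⟨g, hg⟩ : ∃ g : ℝ, g = ∑ i, ∑ b, mean (Ψ i) (Gm κ (f b)) := ⟨_, rfl⟩
  obtain ⟨m, hm2⟩ : ∃ m : ℝ, m = ∑ b, M b ^ 2 := ⟨_, rfl⟩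
  obtain ⟨X, hX⟩ : ∃ X : ℝ, X = ∑ i, ∑ b, (F i b - G i b) := ⟨_, rfl⟩
  have hS0 : ∀ i b, 0 ≤ S i b := fun i b => mass_nonneg.trans (hm i b)
  have hs0 : 0 ≤ s := by rw [hs]; exact sum_nonneg fun i _ => sum_nonneg fun b _ => hS0 i b
  have hg0 : 0 ≤ g := by
    rw [hg]
    exact sum_nonneg fun i _ => sum_nonneg fun b _ => mean_nonneg fun _ p _ =>
      p12t_Gm0 hκ0 _ _
  have hm0 : 0 ≤ m := by rw [hm2]; exact sum_nonneg fun b _ => sq_nonneg _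
  rw [← hs, ← hg, ← hm2, ← hX]
  have hzi : 0 < 1 / zm := by positivity
  rcases Nat.eq_zero_or_pos n with hn | hn
  · have hX0 : X = 0 := by
      rw [hX]
      exact sum_eq_zero fun i _ => sum_eq_zero fun b _ => h0 hn i b
    rw [hX0]
    positivity
  have hnr : (0 : ℝ) < n := by exact_mod_cast hn
  have hk := p12t_k hzm hG.hz hG.neu
  have hk0 : (0 : ℝ) ≤ k := Nat.cast_nonneg k
  have hst : ∀ i b, St q n k Λ (mf (f b) (Ψ i)) := fun i b =>
    mf_st (hG.eq.st i) (hf.smooth b) (hf.sy b)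
  have key : ∀ i b, (n : ℝ) * (F i b - G i b) - 2 * (Cs * (n + k)) * S i b ≤
      (∑ a, ((1 - 1 / 2) * kE (mf (f b) (Ψ i)) a -
      mean (mf (f b) (Ψ i)) (fun p => phiE z a p (p.1 a)) + F i b)) +
      ∑ j, ((1 - 1 / 2) * (κ j * kN (mf (f b) (Ψ i)) j) +
      z j * mean (mf (f b) (Ψ i)) (fun p => phiN z j p (p.2 j)) - z j * G i b) := by
    intro i b
    have a1 := hstab n k Λ z (fun j => ⟨hzm.le.trans (hG.hz j).1, (hG.hz j).2⟩) _ (hst i b)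
    have a2 := p12t_vsum (hst i b) z
    have a3 : ∑ j, z j * G i b = n * G i b := by
      rw [← sum_mul, hG.neu]
    have a4 : ∑ _a : Fin n, F i b = n * F i b := by simp
    have a6 : 0 ≤ ∑ j, κ j * kN (mf (f b) (Ψ i)) j :=
      sum_nonneg fun j _ => mul_nonneg (hκ0 j) (kN_nonneg _ j)
    have a7 : Cs * (n + k) * mass (mf (f b) (Ψ i)) ≤ Cs * (n + k) * S i b :=
      mul_le_mul_of_nonneg_left (hm i b) (by positivity)
    simp only [sum_add_distrib, sum_sub_distrib, ← mul_sum (a := (1 - 1 / 2 : ℝ))]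
    rw [a3, a4]
    linarith
  have s1 := sum_le_sum fun i (_ : i ∈ (univ : Finset ι)) =>
    sum_le_sum fun b (_ : b ∈ (univ : Finset β)) => key i b
  have e1 : ∑ i, ∑ b, ((∑ a, ((1 - 1 / 2) * kE (mf (f b) (Ψ i)) a -
      mean (mf (f b) (Ψ i)) (fun p => phiE z a p (p.1 a)) + F i b)) +
      ∑ j, ((1 - 1 / 2) * (κ j * kN (mf (f b) (Ψ i)) j) +
      z j * mean (mf (f b) (Ψ i)) (fun p => phiN z j p (p.2 j)) - z j * G i b)) =
      (∑ i, ∑ a, ∑ b, ((1 - 1 / 2) * kE (mf (f b) (Ψ i)) a -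
      mean (mf (f b) (Ψ i)) (fun p => phiE z a p (p.1 a)) + F i b)) +
      ∑ i, ∑ j, ∑ b, ((1 - 1 / 2) * (κ j * kN (mf (f b) (Ψ i)) j) +
      z j * mean (mf (f b) (Ψ i)) (fun p => phiN z j p (p.2 j)) - z j * G i b) := by
    rw [← sum_add_distrib]
    refine sum_congr rfl fun i _ => ?_
    rw [sum_add_distrib, sum_comm]
    congr 1
    rw [sum_comm]
  have e2 : ∑ i, ∑ b, ((n : ℝ) * (F i b - G i b) - 2 * (Cs * (n + k)) * S i b) =
      n * X - 2 * (Cs * (n + k)) * s := by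
    rw [hX, hs]
    simp only [mul_sum, ← sum_sub_distrib]
  rw [e1, e2] at s1
  -- the right sides
  have iG : ∀ i b, IM (Ψ i) (Gm κ (f b)) := fun i b =>
    IM.cont (St_sm (hG.eq.st i)) (Gm_cont κ (hf.smooth b))
  have eG : ∀ N : ℕ, ∑ i, mean (Ψ i) (fun p => ∑ _a : Fin N, ∑ b, Gm κ (f b) p) = N * g := by
    intro N
    rw [hg, mul_sum]
    refine sum_congr rfl fun i _ => ?_
    rw [← mean_sum _ fun b _ => iG i b, ← mean_cmul]
    congr 1
    funext p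
    simp
  have eP : ∀ (N : ℕ) (P : ι → β → ℝ), (∀ i b, P i b ≤ 2 * S i b) →
      ∑ i, ∑ _a : Fin N, ∑ b, P i b ≤ N * (2 * s) := by
    intro N P hP
    rw [hs]
    simp only [mul_sum, sum_const, card_univ, Fintype.card_fin, nsmul_eq_mul]
    refine sum_le_sum fun i _ => sum_le_sum fun b _ => ?_
    exact mul_le_mul_of_nonneg_left (hP i b) (Nat.cast_nonneg N)
  rw [eG, ← hm2] at h1 h2
  have hCv : Cf * vol ≤ Cf * (Kv * n) := mul_le_mul_of_nonneg_left hvol hCf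
  have b1 : C1 * (∑ i, ∑ _a : Fin n, ∑ b, P i b + Cf * vol + n * g + (n * m + Cf * vol) * δ) ≤
      C1 * (n * (2 * s + Cf * Kv + g + (m + Cf * Kv) * δ)) := by
    refine mul_le_mul_of_nonneg_left ?_ hC1
    have c1 := eP n P hP
    have c2 := mul_le_mul_of_nonneg_right hCv hδ
    linarith
  have b2 : C2 * (∑ i, ∑ _j : Fin k, ∑ b, Q i b + Cf * vol + k * g + (k * m + Cf * vol) * δ) ≤
      C2 * (n * (1 / zm * (2 * s) + Cf * Kv + 1 / zm * g + (1 / zm * m + Cf * Kv) * δ)) := by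
    refine mul_le_mul_of_nonneg_left ?_ hC2
    have c1 := eP k Q hQ
    have c2 := mul_le_mul_of_nonneg_right hCv hδ
    have c3 := mul_le_mul_of_nonneg_right hk (by positivity : 0 ≤ 2 * s)
    have c4 := mul_le_mul_of_nonneg_right hk hg0
    have c5 := mul_le_mul_of_nonneg_right hk (by positivity : 0 ≤ m * δ)
    linarith
  have b3 : 2 * (Cs * (n + k)) * s ≤ n * (2 * Cs * (1 + 1 / zm) * s) := by
    have c3 := mul_le_mul_of_nonneg_right hk (by positivity : 0 ≤ 2 * Cs * s)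
    linarith
  have s2 : (n : ℝ) * X ≤ n * (2 * Cs * (1 + 1 / zm) * s +
      C1 * (2 * s + Cf * Kv + g + (m + Cf * Kv) * δ) +
      C2 * (1 / zm * (2 * s) + Cf * Kv + 1 / zm * g + (1 / zm * m + Cf * Kv) * δ)) := by
    linarith
  refine (le_of_mul_le_mul_left s2 hnr).trans ?_
  have d1 : 0 ≤ 2 * Cs * (1 + 1 / zm) * (Cf + g + (m + Cf) * δ) := by positivity
  have d2 : 0 ≤ C1 * ((2 * (1 / zm) + 2 * Kv) * s + (2 + 2 * (1 / zm) + Kv) * Cf +
      (1 + 2 * (1 / zm) + 2 * Kv) * g + (1 + 2 * (1 / zm) + 2 * Kv) * m * δ +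
      (2 + 2 * (1 / zm) + Kv) * Cf * δ) := by positivity
  have d3 : 0 ≤ C2 * ((2 + 2 * Kv) * s + (2 + 2 * (1 / zm) + Kv) * Cf +
      (2 + 1 / zm + 2 * Kv) * g + (2 + 1 / zm + 2 * Kv) * m * δ +
      (2 + 2 * (1 / zm) + Kv) * Cf * δ) := by positivity
  linarith

theorem p1T (q : ℕ) (T zm zp κm κp A Kv : ℝ) (hT : 0 ≤ T) (hzm : 0 < zm) (hκm : 0 < κm)
    (hA : 0 ≤ A) (hKv : 0 ≤ Kv) {χ : E3 → ℝ} (hχ : Bump χ) :
    ∃ C : ℝ, 0 ≤ C ∧
    ∀ (ι : Type) (_ : Fintype ι) (n k : ℕ) (Λ : Set E3) (z κ : Fin k → ℝ) (W : Finset E3)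
    (δ : ℝ) (Ψ : ι → (Fin n → Fin q) → Cfg n k → ℂ)
    (_ : Gt q T zm zp κm κp A Kv n k Λ z κ W δ Ψ)
    (β : Type) (_ : Fintype β) (f : β → Cfg n k → ℝ) (M x : β → ℝ) (Cf : ℝ)
    (_ : Am f M x Cf)
    (s : ℝ) (_ : 0 < s) (_ : s ≤ 1) (v : E3) (_ : Metric.closedBall v 2 ⊆ Λ),
    ∑ i, ∑ b, mean (mf (f b) (Ψ i)) (fun p => uh χ s W z p v) ≤
    C * (∑ i, ∑ b, mean (mf (f b) (Ψ i)) (fun p => x b + (s ^ 4)⁻¹ +
        s⁻¹ * ce p v (2 * s)) +
      Cf + ∑ i, ∑ b, mean (Ψ i) (Gm κ (f b)) + ((∑ b, M b ^ 2) + Cf) * δ) := by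
  obtain ⟨C1, hC1, hE⟩ := relE q T zm zp κm κp A Kv hT hzm hκm hχ (1 / 2) (by norm_num)
  obtain ⟨C2, hC2, hN⟩ := relNW q T zm zp κm κp A Kv hT hzm hκm hA hKv hχ (1 / 2) (by norm_num)
  obtain ⟨Cs, hCs, hS⟩ := stabD q zp (1 / 4) (by norm_num)
  refine ⟨2 * Cs * (1 + 1 / zm) + (C1 + C2) * (2 + 2 * (1 / zm) + 2 * Kv), by positivity, ?_⟩
  intro ι _ n k Λ z κ W δ Ψ hG β _ f M x Cf hf s hs hs1 v hv
  have h1 := hE ι _ n k Λ z κ W δ Ψ hG β _ f M x Cf hf (fun _ => 1) contDiff_const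
    (fun _ => ⟨zero_le_one, le_rfl⟩) s (s ^ 2) (by positivity) (by nlinarith) hs1 v hv
  have h2 := hN ι _ n k Λ z κ W δ Ψ hG β _ f M x Cf hf (fun _ => 1) contDiff_const
    (fun _ => ⟨zero_le_one, le_rfl⟩)
  have eE : ∀ (b : β) (a : Fin n) (ψ : (Fin n → Fin q) → Cfg n k → ℂ),
      mE (f b) (fun _ => 1) a ψ = mf (f b) ψ := by
    intro b a ψ
    unfold mE
    simp only [mul_one]
  have eN : ∀ (b : β) (j : Fin k) (ψ : (Fin n → Fin q) → Cfg n k → ℂ),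
      mN (f b) (fun _ => 1) j ψ = mf (f b) ψ := by
    intro b a ψ
    unfold mN
    simp only [mul_one]
  have hvol : ∫ _v in Λ, ((1 : ℝ) ^ 2) = (volume Λ).toReal := by
    rw [setIntegral_const, smul_eq_mul, one_pow, mul_one, Measure.real]
  have e1 : ((s ^ 2) ^ 2)⁻¹ = (s ^ 4)⁻¹ := by
    congr 1
    ring
  have e2 : s ^ 2 * (s ^ 3)⁻¹ + s⁻¹ = 2 * s⁻¹ := by
    field_simp
    norm_num
  have e3 : ∀ b : β, (fun p : Cfg n k => f b p * 1) = f b := fun b => funext fun p => mul_one _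
  simp only [eE, hvol, e1, e2, e3] at h1
  simp only [eN, hvol, e3] at h2
  have hst : ∀ i b, Sm q n k Λ (mf (f b) (Ψ i)) := fun i b =>
    mf_sm (St_sm (hG.eq.st i)) (hf.smooth b)
  have hs4 : (1 : ℝ) ≤ (s ^ 4)⁻¹ :=
    (one_le_inv₀ (by positivity)).2 (pow_le_one₀ hs.le hs1)
  have iS : ∀ i b, IM (mf (f b) (Ψ i)) (fun p => x b + (s ^ 4)⁻¹ + s⁻¹ * ce p v (2 * s)) :=
    fun i b => (IM.cont (hst i b) continuous_const).add ((IM_ce (hst i b) v _).cmul _)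
  have hsi : 0 < s⁻¹ := by positivity
  have hres := p12t_asm hzm hκm hKv hCs hS hG hf
    (fun i b => mean (mf (f b) (Ψ i)) (fun p => ph χ s z p v))
    (fun i b => mean (mf (f b) (Ψ i)) (fun p => pr χ W z p))
    (fun i b => mean (mf (f b) (Ψ i)) (fun p => x b + (s ^ 4)⁻¹ + 2 * s⁻¹ * ce p v (2 * s)))
    (fun i b => mean (mf (f b) (Ψ i)) (fun _ => x b + 1))
    (fun i b => mean (mf (f b) (Ψ i)) (fun p => x b + (s ^ 4)⁻¹ + s⁻¹ * ce p v (2 * s)))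
    hC1 hC2 hG.hV h1 h2
    (fun i b => by
      rw [← mean_cmul]
      refine mean_mono ((IM.cont (hst i b) continuous_const).add ((IM_ce (hst i b) v _).cmul _))
        ((iS i b).cmul _) fun σ p _ => ?_
      have := hf.xn b
      linarith)
    (fun i b => by
      rw [← mean_cmul]
      refine mean_mono (IM.cont (hst i b) continuous_const) ((iS i b).cmul _) fun σ p _ => ?_
      have a1 := hf.xn b
      have a2 : 0 ≤ s⁻¹ * ce p v (2 * s) := mul_nonneg hsi.le (ce_nonneg _ _ _)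
      linarith)
    (fun i b => by
      rw [← mean_one]
      refine mean_mono (IM.cont (hst i b) continuous_const) (iS i b) fun σ p _ => ?_
      have a1 := hf.xn b
      have a2 : 0 ≤ s⁻¹ * ce p v (2 * s) := mul_nonneg hsi.le (ce_nonneg _ _ _)
      linarith)
    (fun hn i b => by
      have := p12t_zero hzm hG.hz hG.neu hn (mf (f b) (Ψ i)) χ s W v
      rw [p12t_uh (hst i b) hχ s hs] at this
      exact this)
  have e4 : ∑ i, ∑ b, mean (mf (f b) (Ψ i)) (fun p => uh χ s W z p v) =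
      ∑ i, ∑ b, (mean (mf (f b) (Ψ i)) (fun p => ph χ s z p v) -
        mean (mf (f b) (Ψ i)) (fun p => pr χ W z p)) :=
    sum_congr rfl fun i _ => sum_congr rfl fun b _ => p12t_uh (hst i b) hχ s hs W z v
  rw [e4]
  exact hres

theorem p2T (q : ℕ) (T zm zp κm κp A Kv : ℝ) (hT : 0 ≤ T) (hzm : 0 < zm) (hκm : 0 < κm)
    (hA : 0 ≤ A) (hKv : 0 ≤ Kv) {χ : E3 → ℝ} (hχ : Bump χ) :
    ∃ C : ℝ, 0 ≤ C ∧
    ∀ (ι : Type) (_ : Fintype ι) (n k : ℕ) (Λ : Set E3) (z κ : Fin k → ℝ) (W : Finset E3)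
    (δ : ℝ) (Ψ : ι → (Fin n → Fin q) → Cfg n k → ℂ)
    (_ : Gt q T zm zp κm κp A Kv n k Λ z κ W δ Ψ)
    (β : Type) (_ : Fintype β) (f : β → Cfg n k → ℝ) (M x : β → ℝ) (Cf : ℝ)
    (_ : Am f M x Cf)
    (s : ℝ) (_ : 0 < s) (_ : s ≤ 1) (v : E3) (_ : Metric.closedBall v 2 ⊆ Λ),
    -∑ i, ∑ b, mean (mf (f b) (Ψ i)) (fun p => uh χ s W z p v) ≤
    C * (∑ i, ∑ b, mean (mf (f b) (Ψ i)) (fun p => x b + (s ^ 2)⁻¹ +
        Real.log (1 + cn p v 2)) +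
      Cf + ∑ i, ∑ b, mean (Ψ i) (Gm κ (f b)) + ((∑ b, M b ^ 2) + Cf) * δ) := by
  obtain ⟨C1, hC1, hE⟩ := relEW q T zm zp κm κp A Kv hT hzm hκm hA hKv hχ (1 / 2) (by norm_num)
  obtain ⟨C2, hC2, hN⟩ := relN q T zm zp κm κp A Kv hT hzm hκm hχ (1 / 2) (by norm_num)
  obtain ⟨Cs, hCs, hS⟩ := stabD q zp (1 / 4) (by norm_num)
  refine ⟨2 * Cs * (1 + 1 / zm) + (C1 + C2) * (2 + 2 * (1 / zm) + 2 * Kv), by positivity, ?_⟩
  intro ι _ n k Λ z κ W δ Ψ hG β _ f M x Cf hf s hs hs1 v hv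
  have h1 := hE ι _ n k Λ z κ W δ Ψ hG β _ f M x Cf hf (fun _ => 1) contDiff_const
    (fun _ => ⟨zero_le_one, le_rfl⟩)
  have h2 := hN ι _ n k Λ z κ W δ Ψ hG β _ f M x Cf hf (fun _ => 1) contDiff_const
    (fun _ => ⟨zero_le_one, le_rfl⟩) s hs hs1 v hv
  have eE : ∀ (b : β) (a : Fin n) (ψ : (Fin n → Fin q) → Cfg n k → ℂ),
      mE (f b) (fun _ => 1) a ψ = mf (f b) ψ := by
    intro b a ψ
    unfold mE
    simp only [mul_one]
  have eN : ∀ (b : β) (j : Fin k) (ψ : (Fin n → Fin q) → Cfg n k → ℂ),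
      mN (f b) (fun _ => 1) j ψ = mf (f b) ψ := by
    intro b a ψ
    unfold mN
    simp only [mul_one]
  have hvol : ∫ _v in Λ, ((1 : ℝ) ^ 2) = (volume Λ).toReal := by
    rw [setIntegral_const, smul_eq_mul, one_pow, mul_one, Measure.real]
  have e3 : ∀ b : β, (fun p : Cfg n k => f b p * 1) = f b := fun b => funext fun p => mul_one _
  simp only [eE, hvol, e3] at h1
  simp only [eN, hvol, e3] at h2
  have hst : ∀ i b, Sm q n k Λ (mf (f b) (Ψ i)) := fun i b =>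
    mf_sm (St_sm (hG.eq.st i)) (hf.smooth b)
  have hs2 : (1 : ℝ) ≤ (s ^ 2)⁻¹ :=
    (one_le_inv₀ (by positivity)).2 (pow_le_one₀ hs.le hs1)
  have hlog : ∀ p : Cfg n k, 0 ≤ Real.log (1 + cn p v 2) ∧
      Real.log (1 + cn p v 2) ≤ cn p v 2 := by
    intro p
    have h1 := cn_nonneg p v 2
    refine ⟨Real.log_nonneg (by linarith), ?_⟩
    have h2 := Real.log_le_sub_one_of_pos (by linarith : 0 < 1 + cn p v 2)
    linarith
  have iL : ∀ i b, IM (mf (f b) (Ψ i)) (fun p => Real.log (1 + cn p v 2)) := fun i b =>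
    IM.dom ((Real.measurable_log.comp (measurable_const.add (cn_meas v 2))))
      (IM_cn (hst i b) v 2) (hst i b) fun p => by
        rw [abs_of_nonneg (hlog p).1]
        exact (hlog p).2
  have iS : ∀ i b, IM (mf (f b) (Ψ i)) (fun p => x b + (s ^ 2)⁻¹ + Real.log (1 + cn p v 2)) :=
    fun i b => (IM.cont (hst i b) continuous_const).add (iL i b)
  have hS0 : ∀ i b, 0 ≤ mean (mf (f b) (Ψ i)) (fun p => x b + (s ^ 2)⁻¹ +
      Real.log (1 + cn p v 2)) := fun i b => mean_nonneg fun _ p _ => by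
    have a1 := hf.xn b
    have a2 := (hlog p).1
    positivity
  have hres := p12t_asm hzm hκm hKv hCs hS hG hf
    (fun i b => mean (mf (f b) (Ψ i)) (fun p => pr χ W z p))
    (fun i b => mean (mf (f b) (Ψ i)) (fun p => ph χ s z p v))
    (fun i b => mean (mf (f b) (Ψ i)) (fun _ => x b + 1))
    (fun i b => mean (mf (f b) (Ψ i)) (fun p => x b + (s ^ 2)⁻¹ + Real.log (1 + cn p v 2)))
    (fun i b => mean (mf (f b) (Ψ i)) (fun p => x b + (s ^ 2)⁻¹ + Real.log (1 + cn p v 2)))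
    hC1 hC2 hG.hV h1 h2
    (fun i b => by
      rw [← mean_cmul]
      refine mean_mono (IM.cont (hst i b) continuous_const) ((iS i b).cmul _) fun σ p _ => ?_
      have a1 := hf.xn b
      have a2 := (hlog p).1
      linarith)
    (fun i b => by
      have := hS0 i b
      linarith)
    (fun i b => by
      rw [← mean_one]
      refine mean_mono (IM.cont (hst i b) continuous_const) (iS i b) fun σ p _ => ?_
      have a1 := hf.xn b
      have a2 := (hlog p).1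
      linarith)
    (fun hn i b => by
      have := p12t_zero hzm hG.hz hG.neu hn (mf (f b) (Ψ i)) χ s W v
      rw [p12t_uh (hst i b) hχ s hs] at this
      linarith)
  have e4 : -∑ i, ∑ b, mean (mf (f b) (Ψ i)) (fun p => uh χ s W z p v) =
      ∑ i, ∑ b, (mean (mf (f b) (Ψ i)) (fun p => pr χ W z p) -
        mean (mf (f b) (Ψ i)) (fun p => ph χ s z p v)) := by
    rw [← sum_neg_distrib]
    refine sum_congr rfl fun i _ => ?_
    rw [← sum_neg_distrib]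
    refine sum_congr rfl fun b _ => ?_
    rw [p12t_uh (hst i b) hχ s hs W z v]
    ring
  rw [e4]
  exact hres

end H6.CT
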