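import Pool.Agent.H6.CT.Diag

/-! Peierls' inequality. `peierls`: for `m > 0` apply `Eqs.min` to `Φ j = sqrt (p j) • e j` with `p j = exp (-E j / T) / Z`, `Z = ∑ exp (-E j / T)`, `E j = energy (e j)`: the free energy is `∑ p j E j + T ∑ p j log (p j) = -T log Z` (`Fin m`, `energy_smul`, `mass_smul`, `ip_smul`). `fpei`: with the `e j` of `diag`, for every `b` with `mass (φ b) ≠ 0`, by convexity of the exponential function (`ConvexOn.map_sum_le` with the weights `‖ip (e j) (φ b)‖ ^ 2 / mass (φ b)`), `mass (φ b) * exp (-(energy (φ b) / mass (φ b) / T)) ≤ ∑ j, ‖ip (e j) (φ b)‖ ^ 2 * exp (-(energy (e j) / T))`; sum over `b`, exchange the sums and use the frame bound for `h = e j` (`‖ip (e j) (φ b)‖ = ‖ip (φ b) (e j)‖`, `ip_conj`). -/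

open MeasureTheory Finset

namespace H6.CT

open H6.CM H6.CB H6.CL

theorem peierls {ι : Type} [Fintype ι] {q n k : ℕ} {T δ : ℝ} (hT : 0 < T) {Λ : Set E3}
    {z κ : Fin k → ℝ} {Ψ : ι → (Fin n → Fin q) → Cfg n k → ℂ} (h : Eqs T δ Λ z κ Ψ) (m : ℕ)
    (e : Fin m → (Fin n → Fin q) → Cfg n k → ℂ) (he : ∀ j, St q n k Λ (e j)) (ho : Ort e)
    (h1 : ∀ j, mass (e j) = 1) :
    ∑ j, Real.exp (-(energy z κ (e j) / T)) ≤ Real.exp (-((FE T z κ Ψ - δ) / T)) := by
  rcases Nat.eq_zero_or_pos m with hm | hm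
  · subst hm
    simp only [univ_eq_empty, sum_empty]
    exact (Real.exp_pos _).le
  have : Nonempty (Fin m) := ⟨⟨0, hm⟩⟩
  set E : Fin m → ℝ := fun j => energy z κ (e j) with hE
  set Z : ℝ := ∑ j, Real.exp (-(E j / T)) with hZ
  have hZ0 : 0 < Z := sum_pos (fun j _ => Real.exp_pos _) univ_nonempty
  set p : Fin m → ℝ := fun j => Real.exp (-(E j / T)) / Z with hp
  have hp0 : ∀ j, 0 < p j := fun j => div_pos (Real.exp_pos _) hZ0
  have hp1 : ∑ j, p j = 1 := by
    rw [hp]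
    simp only
    rw [← sum_div, ← hZ, div_self hZ0.ne']
  set Φ : Fin m → (Fin n → Fin q) → Cfg n k → ℂ :=
    fun j => ((Real.sqrt (p j) : ℝ) : ℂ) • e j with hΦ
  have hn : ∀ j, ‖((Real.sqrt (p j) : ℝ) : ℂ)‖ ^ 2 = p j := by
    intro j
    rw [Complex.norm_real, Real.norm_of_nonneg (Real.sqrt_nonneg _),
      Real.sq_sqrt (hp0 j).le]
  have hms : ∀ j, mass (Φ j) = p j := by
    intro j
    rw [hΦ]
    simp only
    rw [mass_smul, hn, h1, mul_one]
  have hen : ∀ j, energy z κ (Φ j) = p j * E j := by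
    intro j
    rw [hΦ]
    simp only
    rw [energy_smul (St_sm (he j)), hn]
  have hort : Ort Φ := by
    intro i j hij
    rw [hΦ]
    simp only
    rw [ip_smul, ← ip_conj, ip_smul, ← ip_conj (e i) (e j), ho i j hij]
    simp
  have hmin := h.min m Φ (fun j => st_smul (he j) _) hort (by
    rw [← hp1]
    exact sum_congr rfl fun j _ => hms j)
  have hfe : FE T z κ Φ = -(T * Real.log Z) := by
    unfold FE
    have : ∀ j, energy z κ (Φ j) + T * (mass (Φ j) * Real.log (mass (Φ j))) =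
        p j * -(T * Real.log Z) := by
      intro j
      rw [hms, hen]
      have hl : Real.log (p j) = -(E j / T) - Real.log Z := by
        rw [hp]
        simp only
        rw [Real.log_div (Real.exp_pos _).ne' hZ0.ne', Real.log_exp]
      rw [hl]
      field_simp
      ring
    rw [sum_congr rfl fun j _ => this j, ← sum_mul, hp1, one_mul]
  rw [hfe] at hmin
  have h2 : Real.log Z ≤ -((FE T z κ Ψ - δ) / T) := by
    rw [← neg_div, le_div_iff₀ hT]
    linarith
  rw [← Real.exp_log hZ0]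
  exact Real.exp_le_exp.2 h2

theorem fpei {q n k : ℕ} {T : ℝ} (hT : 0 < T) {Λ : Set E3} {z κ : Fin k → ℝ} {F0 : ℝ}
    (hP : ∀ (m : ℕ) (e : Fin m → (Fin n → Fin q) → Cfg n k → ℂ), (∀ j, St q n k Λ (e j)) →
      Ort e → (∀ j, mass (e j) = 1) →
      ∑ j, Real.exp (-(energy z κ (e j) / T)) ≤ Real.exp (-(F0 / T)))
    {B : Type} [Fintype B] (φ : B → (Fin n → Fin q) → Cfg n k → ℂ)
    (hφ : ∀ b, St q n k Λ (φ b)) (Cf : ℝ) (hCf : 0 ≤ Cf)
    (hfr : ∀ h, St q n k Λ h → ∑ b, ‖ip (φ b) h‖ ^ 2 ≤ Cf * mass h) :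
    ∑ b, mass (φ b) * Real.exp (-(energy z κ (φ b) / mass (φ b) / T)) ≤
      Cf * Real.exp (-(F0 / T)) := by
  obtain ⟨m, e, he, ho, h1, hd⟩ := diag z κ φ hφ
  have key : ∀ b, mass (φ b) * Real.exp (-(energy z κ (φ b) / mass (φ b) / T)) ≤
      ∑ j, ‖ip (e j) (φ b)‖ ^ 2 * Real.exp (-(energy z κ (e j) / T)) := by
    intro b
    rcases (mass_nonneg (ψ := φ b)).eq_or_lt with h0 | h0
    · rw [← h0, zero_mul]
      exact sum_nonneg fun j _ => by positivity
    obtain ⟨hm, hE⟩ := hd b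
    set M := mass (φ b) with hM
    have hw0 : ∀ j ∈ (univ : Finset (Fin m)), 0 ≤ ‖ip (e j) (φ b)‖ ^ 2 / M :=
      fun j _ => by positivity
    have hw1 : ∑ j, ‖ip (e j) (φ b)‖ ^ 2 / M = 1 := by
      rw [← sum_div, ← hm, div_self h0.ne']
    have hj := convexOn_exp.map_sum_le (t := univ) (w := fun j => ‖ip (e j) (φ b)‖ ^ 2 / M)
      (p := fun j => -(energy z κ (e j) / T)) hw0 hw1 (fun j _ => Set.mem_univ _)
    simp only [smul_eq_mul] at hj
    have e1 : ∑ j, ‖ip (e j) (φ b)‖ ^ 2 / M * -(energy z κ (e j) / T) =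
        -(energy z κ (φ b) / M / T) := by
      rw [hE, sum_div, sum_div, ← sum_neg_distrib]
      refine sum_congr rfl fun j _ => ?_
      ring
    rw [e1] at hj
    calc M * Real.exp (-(energy z κ (φ b) / M / T)) ≤
        M * ∑ j, ‖ip (e j) (φ b)‖ ^ 2 / M * Real.exp (-(energy z κ (e j) / T)) :=
          mul_le_mul_of_nonneg_left hj h0.le
      _ = _ := by
          rw [mul_sum]
          refine sum_congr rfl fun j _ => ?_
          field_simp
  calc ∑ b, mass (φ b) * Real.exp (-(energy z κ (φ b) / mass (φ b) / T)) ≤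
      ∑ b, ∑ j, ‖ip (e j) (φ b)‖ ^ 2 * Real.exp (-(energy z κ (e j) / T)) :=
        sum_le_sum fun b _ => key b
    _ = ∑ j, (∑ b, ‖ip (φ b) (e j)‖ ^ 2) * Real.exp (-(energy z κ (e j) / T)) := by
        rw [sum_comm]
        refine sum_congr rfl fun j _ => ?_
        rw [sum_mul]
        refine sum_congr rfl fun b _ => ?_
        rw [← ip_conj (φ b) (e j), RCLike.norm_conj]
    _ ≤ ∑ j, Cf * Real.exp (-(energy z κ (e j) / T)) := by
        refine sum_le_sum fun j _ => mul_le_mul_of_nonneg_right ?_ (Real.exp_pos _).le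
        have := hfr (e j) (he j)
        rwa [h1 j, mul_one] at this
    _ = Cf * ∑ j, Real.exp (-(energy z κ (e j) / T)) := by rw [mul_sum]
    _ ≤ Cf * Real.exp (-(F0 / T)) :=
        mul_le_mul_of_nonneg_left (hP m e he ho h1) hCf

end H6.CT
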