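import Pool.Agent.H6.CT.Bess
import Pool.Agent.H6.CT.Diag
import Pool.Agent.H6.CT.Peil

/-! Near equilibrium states at positive temperature are close to each other on bounded observables. Apply `diag` to the joint family (index type `ι ⊕ ι'`): an orthonormal family `e j` (`j : Fin m`) with energies `E j`. Let `g j = exp (-E j / T) / Z` with `Z = ∑ exp (-E j / T)` (the family is not empty because the masses add up to one) and `G = ∑ j, g j * mean (e j) F`. It suffices that `|mM Ψ F - G| ≤ 3 * B * sqrt (δ / T)` for each of the two states.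
(1) `Eqs.min` for the family `sqrt (g j) • e j` gives `FE T z κ Ψ ≤ -T * log Z + δ`. Let `p i = mass (Ψ i)`, `w i j = ‖ip (e j) (Ψ i)‖ ^ 2`; `∑ j, w i j = p i`, `energy (Ψ i) = ∑ j, w i j * E j` and `E j = -T * log (g j) - T * log Z`, so `∑ i j, w i j * (log (p i) - log (g j)) ≤ δ / T` (terms with `p i = 0` vanish).
(2) For `p, g > 0`: `p * (log p - log g) ≥ p - g + (sqrt p - sqrt g) ^ 2`. With `v i j = w i j / p i` and `c j = ∑ i, v i j ≤ 1` (`bess` for `Ψ` and `H = e j`, `ip_cs`): `D := ∑ j, g j * (1 - c j) + ∑ i j, v i j * (sqrt (p i) - sqrt (g j)) ^ 2 ≤ δ / T`.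
(3) `Ψ i = ∑ j, ip (e j) (Ψ i) • e j` because the difference has mass `0` (`mass_zero`). So `p i = ..`, `mean (Ψ i) F = re ∑ j, ip (Ψ i) (F e j) * ip (e j) (Ψ i)`. Let `X = re ∑ i j, sqrt (g j / p i) * ip (Ψ i) (F e j) * ip (e j) (Ψ i)` and `Y = re ∑ i j, (g j / p i) * ip (Ψ i) (F e j) * ip (e j) (Ψ i)`. By Cauchy-Schwarz and Bessel (`bess` for `e` and `H = mf F (Ψ i)`, and for `Ψ` and `H = mf F (e j)`; both are bounded by `B ^ 2` times the mass) `|mM Ψ F - X| ≤ B * sqrt D`, `|X - Y| ≤ B * sqrt D`, and `G - Y = ∑ j, g j * re (ip (e j - ∑ i, (ip (Ψ i) (e j) / p i) • Ψ i) (F e j))` is at most `B * ∑ g j * sqrt (1 - c j) ≤ B * sqrt D`. -/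

open MeasureTheory Finset

namespace H6.CT

open H6.CM H6.CB H6.CL

section

variable {q n k : ℕ} {Λ : Set E3}

/-- multiplication with a bounded measurable function -/
private theorem pt_loc {φ : (Fin n → Fin q) → Cfg n k → ℂ} (hφ : Sm q n k Λ φ) {F : Cfg n k → ℝ}
    (hF : Measurable F) {B : ℝ} (hB : ∀ p, |F p| ≤ B) (σ : Fin n → Fin q) :
    LocallyIntegrable (mf F φ σ) := by
  have h1 : Integrable (φ σ) :=
    (hφ.smooth σ).continuous.integrable_of_hasCompactSupport (hφ.cpt σ)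
  have h2 : Integrable (fun p => ((F p : ℝ) : ℂ) * φ σ p) := by
    refine h1.bdd_mul (c := B) ?_ (Filter.Eventually.of_forall fun p => ?_)
    · exact (Complex.measurable_ofReal.comp hF).aestronglyMeasurable
    · rw [Complex.norm_real]
      exact hB p
  exact h2.locallyIntegrable

/-- Cauchy-Schwarz with a bounded multiplier -/
private theorem pt_cs {φ ψ : (Fin n → Fin q) → Cfg n k → ℂ} (hφ : Sm q n k Λ φ)
    (hψ : Sm q n k Λ ψ) {F : Cfg n k → ℝ} {B : ℝ} (hB0 : 0 ≤ B)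
    (hB : ∀ p, |F p| ≤ B) : ‖ip ψ (mf F φ)‖ ^ 2 ≤ B ^ 2 * mass φ * mass ψ := by
  rcases (mass_nonneg (ψ := ψ)).eq_or_lt with h0 | h0
  · rw [mass_zero hψ h0.symm]
    have : ip 0 (mf F φ) = 0 := by
      unfold ip
      simp
    rw [this]
    have : mass (0 : (Fin n → Fin q) → Cfg n k → ℂ) = 0 := by simp [mass]
    rw [this]
    simp
  rcases (mass_nonneg (ψ := φ)).eq_or_lt with h1 | h1
  · rw [mass_zero hφ h1.symm]
    have : ip ψ (mf F 0) = 0 := by
      unfold ip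
      simp [mf]
    rw [this]
    have : mass (0 : (Fin n → Fin q) → Cfg n k → ℂ) = 0 := by simp [mass]
    rw [this, norm_zero]
    norm_num
  set t : ℝ := Real.sqrt (mass φ) / Real.sqrt (mass ψ) with ht
  have hs0 : 0 < Real.sqrt (mass ψ) := Real.sqrt_pos.2 h0
  have hs1 : 0 < Real.sqrt (mass φ) := Real.sqrt_pos.2 h1
  have ht0 : 0 < t := div_pos hs1 hs0
  have hi : ∀ (χ : (Fin n → Fin q) → Cfg n k → ℂ), Sm q n k Λ χ → ∀ σ,
      Integrable (fun p => ‖χ σ p‖ ^ 2) := fun χ hχ σ =>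
    (Sm_sq hχ σ).1.integrable_of_hasCompactSupport (Sm_sq hχ σ).2
  have key : ‖ip ψ (mf F φ)‖ ≤ B * (t / 2 * mass ψ + t⁻¹ / 2 * mass φ) := by
    unfold ip
    refine (norm_sum_le _ _).trans ?_
    unfold mass
    rw [mul_sum, mul_sum, ← sum_add_distrib, mul_sum]
    refine sum_le_sum fun σ _ => ?_
    rw [← integral_const_mul, ← integral_const_mul,
      ← integral_add ((hi ψ hψ σ).const_mul _) ((hi φ hφ σ).const_mul _), ← integral_const_mul]
    refine norm_integral_le_of_norm_le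
      ((((hi ψ hψ σ).const_mul _).add ((hi φ hφ σ).const_mul _)).const_mul B)
      (Filter.Eventually.of_forall fun p => ?_)
    show ‖(starRingEnd ℂ) (ψ σ p) * (((F p : ℝ) : ℂ) * φ σ p)‖ ≤
      B * (t / 2 * ‖ψ σ p‖ ^ 2 + t⁻¹ / 2 * ‖φ σ p‖ ^ 2)
    rw [norm_mul, norm_mul, RCLike.norm_conj, Complex.norm_real, Real.norm_eq_abs]
    have h3 : ‖ψ σ p‖ * ‖φ σ p‖ ≤ t / 2 * ‖ψ σ p‖ ^ 2 + t⁻¹ / 2 * ‖φ σ p‖ ^ 2 := by
      have h4 : 0 ≤ (t * ‖ψ σ p‖ - ‖φ σ p‖) ^ 2 := sq_nonneg _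
      have h5 : t / 2 * ‖ψ σ p‖ ^ 2 + t⁻¹ / 2 * ‖φ σ p‖ ^ 2 - ‖ψ σ p‖ * ‖φ σ p‖ =
          (t * ‖ψ σ p‖ - ‖φ σ p‖) ^ 2 / (2 * t) := by
        field_simp
        ring
      have h6 : 0 ≤ (t * ‖ψ σ p‖ - ‖φ σ p‖) ^ 2 / (2 * t) := by positivity
      linarith
    calc ‖ψ σ p‖ * (|F p| * ‖φ σ p‖) = |F p| * (‖ψ σ p‖ * ‖φ σ p‖) := by ring
      _ ≤ B * (t / 2 * ‖ψ σ p‖ ^ 2 + t⁻¹ / 2 * ‖φ σ p‖ ^ 2) :=
          mul_le_mul (hB p) h3 (by positivity) hB0
  have e1 : t / 2 * mass ψ + t⁻¹ / 2 * mass φ = Real.sqrt (mass ψ) * Real.sqrt (mass φ) := by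
    rw [ht]
    conv_lhs => rw [← Real.sq_sqrt h0.le, ← Real.sq_sqrt h1.le]
    rw [Real.sqrt_sq hs0.le, Real.sqrt_sq hs1.le]
    field_simp
    norm_num
  rw [e1] at key
  calc ‖ip ψ (mf F φ)‖ ^ 2 ≤ (B * (Real.sqrt (mass ψ) * Real.sqrt (mass φ))) ^ 2 :=
        pow_le_pow_left₀ (norm_nonneg _) key 2
    _ = B ^ 2 * (Real.sqrt (mass φ) ^ 2) * (Real.sqrt (mass ψ) ^ 2) := by ring
    _ = _ := by rw [Real.sq_sqrt h0.le, Real.sq_sqrt h1.le]

private theorem pt_mean (ψ : (Fin n → Fin q) → Cfg n k → ℂ) (F : Cfg n k → ℝ) :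
    ip ψ (mf F ψ) = ((mean ψ F : ℝ) : ℂ) := by
  unfold ip mean
  rw [Complex.ofReal_sum]
  refine sum_congr rfl fun σ _ => ?_
  rw [← integral_complex_ofReal]
  congr 1
  funext p
  unfold mf
  rw [mul_left_comm, ← mul_comm (ψ σ p), Complex.mul_conj, Complex.normSq_eq_norm_sq]
  push_cast
  ring

private theorem pt_st_sub {φ ψ : (Fin n → Fin q) → Cfg n k → ℂ} (hφ : St q n k Λ φ)
    (hψ : St q n k Λ ψ) : St q n k Λ (φ + (-1 : ℂ) • ψ) := st_add hφ (st_smul hψ _)

/-- the defect of the projection -/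
private theorem pt_def {ι : Type} [Fintype ι] {Ψ : ι → (Fin n → Fin q) → Cfg n k → ℂ}
    (hst : ∀ i, St q n k Λ (Ψ i)) (hort : Ort Ψ) {χ : (Fin n → Fin q) → Cfg n k → ℂ}
    (hχ : St q n k Λ χ) :
    mass (χ + (-1 : ℂ) • (fun σ p => ∑ i, (ip (Ψ i) χ / ((mass (Ψ i) : ℝ) : ℂ)) * Ψ i σ p)) =
      mass χ - ∑ i, ‖ip (Ψ i) χ‖ ^ 2 / mass (Ψ i) := by
  classical
  set c : ι → ℂ := fun i => ip (Ψ i) χ / ((mass (Ψ i) : ℝ) : ℂ) with hc
  set S : ℝ := ∑ i, ‖ip (Ψ i) χ‖ ^ 2 / mass (Ψ i) with hS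
  set ψ : (Fin n → Fin q) → Cfg n k → ℂ := fun σ p => ∑ i, c i * Ψ i σ p with hψ
  have hψs : St q n k Λ ψ := st_sum univ c Ψ hst
  have hsm : ∀ i, Sm q n k Λ (Ψ i) := fun i => St_sm (hst i)
  have hloc : ∀ (χ : (Fin n → Fin q) → Cfg n k → ℂ), St q n k Λ χ →
      ∀ σ, LocallyIntegrable (χ σ) := fun χ hχ σ =>
    (hχ.smooth σ).continuous.locallyIntegrable
  have e1 : ip ψ χ = ((S : ℝ) : ℂ) := by
    rw [hψ, ip_sum_left univ c Ψ hsm χ (hloc χ hχ), hS, Complex.ofReal_sum]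
    refine sum_congr rfl fun i _ => ?_
    rw [hc]
    simp only
    rw [map_div₀, Complex.conj_ofReal, div_mul_eq_mul_div, mul_comm ((starRingEnd ℂ) _),
      Complex.mul_conj, Complex.normSq_eq_norm_sq]
    push_cast
    ring
  have e2 : ∀ i, ip ψ (Ψ i) = (starRingEnd ℂ) (c i) * ((mass (Ψ i) : ℝ) : ℂ) := by
    intro i
    rw [hψ, ip_sum_left univ c Ψ hsm (Ψ i) (hloc _ (hst i)), sum_eq_single i]
    · rw [ip_self (hsm i)]
    · intro j _ hj
      rw [hort j i hj, mul_zero]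
    · intro h
      exact absurd (mem_univ i) h
  have e3 : ip ψ ψ = ((S : ℝ) : ℂ) := by
    have : ip ψ ψ = ∑ i, (starRingEnd ℂ) (c i) * ip (Ψ i) ψ := by
      conv_lhs => rw [hψ]
      exact ip_sum_left univ c Ψ hsm ψ (hloc _ hψs)
    rw [this, hS, Complex.ofReal_sum]
    refine sum_congr rfl fun i _ => ?_
    rw [← ip_conj ψ (Ψ i), e2 i, map_mul, Complex.conj_conj, Complex.conj_ofReal, ← mul_assoc,
      mul_comm ((starRingEnd ℂ) (c i)), Complex.mul_conj, Complex.normSq_eq_norm_sq]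
    rw [hc]
    simp only
    rw [norm_div, Complex.norm_real, Real.norm_of_nonneg mass_nonneg]
    rcases eq_or_ne (mass (Ψ i)) 0 with h0 | h0
    · rw [h0]
      simp
    · rw [← Complex.ofReal_mul]
      congr 1
      field_simp
  have e1' : ip χ ψ = ((S : ℝ) : ℂ) := by
    rw [← ip_conj ψ χ, e1, Complex.conj_ofReal]
  have hD := pt_st_sub hχ hψs
  have e4 : ((mass (χ + (-1 : ℂ) • ψ) : ℝ) : ℂ) = ((mass χ - S : ℝ) : ℂ) := by
    rw [← ip_self (St_sm hD), ip_add (St_sm hD) (hloc _ hχ) (hloc _ (st_smul hψs _)), ip_smul,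
      ← ip_conj χ, ← ip_conj ψ, ip_add (St_sm hχ) (hloc _ hχ) (hloc _ (st_smul hψs _)),
      ip_add (St_sm hψs) (hloc _ hχ) (hloc _ (st_smul hψs _)), ip_smul, ip_smul, e1, e1', e3,
      ip_self (St_sm hχ)]
    simp
    ring
  exact Complex.ofReal_injective e4

end

/-- the elementary inequality -/
private theorem pt_el {p g : ℝ} (hp : 0 < p) (hg : 0 < g) :
    p - g + (Real.sqrt p - Real.sqrt g) ^ 2 ≤ p * (Real.log p - Real.log g) := by
  have hsp := Real.sqrt_pos.2 hp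
  have hsg := Real.sqrt_pos.2 hg
  have h1 := Real.add_one_le_exp (Real.log (Real.sqrt g / Real.sqrt p))
  rw [Real.exp_log (by positivity), Real.log_div hsg.ne' hsp.ne', Real.log_sqrt hg.le,
    Real.log_sqrt hp.le] at h1
  have h2 : 2 * (1 - Real.sqrt g / Real.sqrt p) ≤ Real.log p - Real.log g := by linarith
  have h3 := mul_le_mul_of_nonneg_left h2 hp.le
  have h4 : p * (2 * (1 - Real.sqrt g / Real.sqrt p)) =
      p - g + (Real.sqrt p - Real.sqrt g) ^ 2 := by
    have e1 := Real.sq_sqrt hp.le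
    have e2 := Real.sq_sqrt hg.le
    have e3 : p * (Real.sqrt g / Real.sqrt p) = Real.sqrt p * Real.sqrt g := by
      rw [← mul_div_assoc, div_eq_iff hsp.ne']
      calc p * Real.sqrt g = Real.sqrt p ^ 2 * Real.sqrt g := by rw [e1]
        _ = _ := by ring
    calc p * (2 * (1 - Real.sqrt g / Real.sqrt p)) =
        2 * p - 2 * (p * (Real.sqrt g / Real.sqrt p)) := by ring
      _ = 2 * p - 2 * (Real.sqrt p * Real.sqrt g) := by rw [e3]
      _ = 2 * (Real.sqrt p ^ 2) - 2 * (Real.sqrt p * Real.sqrt g) := by rw [e1]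
      _ = Real.sqrt p ^ 2 - Real.sqrt g ^ 2 + (Real.sqrt p - Real.sqrt g) ^ 2 := by ring
      _ = _ := by rw [e1, e2]
  linarith

/-- the inequality for numbers -/
private theorem pt_num {I J : Type} [Fintype I] [Fintype J] (p : I → ℝ) (g : J → ℝ)
    (hp : ∀ i, 0 ≤ p i) (hg : ∀ j, 0 < g j) (hp1 : ∑ i, p i = 1) (hg1 : ∑ j, g j = 1)
    (a b : I → J → ℂ) (hb : ∀ i, ∑ j, ‖b i j‖ ^ 2 = p i) (B d : ℝ) (hB : 0 ≤ B)
    (ha1 : ∀ i, ∑ j, ‖a i j‖ ^ 2 ≤ B ^ 2 * p i) (ha2 : ∀ j, ∑ i, ‖a i j‖ ^ 2 / p i ≤ B ^ 2)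
    (hc : ∀ j, ∑ i, ‖b i j‖ ^ 2 / p i ≤ 1)
    (hS : ∑ i, ∑ j, ‖b i j‖ ^ 2 * (Real.log (p i) - Real.log (g j)) ≤ d) (r : J → ℝ)
    (hr : ∀ j, |r j - (∑ i, a i j * b i j / ((p i : ℝ) : ℂ)).re| ≤
      B * Real.sqrt (1 - ∑ i, ‖b i j‖ ^ 2 / p i)) :
    |(∑ i, ∑ j, a i j * b i j).re - ∑ j, g j * r j| ≤ 3 * B * Real.sqrt d := by
  -- the terms with `p i = 0` vanish
  have hb0 : ∀ i, p i = 0 → ∀ j, b i j = 0 := by
    intro i h0 j
    have h1 := hb i
    rw [h0] at h1
    have h2 := (sum_eq_zero_iff_of_nonneg fun j _ => sq_nonneg ‖b i j‖).1 h1 j (mem_univ _)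
    simpa using h2
  set v : I → J → ℝ := fun i j => ‖b i j‖ ^ 2 / p i with hv
  have hv0 : ∀ i j, 0 ≤ v i j := fun i j => div_nonneg (sq_nonneg _) (hp i)
  set c : J → ℝ := fun j => ∑ i, v i j with hcd
  have hc1 : ∀ j, c j ≤ 1 := hc
  set D1 : ℝ := ∑ j, g j * (1 - c j) with hD1
  set D2 : ℝ := ∑ i, ∑ j, v i j * (Real.sqrt (p i) - Real.sqrt (g j)) ^ 2 with hD2
  have hD10 : 0 ≤ D1 := sum_nonneg fun j _ => mul_nonneg (hg j).le (by linarith [hc1 j])
  have hD20 : 0 ≤ D2 := sum_nonneg fun i _ => sum_nonneg fun j _ =>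
    mul_nonneg (hv0 i j) (sq_nonneg _)
  have hvp : ∀ i j, v i j * p i = ‖b i j‖ ^ 2 := by
    intro i j
    rw [hv]
    simp only
    rcases eq_or_ne (p i) 0 with h0 | h0
    · rw [hb0 i h0 j, h0]
      simp
    · rw [div_mul_cancel₀ _ h0]
  have hD : D1 + D2 ≤ d := by
    refine le_trans (le_of_eq ?_) (le_trans (sum_le_sum fun i _ => sum_le_sum fun j _ =>
      (?_ : v i j * (p i - g j + (Real.sqrt (p i) - Real.sqrt (g j)) ^ 2) ≤
        ‖b i j‖ ^ 2 * (Real.log (p i) - Real.log (g j)))) hS)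
    · have e1 : ∑ i, ∑ j, v i j * (p i - g j + (Real.sqrt (p i) - Real.sqrt (g j)) ^ 2) =
          ∑ i, ∑ j, v i j * p i - ∑ i, ∑ j, v i j * g j + D2 := by
        rw [hD2, ← sum_sub_distrib, ← sum_add_distrib]
        refine sum_congr rfl fun i _ => ?_
        rw [← sum_sub_distrib, ← sum_add_distrib]
        refine sum_congr rfl fun j _ => ?_
        ring
      have e2 : ∑ i, ∑ j, v i j * p i = 1 := by
        rw [← hp1]
        refine sum_congr rfl fun i _ => ?_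
        refine (sum_congr rfl fun j _ => hvp i j).trans (hb i)
      have e3 : ∑ i, ∑ j, v i j * g j = ∑ j, g j * c j := by
        rw [sum_comm]
        refine sum_congr rfl fun j _ => ?_
        rw [hcd]
        simp only
        rw [mul_sum]
        exact sum_congr rfl fun i _ => mul_comm _ _
      rw [e1, e2, e3, hD1]
      simp_rw [mul_sub, mul_one]
      rw [sum_sub_distrib, hg1]
    · rcases eq_or_ne (p i) 0 with h0 | h0
      · have : v i j = 0 := by
          rw [hv]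
          simp only
          rw [hb0 i h0 j]
          simp
        rw [this, hb0 i h0 j]
        simp
      · have hpi : 0 < p i := lt_of_le_of_ne (hp i) (Ne.symm h0)
        rw [← hvp i j, mul_assoc]
        exact mul_le_mul_of_nonneg_left (pt_el hpi (hg j)) (hv0 i j)
  have hd0 : 0 ≤ d := by linarith
  -- the middle expressions
  set X : ℂ := ∑ i, ∑ j, (((Real.sqrt (g j) / Real.sqrt (p i) : ℝ)) : ℂ) * (a i j * b i j)
    with hX
  set Y : ℂ := ∑ i, ∑ j, ((g j / p i : ℝ) : ℂ) * (a i j * b i j) with hY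
  have hCS : ∀ (s t : I → J → ℝ), (∑ i, ∑ j, s i j * t i j) ^ 2 ≤
      (∑ i, ∑ j, s i j ^ 2) * ∑ i, ∑ j, t i j ^ 2 := by
    intro s t
    have := sum_mul_sq_le_sq_mul_sq (univ : Finset (I × J)) (fun x => s x.1 x.2)
      (fun x => t x.1 x.2)
    simpa only [Fintype.sum_prod_type] using this
  have hbv : ∀ i j, ‖b i j‖ = Real.sqrt (v i j) * Real.sqrt (p i) := by
    intro i j
    rw [← Real.sqrt_mul (hv0 i j), hvp, Real.sqrt_sq (norm_nonneg _)]
  have hT : ∀ i j, (Real.sqrt (v i j) * |Real.sqrt (p i) - Real.sqrt (g j)|) ^ 2 =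
      v i j * (Real.sqrt (p i) - Real.sqrt (g j)) ^ 2 := by
    intro i j
    rw [mul_pow, Real.sq_sqrt (hv0 i j), sq_abs]
  -- first comparison
  have h1 : ‖(∑ i, ∑ j, a i j * b i j) - X‖ ≤ B * Real.sqrt d := by
    have e1 : (∑ i, ∑ j, a i j * b i j) - X =
        ∑ i, ∑ j, ((1 - Real.sqrt (g j) / Real.sqrt (p i) : ℝ) : ℂ) * (a i j * b i j) := by
      rw [hX, ← sum_sub_distrib]
      refine sum_congr rfl fun i _ => ?_
      rw [← sum_sub_distrib]
      refine sum_congr rfl fun j _ => ?_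
      push_cast
      ring
    have e2 : ‖(∑ i, ∑ j, a i j * b i j) - X‖ ≤
        ∑ i, ∑ j, ‖a i j‖ * (Real.sqrt (v i j) * |Real.sqrt (p i) - Real.sqrt (g j)|) := by
      rw [e1]
      refine (norm_sum_le _ _).trans (sum_le_sum fun i _ => ?_)
      refine (norm_sum_le _ _).trans (sum_le_sum fun j _ => ?_)
      rw [norm_mul, norm_mul, Complex.norm_real, Real.norm_eq_abs]
      rcases eq_or_ne (p i) 0 with h0 | h0
      · rw [hb0 i h0 j]
        simp only [norm_zero, mul_zero]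
        positivity
      · have hpi : 0 < p i := lt_of_le_of_ne (hp i) (Ne.symm h0)
        have hsp := Real.sqrt_pos.2 hpi
        rw [hbv i j]
        have e3 : |1 - Real.sqrt (g j) / Real.sqrt (p i)| * Real.sqrt (p i) =
            |Real.sqrt (p i) - Real.sqrt (g j)| := by
          rw [← abs_of_pos hsp, ← abs_mul, abs_of_pos hsp]
          congr 1
          field_simp
        rw [← e3]
        apply le_of_eq
        ring
    have e4 : (∑ i, ∑ j, ‖a i j‖ * (Real.sqrt (v i j) * |Real.sqrt (p i) - Real.sqrt (g j)|)) ^ 2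
        ≤ B ^ 2 * d := by
      refine (hCS _ _).trans ?_
      refine mul_le_mul ?_ ?_ (sum_nonneg fun i _ => sum_nonneg fun j _ => sq_nonneg _)
        (sq_nonneg _)
      · calc ∑ i, ∑ j, ‖a i j‖ ^ 2 ≤ ∑ i, B ^ 2 * p i := sum_le_sum fun i _ => ha1 i
          _ = B ^ 2 := by rw [← mul_sum, hp1, mul_one]
      · simp_rw [hT]
        linarith
    have e5 : 0 ≤ ∑ i, ∑ j, ‖a i j‖ * (Real.sqrt (v i j) *
        |Real.sqrt (p i) - Real.sqrt (g j)|) :=
      sum_nonneg fun i _ => sum_nonneg fun j _ => by positivity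
    refine e2.trans ?_
    rw [← Real.sqrt_sq hB, ← Real.sqrt_mul (sq_nonneg B)]
    exact Real.le_sqrt_of_sq_le e4
  -- second comparison
  have h2 : ‖X - Y‖ ≤ B * Real.sqrt d := by
    have e1 : X - Y = ∑ i, ∑ j, ((Real.sqrt (g j) / Real.sqrt (p i) - g j / p i : ℝ) : ℂ) *
        (a i j * b i j) := by
      rw [hX, hY, ← sum_sub_distrib]
      refine sum_congr rfl fun i _ => ?_
      rw [← sum_sub_distrib]
      refine sum_congr rfl fun j _ => ?_
      push_cast
      ring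
    have e2 : ‖X - Y‖ ≤ ∑ i, ∑ j, (Real.sqrt (g j) / Real.sqrt (p i) * ‖a i j‖) *
        (Real.sqrt (v i j) * |Real.sqrt (p i) - Real.sqrt (g j)|) := by
      rw [e1]
      refine (norm_sum_le _ _).trans (sum_le_sum fun i _ => ?_)
      refine (norm_sum_le _ _).trans (sum_le_sum fun j _ => ?_)
      rw [norm_mul, norm_mul, Complex.norm_real, Real.norm_eq_abs]
      rcases eq_or_ne (p i) 0 with h0 | h0
      · rw [hb0 i h0 j]
        simp only [norm_zero, mul_zero]
        positivity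
      · have hpi : 0 < p i := lt_of_le_of_ne (hp i) (Ne.symm h0)
        have hsp := Real.sqrt_pos.2 hpi
        have hsg := Real.sqrt_pos.2 (hg j)
        rw [hbv i j]
        have e3 : |Real.sqrt (g j) / Real.sqrt (p i) - g j / p i| * Real.sqrt (p i) =
            Real.sqrt (g j) / Real.sqrt (p i) * |Real.sqrt (p i) - Real.sqrt (g j)| := by
          have e4 : Real.sqrt (g j) / Real.sqrt (p i) - g j / p i =
              Real.sqrt (g j) / Real.sqrt (p i) * ((Real.sqrt (p i) - Real.sqrt (g j)) /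
                Real.sqrt (p i)) := by
            have e5 : g j / p i = (Real.sqrt (g j) * Real.sqrt (g j)) /
                (Real.sqrt (p i) * Real.sqrt (p i)) := by
              rw [Real.mul_self_sqrt (hg j).le, Real.mul_self_sqrt hpi.le]
            rw [e5]
            field_simp
          rw [e4, abs_mul, abs_of_pos (div_pos hsg hsp), abs_div, abs_of_pos hsp, mul_assoc,
            div_mul_cancel₀ _ hsp.ne']
        apply le_of_eq
        calc _ = (|Real.sqrt (g j) / Real.sqrt (p i) - g j / p i| * Real.sqrt (p i)) *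
              (‖a i j‖ * Real.sqrt (v i j)) := by ring
          _ = _ := by
              rw [e3]
              ring
    have e4 : (∑ i, ∑ j, (Real.sqrt (g j) / Real.sqrt (p i) * ‖a i j‖) *
        (Real.sqrt (v i j) * |Real.sqrt (p i) - Real.sqrt (g j)|)) ^ 2 ≤ B ^ 2 * d := by
      refine (hCS _ _).trans ?_
      refine mul_le_mul ?_ ?_ (sum_nonneg fun i _ => sum_nonneg fun j _ => sq_nonneg _)
        (sq_nonneg _)
      · rw [sum_comm]
        calc ∑ j, ∑ i, (Real.sqrt (g j) / Real.sqrt (p i) * ‖a i j‖) ^ 2 =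
            ∑ j, g j * ∑ i, ‖a i j‖ ^ 2 / p i := by
              refine sum_congr rfl fun j _ => ?_
              rw [mul_sum]
              refine sum_congr rfl fun i _ => ?_
              rw [mul_pow, div_pow, Real.sq_sqrt (hg j).le, Real.sq_sqrt (hp i)]
              ring
          _ ≤ ∑ j, g j * B ^ 2 :=
              sum_le_sum fun j _ => mul_le_mul_of_nonneg_left (ha2 j) (hg j).le
          _ = B ^ 2 := by rw [← sum_mul, hg1, one_mul]
      · simp_rw [hT]
        linarith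
    refine e2.trans ?_
    rw [← Real.sqrt_sq hB, ← Real.sqrt_mul (sq_nonneg B)]
    exact Real.le_sqrt_of_sq_le e4
  -- third comparison
  have h3 : |Y.re - ∑ j, g j * r j| ≤ B * Real.sqrt d := by
    have e1 : Y.re = ∑ j, g j * (∑ i, a i j * b i j / ((p i : ℝ) : ℂ)).re := by
      rw [hY, sum_comm, Complex.re_sum]
      refine sum_congr rfl fun j _ => ?_
      rw [← Complex.re_ofReal_mul, mul_sum]
      congr 1
      refine sum_congr rfl fun i _ => ?_
      push_cast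
      ring
    have e2 : |Y.re - ∑ j, g j * r j| ≤ ∑ j, B * (g j * Real.sqrt (1 - c j)) := by
      rw [e1, ← sum_sub_distrib]
      refine (abs_sum_le_sum_abs _ _).trans (sum_le_sum fun j _ => ?_)
      rw [← mul_sub, abs_mul, abs_of_pos (hg j), abs_sub_comm]
      have := mul_le_mul_of_nonneg_left (hr j) (hg j).le
      refine this.trans (le_of_eq ?_)
      show g j * (B * Real.sqrt (1 - c j)) = _
      ring
    have e3 : ∑ j, g j * Real.sqrt (1 - c j) ≤ Real.sqrt d := by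
      refine Real.le_sqrt_of_sq_le ?_
      have h4 := sum_mul_sq_le_sq_mul_sq (univ : Finset J) (fun j => Real.sqrt (g j))
        (fun j => Real.sqrt (g j) * Real.sqrt (1 - c j))
      have e4 : ∀ j, Real.sqrt (g j) * (Real.sqrt (g j) * Real.sqrt (1 - c j)) =
          g j * Real.sqrt (1 - c j) := by
        intro j
        rw [← mul_assoc, Real.mul_self_sqrt (hg j).le]
      have e5 : ∀ j, Real.sqrt (g j) ^ 2 = g j := fun j => Real.sq_sqrt (hg j).le
      have e6 : ∀ j, (Real.sqrt (g j) * Real.sqrt (1 - c j)) ^ 2 = g j * (1 - c j) := by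
        intro j
        rw [mul_pow, e5, Real.sq_sqrt (by linarith [hc1 j])]
      simp_rw [e4, e5, e6] at h4
      rw [hg1, one_mul] at h4
      linarith
    rw [← mul_sum] at e2
    exact e2.trans (mul_le_mul_of_nonneg_left e3 hB)
  have h4 : |(∑ i, ∑ j, a i j * b i j).re - Y.re| ≤ B * Real.sqrt d + B * Real.sqrt d := by
    rw [← Complex.sub_re]
    refine (Complex.abs_re_le_norm _).trans ?_
    calc ‖(∑ i, ∑ j, a i j * b i j) - Y‖ =
        ‖((∑ i, ∑ j, a i j * b i j) - X) + (X - Y)‖ := by ring_nf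
      _ ≤ _ := (norm_add_le _ _).trans (add_le_add h1 h2)
  have h5 := abs_sub_le ((∑ i, ∑ j, a i j * b i j).re) Y.re (∑ j, g j * r j)
  linarith

/-- the comparison of one state with the reference state -/
private theorem pt_one {ι : Type} [Fintype ι] {q n k : ℕ} {T δ : ℝ} (hT : 0 < T)
    {Λ : Set E3} {z κ : Fin k → ℝ} {Ψ : ι → (Fin n → Fin q) → Cfg n k → ℂ}
    (h : Eqs T δ Λ z κ Ψ) {m : ℕ} (e : Fin m → (Fin n → Fin q) → Cfg n k → ℂ)
    (he : ∀ j, St q n k Λ (e j)) (ho : Ort e) (h1 : ∀ j, mass (e j) = 1)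
    (hd : ∀ i, mass (Ψ i) = ∑ j, ‖ip (e j) (Ψ i)‖ ^ 2 ∧
      energy z κ (Ψ i) = ∑ j, ‖ip (e j) (Ψ i)‖ ^ 2 * energy z κ (e j))
    (F : Cfg n k → ℝ) (hF : Measurable F) (B : ℝ) (hB : ∀ p, |F p| ≤ B) :
    |mM Ψ F - ∑ j, Real.exp (-(energy z κ (e j) / T)) /
      (∑ l, Real.exp (-(energy z κ (e l) / T))) * mean (e j) F| ≤
      3 * B * Real.sqrt (δ / T) := by
  have hB0 : 0 ≤ B := (abs_nonneg _).trans (hB 0)
  -- the family is not empty
  have hm : 0 < m := by
    rcases Nat.eq_zero_or_pos m with h0 | h0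
    · exfalso
      subst h0
      have h2 := h.one
      rw [sum_eq_zero fun i _ => by rw [(hd i).1]; simp] at h2
      exact zero_ne_one h2
    · exact h0
  have hne : Nonempty (Fin m) := ⟨⟨0, hm⟩⟩
  set E : Fin m → ℝ := fun j => energy z κ (e j) with hE
  set Z : ℝ := ∑ j, Real.exp (-(E j / T)) with hZ
  have hZ0 : 0 < Z := sum_pos (fun j _ => Real.exp_pos _) univ_nonempty
  set g : Fin m → ℝ := fun j => Real.exp (-(E j / T)) / Z with hg
  have hg0 : ∀ j, 0 < g j := fun j => div_pos (Real.exp_pos _) hZ0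
  have hg1 : ∑ j, g j = 1 := by
    rw [hg]
    simp only
    rw [← sum_div, ← hZ, div_self hZ0.ne']
  have hlg : ∀ j, Real.log (g j) = -(E j / T) - Real.log Z := by
    intro j
    rw [hg]
    simp only
    rw [Real.log_div (Real.exp_pos _).ne' hZ0.ne', Real.log_exp]
  have hpe := peierls hT h m e he ho h1
  have hZF : Real.log Z ≤ -((FE T z κ Ψ - δ) / T) := by
    rw [← Real.exp_le_exp, Real.exp_log hZ0]
    exact hpe
  have hsm : ∀ i, Sm q n k Λ (Ψ i) := fun i => St_sm (h.st i)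
  have hsme : ∀ j, Sm q n k Λ (e j) := fun j => St_sm (he j)
  have hloc : ∀ (χ : (Fin n → Fin q) → Cfg n k → ℂ), St q n k Λ χ →
      ∀ σ, LocallyIntegrable (χ σ) := fun χ hχ σ =>
    (hχ.smooth σ).continuous.locallyIntegrable
  set a : ι → Fin m → ℂ := fun i j => ip (Ψ i) (mf F (e j)) with ha
  set b : ι → Fin m → ℂ := fun i j => ip (e j) (Ψ i) with hb
  have hΨ : ∀ i, Ψ i = fun σ p => ∑ j, b i j * e j σ p := by
    intro i
    have h2 := pt_def he ho (h.st i)
    simp only [h1, Complex.ofReal_one, div_one] at h2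
    rw [← (hd i).1, sub_self] at h2
    have h3 := mass_zero (St_sm (pt_st_sub (h.st i) (st_sum univ (fun j => ip (e j) (Ψ i)) e he)))
      h2
    funext σ p
    have h4 := congrFun (congrFun h3 σ) p
    simp only [Pi.add_apply, Pi.smul_apply, smul_eq_mul, neg_mul, one_mul, Pi.zero_apply] at h4
    exact add_neg_eq_zero.1 h4
  have hmean : ∀ i, mean (Ψ i) F = (∑ j, a i j * b i j).re := by
    intro i
    have h2 := pt_mean (Ψ i) F
    have h3 : mf F (Ψ i) = fun σ p => ∑ j, b i j * mf F (e j) σ p := by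
      conv_lhs => rw [hΨ i]
      funext σ p
      unfold mf
      rw [mul_sum]
      refine sum_congr rfl fun j _ => ?_
      ring
    have h4 : ip (Ψ i) (mf F (Ψ i)) = ∑ j, a i j * b i j := by
      rw [h3]
      unfold ip
      rw [ha]
      simp only
      unfold ip
      simp_rw [sum_mul]
      rw [sum_comm]
      refine sum_congr rfl fun σ _ => ?_
      simp_rw [← integral_mul_const]
      rw [← integral_finsetSum _ fun j _ =>
        (ip_int (hsm i) (mf F (e j)) (pt_loc (hsme j) hF hB) σ).mul_const (b i j)]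
      congr 1
      funext p
      rw [mul_sum]
      refine sum_congr rfl fun j _ => ?_
      ring
    rw [← h4, h2, Complex.ofReal_re]
  have hmM : mM Ψ F = (∑ i, ∑ j, a i j * b i j).re := by
    unfold mM
    rw [Complex.re_sum]
    exact sum_congr rfl fun i _ => hmean i
  rw [hmM]
  refine pt_num (fun i => mass (Ψ i)) g (fun i => mass_nonneg) hg0 h.one hg1 a b
    (fun i => (hd i).1.symm) B (δ / T) hB0 ?_ ?_ ?_ ?_ (fun j => mean (e j) F) ?_
  · intro i
    have h2 := bess he ho (mf F (Ψ i)) (pt_loc (hsm i) hF hB) (B ^ 2 * mass (Ψ i))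
      (mul_nonneg (sq_nonneg _) mass_nonneg) (fun ψ hψ => pt_cs (hsm i) (St_sm hψ) hB0 hB)
    simp only [h1, div_one] at h2
    refine le_trans (le_of_eq (sum_congr rfl fun j _ => ?_)) h2
    rw [ha]
    simp only
    rw [← ip_mf, ← ip_conj, RCLike.norm_conj]
  · intro j
    have h2 := bess h.st h.ort (mf F (e j)) (pt_loc (hsme j) hF hB) (B ^ 2) (sq_nonneg _)
      (fun ψ hψ => by
        have := pt_cs (hsme j) (St_sm hψ) hB0 hB
        rwa [h1, mul_one] at this)
    exact h2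
  · intro j
    have h2 := bess h.st h.ort (e j) (hloc _ (he j)) 1 zero_le_one
      (fun ψ hψ => by
        have := ip_cs (St_sm hψ) (hsme j)
        rwa [h1, mul_comm] at this)
    refine le_trans (le_of_eq (sum_congr rfl fun i _ => ?_)) h2
    rw [hb]
    simp only
    rw [← ip_conj, RCLike.norm_conj]
  · have hfe : FE T z κ Ψ = ∑ i, ∑ j, ‖b i j‖ ^ 2 * E j +
        T * ∑ i, ∑ j, ‖b i j‖ ^ 2 * Real.log (mass (Ψ i)) := by
      unfold FE
      rw [mul_sum, ← sum_add_distrib]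
      refine sum_congr rfl fun i _ => ?_
      rw [(hd i).2, ← sum_mul]
      congr 3
      exact (hd i).1
    have h2 : ∑ i, ∑ j, ‖b i j‖ ^ 2 * (Real.log (mass (Ψ i)) - Real.log (g j)) =
        ∑ i, ∑ j, ‖b i j‖ ^ 2 * Real.log (mass (Ψ i)) + T⁻¹ * ∑ i, ∑ j, ‖b i j‖ ^ 2 * E j +
          Real.log Z := by
      have h3 : Real.log Z = ∑ i, ∑ j, ‖b i j‖ ^ 2 * Real.log Z := by
        simp_rw [← sum_mul]
        have h4 : ∑ i, ∑ j, ‖b i j‖ ^ 2 = 1 := by
          rw [← h.one]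
          exact sum_congr rfl fun i _ => (hd i).1.symm
        rw [h4, one_mul]
      rw [h3, mul_sum, ← sum_add_distrib, ← sum_add_distrib]
      refine sum_congr rfl fun i _ => ?_
      rw [mul_sum, ← sum_add_distrib, ← sum_add_distrib]
      refine sum_congr rfl fun j _ => ?_
      rw [hlg]
      ring
    rw [h2]
    rw [hfe] at hZF
    have h5 : -((∑ i, ∑ j, ‖b i j‖ ^ 2 * E j +
        T * ∑ i, ∑ j, ‖b i j‖ ^ 2 * Real.log (mass (Ψ i)) - δ) / T) =
        -(T⁻¹ * ∑ i, ∑ j, ‖b i j‖ ^ 2 * E j) -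
          ∑ i, ∑ j, ‖b i j‖ ^ 2 * Real.log (mass (Ψ i)) + δ / T := by
      field_simp
      ring
    rw [h5] at hZF
    linarith
  · intro j
    set P : (Fin n → Fin q) → Cfg n k → ℂ :=
      fun σ p => ∑ i, (ip (Ψ i) (e j) / ((mass (Ψ i) : ℝ) : ℂ)) * Ψ i σ p with hP
    have hPs : St q n k Λ P := st_sum univ _ Ψ h.st
    have h2 := pt_def h.st h.ort (he j)
    rw [h1] at h2
    have hD := pt_st_sub (he j) hPs
    have h3 := pt_cs (F := F) (hsme j) (St_sm hD) hB0 hB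
    rw [h1, mul_one, h2] at h3
    have h4 : ip (e j + (-1 : ℂ) • P) (mf F (e j)) =
        ((mean (e j) F : ℝ) : ℂ) - ∑ i, a i j * b i j / ((mass (Ψ i) : ℝ) : ℂ) := by
      have h5 : ip (e j + (-1 : ℂ) • P) (mf F (e j)) =
          ip (e j) (mf F (e j)) - ip P (mf F (e j)) := by
        unfold ip
        rw [← sum_sub_distrib]
        refine sum_congr rfl fun σ _ => ?_
        rw [← integral_sub (ip_int (hsme j) _ (pt_loc (hsme j) hF hB) σ)
          (ip_int (St_sm hPs) _ (pt_loc (hsme j) hF hB) σ)]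
        congr 1
        funext p
        simp only [Pi.add_apply, Pi.smul_apply, smul_eq_mul, map_add, map_mul, map_neg, map_one]
        ring
      rw [h5, pt_mean, hP,
        ip_sum_left univ _ Ψ hsm _ (pt_loc (hsme j) hF hB)]
      congr 1
      refine sum_congr rfl fun i _ => ?_
      rw [map_div₀, Complex.conj_ofReal, ip_conj, ha, hb]
      simp only
      ring
    have h6 : |mean (e j) F - (∑ i, a i j * b i j / ((mass (Ψ i) : ℝ) : ℂ)).re| ≤
        ‖ip (e j + (-1 : ℂ) • P) (mf F (e j))‖ := by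
      rw [h4]
      have := Complex.abs_re_le_norm
        (((mean (e j) F : ℝ) : ℂ) - ∑ i, a i j * b i j / ((mass (Ψ i) : ℝ) : ℂ))
      rwa [Complex.sub_re, Complex.ofReal_re] at this
    refine h6.trans ?_
    have h7 : ∑ i, ‖b i j‖ ^ 2 / mass (Ψ i) = ∑ i, ‖ip (Ψ i) (e j)‖ ^ 2 / mass (Ψ i) := by
      refine sum_congr rfl fun i _ => ?_
      rw [hb]
      simp only
      rw [← ip_conj, RCLike.norm_conj]
    rw [h7, ← Real.sqrt_sq hB0, ← Real.sqrt_mul (sq_nonneg B)]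
    exact Real.le_sqrt_of_sq_le h3

theorem pinT {ι ι' : Type} [Fintype ι] [Fintype ι'] {q n k : ℕ} {T δ : ℝ} (hT : 0 < T)
    {Λ : Set E3} {z κ : Fin k → ℝ} {Ψ : ι → (Fin n → Fin q) → Cfg n k → ℂ}
    {Ψ' : ι' → (Fin n → Fin q) → Cfg n k → ℂ} (h : Eqs T δ Λ z κ Ψ) (h' : Eqs T δ Λ z κ Ψ')
    (F : Cfg n k → ℝ) (hF : Measurable F) (B : ℝ) (hB : ∀ p, |F p| ≤ B) :
    |mM Ψ F - mM Ψ' F| ≤ 6 * B * Real.sqrt (δ / T) := by
  obtain ⟨m, e, he, ho, h1, hd⟩ := diag z κ (Sum.elim Ψ Ψ') (by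
    rintro (i | i)
    · exact h.st i
    · exact h'.st i)
  have a1 := pt_one hT h e he ho h1 (fun i => hd (Sum.inl i)) F hF B hB
  have a2 := pt_one hT h' e he ho h1 (fun i => hd (Sum.inr i)) F hF B hB
  have a3 := abs_sub_le (mM Ψ F) (∑ j, Real.exp (-(energy z κ (e j) / T)) /
      (∑ l, Real.exp (-(energy z κ (e l) / T))) * mean (e j) F) (mM Ψ' F)
  rw [abs_sub_comm (∑ j, Real.exp (-(energy z κ (e j) / T)) /
      (∑ l, Real.exp (-(energy z κ (e l) / T))) * mean (e j) F) (mM Ψ' F)] at a3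
  linarith

end H6.CT
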