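import Pool.Agent.H6.CT.P12T
import Pool.Agent.H6.CT.KTotT
import Pool.Agent.H6.CB.UhF

/-! The mean potential at a point compared with the reference potential: `p1T` and `p2T` with `s = 1` and the single amplitude `f = 1` (`M = 1`, `x = 0`, `Cf = 1`, index type `Unit`, `mf (fun _ => 1) ψ = ψ`, `Gm κ 1 = 0`) bound the mean of `uh χ 1 W z p x`; `|phi z p x - ph χ 1 z p x| ≤ (1 + zp) * near p x` (`UU_eq`, `UU_nonneg`, `UU_inv`); `ce p x 2 + cn p x 2 ≤ 2 * near p x` (if a particle is at `x` itself its inverse distance is `0` in Lean: this has measure zero; the means are integrals); `log (1 + cn) ≤ cn`; `mass` adds up to one. -/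

open MeasureTheory Finset

namespace H6.CT

open H6.CM H6.CB H6.CL

private theorem pt_gr0 (c : ℝ) (v : E3) : gr (fun _ => c) v = 0 := by
  unfold gr
  refine sum_eq_zero fun d _ => ?_
  simp

private theorem pt_gm {n k : ℕ} (κ : Fin k → ℝ) :
    Gm κ (fun _ : Cfg n k => (1 : ℝ)) = fun _ => 0 := by
  funext p
  unfold Gm
  simp only [pt_gr0, mul_zero, sum_const_zero, add_zero]

private theorem pt_ae (n k : ℕ) (x : E3) :
    ∀ᵐ p : Cfg n k, (∀ a, p.1 a ≠ x) ∧ ∀ j, p.2 j ≠ x := by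
  have h1 : ∀ m : ℕ, ∀ᵐ y : Fin m → E3, ∀ a, y a ≠ x := by
    intro m
    rw [ae_all_iff]
    intro a
    rw [ae_iff]
    have h2 := Measure.pi_hyperplane (fun _ : Fin m => (volume : Measure E3)) a x
    rw [volume_pi]
    simpa using h2
  have h3 := (Measure.quasiMeasurePreserving_fst (μ := (volume : Measure (Fin n → E3)))
    (ν := (volume : Measure (Fin k → E3)))).ae (h1 n)
  have h4 := (Measure.quasiMeasurePreserving_snd (μ := (volume : Measure (Fin n → E3)))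
    (ν := (volume : Measure (Fin k → E3)))).ae (h1 k)
  filter_upwards [h3, h4] with p hp hq
  exact ⟨hp, hq⟩

private theorem pt_term {χ : E3 → ℝ} (hχ : Bump χ) (x y : E3) (hy : y ≠ x) :
    0 ≤ ‖x - y‖⁻¹ - UU χ 1 (x - y) ∧
      ‖x - y‖⁻¹ - UU χ 1 (x - y) ≤ (if ‖x - y‖ < 2 then ‖x - y‖⁻¹ else 0) := by
  have h1 := UU_inv hχ 1 one_pos (x - y) (sub_ne_zero.mpr (Ne.symm hy))
  refine ⟨by linarith, ?_⟩
  split_ifs with h
  · linarith [UU_nonneg (χ := χ) hχ 1 one_pos (x - y)]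
  · rw [UU_eq hχ 1 one_pos (x - y) (by linarith)]
    linarith

private theorem pt_point (zp : ℝ) {χ : E3 → ℝ} (hχ : Bump χ) {n k : ℕ} (z : Fin k → ℝ)
    (hz : ∀ j, 0 ≤ z j ∧ z j ≤ zp) (x : E3) (p : Cfg n k) (hE : ∀ a, p.1 a ≠ x)
    (hN : ∀ j, p.2 j ≠ x) :
    |phi z p x - ph χ 1 z p x| ≤ max zp 1 * near p x := by
  have h1 : phi z p x - ph χ 1 z p x =
      ∑ j, z j * (‖x - p.2 j‖⁻¹ - UU χ 1 (x - p.2 j)) -
        ∑ a, (‖x - p.1 a‖⁻¹ - UU χ 1 (x - p.1 a)) := by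
    simp only [phi, ph]
    rw [sum_sub_distrib]
    simp only [mul_sub, sum_sub_distrib]
    ring
  have h2 : ∀ j, 0 ≤ z j * (‖x - p.2 j‖⁻¹ - UU χ 1 (x - p.2 j)) ∧
      z j * (‖x - p.2 j‖⁻¹ - UU χ 1 (x - p.2 j)) ≤
        max zp 1 * (if ‖x - p.2 j‖ < 2 then ‖x - p.2 j‖⁻¹ else 0) := by
    intro j
    obtain ⟨h3, h4⟩ := pt_term hχ x (p.2 j) (hN j)
    refine ⟨mul_nonneg (hz j).1 h3, ?_⟩
    exact mul_le_mul ((hz j).2.trans (le_max_left _ _)) h4 h3
      (zero_le_one.trans (le_max_right _ _))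
  have h3 : ∀ a, 0 ≤ ‖x - p.1 a‖⁻¹ - UU χ 1 (x - p.1 a) ∧
      ‖x - p.1 a‖⁻¹ - UU χ 1 (x - p.1 a) ≤
        max zp 1 * (if ‖x - p.1 a‖ < 2 then ‖x - p.1 a‖⁻¹ else 0) := by
    intro a
    obtain ⟨h3, h4⟩ := pt_term hχ x (p.1 a) (hE a)
    refine ⟨h3, h4.trans ?_⟩
    exact le_mul_of_one_le_left (h3.trans h4) (le_max_right _ _)
  rw [h1]
  have h4 := sum_nonneg fun j (_ : j ∈ univ) => (h2 j).1
  have h5 := sum_le_sum fun j (_ : j ∈ univ) => (h2 j).2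
  have h6 := sum_nonneg fun a (_ : a ∈ univ) => (h3 a).1
  have h7 := sum_le_sum fun a (_ : a ∈ univ) => (h3 a).2
  rw [← mul_sum] at h5 h7
  unfold near
  rw [mul_add, abs_le]
  constructor <;> linarith

private theorem pt_ph (zp : ℝ) {χ : E3 → ℝ} (hχ : Bump χ) {q n k : ℕ} {Λ : Set E3}
    (z : Fin k → ℝ) (hz : ∀ j, 0 ≤ z j ∧ z j ≤ zp)
    (ψ : (Fin n → Fin q) → Cfg n k → ℂ) (hψ : St q n k Λ ψ) (x : E3) :
    |mean ψ (fun p => phi z p x) - mean ψ (fun p => ph χ 1 z p x)| ≤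
      max zp 1 * mean ψ (fun p => near p x) := by
  have i1 := IM_phi (St_sm hψ) z x
  have i2 : IM ψ (fun p => ph χ 1 z p x) :=
    IM.cont (St_sm hψ) (ph_smooth hχ 1 one_pos z x).continuous
  unfold mean
  rw [← sum_sub_distrib, mul_sum]
  refine (abs_sum_le_sum_abs _ _).trans (sum_le_sum fun σ _ => ?_)
  obtain ⟨-, -, -, -, -, -, -, -, i3⟩ := int_mean hψ z σ hχ
  rw [← integral_sub (i1 σ) (i2 σ), ← integral_const_mul]
  refine abs_integral_le_integral_abs.trans ?_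
  refine integral_mono_ae ((i1 σ).sub (i2 σ)).abs ((i3 x).const_mul _) ?_
  filter_upwards [pt_ae n k x] with p hp
  rw [← sub_mul, abs_mul, abs_of_nonneg (sq_nonneg ‖ψ σ p‖), ← mul_assoc]
  exact mul_le_mul_of_nonneg_right (pt_point zp hχ z hz x p hp.1 hp.2) (sq_nonneg _)

theorem potT (q : ℕ) (T zm zp κm κp A Kv : ℝ) (hT : 0 ≤ T) (hzm : 0 < zm) (hκm : 0 < κm)
    (hA : 0 ≤ A) (hKv : 0 ≤ Kv) {χ : E3 → ℝ} (hχ : Bump χ) :
    ∃ C : ℝ, 0 ≤ C ∧
    ∀ (ι : Type) (_ : Fintype ι) (n k : ℕ) (Λ : Set E3) (z κ : Fin k → ℝ) (W : Finset E3)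
    (δ : ℝ) (Ψ : ι → (Fin n → Fin q) → Cfg n k → ℂ)
    (_ : Gt q T zm zp κm κp A Kv n k Λ z κ W δ Ψ) (_ : δ ≤ 1)
    (x : E3) (_ : Metric.closedBall x 2 ⊆ Λ),
    |mM Ψ (fun p => phi z p x) - mM Ψ (fun p => pr χ W z p)| ≤
      C * (1 + mM Ψ (fun p => near p x)) := by
  obtain ⟨C1, hC1, hP⟩ := p1T q T zm zp κm κp A Kv hT hzm hκm hA hKv hχ
  obtain ⟨C2, hC2, hQ⟩ := p2T q T zm zp κm κp A Kv hT hzm hκm hA hKv hχ
  have hm1 : (1 : ℝ) ≤ max zp 1 := le_max_right _ _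
  refine ⟨max zp 1 + 4 * (C1 + C2), by positivity, ?_⟩
  intro ι _ n k Λ z κ W δ Ψ hG hδ1 x hx
  have hAm : Am (n := n) (k := k) (fun (_ : Unit) (_ : Cfg n k) => (1 : ℝ)) (fun _ => 1)
      (fun _ => 0) 1 :=
    ⟨fun _ => contDiff_const, fun _ _ _ => rfl, fun _ _ => by simp, fun _ => le_rfl, by simp⟩
  have h1 := hP ι _ n k Λ z κ W δ Ψ hG Unit _ _ _ _ _ hAm 1 one_pos le_rfl x hx
  have h2 := hQ ι _ n k Λ z κ W δ Ψ hG Unit _ _ _ _ _ hAm 1 one_pos le_rfl x hx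
  have eF : ∀ ψ : (Fin n → Fin q) → Cfg n k → ℂ, mf (fun _ => (1 : ℝ)) ψ = ψ := by
    intro ψ
    unfold mf
    funext σ p
    simp
  have hm0 : ∀ i, mean (Ψ i) (fun _ => (0 : ℝ)) = 0 := by
    intro i
    unfold mean
    simp
  simp only [univ_unique, sum_singleton, eF, one_mul, pt_gm, zero_add, one_pow, inv_one,
    mul_one, sum_const_zero, hm0, add_zero] at h1 h2
  have hst := hG.eq.st
  have hδ0 := hG.hδ
  have hz : ∀ j, 0 ≤ z j ∧ z j ≤ zp := fun j => ⟨hzm.le.trans (hG.hz j).1, (hG.hz j).2⟩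
  -- means of the counts
  have e1 : ∀ i, mean (Ψ i) (fun p => 1 + ce p x 2) =
      mass (Ψ i) + mean (Ψ i) (fun p => ce p x 2) := by
    intro i
    rw [mean_add (IM.cont (St_sm (hst i)) continuous_const) (IM_ce (St_sm (hst i)) x 2), mean_one]
  have e2 : ∀ i, mean (Ψ i) (fun p => 1 + Real.log (1 + cn p x 2)) ≤
      mass (Ψ i) + mean (Ψ i) (fun p => cn p x 2) := by
    intro i
    have h3 : mean (Ψ i) (fun p => 1 + cn p x 2) =
        mass (Ψ i) + mean (Ψ i) (fun p => cn p x 2) := by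
      rw [mean_add (IM.cont (St_sm (hst i)) continuous_const) (IM_cn (St_sm (hst i)) x 2),
        mean_one]
    rw [← h3]
    refine mean_mono0 (fun p => ?_) ((IM.cont (St_sm (hst i)) continuous_const).add
      (IM_cn (St_sm (hst i)) x 2)) (fun σ p _ => ?_)
    · have h4 := cn_nonneg p x 2
      have h5 : 0 ≤ Real.log (1 + cn p x 2) := Real.log_nonneg (by linarith)
      linarith
    · have h4 := cn_nonneg p x 2
      have h5 := Real.log_le_sub_one_of_pos (x := 1 + cn p x 2) (by linarith)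
      linarith
  have e3 : ∀ i, mean (Ψ i) (fun p => ce p x 2) + mean (Ψ i) (fun p => cn p x 2) ≤
      2 * mean (Ψ i) (fun p => near p x) := by
    intro i
    rw [← mean_add (IM_ce (St_sm (hst i)) x 2) (IM_cn (St_sm (hst i)) x 2)]
    refine le_trans (le_of_eq ?_) (cnt_near (hst i) x)
    congr 1
    funext p
    unfold ce cn cnt
    congr 1
    · exact sum_congr rfl fun a _ => by rw [norm_sub_rev]
    · exact sum_congr rfl fun a _ => by rw [norm_sub_rev]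
  have hce0 : ∀ i, 0 ≤ mean (Ψ i) (fun p => ce p x 2) := fun i =>
    mean_nonneg fun σ p _ => ce_nonneg p x 2
  have hcn0 : ∀ i, 0 ≤ mean (Ψ i) (fun p => cn p x 2) := fun i =>
    mean_nonneg fun σ p _ => cn_nonneg p x 2
  obtain ⟨E, hE⟩ : ∃ E : ℝ, E = ∑ i, mean (Ψ i) (fun p => ce p x 2) := ⟨_, rfl⟩
  obtain ⟨N, hN⟩ : ∃ N : ℝ, N = ∑ i, mean (Ψ i) (fun p => cn p x 2) := ⟨_, rfl⟩
  obtain ⟨R, hR⟩ : ∃ R : ℝ, R = ∑ i, mean (Ψ i) (fun p => near p x) := ⟨_, rfl⟩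
  obtain ⟨Y, hY⟩ : ∃ Y : ℝ, Y = ∑ i, mean (Ψ i) (fun p => uh χ 1 W z p x) := ⟨_, rfl⟩
  have hE0 : 0 ≤ E := by rw [hE]; exact sum_nonneg fun i _ => hce0 i
  have hN0 : 0 ≤ N := by rw [hN]; exact sum_nonneg fun i _ => hcn0 i
  have hEN : E + N ≤ 2 * R := by
    rw [hE, hN, hR, ← sum_add_distrib, mul_sum]
    exact sum_le_sum fun i _ => e3 i
  have f1 : ∑ i, mean (Ψ i) (fun p => 1 + ce p x 2) = 1 + E := by
    rw [sum_congr rfl fun i _ => e1 i, sum_add_distrib, hG.eq.one, hE]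
  have f2 : ∑ i, mean (Ψ i) (fun p => 1 + Real.log (1 + cn p x 2)) ≤ 1 + N := by
    refine (sum_le_sum fun i _ => e2 i).trans (le_of_eq ?_)
    rw [sum_add_distrib, hG.eq.one, hN]
  rw [f1, ← hY] at h1
  rw [← hY] at h2
  have g1 : Y ≤ C1 * (4 + E) := by
    refine h1.trans (mul_le_mul_of_nonneg_left ?_ hC1)
    linarith
  have g2 : -Y ≤ C2 * (4 + N) := by
    refine h2.trans (mul_le_mul_of_nonneg_left ?_ hC2)
    linarith
  have hR0 : 0 ≤ R := by linarith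
  have g3 : |Y| ≤ (C1 + C2) * (4 + 2 * R) := by
    rw [abs_le]
    have k1 : C1 * (4 + E) ≤ C1 * (4 + 2 * R) := mul_le_mul_of_nonneg_left (by linarith) hC1
    have k2 : C2 * (4 + N) ≤ C2 * (4 + 2 * R) := mul_le_mul_of_nonneg_left (by linarith) hC2
    have k3 : 0 ≤ C1 * (4 + 2 * R) := by positivity
    have k4 : 0 ≤ C2 * (4 + 2 * R) := by positivity
    constructor <;> linarith
  have g4 : |mM Ψ (fun p => phi z p x) - mM Ψ (fun p => ph χ 1 z p x)| ≤ max zp 1 * R := by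
    unfold mM
    rw [← sum_sub_distrib, hR, mul_sum]
    exact (abs_sum_le_sum_abs _ _).trans (sum_le_sum fun i _ => pt_ph zp hχ z hz (Ψ i) (hst i) x)
  have g5 : mM Ψ (fun p => ph χ 1 z p x) - mM Ψ (fun p => pr χ W z p) = Y := by
    unfold mM
    rw [← sum_sub_distrib, hY]
    refine sum_congr rfl fun i _ => ?_
    have i1 : IM (Ψ i) (fun p => ph χ 1 z p x) :=
      IM.cont (St_sm (hst i)) (ph_smooth hχ 1 one_pos z x).continuous
    have i2 : IM (Ψ i) (fun p => pr χ W z p) := by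
      refine IM.cont (St_sm (hst i)) ?_
      unfold pr
      exact continuous_const.mul (continuous_finsetSum _ fun w _ =>
        (ph_smooth hχ 1 one_pos z w).continuous)
    rw [← mean_sub i1 i2]
    rfl
  have g6 : mM Ψ (fun p => near p x) = R := by
    unfold mM
    exact hR.symm
  have g7 : mM Ψ (fun p => phi z p x) - mM Ψ (fun p => pr χ W z p) =
      (mM Ψ (fun p => phi z p x) - mM Ψ (fun p => ph χ 1 z p x)) + Y := by
    rw [← g5]
    ring
  rw [g7, g6]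
  refine (abs_add_le _ _).trans ?_
  have k5 : 0 ≤ (C1 + C2) * R := by positivity
  have k6 : max zp 1 * R ≤ max zp 1 * (1 + R) :=
    mul_le_mul_of_nonneg_left (by linarith) (by positivity)
  linarith

end H6.CT
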