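import Pool.Agent.H6.CT.Peil

/-! The relative form. Apply `fpei` (with `Cf = 1`, `F0 = FE T z κ Ψ - δ`, `peierls`) to the family `exp (-x b / 2) / sqrt (p i) • φ i b` (index type `ι × B`; `0` if `p i = mass (Ψ i) = 0`). With `m i b = mass (φ i b)`, `e i b = energy (φ i b)`, `M = ∑ m i b`: `∑ m i b * exp (-(x b + log (p i) + e i b / (m i b * T))) ≤ exp (-F0 / T)`; if `M > 0`, Jensen's inequality for the exponential function with the weights `m i b / M` gives `log M - M⁻¹ * ∑ (m i b * x b + m i b * log (p i) + e i b / T) ≤ -F0 / T`; multiply by `T * M`. If `M = 0` all `φ i b` vanish (`mass_zero`, `zero_energy`). -/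

open MeasureTheory Finset

namespace H6.CT

open H6.CM H6.CB H6.CL

theorem rel0 {ι : Type} [Fintype ι] {q n k : ℕ} {T δ : ℝ} (hT : 0 < T) {Λ : Set E3}
    {z κ : Fin k → ℝ} {Ψ : ι → (Fin n → Fin q) → Cfg n k → ℂ} (h : Eqs T δ Λ z κ Ψ)
    {B : Type} [Fintype B] (φ : ι → B → (Fin n → Fin q) → Cfg n k → ℂ)
    (hφ : ∀ i b, St q n k Λ (φ i b)) (x : B → ℝ)
    (hfr : ∀ h, St q n k Λ h →
      ∑ i, ∑ b, Real.exp (-x b) * (‖ip (φ i b) h‖ ^ 2 / mass (Ψ i)) ≤ mass h)
    (hz : ∀ i b, mass (Ψ i) = 0 → mass (φ i b) = 0) :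
    (∑ i, ∑ b, mass (φ i b)) * (FE T z κ Ψ - δ) +
        T * ((∑ i, ∑ b, mass (φ i b)) * Real.log (∑ i, ∑ b, mass (φ i b))) -
        T * ∑ i, (∑ b, mass (φ i b)) * Real.log (mass (Ψ i)) ≤
      ∑ i, ∑ b, energy z κ (φ i b) + T * ∑ i, ∑ b, x b * mass (φ i b) := by
  have hen0 : ∀ i b, mass (φ i b) = 0 → energy z κ (φ i b) = 0 := by
    intro i b h0
    rw [mass_zero (St_sm (hφ i b)) h0]
    exact zero_energy z κ
  have hmn : ∀ i b, 0 ≤ mass (φ i b) := fun i b => mass_nonneg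
  have hMn : 0 ≤ ∑ i, ∑ b, mass (φ i b) := sum_nonneg fun i _ => sum_nonneg fun b _ => hmn i b
  rcases hMn.eq_or_lt with hM0 | hM0
  · have h1 : ∀ i b, mass (φ i b) = 0 := by
      intro i b
      have h2 := (sum_eq_zero_iff_of_nonneg fun i _ =>
        sum_nonneg fun b _ => hmn i b).1 hM0.symm i (mem_univ _)
      exact (sum_eq_zero_iff_of_nonneg fun b _ => hmn i b).1 h2 b (mem_univ _)
    have h2 : ∀ i b, energy z κ (φ i b) = 0 := fun i b => hen0 i b (h1 i b)
    simp [h1, h2]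
  set M := ∑ i, ∑ b, mass (φ i b) with hM
  set F0 := FE T z κ Ψ - δ with hF0
  -- the scaled family
  set c : ι → B → ℝ := fun i b => Real.exp (-x b / 2) / Real.sqrt (mass (Ψ i)) with hc
  have hc2 : ∀ i b, ‖((c i b : ℝ) : ℂ)‖ ^ 2 = Real.exp (-x b) / mass (Ψ i) := by
    intro i b
    rw [Complex.norm_real, Real.norm_eq_abs, sq_abs, hc]
    simp only
    rw [div_pow, Real.sq_sqrt mass_nonneg, ← Real.exp_nat_mul]
    congr 2
    push_cast
    ring
  have hP := fpei hT (F0 := F0) (peierls hT h) (B := ι × B)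
    (fun ib => ((c ib.1 ib.2 : ℝ) : ℂ) • φ ib.1 ib.2) (fun ib => st_smul (hφ ib.1 ib.2) _) 1
    zero_le_one (by
      intro g hg
      rw [one_mul, Fintype.sum_prod_type]
      refine le_trans (le_of_eq ?_) (hfr g hg)
      refine sum_congr rfl fun i _ => sum_congr rfl fun b _ => ?_
      rw [← ip_conj, ip_smul, RCLike.norm_conj, norm_mul, mul_pow, hc2, ← ip_conj (φ i b) g,
        RCLike.norm_conj]
      ring)
  rw [one_mul, Fintype.sum_prod_type] at hP
  set y : ι → B → ℝ := fun i b =>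
    x b + Real.log (mass (Ψ i)) + energy z κ (φ i b) / mass (φ i b) / T with hy
  have hterm : ∀ i b, mass (φ i b) * Real.exp (-y i b) =
      mass (((c i b : ℝ) : ℂ) • φ i b) *
        Real.exp (-(energy z κ (((c i b : ℝ) : ℂ) • φ i b) /
          mass (((c i b : ℝ) : ℂ) • φ i b) / T)) := by
    intro i b
    rw [mass_smul, energy_smul (St_sm (hφ i b)), hc2]
    rcases eq_or_ne (mass (Ψ i)) 0 with h0 | h0
    · rw [hz i b h0]
      simp
    have hp : 0 < mass (Ψ i) := lt_of_le_of_ne mass_nonneg (Ne.symm h0)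
    rw [mul_div_mul_left _ _ (div_pos (Real.exp_pos _) hp).ne', hy]
    simp only
    rw [neg_add, neg_add, Real.exp_add, Real.exp_add, Real.exp_neg (Real.log _),
      Real.exp_log hp]
    ring
  have hsum : ∑ i, ∑ b, mass (φ i b) * Real.exp (-y i b) ≤ Real.exp (-(F0 / T)) := by
    rw [sum_congr rfl fun i _ => sum_congr rfl fun b _ => hterm i b]
    exact hP
  -- Jensen
  have hw0 : ∀ ib ∈ (univ : Finset (ι × B)), 0 ≤ mass (φ ib.1 ib.2) / M :=
    fun ib _ => div_nonneg (hmn _ _) hM0.le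
  have hw1 : ∑ ib : ι × B, mass (φ ib.1 ib.2) / M = 1 := by
    rw [← sum_div, Fintype.sum_prod_type, ← hM, div_self hM0.ne']
  have hj := convexOn_exp.map_sum_le (t := univ) (w := fun ib : ι × B => mass (φ ib.1 ib.2) / M)
    (p := fun ib => -y ib.1 ib.2) hw0 hw1 (fun j _ => Set.mem_univ _)
  simp only [smul_eq_mul] at hj
  rw [Fintype.sum_prod_type, Fintype.sum_prod_type] at hj
  simp only at hj
  have h3 : ∑ i, ∑ b, mass (φ i b) / M * Real.exp (-y i b) ≤ M⁻¹ * Real.exp (-(F0 / T)) := by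
    refine le_trans (le_of_eq ?_) (mul_le_mul_of_nonneg_left hsum (inv_nonneg.2 hM0.le))
    rw [mul_sum]
    refine sum_congr rfl fun i _ => ?_
    rw [mul_sum]
    refine sum_congr rfl fun b _ => ?_
    ring
  have h4 : ∑ i, ∑ b, mass (φ i b) / M * -y i b ≤ -Real.log M - F0 / T := by
    rw [← Real.exp_le_exp]
    refine (hj.trans h3).trans (le_of_eq ?_)
    rw [sub_eq_add_neg, Real.exp_add, Real.exp_neg (Real.log M), Real.exp_log hM0]
  have h5 : ∑ i, ∑ b, mass (φ i b) / M * -y i b =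
      -(M⁻¹ * (∑ i, ∑ b, x b * mass (φ i b) + ∑ i, (∑ b, mass (φ i b)) * Real.log (mass (Ψ i)) +
        T⁻¹ * ∑ i, ∑ b, energy z κ (φ i b))) := by
    rw [mul_sum univ (fun i => ∑ b, energy z κ (φ i b)) T⁻¹, ← sum_add_distrib,
      ← sum_add_distrib, mul_sum, ← sum_neg_distrib]
    refine sum_congr rfl fun i _ => ?_
    rw [sum_mul, mul_sum univ (fun b => energy z κ (φ i b)) T⁻¹, ← sum_add_distrib,
      ← sum_add_distrib, mul_sum, ← sum_neg_distrib]
    refine sum_congr rfl fun b _ => ?_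
    rw [hy]
    simp only
    rcases eq_or_ne (mass (φ i b)) 0 with h0 | h0
    · rw [h0, hen0 i b h0]
      simp
    · field_simp
  rw [h5] at h4
  set X := ∑ i, ∑ b, x b * mass (φ i b)
  set Y := ∑ i, (∑ b, mass (φ i b)) * Real.log (mass (Ψ i))
  set W := ∑ i, ∑ b, energy z κ (φ i b)
  have h6 : T * M * (-(M⁻¹ * (X + Y + T⁻¹ * W))) ≤ T * M * (-Real.log M - F0 / T) :=
    mul_le_mul_of_nonneg_left h4 (mul_pos hT hM0).le
  have e1 : T * M * (-(M⁻¹ * (X + Y + T⁻¹ * W))) = -(T * X + T * Y + W) := by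
    field_simp
  have e2 : T * M * (-Real.log M - F0 / T) = -(T * (M * Real.log M)) - M * F0 := by
    field_simp
  rw [e1, e2] at h6
  linarith

end H6.CT
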