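import Pool.Agent.H6.CT.Rel0
import Pool.Agent.H6.CT.Bess
import Pool.Agent.H6.CB.ImsG
import Pool.Agent.H6.CB.LocB

/-! The relocation principle. Positive temperature: if `M2 + C1 = 0` then all `f s` vanish (trivial, use `hK` for the right side: it is at least `-η`...; or simply replace `M2` by `M2 + η`). Let `lam = 1 / (2 * (M2 + C1))`, `F = ∑ s, f s ^ 2`, `g = sqrt (1 - lam * F)`, smooth (`lam * F ≤ 1/2`), symmetric, so `mf g (Ψ i)` is a wave function. For `η > 0` take the family of `hK` and apply `rel0` to the family indexed by `Option (S × B)`: `none` gives `mf g (Ψ i)` with the cost `x = -log (1 - lam * C1) ≤ 2 * lam * C1`, `some (s, b)` gives `sqrt lam • φ i s b` with the cost `x s b`. Frame bound: `∑ i, ‖ip (mf g (Ψ i)) h‖ ^ 2 / mass (Ψ i) = ∑ i, ‖ip (Ψ i) (mf g h)‖ ^ 2 / mass (Ψ i) ≤ mass (mf g h) ≤ mass h` (`ip_mf`, `bess` with `ip_cs`), times `1 - lam * C1`, plus `lam * C1 * mass h`. The masses of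 member `i` add up to `mass (Ψ i)` up to `lam * card S * η` (`∑ s mass (mf (f s) (Ψ i)) = mean (Ψ i) F`). Let `η → 0`: the left side of `rel0` tends to `∑ i, energy (Ψ i) - δ` (definition of `FE`; `t ↦ t * log t` is continuous; `mass (Ψ i) * log (mass (Ψ i))`). So `∑ energy (Ψ i) - δ ≤ ∑ energy (mf g (Ψ i)) + lam * Een + T * (lam * X + 2 * lam * C1)`. By `ims_gen` (family `g`, `sqrt lam * f s`, sum of squares `1`): `∑ energy (Ψ i) = ∑ energy (mf g (Ψ i)) + lam * ∑ energy (mf (f s) (Ψ i)) - ∑ mean (Gm g + lam * ∑ Gm (f s))`, and `Gm g ≤ lam * ∑ s, Gm (f s)` (as in `gm_sqrt`: `|∇ g|² = lam² |∇ F|² / (4 g²)`, `|∇ F|² ≤ 4 F ∑ |∇ f s|²`, `g² ≥ 1/2`, `lam * F ≤ 1/2`). Divide by `lam`.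
Temperature zero: by `Eqs.min` for one wave function (scaled), `E0 * mass φ ≤ energy φ` for all wave functions, with `E0 = ∑ energy (Ψ i) - δ`. So `E0 * ∑ mass (mf (f s) (Ψ i)) ≤ Een` (let `η → 0` in `hK`), and with `g = sqrt (2 * M2 - F)` the proof is that of `locB` (`M2 > 0`; if `M2 = 0` all `f s` vanish). -/

open MeasureTheory Finset

namespace H6.CT

open H6.CM H6.CB H6.CL

/-- the hypothesis on the relocated families -/
private def HK {ι : Type} [Fintype ι] {q n k : ℕ} (Λ : Set E3) (z κ : Fin k → ℝ)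
    (Ψ : ι → (Fin n → Fin q) → Cfg n k → ℂ) {S : Type} [Fintype S] (f : S → Cfg n k → ℝ)
    (C1 Een X : ℝ) : Prop :=
  ∀ η : ℝ, 0 < η → ∃ (B : Type) (_ : Fintype B)
    (φ : ι → S → B → (Fin n → Fin q) → Cfg n k → ℂ) (x : S → B → ℝ),
    (∀ i s b, St q n k Λ (φ i s b)) ∧
    (∀ h, St q n k Λ h → ∑ i, ∑ s, ∑ b, Real.exp (-x s b) *
      (‖ip (φ i s b) h‖ ^ 2 / mass (Ψ i)) ≤ C1 * mass h) ∧
    (∀ i s b, mass (Ψ i) = 0 → mass (φ i s b) = 0) ∧
    (∀ i s, |(∑ b, mass (φ i s b)) - mass (mf (f s) (Ψ i))| ≤ η) ∧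
    (∑ i, ∑ s, ∑ b, energy z κ (φ i s b) ≤ Een + η) ∧
    (∑ i, ∑ s, ∑ b, x s b * mass (φ i s b) ≤ X + η)

private theorem mf_zero {q n k : ℕ} (f : Cfg n k → ℝ) :
    mf f (0 : (Fin n → Fin q) → Cfg n k → ℂ) = 0 := by
  unfold mf
  funext σ p
  simp

private theorem log_half (t : ℝ) (h0 : 0 ≤ t) (h1 : t ≤ 1 / 2) : -Real.log (1 - t) ≤ 2 * t := by
  have h2 : 0 < 1 - t := by linarith
  have h3 := Real.one_sub_inv_le_log_of_pos h2
  have h4 : (1 - t)⁻¹ ≤ 1 + 2 * t := by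
    rw [inv_le_comm₀ h2 (by linarith), ← one_div, div_le_iff₀ (by linarith)]
    nlinarith
  linarith

/-- the masses of the completed family -/
private theorem m_sum {q n k : ℕ} {Λ : Set E3} {ψ : (Fin n → Fin q) → Cfg n k → ℂ}
    (hψ : St q n k Λ ψ) {S : Type} [Fintype S] {f : S → Cfg n k → ℝ}
    (hf : ∀ s, ContDiff ℝ (⊤ : ℕ∞) (f s)) {K : ℝ} {g : Cfg n k → ℝ}
    (hgs : ContDiff ℝ (⊤ : ℕ∞) g) (hg2 : ∀ p, g p ^ 2 = 2 * K - ∑ s, f s p ^ 2) :
    mass (mf g ψ) + ∑ s, mass (mf (f s) ψ) = 2 * K * mass ψ := by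
  have hsm := St_sm hψ
  have hfi : ∀ i, IM ψ (fun p => f i p ^ 2) := fun i => IM.cont hsm ((hf i).continuous.pow 2)
  have h6 : ∀ i, mass (mf (f i) ψ) = mean ψ (fun p => f i p ^ 2) := fun i => mass_mf (f i)
  have hgi : IM ψ (fun p => g p ^ 2) := IM.cont hsm (hgs.continuous.pow 2)
  have hfs : IM ψ (fun p => ∑ i, f i p ^ 2) := IM.sum _ fun i _ => hfi i
  rw [mass_mf, sum_congr rfl fun i _ => h6 i, ← mean_sum _ fun i _ => hfi i,
    ← mean_add hgi hfs, ← mean_const]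
  congr 1
  funext p
  rw [hg2]
  ring

/-- one step of the limit -/
private theorem step {ι : Type} [Fintype ι] {q n k : ℕ} {T δ : ℝ} (hT : 0 < T)
    {Λ : Set E3} {z κ : Fin k → ℝ} {Ψ : ι → (Fin n → Fin q) → Cfg n k → ℂ}
    (h : Eqs T δ Λ z κ Ψ) {S : Type} [Fintype S] (f : S → Cfg n k → ℝ)
    (hf : ∀ s, ContDiff ℝ (⊤ : ℕ∞) (f s)) (C1 : ℝ) (hC1 : 0 ≤ C1) (Een X : ℝ)
    (hK : HK Λ z κ Ψ f C1 Een X) (K : ℝ) (hK0 : 0 < K) (hKC : C1 ≤ K) (g : Cfg n k → ℝ)
    (hgs : ContDiff ℝ (⊤ : ℕ∞) g) (hgy : Sy g) (hg2 : ∀ p, g p ^ 2 = 2 * K - ∑ s, f s p ^ 2)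
    (η : ℝ) (hη : 0 < η) :
    ∃ m : ι → ℝ, (∀ i, |m i - mass (Ψ i)| ≤ (2 * K)⁻¹ * (Fintype.card S) * η) ∧
      (∑ i, m i) * (FE T z κ Ψ - δ) + T * ((∑ i, m i) * Real.log (∑ i, m i)) -
        T * ∑ i, m i * Real.log (mass (Ψ i)) ≤
      (2 * K)⁻¹ * (∑ i, energy z κ (mf g (Ψ i)) + (Een + η) + T * (2 * C1 + (X + η))) := by
  classical
  obtain ⟨B, hB, φ, x, hst, hfr, hz, hm, he, hx⟩ := hK η hη
  set lam : ℝ := (2 * K)⁻¹ with hlam
  have hl0 : 0 < lam := by positivity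
  have hlK : lam * (2 * K) = 1 := inv_mul_cancel₀ (by positivity)
  have hlC : lam * C1 ≤ 1 / 2 := by nlinarith
  have hlC0 : 0 ≤ lam * C1 := by positivity
  obtain ⟨c0, hc0⟩ : ∃ c0 : ℂ, ‖c0‖ ^ 2 = lam := ⟨((Real.sqrt lam : ℝ) : ℂ), by
    rw [Complex.norm_real, Real.norm_of_nonneg (Real.sqrt_nonneg _), Real.sq_sqrt hl0.le]⟩
  let Φ0 : ι → Option (S × B) → (Fin n → Fin q) → Cfg n k → ℂ :=
    fun i o => o.elim (mf g (Ψ i)) (fun sb => φ i sb.1 sb.2)
  have hΦ0 : ∀ i o, St q n k Λ (Φ0 i o) := by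
    intro i o
    cases o with
    | none => exact mf_st (h.st i) hgs hgy
    | some sb => exact hst i sb.1 sb.2
  let y : Option (S × B) → ℝ :=
    fun o => o.elim (-Real.log (1 - lam * C1)) (fun sb => x sb.1 sb.2)
  have hms : ∀ i o, mass (c0 • Φ0 i o) = lam * mass (Φ0 i o) := fun i o => by
    rw [mass_smul, hc0]
  have hes : ∀ i o, energy z κ (c0 • Φ0 i o) = lam * energy z κ (Φ0 i o) := fun i o => by
    rw [energy_smul (St_sm (hΦ0 i o)), hc0]
  have hg2le : ∀ p, g p ^ 2 ≤ 2 * K := fun p => by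
    rw [hg2]
    have : 0 ≤ ∑ s, f s p ^ 2 := sum_nonneg fun s _ => sq_nonneg _
    linarith
  have hR := rel0 hT h (fun i o => c0 • Φ0 i o) (fun i o => st_smul (hΦ0 i o) c0) y (by
    intro w hw
    have hw' := mf_st hw hgs hgy
    have h1 : ∑ i, ‖ip (mf g (Ψ i)) w‖ ^ 2 / mass (Ψ i) ≤ 2 * K * mass w := by
      have h2 : ∑ i, ‖ip (Ψ i) (mf g w)‖ ^ 2 / mass (Ψ i) ≤ mass (mf g w) :=
        bess h.st h.ort (mf g w)
          (fun σ => (hw'.smooth σ).continuous.locallyIntegrable) _ mass_nonneg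
          (fun ψ hψ => by
            rw [mul_comm]
            exact ip_cs (St_sm hψ) (St_sm hw'))
      refine le_trans (le_of_eq (sum_congr rfl fun i _ => ?_)) (h2.trans ?_)
      · rw [ip_mf]
      · rw [mass_mf, ← mean_const]
        refine mean_mono (IM.cont (St_sm hw) (hgs.continuous.pow 2))
          (IM.cont (St_sm hw) continuous_const) fun σ p _ => hg2le p
    have h3 : ∀ i o, ‖ip (c0 • Φ0 i o) w‖ ^ 2 = lam * ‖ip (Φ0 i o) w‖ ^ 2 := by
      intro i o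
      rw [← ip_conj, ip_smul, RCLike.norm_conj, norm_mul, mul_pow, hc0, ← ip_conj (Φ0 i o) w,
        RCLike.norm_conj]
    have h4 : ∀ i, ∑ o, Real.exp (-y o) * (‖ip (c0 • Φ0 i o) w‖ ^ 2 / mass (Ψ i)) =
        (1 - lam * C1) * (lam * (‖ip (mf g (Ψ i)) w‖ ^ 2 / mass (Ψ i))) +
        lam * ∑ s, ∑ b, Real.exp (-x s b) * (‖ip (φ i s b) w‖ ^ 2 / mass (Ψ i)) := by
      intro i
      rw [Fintype.sum_option, Fintype.sum_prod_type, mul_sum]
      congr 1
      · rw [h3]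
        show Real.exp (- -Real.log (1 - lam * C1)) * (lam * ‖ip (mf g (Ψ i)) w‖ ^ 2 /
          mass (Ψ i)) = _
        rw [neg_neg, Real.exp_log (by linarith)]
        ring
      · refine sum_congr rfl fun s _ => ?_
        rw [mul_sum]
        refine sum_congr rfl fun b _ => ?_
        rw [h3]
        show Real.exp (-x s b) * (lam * ‖ip (φ i s b) w‖ ^ 2 / mass (Ψ i)) = _
        ring
    rw [sum_congr rfl fun i _ => h4 i, sum_add_distrib, ← mul_sum, ← mul_sum, ← mul_sum]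
    have h5 := mul_le_mul_of_nonneg_left (hfr w hw) hl0.le
    have h6 : (1 - lam * C1) * (lam * ∑ i, ‖ip (mf g (Ψ i)) w‖ ^ 2 / mass (Ψ i)) ≤
        (1 - lam * C1) * (lam * (2 * K * mass w)) :=
      mul_le_mul_of_nonneg_left (mul_le_mul_of_nonneg_left h1 hl0.le) (by linarith)
    have h7 : (1 - lam * C1) * (lam * (2 * K * mass w)) = (1 - lam * C1) * mass w := by
      rw [← mul_assoc lam, hlK, one_mul]
    have h8 : (1 - lam * C1) * mass w + lam * (C1 * mass w) = mass w := by ring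
    linarith) (by
    intro i o h0
    rw [hms]
    cases o with
    | none =>
      show lam * mass (mf g (Ψ i)) = 0
      rw [mass_zero (St_sm (h.st i)) h0, mf_zero]
      simp [mass]
    | some sb =>
      show lam * mass (φ i sb.1 sb.2) = 0
      rw [hz i sb.1 sb.2 h0, mul_zero])
  have hsm : ∀ i, ∑ o, mass (c0 • Φ0 i o) =
      lam * (mass (mf g (Ψ i)) + ∑ s, ∑ b, mass (φ i s b)) := by
    intro i
    rw [sum_congr rfl fun o _ => hms i o, ← mul_sum, Fintype.sum_option, Fintype.sum_prod_type]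
    rfl
  refine ⟨fun i => ∑ o, mass (c0 • Φ0 i o), fun i => ?_, hR.trans ?_⟩
  · show |(∑ o, mass (c0 • Φ0 i o)) - mass (Ψ i)| ≤ _
    rw [hsm]
    have h1 := m_sum (h.st i) hf hgs hg2
    have h2 : mass (Ψ i) = lam * (mass (mf g (Ψ i)) + ∑ s, mass (mf (f s) (Ψ i))) := by
      rw [h1, ← mul_assoc, hlK, one_mul]
    rw [h2]
    have h3 : lam * (mass (mf g (Ψ i)) + ∑ s, ∑ b, mass (φ i s b)) -
        lam * (mass (mf g (Ψ i)) + ∑ s, mass (mf (f s) (Ψ i))) =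
        lam * ∑ s, ((∑ b, mass (φ i s b)) - mass (mf (f s) (Ψ i))) := by
      rw [sum_sub_distrib]
      ring
    rw [h3, abs_mul, abs_of_pos hl0, mul_assoc]
    refine mul_le_mul_of_nonneg_left ?_ hl0.le
    refine (abs_sum_le_sum_abs _ _).trans ?_
    refine (sum_le_sum fun s _ => hm i s).trans ?_
    rw [sum_const, card_univ, nsmul_eq_mul]
  · have e1 : ∑ i, ∑ o, energy z κ (c0 • Φ0 i o) =
        lam * (∑ i, energy z κ (mf g (Ψ i)) + ∑ i, ∑ s, ∑ b, energy z κ (φ i s b)) := by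
      rw [← sum_add_distrib, mul_sum]
      refine sum_congr rfl fun i _ => ?_
      rw [sum_congr rfl fun o _ => hes i o, ← mul_sum, Fintype.sum_option,
        Fintype.sum_prod_type]
      rfl
    have e2 : ∑ i, ∑ o, y o * mass (c0 • Φ0 i o) =
        -Real.log (1 - lam * C1) * (lam * ∑ i, mass (mf g (Ψ i))) +
          lam * ∑ i, ∑ s, ∑ b, x s b * mass (φ i s b) := by
      rw [mul_sum, mul_sum, mul_sum, ← sum_add_distrib]
      refine sum_congr rfl fun i _ => ?_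
      rw [Fintype.sum_option, Fintype.sum_prod_type, hms, mul_sum]
      congr 1
      refine sum_congr rfl fun s _ => ?_
      rw [mul_sum]
      refine sum_congr rfl fun b _ => ?_
      rw [hms]
      show x s b * (lam * mass (φ i s b)) = _
      ring
    have e3 : lam * ∑ i, mass (mf g (Ψ i)) ≤ 1 := by
      rw [← h.one, mul_sum]
      refine sum_le_sum fun i _ => ?_
      have h1 := m_sum (h.st i) hf hgs hg2
      have h2 : mass (Ψ i) = lam * (mass (mf g (Ψ i)) + ∑ s, mass (mf (f s) (Ψ i))) := by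
        rw [h1, ← mul_assoc, hlK, one_mul]
      rw [h2]
      refine mul_le_mul_of_nonneg_left ?_ hl0.le
      have : 0 ≤ ∑ s, mass (mf (f s) (Ψ i)) := sum_nonneg fun s _ => mass_nonneg
      linarith
    have e4 : 0 ≤ -Real.log (1 - lam * C1) := by
      rw [neg_nonneg]
      exact Real.log_nonpos (by linarith) (by linarith)
    have e5 := log_half (lam * C1) hlC0 hlC
    have e6 : 0 ≤ lam * ∑ i, mass (mf g (Ψ i)) :=
      mul_nonneg hl0.le (sum_nonneg fun i _ => mass_nonneg)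
    have e7 : -Real.log (1 - lam * C1) * (lam * ∑ i, mass (mf g (Ψ i))) ≤ 2 * (lam * C1) := by
      calc _ ≤ -Real.log (1 - lam * C1) * 1 := mul_le_mul_of_nonneg_left e3 e4
        _ ≤ _ := by linarith
    rw [e1, e2]
    have e8 := mul_le_mul_of_nonneg_left he hl0.le
    have e9 := mul_le_mul_of_nonneg_left hx hl0.le
    have e10 : T * (-Real.log (1 - lam * C1) * (lam * ∑ i, mass (mf g (Ψ i))) +
          lam * ∑ i, ∑ s, ∑ b, x s b * mass (φ i s b)) ≤
        T * (2 * (lam * C1) + lam * (X + η)) := mul_le_mul_of_nonneg_left (by linarith) hT.le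
    have e11 : (2 * K)⁻¹ = lam := rfl
    calc _ ≤ lam * (∑ i, energy z κ (mf g (Ψ i)) + (Een + η)) +
          T * (2 * (lam * C1) + lam * (X + η)) := by
            rw [mul_add] at *
            linarith
      _ = _ := by ring

private theorem core_pos {ι : Type} [Fintype ι] {q n k : ℕ} {T δ : ℝ} (hT : 0 < T)
    {Λ : Set E3} {z κ : Fin k → ℝ} {Ψ : ι → (Fin n → Fin q) → Cfg n k → ℂ}
    (h : Eqs T δ Λ z κ Ψ) {S : Type} [Fintype S] (f : S → Cfg n k → ℝ)
    (hf : ∀ s, ContDiff ℝ (⊤ : ℕ∞) (f s)) (C1 : ℝ) (hC1 : 0 ≤ C1) (Een X : ℝ)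
    (hK : HK Λ z κ Ψ f C1 Een X) (K : ℝ) (hK0 : 0 < K) (hKC : C1 ≤ K) (g : Cfg n k → ℝ)
    (hgs : ContDiff ℝ (⊤ : ℕ∞) g) (hgy : Sy g)
    (hg2 : ∀ p, g p ^ 2 = 2 * K - ∑ s, f s p ^ 2) :
    ∑ i, energy z κ (Ψ i) - δ ≤
      (2 * K)⁻¹ * (∑ i, energy z κ (mf g (Ψ i)) + Een + T * (2 * C1 + X)) := by
  have hs := fun N : ℕ => step hT h f hf C1 hC1 Een X hK K hK0 hKC g hgs hgy hg2
    (1 / ((N : ℝ) + 1)) (by positivity)
  choose m hm1 hm2 using hs
  have hη : Filter.Tendsto (fun N : ℕ => 1 / ((N : ℝ) + 1)) Filter.atTop (nhds 0) :=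
    tendsto_one_div_add_atTop_nhds_zero_nat
  have hmt : ∀ i, Filter.Tendsto (fun N => m N i) Filter.atTop (nhds (mass (Ψ i))) := by
    intro i
    rw [tendsto_iff_dist_tendsto_zero]
    refine squeeze_zero (fun N => dist_nonneg) (fun N => ?_)
      (g := fun N : ℕ => (2 * K)⁻¹ * (Fintype.card S) * (1 / ((N : ℝ) + 1))) ?_
    · rw [Real.dist_eq]
      exact hm1 N i
    · simpa using hη.const_mul ((2 * K)⁻¹ * (Fintype.card S : ℝ))
  have hst : Filter.Tendsto (fun N => ∑ i, m N i) Filter.atTop (nhds (∑ i, mass (Ψ i))) :=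
    tendsto_finsetSum _ fun i _ => hmt i
  have hL : Filter.Tendsto (fun N => (∑ i, m N i) * (FE T z κ Ψ - δ) +
      T * ((∑ i, m N i) * Real.log (∑ i, m N i)) - T * ∑ i, m N i * Real.log (mass (Ψ i)))
      Filter.atTop (nhds ((∑ i, mass (Ψ i)) * (FE T z κ Ψ - δ) +
      T * ((∑ i, mass (Ψ i)) * Real.log (∑ i, mass (Ψ i))) -
      T * ∑ i, mass (Ψ i) * Real.log (mass (Ψ i)))) := by
    refine ((hst.mul_const _).add (Filter.Tendsto.const_mul T ?_)).sub
      (Filter.Tendsto.const_mul T (tendsto_finsetSum _ fun i _ => (hmt i).mul_const _))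
    exact (Real.continuous_mul_log.tendsto _).comp hst
  have hRt : Filter.Tendsto (fun N : ℕ => (2 * K)⁻¹ * (∑ i, energy z κ (mf g (Ψ i)) +
      (Een + 1 / ((N : ℝ) + 1)) + T * (2 * C1 + (X + 1 / ((N : ℝ) + 1)))))
      Filter.atTop (nhds ((2 * K)⁻¹ * (∑ i, energy z κ (mf g (Ψ i)) +
      (Een + 0) + T * (2 * C1 + (X + 0))))) :=
    (((hη.const_add _).const_add _).add (((hη.const_add _).const_add _).const_mul _)).const_mul _
  have hfin := le_of_tendsto_of_tendsto' hL hRt hm2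
  rw [h.one, Real.log_one] at hfin
  have hFE : FE T z κ Ψ = ∑ i, energy z κ (Ψ i) +
      T * ∑ i, mass (Ψ i) * Real.log (mass (Ψ i)) := by
    unfold FE
    rw [sum_add_distrib, ← mul_sum]
  rw [hFE] at hfin
  simp only [add_zero] at hfin
  linarith

private theorem core_zero {ι : Type} [Fintype ι] {q n k : ℕ} {δ : ℝ}
    {Λ : Set E3} {z κ : Fin k → ℝ} {Ψ : ι → (Fin n → Fin q) → Cfg n k → ℂ}
    (h : Eqs 0 δ Λ z κ Ψ) {S : Type} [Fintype S] (f : S → Cfg n k → ℝ)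
    (hf : ∀ s, ContDiff ℝ (⊤ : ℕ∞) (f s)) (C1 : ℝ) (Een X : ℝ)
    (hK : HK Λ z κ Ψ f C1 Een X) (K : ℝ) (hK0 : 0 < K) (g : Cfg n k → ℝ)
    (hgs : ContDiff ℝ (⊤ : ℕ∞) g) (hgy : Sy g)
    (hg2 : ∀ p, g p ^ 2 = 2 * K - ∑ s, f s p ^ 2) :
    ∑ i, energy z κ (Ψ i) - δ ≤ (2 * K)⁻¹ * (∑ i, energy z κ (mf g (Ψ i)) + Een) := by
  set E := ∑ i, energy z κ (Ψ i) - δ with hE
  have hlow : ∀ φ, St q n k Λ φ → E * mass φ ≤ energy z κ φ := by
    intro φ hφ
    rcases (mass_nonneg (ψ := φ)).eq_or_lt with h0 | h0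
    · rw [mass_zero (St_sm hφ) h0.symm, zero_energy]
      simp [mass]
    have hc : ‖((Real.sqrt (mass φ)⁻¹ : ℝ) : ℂ)‖ ^ 2 = (mass φ)⁻¹ := by
      rw [Complex.norm_real, Real.norm_of_nonneg (Real.sqrt_nonneg _),
        Real.sq_sqrt (inv_nonneg.2 h0.le)]
    have h1 := h.min 1 (fun _ => ((Real.sqrt (mass φ)⁻¹ : ℝ) : ℂ) • φ)
      (fun _ => st_smul hφ _) (fun i j hij => absurd (Subsingleton.elim i j) hij) (by
        rw [Fin.sum_univ_one, mass_smul, hc, inv_mul_cancel₀ h0.ne'])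
    unfold FE at h1
    simp only [zero_mul, add_zero, Fin.sum_univ_one] at h1
    rw [energy_smul (St_sm hφ), hc] at h1
    have h2 : E ≤ (mass φ)⁻¹ * energy z κ φ := by linarith
    have h3 := mul_le_mul_of_nonneg_right h2 h0.le
    rwa [mul_comm (mass φ)⁻¹, mul_assoc, inv_mul_cancel₀ h0.ne', mul_one] at h3
  -- the relocated family
  have hrel : E * ∑ i, ∑ s, mass (mf (f s) (Ψ i)) ≤ Een := by
    refine le_of_forall_pos_le_add fun ε hε => ?_
    set N : ℝ := (Fintype.card ι : ℝ) * Fintype.card S with hN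
    have hN0 : 0 ≤ N := by positivity
    have hden : 0 < 1 + |E| * N := by positivity
    obtain ⟨B, hB, φ, x, hst, -, -, hm, he, -⟩ := hK (ε / (1 + |E| * N)) (by positivity)
    set η := ε / (1 + |E| * N) with hη
    have h1 : E * ∑ i, ∑ s, ∑ b, mass (φ i s b) ≤ Een + η := by
      refine le_trans ?_ he
      rw [mul_sum]
      refine sum_le_sum fun i _ => ?_
      rw [mul_sum]
      refine sum_le_sum fun s _ => ?_
      rw [mul_sum]
      exact sum_le_sum fun b _ => hlow _ (hst i s b)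
    have h2 : |(∑ i, ∑ s, mass (mf (f s) (Ψ i))) - ∑ i, ∑ s, ∑ b, mass (φ i s b)| ≤ N * η := by
      rw [← sum_sub_distrib]
      refine (abs_sum_le_sum_abs _ _).trans ?_
      rw [hN, mul_assoc, ← nsmul_eq_mul, ← card_univ (α := ι), ← sum_const]
      refine sum_le_sum fun i _ => ?_
      rw [← sum_sub_distrib]
      refine (abs_sum_le_sum_abs _ _).trans ?_
      rw [← nsmul_eq_mul, ← card_univ (α := S), ← sum_const]
      refine sum_le_sum fun s _ => ?_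
      rw [abs_sub_comm]
      exact hm i s
    have h3 : E * ((∑ i, ∑ s, mass (mf (f s) (Ψ i))) - ∑ i, ∑ s, ∑ b, mass (φ i s b)) ≤
        |E| * (N * η) := by
      refine (le_abs_self _).trans ?_
      rw [abs_mul]
      exact mul_le_mul_of_nonneg_left h2 (abs_nonneg _)
    have h4 : η + |E| * (N * η) = ε := by
      rw [hη]
      field_simp
    rw [mul_sub] at h3
    linarith
  have hg : E * ∑ i, mass (mf g (Ψ i)) ≤ ∑ i, energy z κ (mf g (Ψ i)) := by
    rw [mul_sum]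
    exact sum_le_sum fun i _ => hlow _ (mf_st (h.st i) hgs hgy)
  have hsum : ∑ i, mass (mf g (Ψ i)) + ∑ i, ∑ s, mass (mf (f s) (Ψ i)) = 2 * K := by
    rw [← sum_add_distrib, sum_congr rfl fun i _ => m_sum (h.st i) hf hgs hg2, ← mul_sum, h.one,
      mul_one]
  rw [inv_mul_eq_div, le_div_iff₀ (by positivity), ← hsum, mul_add]
  linarith

theorem rel1 {ι : Type} [Fintype ι] {q n k : ℕ} {T δ : ℝ} (hT : 0 ≤ T) (hδ : 0 ≤ δ)
    {Λ : Set E3} {z κ : Fin k → ℝ} (hκ : ∀ j, 0 ≤ κ j)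
    {Ψ : ι → (Fin n → Fin q) → Cfg n k → ℂ} (h : Eqs T δ Λ z κ Ψ)
    {S : Type} [Fintype S] (f : S → Cfg n k → ℝ) (hf : ∀ s, ContDiff ℝ (⊤ : ℕ∞) (f s))
    (hs : Sy (fun p => ∑ s, f s p ^ 2)) (M2 : ℝ) (hM0 : 0 ≤ M2)
    (hM : ∀ p, ∑ s, f s p ^ 2 ≤ M2) (C1 : ℝ) (hC1 : 0 ≤ C1) (Een X : ℝ)
    (hK : ∀ η : ℝ, 0 < η → ∃ (B : Type) (_ : Fintype B)
      (φ : ι → S → B → (Fin n → Fin q) → Cfg n k → ℂ) (x : S → B → ℝ),
      (∀ i s b, St q n k Λ (φ i s b)) ∧
      (∀ h, St q n k Λ h → ∑ i, ∑ s, ∑ b, Real.exp (-x s b) *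
        (‖ip (φ i s b) h‖ ^ 2 / mass (Ψ i)) ≤ C1 * mass h) ∧
      (∀ i s b, mass (Ψ i) = 0 → mass (φ i s b) = 0) ∧
      (∀ i s, |(∑ b, mass (φ i s b)) - mass (mf (f s) (Ψ i))| ≤ η) ∧
      (∑ i, ∑ s, ∑ b, energy z κ (φ i s b) ≤ Een + η) ∧
      (∑ i, ∑ s, ∑ b, x s b * mass (φ i s b) ≤ X + η)) :
    ∑ i, ∑ s, energy z κ (mf (f s) (Ψ i)) ≤ Een + T * X + 2 * T * C1 +
      2 * (∑ i, mean (Ψ i) (fun p => ∑ s, Gm κ (f s) p)) + 2 * (M2 + C1) * δ := by
  have hK' : HK Λ z κ Ψ f C1 Een X := hK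
  clear hK
  -- it is enough to prove it for a positive bound
  have main : ∀ K : ℝ, 0 < K → M2 ≤ K → C1 ≤ K →
      ∑ i, ∑ s, energy z κ (mf (f s) (Ψ i)) ≤ Een + T * X + 2 * T * C1 +
      2 * (∑ i, mean (Ψ i) (fun p => ∑ s, Gm κ (f s) p)) + 2 * K * δ := by
    intro K hK0 hKM hKC
    set g : Cfg n k → ℝ := fun p => Real.sqrt (2 * K - ∑ s, f s p ^ 2) with hg
    have hpos : ∀ p, 0 < 2 * K - ∑ s, f s p ^ 2 := fun p => by linarith [hM p]
    have hgs : ContDiff ℝ (⊤ : ℕ∞) g := by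
      refine ContDiff.sqrt ?_ fun p => (hpos p).ne'
      exact contDiff_const.sub (ContDiff.sum fun i _ => (hf i).pow 2)
    have hgy : Sy g := by
      intro π p
      show Real.sqrt (2 * K - ∑ i, f i (p.1 ∘ π, p.2) ^ 2) = _
      have h1 : ∑ i, f i (p.1 ∘ π, p.2) ^ 2 = ∑ i, f i p ^ 2 := hs π p
      rw [h1]
    have hg2 : ∀ p, g p ^ 2 = 2 * K - ∑ s, f s p ^ 2 := fun p => Real.sq_sqrt (hpos p).le
    have hcore : ∑ i, energy z κ (Ψ i) - δ ≤
        (2 * K)⁻¹ * (∑ i, energy z κ (mf g (Ψ i)) + Een + T * (2 * C1 + X)) := by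
      rcases hT.eq_or_lt with h0 | h0
      · subst h0
        have := core_zero h f hf C1 Een X hK' K hK0 g hgs hgy hg2
        simpa using this
      · exact core_pos h0 h f hf C1 hC1 Een X hK' K hK0 hKC g hgs hgy hg2
    rw [inv_mul_eq_div, le_div_iff₀ (by positivity)] at hcore
    -- the localisation formula
    have hims : ∀ i, ∑ s, energy z κ (mf (f s) (Ψ i)) + energy z κ (mf g (Ψ i)) ≤
        2 * K * energy z κ (Ψ i) + 2 * mean (Ψ i) (fun p => ∑ s, Gm κ (f s) p) := by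
      intro i
      have hsm := St_sm (h.st i)
      let G : Option S → Cfg n k → ℝ := fun o => o.elim g f
      have hG : ∀ o, ContDiff ℝ (⊤ : ℕ∞) (G o) := by
        intro o
        cases o with
        | none => exact hgs
        | some i => exact hf i
      have h1 := ims_gen hsm z κ G hG (2 * K) (fun p => by
        rw [Fintype.sum_option]
        show g p ^ 2 + ∑ i, f i p ^ 2 = _
        rw [hg2]
        ring)
      rw [Fintype.sum_option] at h1
      have h2 : energy z κ (mf g (Ψ i)) + ∑ s, energy z κ (mf (f s) (Ψ i)) =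
          2 * K * energy z κ (Ψ i) + mean (Ψ i) (fun p => ∑ o, Gm κ (G o) p) := h1
      have hGm : ∀ s, IM (Ψ i) (Gm κ (f s)) := fun s => IM.cont hsm (Gm_cont κ (hf s))
      have hsum : IM (Ψ i) (fun p => ∑ s, Gm κ (f s) p) := IM.sum _ fun s _ => hGm s
      have hgm : IM (Ψ i) (Gm κ g) := IM.cont hsm (Gm_cont κ hgs)
      have h3 : mean (Ψ i) (fun p => ∑ o, Gm κ (G o) p) =
          mean (Ψ i) (Gm κ g) + mean (Ψ i) (fun p => ∑ s, Gm κ (f s) p) := by
        rw [← mean_add hgm hsum]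
        congr 1
        funext p
        rw [Fintype.sum_option]
        rfl
      have h4 : mean (Ψ i) (Gm κ g) ≤ mean (Ψ i) (fun p => ∑ s, Gm κ (f s) p) := by
        refine mean_mono hgm hsum fun σ p _ => ?_
        have hsq : Real.sqrt K ^ 2 = K := Real.sq_sqrt hK0.le
        have h5 := gm_sqrt hκ f hf (Real.sqrt K) (Real.sqrt_pos.2 hK0)
          (fun p => by rw [hsq]; exact (hM p).trans hKM) p
        rwa [hsq] at h5
      linarith
    have hsum := sum_le_sum fun i (_ : i ∈ (univ : Finset ι)) => hims i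
    rw [sum_add_distrib, sum_add_distrib, ← mul_sum, ← mul_sum] at hsum
    linarith
  refine le_of_forall_pos_le_add fun ε hε => ?_
  have h1 := main (M2 + C1 + ε / (2 * (δ + 1))) (by positivity)
    (by have : 0 < ε / (2 * (δ + 1)) := by positivity
        linarith) (by have : 0 < ε / (2 * (δ + 1)) := by positivity
                      linarith)
  have h2 : 2 * (ε / (2 * (δ + 1))) * δ ≤ ε := by
    have : 2 * (ε / (2 * (δ + 1))) * δ = ε * (δ / (δ + 1)) := by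
      field_simp
    rw [this]
    have h3 : δ / (δ + 1) ≤ 1 := by
      rw [div_le_one (by linarith)]
      linarith
    nlinarith
  linarith

end H6.CT
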