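import Pool.Agent.H6.CT.Defs
import Pool.Agent.H6.CB.SumS
import Pool.Agent.H6.CB.PotS
import Pool.Agent.H6.CB.UB
import Pool.Agent.H6.CB.UG
import Pool.Agent.H6.CB.WIntS

/-! Averages over the position `w` of the terms of the relocation inequality for electrons, for one wave function (see `Pool/Agent/H6/CB/ERelAS.lean`). -/

open MeasureTheory Finset

namespace H6.CT

open H6.CM H6.CB H6.CL

/-- the remainder terms -/
private noncomputable def P6 {n k : ℕ} (θ B : E3 → ℝ) (z : Fin k → ℝ) (r0 : ℝ) (a : Fin n)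
    (L : ℕ) (w : E3) (p : Cfg n k) : ℝ :=
  ∑ j, z j * (rmS θ r0 a w L p.1 ^ 2 * U B (p.2 j - w))

/-- the lower bound of the potential -/
private noncomputable def P7 {n k : ℕ} (B : E3 → ℝ) (z : Fin k → ℝ) (a : Fin n) (w : E3)
    (p : Cfg n k) : ℝ :=
  ∑ j, z j * U B (p.2 j - w) - ∑ b ∈ univ.erase a, ‖w - p.1 b‖⁻¹

section meas

variable {q n k : ℕ} {Λ : Set E3} {ψ : (Fin n → Fin q) → Cfg n k → ℂ} (hψ : Sm q n k Λ ψ)
  {θ : E3 → ℝ} (h : Cut θ) {B : E3 → ℝ} (hB : Bump B) (r0 : ℝ) (hr : 0 < r0) (a : Fin n)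
  (v : E3) (L : ℕ)

include hψ hB in
private theorem ip_bdd {F : E3 → Cfg n k → ℝ} (hF : Measurable (fun u : Cfg n k × E3 => F u.2 u.1))
    (M : ℝ) (hM : ∀ w p, |F w p| ≤ M) : IP ψ (fun w => B (w - v) ^ 2) F := by
  intro σ
  have h1 : Integrable (fun u : Cfg n k × E3 => B (u.2 - v) ^ 2 * ‖ψ σ u.1‖ ^ 2) :=
    nuc_prod ((Sm_sq hψ σ).1.integrable_of_hasCompactSupport (Sm_sq hψ σ).2) (nuc_h_int hB v)
  refine (h1.bdd_mul hF.aestronglyMeasurable (c := M)
    (Filter.Eventually.of_forall fun u => by simpa using hM u.2 u.1)).congr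
    (Filter.Eventually.of_forall fun u => ?_)
  simp only
  ring

include h hr in
private theorem rm_cont2 : Continuous (fun u : Cfg n k × E3 => rmS θ r0 a u.2 L u.1.1 ^ 2) := by
  have h1 : Continuous (fun u : Cfg n k × E3 => ((u.2, u.1.1) : E3 × (Fin n → E3))) :=
    continuous_snd.prodMk (continuous_fst.comp continuous_fst)
  exact ((rmS_joint h r0 hr a L).comp h1).pow 2

private theorem rm_le (w : E3) (x : Fin n → E3) : rmS θ r0 a w L x ^ 2 ≤ 1 := by
  unfold rmS rm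
  exact Real.cos_sq_le_one _

include h hB hr in
private theorem ip1 (Φ : Cfg n k → ℝ) (hΦ : IM ψ Φ) : IP ψ (fun w => B (w - v) ^ 2)
    (fun w p => rmS θ r0 a w L p.1 ^ 2 * Φ p) := by
  intro σ
  have h2 : Integrable (fun u : Cfg n k × E3 => B (u.2 - v) ^ 2 * (Φ u.1 * ‖ψ σ u.1‖ ^ 2)) :=
    nuc_prod (hΦ σ) (nuc_h_int hB v)
  have h3 := h2.bdd_mul (c := 1) (f := fun u : Cfg n k × E3 => rmS θ r0 a u.2 L u.1.1 ^ 2)
    (rm_cont2 h r0 hr a L).aestronglyMeasurable (Filter.Eventually.of_forall fun u => by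
      rw [Real.norm_eq_abs, abs_of_nonneg (sq_nonneg _)]
      exact rm_le r0 a L _ _)
  refine h3.congr (Filter.Eventually.of_forall fun u => ?_)
  simp only
  ring

private theorem dl_nonneg (w : E3) (x : Fin n → E3) : 0 ≤ DlS r0 a w L x := by
  unfold DlS CM.Dl
  refine sum_nonneg fun b _ => sum_nonneg fun l _ => ?_
  split_ifs <;> positivity

private theorem dl_bound : ∃ M : ℝ, ∀ (w : E3) (x : Fin n → E3), DlS r0 a w L x ≤ M := by
  refine ⟨∑ b ∈ univ.erase a, ∑ l ∈ range (L + 1), (4 : ℝ) ^ l, fun w x => ?_⟩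
  unfold DlS CM.Dl
  refine sum_le_sum fun b _ => sum_le_sum fun l _ => ?_
  split_ifs
  · rw [mul_one]
  · rw [mul_zero]
    positivity

private theorem dl_meas {Y : Type*} [TopologicalSpace Y] [MeasurableSpace Y]
    [OpensMeasurableSpace Y] {f : Y → E3} {g : Y → Fin n → E3} (hf : Continuous f)
    (hg : Continuous g) : Measurable (fun u : Y => DlS r0 a (f u) L (g u)) := by
  unfold DlS CM.Dl
  refine Finset.measurable_fun_sum _ fun b _ => Finset.measurable_fun_sum _ fun l _ => ?_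
  refine Measurable.const_mul ?_ _
  refine Measurable.ite ?_ measurable_const measurable_const
  have hc : Continuous (fun u : Y => ‖r0⁻¹ • g u b - r0⁻¹ • f u‖) :=
    ((((continuous_apply b).comp hg).const_smul r0⁻¹).sub (hf.const_smul r0⁻¹)).norm
  exact (isClosed_le hc continuous_const).measurableSet

include hψ hB in
private theorem ip2 (x y : ℝ) : IP ψ (fun w => B (w - v) ^ 2)
    (fun w p => x + y * (1 + DlS r0 a w L p.1)) := by
  obtain ⟨M, hM⟩ := dl_bound r0 a L (n := n)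
  refine ip_bdd hψ hB v ((((dl_meas r0 a L continuous_snd
    (continuous_fst.comp continuous_fst)).const_add 1).const_mul y).const_add x)
      (|x| + |y| * (1 + M)) fun w p => ?_
  have h4 := dl_nonneg r0 a L w p.1
  refine (abs_add_le _ _).trans (add_le_add le_rfl ?_)
  rw [abs_mul, abs_of_nonneg (by linarith : 0 ≤ 1 + DlS r0 a w L p.1)]
  exact mul_le_mul_of_nonneg_left (by linarith [hM w p.1]) (abs_nonneg _)

include hψ h hB hr in
private theorem ip6 (hU : Continuous (U B)) (z : Fin k → ℝ) (hz : ∀ j, 0 ≤ z j) :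
    IP ψ (fun w => B (w - v) ^ 2) (P6 θ B z r0 a L) := by
  obtain ⟨C, hC, hbd⟩ := U_bd hB
  refine ip_bdd hψ hB v ?_ (∑ j, z j * (1 * C)) fun w p => ?_
  · unfold P6
    refine Finset.measurable_fun_sum _ fun j _ => Measurable.const_mul ?_ _
    refine (rm_cont2 h r0 hr a L).measurable.mul (hU.comp ?_).measurable
    exact ((continuous_apply j).comp (continuous_snd.comp continuous_fst)).sub continuous_snd
  · unfold P6
    refine (abs_sum_le_sum_abs _ _).trans (sum_le_sum fun j _ => ?_)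
    have h0 := U_nonneg B (p.2 j - w)
    rw [abs_of_nonneg (mul_nonneg (hz j) (mul_nonneg (sq_nonneg _) h0))]
    refine mul_le_mul_of_nonneg_left ?_ (hz j)
    exact mul_le_mul (rm_le r0 a L w p.1) (hbd _) h0 zero_le_one

include hψ hB in
private theorem ip7 (hU : Continuous (U B)) (z : Fin k → ℝ) (hz : ∀ j, 0 ≤ z j) :
    IP ψ (fun w => B (w - v) ^ 2) (P7 B z a) := by
  obtain ⟨C, hC, hbd⟩ := U_bd hB
  have h1 : IP ψ (fun w => B (w - v) ^ 2) (fun w p => ∑ j, z j * U B (p.2 j - w)) := by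
    refine ip_bdd hψ hB v ?_ (∑ j, z j * C) fun w p => ?_
    · refine Finset.measurable_fun_sum _ fun j _ => Measurable.const_mul ?_ _
      refine (hU.comp ?_).measurable
      exact ((continuous_apply j).comp (continuous_snd.comp continuous_fst)).sub continuous_snd
    · refine (abs_sum_le_sum_abs _ _).trans (sum_le_sum fun j _ => ?_)
      have h0 := U_nonneg B (p.2 j - w)
      rw [abs_of_nonneg (mul_nonneg (hz j) h0)]
      exact mul_le_mul_of_nonneg_left (hbd _) (hz j)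
  intro σ
  have hg : Continuous (fun u : Cfg n k × E3 => B (u.2 - v) ^ 2 * ‖ψ σ u.1‖ ^ 2) ∧
      HasCompactSupport (fun u : Cfg n k × E3 => B (u.2 - v) ^ 2 * ‖ψ σ u.1‖ ^ 2) := by
    constructor
    · have h1 : Continuous (fun v' => B (v' - v)) := (nuc_h_smooth hB v).continuous
      exact ((h1.comp continuous_snd).pow 2).mul ((Sm_sq hψ σ).1.comp continuous_fst)
    · refine HasCompactSupport.intro ((hψ.cpt σ).isCompact.prod (nuc_h_cpt hB v).isCompact) ?_
      intro u hu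
      rw [Set.mem_prod, not_and_or] at hu
      rcases hu with hu | hu
      · have h3 : ψ σ u.1 = 0 := image_eq_zero_of_notMem_tsupport hu
        rw [h3]
        simp
      · have h4 : B (u.2 - v) = 0 :=
          image_eq_zero_of_notMem_tsupport (f := fun v' => B (v' - v)) hu
        rw [h4]
        simp
  have h2 : Integrable (fun u : Cfg n k × E3 =>
      ∑ b ∈ univ.erase a, ‖u.2 - u.1.1 b‖⁻¹ * (B (u.2 - v) ^ 2 * ‖ψ σ u.1‖ ^ 2)) :=
    integrable_finsetSum _ fun b _ => int_pe _ hg.1 hg.2 b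
  refine ((h1 σ).sub h2).congr (Filter.Eventually.of_forall fun u => ?_)
  simp only [Pi.sub_apply, P7]
  rw [mul_sub, sub_mul, mul_sum (univ.erase a), sum_mul (univ.erase a)]
  congr 1
  exact sum_congr rfl fun b _ => by ring

include hψ h hr in
private theorem im6 (hU : Continuous (U B)) (z : Fin k → ℝ) (w : E3) :
    IM ψ (P6 θ B z r0 a L w) := by
  refine IM.cont hψ ?_
  unfold P6
  refine continuous_finsetSum _ fun j _ => continuous_const.mul ?_
  refine ((((rmS_smooth h r0 hr a w L).continuous).comp continuous_fst).pow 2).mul (hU.comp ?_)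
  exact ((continuous_apply j).comp continuous_snd).sub continuous_const

include hψ in
private theorem im7 (hU : Continuous (U B)) (z : Fin k → ℝ) (w : E3) :
    IM ψ (P7 B z a w) := by
  have h1 : IM ψ (fun p => ∑ j, z j * U B (p.2 j - w)) := by
    refine IM.cont hψ ?_
    refine continuous_finsetSum _ fun j _ => continuous_const.mul (hU.comp ?_)
    exact ((continuous_apply j).comp continuous_snd).sub continuous_const
  exact h1.sub (IM.sum _ fun b _ => IM_we hψ w b)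

include hψ h hB hr in
/-- the kinetic energy of the remainder -/
private theorem rk_avg : Integrable (fun w => B (w - v) ^ 2 * rK θ r0 a w L ψ) ∧
    ∫ w, B (w - v) ^ 2 * rK θ r0 a w L ψ =
      ∑ σ, ∫ p, (∫ w, B (w - v) ^ 2 * rmS θ r0 a w L p.1 ^ 2) * ge (ψ σ) a p := by
  have hI : ∀ σ, Integrable (fun u : Cfg n k × E3 =>
      B (u.2 - v) ^ 2 * (rmS θ r0 a u.2 L u.1.1 ^ 2 * ge (ψ σ) a u.1)) := by
    intro σ
    have h2 : Integrable (fun u : Cfg n k × E3 => B (u.2 - v) ^ 2 * ge (ψ σ) a u.1) :=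
      nuc_prod (kE_int hψ σ a) (nuc_h_int hB v)
    have h3 := h2.bdd_mul (c := 1) (f := fun u : Cfg n k × E3 => rmS θ r0 a u.2 L u.1.1 ^ 2)
      (rm_cont2 h r0 hr a L).aestronglyMeasurable (Filter.Eventually.of_forall fun u => by
        rw [Real.norm_eq_abs, abs_of_nonneg (sq_nonneg _)]
        exact rm_le r0 a L _ _)
    refine h3.congr (Filter.Eventually.of_forall fun u => ?_)
    simp only
    ring
  have e1 : ∀ w, B (w - v) ^ 2 * rK θ r0 a w L ψ =
      ∑ σ, ∫ p, B (w - v) ^ 2 * (rmS θ r0 a w L p.1 ^ 2 * ge (ψ σ) a p) := by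
    intro w
    unfold rK
    rw [mul_sum]
    refine sum_congr rfl fun σ _ => ?_
    rw [← integral_const_mul]
  have i1 : ∀ σ, Integrable (fun w => ∫ p, B (w - v) ^ 2 *
      (rmS θ r0 a w L p.1 ^ 2 * ge (ψ σ) a p)) := fun σ => (hI σ).integral_prod_right
  simp only [e1]
  refine ⟨integrable_finsetSum _ fun σ _ => i1 σ, ?_⟩
  rw [integral_finsetSum _ fun σ _ => i1 σ]
  refine sum_congr rfl fun σ _ => ?_
  rw [← integral_integral_swap (f := fun p w => B (w - v) ^ 2 *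
    (rmS θ r0 a w L p.1 ^ 2 * ge (ψ σ) a p)) (hI σ)]
  congr 1
  funext p
  rw [← integral_mul_const]
  congr 1
  funext w
  ring

end meas

private theorem lin5 {f1 f2 f3 f4 f5 : E3 → ℝ} (h1 : Integrable f1) (h2 : Integrable f2)
    (h3 : Integrable f3) (h4 : Integrable f4) (h5 : Integrable f5) :
    Integrable (fun w => f1 w - f2 w + f3 w + f4 w - f5 w) ∧
    ∫ w, (f1 w - f2 w + f3 w + f4 w - f5 w) =
      (∫ w, f1 w) - (∫ w, f2 w) + (∫ w, f3 w) + (∫ w, f4 w) - ∫ w, f5 w := by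
  have g3 : Integrable (fun w => f1 w - f2 w) := h1.sub h2
  have g4 : Integrable (fun w => f1 w - f2 w + f3 w) := g3.add h3
  have g5 : Integrable (fun w => f1 w - f2 w + f3 w + f4 w) := g4.add h4
  refine ⟨g5.sub h5, ?_⟩
  rw [integral_sub g5 h5, integral_add g4 h4, integral_add g3 h3, integral_sub h1 h2]

theorem relE_avgR {q n k : ℕ} {Λ : Set E3} {φ : (Fin n → Fin q) → Cfg n k → ℂ}
    (hφ : Sm q n k Λ φ) {χ : E3 → ℝ} (hχ : Bump χ) (s r0 : ℝ) (hr0 : 0 < r0) (hrs : r0 ≤ s)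
    (hs1 : s ≤ 1) (a : Fin n) (v : E3) (L : ℕ) (x C2 : ℝ)
    (H2 : ∀ (x : Fin n → E3), Integrable (fun w => chr χ s (w - v) ^ 2 * DlS r0 a w L x) ∧
      ∫ w, chr χ s (w - v) ^ 2 * DlS r0 a w L x ≤
        C2 * (r0 ^ 3 * (s ^ 3)⁻¹) * ∑ b, (if ‖x b - v‖ < 2 * s then 1 else 0)) :
    Integrable (fun w => chr χ s (w - v) ^ 2 *
      mean φ (fun p => x + (r0 ^ 2)⁻¹ * (1 + DlS r0 a w L p.1))) ∧
    ∫ w, chr χ s (w - v) ^ 2 * mean φ (fun p => x + (r0 ^ 2)⁻¹ * (1 + DlS r0 a w L p.1)) ≤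
      mean φ (fun p => x + (r0 ^ 2)⁻¹ + C2 * (r0 * (s ^ 3)⁻¹) * ce p v (2 * s)) := by
  have hs : 0 < s := hr0.trans_le hrs
  have hB : Bump (chr χ s) := chr_bump hχ s hs hs1
  have hcw : Integrable (fun w => chr χ s (w - v) ^ 2) := nuc_h_int hB v
  have hc1 : ∫ w, chr χ s (w - v) ^ 2 = 1 := by
    rw [integral_sub_right_eq_self (fun w => chr χ s w ^ 2) v]
    exact hB.norm
  obtain ⟨i2, j2, e2⟩ := mean_fub (ip2 hφ hB r0 a v L x (r0 ^ 2)⁻¹)
  refine ⟨i2, ?_⟩
  rw [e2]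
  refine mean_mono j2 (((IM.cont hφ continuous_const)).add ((IM_ce hφ v (2 * s)).cmul _))
    fun _ p _ => ?_
  have h1 := H2 p.1
  have h2 : ∫ w, chr χ s (w - v) ^ 2 * (x + (r0 ^ 2)⁻¹ * (1 + DlS r0 a w L p.1)) =
      (x + (r0 ^ 2)⁻¹) + (r0 ^ 2)⁻¹ * ∫ w, chr χ s (w - v) ^ 2 * DlS r0 a w L p.1 := by
    have h3 : ∀ w, chr χ s (w - v) ^ 2 * (x + (r0 ^ 2)⁻¹ * (1 + DlS r0 a w L p.1)) =
        chr χ s (w - v) ^ 2 * (x + (r0 ^ 2)⁻¹) +
          (r0 ^ 2)⁻¹ * (chr χ s (w - v) ^ 2 * DlS r0 a w L p.1) := fun w => by ring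
    simp only [h3]
    rw [integral_add (hcw.mul_const _) (h1.1.const_mul _), integral_mul_const, hc1, one_mul,
      integral_const_mul]
  rw [h2]
  have h4 := mul_le_mul_of_nonneg_left h1.2 (by positivity : 0 ≤ (r0 ^ 2)⁻¹)
  have h5 : ce p v (2 * s) = ∑ b, (if ‖p.1 b - v‖ < 2 * s then (1 : ℝ) else 0) := rfl
  have h6 : (r0 ^ 2)⁻¹ * (C2 * (r0 ^ 3 * (s ^ 3)⁻¹) *
      ∑ b, (if ‖p.1 b - v‖ < 2 * s then (1 : ℝ) else 0)) =
      C2 * (r0 * (s ^ 3)⁻¹) * ∑ b, (if ‖p.1 b - v‖ < 2 * s then (1 : ℝ) else 0) := by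
    field_simp
  rw [h6] at h4
  rw [h5]
  linarith

theorem relE_avgL {q n k : ℕ} {Λ : Set E3} {φ : (Fin n → Fin q) → Cfg n k → ℂ}
    (hφ : Sm q n k Λ φ) {χ θ : E3 → ℝ} (hχ : Bump χ) (hθ : Cut θ) (η s r0 : ℝ) (hr0 : 0 < r0)
    (hrs : r0 ≤ s) (hs1 : s ≤ 1) (z : Fin k → ℝ) (hz : ∀ j, 0 ≤ z j) (a : Fin n) (v : E3)
    (L : ℕ) (C3 C4 : ℝ) (hC3 : 0 ≤ C3) (hC4 : 0 ≤ C4)
    (H3 : ∀ (x : Fin n → E3), ∫ w, chr χ s (w - v) ^ 2 * rmS θ r0 a w L x ^ 2 ≤
      C3 * n * ((2 : ℝ) ^ L)⁻¹)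
    (H4 : ∀ v, 0 ≤ U (chr χ s) v ∧ U (chr χ s) v ≤ C4 * s⁻¹) :
    Integrable (fun w => chr χ s (w - v) ^ 2 *
      ((1 - η) * (kE φ a - rK θ r0 a w L φ) -
      mean φ (fun p => (1 - rmS θ r0 a w L p.1 ^ 2) * phiE z a p (p.1 a)) +
      mean φ (fun p => (1 - rmS θ r0 a w L p.1 ^ 2) *
        (∑ j, z j * U (chr χ s) (p.2 j - w)) - ∑ b' ∈ univ.erase a, ‖w - p.1 b'‖⁻¹))) ∧
    (1 - η) * kE φ a - mean φ (fun p => phiE z a p (p.1 a)) +
      mean φ (fun p => ∑ j, z j * UU χ s (v - p.2 j) -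
        ∑ b ∈ univ.erase a, U (chr χ s) (p.1 b - v)) ≤
      (∫ w, chr χ s (w - v) ^ 2 * ((1 - η) * (kE φ a - rK θ r0 a w L φ) -
      mean φ (fun p => (1 - rmS θ r0 a w L p.1 ^ 2) * phiE z a p (p.1 a)) +
      mean φ (fun p => (1 - rmS θ r0 a w L p.1 ^ 2) *
        (∑ j, z j * U (chr χ s) (p.2 j - w)) - ∑ b' ∈ univ.erase a, ‖w - p.1 b'‖⁻¹))) +
      (|1 - η| * (C3 * n) * kE φ a + C3 * n * mean φ (fun p => |phiE z a p (p.1 a)|) +
        (∑ j, z j) * (C4 * s⁻¹ * (C3 * n)) * mass φ) * ((2 : ℝ) ^ L)⁻¹ := by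
  have hs : 0 < s := hr0.trans_le hrs
  have hB : Bump (chr χ s) := chr_bump hχ s hs hs1
  have hU : Continuous (U (chr χ s)) := U_cont hχ s hs
  have hΦ : IM φ (fun p => phiE z a p (p.1 a)) := IM_phiE hφ z a
  have hcw : Integrable (fun w => chr χ s (w - v) ^ 2) := nuc_h_int hB v
  have hc1 : ∫ w, chr χ s (w - v) ^ 2 = 1 := by
    rw [integral_sub_right_eq_self (fun w => chr χ s w ^ 2) v]
    exact hB.norm
  obtain ⟨i1, j1, e1⟩ := mean_fub (ip1 hθ hB r0 hr0 a v L _ hΦ)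
  obtain ⟨i6, j6, e6⟩ := mean_fub (ip6 hφ hθ hB r0 hr0 a v L hU z hz)
  obtain ⟨i7, j7, e7⟩ := mean_fub (ip7 hφ hB a v hU z hz)
  obtain ⟨iK, eK⟩ := rk_avg hφ hθ hB r0 hr0 a v L
  -- decomposition
  have hdec : ∀ w, chr χ s (w - v) ^ 2 * ((1 - η) * (kE φ a - rK θ r0 a w L φ) -
      mean φ (fun p => (1 - rmS θ r0 a w L p.1 ^ 2) * phiE z a p (p.1 a)) +
      mean φ (fun p => (1 - rmS θ r0 a w L p.1 ^ 2) *
        (∑ j, z j * U (chr χ s) (p.2 j - w)) - ∑ b' ∈ univ.erase a, ‖w - p.1 b'‖⁻¹)) =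
      chr χ s (w - v) ^ 2 * ((1 - η) * kE φ a - mean φ (fun p => phiE z a p (p.1 a))) -
      (1 - η) * (chr χ s (w - v) ^ 2 * rK θ r0 a w L φ) +
      chr χ s (w - v) ^ 2 * mean φ (fun p => rmS θ r0 a w L p.1 ^ 2 * phiE z a p (p.1 a)) +
      chr χ s (w - v) ^ 2 * mean φ (P7 (chr χ s) z a w) -
      chr χ s (w - v) ^ 2 * mean φ (P6 θ (chr χ s) z r0 a L w) := by
    intro w
    have hm : Measurable (fun p : Cfg n k => rmS θ r0 a w L p.1 ^ 2) :=
      ((((rmS_smooth hθ r0 hr0 a w L).continuous).comp continuous_fst).pow 2).measurable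
    have k1 : IM φ (fun p => rmS θ r0 a w L p.1 ^ 2 * phiE z a p (p.1 a)) :=
      hΦ.bmul hm 1 fun p => by
        rw [abs_of_nonneg (sq_nonneg _)]
        exact rm_le r0 a L w p.1
    have k2 : mean φ (fun p => (1 - rmS θ r0 a w L p.1 ^ 2) * phiE z a p (p.1 a)) =
        mean φ (fun p => phiE z a p (p.1 a)) -
          mean φ (fun p => rmS θ r0 a w L p.1 ^ 2 * phiE z a p (p.1 a)) := by
      rw [← mean_sub hΦ k1]
      congr 1
      funext p
      ring
    have k3 : mean φ (fun p => (1 - rmS θ r0 a w L p.1 ^ 2) *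
        (∑ j, z j * U (chr χ s) (p.2 j - w)) - ∑ b' ∈ univ.erase a, ‖w - p.1 b'‖⁻¹) =
        mean φ (P7 (chr χ s) z a w) - mean φ (P6 θ (chr χ s) z r0 a L w) := by
      rw [← mean_sub (im7 hφ a hU z w) (im6 hφ hθ r0 hr0 a L hU z w)]
      congr 1
      funext p
      unfold P7 P6
      have : ∑ j, z j * (rmS θ r0 a w L p.1 ^ 2 * U (chr χ s) (p.2 j - w)) =
          rmS θ r0 a w L p.1 ^ 2 * ∑ j, z j * U (chr χ s) (p.2 j - w) := by
        rw [mul_sum]
        exact sum_congr rfl fun j _ => by ring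
      rw [this]
      ring
    rw [k2, k3]
    ring
  have g1 : Integrable (fun w => chr χ s (w - v) ^ 2 *
      ((1 - η) * kE φ a - mean φ (fun p => phiE z a p (p.1 a)))) := hcw.mul_const _
  have g2 : Integrable (fun w => (1 - η) * (chr χ s (w - v) ^ 2 * rK θ r0 a w L φ)) :=
    iK.const_mul _
  obtain ⟨hI, hE⟩ := lin5 g1 g2 i1 i7 i6
  have hint : Integrable (fun w => chr χ s (w - v) ^ 2 *
      ((1 - η) * (kE φ a - rK θ r0 a w L φ) -
      mean φ (fun p => (1 - rmS θ r0 a w L p.1 ^ 2) * phiE z a p (p.1 a)) +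
      mean φ (fun p => (1 - rmS θ r0 a w L p.1 ^ 2) *
        (∑ j, z j * U (chr χ s) (p.2 j - w)) - ∑ b' ∈ univ.erase a, ‖w - p.1 b'‖⁻¹))) := by
    refine hI.congr (Filter.Eventually.of_forall fun w => ?_)
    exact (hdec w).symm
  refine ⟨hint, ?_⟩
  have hval : ∫ w, chr χ s (w - v) ^ 2 * ((1 - η) * (kE φ a - rK θ r0 a w L φ) -
      mean φ (fun p => (1 - rmS θ r0 a w L p.1 ^ 2) * phiE z a p (p.1 a)) +
      mean φ (fun p => (1 - rmS θ r0 a w L p.1 ^ 2) *
        (∑ j, z j * U (chr χ s) (p.2 j - w)) - ∑ b' ∈ univ.erase a, ‖w - p.1 b'‖⁻¹)) =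
      ((1 - η) * kE φ a - mean φ (fun p => phiE z a p (p.1 a))) -
      (1 - η) * (∫ w, chr χ s (w - v) ^ 2 * rK θ r0 a w L φ) +
      (∫ w, chr χ s (w - v) ^ 2 *
        mean φ (fun p => rmS θ r0 a w L p.1 ^ 2 * phiE z a p (p.1 a))) +
      (∫ w, chr χ s (w - v) ^ 2 * mean φ (P7 (chr χ s) z a w)) -
      ∫ w, chr χ s (w - v) ^ 2 * mean φ (P6 θ (chr χ s) z r0 a L w) := by
    simp only [hdec]
    rw [hE, integral_mul_const, hc1, one_mul, integral_const_mul]
  rw [hval, e1, e6, e7, eK]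
  have hbw : ∀ (F : E3 → ℝ) (M : ℝ), Measurable F → (∀ w, |F w| ≤ M) →
      Integrable (fun w => chr χ s (w - v) ^ 2 * F w) := by
    intro F M hF hM
    refine (hcw.bdd_mul (c := M) hF.aestronglyMeasurable
      (Filter.Eventually.of_forall fun w => by simpa using hM w)).congr
      (Filter.Eventually.of_forall fun w => ?_)
    simp only
    ring
  set r : ℝ := ((2 : ℝ) ^ L)⁻¹ with hr
  have hrp : 0 ≤ r := by positivity
  have hrm0 : ∀ p : Cfg n k, 0 ≤ ∫ w, chr χ s (w - v) ^ 2 * rmS θ r0 a w L p.1 ^ 2 := fun p =>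
    integral_nonneg fun w => mul_nonneg (sq_nonneg _) (sq_nonneg _)
  have hrm1 : ∀ p : Cfg n k, ∫ w, chr χ s (w - v) ^ 2 * rmS θ r0 a w L p.1 ^ 2 ≤ C3 * n * r :=
    fun p => H3 p.1
  have hcr : 0 ≤ C3 * n * r := by positivity
  -- the four terms
  have t7 : mean φ (fun p => ∫ w, chr χ s (w - v) ^ 2 * P7 (chr χ s) z a w p) =
      mean φ (fun p => ∑ j, z j * UU χ s (v - p.2 j) -
        ∑ b ∈ univ.erase a, U (chr χ s) (p.1 b - v)) := by
    congr 1
    funext p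
    have h2 : ∀ w, chr χ s (w - v) ^ 2 * P7 (chr χ s) z a w p =
        ∑ j, z j * (chr χ s (w - v) ^ 2 * U (chr χ s) (p.2 j - w)) -
          ∑ b ∈ univ.erase a, chr χ s (w - v) ^ 2 * ‖w - p.1 b‖⁻¹ := by
      intro w
      unfold P7
      rw [mul_sub, mul_sum, mul_sum]
      congr 1
      exact sum_congr rfl fun j _ => by ring
    simp only [h2]
    rw [integral_sub (integrable_finsetSum _ fun j _ => ((UU_avg hχ s hs v _).1).const_mul (z j))
      (integrable_finsetSum _ fun b _ => chr_pot_int hχ s hs v _),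
      integral_finsetSum _ (fun j _ => ((UU_avg hχ s hs v _).1).const_mul (z j)),
      integral_finsetSum _ (fun b _ => chr_pot_int hχ s hs v _)]
    simp only [integral_const_mul, (UU_avg hχ s hs v _).2, U_trans hB]
  have t6 : mean φ (fun p => ∫ w, chr χ s (w - v) ^ 2 * P6 θ (chr χ s) z r0 a L w p) ≤
      ((∑ j, z j) * (C4 * s⁻¹ * (C3 * n * r))) * mass φ := by
    rw [← mean_const]
    refine mean_mono j6 (IM.cont hφ continuous_const) fun _ p _ => ?_
    have h1 : ∀ j, Integrable (fun w => chr χ s (w - v) ^ 2 *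
        (rmS θ r0 a w L p.1 ^ 2 * U (chr χ s) (p.2 j - w))) := by
      intro j
      refine hbw _ (1 * (C4 * s⁻¹)) ?_ fun w => ?_
      · refine Measurable.mul ?_ (hU.comp (continuous_const.sub continuous_id)).measurable
        have h3 : Continuous (fun w : E3 => ((w, p.1) : E3 × (Fin n → E3))) :=
          continuous_id.prodMk continuous_const
        exact (((rmS_joint hθ r0 hr0 a L).comp h3).pow 2).measurable
      · have h0 := U_nonneg (chr χ s) (p.2 j - w)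
        rw [abs_of_nonneg (mul_nonneg (sq_nonneg _) h0)]
        exact mul_le_mul (rm_le r0 a L w p.1) (H4 _).2 h0 zero_le_one
    have h2 : ∀ w, chr χ s (w - v) ^ 2 * P6 θ (chr χ s) z r0 a L w p =
        ∑ j, z j * (chr χ s (w - v) ^ 2 *
          (rmS θ r0 a w L p.1 ^ 2 * U (chr χ s) (p.2 j - w))) := by
      intro w
      unfold P6
      rw [mul_sum]
      exact sum_congr rfl fun j _ => by ring
    simp only [h2]
    rw [integral_finsetSum _ fun j _ => (h1 j).const_mul (z j)]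
    simp only [integral_const_mul]
    rw [sum_mul]
    refine sum_le_sum fun j _ => mul_le_mul_of_nonneg_left ?_ (hz j)
    have h3 : ∫ w, chr χ s (w - v) ^ 2 * (rmS θ r0 a w L p.1 ^ 2 * U (chr χ s) (p.2 j - w)) ≤
        C4 * s⁻¹ * ∫ w, chr χ s (w - v) ^ 2 * rmS θ r0 a w L p.1 ^ 2 := by
      rw [← integral_const_mul]
      have h4 : Integrable (fun w => chr χ s (w - v) ^ 2 * rmS θ r0 a w L p.1 ^ 2) := by
        refine hbw _ 1 ?_ fun w => ?_
        · have h3 : Continuous (fun w : E3 => ((w, p.1) : E3 × (Fin n → E3))) :=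
            continuous_id.prodMk continuous_const
          exact (((rmS_joint hθ r0 hr0 a L).comp h3).pow 2).measurable
        · rw [abs_of_nonneg (sq_nonneg _)]
          exact rm_le r0 a L w p.1
      refine integral_mono (h1 j) (h4.const_mul _) fun w => ?_
      have h5 : 0 ≤ chr χ s (w - v) ^ 2 * rmS θ r0 a w L p.1 ^ 2 :=
        mul_nonneg (sq_nonneg _) (sq_nonneg _)
      have h6 := mul_le_mul_of_nonneg_left (H4 (p.2 j - w)).2 h5
      simp only
      linarith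
    refine h3.trans ?_
    exact mul_le_mul_of_nonneg_left (hrm1 p) (by positivity)
  have t1 : -(C3 * n * r * mean φ (fun p => |phiE z a p (p.1 a)|)) ≤
      mean φ (fun p => ∫ w, chr χ s (w - v) ^ 2 *
        (rmS θ r0 a w L p.1 ^ 2 * phiE z a p (p.1 a))) := by
    rw [← mean_cmul, ← mean_neg]
    refine mean_mono (hΦ.abs.cmul _).neg j1 fun _ p _ => ?_
    have h1 : ∫ w, chr χ s (w - v) ^ 2 * (rmS θ r0 a w L p.1 ^ 2 * phiE z a p (p.1 a)) =
        (∫ w, chr χ s (w - v) ^ 2 * rmS θ r0 a w L p.1 ^ 2) * phiE z a p (p.1 a) := by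
      rw [← integral_mul_const]
      congr 1
      funext w
      ring
    rw [h1]
    have h2 := mul_le_mul_of_nonneg_right (hrm1 p) (abs_nonneg (phiE z a p (p.1 a)))
    have h3 := neg_abs_le (phiE z a p (p.1 a))
    have h4 := mul_le_mul_of_nonneg_left h3 (hrm0 p)
    linarith
  have tK : (1 - η) * (∑ σ, ∫ p, (∫ w, chr χ s (w - v) ^ 2 * rmS θ r0 a w L p.1 ^ 2) *
      ge (φ σ) a p) ≤ |1 - η| * (C3 * n * r * kE φ a) := by
    have h1 : 0 ≤ ∑ σ, ∫ p, (∫ w, chr χ s (w - v) ^ 2 * rmS θ r0 a w L p.1 ^ 2) *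
        ge (φ σ) a p := sum_nonneg fun σ _ => integral_nonneg fun p =>
      mul_nonneg (hrm0 p) (ge_nonneg _ _ _)
    have h2 : ∑ σ, ∫ p, (∫ w, chr χ s (w - v) ^ 2 * rmS θ r0 a w L p.1 ^ 2) *
        ge (φ σ) a p ≤ C3 * n * r * kE φ a := by
      unfold kE
      rw [mul_sum]
      refine sum_le_sum fun σ _ => ?_
      rw [← integral_const_mul]
      refine integral_mono_of_nonneg (Filter.Eventually.of_forall fun p =>
        mul_nonneg (hrm0 p) (ge_nonneg _ _ _)) ((kE_int hφ σ a).const_mul _)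
        (Filter.Eventually.of_forall fun p => ?_)
      exact mul_le_mul_of_nonneg_right (hrm1 p) (ge_nonneg _ _ _)
    exact (mul_le_mul_of_nonneg_right (le_abs_self _) h1).trans
      (mul_le_mul_of_nonneg_left h2 (abs_nonneg _))
  rw [t7]
  have hfin : (|1 - η| * (C3 * n) * kE φ a + C3 * n * mean φ (fun p => |phiE z a p (p.1 a)|) +
        (∑ j, z j) * (C4 * s⁻¹ * (C3 * n)) * mass φ) * r =
      |1 - η| * (C3 * n * r * kE φ a) + C3 * n * r * mean φ (fun p => |phiE z a p (p.1 a)|) +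
        ((∑ j, z j) * (C4 * s⁻¹ * (C3 * n * r))) * mass φ := by ring
  rw [hfin]
  linarith

end H6.CT
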