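import Pool.Agent.H6.CT.RelEp
import Pool.Agent.H6.CT.RelEa
import Pool.Agent.H6.CB.ERelS
import Pool.Agent.H6.CM.BumpEx

/-! Relocation of the electrons with smearing `s`: multiply `relEp` by `chr χ s (w - v) ^ 2` and integrate over `w` (where it does not vanish the closed unit ball around `w` is contained in `Λ`; `mean_fub` for the exchange with the means, as in `Pool/Agent/H6/CB/ERelAS.lean`), bound the terms with `wintS_D` and `wintS_rm` and let `L → ∞` (as in `Pool/Agent/H6/CB/ERelS.lean`). `∫ w, chr χ s (w - v) ^ 2 * rK .. w L φ ≤ C n 2 ^ -L * kE φ a` tends to `0`, also the terms with `rmS ^ 2 * |phiE|` and `rmS ^ 2 * U`. The average of the electron part of the potential is `∑ U (chr χ s) (x b - v)` (`U_trans`, `UU_avg` for the nuclei), and `∑ j, z j * UU χ s (v - p.2 j) - ∑ b ≠ a, U (chr χ s) (p.1 b - v) ≥ ph χ s z p v - C s⁻¹ * ce p v (2 * s)` (the private theorem `ers_sum`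 of `ERelS.lean`). A function `θ` with `Cut θ` exists (`Pool/Agent/H6/CM`). -/

open MeasureTheory Finset

namespace H6.CT

open H6.CM H6.CB H6.CL

private theorem ers_lim (A R K : ℝ) (h : ∀ L : ℕ, A ≤ R + K * ((2 : ℝ) ^ L)⁻¹) : A ≤ R := by
  have h1 : Filter.Tendsto (fun L : ℕ => R + K * ((2 : ℝ) ^ L)⁻¹) Filter.atTop
      (nhds (R + K * 0)) := by
    refine Filter.Tendsto.const_add _ (Filter.Tendsto.const_mul _ ?_)
    have h2 : Filter.Tendsto (fun L : ℕ => ((2 : ℝ)⁻¹) ^ L) Filter.atTop (nhds 0) :=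
      tendsto_pow_atTop_nhds_zero_of_lt_one (by norm_num) (by norm_num)
    refine h2.congr fun L => ?_
    rw [inv_pow]
  rw [mul_zero, add_zero] at h1
  exact ge_of_tendsto' h1 h

private theorem ers_U {χ : E3 → ℝ} (hχ : Bump χ) (s : ℝ) (hs : 0 < s) (v x : E3) (C4 : ℝ)
    (hC4 : 0 ≤ C4) (H4 : ∀ v, 0 ≤ U (chr χ s) v ∧ U (chr χ s) v ≤ C4 * s⁻¹) :
    U (chr χ s) (x - v) ≤ UU χ s (v - x) + C4 * s⁻¹ * (if ‖x - v‖ < 2 * s then 1 else 0) := by
  have hp : 0 ≤ C4 * s⁻¹ := mul_nonneg hC4 (inv_nonneg.2 hs.le)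
  by_cases h1 : s ≤ ‖x - v‖
  · have h2 : s ≤ ‖v - x‖ := by rwa [norm_sub_rev]
    rw [U_out hχ s hs (x - v) (by linarith), UU_eq hχ s hs (v - x) h2, norm_sub_rev v x]
    have h3 : 0 ≤ C4 * s⁻¹ * (if ‖x - v‖ < 2 * s then (1 : ℝ) else 0) := by
      refine mul_nonneg hp ?_
      split_ifs <;> norm_num
    linarith
  · have h2 : ‖x - v‖ < 2 * s := by
      have := not_le.1 h1
      linarith
    rw [if_pos h2, mul_one]
    have h3 := UU_nonneg hχ s hs (v - x)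
    have h4 := (H4 (x - v)).2
    linarith

private theorem ers_sum {χ : E3 → ℝ} (hχ : Bump χ) {n k : ℕ} (z : Fin k → ℝ) (a : Fin n)
    (s : ℝ) (hs : 0 < s) (v : E3) (p : Cfg n k) (C4 : ℝ)
    (hC4 : 0 ≤ C4) (H4 : ∀ v, 0 ≤ U (chr χ s) v ∧ U (chr χ s) v ≤ C4 * s⁻¹) :
    ph χ s z p v - C4 * s⁻¹ * ce p v (2 * s) ≤
      ∑ j, z j * UU χ s (v - p.2 j) - ∑ b ∈ univ.erase a, U (chr χ s) (p.1 b - v) := by
  have hp : 0 ≤ C4 * s⁻¹ := mul_nonneg hC4 (inv_nonneg.2 hs.le)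
  have h1 : ∑ b ∈ univ.erase a, U (chr χ s) (p.1 b - v) ≤
      ∑ b ∈ univ.erase a, (UU χ s (v - p.1 b) +
        C4 * s⁻¹ * (if ‖p.1 b - v‖ < 2 * s then 1 else 0)) :=
    sum_le_sum fun b _ => ers_U hχ s hs v (p.1 b) C4 hC4 H4
  have h2 : ∑ b ∈ univ.erase a, (UU χ s (v - p.1 b) +
        C4 * s⁻¹ * (if ‖p.1 b - v‖ < 2 * s then 1 else 0)) ≤
      ∑ b, (UU χ s (v - p.1 b) + C4 * s⁻¹ * (if ‖p.1 b - v‖ < 2 * s then 1 else 0)) := by
    refine sum_le_sum_of_subset_of_nonneg (erase_subset _ _) fun b _ _ => ?_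
    refine add_nonneg (UU_nonneg hχ s hs _) (mul_nonneg hp ?_)
    split_ifs <;> norm_num
  have h3 : ∑ b, (UU χ s (v - p.1 b) + C4 * s⁻¹ * (if ‖p.1 b - v‖ < 2 * s then 1 else 0)) =
      ∑ b, UU χ s (v - p.1 b) + C4 * s⁻¹ * ce p v (2 * s) := by
    rw [sum_add_distrib]
    unfold ce
    rw [mul_sum]
  unfold ph
  linarith


private theorem trip_int {ι α β : Type} [Fintype ι] [Fintype α] [Fintype β]
    {c : E3 → ℝ} {F : ι → α → β → E3 → ℝ}
    (hF : ∀ i a b, Integrable (fun w => c w * F i a b w)) :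
    Integrable (fun w => c w * ∑ i, ∑ a, ∑ b, F i a b w) ∧
    ∫ w, c w * ∑ i, ∑ a, ∑ b, F i a b w = ∑ i, ∑ a, ∑ b, ∫ w, c w * F i a b w := by
  have e : ∀ w, c w * ∑ i, ∑ a, ∑ b, F i a b w = ∑ i, ∑ a, ∑ b, c w * F i a b w := by
    intro w
    simp only [mul_sum]
  have h1 : ∀ i a, Integrable (fun w => ∑ b, c w * F i a b w) := fun i a =>
    integrable_finsetSum _ fun b _ => hF i a b
  have h2 : ∀ i, Integrable (fun w => ∑ a, ∑ b, c w * F i a b w) := fun i =>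
    integrable_finsetSum _ fun a _ => h1 i a
  simp only [e]
  refine ⟨integrable_finsetSum _ fun i _ => h2 i, ?_⟩
  rw [integral_finsetSum _ fun i _ => h2 i]
  refine sum_congr rfl fun i _ => ?_
  rw [integral_finsetSum _ fun a _ => h1 i a]
  refine sum_congr rfl fun a _ => ?_
  rw [integral_finsetSum _ fun b _ => hF i a b]

private theorem trip_le {ι α β : Type} [Fintype ι] [Fintype α] [Fintype β]
    {F G : ι → α → β → ℝ} (h : ∀ i a b, F i a b ≤ G i a b) :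
    ∑ i, ∑ a, ∑ b, F i a b ≤ ∑ i, ∑ a, ∑ b, G i a b :=
  sum_le_sum fun i _ => sum_le_sum fun a _ => sum_le_sum fun b _ => h i a b

theorem relE (q : ℕ) (T zm zp κm κp A Kv : ℝ) (hT : 0 ≤ T) (hzm : 0 < zm) (hκm : 0 < κm)
    {χ : E3 → ℝ} (hχ : Bump χ) (η : ℝ) (hη : 0 < η) :
    ∃ C : ℝ, 0 ≤ C ∧
    ∀ (ι : Type) (_ : Fintype ι) (n k : ℕ) (Λ : Set E3) (z κ : Fin k → ℝ) (W : Finset E3)
    (δ : ℝ) (Ψ : ι → (Fin n → Fin q) → Cfg n k → ℂ)
    (_ : Gt q T zm zp κm κp A Kv n k Λ z κ W δ Ψ)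
    (β : Type) (_ : Fintype β) (f : β → Cfg n k → ℝ) (M x : β → ℝ) (Cf : ℝ)
    (_ : Am f M x Cf) (J : E3 → ℝ) (_ : ContDiff ℝ (⊤ : ℕ∞) J) (_ : ∀ v, 0 ≤ J v ∧ J v ≤ 1)
    (s r0 : ℝ) (_ : 0 < r0) (_ : r0 ≤ s) (_ : s ≤ 1) (v : E3)
    (_ : Metric.closedBall v 2 ⊆ Λ),
    ∑ i, ∑ a, ∑ b, ((1 - η) * kE (mE (f b) J a (Ψ i)) a -
      mean (mE (f b) J a (Ψ i)) (fun p => phiE z a p (p.1 a)) +
      mean (mE (f b) J a (Ψ i)) (fun p => ph χ s z p v)) ≤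
    C * (∑ i, ∑ a, ∑ b, mean (mE (f b) J a (Ψ i)) (fun p => x b +
        (r0 ^ 2)⁻¹ + (r0 * (s ^ 3)⁻¹ + s⁻¹) * ce p v (2 * s)) +
      Cf * (∫ v in Λ, J v ^ 2) +
      (∑ i, mean (Ψ i) (fun p => ∑ a, ∑ b, Gm κ (fun p => f b p * J (p.1 a)) p)) +
      (n * (∑ b, M b ^ 2) + Cf * ∫ v in Λ, J v ^ 2) * δ) := by
  obtain ⟨θ, hθ⟩ := cut_ex
  obtain ⟨C1, hC1, H1⟩ := relEp q T zm zp κm κp A Kv hT hzm hκm hχ hθ η hη
  obtain ⟨C2, hC2, H2⟩ := wintS_D hχ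
  obtain ⟨C3, hC3, H3⟩ := wintS_rm hθ hχ
  obtain ⟨C4, hC4, H4⟩ := U_bds hχ
  refine ⟨C1 * (1 + C2) + C4, by positivity, ?_⟩
  intro ι _ n k Λ z κ W δ Ψ hG β _ f M x Cf hA J hJs hJ s r0 hr0 hrs hs1 v hv
  have hs : 0 < s := lt_of_lt_of_le hr0 hrs
  have hB : Bump (chr χ s) := chr_bump hχ s hs hs1
  have hz : ∀ j, 0 ≤ z j := fun j => hzm.le.trans (hG.hz j).1
  have hsm : ∀ i a b, Sm q n k Λ (mE (f b) J a (Ψ i)) := fun i a b =>
    mf_sm (St_sm (hG.eq.st i)) ((hA.smooth b).mul (hJs.comp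
      ((contDiff_apply ℝ E3 a).comp contDiff_fst)))
  have hcw : Integrable (fun w => chr χ s (w - v) ^ 2) := nuc_h_int hB v
  have hc1 : ∫ w, chr χ s (w - v) ^ 2 = 1 := by
    rw [integral_sub_right_eq_self (fun w => chr χ s w ^ 2) v]
    exact hB.norm
  have hCf : 0 ≤ Cf := le_trans (sum_nonneg fun b _ => by positivity) hA.sum
  have hJ2 : 0 ≤ ∫ v in Λ, J v ^ 2 := integral_nonneg fun v => sq_nonneg _
  have hGm : 0 ≤ ∑ i, mean (Ψ i) (fun p => ∑ a, ∑ b, Gm κ (fun p => f b p * J (p.1 a)) p) :=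
    sum_nonneg fun i _ => mean_nonneg fun _ p _ => sum_nonneg fun a _ => sum_nonneg fun b _ =>
      Gm_nonneg (fun j => hκm.le.trans (hG.hκ j).1) _ _
  have hX : 0 ≤ Cf * (∫ v in Λ, J v ^ 2) +
      (∑ i, mean (Ψ i) (fun p => ∑ a, ∑ b, Gm κ (fun p => f b p * J (p.1 a)) p)) +
      (n * (∑ b, M b ^ 2) + Cf * ∫ v in Λ, J v ^ 2) * δ := by
    have h1 : 0 ≤ Cf * (∫ v in Λ, J v ^ 2) := mul_nonneg hCf hJ2
    have h2 : 0 ≤ (n : ℝ) * (∑ b, M b ^ 2) :=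
      mul_nonneg (Nat.cast_nonneg n) (sum_nonneg fun b _ => sq_nonneg _)
    have h3 : 0 ≤ (n * (∑ b, M b ^ 2) + Cf * ∫ v in Λ, J v ^ 2) * δ :=
      mul_nonneg (by linarith) hG.hδ
    linarith
  obtain ⟨X, hXd⟩ : ∃ X : ℝ, X = Cf * (∫ v in Λ, J v ^ 2) +
      (∑ i, mean (Ψ i) (fun p => ∑ a, ∑ b, Gm κ (fun p => f b p * J (p.1 a)) p)) +
      (n * (∑ b, M b ^ 2) + Cf * ∫ v in Λ, J v ^ 2) * δ := ⟨_, rfl⟩
  rw [← hXd] at hX
  -- the inequality without the remainder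
  have main : ∑ i, ∑ a, ∑ b, ((1 - η) * kE (mE (f b) J a (Ψ i)) a -
      mean (mE (f b) J a (Ψ i)) (fun p => phiE z a p (p.1 a)) +
      mean (mE (f b) J a (Ψ i)) (fun p => ∑ j, z j * UU χ s (v - p.2 j) -
        ∑ b ∈ univ.erase a, U (chr χ s) (p.1 b - v))) ≤
      C1 * (∑ i, ∑ a, ∑ b, mean (mE (f b) J a (Ψ i))
        (fun p => x b + (r0 ^ 2)⁻¹ + C2 * (r0 * (s ^ 3)⁻¹) * ce p v (2 * s)) + X) := by
    refine ers_lim _ _ (∑ i, ∑ a, ∑ b, (|1 - η| * (C3 * n) * kE (mE (f b) J a (Ψ i)) a +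
      C3 * n * mean (mE (f b) J a (Ψ i)) (fun p => |phiE z a p (p.1 a)|) +
      (∑ j, z j) * (C4 * s⁻¹ * (C3 * n)) * mass (mE (f b) J a (Ψ i)))) ?_
    intro L
    have hL := fun (i : ι) (a : Fin n) (b : β) => relE_avgL (hsm i a b) hχ hθ η s r0 hr0 hrs hs1
      z hz a v L C3 C4 hC3 hC4 (fun x => H3 n a v s r0 hr0 hrs L x) (H4 s hs)
    have hR := fun (i : ι) (a : Fin n) (b : β) => relE_avgR (hsm i a b) hχ s r0 hr0 hrs hs1
      a v L (x b) C2 (fun x => H2 n a v s r0 hr0 hrs L x)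
    obtain ⟨jL, eL⟩ := trip_int (c := fun w => chr χ s (w - v) ^ 2) fun i a b => (hL i a b).1
    obtain ⟨jR, eR⟩ := trip_int (c := fun w => chr χ s (w - v) ^ 2) fun i a b => (hR i a b).1
    have hpt : ∀ w, chr χ s (w - v) ^ 2 * ∑ i, ∑ a, ∑ b,
        ((1 - η) * (kE (mE (f b) J a (Ψ i)) a - rK θ r0 a w L (mE (f b) J a (Ψ i))) -
      mean (mE (f b) J a (Ψ i)) (fun p => (1 - rmS θ r0 a w L p.1 ^ 2) *
        phiE z a p (p.1 a)) +
      mean (mE (f b) J a (Ψ i)) (fun p => (1 - rmS θ r0 a w L p.1 ^ 2) *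
        (∑ j, z j * U (chr χ s) (p.2 j - w)) - ∑ b' ∈ univ.erase a, ‖w - p.1 b'‖⁻¹)) ≤
      C1 * (chr χ s (w - v) ^ 2 * ∑ i, ∑ a, ∑ b, mean (mE (f b) J a (Ψ i))
        (fun p => x b + (r0 ^ 2)⁻¹ * (1 + DlS r0 a w L p.1)) + chr χ s (w - v) ^ 2 * X) := by
      intro w
      by_cases hw : chr χ s (w - v) = 0
      · simp [hw]
      · have hw1 : ‖w - v‖ < 1 / 2 := hB.supp _ hw
        have hsub : Metric.closedBall w 1 ⊆ Λ := by
          refine (Metric.closedBall_subset_closedBall' ?_).trans hv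
          rw [dist_eq_norm]
          linarith
        have h1 := H1 ι _ n k Λ z κ W δ Ψ hG β _ f M x Cf hA J hJs hJ s r0 hr0 hrs hs1 w hsub L
        have h2 := mul_le_mul_of_nonneg_left h1 (sq_nonneg (chr χ s (w - v)))
        refine h2.trans (le_of_eq ?_)
        rw [hXd]
        ring
    have jR2 := (jR.add (hcw.mul_const X)).const_mul C1
    have h1 := integral_mono jL jR2 hpt
    simp only [Pi.add_apply] at h1
    rw [eL, integral_const_mul, integral_add jR (hcw.mul_const X), eR, integral_mul_const, hc1,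
      one_mul] at h1
    have h2 := trip_le fun i a b => (hL i a b).2
    have h3 := trip_le fun i a b => (hR i a b).2
    have h4 := mul_le_mul_of_nonneg_left (add_le_add h3 (le_refl X)) hC1
    refine h2.trans ?_
    have e2 : ∀ (I K : ι → Fin n → β → ℝ) (r : ℝ), ∑ i, ∑ a, ∑ b, (I i a b + K i a b * r) =
        (∑ i, ∑ a, ∑ b, I i a b) + (∑ i, ∑ a, ∑ b, K i a b) * r := by
      intro I K r
      simp only [sum_add_distrib, sum_mul]
    rw [e2]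
    linarith
  -- the potential
  have hUUc : Continuous (UU χ s) := (UU_smooth hχ s hs).continuous
  have hUc : Continuous (U (chr χ s)) := U_cont hχ s hs
  have hce1 : ∀ b : Fin n, Continuous (fun p : Cfg n k => p.1 b) := fun b =>
    (continuous_apply b).comp continuous_fst
  have hcn1 : ∀ j : Fin k, Continuous (fun p : Cfg n k => p.2 j) := fun j =>
    (continuous_apply j).comp continuous_snd
  have hN : Continuous (fun p : Cfg n k => ∑ j, z j * UU χ s (v - p.2 j)) :=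
    continuous_finsetSum _ fun j _ =>
      continuous_const.mul (hUUc.comp (continuous_const.sub (hcn1 j)))
  have hP : Continuous (fun p : Cfg n k => ph χ s z p v) := by
    unfold ph
    exact hN.sub (continuous_finsetSum _ fun b _ => hUUc.comp (continuous_const.sub (hce1 b)))
  have hQ : ∀ a : Fin n, Continuous (fun p : Cfg n k => ∑ j, z j * UU χ s (v - p.2 j) -
      ∑ b ∈ univ.erase a, U (chr χ s) (p.1 b - v)) := fun a =>
    hN.sub (continuous_finsetSum _ fun b _ => hUc.comp ((hce1 b).sub continuous_const))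
  have f4 : ∀ i a b, mean (mE (f b) J a (Ψ i)) (fun p => ph χ s z p v) ≤
      mean (mE (f b) J a (Ψ i)) (fun p => ∑ j, z j * UU χ s (v - p.2 j) -
        ∑ b ∈ univ.erase a, U (chr χ s) (p.1 b - v)) +
      C4 * s⁻¹ * mean (mE (f b) J a (Ψ i)) (fun p => ce p v (2 * s)) := by
    intro i a b
    have hm := hsm i a b
    have hIce := IM_ce hm v (2 * s)
    have h1 : mean (mE (f b) J a (Ψ i)) (fun p => ph χ s z p v) -
        C4 * s⁻¹ * mean (mE (f b) J a (Ψ i)) (fun p => ce p v (2 * s)) ≤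
        mean (mE (f b) J a (Ψ i)) (fun p => ∑ j, z j * UU χ s (v - p.2 j) -
          ∑ b ∈ univ.erase a, U (chr χ s) (p.1 b - v)) := by
      rw [← mean_cmul, ← mean_sub (IM.cont hm hP) (hIce.cmul _)]
      exact mean_mono ((IM.cont hm hP).sub (hIce.cmul _)) (IM.cont hm (hQ a))
        fun _ p _ => ers_sum hχ z a s hs v p C4 hC4 (H4 s hs)
    linarith
  have hmn : ∀ (i : ι) (a : Fin n) (b : β) (c : ℝ), mean (mE (f b) J a (Ψ i))
      (fun p => x b + (r0 ^ 2)⁻¹ + c * ce p v (2 * s)) =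
      (x b + (r0 ^ 2)⁻¹) * mass (mE (f b) J a (Ψ i)) +
      c * mean (mE (f b) J a (Ψ i)) (fun p => ce p v (2 * s)) := by
    intro i a b c
    have hm := hsm i a b
    rw [mean_add (IM.cont hm continuous_const) ((IM_ce hm v (2 * s)).cmul c), mean_cmul,
      mean_const]
  have hstep : ∑ i, ∑ a, ∑ b, ((1 - η) * kE (mE (f b) J a (Ψ i)) a -
      mean (mE (f b) J a (Ψ i)) (fun p => phiE z a p (p.1 a)) +
      mean (mE (f b) J a (Ψ i)) (fun p => ph χ s z p v)) ≤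
      C1 * (∑ i, ∑ a, ∑ b, mean (mE (f b) J a (Ψ i))
        (fun p => x b + (r0 ^ 2)⁻¹ + C2 * (r0 * (s ^ 3)⁻¹) * ce p v (2 * s)) + X) +
      ∑ i, ∑ a, ∑ b, C4 * s⁻¹ * mean (mE (f b) J a (Ψ i)) (fun p => ce p v (2 * s)) := by
    refine le_trans ?_ (add_le_add main le_rfl)
    simp only [← sum_add_distrib]
    refine trip_le fun i a b => ?_
    have := f4 i a b
    linarith
  have hfin : C1 * (∑ i, ∑ a, ∑ b, mean (mE (f b) J a (Ψ i))
        (fun p => x b + (r0 ^ 2)⁻¹ + C2 * (r0 * (s ^ 3)⁻¹) * ce p v (2 * s))) +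
      ∑ i, ∑ a, ∑ b, C4 * s⁻¹ * mean (mE (f b) J a (Ψ i)) (fun p => ce p v (2 * s)) ≤
      (C1 * (1 + C2) + C4) * ∑ i, ∑ a, ∑ b, mean (mE (f b) J a (Ψ i)) (fun p => x b +
        (r0 ^ 2)⁻¹ + (r0 * (s ^ 3)⁻¹ + s⁻¹) * ce p v (2 * s)) := by
    simp only [mul_sum, ← sum_add_distrib]
    refine trip_le fun i a b => ?_
    rw [hmn, hmn]
    have a1 : 0 ≤ (x b + (r0 ^ 2)⁻¹) * mass (mE (f b) J a (Ψ i)) :=
      mul_nonneg (add_nonneg (hA.xn b) (by positivity)) mass_nonneg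
    have a2 : 0 ≤ mean (mE (f b) J a (Ψ i)) (fun p => ce p v (2 * s)) :=
      mean_nonneg fun _ p _ => ce_nonneg p v _
    have a3 : 0 ≤ r0 * (s ^ 3)⁻¹ * mean (mE (f b) J a (Ψ i)) (fun p => ce p v (2 * s)) :=
      mul_nonneg (by positivity) a2
    have a4 : 0 ≤ s⁻¹ * mean (mE (f b) J a (Ψ i)) (fun p => ce p v (2 * s)) :=
      mul_nonneg (by positivity) a2
    have g2 : 0 ≤ (C1 * C2 + C4) * ((x b + (r0 ^ 2)⁻¹) * mass (mE (f b) J a (Ψ i))) :=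
      mul_nonneg (by positivity) a1
    have g3 : 0 ≤ (C1 + C4) * (r0 * (s ^ 3)⁻¹ *
      mean (mE (f b) J a (Ψ i)) (fun p => ce p v (2 * s))) := mul_nonneg (by positivity) a3
    have g4 : 0 ≤ C1 * (1 + C2) * (s⁻¹ *
      mean (mE (f b) J a (Ψ i)) (fun p => ce p v (2 * s))) := mul_nonneg (by positivity) a4
    linarith
  have hC1X : C1 * X ≤ (C1 * (1 + C2) + C4) * X := by
    refine mul_le_mul_of_nonneg_right ?_ hX
    have : 0 ≤ C1 * C2 := mul_nonneg hC1 hC2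
    linarith
  refine hstep.trans ?_
  rw [mul_add]
  have hgoal : (C1 * (1 + C2) + C4) * (∑ i, ∑ a, ∑ b, mean (mE (f b) J a (Ψ i)) (fun p => x b +
        (r0 ^ 2)⁻¹ + (r0 * (s ^ 3)⁻¹ + s⁻¹) * ce p v (2 * s)) +
      Cf * (∫ v in Λ, J v ^ 2) +
      (∑ i, mean (Ψ i) (fun p => ∑ a, ∑ b, Gm κ (fun p => f b p * J (p.1 a)) p)) +
      (n * (∑ b, M b ^ 2) + Cf * ∫ v in Λ, J v ^ 2) * δ) =
      (C1 * (1 + C2) + C4) * (∑ i, ∑ a, ∑ b, mean (mE (f b) J a (Ψ i)) (fun p => x b +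
        (r0 ^ 2)⁻¹ + (r0 * (s ^ 3)⁻¹ + s⁻¹) * ce p v (2 * s))) +
      (C1 * (1 + C2) + C4) * X := by
    rw [hXd]
    ring
  rw [hgoal]
  linarith

end H6.CT
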