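import Pool.Agent.H6.CT.RelEw
import Pool.Agent.H6.CB.SumS
import Pool.Agent.H6.CB.PotS

/-! Sum over the sectors `l` in `relEw`. Let `φ = mE (f b) J a (Ψ i)`, so that `mf (fE .. l) (Ψ i) = mul (slS θ r0 a w l) φ`. By the definition of `Efe` the term with index `l` is `(1 - η) * kE - mean (phiE z a p (p.1 a)) - (r_l ^ 2)⁻¹ * (∫ gr χ) * mass + mean (∫ chr χ r_l (v - w) ^ 2 * phiE z a p v)` of `mul (slS ..) φ` (`mean_mf`, `IM_V`, `IM_phiE`). `slS` does not depend on the position of electron `a`, so `kE (mul (slS ..) φ) a = ∑ σ ∫ slS ^ 2 * ge (φ σ) a`, and the sum over `l` is `kE φ a - rK ..` (`partS_sum`). `potS` for the potential. `part_kinS` for the terms `(r_l ^ 2)⁻¹` and `l + 1 ≤ 4 ^ (l + 1) * (r0 ^ 2)⁻¹`. Gradients: with `F = f b * J_a`, `∑ l, Gm κ (F * slS l) ≤ Gm κ F + F ^ 2 * ∑ b', (∑ l, gx (slS l) b' + gx rmS b')` (`ims` for the partition: `∑ l, slS ^ 2 + rmS ^ 2 = 1`) and `part_gradS`. -/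

open MeasureTheory Finset

namespace H6.CT

open H6.CM H6.CB H6.CL

section

variable {q n k : ℕ} {Λ : Set E3} {φ : (Fin n → Fin q) → Cfg n k → ℂ}

private theorem rp_pot (hψ : Sm q n k Λ φ) (z : Fin k → ℝ) {χ : E3 → ℝ}
    (hχ : Bump χ) (r : ℝ) (hr : 0 < r) (a : Fin n) (w : E3) {s : (Fin n → E3) → ℝ}
    (hs : ContDiff ℝ (⊤ : ℕ∞) s) :
    IM φ (fun p => s p.1 ^ 2 * ∫ v, chr χ r (v - w) ^ 2 * phiE z a p v) := by
  intro σ
  obtain ⟨g, hg⟩ : ∃ g : Cfg n k × E3 → ℝ,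
    g = fun u => chr χ r (u.2 - w) ^ 2 * (s u.1.1 ^ 2 * ‖φ σ u.1‖ ^ 2) := ⟨_, rfl⟩
  have hc : Continuous g := by
    rw [hg]
    have h1 : Continuous (fun v => chr χ r (v - w)) := (rl_h_smooth hχ r hr w).continuous
    exact ((h1.comp continuous_snd).pow 2).mul
      (((hs.continuous.comp (continuous_fst.comp continuous_fst)).pow 2).mul
        ((((hψ.smooth σ).continuous).comp continuous_fst).norm.pow 2))
  have hk : HasCompactSupport g := by
    rw [hg]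
    refine HasCompactSupport.intro ((hψ.cpt σ).isCompact.prod
      (rl_h_cpt hχ r hr w).isCompact) ?_
    intro u hu
    rw [Set.mem_prod, not_and_or] at hu
    rcases hu with hu | hu
    · have h3 : φ σ u.1 = 0 := image_eq_zero_of_notMem_tsupport hu
      rw [h3]
      simp
    · have h4 : chr χ r (u.2 - w) = 0 :=
        image_eq_zero_of_notMem_tsupport (f := fun v => chr χ r (v - w)) hu
      rw [h4]
      simp
  have h5 : Integrable (fun u : Cfg n k × E3 => phiE z a u.1 u.2 * g u) := by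
    have h1 : ∀ u : Cfg n k × E3, phiE z a u.1 u.2 * g u =
        ∑ j, z j * (‖u.2 - u.1.2 j‖⁻¹ * g u) - ∑ b ∈ univ.erase a, ‖u.2 - u.1.1 b‖⁻¹ * g u := by
      intro u
      unfold phiE
      rw [sub_mul, sum_mul, sum_mul]
      simp only [mul_assoc]
    simp only [h1]
    refine Integrable.sub ?_ ?_
    · exact integrable_finsetSum _ fun j _ => (int_pn g hc hk j).const_mul (z j)
    · exact integrable_finsetSum _ fun b _ => int_pe g hc hk b
  refine h5.integral_prod_left.congr (Filter.Eventually.of_forall fun p => ?_)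
  have h2 : ∀ v, phiE z a p v * g (p, v) =
      chr χ r (v - w) ^ 2 * phiE z a p v * (s p.1 ^ 2 * ‖φ σ p‖ ^ 2) := by
    intro v
    rw [hg]
    ring
  simp only [h2]
  rw [integral_mul_const]
  ring

/-- multiplication with the square of a smooth function of the electrons -/
private theorem rp_sq (hψ : Sm q n k Λ φ) {s : (Fin n → E3) → ℝ}
    (hs : ContDiff ℝ (⊤ : ℕ∞) s) {F : Cfg n k → ℝ} (hF : IM φ F) :
    IM φ (fun p => s p.1 ^ 2 * F p) := by
  intro σ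
  have hsc : Continuous (fun p : Cfg n k => s p.1 ^ 2) :=
    (hs.continuous.comp continuous_fst).pow 2
  obtain ⟨M, hM⟩ := (hψ.cpt σ).isCompact.exists_bound_of_continuousOn hsc.continuousOn
  have h1 : Integrable (fun p => M * ‖F p * ‖φ σ p‖ ^ 2‖) := (hF σ).norm.const_mul M
  have h2 : (fun p => s p.1 ^ 2 * F p * ‖φ σ p‖ ^ 2) =
      fun p => s p.1 ^ 2 * (F p * ‖φ σ p‖ ^ 2) := by
    funext p
    ring
  rw [h2]
  refine h1.mono' (hsc.aestronglyMeasurable.mul (hF σ).aestronglyMeasurable) ?_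
  refine Filter.Eventually.of_forall fun p => ?_
  rw [norm_mul]
  by_cases hp : p ∈ tsupport (φ σ)
  · exact mul_le_mul_of_nonneg_right (hM p hp) (norm_nonneg _)
  · have h3 : φ σ p = 0 := image_eq_zero_of_notMem_tsupport hp
    rw [h3]
    simp

private theorem rp_dl (hψ : Sm q n k Λ φ) (a : Fin n) (w : E3) (r0 : ℝ) (L : ℕ)
    {θ : E3 → ℝ} (hθ : Cut θ) : IM φ (fun p => DlS r0 a w L p.1) := by
  obtain ⟨B, hB⟩ : ∃ B : ℝ, B = ∑ b ∈ univ.erase a, ∑ l ∈ range (L + 1), (4 : ℝ) ^ l := ⟨_, rfl⟩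
  have hle : ∀ x : Fin n → E3, DlS r0 a w L x ≤ B := by
    intro x
    rw [hB]
    unfold DlS H6.CM.Dl
    refine sum_le_sum fun b _ => sum_le_sum fun l _ => ?_
    split_ifs
    · rw [mul_one]
    · rw [mul_zero]
      positivity
  refine IM.bdd hψ ?_ B fun p => ?_
  · unfold DlS H6.CM.Dl
    refine Finset.measurable_fun_sum _ fun b _ => Finset.measurable_fun_sum _ fun l _ => ?_
    refine measurable_const.mul (Measurable.ite ?_ measurable_const measurable_const)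
    have h1 : Measurable (fun p : Cfg n k => ‖r0⁻¹ • p.1 b - r0⁻¹ • w‖) :=
      (((meas_e b).const_smul r0⁻¹).sub_const _).norm
    exact measurableSet_le h1 measurable_const
  · rw [abs_of_nonneg (DlS_nonneg hθ r0 a w L p.1)]
    exact hle p.1

/-- the kinetic energy of electron `a` after multiplication -/
private theorem rp_ge (hψ : Sm q n k Λ φ) {s : (Fin n → E3) → ℝ} (a : Fin n)
    (hs : ∀ x v, s (Function.update x a v) = s x) (σ : Fin n → Fin q) (p : Cfg n k) :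
    ge (mul s φ σ) a p = s p.1 ^ 2 * ge (φ σ) a p := by
  have h2 : DifferentiableAt ℝ (fun v : E3 => φ σ (Function.update p.1 a v, p.2)) (p.1 a) := by
    have h3 : DifferentiableAt ℝ (fun v : E3 => ((Function.update p.1 a v, p.2) : Cfg n k))
        (p.1 a) :=
      ((hasFDerivAt_update p.1 (p.1 a)).differentiableAt).prodMk (differentiableAt_const _)
    exact (((hψ.smooth σ).differentiable (by simp)) _).comp (p.1 a) h3
  have h4 := g3_const_mul ((s p.1 : ℝ) : ℂ) _ (p.1 a) h2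
  rw [Complex.norm_real, Real.norm_eq_abs, sq_abs] at h4
  rw [ge, ge, ← h4]
  congr 1
  funext v
  simp only [mul, hs]

private theorem rp_kE (hψ : Sm q n k Λ φ) {θ : E3 → ℝ} (hθ : Cut θ) (r0 : ℝ) (hr : 0 < r0)
    (a : Fin n) (w : E3) (L : ℕ) :
    ∑ l ∈ range (L + 1), kE (mul (slS θ r0 a w l) φ) a = kE φ a - rK θ r0 a w L φ := by
  have hint : ∀ (s : (Fin n → E3) → ℝ) (_ : ContDiff ℝ (⊤ : ℕ∞) s) (σ : Fin n → Fin q),
      Integrable (fun p => s p.1 ^ 2 * ge (φ σ) a p) := by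
    intro s hs σ
    have hc : Continuous (ge (φ σ) a) := ge_cont (φ σ) ((hψ.smooth σ).of_le
      (by exact_mod_cast le_top)) a
    have hk : HasCompactSupport (ge (φ σ) a) := ge_cpt (φ σ) ((hψ.smooth σ).of_le
      (by exact_mod_cast le_top)) (hψ.cpt σ) a
    exact (((hs.continuous.comp continuous_fst).pow 2).mul hc).integrable_of_hasCompactSupport
      hk.mul_left
  have e1 : ∀ l, kE (mul (slS θ r0 a w l) φ) a =
      ∑ σ, ∫ p, slS θ r0 a w l p.1 ^ 2 * ge (φ σ) a p := by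
    intro l
    unfold kE
    refine sum_congr rfl fun σ _ => ?_
    congr 1
    funext p
    exact rp_ge hψ a (fun x v => slS_upd hθ r0 hr a w l x v) σ p
  rw [sum_congr rfl fun l _ => e1 l, sum_comm]
  unfold kE rK
  rw [← sum_sub_distrib]
  refine sum_congr rfl fun σ _ => ?_
  rw [← integral_finsetSum _ fun l _ => hint _ (slS_smooth hθ r0 hr a w l) σ,
    ← integral_sub (kE_int hψ σ a) (hint _ (rmS_smooth hθ r0 hr a w L) σ)]
  congr 1
  funext p
  rw [← sum_mul]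
  have := partS_sum hθ r0 hr a w L p.1
  rw [show ∑ l ∈ range (L + 1), slS θ r0 a w l p.1 ^ 2 = 1 - rmS θ r0 a w L p.1 ^ 2 by linarith]
  ring

private theorem rp_meanmul (s : (Fin n → E3) → ℝ) (F : Cfg n k → ℝ) :
    mean (mul s φ) F = mean φ (fun p => s p.1 ^ 2 * F p) :=
  mean_mf (fun p => s p.1) F

private theorem rp_massmul (s : (Fin n → E3) → ℝ) :
    mass (mul s φ) = mean φ (fun p => s p.1 ^ 2) :=
  mass_mf (fun p => s p.1)

private theorem rp_mulsm (hψ : Sm q n k Λ φ) {s : (Fin n → E3) → ℝ}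
    (hs : ContDiff ℝ (⊤ : ℕ∞) s) : Sm q n k Λ (mul s φ) :=
  mf_sm hψ (f := fun p : Cfg n k => s p.1) (hs.comp contDiff_fst)

private theorem rp_one (hψ : Sm q n k Λ φ) {χ θ : E3 → ℝ} (hχ : Bump χ) (hθ : Cut θ)
    (z κ : Fin k → ℝ) (hz : ∀ j, 0 ≤ z j) (η : ℝ) (s r0 : ℝ) (hr : 0 < r0) (hrs : r0 ≤ s)
    (hs1 : s ≤ 1) (a : Fin n) (w : E3) (L : ℕ) :
    (1 - η) * (kE φ a - rK θ r0 a w L φ) -
      mean φ (fun p => (1 - rmS θ r0 a w L p.1 ^ 2) * phiE z a p (p.1 a)) +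
      mean φ (fun p => (1 - rmS θ r0 a w L p.1 ^ 2) *
        (∑ j, z j * U (chr χ s) (p.2 j - w)) - ∑ b' ∈ univ.erase a, ‖w - p.1 b'‖⁻¹) ≤
    ∑ l ∈ range (L + 1), (energy z κ (mul (slS θ r0 a w l) φ) -
      Efe χ (r0 * ((2 : ℝ) ^ (l + 1))⁻¹) a w z κ (mul (slS θ r0 a w l) φ) -
      η * kE (mul (slS θ r0 a w l) φ) a) +
    16 * (∫ v, gr χ v) * ((r0 ^ 2)⁻¹ * mean φ (fun p => 1 + DlS r0 a w L p.1)) := by
  obtain ⟨G0, hG0⟩ : ∃ G0 : ℝ, G0 = ∫ v, gr χ v := ⟨_, rfl⟩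
  have hG : 0 ≤ G0 := by
    rw [hG0]
    exact integral_nonneg fun v => gr_nonneg _ _
  rw [← hG0]
  have hsl : ∀ l, ContDiff ℝ (⊤ : ℕ∞) (slS θ r0 a w l) := fun l => slS_smooth hθ r0 hr a w l
  have hrm : ContDiff ℝ (⊤ : ℕ∞) (rmS θ r0 a w L) := rmS_smooth hθ r0 hr a w L
  have hone : IM φ (fun _ => (1 : ℝ)) := IM.cont hψ continuous_const
  have hP : IM φ (fun p => phiE z a p (p.1 a)) := IM_phiE hψ z a
  have hD : IM φ (fun p => DlS r0 a w L p.1) := rp_dl hψ a w r0 L hθ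
  have hs2 : ∀ l, IM φ (fun p => slS θ r0 a w l p.1 ^ 2) := fun l =>
    IM.cont hψ (((hsl l).continuous.comp continuous_fst).pow 2)
  have hrpos : ∀ l : ℕ, 0 < r0 * ((2 : ℝ) ^ (l + 1))⁻¹ := fun l => by positivity
  obtain ⟨R, hR⟩ : ∃ R : ℝ, R = (r0 ^ 2)⁻¹ := ⟨_, rfl⟩
  have hR0 : 0 ≤ R := by
    rw [hR]
    positivity
  rw [← hR]
  -- the terms
  have main : ∀ l ∈ range (L + 1), energy z κ (mul (slS θ r0 a w l) φ) -
      Efe χ (r0 * ((2 : ℝ) ^ (l + 1))⁻¹) a w z κ (mul (slS θ r0 a w l) φ) -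
      η * kE (mul (slS θ r0 a w l) φ) a =
      (1 - η) * kE (mul (slS θ r0 a w l) φ) a -
      mean φ (fun p => slS θ r0 a w l p.1 ^ 2 * phiE z a p (p.1 a)) -
      R * ((4 : ℝ) ^ (l + 1) * G0 * mean φ (fun p => slS θ r0 a w l p.1 ^ 2)) +
      mean φ (fun p => slS θ r0 a w l p.1 ^ 2 *
        ∫ v, chr χ (r0 * ((2 : ℝ) ^ (l + 1))⁻¹) (v - w) ^ 2 * phiE z a p v) := by
    intro l _
    have hm := rp_mulsm hψ (hsl l)
    have h2 : ((r0 * ((2 : ℝ) ^ (l + 1))⁻¹) ^ 2)⁻¹ = R * (4 : ℝ) ^ (l + 1) := by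
      rw [hR, mul_pow, mul_inv, inv_pow ((2 : ℝ) ^ (l + 1)), inv_inv, ← pow_mul, mul_comm (l + 1),
        pow_mul]
      norm_num
    unfold energy Efe
    rw [mean_add (IM_V hm z) (IM_phiE hm z a), h2, ← hG0, rp_massmul, rp_meanmul _ (fun p =>
      phiE z a p (p.1 a)), rp_meanmul _ (fun p => ∫ v, chr χ (r0 * ((2 : ℝ) ^ (l + 1))⁻¹)
        (v - w) ^ 2 * phiE z a p v), ← Finset.sum_erase_add univ _ (mem_univ a)]
    ring
  rw [sum_congr rfl main]
  have hsP : ∀ l, IM φ (fun p => slS θ r0 a w l p.1 ^ 2 * phiE z a p (p.1 a)) :=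
    fun l => rp_sq hψ (hsl l) hP
  -- the kinetic energy
  have i1 : ∑ l ∈ range (L + 1), (1 - η) * kE (mul (slS θ r0 a w l) φ) a =
      (1 - η) * (kE φ a - rK θ r0 a w L φ) := by
    rw [← mul_sum, rp_kE hψ hθ r0 hr a w L]
  -- the potential at the old point
  have i2 : ∑ l ∈ range (L + 1), mean φ (fun p => slS θ r0 a w l p.1 ^ 2 *
      phiE z a p (p.1 a)) =
      mean φ (fun p => (1 - rmS θ r0 a w L p.1 ^ 2) * phiE z a p (p.1 a)) := by
    rw [← mean_sum _ fun l _ => hsP l]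
    congr 1
    funext p
    rw [← sum_mul]
    have := partS_sum hθ r0 hr a w L p.1
    rw [show ∑ l ∈ range (L + 1), slS θ r0 a w l p.1 ^ 2 = 1 - rmS θ r0 a w L p.1 ^ 2 by
      linarith]
  -- the bump
  have i5 : ∑ l ∈ range (L + 1), R * ((4 : ℝ) ^ (l + 1) * G0 *
      mean φ (fun p => slS θ r0 a w l p.1 ^ 2)) ≤
      16 * G0 * (R * mean φ (fun p => 1 + DlS r0 a w L p.1)) := by
    rw [← mul_sum]
    have h7 : ∀ l ∈ range (L + 1), (4 : ℝ) ^ (l + 1) * G0 *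
        mean φ (fun p => slS θ r0 a w l p.1 ^ 2) =
        G0 * mean φ (fun p => (4 : ℝ) ^ (l + 1) * slS θ r0 a w l p.1 ^ 2) := by
      intro l _
      rw [mean_cmul]
      ring
    rw [sum_congr rfl h7, ← mul_sum, ← mean_sum _ fun l _ => (hs2 l).cmul _]
    have h8 : mean φ (fun p => ∑ l ∈ range (L + 1), (4 : ℝ) ^ (l + 1) *
        slS θ r0 a w l p.1 ^ 2) ≤ mean φ (fun p => 16 * (1 + DlS r0 a w L p.1)) := by
      refine mean_mono (IM.sum _ fun l _ => (hs2 l).cmul _)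
        ((hone.add hD).cmul 16) fun _ p _ => ?_
      have := part_kinS hθ r0 a w L p.1
      linarith
    rw [mean_cmul] at h8
    have h9 := mul_le_mul_of_nonneg_left h8 (mul_nonneg hR0 hG)
    refine le_trans (le_of_eq ?_) (h9.trans (le_of_eq ?_)) <;> ring
  -- the potential at the new point
  have i6 : mean φ (fun p => (1 - rmS θ r0 a w L p.1 ^ 2) *
        (∑ j, z j * U (chr χ s) (p.2 j - w)) - ∑ b' ∈ univ.erase a, ‖w - p.1 b'‖⁻¹) ≤
      ∑ l ∈ range (L + 1), mean φ (fun p => slS θ r0 a w l p.1 ^ 2 *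
        ∫ v, chr χ (r0 * ((2 : ℝ) ^ (l + 1))⁻¹) (v - w) ^ 2 * phiE z a p v) := by
    rw [← mean_sum _ fun l _ => rp_pot hψ z hχ _ (hrpos l) a w (hsl l)]
    have hU : Continuous (U (chr χ s)) := U_cont hχ s (hr.trans_le hrs)
    have h3 : IM φ (fun p => (1 - rmS θ r0 a w L p.1 ^ 2) *
        (∑ j, z j * U (chr χ s) (p.2 j - w))) := by
      refine IM.cont hψ ?_
      refine (continuous_const.sub ((hrm.continuous.comp continuous_fst).pow 2)).mul ?_
      refine continuous_finsetSum _ fun j _ => continuous_const.mul (hU.comp ?_)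
      exact ((continuous_apply j).comp continuous_snd).sub continuous_const
    refine mean_mono (h3.sub (IM.sum _ fun b _ => IM_we hψ w b))
      (IM.sum _ fun l _ => rp_pot hψ z hχ _ (hrpos l) a w (hsl l)) fun _ p _ => ?_
    exact potS hθ hχ z hz a w s r0 hr hrs L p
  rw [sum_add_distrib, sum_sub_distrib, sum_sub_distrib, i1, i2]
  linarith

/-- the costs -/
private theorem rp_cost (hψ : Sm q n k Λ φ) {θ : E3 → ℝ} (hθ : Cut θ) (x : ℝ) (hx : 0 ≤ x)
    (r0 : ℝ) (hr : 0 < r0) (hr1 : r0 ≤ 1) (a : Fin n) (w : E3) (L : ℕ) :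
    ∑ l ∈ range (L + 1), (x + l + 1) * mass (mul (slS θ r0 a w l) φ) ≤
      16 * mean φ (fun p => x + (r0 ^ 2)⁻¹ * (1 + DlS r0 a w L p.1)) := by
  have hsl : ∀ l, ContDiff ℝ (⊤ : ℕ∞) (slS θ r0 a w l) := fun l => slS_smooth hθ r0 hr a w l
  have hone : IM φ (fun _ => (1 : ℝ)) := IM.cont hψ continuous_const
  have hD : IM φ (fun p => DlS r0 a w L p.1) := rp_dl hψ a w r0 L hθ
  have hs2 : ∀ l, IM φ (fun p => slS θ r0 a w l p.1 ^ 2) := fun l =>
    IM.cont hψ (((hsl l).continuous.comp continuous_fst).pow 2)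
  have hR1 : 1 ≤ (r0 ^ 2)⁻¹ := by
    rw [one_le_inv₀ (by positivity)]
    exact pow_le_one₀ hr.le hr1
  have e1 : ∀ l ∈ range (L + 1), (x + l + 1) * mass (mul (slS θ r0 a w l) φ) =
      mean φ (fun p => (x + l + 1) * slS θ r0 a w l p.1 ^ 2) := by
    intro l _
    rw [rp_massmul, mean_cmul]
  rw [sum_congr rfl e1, ← mean_sum _ fun l _ => (hs2 l).cmul _, ← mean_cmul]
  refine mean_mono (IM.sum _ fun l _ => (hs2 l).cmul _)
    (((IM.cont hψ continuous_const).add ((hone.add hD).cmul _)).cmul 16) fun _ p _ => ?_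
  have h1 := part_kinS hθ r0 a w L p.1
  have h2 := partS_sum hθ r0 hr a w L p.1
  have h3 : ∑ l ∈ range (L + 1), slS θ r0 a w l p.1 ^ 2 ≤ 1 := by
    nlinarith [sq_nonneg (rmS θ r0 a w L p.1)]
  have h4 : ∀ l ∈ range (L + 1), (x + l + 1) * slS θ r0 a w l p.1 ^ 2 ≤
      x * slS θ r0 a w l p.1 ^ 2 + (4 : ℝ) ^ (l + 1) * slS θ r0 a w l p.1 ^ 2 := by
    intro l _
    have h5 : ((l : ℝ) + 1) ≤ (4 : ℝ) ^ (l + 1) := by
      have h6 : l + 1 < 4 ^ (l + 1) := Nat.lt_pow_self (by norm_num)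
      exact_mod_cast h6.le
    nlinarith [mul_le_mul_of_nonneg_right h5 (sq_nonneg (slS θ r0 a w l p.1))]
  have h5 := sum_le_sum h4
  rw [sum_add_distrib, ← mul_sum] at h5
  have h6 := mul_le_mul_of_nonneg_left h3 hx
  have h7 := DlS_nonneg hθ r0 a w L p.1
  have h8 : 1 + DlS r0 a w L p.1 ≤ (r0 ^ 2)⁻¹ * (1 + DlS r0 a w L p.1) := by
    nlinarith
  linarith

end

/-! ### the gradients -/

private theorem rp_g3 (g : E3 → ℝ) (v : E3) (hg : DifferentiableAt ℝ g v) :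
    g3 (fun u => ((g u : ℝ) : ℂ)) v = gr g v := by
  have h := g3_real_mul g 1 v hg
  simpa using h

/-- the localisation formula for a real function -/
private theorem rp_ims {ι : Type} (I : Finset ι) (s : ι → E3 → ℝ) (F : E3 → ℝ) (v : E3)
    (hs : ∀ i ∈ I, DifferentiableAt ℝ (s i) v) (hf : DifferentiableAt ℝ F v)
    (h1 : ∀ u, ∑ i ∈ I, s i u ^ 2 = 1) :
    ∑ i ∈ I, gr (fun u => F u * s i u) v = gr F v + (∑ i ∈ I, gr (s i) v) * F v ^ 2 := by
  have hfc : DifferentiableAt ℝ (fun u => ((F u : ℝ) : ℂ)) v :=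
    Complex.ofRealCLM.differentiableAt.comp v hf
  have h := g3_ims I s (fun u => ((F u : ℝ) : ℂ)) v hs hfc h1
  rw [rp_g3 F v hf, Complex.norm_real, Real.norm_eq_abs, sq_abs] at h
  rw [← h]
  refine sum_congr rfl fun i hi => ?_
  have h2 := rp_g3 (fun u => F u * s i u) v (hf.mul (hs i hi))
  rw [← h2]
  congr 1
  funext u
  push_cast
  ring

section

variable {n k : ℕ}

private theorem rp_diffE (F : Cfg n k → ℝ) (hF : Differentiable ℝ F) (q : Cfg n k) (b : Fin n)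
    (v : E3) : DifferentiableAt ℝ (fun v => F (Function.update q.1 b v, q.2)) v := by
  have h1 : DifferentiableAt ℝ (fun v : E3 => ((Function.update q.1 b v, q.2) : Cfg n k)) v :=
    ((hasFDerivAt_update q.1 v).differentiableAt).prodMk (differentiableAt_const _)
  exact (hF _).comp v h1

private theorem rp_diffN (F : Cfg n k → ℝ) (hF : Differentiable ℝ F) (q : Cfg n k) (b : Fin k)
    (v : E3) : DifferentiableAt ℝ (fun v => F (q.1, Function.update q.2 b v)) v := by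
  have h1 : DifferentiableAt ℝ (fun v : E3 => ((q.1, Function.update q.2 b v) : Cfg n k)) v :=
    (differentiableAt_const _).prodMk ((hasFDerivAt_update q.2 v).differentiableAt)
  exact (hF _).comp v h1

private theorem rp_diffx {s : (Fin n → E3) → ℝ} (hs : ContDiff ℝ (⊤ : ℕ∞) s) (x : Fin n → E3)
    (b : Fin n) (v : E3) : DifferentiableAt ℝ (fun u => s (Function.update x b u)) v := by
  have h1 : DifferentiableAt ℝ (fun v : E3 => Function.update x b v) v :=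
    (hasFDerivAt_update x v).differentiableAt
  exact ((hs.differentiable (by simp)) _).comp v h1

private theorem rp_gm {θ : E3 → ℝ} (hθ : Cut θ) (r0 : ℝ) (hr : 0 < r0) (a : Fin n) (w : E3)
    (L : ℕ) {κ : Fin k → ℝ} (hκ : ∀ j, 0 ≤ κ j) (F : Cfg n k → ℝ) (hF : Differentiable ℝ F)
    (p : Cfg n k) :
    ∑ l ∈ range (L + 1), Gm κ (fun p => F p * slS θ r0 a w l p.1) p ≤
      Gm κ F p + F p ^ 2 * ∑ b, (∑ l ∈ range (L + 1), gx (slS θ r0 a w l) b p.1 +
        gx (rmS θ r0 a w L) b p.1) := by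
  have hE : ∀ b : Fin n, ∑ l ∈ range (L + 1), gr (fun v => F (Function.update p.1 b v, p.2) *
      slS θ r0 a w l (Function.update p.1 b v)) (p.1 b) ≤
      gr (fun v => F (Function.update p.1 b v, p.2)) (p.1 b) +
      F p ^ 2 * (∑ l ∈ range (L + 1), gx (slS θ r0 a w l) b p.1 +
        gx (rmS θ r0 a w L) b p.1) := by
    intro b
    have h1 := rp_ims (Finset.insertNone (range (L + 1)))
      (fun (o : Option ℕ) (u : E3) => o.elim (rmS θ r0 a w L (Function.update p.1 b u))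
        fun l => slS θ r0 a w l (Function.update p.1 b u))
      (fun u => F (Function.update p.1 b u, p.2)) (p.1 b) ?_ ?_ ?_
    · rw [Finset.sum_insertNone, Finset.sum_insertNone] at h1
      simp only [Option.elim_none, Option.elim_some, Function.update_eq_self] at h1
      have h2 : 0 ≤ gr (fun u => F (Function.update p.1 b u, p.2) *
        rmS θ r0 a w L (Function.update p.1 b u)) (p.1 b) := gr_nonneg _ _
      have h3 : ∑ l ∈ range (L + 1), gr (fun u => slS θ r0 a w l (Function.update p.1 b u))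
          (p.1 b) = ∑ l ∈ range (L + 1), gx (slS θ r0 a w l) b p.1 := rfl
      have h4 : gr (fun u => rmS θ r0 a w L (Function.update p.1 b u)) (p.1 b) =
          gx (rmS θ r0 a w L) b p.1 := rfl
      rw [h3, h4] at h1
      nlinarith [h1, h2]
    · intro o _
      rcases o with _ | l
      · exact rp_diffx (rmS_smooth hθ r0 hr a w L) p.1 b _
      · exact rp_diffx (slS_smooth hθ r0 hr a w l) p.1 b _
    · exact rp_diffE F hF p b _
    · intro u
      rw [Finset.sum_insertNone]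
      simp only [Option.elim_none, Option.elim_some]
      rw [add_comm]
      exact partS_sum hθ r0 hr a w L _
  have hN : ∀ j : Fin k, ∑ l ∈ range (L + 1), gr (fun v => F (p.1, Function.update p.2 j v) *
      slS θ r0 a w l p.1) (p.2 j) ≤
      gr (fun v => F (p.1, Function.update p.2 j v)) (p.2 j) := by
    intro j
    have h1 := rp_ims (Finset.insertNone (range (L + 1)))
      (fun (o : Option ℕ) (_ : E3) => o.elim (rmS θ r0 a w L p.1)
        fun l => slS θ r0 a w l p.1)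
      (fun u => F (p.1, Function.update p.2 j u)) (p.2 j) ?_ ?_ ?_
    · rw [Finset.sum_insertNone, Finset.sum_insertNone] at h1
      simp only [Option.elim_none, Option.elim_some] at h1
      have h2 : 0 ≤ gr (fun u => F (p.1, Function.update p.2 j u) *
        rmS θ r0 a w L p.1) (p.2 j) := gr_nonneg _ _
      have h3 : ∀ c : ℝ, gr (fun _ : E3 => c) (p.2 j) = 0 := by
        intro c
        unfold gr
        simp
      simp only [h3, sum_const_zero, add_zero, zero_mul] at h1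
      linarith
    · intro o _
      rcases o with _ | l
      · exact differentiableAt_const _
      · exact differentiableAt_const _
    · exact rp_diffN F hF p j _
    · intro u
      rw [Finset.sum_insertNone]
      simp only [Option.elim_none, Option.elim_some]
      rw [add_comm]
      exact partS_sum hθ r0 hr a w L _
  unfold Gm
  rw [sum_add_distrib, sum_comm, sum_comm (s := range (L + 1)) (t := (univ : Finset (Fin k)))]
  have h1 : ∑ b : Fin n, ∑ l ∈ range (L + 1), gr (fun v => F (Function.update p.1 b v, p.2) *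
      slS θ r0 a w l (Function.update p.1 b v)) (p.1 b) ≤
      ∑ b : Fin n, gr (fun v => F (Function.update p.1 b v, p.2)) (p.1 b) +
      F p ^ 2 * ∑ b, (∑ l ∈ range (L + 1), gx (slS θ r0 a w l) b p.1 +
        gx (rmS θ r0 a w L) b p.1) := by
    rw [mul_sum, ← sum_add_distrib]
    exact sum_le_sum fun b _ => hE b
  have h2 : ∑ j : Fin k, ∑ l ∈ range (L + 1), κ j * gr (fun v =>
      F (p.1, Function.update p.2 j v) * slS θ r0 a w l p.1) (p.2 j) ≤
      ∑ j, κ j * gr (fun v => F (p.1, Function.update p.2 j v)) (p.2 j) := by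
    refine sum_le_sum fun j _ => ?_
    rw [← mul_sum]
    exact mul_le_mul_of_nonneg_left (hN j) (hκ j)
  linarith

end

theorem relEp (q : ℕ) (T zm zp κm κp A Kv : ℝ) (hT : 0 ≤ T) (hzm : 0 < zm) (hκm : 0 < κm)
    {χ θ : E3 → ℝ} (hχ : Bump χ) (hθ : Cut θ) (η : ℝ) (hη : 0 < η) :
    ∃ C : ℝ, 0 ≤ C ∧
    ∀ (ι : Type) (_ : Fintype ι) (n k : ℕ) (Λ : Set E3) (z κ : Fin k → ℝ) (W : Finset E3)
    (δ : ℝ) (Ψ : ι → (Fin n → Fin q) → Cfg n k → ℂ)
    (_ : Gt q T zm zp κm κp A Kv n k Λ z κ W δ Ψ)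
    (β : Type) (_ : Fintype β) (f : β → Cfg n k → ℝ) (M x : β → ℝ) (Cf : ℝ)
    (_ : Am f M x Cf) (J : E3 → ℝ) (_ : ContDiff ℝ (⊤ : ℕ∞) J) (_ : ∀ v, 0 ≤ J v ∧ J v ≤ 1)
    (s r0 : ℝ) (_ : 0 < r0) (_ : r0 ≤ s) (_ : s ≤ 1) (w : E3)
    (_ : Metric.closedBall w 1 ⊆ Λ) (L : ℕ),
    ∑ i, ∑ a, ∑ b, ((1 - η) * (kE (mE (f b) J a (Ψ i)) a - rK θ r0 a w L (mE (f b) J a (Ψ i))) -
      mean (mE (f b) J a (Ψ i)) (fun p => (1 - rmS θ r0 a w L p.1 ^ 2) *
        phiE z a p (p.1 a)) +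
      mean (mE (f b) J a (Ψ i)) (fun p => (1 - rmS θ r0 a w L p.1 ^ 2) *
        (∑ j, z j * U (chr χ s) (p.2 j - w)) - ∑ b' ∈ univ.erase a, ‖w - p.1 b'‖⁻¹)) ≤
    C * (∑ i, ∑ a, ∑ b, mean (mE (f b) J a (Ψ i)) (fun p => x b +
        (r0 ^ 2)⁻¹ * (1 + DlS r0 a w L p.1)) +
      Cf * (∫ v in Λ, J v ^ 2) +
      (∑ i, mean (Ψ i) (fun p => ∑ a, ∑ b, Gm κ (fun p => f b p * J (p.1 a)) p)) +
      (n * (∑ b, M b ^ 2) + Cf * ∫ v in Λ, J v ^ 2) * δ) := by
  obtain ⟨C2, hC2, hrel⟩ := relEw q T zm zp κm κp A Kv hT hzm hκm hχ hθ η hη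
  obtain ⟨C1, hC1, hpg⟩ := part_gradS hθ
  have hG : 0 ≤ ∫ v, gr χ v := integral_nonneg fun v => gr_nonneg _ _
  refine ⟨16 * (∫ v, gr χ v) + C2 * (16 + C1), by positivity, ?_⟩
  intro ι _ n k Λ z κ W δ Ψ hGt β _ f M x Cf hA J hJ hJ1 s r0 hr hrs hs1 w hw L
  have hr1 : r0 ≤ 1 := hrs.trans hs1
  have hCf : 0 ≤ Cf := le_trans (sum_nonneg fun b _ => by positivity) hA.sum
  have hz : ∀ j, 0 ≤ z j := fun j => hzm.le.trans (hGt.hz j).1
  have hκ0 : ∀ j, 0 ≤ κ j := fun j => hκm.le.trans (hGt.hκ j).1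
  have hst : ∀ i, Sm q n k Λ (Ψ i) := fun i => St_sm (hGt.eq.st i)
  have hFs : ∀ (a : Fin n) (b : β), ContDiff ℝ (⊤ : ℕ∞)
      (fun p : Cfg n k => f b p * J (p.1 a)) := fun a b =>
    (hA.smooth b).mul (hJ.comp ((contDiff_apply ℝ E3 a).comp contDiff_fst))
  have hφ : ∀ i a b, Sm q n k Λ (mE (f b) J a (Ψ i)) := fun i a b => mf_sm (hst i) (hFs a b)
  have hmul : ∀ (i : ι) (a : Fin n) (b : β) (l : ℕ), mf (fE θ r0 w (f b) J a l) (Ψ i) =
      mul (slS θ r0 a w l) (mE (f b) J a (Ψ i)) := by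
    intro i a b l
    funext σ p
    simp only [mf, mul, mE, fE]
    push_cast
    ring
  have key := hrel ι _ n k Λ z κ W δ Ψ hGt β _ f M x Cf hA J hJ hJ1 r0 hr hr1 w hw L
  simp only [hmul] at key
  -- the left-hand side
  have hl : ∑ i, ∑ a, ∑ b, ((1 - η) * (kE (mE (f b) J a (Ψ i)) a -
        rK θ r0 a w L (mE (f b) J a (Ψ i))) -
      mean (mE (f b) J a (Ψ i)) (fun p => (1 - rmS θ r0 a w L p.1 ^ 2) *
        phiE z a p (p.1 a)) +
      mean (mE (f b) J a (Ψ i)) (fun p => (1 - rmS θ r0 a w L p.1 ^ 2) *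
        (∑ j, z j * U (chr χ s) (p.2 j - w)) - ∑ b' ∈ univ.erase a, ‖w - p.1 b'‖⁻¹)) ≤
      ∑ i, ∑ a, ∑ b, ∑ l ∈ range (L + 1), (energy z κ (mul (slS θ r0 a w l)
        (mE (f b) J a (Ψ i))) - Efe χ (r0 * ((2 : ℝ) ^ (l + 1))⁻¹) a w z κ
        (mul (slS θ r0 a w l) (mE (f b) J a (Ψ i))) -
        η * kE (mul (slS θ r0 a w l) (mE (f b) J a (Ψ i))) a) +
      16 * (∫ v, gr χ v) * ∑ i, ∑ a, ∑ b, mean (mE (f b) J a (Ψ i)) (fun p => x b +
        (r0 ^ 2)⁻¹ * (1 + DlS r0 a w L p.1)) := by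
    simp only [mul_sum (a := 16 * (∫ v, gr χ v)), ← sum_add_distrib]
    refine sum_le_sum fun i _ => sum_le_sum fun a _ => sum_le_sum fun b _ => ?_
    refine (rp_one (hφ i a b) hχ hθ z κ hz η s r0 hr hrs hs1 a w L).trans ?_
    have h1 : (r0 ^ 2)⁻¹ * mean (mE (f b) J a (Ψ i)) (fun p => 1 + DlS r0 a w L p.1) ≤
        mean (mE (f b) J a (Ψ i)) (fun p => x b + (r0 ^ 2)⁻¹ * (1 + DlS r0 a w L p.1)) := by
      have hone : IM (mE (f b) J a (Ψ i)) (fun _ => (1 : ℝ)) :=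
        IM.cont (hφ i a b) continuous_const
      have hD := rp_dl (hφ i a b) a w r0 L hθ
      rw [← mean_cmul]
      refine mean_mono ((hone.add hD).cmul _)
        ((IM.cont (hφ i a b) continuous_const).add ((hone.add hD).cmul _)) fun _ p _ => ?_
      linarith [hA.xn b]
    have h2 := mul_le_mul_of_nonneg_left h1 (show 0 ≤ 16 * (∫ v, gr χ v) by positivity)
    linarith
  -- the costs
  have hc : ∑ i, ∑ a, ∑ b, ∑ l ∈ range (L + 1), (x b + l + 1) *
      mass (mul (slS θ r0 a w l) (mE (f b) J a (Ψ i))) ≤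
      16 * ∑ i, ∑ a, ∑ b, mean (mE (f b) J a (Ψ i)) (fun p => x b +
        (r0 ^ 2)⁻¹ * (1 + DlS r0 a w L p.1)) := by
    simp only [mul_sum (a := (16 : ℝ))]
    exact sum_le_sum fun i _ => sum_le_sum fun a _ => sum_le_sum fun b _ =>
      rp_cost (hφ i a b) hθ (x b) (hA.xn b) r0 hr hr1 a w L
  -- the gradients
  have hg : ∑ i, mean (Ψ i) (fun p => ∑ a, ∑ b, ∑ l ∈ range (L + 1),
        Gm κ (fE θ r0 w (f b) J a l) p) ≤
      (∑ i, mean (Ψ i) (fun p => ∑ a, ∑ b, Gm κ (fun p => f b p * J (p.1 a)) p)) +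
      C1 * ∑ i, ∑ a, ∑ b, mean (mE (f b) J a (Ψ i)) (fun p => x b +
        (r0 ^ 2)⁻¹ * (1 + DlS r0 a w L p.1)) := by
    rw [mul_sum, ← sum_add_distrib]
    refine sum_le_sum fun i _ => ?_
    have hGc : ∀ (a : Fin n) (b : β), IM (Ψ i) (fun p => Gm κ (fun p => f b p * J (p.1 a)) p) :=
      fun a b => IM.cont (hst i) (Gm_cont κ (hFs a b))
    have hfs : ∀ (a : Fin n) (b : β) (l : ℕ), ContDiff ℝ (⊤ : ℕ∞)
        (fE (k := k) θ r0 w (f b) J a l) := fun a b l =>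
      (hA.smooth b).mul ((hJ.comp ((contDiff_apply ℝ E3 a).comp contDiff_fst)).mul
        ((slS_smooth hθ r0 hr a w l).comp contDiff_fst))
    have hD2 : ∀ (a : Fin n) (b : β), IM (Ψ i) (fun p => (f b p * J (p.1 a)) ^ 2 *
        (C1 * (x b + (r0 ^ 2)⁻¹ * (1 + DlS r0 a w L p.1)))) := by
      intro a b
      have hone : IM (mE (f b) J a (Ψ i)) (fun _ => (1 : ℝ)) :=
        IM.cont (hφ i a b) continuous_const
      have hD := rp_dl (hφ i a b) a w r0 L hθ
      exact IM_mf.1 (((IM.cont (hφ i a b) continuous_const).add ((hone.add hD).cmul _)).cmul C1)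
    have h1 : (fun p => (∑ a, ∑ b, Gm κ (fun p => f b p * J (p.1 a)) p) +
        ∑ a, ∑ b, (f b p * J (p.1 a)) ^ 2 *
        (C1 * (x b + (r0 ^ 2)⁻¹ * (1 + DlS r0 a w L p.1)))) = fun p : Cfg n k =>
        (∑ a, ∑ b, Gm κ (fun p => f b p * J (p.1 a)) p) +
        ∑ a, ∑ b, (f b p * J (p.1 a)) ^ 2 *
        (C1 * (x b + (r0 ^ 2)⁻¹ * (1 + DlS r0 a w L p.1))) := rfl
    have h2 : C1 * ∑ a, ∑ b, mean (mE (f b) J a (Ψ i)) (fun p => x b +
        (r0 ^ 2)⁻¹ * (1 + DlS r0 a w L p.1)) = mean (Ψ i) (fun p => ∑ a, ∑ b,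
        (f b p * J (p.1 a)) ^ 2 * (C1 * (x b + (r0 ^ 2)⁻¹ * (1 + DlS r0 a w L p.1)))) := by
      rw [mean_sum _ fun a _ => IM.sum _ fun b _ => hD2 a b, mul_sum]
      refine sum_congr rfl fun a _ => ?_
      rw [mean_sum _ fun b _ => hD2 a b, mul_sum]
      refine sum_congr rfl fun b _ => ?_
      rw [← mean_cmul, mE, mean_mf]
    rw [h2, ← mean_add (IM.sum _ fun a _ => IM.sum _ fun b _ => hGc a b)
      (IM.sum _ fun a _ => IM.sum _ fun b _ => hD2 a b)]
    refine mean_mono (IM.sum _ fun a _ => IM.sum _ fun b _ => IM.sum _ fun l _ =>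
      IM.cont (hst i) (Gm_cont κ (hfs a b l)))
      ((IM.sum _ fun a _ => IM.sum _ fun b _ => hGc a b).add
      (IM.sum _ fun a _ => IM.sum _ fun b _ => hD2 a b)) fun _ p _ => ?_
    rw [← sum_add_distrib]
    refine sum_le_sum fun a _ => ?_
    rw [← sum_add_distrib]
    refine sum_le_sum fun b _ => ?_
    have h3 := rp_gm hθ r0 hr a w L hκ0 (fun p : Cfg n k => f b p * J (p.1 a))
      ((hFs a b).differentiable (by simp)) p
    have h4 : ∀ l, fE (k := k) θ r0 w (f b) J a l =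
        fun p => f b p * J (p.1 a) * slS θ r0 a w l p.1 := by
      intro l
      funext p
      unfold fE
      ring
    simp only [h4]
    refine h3.trans ?_
    have h5 := hpg n a r0 hr w L p.1
    have h6 := DlS_nonneg hθ r0 a w L p.1
    have h7 : (0 : ℝ) ≤ (r0 ^ 2)⁻¹ := by positivity
    have h8 : C1 * ((r0 ^ 2)⁻¹ * DlS r0 a w L p.1) ≤
        C1 * (x b + (r0 ^ 2)⁻¹ * (1 + DlS r0 a w L p.1)) := by
      refine mul_le_mul_of_nonneg_left ?_ hC1
      have := hA.xn b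
      nlinarith
    have h9 := mul_le_mul_of_nonneg_left (h5.trans h8) (sq_nonneg (f b p * J (p.1 a)))
    linarith
  obtain ⟨S, hS⟩ : ∃ S, S = ∑ i, ∑ a, ∑ b, mean (mE (f b) J a (Ψ i)) (fun p => x b +
        (r0 ^ 2)⁻¹ * (1 + DlS r0 a w L p.1)) := ⟨_, rfl⟩
  obtain ⟨Gs', hGs⟩ : ∃ S, S = ∑ i, mean (Ψ i) (fun p => ∑ a, ∑ b,
    Gm κ (fun p => f b p * J (p.1 a)) p) := ⟨_, rfl⟩
  have hS0 : 0 ≤ S := by
    rw [hS]
    refine sum_nonneg fun i _ => sum_nonneg fun a _ => sum_nonneg fun b _ =>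
      mean_nonneg fun _ p _ => ?_
    have h6 := DlS_nonneg hθ r0 a w L p.1
    have := hA.xn b
    positivity
  have hG0 : 0 ≤ Gs' := by
    rw [hGs]
    exact sum_nonneg fun i _ => mean_nonneg fun _ p _ => sum_nonneg fun a _ =>
      sum_nonneg fun b _ => Gm_nonneg hκ0 _ _
  have hI0 : 0 ≤ Cf * (∫ v in Λ, J v ^ 2) :=
    mul_nonneg hCf (integral_nonneg fun v => sq_nonneg _)
  have hd0 : 0 ≤ (n * (∑ b, M b ^ 2) + Cf * ∫ v in Λ, J v ^ 2) * δ :=
    mul_nonneg (add_nonneg (mul_nonneg (Nat.cast_nonneg n) (sum_nonneg fun b _ => sq_nonneg _))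
      hI0) hGt.hδ
  rw [← hS] at hl hc hg ⊢
  rw [← hGs] at hg ⊢
  obtain ⟨I, hI⟩ : ∃ I, I = Cf * (∫ v in Λ, J v ^ 2) := ⟨_, rfl⟩
  rw [← hI] at hI0 key hd0 ⊢
  obtain ⟨D, hD⟩ : ∃ D, D = (n * (∑ b, M b ^ 2) + I) * δ := ⟨_, rfl⟩
  rw [← hD] at key hd0 ⊢
  have hkey2 := hl.trans (add_le_add (key.trans (mul_le_mul_of_nonneg_left
    (add_le_add (add_le_add (add_le_add hc le_rfl) hg) le_rfl) hC2)) le_rfl)
  refine hkey2.trans ?_
  have e1 : (16 * (∫ v, gr χ v) + C2 * (16 + C1)) * (S + I + Gs' + D) =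
      C2 * (16 * S + I + (Gs' + C1 * S) + D) + 16 * (∫ v, gr χ v) * S +
      (16 * (∫ v, gr χ v) * (I + Gs' + D) + C2 * ((15 + C1) * (I + D) + (15 + C1) * Gs')) := by
    ring
  rw [e1]
  have : 0 ≤ 16 * (∫ v, gr χ v) * (I + Gs' + D) +
      C2 * ((15 + C1) * (I + D) + (15 + C1) * Gs') := by positivity
  linarith

end H6.CT
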