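import Pool.Agent.H6.CT.Rel1
import Pool.Agent.H6.CT.FrmE
import Pool.Agent.H6.CT.EnE
import Pool.Agent.H6.CT.HInt
import Pool.Agent.H6.CB.PartS
import Pool.Agent.H6.CB.PartS

/-! Relocation of the electrons to the point `w`: apply `rel1` with `S = Fin n × β × Fin (L + 1)` and `f s = fE θ r0 w (f b) J a l`. The sum of the squares is `∑ a, J (p.1 a) ^ 2 * ∑ b, f b p ^ 2 * ∑ l, slS ^ 2 ≤ n * ∑ b, M b ^ 2 =: M2` (`partS_sum`), and it is symmetric (`slS θ r0 a w l (x ∘ π) = slS θ r0 (π a) w l x`). `q ≥ 1` if `n ≥ 1` (otherwise `∑ mass = 0`); let `α : Fin q`. For `hK` take `B = Fin q × {b // b ∈ hB N R}` with `R` a bound of the positions in the supports and `N` large, `φ i s (τ, b) = atr χ (r0 * (2 ^ (l + 1))⁻¹) a w (hf b.1 b.2) α τ (mf (f s) (Ψ i))` and the cost `x b + l * log 2 + hx b.1`. `atr_st` (`slS_far`; `mf_sa`), `trf_mass`, `trf_energy`, `trf_cost` (with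 `T * δ' ≤ η`). Frame bound: `frmE` and `hsum2` (integrated over `Λ` against `J ^ 2`): the sum over `τ` and the frame is at most `q * n⁻¹ * M b ^ 2 * 2 * ∫ v in Λ, J v ^ 2`, the sum over `a` gives a factor `n`, the sum over `l` of `2 ^ -l` is at most `2`, and `∑ b, M b ^ 2 * exp (-x b) ≤ Cf`; so `C1 = 4 * q * Cf * ∫ v in Λ, J v ^ 2`. -/

open MeasureTheory Finset

namespace H6.CT

open H6.CM H6.CB H6.CL

private theorem rw_G {n : ℕ} (θ : E3 → ℝ) (a : Fin n) (w : E3) (l : ℕ) (x : Fin n → E3)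
    (π : Equiv.Perm (Fin n)) : G θ a w l (x ∘ π) = G θ (π a) w l x := by
  unfold G
  refine Finset.prod_equiv π (fun b => ?_) (fun b _ => rfl)
  simp

private theorem rw_slS {n : ℕ} (θ : E3 → ℝ) (r0 : ℝ) (a : Fin n) (w : E3) (l : ℕ)
    (x : Fin n → E3) (π : Equiv.Perm (Fin n)) :
    slS θ r0 a w l (x ∘ π) = slS θ r0 (π a) w l x := by
  unfold slS
  have h : (fun b => r0⁻¹ • (x ∘ π) b) = (fun b => r0⁻¹ • x b) ∘ π := rfl
  rw [h]
  cases l with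
  | zero =>
    simp only [sl]
    rw [rw_G]
  | succ l =>
    simp only [sl]
    rw [rw_G, rw_G]

/-- the sum over the index set -/
private theorem rw_sum {n : ℕ} {β : Type} [Fintype β] (L : ℕ) (F : Fin n → β → ℕ → ℝ) :
    ∑ s : Fin n × β × Fin (L + 1), F s.1 s.2.1 s.2.2 =
      ∑ a, ∑ b, ∑ l ∈ range (L + 1), F a b l := by
  rw [Fintype.sum_prod_type]
  refine sum_congr rfl fun a _ => ?_
  rw [Fintype.sum_prod_type]
  refine sum_congr rfl fun b _ => ?_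
  rw [Finset.sum_range]

/-- the sum over the frame -/
private theorem rw_frame {q : ℕ} (H : Finset (ℕ × (Fin 3 → ℤ)))
    (F : Fin q → (ℕ × (Fin 3 → ℤ)) → ℝ) :
    ∑ b : Fin q × {b // b ∈ H}, F b.1 b.2.1 = ∑ τ, ∑ b ∈ H, F τ b := by
  rw [Fintype.sum_prod_type]
  refine sum_congr rfl fun τ _ => ?_
  exact Finset.sum_coe_sort H (fun b => F τ b)

private theorem rw_geo (L : ℕ) : ∑ l ∈ range (L + 1), Real.exp (-(l * Real.log 2)) ≤ 2 := by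
  have h : ∀ l : ℕ, Real.exp (-(l * Real.log 2)) = (1 / 2 : ℝ) ^ l := by
    intro l
    rw [Real.exp_neg, mul_comm, ← Real.rpow_def_of_pos (by norm_num), Real.rpow_natCast,
      ← inv_pow]
    norm_num
  simp_rw [h]
  exact sum_geometric_two_le _

private theorem rw_zero {q n k : ℕ} {χ : E3 → ℝ} (r : ℝ) (a : Fin n) (w : E3) (f : E3 → ℝ)
    (α τ : Fin q) : trf χ r a w f α τ (0 : (Fin n → Fin q) → Cfg n k → ℂ) = 0 := by
  unfold trf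
  funext σ p
  simp

private theorem rw_mf0 {q n k : ℕ} (f : Cfg n k → ℝ) :
    mf f (0 : (Fin n → Fin q) → Cfg n k → ℂ) = 0 := by
  unfold mf
  funext σ p
  simp

section

variable {n k : ℕ} {θ : E3 → ℝ} {r0 : ℝ} {w : E3} {β : Type} [Fintype β]
  {f : β → Cfg n k → ℝ} {M x : β → ℝ} {Cf : ℝ} {J : E3 → ℝ}

private theorem rw_smooth (hθ : Cut θ) (hr0 : 0 < r0) {g : Cfg n k → ℝ}
    (hg : ContDiff ℝ (⊤ : ℕ∞) g) (hJ : ContDiff ℝ (⊤ : ℕ∞) J) (a : Fin n) (l : ℕ) :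
    ContDiff ℝ (⊤ : ℕ∞) (fE θ r0 w g J a l) := by
  have h1 : ContDiff ℝ (⊤ : ℕ∞) (fun p : Cfg n k => p.1 a) :=
    (contDiff_apply ℝ E3 a).comp contDiff_fst
  have h2 : ContDiff ℝ (⊤ : ℕ∞) (fun p : Cfg n k => slS θ r0 a w l p.1) :=
    (slS_smooth hθ r0 hr0 a w l).comp contDiff_fst
  exact hg.mul ((hJ.comp h1).mul h2)

private theorem rw_bd (hθ : Cut θ) (hr0 : 0 < r0) (hA : Am f M x Cf)
    (hJ1 : ∀ v, 0 ≤ J v ∧ J v ≤ 1) (L : ℕ) (p : Cfg n k) :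
    ∑ s : Fin n × β × Fin (L + 1), fE θ r0 w (f s.2.1) J s.1 s.2.2 p ^ 2 ≤
      n * ∑ b, M b ^ 2 := by
  rw [rw_sum L (fun a b l => fE θ r0 w (f b) J a l p ^ 2)]
  calc ∑ a, ∑ b, ∑ l ∈ range (L + 1), fE θ r0 w (f b) J a l p ^ 2 ≤
      ∑ _a : Fin n, ∑ b, M b ^ 2 := by
        refine sum_le_sum fun a _ => sum_le_sum fun b _ => ?_
        have h1 : ∑ l ∈ range (L + 1), slS θ r0 a w l p.1 ^ 2 ≤ 1 := by
          have := partS_sum hθ r0 hr0 a w L p.1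
          nlinarith [sq_nonneg (rmS θ r0 a w L p.1)]
        have h2 : f b p ^ 2 ≤ M b ^ 2 := by
          rw [← sq_abs (f b p)]
          exact pow_le_pow_left₀ (abs_nonneg _) (hA.bd b p) 2
        have h3 : J (p.1 a) ^ 2 ≤ 1 := by nlinarith [(hJ1 (p.1 a)).1, (hJ1 (p.1 a)).2]
        calc ∑ l ∈ range (L + 1), fE θ r0 w (f b) J a l p ^ 2 =
            f b p ^ 2 * J (p.1 a) ^ 2 * ∑ l ∈ range (L + 1), slS θ r0 a w l p.1 ^ 2 := by
              rw [mul_sum]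
              refine sum_congr rfl fun l _ => ?_
              unfold fE
              ring
          _ ≤ M b ^ 2 * 1 * 1 := by
              refine mul_le_mul (mul_le_mul h2 h3 (sq_nonneg _) (sq_nonneg _)) h1
                (sum_nonneg fun l _ => sq_nonneg _) (by positivity)
          _ = M b ^ 2 := by ring
    _ = _ := by rw [sum_const, card_univ, Fintype.card_fin, nsmul_eq_mul]

private theorem rw_sy (hA : Am f M x Cf) (L : ℕ) :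
    Sy (fun p : Cfg n k => ∑ s : Fin n × β × Fin (L + 1),
      fE θ r0 w (f s.2.1) J s.1 s.2.2 p ^ 2) := by
  intro π p
  show ∑ s : Fin n × β × Fin (L + 1), fE θ r0 w (f s.2.1) J s.1 s.2.2 (p.1 ∘ π, p.2) ^ 2 =
    ∑ s : Fin n × β × Fin (L + 1), fE θ r0 w (f s.2.1) J s.1 s.2.2 p ^ 2
  rw [Fintype.sum_prod_type, Fintype.sum_prod_type]
  refine Eq.trans ?_ (Equiv.sum_comp π (fun a => ∑ s : β × Fin (L + 1),
    fE θ r0 w (f s.1) J a s.2 p ^ 2))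
  refine sum_congr rfl fun a _ => sum_congr rfl fun s _ => ?_
  show fE θ r0 w (f s.1) J a s.2 (p.1 ∘ π, p.2) ^ 2 = fE θ r0 w (f s.1) J (π a) s.2 p ^ 2
  unfold fE
  rw [hA.sy s.1 π p]
  show (f s.1 p * (J (p.1 (π a)) * slS θ r0 a w s.2 (p.1 ∘ π))) ^ 2 = _
  rw [rw_slS]

private theorem rw_sa {q : ℕ} {Λ : Set E3} (hθ : Cut θ) (hr0 : 0 < r0) {g : Cfg n k → ℝ}
    (hg : ContDiff ℝ (⊤ : ℕ∞) g) (hgs : Sy g) (hJ : ContDiff ℝ (⊤ : ℕ∞) J) (a : Fin n) (l : ℕ)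
    {ψ : (Fin n → Fin q) → Cfg n k → ℂ} (hψ : St q n k Λ ψ) :
    Sa q n k Λ a (mf (fE θ r0 w g J a l) ψ) := by
  refine mf_sa (St_sa hψ a) (rw_smooth hθ hr0 hg hJ a l) fun π hπ p => ?_
  unfold fE
  rw [hgs π p]
  show g p * (J (p.1 (π a)) * slS θ r0 a w l (p.1 ∘ π)) = _
  rw [rw_slS, hπ]

end

/-- the frame bound -/
private theorem rw_frm {q : ℕ} {χ θ : E3 → ℝ} (hχ : Bump χ) (hθ : Cut θ) {ι : Type} [Fintype ι]
    {n k : ℕ} {Λ : Set E3} (hm : MeasurableSet Λ) (hb : Bornology.IsBounded Λ)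
    {Ψ : ι → (Fin n → Fin q) → Cfg n k → ℂ} (hst : ∀ i, St q n k Λ (Ψ i)) (hort : Ort Ψ)
    {β : Type} [Fintype β] {f : β → Cfg n k → ℝ} {M x : β → ℝ} {Cf : ℝ} (hA : Am f M x Cf)
    {J : E3 → ℝ} (hJ : ContDiff ℝ (⊤ : ℕ∞) J) (hJ1 : ∀ v, 0 ≤ J v ∧ J v ≤ 1) {r0 : ℝ}
    (hr0 : 0 < r0) (hr1 : r0 ≤ 1) {w : E3} (hw : Metric.closedBall w 1 ⊆ Λ) (L N : ℕ) (R : ℝ)
    (α : Fin q) (h : (Fin n → Fin q) → Cfg n k → ℂ) (hh : St q n k Λ h) :
    ∑ i, ∑ s : Fin n × β × Fin (L + 1), ∑ b : Fin q × {b // b ∈ hB N R},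
      Real.exp (-(x s.2.1 + (s.2.2 : ℕ) * Real.log 2 + hx b.2.1.1)) *
      (‖ip (atr χ (r0 * ((2 : ℝ) ^ ((s.2.2 : ℕ) + 1))⁻¹) s.1 w (hf b.2.1.1 b.2.1.2) α b.1
        (mf (fE θ r0 w (f s.2.1) J s.1 s.2.2) (Ψ i))) h‖ ^ 2 / mass (Ψ i)) ≤
      4 * q * (Cf * ∫ v in Λ, J v ^ 2) * mass h := by
  set I := ∫ v in Λ, J v ^ 2 with hI
  have hI0 : 0 ≤ I := integral_nonneg fun v => sq_nonneg _
  have hmh : 0 ≤ mass h := mass_nonneg
  -- one index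
  have h1 : ∀ (a : Fin n) (b : β) (l : ℕ) (τ : Fin q) (c : ℕ × (Fin 3 → ℤ)),
      ∑ i, ‖ip (atr χ (r0 * ((2 : ℝ) ^ (l + 1))⁻¹) a w (hf c.1 c.2) α τ
        (mf (fE θ r0 w (f b) J a l) (Ψ i))) h‖ ^ 2 / mass (Ψ i) ≤
      (n : ℝ)⁻¹ * (M b ^ 2 * ∫ v in Λ, (hf c.1 c.2 v * J v) ^ 2) * mass h := by
    intro a b l τ c
    have hp : (1 : ℝ) ≤ 2 ^ (l + 1) := one_le_pow₀ (by norm_num)
    have hp1 : ((2 : ℝ) ^ (l + 1))⁻¹ ≤ 1 := inv_le_one_of_one_le₀ hp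
    have hp0 : 0 < ((2 : ℝ) ^ (l + 1))⁻¹ := by positivity
    refine frmE hm hb hst hort a (f b) (hA.smooth b) (hA.sy b) (M b) (hA.bd b) J hJ hJ1
      (slS θ r0 a w l) (slS_smooth hθ r0 hr0 a w l) (slS_upd hθ r0 hr0 a w l) (fun y => ?_)
      (hf c.1 c.2) (hf_meas c.1 c.2) (Real.sqrt (8 ^ c.1)) (hf_bd c.1 c.2) hχ
      (r0 * ((2 : ℝ) ^ (l + 1))⁻¹) (by positivity) (by nlinarith) w hw α τ h hh
    have h2 := partS_sum hθ r0 hr0 a w l y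
    have h3 : slS θ r0 a w l y ^ 2 ≤ ∑ l' ∈ range (l + 1), slS θ r0 a w l' y ^ 2 :=
      single_le_sum (f := fun l' => slS θ r0 a w l' y ^ 2) (fun _ _ => sq_nonneg _)
        (mem_range.2 (Nat.lt_succ_self l))
    rw [← sq_le_one_iff_abs_le_one]
    nlinarith [sq_nonneg (rmS θ r0 a w l y)]
  rw [sum_comm]
  -- sum over the frame for one `s`
  have h2 : ∀ s : Fin n × β × Fin (L + 1), ∑ i, ∑ b : Fin q × {b // b ∈ hB N R},
      Real.exp (-(x s.2.1 + (s.2.2 : ℕ) * Real.log 2 + hx b.2.1.1)) *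
      (‖ip (atr χ (r0 * ((2 : ℝ) ^ ((s.2.2 : ℕ) + 1))⁻¹) s.1 w (hf b.2.1.1 b.2.1.2) α b.1
        (mf (fE θ r0 w (f s.2.1) J s.1 s.2.2) (Ψ i))) h‖ ^ 2 / mass (Ψ i)) ≤
      (n : ℝ)⁻¹ * (M s.2.1 ^ 2 * Real.exp (-x s.2.1)) *
        Real.exp (-((s.2.2 : ℕ) * Real.log 2)) * (q * (2 * I)) * mass h := by
    rintro ⟨a, b, l⟩
    simp only
    rw [sum_comm]
    have h3 : ∀ c : Fin q × {c // c ∈ hB N R}, ∑ i,
        Real.exp (-(x b + (l : ℕ) * Real.log 2 + hx c.2.1.1)) *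
        (‖ip (atr χ (r0 * ((2 : ℝ) ^ ((l : ℕ) + 1))⁻¹) a w (hf c.2.1.1 c.2.1.2) α c.1
        (mf (fE θ r0 w (f b) J a l) (Ψ i))) h‖ ^ 2 / mass (Ψ i)) ≤
        (n : ℝ)⁻¹ * (M b ^ 2 * Real.exp (-x b)) * Real.exp (-((l : ℕ) * Real.log 2)) *
          mass h * (Real.exp (-hx c.2.1.1) * ∫ v in Λ, (hf c.2.1.1 c.2.1.2 v * J v) ^ 2) := by
      intro c
      rw [← mul_sum]
      refine (mul_le_mul_of_nonneg_left (h1 a b l c.1 c.2.1) (Real.exp_pos _).le).trans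
        (le_of_eq ?_)
      rw [neg_add, neg_add, Real.exp_add, Real.exp_add]
      ring
    refine (sum_le_sum fun c _ => h3 c).trans ?_
    rw [← mul_sum, rw_frame (hB N R) (fun _ c => Real.exp (-hx c.1) *
      ∫ v in Λ, (hf c.1 c.2 v * J v) ^ 2), sum_const, card_univ, Fintype.card_fin, nsmul_eq_mul]
    have h4 := hsum_int hm hb J hJ hJ1 N R
    have h5 : (q : ℝ) * ∑ c ∈ hB N R, Real.exp (-hx c.1) *
        ∫ v in Λ, (hf c.1 c.2 v * J v) ^ 2 ≤ q * (2 * I) :=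
      mul_le_mul_of_nonneg_left h4 (Nat.cast_nonneg q)
    refine (mul_le_mul_of_nonneg_left h5 (by positivity)).trans (le_of_eq ?_)
    ring
  refine (sum_le_sum fun s _ => h2 s).trans ?_
  rw [rw_sum L (fun _ b l => (n : ℝ)⁻¹ * (M b ^ 2 * Real.exp (-x b)) *
        Real.exp (-((l : ℕ) * Real.log 2)) * (q * (2 * I)) * mass h)]
  have h6 : ∀ (b : β), ∑ l ∈ range (L + 1), (n : ℝ)⁻¹ * (M b ^ 2 * Real.exp (-x b)) *
        Real.exp (-((l : ℕ) * Real.log 2)) * (q * (2 * I)) * mass h ≤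
      (n : ℝ)⁻¹ * (M b ^ 2 * Real.exp (-x b)) * 2 * (q * (2 * I)) * mass h := by
    intro b
    rw [← sum_mul, ← sum_mul, ← mul_sum]
    have := rw_geo L
    gcongr
  have h7 : ∑ b, (n : ℝ)⁻¹ * (M b ^ 2 * Real.exp (-x b)) * 2 * (q * (2 * I)) * mass h ≤
      (n : ℝ)⁻¹ * Cf * 2 * (q * (2 * I)) * mass h := by
    rw [← sum_mul, ← sum_mul, ← sum_mul, ← mul_sum]
    have := hA.sum
    gcongr
  refine (sum_le_sum fun a _ => (sum_le_sum fun b _ => h6 b).trans h7).trans ?_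
  rw [sum_const, card_univ, Fintype.card_fin, nsmul_eq_mul]
  have hCf : 0 ≤ Cf := le_trans (sum_nonneg fun b _ => by positivity) hA.sum
  have h8 : (n : ℝ) * (n : ℝ)⁻¹ ≤ 1 := by
    rcases Nat.eq_zero_or_pos n with h0 | h0
    · rw [h0]
      simp
    · rw [mul_inv_cancel₀ (by positivity)]
  calc (n : ℝ) * ((n : ℝ)⁻¹ * Cf * 2 * (q * (2 * I)) * mass h) =
      ((n : ℝ) * (n : ℝ)⁻¹) * (4 * q * (Cf * I) * mass h) := by ring
    _ ≤ 1 * (4 * q * (Cf * I) * mass h) := mul_le_mul_of_nonneg_right h8 (by positivity)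
    _ = _ := one_mul _

theorem relEw (q : ℕ) (T zm zp κm κp A Kv : ℝ) (hT : 0 ≤ T) (hzm : 0 < zm) (hκm : 0 < κm)
    {χ θ : E3 → ℝ} (hχ : Bump χ) (hθ : Cut θ) (η : ℝ) (hη : 0 < η) :
    ∃ C : ℝ, 0 ≤ C ∧
    ∀ (ι : Type) (_ : Fintype ι) (n k : ℕ) (Λ : Set E3) (z κ : Fin k → ℝ) (W : Finset E3)
    (δ : ℝ) (Ψ : ι → (Fin n → Fin q) → Cfg n k → ℂ)
    (_ : Gt q T zm zp κm κp A Kv n k Λ z κ W δ Ψ)
    (β : Type) (_ : Fintype β) (f : β → Cfg n k → ℝ) (M x : β → ℝ) (Cf : ℝ)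
    (_ : Am f M x Cf) (J : E3 → ℝ) (_ : ContDiff ℝ (⊤ : ℕ∞) J) (_ : ∀ v, 0 ≤ J v ∧ J v ≤ 1)
    (r0 : ℝ) (_ : 0 < r0) (_ : r0 ≤ 1) (w : E3) (_ : Metric.closedBall w 1 ⊆ Λ) (L : ℕ),
    ∑ i, ∑ a, ∑ b, ∑ l ∈ range (L + 1), (energy z κ (mf (fE θ r0 w (f b) J a l) (Ψ i)) -
      Efe χ (r0 * ((2 : ℝ) ^ (l + 1))⁻¹) a w z κ (mf (fE θ r0 w (f b) J a l) (Ψ i)) -
      η * kE (mf (fE θ r0 w (f b) J a l) (Ψ i)) a) ≤
    C * (∑ i, ∑ a, ∑ b, ∑ l ∈ range (L + 1),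
        (x b + l + 1) * mass (mf (fE θ r0 w (f b) J a l) (Ψ i)) +
      Cf * (∫ v in Λ, J v ^ 2) +
      (∑ i, mean (Ψ i) (fun p => ∑ a, ∑ b, ∑ l ∈ range (L + 1),
        Gm κ (fE θ r0 w (f b) J a l) p)) +
      (n * (∑ b, M b ^ 2) + Cf * ∫ v in Λ, J v ^ 2) * δ) := by
  obtain ⟨C2, hC2, hcost⟩ := trf_cost (η / (T + 1)) (by positivity)
  refine ⟨T * (1 + C2) + 8 * T * q + 2 + 8 * q, by positivity, ?_⟩
  intro ι _ n k Λ z κ W δ Ψ hG β _ f M x Cf hA J hJ hJ1 r0 hr0 hr1 w hw L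
  set I := ∫ v in Λ, J v ^ 2 with hI
  have hI0 : 0 ≤ I := integral_nonneg fun v => sq_nonneg _
  have hCf : 0 ≤ Cf := le_trans (sum_nonneg fun b _ => by positivity) hA.sum
  have hst := hG.eq.st
  have hδ := hG.hδ
  have hκ0 : ∀ j, 0 ≤ κ j := fun j => hκm.le.trans (hG.hκ j).1
  -- the case without electrons
  rcases Nat.eq_zero_or_pos n with hn | hn
  · subst hn
    simp only [univ_eq_empty, sum_empty, sum_const_zero, zero_add, Nat.cast_zero, zero_mul]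
    have hmz : ∑ i, mean (Ψ i) (fun _ => (0 : ℝ)) = 0 :=
      sum_eq_zero fun i _ => by simp [mean]
    rw [hmz]
    have : 0 ≤ Cf * I := mul_nonneg hCf hI0
    have : 0 ≤ Cf * I * δ := by positivity
    have : 0 ≤ T * (1 + C2) + 8 * T * q + 2 + 8 * q := by positivity
    exact mul_nonneg this (by linarith)
  have hq : 0 < q := by
    rcases Nat.eq_zero_or_pos q with h0 | h0
    · exfalso
      subst h0
      have h1 := hG.eq.one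
      have : IsEmpty (Fin n → Fin 0) := ⟨fun s => (s ⟨0, hn⟩).elim0⟩
      rw [sum_eq_zero fun i _ => by unfold mass; simp] at h1
      exact zero_ne_one h1
    · exact h0
  let α : Fin q := ⟨0, hq⟩
  -- bound of the positions
  obtain ⟨R, hR⟩ : ∃ R : ℝ, ∀ v ∈ Λ, ‖v‖ ≤ R := hG.hb.exists_norm_le
  -- abbreviations
  let fs : Fin n × β × Fin (L + 1) → Cfg n k → ℝ := fun s => fE θ r0 w (f s.2.1) J s.1 s.2.2
  let rs : Fin n × β × Fin (L + 1) → ℝ := fun s => r0 * ((2 : ℝ) ^ ((s.2.2 : ℕ) + 1))⁻¹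
  have hrs0 : ∀ s, 0 < rs s := fun s => by positivity
  have hrs1 : ∀ s, rs s ≤ 1 := by
    intro s
    have hp : (1 : ℝ) ≤ 2 ^ ((s.2.2 : ℕ) + 1) := one_le_pow₀ (by norm_num)
    have hp1 : ((2 : ℝ) ^ ((s.2.2 : ℕ) + 1))⁻¹ ≤ 1 := inv_le_one_of_one_le₀ hp
    have hp0 : 0 < ((2 : ℝ) ^ ((s.2.2 : ℕ) + 1))⁻¹ := by positivity
    show r0 * ((2 : ℝ) ^ ((s.2.2 : ℕ) + 1))⁻¹ ≤ 1
    nlinarith
  have hfs : ∀ s, ContDiff ℝ (⊤ : ℕ∞) (fs s) := fun s =>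
    rw_smooth hθ hr0 (hA.smooth _) hJ _ _
  have hsa : ∀ i s, Sa q n k Λ s.1 (mf (fs s) (Ψ i)) := fun i s =>
    rw_sa hθ hr0 (hA.smooth _) (hA.sy _) hJ _ _ (hst i)
  have hfar : ∀ i s σ p, mf (fs s) (Ψ i) σ p ≠ 0 → ∀ b, b ≠ s.1 → rs s ≤ ‖p.1 b - w‖ := by
    intro i s σ p hp b hb
    have h1 := (mf_ne hp).1
    have h2 : slS θ r0 s.1 w s.2.2 p.1 ≠ 0 := by
      intro h0
      apply h1
      show f s.2.1 p * (J (p.1 s.1) * slS θ r0 s.1 w s.2.2 p.1) = 0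
      rw [h0]
      ring
    exact slS_far hθ r0 hr0 s.1 w s.2.2 p.1 h2 b hb
  have hpos : ∀ i s σ p, mf (fs s) (Ψ i) σ p ≠ 0 → ‖p.1 s.1‖ ≤ R := by
    intro i s σ p hp
    exact hR _ (((hst i).supp σ p (subset_tsupport _ (mf_ne hp).2)).1 s.1)
  have hat := fun (i : ι) (s : Fin n × β × Fin (L + 1)) (b : ℕ × (Fin 3 → ℤ)) (τ : Fin q) =>
    atr_st s.1 (hsa i s) hχ (rs s) (hrs0 s) (hrs1 s) w hw (hf b.1 b.2)
      (hf_meas b.1 b.2) (Real.sqrt (8 ^ b.1)) (hf_bd b.1 b.2) α τ (hfar i s) z κ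
  set C1 : ℝ := 4 * q * (Cf * I) with hC1
  have hC10 : 0 ≤ C1 := by positivity
  have hmain := rel1 hT hδ hκ0 hG.eq fs hfs (rw_sy hA L) (n * ∑ b, M b ^ 2)
    (mul_nonneg (Nat.cast_nonneg n) (sum_nonneg fun b _ => sq_nonneg _))
    (rw_bd hθ hr0 hA hJ1 L) C1 hC10
    (∑ i, ∑ s, Efe χ (rs s) s.1 w z κ (mf (fs s) (Ψ i)))
    (∑ i, ∑ s : Fin n × β × Fin (L + 1), ((x s.2.1 + (s.2.2 : ℕ) * Real.log 2) *
      mass (mf (fs s) (Ψ i)) + (η / (T + 1) * kE (mf (fs s) (Ψ i)) s.1 +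
        C2 * mass (mf (fs s) (Ψ i))))) (by
    intro η' hη'
    -- the limits
    have hlm : ∀ i s, Filter.Tendsto (fun N : ℕ => ∑ τ, ∑ b ∈ hB N R,
        mass (trf χ (rs s) s.1 w (hf b.1 b.2) α τ (mf (fs s) (Ψ i)))) Filter.atTop
        (nhds (mass (mf (fs s) (Ψ i)))) := fun i s =>
      trf_mass hχ (rs s) (hrs0 s) s.1 w α (Sa_sm (hsa i s)) R (hpos i s)
    have hle : ∀ i s, Filter.Tendsto (fun N : ℕ => ∑ τ, ∑ b ∈ hB N R,
        energy z κ (trf χ (rs s) s.1 w (hf b.1 b.2) α τ (mf (fs s) (Ψ i)))) Filter.atTop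
        (nhds (Efe χ (rs s) s.1 w z κ (mf (fs s) (Ψ i)))) := fun i s =>
      trf_energy hχ (rs s) (hrs0 s) s.1 w α (Sa_sm (hsa i s)) R (hpos i s) z κ
    have hlE : Filter.Tendsto (fun N : ℕ => ∑ i, ∑ s, ∑ τ, ∑ b ∈ hB N R,
        energy z κ (trf χ (rs s) s.1 w (hf b.1 b.2) α τ (mf (fs s) (Ψ i)))) Filter.atTop
        (nhds (∑ i, ∑ s, Efe χ (rs s) s.1 w z κ (mf (fs s) (Ψ i)))) :=
      tendsto_finsetSum _ fun i _ => tendsto_finsetSum _ fun s _ => hle i s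
    have hlX : Filter.Tendsto (fun N : ℕ => ∑ i, ∑ s : Fin n × β × Fin (L + 1),
        ((x s.2.1 + (s.2.2 : ℕ) * Real.log 2) *
        (∑ τ, ∑ b ∈ hB N R, mass (trf χ (rs s) s.1 w (hf b.1 b.2) α τ (mf (fs s) (Ψ i)))) +
        (η / (T + 1) * kE (mf (fs s) (Ψ i)) s.1 + C2 * mass (mf (fs s) (Ψ i))))) Filter.atTop
        (nhds (∑ i, ∑ s : Fin n × β × Fin (L + 1), ((x s.2.1 + (s.2.2 : ℕ) * Real.log 2) *
        mass (mf (fs s) (Ψ i)) + (η / (T + 1) * kE (mf (fs s) (Ψ i)) s.1 +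
        C2 * mass (mf (fs s) (Ψ i)))))) :=
      tendsto_finsetSum _ fun i _ => tendsto_finsetSum _ fun s _ =>
        ((hlm i s).const_mul _).add_const _
    have e1 : ∀ᶠ N : ℕ in Filter.atTop, ∀ i s, |(∑ τ, ∑ b ∈ hB N R,
        mass (trf χ (rs s) s.1 w (hf b.1 b.2) α τ (mf (fs s) (Ψ i)))) -
        mass (mf (fs s) (Ψ i))| ≤ η' := by
      rw [Filter.eventually_all]
      intro i
      rw [Filter.eventually_all]
      intro s
      filter_upwards [Metric.tendsto_nhds.1 (hlm i s) η' hη'] with N hN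
      rw [Real.dist_eq] at hN
      exact hN.le
    have e2 : ∀ᶠ N : ℕ in Filter.atTop, ∑ i, ∑ s, ∑ τ, ∑ b ∈ hB N R,
        energy z κ (trf χ (rs s) s.1 w (hf b.1 b.2) α τ (mf (fs s) (Ψ i))) ≤
        ∑ i, ∑ s, Efe χ (rs s) s.1 w z κ (mf (fs s) (Ψ i)) + η' :=
      hlE.eventually_le_const (by linarith)
    have e3 : ∀ᶠ N : ℕ in Filter.atTop, ∑ i, ∑ s : Fin n × β × Fin (L + 1),
        ((x s.2.1 + (s.2.2 : ℕ) * Real.log 2) *
        (∑ τ, ∑ b ∈ hB N R, mass (trf χ (rs s) s.1 w (hf b.1 b.2) α τ (mf (fs s) (Ψ i)))) +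
        (η / (T + 1) * kE (mf (fs s) (Ψ i)) s.1 + C2 * mass (mf (fs s) (Ψ i)))) ≤
        ∑ i, ∑ s : Fin n × β × Fin (L + 1), ((x s.2.1 + (s.2.2 : ℕ) * Real.log 2) *
        mass (mf (fs s) (Ψ i)) + (η / (T + 1) * kE (mf (fs s) (Ψ i)) s.1 +
        C2 * mass (mf (fs s) (Ψ i)))) + η' :=
      hlX.eventually_le_const (by linarith)
    obtain ⟨N, hN1, hN2, hN3⟩ := (e1.and (e2.and e3)).exists
    refine ⟨Fin q × {b // b ∈ hB N R}, inferInstance,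
      fun i s b => atr χ (rs s) s.1 w (hf b.2.1.1 b.2.1.2) α b.1 (mf (fs s) (Ψ i)),
      fun s b => x s.2.1 + (s.2.2 : ℕ) * Real.log 2 + hx b.2.1.1,
      fun i s b => (hat i s b.2.1 b.1).1, ?_, ?_, ?_, ?_, ?_⟩
    · intro h hh
      exact rw_frm hχ hθ hG.hm hG.hb hst hG.eq.ort hA hJ hJ1 hr0 hr1 hw L N R α h hh
    · intro i s b h0
      rw [(hat i s b.2.1 b.1).2.1, mass_zero (St_sm (hst i)) h0, rw_mf0, rw_zero]
      simp [mass]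
    · intro i s
      have e4 : ∑ b : Fin q × {b // b ∈ hB N R},
          mass (atr χ (rs s) s.1 w (hf b.2.1.1 b.2.1.2) α b.1 (mf (fs s) (Ψ i))) =
          ∑ τ, ∑ b ∈ hB N R,
          mass (trf χ (rs s) s.1 w (hf b.1 b.2) α τ (mf (fs s) (Ψ i))) := by
        rw [← rw_frame (hB N R) (fun τ b =>
          mass (trf χ (rs s) s.1 w (hf b.1 b.2) α τ (mf (fs s) (Ψ i))))]
        exact sum_congr rfl fun b _ => (hat i s b.2.1 b.1).2.1
      rw [e4]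
      exact hN1 i s
    · refine le_trans (le_of_eq (sum_congr rfl fun i _ => sum_congr rfl fun s _ => ?_)) hN2
      rw [← rw_frame (hB N R) (fun τ b =>
          energy z κ (trf χ (rs s) s.1 w (hf b.1 b.2) α τ (mf (fs s) (Ψ i))))]
      exact sum_congr rfl fun b _ => (hat i s b.2.1 b.1).2.2
    · refine le_trans (sum_le_sum fun i _ => sum_le_sum fun s _ => ?_) hN3
      have e5 : ∑ b : Fin q × {b // b ∈ hB N R}, (x s.2.1 + (s.2.2 : ℕ) * Real.log 2 +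
          hx b.2.1.1) * mass (atr χ (rs s) s.1 w (hf b.2.1.1 b.2.1.2) α b.1
            (mf (fs s) (Ψ i))) =
          ∑ τ, ∑ b ∈ hB N R, (x s.2.1 + (s.2.2 : ℕ) * Real.log 2 + hx b.1) *
          mass (trf χ (rs s) s.1 w (hf b.1 b.2) α τ (mf (fs s) (Ψ i))) := by
        rw [← rw_frame (hB N R) (fun τ b => (x s.2.1 + (s.2.2 : ℕ) * Real.log 2 + hx b.1) *
          mass (trf χ (rs s) s.1 w (hf b.1 b.2) α τ (mf (fs s) (Ψ i))))]
        refine sum_congr rfl fun b _ => ?_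
        rw [(hat i s b.2.1 b.1).2.1]
      rw [e5]
      have e6 := hcost hχ (rs s) (hrs0 s) s.1 w α (mf (fs s) (Ψ i)) (Sa_sm (hsa i s)) N R
      have e7 : ∑ τ, ∑ b ∈ hB N R, (x s.2.1 + (s.2.2 : ℕ) * Real.log 2 + hx b.1) *
          mass (trf χ (rs s) s.1 w (hf b.1 b.2) α τ (mf (fs s) (Ψ i))) =
          (x s.2.1 + (s.2.2 : ℕ) * Real.log 2) * (∑ τ, ∑ b ∈ hB N R,
          mass (trf χ (rs s) s.1 w (hf b.1 b.2) α τ (mf (fs s) (Ψ i)))) +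
          ∑ τ, ∑ b ∈ hB N R, hx b.1 *
          mass (trf χ (rs s) s.1 w (hf b.1 b.2) α τ (mf (fs s) (Ψ i))) := by
        rw [mul_sum, ← sum_add_distrib]
        refine sum_congr rfl fun τ _ => ?_
        rw [mul_sum, ← sum_add_distrib]
        refine sum_congr rfl fun b _ => ?_
        ring
      rw [e7]
      linarith)
  -- conversion of the sums
  have c1 : ∀ (F : ι → Fin n → β → ℕ → ℝ), ∑ i, ∑ s : Fin n × β × Fin (L + 1),
      F i s.1 s.2.1 s.2.2 = ∑ i, ∑ a, ∑ b, ∑ l ∈ range (L + 1), F i a b l := fun F =>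
    sum_congr rfl fun i _ => rw_sum L (F i)
  have d1 : ∑ i, ∑ s, energy z κ (mf (fs s) (Ψ i)) =
      ∑ i, ∑ a, ∑ b, ∑ l ∈ range (L + 1), energy z κ (mf (fE θ r0 w (f b) J a l) (Ψ i)) :=
    c1 (fun i a b l => energy z κ (mf (fE θ r0 w (f b) J a l) (Ψ i)))
  have d2 : ∑ i, ∑ s, Efe χ (rs s) s.1 w z κ (mf (fs s) (Ψ i)) =
      ∑ i, ∑ a, ∑ b, ∑ l ∈ range (L + 1),
      Efe χ (r0 * ((2 : ℝ) ^ (l + 1))⁻¹) a w z κ (mf (fE θ r0 w (f b) J a l) (Ψ i)) :=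
    c1 (fun i a b l => Efe χ (r0 * ((2 : ℝ) ^ (l + 1))⁻¹) a w z κ
      (mf (fE θ r0 w (f b) J a l) (Ψ i)))
  have d3 : ∑ i, ∑ s : Fin n × β × Fin (L + 1), ((x s.2.1 + (s.2.2 : ℕ) * Real.log 2) *
      mass (mf (fs s) (Ψ i)) + (η / (T + 1) * kE (mf (fs s) (Ψ i)) s.1 +
        C2 * mass (mf (fs s) (Ψ i)))) =
      ∑ i, ∑ a, ∑ b, ∑ l ∈ range (L + 1), ((x b + l * Real.log 2) *
      mass (mf (fE θ r0 w (f b) J a l) (Ψ i)) +
      (η / (T + 1) * kE (mf (fE θ r0 w (f b) J a l) (Ψ i)) a +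
        C2 * mass (mf (fE θ r0 w (f b) J a l) (Ψ i)))) :=
    c1 (fun i a b l => ((x b + l * Real.log 2) *
      mass (mf (fE θ r0 w (f b) J a l) (Ψ i)) +
      (η / (T + 1) * kE (mf (fE θ r0 w (f b) J a l) (Ψ i)) a +
        C2 * mass (mf (fE θ r0 w (f b) J a l) (Ψ i)))))
  have d4 : ∑ i, mean (Ψ i) (fun p => ∑ s, Gm κ (fs s) p) =
      ∑ i, mean (Ψ i) (fun p => ∑ a, ∑ b, ∑ l ∈ range (L + 1),
        Gm κ (fE θ r0 w (f b) J a l) p) := by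
    refine sum_congr rfl fun i _ => ?_
    congr 1
    funext p
    exact rw_sum L (fun a b l => Gm κ (fE θ r0 w (f b) J a l) p)
  rw [d1, d2, d3, d4] at hmain
  set GG := ∑ i, mean (Ψ i) (fun p => ∑ a, ∑ b, ∑ l ∈ range (L + 1),
        Gm κ (fE θ r0 w (f b) J a l) p) with hGG
  have hGG0 : 0 ≤ GG := sum_nonneg fun i _ => mean_nonneg fun σ p _ =>
    sum_nonneg fun a _ => sum_nonneg fun b _ => sum_nonneg fun l _ => by
      unfold Gm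
      refine add_nonneg (sum_nonneg fun a _ => gr_nonneg _ _)
        (sum_nonneg fun j _ => mul_nonneg (hκ0 j) (gr_nonneg _ _))
  set MM := n * ∑ b, M b ^ 2 with hMM
  have hMM0 : 0 ≤ MM := mul_nonneg (Nat.cast_nonneg n) (sum_nonneg fun b _ => sq_nonneg _)
  -- the costs
  have d5 : T * ∑ i, ∑ a, ∑ b, ∑ l ∈ range (L + 1), ((x b + l * Real.log 2) *
      mass (mf (fE θ r0 w (f b) J a l) (Ψ i)) +
      (η / (T + 1) * kE (mf (fE θ r0 w (f b) J a l) (Ψ i)) a +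
        C2 * mass (mf (fE θ r0 w (f b) J a l) (Ψ i)))) ≤
      T * (1 + C2) * (∑ i, ∑ a, ∑ b, ∑ l ∈ range (L + 1),
        (x b + l + 1) * mass (mf (fE θ r0 w (f b) J a l) (Ψ i))) +
      ∑ i, ∑ a, ∑ b, ∑ l ∈ range (L + 1), η * kE (mf (fE θ r0 w (f b) J a l) (Ψ i)) a := by
    rw [mul_sum, mul_sum, ← sum_add_distrib]
    refine sum_le_sum fun i _ => ?_
    rw [mul_sum, mul_sum, ← sum_add_distrib]
    refine sum_le_sum fun a _ => ?_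
    rw [mul_sum, mul_sum, ← sum_add_distrib]
    refine sum_le_sum fun b _ => ?_
    rw [mul_sum, mul_sum, ← sum_add_distrib]
    refine sum_le_sum fun l _ => ?_
    have hm0 : 0 ≤ mass (mf (fE θ r0 w (f b) J a l) (Ψ i)) := mass_nonneg
    have hk0 := kE_nonneg (mf (fE θ r0 w (f b) J a l) (Ψ i)) a
    have hT1 : T * (η / (T + 1)) ≤ η := by
      rw [← mul_div_assoc, div_le_iff₀ (by linarith)]
      nlinarith
    have hlog : Real.log 2 ≤ 1 := by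
      have := Real.log_two_lt_d9
      linarith
    have hx0 := hA.xn b
    have hl0 : (0 : ℝ) ≤ l := Nat.cast_nonneg l
    have g1 : T * (η / (T + 1) * kE (mf (fE θ r0 w (f b) J a l) (Ψ i)) a) ≤
        η * kE (mf (fE θ r0 w (f b) J a l) (Ψ i)) a := by
      rw [← mul_assoc]
      exact mul_le_mul_of_nonneg_right hT1 hk0
    have g2 : (x b + l * Real.log 2) + C2 ≤ (1 + C2) * (x b + l + 1) := by
      nlinarith [mul_nonneg hC2 hx0, mul_nonneg hC2 hl0,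
        mul_le_mul_of_nonneg_left hlog hl0]
    have g3 : T * (((x b + l * Real.log 2) + C2) * mass (mf (fE θ r0 w (f b) J a l) (Ψ i))) ≤
        T * (((1 + C2) * (x b + l + 1)) * mass (mf (fE θ r0 w (f b) J a l) (Ψ i))) :=
      mul_le_mul_of_nonneg_left (mul_le_mul_of_nonneg_right g2 hm0) hT
    nlinarith [g1, g3]
  have d6 : ∑ i, ∑ a, ∑ b, ∑ l ∈ range (L + 1), (energy z κ (mf (fE θ r0 w (f b) J a l) (Ψ i)) -
      Efe χ (r0 * ((2 : ℝ) ^ (l + 1))⁻¹) a w z κ (mf (fE θ r0 w (f b) J a l) (Ψ i)) -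
      η * kE (mf (fE θ r0 w (f b) J a l) (Ψ i)) a) =
      ∑ i, ∑ a, ∑ b, ∑ l ∈ range (L + 1), energy z κ (mf (fE θ r0 w (f b) J a l) (Ψ i)) -
      ∑ i, ∑ a, ∑ b, ∑ l ∈ range (L + 1),
      Efe χ (r0 * ((2 : ℝ) ^ (l + 1))⁻¹) a w z κ (mf (fE θ r0 w (f b) J a l) (Ψ i)) -
      ∑ i, ∑ a, ∑ b, ∑ l ∈ range (L + 1),
        η * kE (mf (fE θ r0 w (f b) J a l) (Ψ i)) a := by
    simp only [sum_sub_distrib]
  rw [d6]
  have hX0 : 0 ≤ ∑ i, ∑ a, ∑ b, ∑ l ∈ range (L + 1),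
        (x b + l + 1) * mass (mf (fE θ r0 w (f b) J a l) (Ψ i)) :=
    sum_nonneg fun i _ => sum_nonneg fun a _ => sum_nonneg fun b _ => sum_nonneg fun l _ =>
      mul_nonneg (by have := hA.xn b; positivity) mass_nonneg
  set XX := ∑ i, ∑ a, ∑ b, ∑ l ∈ range (L + 1),
        (x b + l + 1) * mass (mf (fE θ r0 w (f b) J a l) (Ψ i)) with hXX
  have hCI : 0 ≤ Cf * I := mul_nonneg hCf hI0
  have hq0 : (0 : ℝ) ≤ q := Nat.cast_nonneg q
  have t1 : 0 ≤ T * (1 + C2) * (Cf * I + GG + (MM + Cf * I) * δ) := by positivity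
  have t2 : 0 ≤ 8 * T * q * (XX + GG + (MM + Cf * I) * δ) := by positivity
  have t3 : 0 ≤ 2 * (XX + Cf * I) := by positivity
  have t4 : 0 ≤ 8 * q * (XX + Cf * I + GG + MM * δ) := by positivity
  have t5 : (T * (1 + C2) + 8 * T * q + 2 + 8 * q) * (XX + Cf * I + GG + (MM + Cf * I) * δ) =
      T * (1 + C2) * XX + 8 * T * q * (Cf * I) + 2 * GG + 2 * (MM + Cf * I) * δ +
      8 * q * (Cf * I) * δ +
      (T * (1 + C2) * (Cf * I + GG + (MM + Cf * I) * δ) +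
      8 * T * q * (XX + GG + (MM + Cf * I) * δ) + 2 * (XX + Cf * I) +
      8 * q * (XX + Cf * I + GG + MM * δ)) := by ring
  rw [t5]
  have t6 : 2 * (MM + C1) * δ ≤ 2 * (MM + Cf * I) * δ + 8 * q * (Cf * I) * δ := by
    rw [hC1]
    have : 0 ≤ 2 * (Cf * I) * δ := by positivity
    linarith
  have t7 : 2 * T * C1 = 8 * T * q * (Cf * I) := by
    rw [hC1]
    ring
  rw [t7] at hmain
  linarith

end H6.CT
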