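import Pool.Agent.H6.CT.RelNw
import Pool.Agent.H6.CB.NucS
import Pool.Agent.H6.CB.UB
import Pool.Agent.H6.CM.BumpEx
import Pool.Agent.H6.CB.UG
import Pool.Agent.H6.CB.Lib
import Pool.Agent.H6.CB.ImsG

/-! Relocation of the nuclei with smearing `s`. Sum over the sectors `c` in `relNw` with `r = s`, `φ = mN (f b) J j (Ψ i)`, `mf (fN .. c) (Ψ i) = mf (fun p => zt c (mj θ w j p)) φ`; the sector functions do not depend on the position of nucleus `j` (`mj_upd`) and the sum of their squares is `1`. By the definition of `Efn` the term with index `c` is `(1 - η) κ j kN + z j * mean (phiN z j p (p.2 j)) - κ j (s ^ 2)⁻¹ (∫ gr χ) * mass - z j * mean (∫ chr χ s (v - w) ^ 2 * phiN z j p v)` of `mf (zt c ..) φ`. `zt_cost` with `mj ≤ cn p w 1 ≤ cn p v 2` for `‖w - v‖ ≤ 1/2`. Gradients: localisation formula for `∑ c, zt ^ 2 = 1` and `zt_gm`. Multiply by `chr χ s (w - v) ^ 2` and integrate over `w` (`mean_fub`): the last term becomes the mean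 of `∑ l ≠ j, z l * UU χ s (v - p.2 l) - ∑ a, UU χ s (v - p.1 a) ≤ ph χ s z p v` (`UU_dbl`, as in `Pool/Agent/H6/CB/NucS.lean`). -/

open MeasureTheory Finset

namespace H6.CT

open H6.CM H6.CB H6.CL

private theorem rN_Um {B : E3 → ℝ} (hB : Bump B) : Measurable (U B) := by
  have h1 : Measurable (fun p : E3 × E3 => B p.2 ^ 2 * ‖p.1 - p.2‖⁻¹) :=
    ((hB.smooth.continuous.measurable.comp measurable_snd).pow_const 2).mul
      ((measurable_fst.sub measurable_snd).norm.inv)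
  exact (h1.stronglyMeasurable.integral_prod_right' (ν := volume)).measurable

private theorem rN_term {q n k : ℕ} {Λ : Set E3} {ψ : (Fin n → Fin q) → Cfg n k → ℂ}
    (hψ : St q n k Λ ψ) {B : E3 → ℝ} (hB : Bump B) (v : E3) {g : Cfg n k → E3}
    (hg : Measurable g) (σ : Fin n → Fin q) :
    Integrable (fun u : Cfg n k × E3 =>
      B (u.2 - v) ^ 2 * U B (g u.1 - u.2) * ‖ψ σ u.1‖ ^ 2) := by
  obtain ⟨C, hC, hbd⟩ := U_bd hB
  have h1 : Integrable (fun u : Cfg n k × E3 => B (u.2 - v) ^ 2 * ‖ψ σ u.1‖ ^ 2) :=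
    nuc_prod (nuc_F_int hψ σ) (nuc_h_int hB v)
  have h2 : Measurable (fun u : Cfg n k × E3 => U B (g u.1 - u.2)) :=
    (rN_Um hB).comp ((hg.comp measurable_fst).sub measurable_snd)
  refine (h1.bdd_mul h2.aestronglyMeasurable (c := C) (Filter.Eventually.of_forall fun u => ?_)).congr
    (Filter.Eventually.of_forall fun u => ?_)
  · rw [Real.norm_of_nonneg (U_nonneg _ _)]
    exact hbd _
  · simp only
    ring

/-- the smeared potential of the other charges -/
private theorem rN_F {χ : E3 → ℝ} (hχ : Bump χ) {n k : ℕ} (z : Fin k → ℝ) (j : Fin k) (s : ℝ)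
    (hs : 0 < s) (hs1 : s ≤ 1) (w : E3) (p : Cfg n k) :
    ∫ u, chr χ s (u - w) ^ 2 * phiN z j p u =
      ∑ l ∈ univ.erase j, z l * U (chr χ s) (p.2 l - w) - ∑ a, U (chr χ s) (p.1 a - w) := by
  have hB : Bump (chr χ s) := chr_bump hχ s hs hs1
  have hi : ∀ y : E3, Integrable (fun u => chr χ s (u - w) ^ 2 * ‖u - y‖⁻¹) := by
    intro y
    exact chr_pot_int hχ s hs w y
  have e : ∀ u, chr χ s (u - w) ^ 2 * phiN z j p u =
      ∑ l ∈ univ.erase j, z l * (chr χ s (u - w) ^ 2 * ‖u - p.2 l‖⁻¹) -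
        ∑ a, chr χ s (u - w) ^ 2 * ‖u - p.1 a‖⁻¹ := by
    intro u
    unfold phiN
    rw [mul_sub, mul_sum, mul_sum]
    congr 1
    exact sum_congr rfl fun l _ => by ring
  simp only [e]
  rw [integral_sub (integrable_finsetSum _ fun l _ => (hi (p.2 l)).const_mul (z l))
    (integrable_finsetSum _ fun a _ => hi (p.1 a)),
    integral_finsetSum _ (fun l _ => (hi (p.2 l)).const_mul (z l)),
    integral_finsetSum _ (fun a _ => hi (p.1 a))]
  simp only [integral_const_mul, U_trans hB]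

private theorem rN_FIM {χ : E3 → ℝ} (hχ : Bump χ) {q n k : ℕ} {Λ : Set E3} (z : Fin k → ℝ)
    {ψ : (Fin n → Fin q) → Cfg n k → ℂ} (hψ : Sm q n k Λ ψ) (j : Fin k) (s : ℝ)
    (hs : 0 < s) (hs1 : s ≤ 1) (w : E3) :
    IM ψ (fun p => ∫ u, chr χ s (u - w) ^ 2 * phiN z j p u) := by
  have hU := U_cont hχ s hs
  have h1 : Continuous (fun p : Cfg n k => ∑ l ∈ univ.erase j, z l * U (chr χ s) (p.2 l - w) -
      ∑ a, U (chr χ s) (p.1 a - w)) := by
    refine Continuous.sub ?_ ?_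
    · refine continuous_finsetSum _ fun l _ => continuous_const.mul (hU.comp ?_)
      exact ((continuous_apply l).comp continuous_snd).sub continuous_const
    · refine continuous_finsetSum _ fun a _ => hU.comp ?_
      exact ((continuous_apply a).comp continuous_fst).sub continuous_const
  have h2 := IM.cont hψ h1
  simp only [rN_F hχ z j s hs hs1 w]
  exact h2

private theorem rN_avg {χ : E3 → ℝ} (hχ : Bump χ) {q n k : ℕ} {Λ : Set E3} {z : Fin k → ℝ}
    (hz : ∀ j, 0 ≤ z j) {ψ : (Fin n → Fin q) → Cfg n k → ℂ} (hψ : St q n k Λ ψ) (j : Fin k)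
    (s : ℝ) (hs : 0 < s) (hs1 : s ≤ 1) (v : E3) :
    Integrable (fun w => chr χ s (w - v) ^ 2 *
      mean ψ (fun p => ∫ u, chr χ s (u - w) ^ 2 * phiN z j p u)) ∧
    ∫ w, chr χ s (w - v) ^ 2 * mean ψ (fun p => ∫ u, chr χ s (u - w) ^ 2 * phiN z j p u) ≤
      mean ψ (fun p => ph χ s z p v) := by
  have hB : Bump (chr χ s) := chr_bump hχ s hs hs1
  have hIP : IP ψ (fun w => chr χ s (w - v) ^ 2) (fun w p =>
      ∑ l ∈ univ.erase j, z l * U (chr χ s) (p.2 l - w) - ∑ a, U (chr χ s) (p.1 a - w)) := by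
    intro σ
    have h1 : Integrable (fun u : Cfg n k × E3 =>
        ∑ l ∈ univ.erase j, z l * (chr χ s (u.2 - v) ^ 2 * U (chr χ s) (u.1.2 l - u.2) *
          ‖ψ σ u.1‖ ^ 2) -
        ∑ a, chr χ s (u.2 - v) ^ 2 * U (chr χ s) (u.1.1 a - u.2) * ‖ψ σ u.1‖ ^ 2) := by
      refine Integrable.sub ?_ ?_
      · exact integrable_finsetSum _ fun l _ => (rN_term hψ hB v (meas_n l) σ).const_mul (z l)
      · exact integrable_finsetSum _ fun a _ => rN_term hψ hB v (meas_e a) σ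
    refine h1.congr (Filter.Eventually.of_forall fun u => ?_)
    simp only
    rw [mul_sub, sub_mul, mul_sum, mul_sum, sum_mul, sum_mul]
    congr 1
    exact sum_congr rfl fun l _ => by ring
  obtain ⟨m1, m2, m3⟩ := mean_fub hIP
  simp only [rN_F hχ z j s hs hs1]
  refine ⟨m1, ?_⟩
  rw [m3]
  have hav : ∀ p : Cfg n k, (∫ w, chr χ s (w - v) ^ 2 * (∑ l ∈ univ.erase j,
      z l * U (chr χ s) (p.2 l - w) - ∑ a, U (chr χ s) (p.1 a - w))) =
      ph χ s z p v - z j * UU χ s (v - p.2 j) := by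
    intro p
    have e : ∀ w, chr χ s (w - v) ^ 2 * (∑ l ∈ univ.erase j,
        z l * U (chr χ s) (p.2 l - w) - ∑ a, U (chr χ s) (p.1 a - w)) =
        ∑ l ∈ univ.erase j, z l * (chr χ s (w - v) ^ 2 * U (chr χ s) (p.2 l - w)) -
          ∑ a, chr χ s (w - v) ^ 2 * U (chr χ s) (p.1 a - w) := by
      intro w
      rw [mul_sub, mul_sum, mul_sum]
      congr 1
      exact sum_congr rfl fun l _ => by ring
    simp only [e]
    rw [integral_sub (integrable_finsetSum _ fun l _ => ((UU_avg hχ s hs v _).1).const_mul (z l))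
      (integrable_finsetSum _ fun a _ => (UU_avg hχ s hs v _).1),
      integral_finsetSum _ (fun l _ => ((UU_avg hχ s hs v _).1).const_mul (z l)),
      integral_finsetSum _ (fun a _ => (UU_avg hχ s hs v _).1)]
    simp only [integral_const_mul, (UU_avg hχ s hs v _).2]
    unfold ph
    rw [← Finset.sum_erase_add _ _ (mem_univ j)]
    ring
  have hIph : IM ψ (fun p => ph χ s z p v) := by
    refine IM.cont (St_sm hψ) ?_
    have hUc : Continuous (UU χ s) := (UU_smooth hχ s hs).continuous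
    unfold ph
    refine Continuous.sub ?_ ?_
    · refine continuous_finsetSum _ fun l _ => continuous_const.mul (hUc.comp ?_)
      exact continuous_const.sub ((continuous_apply l).comp continuous_snd)
    · refine continuous_finsetSum _ fun a _ => hUc.comp ?_
      exact continuous_const.sub ((continuous_apply a).comp continuous_fst)
  exact mean_mono m2 hIph (fun σ p _ => by
    rw [hav p]
    have := mul_nonneg (hz j) (UU_nonneg hχ s hs (v - p.2 j))
    linarith)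

private theorem rN_gr (f g : E3 → ℝ) (v : E3) (hf : DifferentiableAt ℝ f v)
    (hg : DifferentiableAt ℝ g v) :
    gr (fun u => f u * g u) v ≤ 2 * g v ^ 2 * gr f v + 2 * f v ^ 2 * gr g v := by
  have h2 : HasFDerivAt (fun u => f u * g u)
      (f v • fderiv ℝ g v + g v • fderiv ℝ f v) v :=
    hf.hasFDerivAt.mul hg.hasFDerivAt
  unfold gr
  rw [h2.fderiv, mul_sum, mul_sum, ← sum_add_distrib]
  refine sum_le_sum fun d _ => ?_
  have e : (f v • fderiv ℝ g v + g v • fderiv ℝ f v)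
      (EuclideanSpace.single d 1) = f v * fderiv ℝ g v (EuclideanSpace.single d 1) +
      g v * fderiv ℝ f v (EuclideanSpace.single d 1) := by
    simp only [add_apply, smul_apply, smul_eq_mul]
  rw [e]
  generalize fderiv ℝ g v (EuclideanSpace.single d 1) = x
  generalize fderiv ℝ f v (EuclideanSpace.single d 1) = y
  nlinarith [sq_nonneg (f v * x - g v * y)]

private theorem rN_upE {n k : ℕ} (F : Cfg n k → ℝ)
    (hF : Differentiable ℝ F) (q : Cfg n k) (b : Fin n) (v : E3) :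
    DifferentiableAt ℝ (fun v => F (Function.update q.1 b v, q.2)) v := by
  have h1 : DifferentiableAt ℝ (fun v : E3 => ((Function.update q.1 b v, q.2) : Cfg n k)) v :=
    ((hasFDerivAt_update q.1 v).differentiableAt).prodMk (differentiableAt_const _)
  exact (hF _).comp v h1

private theorem rN_upN {n k : ℕ} {E : Type*} [NormedAddCommGroup E] [NormedSpace ℝ E]
    (F : Cfg n k → E)
    (hF : Differentiable ℝ F) (q : Cfg n k) (b : Fin k) (v : E3) :
    DifferentiableAt ℝ (fun v => F (q.1, Function.update q.2 b v)) v := by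
  have h1 : DifferentiableAt ℝ (fun v : E3 => ((q.1, Function.update q.2 b v) : Cfg n k)) v :=
    (differentiableAt_const _).prodMk ((hasFDerivAt_update q.2 v).differentiableAt)
  exact (hF _).comp v h1

private theorem rN_Gm {n k : ℕ} {κ : Fin k → ℝ} (hκ : ∀ j, 0 ≤ κ j) (u g : Cfg n k → ℝ)
    (hu : ContDiff ℝ (⊤ : ℕ∞) u) (hg : ContDiff ℝ (⊤ : ℕ∞) g) (p : Cfg n k) :
    Gm κ (fun p => u p * g p) p ≤ 2 * g p ^ 2 * Gm κ u p + 2 * u p ^ 2 * Gm κ g p := by
  have hu' : Differentiable ℝ u := hu.differentiable (by simp)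
  have hg' : Differentiable ℝ g := hg.differentiable (by simp)
  have hE : ∀ a : Fin n, gr (fun v => u (Function.update p.1 a v, p.2) *
      g (Function.update p.1 a v, p.2)) (p.1 a) ≤
      2 * g p ^ 2 * gr (fun v => u (Function.update p.1 a v, p.2)) (p.1 a) +
        2 * u p ^ 2 * gr (fun v => g (Function.update p.1 a v, p.2)) (p.1 a) := by
    intro a
    have h := rN_gr (fun v => u (Function.update p.1 a v, p.2))
      (fun v => g (Function.update p.1 a v, p.2)) (p.1 a) (rN_upE u hu' p a _)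
      (rN_upE g hg' p a _)
    simp only [Function.update_eq_self] at h
    exact h
  have hN : ∀ j : Fin k, gr (fun v => u (p.1, Function.update p.2 j v) *
      g (p.1, Function.update p.2 j v)) (p.2 j) ≤
      2 * g p ^ 2 * gr (fun v => u (p.1, Function.update p.2 j v)) (p.2 j) +
        2 * u p ^ 2 * gr (fun v => g (p.1, Function.update p.2 j v)) (p.2 j) := by
    intro j
    have h := rN_gr (fun v => u (p.1, Function.update p.2 j v))
      (fun v => g (p.1, Function.update p.2 j v)) (p.2 j) (rN_upN u hu' p j _)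
      (rN_upN g hg' p j _)
    simp only [Function.update_eq_self] at h
    exact h
  have h1 := sum_le_sum (s := (univ : Finset (Fin n))) fun a _ => hE a
  have h2 := sum_le_sum (s := (univ : Finset (Fin k))) fun j _ =>
    mul_le_mul_of_nonneg_left (hN j) (hκ j)
  unfold Gm
  have h3 : 2 * g p ^ 2 *
      (∑ a, gr (fun v => u (Function.update p.1 a v, p.2)) (p.1 a) +
        ∑ j, κ j * gr (fun v => u (p.1, Function.update p.2 j v)) (p.2 j)) +
      2 * u p ^ 2 * (∑ a, gr (fun v => g (Function.update p.1 a v, p.2)) (p.1 a) +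
        ∑ j, κ j * gr (fun v => g (p.1, Function.update p.2 j v)) (p.2 j)) =
      ∑ a, (2 * g p ^ 2 * gr (fun v => u (Function.update p.1 a v, p.2)) (p.1 a) +
        2 * u p ^ 2 * gr (fun v => g (Function.update p.1 a v, p.2)) (p.1 a)) +
      ∑ j, κ j * (2 * g p ^ 2 * gr (fun v => u (p.1, Function.update p.2 j v)) (p.2 j) +
        2 * u p ^ 2 * gr (fun v => g (p.1, Function.update p.2 j v)) (p.2 j)) := by
    have h4 : ∀ j, κ j * (2 * g p ^ 2 *
        gr (fun v => u (p.1, Function.update p.2 j v)) (p.2 j) +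
        2 * u p ^ 2 * gr (fun v => g (p.1, Function.update p.2 j v)) (p.2 j)) =
        2 * g p ^ 2 * (κ j * gr (fun v => u (p.1, Function.update p.2 j v)) (p.2 j)) +
        2 * u p ^ 2 * (κ j * gr (fun v => g (p.1, Function.update p.2 j v)) (p.2 j)) := fun j => by
      ring
    rw [sum_congr rfl fun j _ => h4 j, sum_add_distrib, sum_add_distrib, ← mul_sum, ← mul_sum,
      ← mul_sum, ← mul_sum]
    ring
  rw [h3]
  exact add_le_add h1 h2

section

variable {q n k : ℕ} {Λ : Set E3} {φ : (Fin n → Fin q) → Cfg n k → ℂ} (hφ : Sm q n k Λ φ)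
  (g : ℕ → Cfg n k → ℝ) (hg : ∀ c, ContDiff ℝ (⊤ : ℕ∞) (g c)) (L : ℕ)
  (hs : ∀ p, ∑ c ∈ range (L + 1), g c p ^ 2 = 1)
include hφ hg hs

omit hφ in
private theorem rN_IM (c : ℕ) (hc : c ∈ range (L + 1)) {G : Cfg n k → ℝ} (hG : IM φ G) :
    IM φ (fun p => g c p ^ 2 * G p) := by
  refine hG.bmul ((hg c).continuous.pow 2).measurable 1 fun p => ?_
  rw [abs_of_nonneg (sq_nonneg _), ← hs p]
  exact single_le_sum (f := fun c => g c p ^ 2) (fun i _ => sq_nonneg _) hc

private theorem rN_mean {G : Cfg n k → ℝ} (hG : IM φ G) :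
    ∑ c ∈ range (L + 1), mean (mf (g c) φ) G = mean φ G := by
  simp only [mean_mf]
  rw [← mean_sum _ fun c hc => rN_IM g hg L hs c hc hG]
  congr 1
  funext p
  rw [← sum_mul, hs, one_mul]

private theorem rN_mass : ∑ c ∈ range (L + 1), mass (mf (g c) φ) = mass φ := by
  have h := rN_mean hφ g hg L hs (IM.cont hφ (continuous_const (y := (1 : ℝ))))
  simp only [mean_one] at h
  exact h

private theorem rN_kN (j : Fin k)
    (hj : ∀ c p v, g c (p.1, Function.update p.2 j v) = g c p) :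
    ∑ c ∈ range (L + 1), kN (mf (g c) φ) j = kN φ j := by
  unfold kN
  rw [sum_comm]
  refine sum_congr rfl fun σ _ => ?_
  rw [← integral_finsetSum _ fun c _ => kN_int (mf_sm hφ (hg c)) σ j]
  congr 1
  funext p
  have e1 : ∀ c, gn (mf (g c) φ σ) j p = g c p ^ 2 * gn (φ σ) j p := by
    intro c
    have h2 : DifferentiableAt ℝ (fun v : E3 => φ σ (p.1, Function.update p.2 j v)) (p.2 j) :=
      rN_upN (φ σ) ((hφ.smooth σ).differentiable (by simp)) p j _
    have h4 := g3_const_mul ((g c p : ℝ) : ℂ) _ (p.2 j) h2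
    rw [Complex.norm_real, Real.norm_eq_abs, sq_abs] at h4
    have h5 : (fun v : E3 => mf (g c) φ σ (p.1, Function.update p.2 j v)) =
        fun v => ((g c p : ℝ) : ℂ) * φ σ (p.1, Function.update p.2 j v) := by
      funext v
      unfold mf
      rw [hj c p v]
    unfold gn
    rw [h5]
    exact h4
  simp only [e1]
  rw [← sum_mul, hs, one_mul]

end

private theorem rN_diff {q n k : ℕ} {Λ : Set E3} {F : (Fin n → Fin q) → Cfg n k → ℂ}
    (hF : Sm q n k Λ F) (χ : E3 → ℝ) (s : ℝ) (j : Fin k) (w : E3) (z κ : Fin k → ℝ) (η : ℝ) :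
    energy z κ F - Efn χ s j w z κ F - η * (κ j * kN F j) =
      (1 - η) * (κ j * kN F j) + z j * mean F (fun p => phiN z j p (p.2 j)) -
      κ j * ((s ^ 2)⁻¹ * ∫ v, gr χ v) * mass F -
      z j * mean F (fun p => ∫ v, chr χ s (v - w) ^ 2 * phiN z j p v) := by
  unfold energy Efn
  rw [mean_sub (IM_V hF z) ((IM_phiN hF z j).cmul (z j)), mean_cmul,
    ← Finset.sum_erase_add univ (fun l => κ l * kN F l) (mem_univ j)]
  ring

private theorem rN_sumc {q n k : ℕ} {Λ : Set E3} {φ : (Fin n → Fin q) → Cfg n k → ℂ}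
    (hφ : Sm q n k Λ φ) (g : ℕ → Cfg n k → ℝ) (hg : ∀ c, ContDiff ℝ (⊤ : ℕ∞) (g c)) (L : ℕ)
    (hs : ∀ p, ∑ c ∈ range (L + 1), g c p ^ 2 = 1) (j : Fin k)
    (hj : ∀ c p v, g c (p.1, Function.update p.2 j v) = g c p) (a1 a2 a3 a4 : ℝ)
    {G1 G2 : Cfg n k → ℝ} (h1 : IM φ G1) (h2 : IM φ G2) :
    ∑ c ∈ range (L + 1), (a1 * (a2 * kN (mf (g c) φ) j) + a3 * mean (mf (g c) φ) G1 -
      a4 * mass (mf (g c) φ) - a3 * mean (mf (g c) φ) G2) =
      a1 * (a2 * kN φ j) + a3 * mean φ G1 - a4 * mass φ - a3 * mean φ G2 := by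
  rw [sum_sub_distrib, sum_sub_distrib, sum_add_distrib, ← mul_sum, ← mul_sum, ← mul_sum,
    ← mul_sum, ← mul_sum, rN_kN hφ g hg L hs j hj, rN_mean hφ g hg L hs h1,
    rN_mean hφ g hg L hs h2, rN_mass hφ g hg L hs]

private theorem rN_log {n k : ℕ} (v : E3) (p : Cfg n k) :
    0 ≤ Real.log (1 + cn p v 2) ∧ Real.log (1 + cn p v 2) ≤ k := by
  have h0 := cn_nonneg p v 2
  have h1 := cn_le p v 2
  refine ⟨Real.log_nonneg (by linarith), ?_⟩
  have h2 := Real.log_le_sub_one_of_pos (show 0 < 1 + cn p v 2 by linarith)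
  linarith

theorem relN (q : ℕ) (T zm zp κm κp A Kv : ℝ) (hT : 0 ≤ T) (hzm : 0 < zm) (hκm : 0 < κm)
    {χ : E3 → ℝ} (hχ : Bump χ) (η : ℝ) (hη : 0 < η) :
    ∃ C : ℝ, 0 ≤ C ∧
    ∀ (ι : Type) (_ : Fintype ι) (n k : ℕ) (Λ : Set E3) (z κ : Fin k → ℝ) (W : Finset E3)
    (δ : ℝ) (Ψ : ι → (Fin n → Fin q) → Cfg n k → ℂ)
    (_ : Gt q T zm zp κm κp A Kv n k Λ z κ W δ Ψ)
    (β : Type) (_ : Fintype β) (f : β → Cfg n k → ℝ) (M x : β → ℝ) (Cf : ℝ)
    (_ : Am f M x Cf) (J : E3 → ℝ) (_ : ContDiff ℝ (⊤ : ℕ∞) J) (_ : ∀ v, 0 ≤ J v ∧ J v ≤ 1)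
    (s : ℝ) (_ : 0 < s) (_ : s ≤ 1) (v : E3) (_ : Metric.closedBall v 2 ⊆ Λ),
    ∑ i, ∑ j, ∑ b, ((1 - η) * (κ j * kN (mN (f b) J j (Ψ i)) j) +
      z j * mean (mN (f b) J j (Ψ i)) (fun p => phiN z j p (p.2 j)) -
      z j * mean (mN (f b) J j (Ψ i)) (fun p => ph χ s z p v)) ≤
    C * (∑ i, ∑ j, ∑ b, mean (mN (f b) J j (Ψ i)) (fun p => x b +
        (s ^ 2)⁻¹ + Real.log (1 + cn p v 2)) +
      Cf * (∫ v in Λ, J v ^ 2) +
      (∑ i, mean (Ψ i) (fun p => ∑ j, ∑ b, Gm κ (fun p => f b p * J (p.2 j)) p)) +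
      (k * (∑ b, M b ^ 2) + Cf * ∫ v in Λ, J v ^ 2) * δ) := by
  obtain ⟨θ, hθ⟩ := cut_ex
  obtain ⟨C0, hC0, hrel⟩ := relNw q T zm zp κm κp A Kv hT hzm hκm hχ hθ η hη
  obtain ⟨C3, hC3, hgm⟩ := zt_gm hθ κp
  have hK0 : 0 ≤ ∫ v, gr χ v := integral_nonneg fun v => gr_nonneg _ _
  refine ⟨C0 * (3 + 2 * C3) + 2 * C0 + |κp| * ∫ v, gr χ v, by positivity, ?_⟩
  intro ι _ n k Λ z κ W δ Ψ hG β _ f M x Cf hA J hJ hJ1 s hs hs1 v hv
  have hst := hG.eq.st
  have hδ := hG.hδ
  have hκ0 : ∀ j, 0 ≤ κ j := fun j => hκm.le.trans (hG.hκ j).1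
  have hz0 : ∀ j, 0 ≤ z j := fun j => hzm.le.trans (hG.hz j).1
  have hCf : 0 ≤ Cf := le_trans (sum_nonneg fun b _ => by positivity) hA.sum
  obtain ⟨Kχ, hKχ⟩ : ∃ Kχ, Kχ = ∫ v, gr χ v := ⟨_, rfl⟩
  rw [← hKχ] at hK0 ⊢
  obtain ⟨I, hI⟩ : ∃ I, I = ∫ v in Λ, J v ^ 2 := ⟨_, rfl⟩
  have hI0 : 0 ≤ I := by
    rw [hI]
    exact integral_nonneg fun v => sq_nonneg _
  rw [← hI]
  have hs2 : 1 ≤ (s ^ 2)⁻¹ := by
    rw [one_le_inv₀ (by positivity)]
    nlinarith
  have hfJ : ∀ b j, ContDiff ℝ (⊤ : ℕ∞) (fun p : Cfg n k => f b p * J (p.2 j)) := fun b j =>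
    (hA.smooth b).mul (hJ.comp ((contDiff_apply ℝ E3 j).comp contDiff_snd))
  have hfS : ∀ b j, Sy (fun p : Cfg n k => f b p * J (p.2 j)) := fun b j π p => by
    show f b (p.1 ∘ π, p.2) * J (p.2 j) = f b p * J (p.2 j)
    rw [hA.sy b π p]
  have hφ : ∀ i j b, St q n k Λ (mN (f b) J j (Ψ i)) := fun i j b =>
    mf_st (hst i) (hfJ b j) (hfS b j)
  have hsq : ∀ w j (p : Cfg n k), ∑ c ∈ range (k + 1), zt c (mj θ w j p) ^ 2 = 1 := by
    intro w j p
    refine zt_sum k _ ?_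
    refine ((mj_mem hθ w j p).2.1).trans ?_
    exact_mod_cast (Nat.lt_two_pow_self (n := k)).le
  have hzs : ∀ w j c, ContDiff ℝ (⊤ : ℕ∞) (fun p : Cfg n k => zt c (mj θ w j p)) :=
    fun w j c => (zt_smooth c).comp (mj_smooth hθ w j)
  have hzj : ∀ w j c (p : Cfg n k) u, zt c (mj θ w j ((p.1, Function.update p.2 j u) : Cfg n k)) =
      zt c (mj θ w j p) := fun w j c p u => by rw [mj_upd θ w j p p.1 u]
  have hmf : ∀ w i j b c, mf (fN θ w (f b) J j c) (Ψ i) =
      mf (fun p => zt c (mj θ w j p)) (mN (f b) J j (Ψ i)) := by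
    intro w i j b c
    unfold mN
    rw [mf_mf]
    congr 1
    funext p
    unfold fN
    ring
  -- the costs
  have hIMl : ∀ i j b, IM (mN (f b) J j (Ψ i)) (fun p => Real.log (1 + cn p v 2)) := by
    intro i j b
    refine IM.bdd (St_sm (hφ i j b)) (Real.measurable_log.comp ((cn_meas v 2).const_add 1)) k
      fun p => ?_
    rw [abs_of_nonneg (rN_log v p).1]
    exact (rN_log v p).2
  have hIMr : ∀ i j b, IM (mN (f b) J j (Ψ i)) (fun p => x b + (s ^ 2)⁻¹ +
      Real.log (1 + cn p v 2)) := fun i j b =>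
    (IM.cont (St_sm (hφ i j b)) (continuous_const (y := x b + (s ^ 2)⁻¹))).add (hIMl i j b)
  obtain ⟨R, hR⟩ : ∃ R : ι → Fin k → β → ℝ, R = fun i j b =>
    mean (mN (f b) J j (Ψ i)) (fun p => x b + (s ^ 2)⁻¹ + Real.log (1 + cn p v 2)) := ⟨_, rfl⟩
  have hRm : ∀ i j b, (s ^ 2)⁻¹ * mass (mN (f b) J j (Ψ i)) ≤ R i j b := by
    intro i j b
    rw [hR, ← mean_const]
    refine mean_mono (IM.cont (St_sm (hφ i j b)) continuous_const) (hIMr i j b)
      fun σ p _ => ?_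
    have h1 := hA.xn b
    have h2 := (rN_log v p).1
    linarith
  have hRm1 : ∀ i j b, mass (mN (f b) J j (Ψ i)) ≤ R i j b := by
    intro i j b
    have h1 : 0 ≤ mass (mN (f b) J j (Ψ i)) := mass_nonneg
    nlinarith [hRm i j b]
  have hR0 : ∀ i j b, 0 ≤ R i j b := fun i j b => le_trans mass_nonneg (hRm1 i j b)
  have hRs : ∑ i, ∑ j, ∑ b, mean (mN (f b) J j (Ψ i)) (fun p => x b +
        (s ^ 2)⁻¹ + Real.log (1 + cn p v 2)) = ∑ i, ∑ j, ∑ b, R i j b := by
    rw [hR]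
  rw [hRs]
  obtain ⟨X, hX⟩ : ∃ X, X = ∑ i, ∑ j, ∑ b, R i j b := ⟨_, rfl⟩
  rw [← hX]
  have hX0 : 0 ≤ X := by
    rw [hX]
    exact sum_nonneg fun i _ => sum_nonneg fun j _ => sum_nonneg fun b _ => hR0 i j b
  obtain ⟨GG, hGG⟩ : ∃ GG, GG = ∑ i, mean (Ψ i) (fun p => ∑ j, ∑ b,
    Gm κ (fun p => f b p * J (p.2 j)) p) := ⟨_, rfl⟩
  rw [← hGG]
  have hGG0 : 0 ≤ GG := by
    rw [hGG]
    exact sum_nonneg fun i _ => mean_nonneg fun σ p _ =>
      sum_nonneg fun j _ => sum_nonneg fun b _ => Gm_nonneg hκ0 _ _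
  obtain ⟨D, hD⟩ : ∃ D, D = (k * (∑ b, M b ^ 2) + Cf * I) * δ := ⟨_, rfl⟩
  rw [← hD]
  have hD0 : 0 ≤ D := by
    rw [hD]
    have h1 : 0 ≤ ∑ b, M b ^ 2 := sum_nonneg fun b _ => sq_nonneg _
    positivity
  -- the first cost at `w`
  have hS1 : ∀ w, ‖w - v‖ ≤ 1 → ∑ i, ∑ j, ∑ b, ∑ c ∈ range (k + 1),
      (x b + 2 * c * Real.log 2 + 1) * mass (mf (fN θ w (f b) J j c) (Ψ i)) ≤ 3 * X := by
    intro w hw
    rw [hX, mul_sum]
    refine sum_le_sum fun i _ => ?_
    rw [mul_sum]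
    refine sum_le_sum fun j _ => ?_
    rw [mul_sum]
    refine sum_le_sum fun b _ => ?_
    have hsm := St_sm (hφ i j b)
    have e1 : ∀ c ∈ range (k + 1), (x b + 2 * c * Real.log 2 + 1) *
        mass (mf (fN θ w (f b) J j c) (Ψ i)) =
        mean (mN (f b) J j (Ψ i)) (fun p => (x b + 2 * c * Real.log 2 + 1) *
          zt c (mj θ w j p) ^ 2) := by
      intro c _
      rw [hmf, mass_mf, mean_cmul]
    have hIMc : ∀ c ∈ range (k + 1), IM (mN (f b) J j (Ψ i))
        (fun p => (x b + 2 * c * Real.log 2 + 1) * zt c (mj θ w j p) ^ 2) := fun c _ =>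
      IM.cont hsm (continuous_const.mul ((hzs w j c).continuous.pow 2))
    rw [sum_congr rfl e1, ← mean_sum _ hIMc, hR, ← mean_cmul]
    refine mean_mono (IM.sum _ hIMc) ((hIMr i j b).cmul 3) fun σ p _ => ?_
    have m1 := mj_mem hθ w j p
    have m2 : cn p w 1 ≤ cn p v 2 := cn_mono p (by linarith)
    have hk : mj θ w j p ≤ 2 ^ k := by
      refine (m1.2.1).trans ?_
      exact_mod_cast (Nat.lt_two_pow_self (n := k)).le
    have c1 := zt_cost k (mj θ w j p) m1.1 hk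
    have e2 : ∑ c ∈ range (k + 1), (x b + 2 * c * Real.log 2 + 1) * zt c (mj θ w j p) ^ 2 =
        (x b + 1) * ∑ c ∈ range (k + 1), zt c (mj θ w j p) ^ 2 +
        ∑ c ∈ range (k + 1), (2 * c * Real.log 2) * zt c (mj θ w j p) ^ 2 := by
      rw [mul_sum, ← sum_add_distrib]
      refine sum_congr rfl fun c _ => ?_
      ring
    rw [e2, hsq]
    have c2 : Real.log (1 + mj θ w j p) ≤ Real.log (1 + cn p v 2) :=
      Real.log_le_log (by linarith [m1.1]) (by linarith [m1.2.2])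
    have c3 : Real.log 2 < 1 := by
      have := Real.log_two_lt_d9
      linarith
    have c4 := hA.xn b
    have c5 := (rN_log v p).1
    nlinarith
  -- the gradients
  have hS3 : ∀ w, ∑ i, mean (Ψ i) (fun p => ∑ j, ∑ b, ∑ c ∈ range (k + 1),
      Gm κ (fN θ w (f b) J j c) p) ≤ 2 * GG + 2 * C3 * X := by
    intro w
    have e1 : 2 * GG + 2 * C3 * X = ∑ i, (2 * mean (Ψ i) (fun p => ∑ j, ∑ b,
        Gm κ (fun p => f b p * J (p.2 j)) p) + 2 * C3 * ∑ j, ∑ b, R i j b) := by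
      rw [hGG, hX, sum_add_distrib, ← mul_sum, ← mul_sum]
    rw [e1]
    refine sum_le_sum fun i _ => ?_
    have hsm := St_sm (hst i)
    have hc1 : ∀ j b, IM (Ψ i) (fun p => Gm κ (fun p => f b p * J (p.2 j)) p) := fun j b =>
      IM.cont hsm (Gm_cont κ (hfJ b j))
    have hc2 : ∀ j b, IM (Ψ i) (fun p => (f b p * J (p.2 j)) ^ 2) := fun j b =>
      IM.cont hsm ((hfJ b j).continuous.pow 2)
    have hc3 : ∀ j b c, ContDiff ℝ (⊤ : ℕ∞) (fN (n := n) θ w (f b) J j c) := by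
      intro j b c
      have h1 : fN θ w (f b) J j c = fun p => (f b p * J (p.2 j)) * zt c (mj θ w j p) := by
        funext p
        unfold fN
        ring
      rw [h1]
      exact (hfJ b j).mul (hzs w j c)
    have hstep : mean (Ψ i) (fun p => ∑ j, ∑ b, ∑ c ∈ range (k + 1),
        Gm κ (fN θ w (f b) J j c) p) ≤ mean (Ψ i) (fun p =>
        2 * (∑ j, ∑ b, Gm κ (fun p => f b p * J (p.2 j)) p) +
        2 * C3 * ∑ j, ∑ b, (f b p * J (p.2 j)) ^ 2) := by
      refine mean_mono (IM.sum _ fun j _ => IM.sum _ fun b _ => IM.sum _ fun c _ =>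
        IM.cont hsm (Gm_cont κ (hc3 j b c))) (((IM.sum _ fun j _ => IM.sum _ fun b _ =>
        hc1 j b).cmul 2).add ((IM.sum _ fun j _ => IM.sum _ fun b _ => hc2 j b).cmul (2 * C3)))
        fun σ p _ => ?_
      rw [mul_sum, mul_sum, ← sum_add_distrib]
      refine sum_le_sum fun j _ => ?_
      rw [mul_sum, mul_sum, ← sum_add_distrib]
      refine sum_le_sum fun b _ => ?_
      have g1 : ∀ c ∈ range (k + 1), Gm κ (fN θ w (f b) J j c) p ≤
          2 * Gm κ (fun p => f b p * J (p.2 j)) p * zt c (mj θ w j p) ^ 2 +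
          2 * (f b p * J (p.2 j)) ^ 2 * Gm κ (fun p => zt c (mj θ w j p)) p := by
        intro c _
        have h1 : fN θ w (f b) J j c = fun p => (f b p * J (p.2 j)) * zt c (mj θ w j p) := by
          funext p
          unfold fN
          ring
        have h2 := rN_Gm hκ0 (fun p : Cfg n k => f b p * J (p.2 j))
          (fun p => zt c (mj θ w j p)) (hfJ b j) (hzs w j c) p
        rw [h1]
        linarith
      refine (sum_le_sum g1).trans ?_
      rw [sum_add_distrib, ← mul_sum, ← mul_sum, hsq, mul_one]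
      have g2 := hgm n k κ (fun j => ⟨hκ0 j, (hG.hκ j).2⟩) w j p k
      have g3 : 0 ≤ 2 * (f b p * J (p.2 j)) ^ 2 := by positivity
      have g4 := mul_le_mul_of_nonneg_left g2 g3
      linarith
    refine hstep.trans ?_
    rw [mean_add ((IM.sum _ fun j _ => IM.sum _ fun b _ => hc1 j b).cmul 2)
      ((IM.sum _ fun j _ => IM.sum _ fun b _ => hc2 j b).cmul (2 * C3)), mean_cmul, mean_cmul,
      mean_sum _ fun j _ => IM.sum _ fun b _ => hc2 j b]
    refine add_le_add le_rfl (mul_le_mul_of_nonneg_left (sum_le_sum fun j _ => ?_)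
      (by positivity))
    rw [mean_sum _ fun b _ => hc2 j b]
    refine sum_le_sum fun b _ => ?_
    have h1 : mass (mN (f b) J j (Ψ i)) = mean (Ψ i) (fun p => (f b p * J (p.2 j)) ^ 2) :=
      mass_mf _
    rw [← h1]
    exact hRm1 i j b
  -- the inequality at `w`
  obtain ⟨P, hP⟩ : ∃ P : E3 → ι → Fin k → β → ℝ, P = fun w i j b =>
    mean (mN (f b) J j (Ψ i)) (fun p => ∫ u, chr χ s (u - w) ^ 2 * phiN z j p u) := ⟨_, rfl⟩
  obtain ⟨Q, hQ⟩ : ∃ Q : ι → Fin k → β → ℝ, Q = fun i j b =>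
    (1 - η) * (κ j * kN (mN (f b) J j (Ψ i)) j) +
      z j * mean (mN (f b) J j (Ψ i)) (fun p => phiN z j p (p.2 j)) := ⟨_, rfl⟩
  have hpt : ∀ w, ‖w - v‖ ≤ 1 → ∑ i, ∑ j, ∑ b, Q i j b -
      (C0 * (3 + 2 * C3) + 2 * C0 + |κp| * Kχ) * (X + Cf * I + GG + D) ≤
      ∑ i, ∑ j, ∑ b, z j * P w i j b := by
    intro w hw
    have hwΛ : Metric.closedBall w 1 ⊆ Λ := by
      refine (Metric.closedBall_subset_closedBall' ?_).trans hv
      rw [dist_eq_norm]
      linarith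
    have h1 := hrel ι inferInstance n k Λ z κ W δ Ψ hG β inferInstance f M x Cf hA J hJ hJ1
      s hs hs1 w hwΛ
    have h2 : ∀ i j b, ∑ c ∈ range (k + 1), (energy z κ (mf (fN θ w (f b) J j c) (Ψ i)) -
        Efn χ s j w z κ (mf (fN θ w (f b) J j c) (Ψ i)) -
        η * (κ j * kN (mf (fN θ w (f b) J j c) (Ψ i)) j)) =
        Q i j b - κ j * ((s ^ 2)⁻¹ * Kχ) * mass (mN (f b) J j (Ψ i)) - z j * P w i j b := by
      intro i j b
      have hsm := St_sm (hφ i j b)
      have e1 : ∀ c ∈ range (k + 1), (energy z κ (mf (fN θ w (f b) J j c) (Ψ i)) -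
          Efn χ s j w z κ (mf (fN θ w (f b) J j c) (Ψ i)) -
          η * (κ j * kN (mf (fN θ w (f b) J j c) (Ψ i)) j)) =
          (1 - η) * (κ j * kN (mf (fun p => zt c (mj θ w j p)) (mN (f b) J j (Ψ i))) j) +
          z j * mean (mf (fun p => zt c (mj θ w j p)) (mN (f b) J j (Ψ i)))
            (fun p => phiN z j p (p.2 j)) -
          κ j * ((s ^ 2)⁻¹ * Kχ) *
            mass (mf (fun p => zt c (mj θ w j p)) (mN (f b) J j (Ψ i))) -
          z j * mean (mf (fun p => zt c (mj θ w j p)) (mN (f b) J j (Ψ i)))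
            (fun p => ∫ u, chr χ s (u - w) ^ 2 * phiN z j p u) := by
        intro c _
        rw [hmf, hKχ]
        exact rN_diff (mf_sm hsm (hzs w j c)) χ s j w z κ η
      rw [sum_congr rfl e1, rN_sumc hsm (fun c p => zt c (mj θ w j p)) (hzs w j) k (hsq w j) j
        (fun c p u => hzj w j c p u) (1 - η) (κ j) (z j) (κ j * ((s ^ 2)⁻¹ * Kχ))
        (IM_phiN hsm z j) (rN_FIM hχ z hsm j s hs hs1 w), hQ, hP]
    have h3 : ∑ i, ∑ j, ∑ b, ∑ c ∈ range (k + 1), (energy z κ (mf (fN θ w (f b) J j c) (Ψ i)) -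
        Efn χ s j w z κ (mf (fN θ w (f b) J j c) (Ψ i)) -
        η * (κ j * kN (mf (fN θ w (f b) J j c) (Ψ i)) j)) =
        ∑ i, ∑ j, ∑ b, Q i j b -
        ∑ i, ∑ j, ∑ b, κ j * ((s ^ 2)⁻¹ * Kχ) * mass (mN (f b) J j (Ψ i)) -
        ∑ i, ∑ j, ∑ b, z j * P w i j b := by
      simp only [h2, sum_sub_distrib]
    have h4 : ∑ i, ∑ j, ∑ b, κ j * ((s ^ 2)⁻¹ * Kχ) * mass (mN (f b) J j (Ψ i)) ≤
        |κp| * Kχ * X := by
      rw [hX, mul_sum]
      refine sum_le_sum fun i _ => ?_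
      rw [mul_sum]
      refine sum_le_sum fun j _ => ?_
      rw [mul_sum]
      refine sum_le_sum fun b _ => ?_
      have a1 : κ j ≤ |κp| := (hG.hκ j).2.trans (le_abs_self _)
      have a2 := hRm i j b
      have a3 : 0 ≤ (s ^ 2)⁻¹ * mass (mN (f b) J j (Ψ i)) :=
        mul_nonneg (by positivity) mass_nonneg
      have a4 : κ j * Kχ ≤ |κp| * Kχ := mul_le_mul_of_nonneg_right a1 hK0
      calc κ j * ((s ^ 2)⁻¹ * Kχ) * mass (mN (f b) J j (Ψ i)) =
          κ j * Kχ * ((s ^ 2)⁻¹ * mass (mN (f b) J j (Ψ i))) := by ring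
        _ ≤ |κp| * Kχ * R i j b :=
          mul_le_mul a4 a2 a3 (mul_nonneg (abs_nonneg _) hK0)
    rw [h3, ← hI, ← hD] at h1
    have h5 := hS1 w hw
    have h6 := hS3 w
    have h7 : C0 * ((∑ i, ∑ j, ∑ b, ∑ c ∈ range (k + 1),
        (x b + 2 * c * Real.log 2 + 1) * mass (mf (fN θ w (f b) J j c) (Ψ i))) + Cf * I +
        (∑ i, mean (Ψ i) (fun p => ∑ j, ∑ b, ∑ c ∈ range (k + 1),
          Gm κ (fN θ w (f b) J j c) p)) + D) ≤
        C0 * (3 * X + Cf * I + (2 * GG + 2 * C3 * X) + D) :=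
      mul_le_mul_of_nonneg_left (by linarith) hC0
    have hCI : 0 ≤ Cf * I := mul_nonneg hCf hI0
    have h8 : C0 * (3 * X + Cf * I + (2 * GG + 2 * C3 * X) + D) + |κp| * Kχ * X ≤
        (C0 * (3 + 2 * C3) + 2 * C0 + |κp| * Kχ) * (X + Cf * I + GG + D) := by
      have b1 : 0 ≤ |κp| * Kχ := mul_nonneg (abs_nonneg _) hK0
      have b2 : (C0 * (3 + 2 * C3) + 2 * C0 + |κp| * Kχ) * (X + Cf * I + GG + D) -
          (C0 * (3 * X + Cf * I + (2 * GG + 2 * C3 * X) + D) + |κp| * Kχ * X) =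
          2 * C0 * X + C0 * (4 + 2 * C3) * (Cf * I + D) + C0 * (3 + 2 * C3) * GG +
          |κp| * Kχ * (Cf * I + GG + D) := by ring
      have b3 : 0 ≤ 2 * C0 * X + C0 * (4 + 2 * C3) * (Cf * I + D) + C0 * (3 + 2 * C3) * GG +
          |κp| * Kχ * (Cf * I + GG + D) := by positivity
      linarith
    linarith
  -- integration over `w`
  have hB : Bump (chr χ s) := chr_bump hχ s hs hs1
  have hc1 : ∫ w, chr χ s (w - v) ^ 2 = 1 := by
    rw [integral_sub_right_eq_self (fun w => chr χ s w ^ 2) v]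
    exact hB.norm
  have hci : Integrable (fun w => chr χ s (w - v) ^ 2) := nuc_h_int hB v
  have hav : ∀ i j b, Integrable (fun w => chr χ s (w - v) ^ 2 * P w i j b) ∧
      ∫ w, chr χ s (w - v) ^ 2 * P w i j b ≤
        mean (mN (f b) J j (Ψ i)) (fun p => ph χ s z p v) := by
    intro i j b
    rw [hP]
    exact rN_avg hχ hz0 (hφ i j b) j s hs hs1 v
  obtain ⟨DD, hDD⟩ : ∃ DD, DD = ∑ i, ∑ j, ∑ b, Q i j b -
      (C0 * (3 + 2 * C3) + 2 * C0 + |κp| * Kχ) * (X + Cf * I + GG + D) := ⟨_, rfl⟩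
  have hpt2 : ∀ w, chr χ s (w - v) ^ 2 * DD ≤
      ∑ i, ∑ j, ∑ b, z j * (chr χ s (w - v) ^ 2 * P w i j b) := by
    intro w
    by_cases h0 : chr χ s (w - v) = 0
    · rw [h0]
      simp
    · have h1 : ‖w - v‖ < s / 2 := chr_supp hχ s hs _ h0
      have h2 := hpt w (by linarith)
      rw [← hDD] at h2
      have h3 := mul_le_mul_of_nonneg_left h2 (sq_nonneg (chr χ s (w - v)))
      refine h3.trans (le_of_eq ?_)
      rw [mul_sum]
      refine sum_congr rfl fun i _ => ?_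
      rw [mul_sum]
      refine sum_congr rfl fun j _ => ?_
      rw [mul_sum]
      refine sum_congr rfl fun b _ => ?_
      ring
  have hIs : ∀ i j, Integrable (fun w => ∑ b, z j * (chr χ s (w - v) ^ 2 * P w i j b)) :=
    fun i j => integrable_finsetSum _ fun b _ => (hav i j b).1.const_mul (z j)
  have hIs2 : ∀ i, Integrable (fun w => ∑ j, ∑ b, z j * (chr χ s (w - v) ^ 2 * P w i j b)) :=
    fun i => integrable_finsetSum _ fun j _ => hIs i j
  have hint : ∫ w, chr χ s (w - v) ^ 2 * DD ≤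
      ∫ w, ∑ i, ∑ j, ∑ b, z j * (chr χ s (w - v) ^ 2 * P w i j b) :=
    integral_mono (hci.mul_const _) (integrable_finsetSum _ fun i _ => hIs2 i) hpt2
  rw [integral_mul_const, hc1, one_mul, integral_finsetSum _ fun i _ => hIs2 i] at hint
  have hfin : ∑ i, ∫ w, ∑ j, ∑ b, z j * (chr χ s (w - v) ^ 2 * P w i j b) ≤
      ∑ i, ∑ j, ∑ b, z j * mean (mN (f b) J j (Ψ i)) (fun p => ph χ s z p v) := by
    refine sum_le_sum fun i _ => ?_
    rw [integral_finsetSum _ fun j _ => hIs i j]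
    refine sum_le_sum fun j _ => ?_
    rw [integral_finsetSum _ fun b _ => (hav i j b).1.const_mul (z j)]
    refine sum_le_sum fun b _ => ?_
    rw [integral_const_mul]
    exact mul_le_mul_of_nonneg_left (hav i j b).2 (hz0 j)
  have hend : ∑ i, ∑ j, ∑ b, ((1 - η) * (κ j * kN (mN (f b) J j (Ψ i)) j) +
      z j * mean (mN (f b) J j (Ψ i)) (fun p => phiN z j p (p.2 j)) -
      z j * mean (mN (f b) J j (Ψ i)) (fun p => ph χ s z p v)) =
      ∑ i, ∑ j, ∑ b, Q i j b -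
      ∑ i, ∑ j, ∑ b, z j * mean (mN (f b) J j (Ψ i)) (fun p => ph χ s z p v) := by
    rw [hQ]
    simp only [sum_sub_distrib]
  rw [hend]
  linarith

end H6.CT
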