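import Pool.Agent.H6.CT.Rel1
import Pool.Agent.H6.CT.FrmN
import Pool.Agent.H6.CT.EnN
import Pool.Agent.H6.CT.HInt

/-! Relocation of the nuclei to the point `w`: apply `rel1` with `S = Fin k × β × Fin (k + 1)` and `f s = fN θ w (f b) J j c`. The sum of the squares is `∑ j, J (p.2 j) ^ 2 * ∑ b, f b p ^ 2 ≤ k * ∑ b, M b ^ 2 =: M2` (`zt_sum` with `L = k`, `mj ≤ k ≤ 2 ^ k`); it is symmetric (a function of the positions of the nuclei times a symmetric function). For `hK` take `B = {b // b ∈ hB N R}`, `φ i s b = ntr χ r j w (hf b.1 b.2) (mf (f s) (Ψ i))` with the cost `x b + 2 * c * log 2 + hx b.1`. `ntr_st`, `ntr_mass`, `ntr_energy`, `ntr_cost` (with `T * δ' ≤ η * κm`, so `T * δ' * kN ≤ η * (κ j * kN)`). Frame bound: `frmN`, `hsum2` (integrated over `Λ` against `J ^ 2`), `frmN_sum`: `∑ c, exp (-2 c log 2) * (2 ^ (c + 1) + 1) ≤ 6`, so `C1 = 12 * Cf * ∫ v in Λ, J v ^ 2`. -/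

open MeasureTheory Finset

namespace H6.CT

open H6.CM H6.CB H6.CL

/-- the sum over the index set -/
private theorem rn_sum {k : ℕ} {β : Type} [Fintype β] (L : ℕ) (F : Fin k → β → ℕ → ℝ) :
    ∑ s : Fin k × β × Fin (L + 1), F s.1 s.2.1 s.2.2 =
      ∑ a, ∑ b, ∑ l ∈ range (L + 1), F a b l := by
  rw [Fintype.sum_prod_type]
  refine sum_congr rfl fun a _ => ?_
  rw [Fintype.sum_prod_type]
  refine sum_congr rfl fun b _ => ?_
  rw [Finset.sum_range]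

private theorem rn_geo (L : ℕ) : ∑ c ∈ range (L + 1), Real.exp (-(2 * c * Real.log 2)) *
    (2 ^ (c + 1) + 1) ≤ 6 := by
  have h : ∀ c : ℕ, Real.exp (-(2 * c * Real.log 2)) * (2 ^ (c + 1) + 1) =
      2 * (1 / 2 : ℝ) ^ c + (1 / 4 : ℝ) ^ c := by
    intro c
    have h1 : Real.exp (-(2 * c * Real.log 2)) = (1 / 4 : ℝ) ^ c := by
      rw [Real.exp_neg, show 2 * (c : ℝ) * Real.log 2 = Real.log 2 * ((2 * c : ℕ) : ℝ) by
        push_cast; ring, ← Real.rpow_def_of_pos (by norm_num), Real.rpow_natCast, pow_mul,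
        ← inv_pow]
      norm_num
    rw [h1, pow_succ, mul_add, mul_one]
    congr 1
    rw [show (1 / 4 : ℝ) = 1 / 2 * (1 / 2) by norm_num, mul_pow]
    have h2 : (1 / 2 : ℝ) ^ c * 2 ^ c = 1 := by
      rw [← mul_pow]
      norm_num
    calc (1 / 2 : ℝ) ^ c * (1 / 2) ^ c * (2 ^ c * 2) =
        2 * (1 / 2) ^ c * ((1 / 2) ^ c * 2 ^ c) := by ring
      _ = _ := by rw [h2, mul_one]
  simp_rw [h]
  rw [sum_add_distrib, ← mul_sum]
  have h1 := sum_geometric_two_le (L + 1)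
  have h2 : ∑ c ∈ range (L + 1), (1 / 4 : ℝ) ^ c ≤ 2 := by
    refine le_trans (sum_le_sum fun c _ => ?_) h1
    exact pow_le_pow_left₀ (by norm_num) (by norm_num) c
  linarith

private theorem rn_zero {q n k : ℕ} {χ : E3 → ℝ} (r : ℝ) (j : Fin k) (w : E3) (f : E3 → ℝ) :
    ntr χ r j w f (0 : (Fin n → Fin q) → Cfg n k → ℂ) = 0 := by
  unfold ntr
  funext σ p
  simp

private theorem rn_mf0 {q n k : ℕ} (f : Cfg n k → ℝ) :
    mf f (0 : (Fin n → Fin q) → Cfg n k → ℂ) = 0 := by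
  unfold mf
  funext σ p
  simp

section

variable {n k : ℕ} {θ : E3 → ℝ} {w : E3} {β : Type} [Fintype β]
  {f : β → Cfg n k → ℝ} {M x : β → ℝ} {Cf : ℝ} {J : E3 → ℝ}

private theorem rn_smooth (hθ : Cut θ) {g : Cfg n k → ℝ}
    (hg : ContDiff ℝ (⊤ : ℕ∞) g) (hJ : ContDiff ℝ (⊤ : ℕ∞) J) (j : Fin k) (c : ℕ) :
    ContDiff ℝ (⊤ : ℕ∞) (fN θ w g J j c) := by
  have h1 : ContDiff ℝ (⊤ : ℕ∞) (fun p : Cfg n k => p.2 j) :=
    (contDiff_apply ℝ E3 j).comp contDiff_snd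
  exact hg.mul ((hJ.comp h1).mul ((zt_smooth c).comp (mj_smooth hθ w j)))

private theorem rn_bd (hθ : Cut θ) (hA : Am f M x Cf)
    (hJ1 : ∀ v, 0 ≤ J v ∧ J v ≤ 1) (p : Cfg n k) :
    ∑ s : Fin k × β × Fin (k + 1), fN θ w (f s.2.1) J s.1 s.2.2 p ^ 2 ≤
      k * ∑ b, M b ^ 2 := by
  rw [rn_sum k (fun a b l => fN θ w (f b) J a l p ^ 2)]
  calc ∑ j, ∑ b, ∑ l ∈ range (k + 1), fN θ w (f b) J j l p ^ 2 ≤
      ∑ _a : Fin k, ∑ b, M b ^ 2 := by
        refine sum_le_sum fun j _ => sum_le_sum fun b _ => ?_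
        have hk : mj θ w j p ≤ 2 ^ k := by
          refine ((mj_mem hθ w j p).2.1).trans ?_
          exact_mod_cast (Nat.lt_two_pow_self (n := k)).le
        have h1 := zt_sum k (mj θ w j p) hk
        have h2 : f b p ^ 2 ≤ M b ^ 2 := by
          rw [← sq_abs (f b p)]
          exact pow_le_pow_left₀ (abs_nonneg _) (hA.bd b p) 2
        have h3 : J (p.2 j) ^ 2 ≤ 1 := by nlinarith [(hJ1 (p.2 j)).1, (hJ1 (p.2 j)).2]
        calc ∑ l ∈ range (k + 1), fN θ w (f b) J j l p ^ 2 =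
            f b p ^ 2 * J (p.2 j) ^ 2 * ∑ l ∈ range (k + 1), zt l (mj θ w j p) ^ 2 := by
              rw [mul_sum]
              refine sum_congr rfl fun l _ => ?_
              unfold fN
              ring
          _ ≤ M b ^ 2 * 1 * 1 := by
              rw [h1]
              refine mul_le_mul_of_nonneg_right
                (mul_le_mul h2 h3 (sq_nonneg _) (sq_nonneg _)) zero_le_one
          _ = M b ^ 2 := by ring
    _ = _ := by rw [sum_const, card_univ, Fintype.card_fin, nsmul_eq_mul]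

private theorem rn_mj (j : Fin k) (p : Cfg n k) (x : Fin n → E3) :
    mj θ w j ((x, p.2) : Cfg n k) = mj θ w j p := rfl

private theorem rn_perm {g : Cfg n k → ℝ} (hg : Sy g) (j : Fin k) (c : ℕ)
    (π : Equiv.Perm (Fin n)) (p : Cfg n k) :
    fN θ w g J j c (p.1 ∘ π, p.2) = fN θ w g J j c p := by
  unfold fN
  rw [hg π p, rn_mj]

end

/-- the frame bound -/
private theorem rn_frm {q : ℕ} {χ θ : E3 → ℝ} (hχ : Bump χ) (hθ : Cut θ) {ι : Type} [Fintype ι]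
    {n k : ℕ} {Λ : Set E3} (hm : MeasurableSet Λ) (hb : Bornology.IsBounded Λ)
    {Ψ : ι → (Fin n → Fin q) → Cfg n k → ℂ} (hst : ∀ i, St q n k Λ (Ψ i)) (hort : Ort Ψ)
    {β : Type} [Fintype β] {f : β → Cfg n k → ℝ} {M x : β → ℝ} {Cf : ℝ} (hA : Am f M x Cf)
    {J : E3 → ℝ} (hJ : ContDiff ℝ (⊤ : ℕ∞) J) (hJ1 : ∀ v, 0 ≤ J v ∧ J v ≤ 1) {r : ℝ}
    (hr0 : 0 < r) (hr1 : r ≤ 1) {w : E3} (hw : Metric.closedBall w 1 ⊆ Λ) (N : ℕ) (R : ℝ)
    (h : (Fin n → Fin q) → Cfg n k → ℂ) (hh : St q n k Λ h) :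
    ∑ i, ∑ s : Fin k × β × Fin (k + 1), ∑ b : {b // b ∈ hB N R},
      Real.exp (-(x s.2.1 + 2 * (s.2.2 : ℕ) * Real.log 2 + hx b.1.1)) *
      (‖ip (ntr χ r s.1 w (hf b.1.1 b.1.2) (mf (fN θ w (f s.2.1) J s.1 s.2.2) (Ψ i))) h‖ ^ 2 /
        mass (Ψ i)) ≤
      12 * (Cf * ∫ v in Λ, J v ^ 2) * mass h := by
  set I := ∫ v in Λ, J v ^ 2 with hI
  have hI0 : 0 ≤ I := integral_nonneg fun v => sq_nonneg _
  have hmh : 0 ≤ mass h := mass_nonneg
  set Q : Fin k → ℕ → ℝ := fun j c =>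
    mean h (fun p => if ‖p.2 j - w‖ ≤ 1 / 2 then zt c (mj θ w j p) ^ 2 else 0) with hQ
  have hQ0 : ∀ j c, 0 ≤ Q j c := fun j c => mean_nonneg fun σ p _ => by
    split_ifs
    · positivity
    · exact le_rfl
  -- one index
  have h1 : ∀ (j : Fin k) (b : β) (l : ℕ) (c : ℕ × (Fin 3 → ℤ)),
      ∑ i, ‖ip (ntr χ r j w (hf c.1 c.2) (mf (fN θ w (f b) J j l) (Ψ i))) h‖ ^ 2 /
        mass (Ψ i) ≤
      M b ^ 2 * (∫ v in Λ, (hf c.1 c.2 v * J v) ^ 2) * Q j l := by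
    intro j b l c
    exact frmN hm hb hst hort j hθ (f b) (hA.smooth b) (M b) (hA.bd b) J hJ hJ1 l
      (hf c.1 c.2) (hf_meas c.1 c.2) (Real.sqrt (8 ^ c.1)) (hf_bd c.1 c.2) hχ r hr0 hr1 w hw
      h hh
  rw [sum_comm]
  have h2 : ∀ s : Fin k × β × Fin (k + 1), ∑ i, ∑ b : {b // b ∈ hB N R},
      Real.exp (-(x s.2.1 + 2 * (s.2.2 : ℕ) * Real.log 2 + hx b.1.1)) *
      (‖ip (ntr χ r s.1 w (hf b.1.1 b.1.2) (mf (fN θ w (f s.2.1) J s.1 s.2.2) (Ψ i))) h‖ ^ 2 /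
        mass (Ψ i)) ≤
      (M s.2.1 ^ 2 * Real.exp (-x s.2.1)) *
        (Real.exp (-(2 * (s.2.2 : ℕ) * Real.log 2)) * Q s.1 s.2.2) * (2 * I) := by
    rintro ⟨j, b, l⟩
    simp only
    rw [sum_comm]
    have h3 : ∀ c : {c // c ∈ hB N R}, ∑ i,
        Real.exp (-(x b + 2 * (l : ℕ) * Real.log 2 + hx c.1.1)) *
        (‖ip (ntr χ r j w (hf c.1.1 c.1.2) (mf (fN θ w (f b) J j l) (Ψ i))) h‖ ^ 2 /
          mass (Ψ i)) ≤
        (M b ^ 2 * Real.exp (-x b)) * (Real.exp (-(2 * (l : ℕ) * Real.log 2)) * Q j l) *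
          (Real.exp (-hx c.1.1) * ∫ v in Λ, (hf c.1.1 c.1.2 v * J v) ^ 2) := by
      intro c
      rw [← mul_sum]
      refine (mul_le_mul_of_nonneg_left (h1 j b l c.1) (Real.exp_pos _).le).trans
        (le_of_eq ?_)
      rw [neg_add, neg_add, Real.exp_add, Real.exp_add]
      ring
    refine (sum_le_sum fun c _ => h3 c).trans ?_
    rw [← mul_sum, Finset.sum_coe_sort (hB N R) (fun c => Real.exp (-hx c.1) *
      ∫ v in Λ, (hf c.1 c.2 v * J v) ^ 2)]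
    exact mul_le_mul_of_nonneg_left (hsum_int hm hb J hJ hJ1 N R)
      (mul_nonneg (by positivity) (mul_nonneg (Real.exp_pos _).le (hQ0 _ _)))
  refine (sum_le_sum fun s _ => h2 s).trans ?_
  rw [rn_sum k (fun j b l => (M b ^ 2 * Real.exp (-x b)) *
        (Real.exp (-(2 * (l : ℕ) * Real.log 2)) * Q j l) * (2 * I))]
  have h4 : ∑ j, ∑ b, ∑ l ∈ range (k + 1), (M b ^ 2 * Real.exp (-x b)) *
        (Real.exp (-(2 * (l : ℕ) * Real.log 2)) * Q j l) * (2 * I) =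
      (∑ b, M b ^ 2 * Real.exp (-x b)) *
        (∑ l ∈ range (k + 1), Real.exp (-(2 * (l : ℕ) * Real.log 2)) * ∑ j, Q j l) *
          (2 * I) := by
    have h5 : ∀ (b : β) (j : Fin k), ∑ l ∈ range (k + 1), (M b ^ 2 * Real.exp (-x b)) *
        (Real.exp (-(2 * (l : ℕ) * Real.log 2)) * Q j l) * (2 * I) =
        (M b ^ 2 * Real.exp (-x b)) * (∑ l ∈ range (k + 1),
        (Real.exp (-(2 * (l : ℕ) * Real.log 2)) * Q j l)) * (2 * I) := by
      intro b j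
      rw [← sum_mul, ← mul_sum]
    simp_rw [h5]
    rw [sum_comm, sum_mul, sum_mul]
    refine sum_congr rfl fun b _ => ?_
    rw [← sum_mul, ← mul_sum]
    congr 2
    rw [sum_comm]
    refine sum_congr rfl fun l _ => ?_
    rw [mul_sum]
  rw [h4]
  have hCf : 0 ≤ Cf := le_trans (sum_nonneg fun b _ => by positivity) hA.sum
  have h6 : ∑ l ∈ range (k + 1), Real.exp (-(2 * (l : ℕ) * Real.log 2)) * ∑ j, Q j l ≤
      6 * mass h := by
    refine le_trans (sum_le_sum fun l _ => mul_le_mul_of_nonneg_left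
      (frmN_sum hθ w l h (St_sm hh)) (Real.exp_pos _).le) ?_
    simp_rw [← mul_assoc]
    rw [← sum_mul]
    exact mul_le_mul_of_nonneg_right (rn_geo k) hmh
  have h7 : 0 ≤ ∑ l ∈ range (k + 1), Real.exp (-(2 * (l : ℕ) * Real.log 2)) * ∑ j, Q j l :=
    sum_nonneg fun l _ => mul_nonneg (Real.exp_pos _).le (sum_nonneg fun j _ => hQ0 _ _)
  calc _ ≤ Cf * (6 * mass h) * (2 * I) :=
        mul_le_mul_of_nonneg_right (mul_le_mul hA.sum h6 h7 hCf) (by positivity)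
    _ = _ := by ring

theorem relNw (q : ℕ) (T zm zp κm κp A Kv : ℝ) (hT : 0 ≤ T) (hzm : 0 < zm) (hκm : 0 < κm)
    {χ θ : E3 → ℝ} (hχ : Bump χ) (hθ : Cut θ) (η : ℝ) (hη : 0 < η) :
    ∃ C : ℝ, 0 ≤ C ∧
    ∀ (ι : Type) (_ : Fintype ι) (n k : ℕ) (Λ : Set E3) (z κ : Fin k → ℝ) (W : Finset E3)
    (δ : ℝ) (Ψ : ι → (Fin n → Fin q) → Cfg n k → ℂ)
    (_ : Gt q T zm zp κm κp A Kv n k Λ z κ W δ Ψ)
    (β : Type) (_ : Fintype β) (f : β → Cfg n k → ℝ) (M x : β → ℝ) (Cf : ℝ)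
    (_ : Am f M x Cf) (J : E3 → ℝ) (_ : ContDiff ℝ (⊤ : ℕ∞) J) (_ : ∀ v, 0 ≤ J v ∧ J v ≤ 1)
    (r : ℝ) (_ : 0 < r) (_ : r ≤ 1) (w : E3) (_ : Metric.closedBall w 1 ⊆ Λ),
    ∑ i, ∑ j, ∑ b, ∑ c ∈ range (k + 1), (energy z κ (mf (fN θ w (f b) J j c) (Ψ i)) -
      Efn χ r j w z κ (mf (fN θ w (f b) J j c) (Ψ i)) -
      η * (κ j * kN (mf (fN θ w (f b) J j c) (Ψ i)) j)) ≤
    C * (∑ i, ∑ j, ∑ b, ∑ c ∈ range (k + 1),
        (x b + 2 * c * Real.log 2 + 1) * mass (mf (fN θ w (f b) J j c) (Ψ i)) +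
      Cf * (∫ v in Λ, J v ^ 2) +
      (∑ i, mean (Ψ i) (fun p => ∑ j, ∑ b, ∑ c ∈ range (k + 1),
        Gm κ (fN θ w (f b) J j c) p)) +
      (k * (∑ b, M b ^ 2) + Cf * ∫ v in Λ, J v ^ 2) * δ) := by
  obtain ⟨C2, hC2, hcost⟩ := ntr_cost (η * κm / (T + 1)) (by positivity)
  refine ⟨T * (1 + C2) + 24 * T + 2 + 24, by positivity, ?_⟩
  intro ι _ n k Λ z κ W δ Ψ hG β _ f M x Cf hA J hJ hJ1 r hr0 hr1 w hw
  set I := ∫ v in Λ, J v ^ 2 with hI
  have hI0 : 0 ≤ I := integral_nonneg fun v => sq_nonneg _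
  have hCf : 0 ≤ Cf := le_trans (sum_nonneg fun b _ => by positivity) hA.sum
  have hst := hG.eq.st
  have hδ := hG.hδ
  have hκ0 : ∀ j, 0 ≤ κ j := fun j => hκm.le.trans (hG.hκ j).1
  -- bound of the positions
  obtain ⟨R, hR⟩ : ∃ R : ℝ, ∀ v ∈ Λ, ‖v‖ ≤ R := hG.hb.exists_norm_le
  -- abbreviations
  let fs : Fin k × β × Fin (k + 1) → Cfg n k → ℝ := fun s => fN θ w (f s.2.1) J s.1 s.2.2
  have hfs : ∀ s, ContDiff ℝ (⊤ : ℕ∞) (fs s) := fun s =>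
    rn_smooth hθ (hA.smooth _) hJ _ _
  have hsy : ∀ s, Sy (fs s) := fun s π p => rn_perm (hA.sy _) _ _ π p
  have hss : Sy (fun p => ∑ s, fs s p ^ 2) := by
    intro π p
    show ∑ s, fs s (p.1 ∘ π, p.2) ^ 2 = ∑ s, fs s p ^ 2
    refine sum_congr rfl fun s _ => ?_
    rw [hsy s π p]
  have hsa : ∀ i s, St q n k Λ (mf (fs s) (Ψ i)) := fun i s => mf_st (hst i) (hfs s) (hsy s)
  have hpos : ∀ i s σ p, mf (fs s) (Ψ i) σ p ≠ 0 → ‖p.2 s.1‖ ≤ R := by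
    intro i s σ p hp
    exact hR _ (((hst i).supp σ p (subset_tsupport _ (mf_ne hp).2)).2 s.1)
  have hat := fun (i : ι) (s : Fin k × β × Fin (k + 1)) (b : ℕ × (Fin 3 → ℤ)) =>
    ntr_st (hsa i s) hχ r hr0 hr1 s.1 w hw (hf b.1 b.2)
      (hf_meas b.1 b.2) (Real.sqrt (8 ^ b.1)) (hf_bd b.1 b.2)
  set C1 : ℝ := 12 * (Cf * I) with hC1
  have hC10 : 0 ≤ C1 := by positivity
  have hmain := rel1 hT hδ hκ0 hG.eq fs hfs hss (k * ∑ b, M b ^ 2)
    (mul_nonneg (Nat.cast_nonneg k) (sum_nonneg fun b _ => sq_nonneg _))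
    (rn_bd hθ hA hJ1) C1 hC10
    (∑ i, ∑ s, Efn χ r s.1 w z κ (mf (fs s) (Ψ i)))
    (∑ i, ∑ s : Fin k × β × Fin (k + 1), ((x s.2.1 + 2 * (s.2.2 : ℕ) * Real.log 2) *
      mass (mf (fs s) (Ψ i)) + (η * κm / (T + 1) * kN (mf (fs s) (Ψ i)) s.1 +
        C2 * mass (mf (fs s) (Ψ i))))) (by
    intro η' hη'
    -- the limits
    have hlm : ∀ i s, Filter.Tendsto (fun N : ℕ => ∑ b ∈ hB N R,
        mass (ntr χ r s.1 w (hf b.1 b.2) (mf (fs s) (Ψ i)))) Filter.atTop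
        (nhds (mass (mf (fs s) (Ψ i)))) := fun i s =>
      ntr_mass hχ r hr0 s.1 w (St_sm (hsa i s)) R (hpos i s)
    have hle : ∀ i s, Filter.Tendsto (fun N : ℕ => ∑ b ∈ hB N R,
        energy z κ (ntr χ r s.1 w (hf b.1 b.2) (mf (fs s) (Ψ i)))) Filter.atTop
        (nhds (Efn χ r s.1 w z κ (mf (fs s) (Ψ i)))) := fun i s =>
      ntr_energy hχ r hr0 s.1 w (St_sm (hsa i s)) R (hpos i s) z κ
    have hlE : Filter.Tendsto (fun N : ℕ => ∑ i, ∑ s, ∑ b ∈ hB N R,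
        energy z κ (ntr χ r s.1 w (hf b.1 b.2) (mf (fs s) (Ψ i)))) Filter.atTop
        (nhds (∑ i, ∑ s, Efn χ r s.1 w z κ (mf (fs s) (Ψ i)))) :=
      tendsto_finsetSum _ fun i _ => tendsto_finsetSum _ fun s _ => hle i s
    have hlX : Filter.Tendsto (fun N : ℕ => ∑ i, ∑ s : Fin k × β × Fin (k + 1),
        ((x s.2.1 + 2 * (s.2.2 : ℕ) * Real.log 2) *
        (∑ b ∈ hB N R, mass (ntr χ r s.1 w (hf b.1 b.2) (mf (fs s) (Ψ i)))) +
        (η * κm / (T + 1) * kN (mf (fs s) (Ψ i)) s.1 + C2 * mass (mf (fs s) (Ψ i)))))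
        Filter.atTop
        (nhds (∑ i, ∑ s : Fin k × β × Fin (k + 1), ((x s.2.1 + 2 * (s.2.2 : ℕ) * Real.log 2) *
        mass (mf (fs s) (Ψ i)) + (η * κm / (T + 1) * kN (mf (fs s) (Ψ i)) s.1 +
        C2 * mass (mf (fs s) (Ψ i)))))) :=
      tendsto_finsetSum _ fun i _ => tendsto_finsetSum _ fun s _ =>
        ((hlm i s).const_mul _).add_const _
    have e1 : ∀ᶠ N : ℕ in Filter.atTop, ∀ i s, |(∑ b ∈ hB N R,
        mass (ntr χ r s.1 w (hf b.1 b.2) (mf (fs s) (Ψ i)))) -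
        mass (mf (fs s) (Ψ i))| ≤ η' := by
      rw [Filter.eventually_all]
      intro i
      rw [Filter.eventually_all]
      intro s
      filter_upwards [Metric.tendsto_nhds.1 (hlm i s) η' hη'] with N hN
      rw [Real.dist_eq] at hN
      exact hN.le
    have e2 : ∀ᶠ N : ℕ in Filter.atTop, ∑ i, ∑ s, ∑ b ∈ hB N R,
        energy z κ (ntr χ r s.1 w (hf b.1 b.2) (mf (fs s) (Ψ i))) ≤
        ∑ i, ∑ s, Efn χ r s.1 w z κ (mf (fs s) (Ψ i)) + η' :=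
      hlE.eventually_le_const (by linarith)
    have e3 : ∀ᶠ N : ℕ in Filter.atTop, ∑ i, ∑ s : Fin k × β × Fin (k + 1),
        ((x s.2.1 + 2 * (s.2.2 : ℕ) * Real.log 2) *
        (∑ b ∈ hB N R, mass (ntr χ r s.1 w (hf b.1 b.2) (mf (fs s) (Ψ i)))) +
        (η * κm / (T + 1) * kN (mf (fs s) (Ψ i)) s.1 + C2 * mass (mf (fs s) (Ψ i)))) ≤
        ∑ i, ∑ s : Fin k × β × Fin (k + 1), ((x s.2.1 + 2 * (s.2.2 : ℕ) * Real.log 2) *
        mass (mf (fs s) (Ψ i)) + (η * κm / (T + 1) * kN (mf (fs s) (Ψ i)) s.1 +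
        C2 * mass (mf (fs s) (Ψ i)))) + η' :=
      hlX.eventually_le_const (by linarith)
    obtain ⟨N, hN1, hN2, hN3⟩ := (e1.and (e2.and e3)).exists
    refine ⟨{b // b ∈ hB N R}, inferInstance,
      fun i s b => ntr χ r s.1 w (hf b.1.1 b.1.2) (mf (fs s) (Ψ i)),
      fun s b => x s.2.1 + 2 * (s.2.2 : ℕ) * Real.log 2 + hx b.1.1,
      fun i s b => hat i s b.1, ?_, ?_, ?_, ?_, ?_⟩
    · intro h hh
      exact rn_frm hχ hθ hG.hm hG.hb hst hG.eq.ort hA hJ hJ1 hr0 hr1 hw N R h hh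
    · intro i s b h0
      show mass (ntr χ r s.1 w (hf b.1.1 b.1.2) (mf (fs s) (Ψ i))) = 0
      rw [mass_zero (St_sm (hst i)) h0, rn_mf0, rn_zero]
      simp [mass]
    · intro i s
      have e4 : ∑ b : {b // b ∈ hB N R},
          mass (ntr χ r s.1 w (hf b.1.1 b.1.2) (mf (fs s) (Ψ i))) =
          ∑ b ∈ hB N R, mass (ntr χ r s.1 w (hf b.1 b.2) (mf (fs s) (Ψ i))) :=
        Finset.sum_coe_sort (hB N R) (fun b =>
          mass (ntr χ r s.1 w (hf b.1 b.2) (mf (fs s) (Ψ i))))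
      rw [e4]
      exact hN1 i s
    · refine le_trans (le_of_eq (sum_congr rfl fun i _ => sum_congr rfl fun s _ => ?_)) hN2
      exact Finset.sum_coe_sort (hB N R) (fun b =>
          energy z κ (ntr χ r s.1 w (hf b.1 b.2) (mf (fs s) (Ψ i))))
    · refine le_trans (sum_le_sum fun i _ => sum_le_sum fun s _ => ?_) hN3
      have e5 : ∑ b : {b // b ∈ hB N R}, (x s.2.1 + 2 * (s.2.2 : ℕ) * Real.log 2 +
          hx b.1.1) * mass (ntr χ r s.1 w (hf b.1.1 b.1.2) (mf (fs s) (Ψ i))) =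
          ∑ b ∈ hB N R, (x s.2.1 + 2 * (s.2.2 : ℕ) * Real.log 2 + hx b.1) *
          mass (ntr χ r s.1 w (hf b.1 b.2) (mf (fs s) (Ψ i))) :=
        Finset.sum_coe_sort (hB N R) (fun b => (x s.2.1 + 2 * (s.2.2 : ℕ) * Real.log 2 +
          hx b.1) * mass (ntr χ r s.1 w (hf b.1 b.2) (mf (fs s) (Ψ i))))
      rw [e5]
      have e6 := hcost hχ r hr0 s.1 w (mf (fs s) (Ψ i)) (St_sm (hsa i s)) N R
      have e7 : ∑ b ∈ hB N R, (x s.2.1 + 2 * (s.2.2 : ℕ) * Real.log 2 + hx b.1) *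
          mass (ntr χ r s.1 w (hf b.1 b.2) (mf (fs s) (Ψ i))) =
          (x s.2.1 + 2 * (s.2.2 : ℕ) * Real.log 2) * (∑ b ∈ hB N R,
          mass (ntr χ r s.1 w (hf b.1 b.2) (mf (fs s) (Ψ i)))) +
          ∑ b ∈ hB N R, hx b.1 *
          mass (ntr χ r s.1 w (hf b.1 b.2) (mf (fs s) (Ψ i))) := by
        rw [mul_sum, ← sum_add_distrib]
        refine sum_congr rfl fun b _ => ?_
        ring
      rw [e7]
      linarith)
  -- conversion of the sums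
  have c1 : ∀ (F : ι → Fin k → β → ℕ → ℝ), ∑ i, ∑ s : Fin k × β × Fin (k + 1),
      F i s.1 s.2.1 s.2.2 = ∑ i, ∑ a, ∑ b, ∑ l ∈ range (k + 1), F i a b l := fun F =>
    sum_congr rfl fun i _ => rn_sum k (F i)
  have d1 : ∑ i, ∑ s, energy z κ (mf (fs s) (Ψ i)) =
      ∑ i, ∑ a, ∑ b, ∑ l ∈ range (k + 1), energy z κ (mf (fN θ w (f b) J a l) (Ψ i)) :=
    c1 (fun i a b l => energy z κ (mf (fN θ w (f b) J a l) (Ψ i)))
  have d2 : ∑ i, ∑ s, Efn χ r s.1 w z κ (mf (fs s) (Ψ i)) =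
      ∑ i, ∑ a, ∑ b, ∑ l ∈ range (k + 1),
      Efn χ r a w z κ (mf (fN θ w (f b) J a l) (Ψ i)) :=
    c1 (fun i a b l => Efn χ r a w z κ (mf (fN θ w (f b) J a l) (Ψ i)))
  have d3 : ∑ i, ∑ s : Fin k × β × Fin (k + 1), ((x s.2.1 + 2 * (s.2.2 : ℕ) * Real.log 2) *
      mass (mf (fs s) (Ψ i)) + (η * κm / (T + 1) * kN (mf (fs s) (Ψ i)) s.1 +
        C2 * mass (mf (fs s) (Ψ i)))) =
      ∑ i, ∑ a, ∑ b, ∑ l ∈ range (k + 1), ((x b + 2 * l * Real.log 2) *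
      mass (mf (fN θ w (f b) J a l) (Ψ i)) +
      (η * κm / (T + 1) * kN (mf (fN θ w (f b) J a l) (Ψ i)) a +
        C2 * mass (mf (fN θ w (f b) J a l) (Ψ i)))) :=
    c1 (fun i a b l => ((x b + 2 * l * Real.log 2) *
      mass (mf (fN θ w (f b) J a l) (Ψ i)) +
      (η * κm / (T + 1) * kN (mf (fN θ w (f b) J a l) (Ψ i)) a +
        C2 * mass (mf (fN θ w (f b) J a l) (Ψ i)))))
  have d4 : ∑ i, mean (Ψ i) (fun p => ∑ s, Gm κ (fs s) p) =
      ∑ i, mean (Ψ i) (fun p => ∑ a, ∑ b, ∑ l ∈ range (k + 1),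
        Gm κ (fN θ w (f b) J a l) p) := by
    refine sum_congr rfl fun i _ => ?_
    congr 1
    funext p
    exact rn_sum k (fun a b l => Gm κ (fN θ w (f b) J a l) p)
  rw [d1, d2, d3, d4] at hmain
  set GG := ∑ i, mean (Ψ i) (fun p => ∑ a, ∑ b, ∑ l ∈ range (k + 1),
        Gm κ (fN θ w (f b) J a l) p) with hGG
  have hGG0 : 0 ≤ GG := sum_nonneg fun i _ => mean_nonneg fun σ p _ =>
    sum_nonneg fun a _ => sum_nonneg fun b _ => sum_nonneg fun l _ => by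
      unfold Gm
      refine add_nonneg (sum_nonneg fun a _ => gr_nonneg _ _)
        (sum_nonneg fun j _ => mul_nonneg (hκ0 j) (gr_nonneg _ _))
  set MM := k * ∑ b, M b ^ 2 with hMM
  have hMM0 : 0 ≤ MM := mul_nonneg (Nat.cast_nonneg k) (sum_nonneg fun b _ => sq_nonneg _)
  -- the costs
  have d5 : T * ∑ i, ∑ a, ∑ b, ∑ l ∈ range (k + 1), ((x b + 2 * l * Real.log 2) *
      mass (mf (fN θ w (f b) J a l) (Ψ i)) +
      (η * κm / (T + 1) * kN (mf (fN θ w (f b) J a l) (Ψ i)) a +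
        C2 * mass (mf (fN θ w (f b) J a l) (Ψ i)))) ≤
      T * (1 + C2) * (∑ i, ∑ a, ∑ b, ∑ l ∈ range (k + 1),
        (x b + 2 * l * Real.log 2 + 1) * mass (mf (fN θ w (f b) J a l) (Ψ i))) +
      ∑ i, ∑ a, ∑ b, ∑ l ∈ range (k + 1),
        η * (κ a * kN (mf (fN θ w (f b) J a l) (Ψ i)) a) := by
    rw [mul_sum, mul_sum, ← sum_add_distrib]
    refine sum_le_sum fun i _ => ?_
    rw [mul_sum, mul_sum, ← sum_add_distrib]
    refine sum_le_sum fun a _ => ?_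
    rw [mul_sum, mul_sum, ← sum_add_distrib]
    refine sum_le_sum fun b _ => ?_
    rw [mul_sum, mul_sum, ← sum_add_distrib]
    refine sum_le_sum fun l _ => ?_
    have hm0 : 0 ≤ mass (mf (fN θ w (f b) J a l) (Ψ i)) := mass_nonneg
    have hk0 := kN_nonneg (mf (fN θ w (f b) J a l) (Ψ i)) a
    have hT1 : T * (η * κm / (T + 1)) ≤ η * κ a := by
      rw [← mul_div_assoc, div_le_iff₀ (by linarith)]
      have h1 := (hG.hκ a).1
      have h2 : η * κm ≤ η * κ a := mul_le_mul_of_nonneg_left h1 hη.le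
      have h3 : 0 ≤ η * κm := by positivity
      nlinarith [mul_le_mul_of_nonneg_left h2 hT]
    have hlog : 0 ≤ Real.log 2 := Real.log_nonneg (by norm_num)
    have hx0 := hA.xn b
    have hl0 : (0 : ℝ) ≤ l := Nat.cast_nonneg l
    have g1 : T * (η * κm / (T + 1) * kN (mf (fN θ w (f b) J a l) (Ψ i)) a) ≤
        η * (κ a * kN (mf (fN θ w (f b) J a l) (Ψ i)) a) := by
      rw [← mul_assoc, ← mul_assoc]
      exact mul_le_mul_of_nonneg_right hT1 hk0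
    have g2 : (x b + 2 * l * Real.log 2) + C2 ≤
        (1 + C2) * (x b + 2 * l * Real.log 2 + 1) := by
      nlinarith [mul_nonneg hC2 hx0, mul_nonneg hC2 (mul_nonneg hl0 hlog)]
    have g3 : T * (((x b + 2 * l * Real.log 2) + C2) *
          mass (mf (fN θ w (f b) J a l) (Ψ i))) ≤
        T * (((1 + C2) * (x b + 2 * l * Real.log 2 + 1)) *
          mass (mf (fN θ w (f b) J a l) (Ψ i))) :=
      mul_le_mul_of_nonneg_left (mul_le_mul_of_nonneg_right g2 hm0) hT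
    nlinarith [g1, g3]
  have d6 : ∑ i, ∑ a, ∑ b, ∑ l ∈ range (k + 1), (energy z κ (mf (fN θ w (f b) J a l) (Ψ i)) -
      Efn χ r a w z κ (mf (fN θ w (f b) J a l) (Ψ i)) -
      η * (κ a * kN (mf (fN θ w (f b) J a l) (Ψ i)) a)) =
      ∑ i, ∑ a, ∑ b, ∑ l ∈ range (k + 1), energy z κ (mf (fN θ w (f b) J a l) (Ψ i)) -
      ∑ i, ∑ a, ∑ b, ∑ l ∈ range (k + 1),
      Efn χ r a w z κ (mf (fN θ w (f b) J a l) (Ψ i)) -
      ∑ i, ∑ a, ∑ b, ∑ l ∈ range (k + 1),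
        η * (κ a * kN (mf (fN θ w (f b) J a l) (Ψ i)) a) := by
    simp only [sum_sub_distrib]
  rw [d6]
  have hX0 : 0 ≤ ∑ i, ∑ a, ∑ b, ∑ l ∈ range (k + 1),
        (x b + 2 * l * Real.log 2 + 1) * mass (mf (fN θ w (f b) J a l) (Ψ i)) :=
    sum_nonneg fun i _ => sum_nonneg fun a _ => sum_nonneg fun b _ => sum_nonneg fun l _ =>
      mul_nonneg (by have := hA.xn b; have := Real.log_nonneg (x := 2) (by norm_num); positivity)
        mass_nonneg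
  set XX := ∑ i, ∑ a, ∑ b, ∑ l ∈ range (k + 1),
        (x b + 2 * l * Real.log 2 + 1) * mass (mf (fN θ w (f b) J a l) (Ψ i)) with hXX
  have hCI : 0 ≤ Cf * I := mul_nonneg hCf hI0
  have t1 : 0 ≤ T * (1 + C2) * (Cf * I + GG + (MM + Cf * I) * δ) := by positivity
  have t2 : 0 ≤ 24 * T * (XX + GG + (MM + Cf * I) * δ) := by positivity
  have t3 : 0 ≤ 2 * (XX + Cf * I) := by positivity
  have t4 : 0 ≤ 24 * (XX + Cf * I + GG + MM * δ) := by positivity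
  have t5 : (T * (1 + C2) + 24 * T + 2 + 24) * (XX + Cf * I + GG + (MM + Cf * I) * δ) =
      T * (1 + C2) * XX + 24 * T * (Cf * I) + 2 * GG + 2 * (MM + Cf * I) * δ +
      24 * (Cf * I) * δ +
      (T * (1 + C2) * (Cf * I + GG + (MM + Cf * I) * δ) +
      24 * T * (XX + GG + (MM + Cf * I) * δ) + 2 * (XX + Cf * I) +
      24 * (XX + Cf * I + GG + MM * δ)) := by ring
  rw [t5]
  have t6 : 2 * (MM + C1) * δ ≤ 2 * (MM + Cf * I) * δ + 24 * (Cf * I) * δ := by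
    rw [hC1]
    have : 0 ≤ 2 * (Cf * I) * δ := by positivity
    linarith
  have t7 : 2 * T * C1 = 24 * T * (Cf * I) := by
    rw [hC1]
    ring
  rw [t7] at hmain
  linarith

end H6.CT
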