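import Pool.Agent.H6.CT.RelE
import Pool.Agent.H6.CT.RelN

/-! Relocation to the reference set: average `relE` (with `s = r0 = 1`) and `relN` (with `s = 1`) over the points `v = w ∈ W` (`Rf.sub`), and use the definition of `pr`. On the supports `∑ w ∈ W, ce p w 2` and `∑ w ∈ W, cn p w 2` are at most `16 * A * W.card` (`Rf.bd`, `16 * q4 1 p w ≥ ce p w 2 + cn p w 2`), and `log (1 + cn) ≤ cn`. -/

open MeasureTheory Finset

namespace H6.CT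

open H6.CM H6.CB H6.CL

private theorem rlw_ph_cont {χ : E3 → ℝ} (hχ : Bump χ) {n k : ℕ} (z : Fin k → ℝ) (w : E3) :
    Continuous (fun p : Cfg n k => ph χ 1 z p w) := by
  have hUc : Continuous (UU χ 1) := (UU_smooth hχ 1 one_pos).continuous
  unfold ph
  refine Continuous.sub ?_ ?_
  · refine continuous_finsetSum _ fun l _ => continuous_const.mul (hUc.comp ?_)
    exact continuous_const.sub ((continuous_apply l).comp continuous_snd)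
  · refine continuous_finsetSum _ fun a _ => hUc.comp ?_
    exact continuous_const.sub ((continuous_apply a).comp continuous_fst)

private theorem rlw_q4 {n k : ℕ} (p : Cfg n k) (w : E3) :
    ce p w 2 + cn p w 2 ≤ 16 * q4 1 p w := by
  have h : ∀ u : E3, (if ‖u - w‖ < 2 then (1 : ℝ) else 0) ≤ 16 * (max 1 ‖u - w‖ ^ 4)⁻¹ := by
    intro u
    have h0 : (0 : ℝ) < max 1 ‖u - w‖ := lt_of_lt_of_le one_pos (le_max_left _ _)
    split_ifs with h1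
    · have h2 : max 1 ‖u - w‖ ^ 4 ≤ 16 := by
        calc max 1 ‖u - w‖ ^ 4 ≤ 2 ^ 4 :=
              pow_le_pow_left₀ h0.le (max_le (by norm_num) h1.le) 4
          _ = 16 := by norm_num
      rw [← div_eq_mul_inv, le_div_iff₀ (by positivity)]
      linarith
    · positivity
  unfold q4 ce cn
  rw [mul_add, mul_sum, mul_sum]
  exact add_le_add (sum_le_sum fun a _ => h _) (sum_le_sum fun j _ => h _)

private theorem rlw_comm {α β γ ω : Type} (A : Finset α) (B : Finset β) (D : Finset γ)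
    (W : Finset ω) (F : α → β → γ → ω → ℝ) :
    ∑ w ∈ W, ∑ i ∈ A, ∑ a ∈ B, ∑ b ∈ D, F i a b w =
      ∑ i ∈ A, ∑ a ∈ B, ∑ b ∈ D, ∑ w ∈ W, F i a b w := by
  rw [sum_comm]
  refine sum_congr rfl fun i _ => ?_
  rw [sum_comm]
  refine sum_congr rfl fun a _ => ?_
  rw [sum_comm]

private theorem rlw_Gm0 {n k : ℕ} {κ : Fin k → ℝ} (hκ : ∀ j, 0 ≤ κ j) (f : Cfg n k → ℝ)
    (p : Cfg n k) : 0 ≤ Gm κ f p := by
  unfold Gm gr
  refine add_nonneg (sum_nonneg fun a _ => sum_nonneg fun d _ => sq_nonneg _)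
    (sum_nonneg fun j _ => mul_nonneg (hκ j) (sum_nonneg fun d _ => sq_nonneg _))

private theorem rlw_Cf {n k : ℕ} {β : Type} [Fintype β] {f : β → Cfg n k → ℝ} {M x : β → ℝ}
    {Cf : ℝ} (h : Am f M x Cf) : 0 ≤ Cf :=
  (sum_nonneg fun b _ => by positivity).trans h.sum

theorem relEW (q : ℕ) (T zm zp κm κp A Kv : ℝ) (hT : 0 ≤ T) (hzm : 0 < zm) (hκm : 0 < κm)
    (hA : 0 ≤ A) (hKv : 0 ≤ Kv) {χ : E3 → ℝ} (hχ : Bump χ) (η : ℝ) (hη : 0 < η) :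
    ∃ C : ℝ, 0 ≤ C ∧
    ∀ (ι : Type) (_ : Fintype ι) (n k : ℕ) (Λ : Set E3) (z κ : Fin k → ℝ) (W : Finset E3)
    (δ : ℝ) (Ψ : ι → (Fin n → Fin q) → Cfg n k → ℂ)
    (_ : Gt q T zm zp κm κp A Kv n k Λ z κ W δ Ψ)
    (β : Type) (_ : Fintype β) (f : β → Cfg n k → ℝ) (M x : β → ℝ) (Cf : ℝ)
    (_ : Am f M x Cf)
    (J : E3 → ℝ) (_ : ContDiff ℝ (⊤ : ℕ∞) J) (_ : ∀ v, 0 ≤ J v ∧ J v ≤ 1),
    ∑ i, ∑ a, ∑ b, ((1 - η) * kE (mE (f b) J a (Ψ i)) a -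
      mean (mE (f b) J a (Ψ i)) (fun p => phiE z a p (p.1 a)) +
      mean (mE (f b) J a (Ψ i)) (fun p => pr χ W z p)) ≤
    C * (∑ i, ∑ a, ∑ b, mean (mE (f b) J a (Ψ i)) (fun _ => x b + 1) +
      Cf * (∫ v in Λ, J v ^ 2) +
      (∑ i, mean (Ψ i) (fun p => ∑ a, ∑ b, Gm κ (fun p => f b p * J (p.1 a)) p)) +
      (n * (∑ b, M b ^ 2) + Cf * ∫ v in Λ, J v ^ 2) * δ) := by
  obtain ⟨C, hC, hrel⟩ := relE q T zm zp κm κp A Kv hT hzm hκm hχ η hη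
  refine ⟨C * (1 + 32 * A), by positivity, ?_⟩
  intro ι _ n k Λ z κ W δ Ψ hG β _ f M x Cf hf J hJs hJ
  -- the case of an empty family
  rcases isEmpty_or_nonempty ι with hι | ⟨⟨i0⟩⟩
  · exfalso
    have := hG.eq.one
    simp at this
  have hW := (hG.rf i0).ne
  have hWc : (0 : ℝ) < W.card := by exact_mod_cast hW.card_pos
  have hsm : ∀ i, Sm q n k Λ (Ψ i) := fun i => St_sm (hG.eq.st i)
  have hφ : ∀ i a b, Sm q n k Λ (mE (f b) J a (Ψ i)) := fun i a b =>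
    mf_sm (hsm i) ((hf.smooth b).mul (hJs.comp ((contDiff_apply ℝ E3 a).comp contDiff_fst)))
  have hκ0 : ∀ j, 0 ≤ κ j := fun j => hκm.le.trans (hG.hκ j).1
  have hCf := rlw_Cf hf
  have hI0 : 0 ≤ ∫ v in Λ, J v ^ 2 := integral_nonneg fun v => sq_nonneg _
  have hδ := hG.hδ
  obtain ⟨rest, hrest⟩ : ∃ rest : ℝ, rest = Cf * (∫ v in Λ, J v ^ 2) +
      (∑ i, mean (Ψ i) (fun p => ∑ a, ∑ b, Gm κ (fun p => f b p * J (p.1 a)) p)) +
      (n * (∑ b, M b ^ 2) + Cf * ∫ v in Λ, J v ^ 2) * δ := ⟨_, rfl⟩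
  have hrest0 : 0 ≤ rest := by
    rw [hrest]
    have h1 : 0 ≤ ∑ i, mean (Ψ i) (fun p => ∑ a, ∑ b, Gm κ (fun p => f b p * J (p.1 a)) p) :=
      sum_nonneg fun i _ => mean_nonneg fun _ p _ => sum_nonneg fun a _ => sum_nonneg fun b _ =>
        rlw_Gm0 hκ0 _ _
    positivity
  have hA1 : ∀ i a b, (W.card : ℝ) * ((1 - η) * kE (mE (f b) J a (Ψ i)) a -
      mean (mE (f b) J a (Ψ i)) (fun p => phiE z a p (p.1 a)) +
      mean (mE (f b) J a (Ψ i)) (fun p => pr χ W z p)) =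
      ∑ w ∈ W, ((1 - η) * kE (mE (f b) J a (Ψ i)) a -
      mean (mE (f b) J a (Ψ i)) (fun p => phiE z a p (p.1 a)) +
      mean (mE (f b) J a (Ψ i)) (fun p => ph χ 1 z p w)) := by
    intro i a b
    have e1 : mean (mE (f b) J a (Ψ i)) (fun p => pr χ W z p) =
        (W.card : ℝ)⁻¹ * ∑ w ∈ W, mean (mE (f b) J a (Ψ i)) (fun p => ph χ 1 z p w) := by
      unfold pr
      rw [mean_cmul, mean_sum _ fun w _ => IM.cont (hφ i a b) (rlw_ph_cont hχ z w)]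
    rw [sum_add_distrib, sum_const, nsmul_eq_mul, e1, mul_add, ← mul_assoc (W.card : ℝ),
      mul_inv_cancel₀ hWc.ne', one_mul]
  have hB1 : ∀ i a b, ∑ w ∈ W, mean (mE (f b) J a (Ψ i)) (fun p => x b +
        ((1 : ℝ) ^ 2)⁻¹ + (1 * ((1 : ℝ) ^ 3)⁻¹ + 1⁻¹) * ce p w (2 * 1)) ≤
      (W.card : ℝ) * ((1 + 32 * A) * mean (mE (f b) J a (Ψ i)) (fun _ => x b + 1)) := by
    intro i a b
    have i1 : ∀ w, IM (mE (f b) J a (Ψ i)) (fun p => x b +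
        ((1 : ℝ) ^ 2)⁻¹ + (1 * ((1 : ℝ) ^ 3)⁻¹ + 1⁻¹) * ce p w (2 * 1)) := fun w =>
      (IM.cont (hφ i a b) continuous_const).add ((IM_ce (hφ i a b) w _).cmul _)
    rw [← mean_sum _ fun w _ => i1 w, ← mean_cmul, ← mean_cmul]
    refine mean_mono (IM.sum _ fun w _ => i1 w)
      (((IM.cont (hφ i a b) continuous_const).cmul _).cmul _) fun σ p hp => ?_
    have h1 := (hG.rf i).bd σ p (mf_ne hp).2
    have h2 : ∑ w ∈ W, ce p w 2 ≤ 16 * (A * W.card) := by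
      calc ∑ w ∈ W, ce p w 2 ≤ ∑ w ∈ W, 16 * q4 1 p w :=
            sum_le_sum fun w _ => by
              have a1 := rlw_q4 p w
              have a2 := cn_nonneg p w 2
              linarith
        _ = 16 * ∑ w ∈ W, q4 1 p w := by rw [mul_sum]
        _ ≤ _ := mul_le_mul_of_nonneg_left h1 (by norm_num)
    have e1 : ∑ w ∈ W, (x b + ((1 : ℝ) ^ 2)⁻¹ + (1 * ((1 : ℝ) ^ 3)⁻¹ + 1⁻¹) * ce p w (2 * 1)) =
        W.card * (x b + 1) + 2 * ∑ w ∈ W, ce p w 2 := by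
      rw [sum_add_distrib, sum_const, nsmul_eq_mul, ← mul_sum]
      norm_num
    rw [e1]
    have hx := hf.xn b
    have h3 : 0 ≤ (W.card : ℝ) * (32 * A) * x b := by positivity
    linarith
  have hmain : ∑ w ∈ W, ∑ i, ∑ a, ∑ b, ((1 - η) * kE (mE (f b) J a (Ψ i)) a -
      mean (mE (f b) J a (Ψ i)) (fun p => phiE z a p (p.1 a)) +
      mean (mE (f b) J a (Ψ i)) (fun p => ph χ 1 z p w)) ≤
      ∑ w ∈ W, C * (∑ i, ∑ a, ∑ b, mean (mE (f b) J a (Ψ i)) (fun p => x b +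
        ((1 : ℝ) ^ 2)⁻¹ + (1 * ((1 : ℝ) ^ 3)⁻¹ + 1⁻¹) * ce p w (2 * 1)) + rest) := by
    refine sum_le_sum fun w hw => ?_
    have h1 := hrel ι _ n k Λ z κ W δ Ψ hG β _ f M x Cf hf J hJs hJ 1 1 one_pos le_rfl le_rfl w
      ((hG.rf i0).sub w hw)
    rw [hrest]
    refine h1.trans (le_of_eq ?_)
    ring
  have eL : ∑ w ∈ W, ∑ i, ∑ a, ∑ b, ((1 - η) * kE (mE (f b) J a (Ψ i)) a -
      mean (mE (f b) J a (Ψ i)) (fun p => phiE z a p (p.1 a)) +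
      mean (mE (f b) J a (Ψ i)) (fun p => ph χ 1 z p w)) =
      ∑ i, ∑ a, ∑ b, ∑ w ∈ W, ((1 - η) * kE (mE (f b) J a (Ψ i)) a -
      mean (mE (f b) J a (Ψ i)) (fun p => phiE z a p (p.1 a)) +
      mean (mE (f b) J a (Ψ i)) (fun p => ph χ 1 z p w)) := rlw_comm univ univ univ W _
  have eR : ∑ w ∈ W, ∑ i, ∑ a, ∑ b, mean (mE (f b) J a (Ψ i)) (fun p => x b +
        ((1 : ℝ) ^ 2)⁻¹ + (1 * ((1 : ℝ) ^ 3)⁻¹ + 1⁻¹) * ce p w (2 * 1)) =
      ∑ i, ∑ a, ∑ b, ∑ w ∈ W, mean (mE (f b) J a (Ψ i)) (fun p => x b +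
        ((1 : ℝ) ^ 2)⁻¹ + (1 * ((1 : ℝ) ^ 3)⁻¹ + 1⁻¹) * ce p w (2 * 1)) :=
    rlw_comm univ univ univ W _
  rw [eL, ← mul_sum, sum_add_distrib, eR] at hmain
  have hL : ∑ i, ∑ a, ∑ b, ∑ w ∈ W, ((1 - η) * kE (mE (f b) J a (Ψ i)) a -
      mean (mE (f b) J a (Ψ i)) (fun p => phiE z a p (p.1 a)) +
      mean (mE (f b) J a (Ψ i)) (fun p => ph χ 1 z p w)) =
      (W.card : ℝ) * ∑ i, ∑ a, ∑ b, ((1 - η) * kE (mE (f b) J a (Ψ i)) a -
      mean (mE (f b) J a (Ψ i)) (fun p => phiE z a p (p.1 a)) +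
      mean (mE (f b) J a (Ψ i)) (fun p => pr χ W z p)) := by
    simp only [mul_sum (a := (W.card : ℝ)), hA1]
  have hR : ∑ i, ∑ a, ∑ b, ∑ w ∈ W, mean (mE (f b) J a (Ψ i)) (fun p => x b +
        ((1 : ℝ) ^ 2)⁻¹ + (1 * ((1 : ℝ) ^ 3)⁻¹ + 1⁻¹) * ce p w (2 * 1)) ≤
      (W.card : ℝ) * ((1 + 32 * A) *
        ∑ i, ∑ a, ∑ b, mean (mE (f b) J a (Ψ i)) (fun _ => x b + 1)) := by
    simp only [mul_sum]
    exact sum_le_sum fun i _ => sum_le_sum fun a _ => sum_le_sum fun b _ => hB1 i a b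
  rw [hL, sum_const, nsmul_eq_mul] at hmain
  obtain ⟨S, hS⟩ : ∃ S : ℝ, S = ∑ i, ∑ a, ∑ b, mean (mE (f b) J a (Ψ i)) (fun _ => x b + 1) :=
    ⟨_, rfl⟩
  rw [← hS] at hR
  have hfin := hmain.trans (mul_le_mul_of_nonneg_left (add_le_add hR
    (le_refl ((W.card : ℝ) * rest))) hC)
  have e2 : ∑ i, ∑ a, ∑ b, mean (mE (f b) J a (Ψ i)) (fun _ => x b + 1) +
      Cf * (∫ v in Λ, J v ^ 2) +
      (∑ i, mean (Ψ i) (fun p => ∑ a, ∑ b, Gm κ (fun p => f b p * J (p.1 a)) p)) +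
      (n * (∑ b, M b ^ 2) + Cf * ∫ v in Λ, J v ^ 2) * δ = S + rest := by
    rw [hS, hrest]
    ring
  rw [e2]
  refine le_of_mul_le_mul_left (hfin.trans ?_) hWc
  have h5 : 0 ≤ (W.card : ℝ) * (C * (32 * A * rest)) := by positivity
  linarith

theorem relNW (q : ℕ) (T zm zp κm κp A Kv : ℝ) (hT : 0 ≤ T) (hzm : 0 < zm) (hκm : 0 < κm)
    (hA : 0 ≤ A) (hKv : 0 ≤ Kv) {χ : E3 → ℝ} (hχ : Bump χ) (η : ℝ) (hη : 0 < η) :
    ∃ C : ℝ, 0 ≤ C ∧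
    ∀ (ι : Type) (_ : Fintype ι) (n k : ℕ) (Λ : Set E3) (z κ : Fin k → ℝ) (W : Finset E3)
    (δ : ℝ) (Ψ : ι → (Fin n → Fin q) → Cfg n k → ℂ)
    (_ : Gt q T zm zp κm κp A Kv n k Λ z κ W δ Ψ)
    (β : Type) (_ : Fintype β) (f : β → Cfg n k → ℝ) (M x : β → ℝ) (Cf : ℝ)
    (_ : Am f M x Cf)
    (J : E3 → ℝ) (_ : ContDiff ℝ (⊤ : ℕ∞) J) (_ : ∀ v, 0 ≤ J v ∧ J v ≤ 1),
    ∑ i, ∑ j, ∑ b, ((1 - η) * (κ j * kN (mN (f b) J j (Ψ i)) j) +
      z j * mean (mN (f b) J j (Ψ i)) (fun p => phiN z j p (p.2 j)) -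
      z j * mean (mN (f b) J j (Ψ i)) (fun p => pr χ W z p)) ≤
    C * (∑ i, ∑ j, ∑ b, mean (mN (f b) J j (Ψ i)) (fun _ => x b + 1) +
      Cf * (∫ v in Λ, J v ^ 2) +
      (∑ i, mean (Ψ i) (fun p => ∑ j, ∑ b, Gm κ (fun p => f b p * J (p.2 j)) p)) +
      (k * (∑ b, M b ^ 2) + Cf * ∫ v in Λ, J v ^ 2) * δ) := by
  obtain ⟨C, hC, hrel⟩ := relN q T zm zp κm κp A Kv hT hzm hκm hχ η hη
  refine ⟨C * (1 + 16 * A), by positivity, ?_⟩
  intro ι _ n k Λ z κ W δ Ψ hG β _ f M x Cf hf J hJs hJ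
  rcases isEmpty_or_nonempty ι with hι | ⟨⟨i0⟩⟩
  · exfalso
    have := hG.eq.one
    simp at this
  have hW := (hG.rf i0).ne
  have hWc : (0 : ℝ) < W.card := by exact_mod_cast hW.card_pos
  have hsm : ∀ i, Sm q n k Λ (Ψ i) := fun i => St_sm (hG.eq.st i)
  have hφ : ∀ i j b, Sm q n k Λ (mN (f b) J j (Ψ i)) := fun i j b =>
    mf_sm (hsm i) ((hf.smooth b).mul (hJs.comp ((contDiff_apply ℝ E3 j).comp contDiff_snd)))
  have hκ0 : ∀ j, 0 ≤ κ j := fun j => hκm.le.trans (hG.hκ j).1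
  have hCf := rlw_Cf hf
  have hI0 : 0 ≤ ∫ v in Λ, J v ^ 2 := integral_nonneg fun v => sq_nonneg _
  have hδ := hG.hδ
  obtain ⟨rest, hrest⟩ : ∃ rest : ℝ, rest = Cf * (∫ v in Λ, J v ^ 2) +
      (∑ i, mean (Ψ i) (fun p => ∑ j, ∑ b, Gm κ (fun p => f b p * J (p.2 j)) p)) +
      (k * (∑ b, M b ^ 2) + Cf * ∫ v in Λ, J v ^ 2) * δ := ⟨_, rfl⟩
  have hrest0 : 0 ≤ rest := by
    rw [hrest]
    have h1 : 0 ≤ ∑ i, mean (Ψ i) (fun p => ∑ j, ∑ b, Gm κ (fun p => f b p * J (p.2 j)) p) :=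
      sum_nonneg fun i _ => mean_nonneg fun _ p _ => sum_nonneg fun a _ => sum_nonneg fun b _ =>
        rlw_Gm0 hκ0 _ _
    positivity
  have hA1 : ∀ i j b, (W.card : ℝ) * ((1 - η) * (κ j * kN (mN (f b) J j (Ψ i)) j) +
      z j * mean (mN (f b) J j (Ψ i)) (fun p => phiN z j p (p.2 j)) -
      z j * mean (mN (f b) J j (Ψ i)) (fun p => pr χ W z p)) =
      ∑ w ∈ W, ((1 - η) * (κ j * kN (mN (f b) J j (Ψ i)) j) +
      z j * mean (mN (f b) J j (Ψ i)) (fun p => phiN z j p (p.2 j)) -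
      z j * mean (mN (f b) J j (Ψ i)) (fun p => ph χ 1 z p w)) := by
    intro i j b
    have e1 : mean (mN (f b) J j (Ψ i)) (fun p => pr χ W z p) =
        (W.card : ℝ)⁻¹ * ∑ w ∈ W, mean (mN (f b) J j (Ψ i)) (fun p => ph χ 1 z p w) := by
      unfold pr
      rw [mean_cmul, mean_sum _ fun w _ => IM.cont (hφ i j b) (rlw_ph_cont hχ z w)]
    rw [sum_sub_distrib, sum_const, nsmul_eq_mul, e1, mul_sub, ← mul_sum]
    congr 1
    field_simp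
  have hB1 : ∀ i j b, ∑ w ∈ W, mean (mN (f b) J j (Ψ i)) (fun p => x b +
        ((1 : ℝ) ^ 2)⁻¹ + Real.log (1 + cn p w 2)) ≤
      (W.card : ℝ) * ((1 + 16 * A) * mean (mN (f b) J j (Ψ i)) (fun _ => x b + 1)) := by
    intro i j b
    have hlog : ∀ (p : Cfg n k) (w : E3), 0 ≤ Real.log (1 + cn p w 2) ∧
        Real.log (1 + cn p w 2) ≤ cn p w 2 := by
      intro p w
      have h1 := cn_nonneg p w 2
      refine ⟨Real.log_nonneg (by linarith), ?_⟩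
      have h2 := Real.log_le_sub_one_of_pos (by linarith : 0 < 1 + cn p w 2)
      linarith
    have i0 : ∀ w, IM (mN (f b) J j (Ψ i)) (fun p => Real.log (1 + cn p w 2)) := fun w =>
      IM.dom ((Real.measurable_log.comp (measurable_const.add (cn_meas w 2))))
        (IM_cn (hφ i j b) w 2) (hφ i j b) fun p => by
          rw [abs_of_nonneg (hlog p w).1]
          exact (hlog p w).2
    have i1 : ∀ w, IM (mN (f b) J j (Ψ i)) (fun p => x b +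
        ((1 : ℝ) ^ 2)⁻¹ + Real.log (1 + cn p w 2)) := fun w =>
      (IM.cont (hφ i j b) continuous_const).add (i0 w)
    rw [← mean_sum _ fun w _ => i1 w, ← mean_cmul, ← mean_cmul]
    refine mean_mono (IM.sum _ fun w _ => i1 w)
      (((IM.cont (hφ i j b) continuous_const).cmul _).cmul _) fun σ p hp => ?_
    have h1 := (hG.rf i).bd σ p (mf_ne hp).2
    have h2 : ∑ w ∈ W, Real.log (1 + cn p w 2) ≤ 16 * (A * W.card) := by
      calc ∑ w ∈ W, Real.log (1 + cn p w 2) ≤ ∑ w ∈ W, 16 * q4 1 p w :=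
            sum_le_sum fun w _ => by
              have a1 := rlw_q4 p w
              have a2 := ce_nonneg p w 2
              have a3 := (hlog p w).2
              linarith
        _ = 16 * ∑ w ∈ W, q4 1 p w := by rw [mul_sum]
        _ ≤ _ := mul_le_mul_of_nonneg_left h1 (by norm_num)
    have e1 : ∑ w ∈ W, (x b + ((1 : ℝ) ^ 2)⁻¹ + Real.log (1 + cn p w 2)) =
        W.card * (x b + 1) + ∑ w ∈ W, Real.log (1 + cn p w 2) := by
      rw [sum_add_distrib, sum_const, nsmul_eq_mul]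
      norm_num
    rw [e1]
    have hx := hf.xn b
    have h3 : 0 ≤ (W.card : ℝ) * (16 * A) * x b := by positivity
    linarith
  have hmain : ∑ w ∈ W, ∑ i, ∑ j, ∑ b, ((1 - η) * (κ j * kN (mN (f b) J j (Ψ i)) j) +
      z j * mean (mN (f b) J j (Ψ i)) (fun p => phiN z j p (p.2 j)) -
      z j * mean (mN (f b) J j (Ψ i)) (fun p => ph χ 1 z p w)) ≤
      ∑ w ∈ W, C * (∑ i, ∑ j, ∑ b, mean (mN (f b) J j (Ψ i)) (fun p => x b +
        ((1 : ℝ) ^ 2)⁻¹ + Real.log (1 + cn p w 2)) + rest) := by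
    refine sum_le_sum fun w hw => ?_
    have h1 := hrel ι _ n k Λ z κ W δ Ψ hG β _ f M x Cf hf J hJs hJ 1 one_pos le_rfl w
      ((hG.rf i0).sub w hw)
    rw [hrest]
    refine h1.trans (le_of_eq ?_)
    ring
  have eL : ∑ w ∈ W, ∑ i, ∑ j, ∑ b, ((1 - η) * (κ j * kN (mN (f b) J j (Ψ i)) j) +
      z j * mean (mN (f b) J j (Ψ i)) (fun p => phiN z j p (p.2 j)) -
      z j * mean (mN (f b) J j (Ψ i)) (fun p => ph χ 1 z p w)) =
      ∑ i, ∑ j, ∑ b, ∑ w ∈ W, ((1 - η) * (κ j * kN (mN (f b) J j (Ψ i)) j) +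
      z j * mean (mN (f b) J j (Ψ i)) (fun p => phiN z j p (p.2 j)) -
      z j * mean (mN (f b) J j (Ψ i)) (fun p => ph χ 1 z p w)) := rlw_comm univ univ univ W _
  have eR : ∑ w ∈ W, ∑ i, ∑ j, ∑ b, mean (mN (f b) J j (Ψ i)) (fun p => x b +
        ((1 : ℝ) ^ 2)⁻¹ + Real.log (1 + cn p w 2)) =
      ∑ i, ∑ j, ∑ b, ∑ w ∈ W, mean (mN (f b) J j (Ψ i)) (fun p => x b +
        ((1 : ℝ) ^ 2)⁻¹ + Real.log (1 + cn p w 2)) :=
    rlw_comm univ univ univ W _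
  rw [eL, ← mul_sum, sum_add_distrib, eR] at hmain
  have hL : ∑ i, ∑ j, ∑ b, ∑ w ∈ W, ((1 - η) * (κ j * kN (mN (f b) J j (Ψ i)) j) +
      z j * mean (mN (f b) J j (Ψ i)) (fun p => phiN z j p (p.2 j)) -
      z j * mean (mN (f b) J j (Ψ i)) (fun p => ph χ 1 z p w)) =
      (W.card : ℝ) * ∑ i, ∑ j, ∑ b, ((1 - η) * (κ j * kN (mN (f b) J j (Ψ i)) j) +
      z j * mean (mN (f b) J j (Ψ i)) (fun p => phiN z j p (p.2 j)) -
      z j * mean (mN (f b) J j (Ψ i)) (fun p => pr χ W z p)) := by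
    simp only [mul_sum (a := (W.card : ℝ)), hA1]
  have hR : ∑ i, ∑ j, ∑ b, ∑ w ∈ W, mean (mN (f b) J j (Ψ i)) (fun p => x b +
        ((1 : ℝ) ^ 2)⁻¹ + Real.log (1 + cn p w 2)) ≤
      (W.card : ℝ) * ((1 + 16 * A) *
        ∑ i, ∑ j, ∑ b, mean (mN (f b) J j (Ψ i)) (fun _ => x b + 1)) := by
    simp only [mul_sum]
    exact sum_le_sum fun i _ => sum_le_sum fun a _ => sum_le_sum fun b _ => hB1 i a b
  rw [hL, sum_const, nsmul_eq_mul] at hmain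
  obtain ⟨S, hS⟩ : ∃ S : ℝ, S = ∑ i, ∑ j, ∑ b, mean (mN (f b) J j (Ψ i)) (fun _ => x b + 1) :=
    ⟨_, rfl⟩
  rw [← hS] at hR
  have hfin := hmain.trans (mul_le_mul_of_nonneg_left (add_le_add hR
    (le_refl ((W.card : ℝ) * rest))) hC)
  have e2 : ∑ i, ∑ j, ∑ b, mean (mN (f b) J j (Ψ i)) (fun _ => x b + 1) +
      Cf * (∫ v in Λ, J v ^ 2) +
      (∑ i, mean (Ψ i) (fun p => ∑ j, ∑ b, Gm κ (fun p => f b p * J (p.2 j)) p)) +
      (k * (∑ b, M b ^ 2) + Cf * ∫ v in Λ, J v ^ 2) * δ = S + rest := by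
    rw [hS, hrest]
    ring
  rw [e2]
  refine le_of_mul_le_mul_left (hfin.trans ?_) hWc
  have h5 : 0 ≤ (W.card : ℝ) * (C * (16 * A * rest)) := by positivity
  linarith

end H6.CT
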