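import Pool.Agent.H6.CT.Defs
import Pool.Agent.H6.CB.Lib

/-! Rotated states. The map `p ↦ (U ∘ p.1, U ∘ p.2)` is a measure preserving linear isomorphism of the configuration space (a product of the measure preserving maps `U`: `LinearIsometryEquiv.measurePreserving`, `MeasureTheory.volume_preserving_pi`). The squared gradient `g3 (f ∘ U) v = g3 f (U v)` is invariant: it is the sum of `‖fderiv ℝ f (U v) (U e_d)‖ ^ 2` over an orthonormal basis `U e_d`, i.e. the Hilbert-Schmidt norm of a real linear map from `E3` to `ℂ`, which does not depend on the orthonormal basis (expand `U e_d` in the standard basis; orthogonality of the matrix of `U`). Distances are preserved, so `V` is. `rW_eqs`: masses, energies and inner products are preserved, and the minimality is an inequality for the number `FE`. -/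

open MeasureTheory Finset

namespace H6.CT

open H6.CM H6.CB H6.CL

/-- the rotated wave function -/
noncomputable def rW {q n k : ℕ} (U : E3 ≃ₗᵢ[ℝ] E3) (ψ : (Fin n → Fin q) → Cfg n k → ℂ) :
    (Fin n → Fin q) → Cfg n k → ℂ :=
  fun σ p => ψ σ (fun a => U (p.1 a), fun j => U (p.2 j))

/-- the rotation of a configuration as a homeomorphism -/
private noncomputable def RH (n k : ℕ) (U : E3 ≃ₗᵢ[ℝ] E3) : Cfg n k ≃ₜ Cfg n k where
  toFun p := (fun a => U (p.1 a), fun j => U (p.2 j))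
  invFun p := (fun a => U.symm (p.1 a), fun j => U.symm (p.2 j))
  left_inv p := by simp
  right_inv p := by simp
  continuous_toFun := by
    refine Continuous.prodMk ?_ ?_
    · exact continuous_pi fun a => U.continuous.comp ((continuous_apply a).comp continuous_fst)
    · exact continuous_pi fun a => U.continuous.comp ((continuous_apply a).comp continuous_snd)
  continuous_invFun := by
    refine Continuous.prodMk ?_ ?_
    · exact continuous_pi fun a =>
        U.symm.continuous.comp ((continuous_apply a).comp continuous_fst)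
    · exact continuous_pi fun a =>
        U.symm.continuous.comp ((continuous_apply a).comp continuous_snd)

private theorem RH_mp (n k : ℕ) (U : E3 ≃ₗᵢ[ℝ] E3) :
    MeasurePreserving (RH n k U).toMeasurableEquiv := by
  have h1 : MeasurePreserving (fun x : Fin n → E3 => fun a => U (x a)) :=
    volume_preserving_pi fun _ => U.measurePreserving
  have h2 : MeasurePreserving (fun x : Fin k → E3 => fun a => U (x a)) :=
    volume_preserving_pi fun _ => U.measurePreserving
  exact h1.prod h2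

private theorem RH_int {V : Type*} [NormedAddCommGroup V] [NormedSpace ℝ V] (n k : ℕ)
    (U : E3 ≃ₗᵢ[ℝ] E3) (g : Cfg n k → V) :
    ∫ p : Cfg n k, g (fun a => U (p.1 a), fun j => U (p.2 j)) = ∫ p, g p :=
  (RH_mp n k U).integral_comp' g

private theorem ro_smooth {n k : ℕ} (U : E3 ≃ₗᵢ[ℝ] E3) : ContDiff ℝ (⊤ : ℕ∞)
    (fun p : Cfg n k => ((fun a => U (p.1 a), fun j => U (p.2 j)) : Cfg n k)) := by
  have hU : ContDiff ℝ (⊤ : ℕ∞) (fun v : E3 => U v) := U.contDiff
  refine ContDiff.prodMk ?_ ?_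
  · exact contDiff_pi.2 fun a => hU.comp ((contDiff_apply ℝ E3 a).comp contDiff_fst)
  · exact contDiff_pi.2 fun a => hU.comp ((contDiff_apply ℝ E3 a).comp contDiff_snd)

private theorem ro_lin (U : E3 ≃ₗᵢ[ℝ] E3) (l : E3 →L[ℝ] ℝ) :
    ∑ d : Fin 3, (l (U (EuclideanSpace.single d 1))) ^ 2 =
      ∑ d : Fin 3, (l (EuclideanSpace.single d 1)) ^ 2 := by
  obtain ⟨w, hw⟩ : ∃ w : E3, ∀ x, l x = inner ℝ w x :=
    ⟨(InnerProductSpace.toDual ℝ E3).symm l, fun x => by
      rw [InnerProductSpace.toDual_symm_apply]⟩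
  have h1 := ((EuclideanSpace.basisFun (Fin 3) ℝ).map U).sum_sq_norm_inner_left w
  have h2 := (EuclideanSpace.basisFun (Fin 3) ℝ).sum_sq_norm_inner_left w
  have e1 : ∀ d, (l (U (EuclideanSpace.single d 1))) ^ 2 =
      ‖inner ℝ w (((EuclideanSpace.basisFun (Fin 3) ℝ).map U) d)‖ ^ 2 := by
    intro d
    rw [hw, Real.norm_eq_abs, sq_abs, OrthonormalBasis.map_apply, EuclideanSpace.basisFun_apply]
  have e2 : ∀ d, (l (EuclideanSpace.single d 1)) ^ 2 =
      ‖inner ℝ w ((EuclideanSpace.basisFun (Fin 3) ℝ) d)‖ ^ 2 := by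
    intro d
    rw [hw, Real.norm_eq_abs, sq_abs, EuclideanSpace.basisFun_apply]
  simp only [e1, e2]
  rw [h1, h2]

private theorem ro_linC (U : E3 ≃ₗᵢ[ℝ] E3) (L : E3 →L[ℝ] ℂ) :
    ∑ d : Fin 3, ‖L (U (EuclideanSpace.single d 1))‖ ^ 2 =
      ∑ d : Fin 3, ‖L (EuclideanSpace.single d 1)‖ ^ 2 := by
  have e : ∀ x : E3, ‖L x‖ ^ 2 = ((Complex.reCLM.comp L) x) ^ 2 + ((Complex.imCLM.comp L) x) ^ 2 := by
    intro x
    rw [← Complex.normSq_eq_norm_sq, Complex.normSq_apply]
    simp only [ContinuousLinearMap.comp_apply, Complex.reCLM_apply, Complex.imCLM_apply]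
    ring
  simp only [e, sum_add_distrib]
  rw [ro_lin U (Complex.reCLM.comp L), ro_lin U (Complex.imCLM.comp L)]

private theorem ro_g3 (U : E3 ≃ₗᵢ[ℝ] E3) (f : E3 → ℂ) (v : E3)
    (hf : DifferentiableAt ℝ f (U v)) : g3 (fun v => f (U v)) v = g3 f (U v) := by
  have h1 : HasFDerivAt (fun v => f (U v))
      ((fderiv ℝ f (U v)).comp (U.toContinuousLinearEquiv : E3 →L[ℝ] E3)) v :=
    hf.hasFDerivAt.comp v (U.toContinuousLinearEquiv.hasFDerivAt)
  unfold g3
  rw [h1.fderiv]
  exact ro_linC U (fderiv ℝ f (U v))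

private theorem ro_upd {m : ℕ} (U : E3 ≃ₗᵢ[ℝ] E3) (x : Fin m → E3) (a : Fin m) (v : E3) :
    (fun b => U (Function.update x a v b)) = Function.update (fun b => U (x b)) a (U v) := by
  funext b
  by_cases h : b = a
  · subst h
    simp
  · rw [Function.update_of_ne h, Function.update_of_ne h]

private theorem ro_ge {n k : ℕ} (U : E3 ≃ₗᵢ[ℝ] E3) (F : Cfg n k → ℂ)
    (hF : Differentiable ℝ F) (a : Fin n) (p : Cfg n k) :
    ge (fun p => F (fun a => U (p.1 a), fun j => U (p.2 j))) a p =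
      ge F a (fun a => U (p.1 a), fun j => U (p.2 j)) := by
  obtain ⟨x, hx⟩ : ∃ x : Fin n → E3, x = fun b => U (p.1 b) := ⟨_, rfl⟩
  obtain ⟨y, hy⟩ : ∃ y : Fin k → E3, y = fun b => U (p.2 b) := ⟨_, rfl⟩
  obtain ⟨f, hf⟩ : ∃ f : E3 → ℂ, f = fun w => F (Function.update x a w, y) := ⟨_, rfl⟩
  have hG : Differentiable ℝ (fun w : E3 => ((Function.update x a w, y) : Cfg n k)) := fun w =>
    (hasFDerivAt_update _ _).differentiableAt.prodMk (differentiableAt_const _)
  have hK : Differentiable ℝ f := by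
    rw [hf]
    exact hF.comp hG
  have e1 : ge (fun p => F (fun a => U (p.1 a), fun j => U (p.2 j))) a p =
      g3 (fun v => f (U v)) (p.1 a) := by
    unfold ge
    congr 1
    funext v
    rw [hf, hx, hy]
    simp only
    rw [ro_upd]
  have e2 : ge F a (fun a => U (p.1 a), fun j => U (p.2 j)) = g3 f (U (p.1 a)) := by
    rw [← hx, ← hy, hf]
    unfold ge
    simp only
    rw [hx]
  rw [e1, e2]
  exact ro_g3 U f (p.1 a) (hK _)

private theorem ro_gn {n k : ℕ} (U : E3 ≃ₗᵢ[ℝ] E3) (F : Cfg n k → ℂ)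
    (hF : Differentiable ℝ F) (a : Fin k) (p : Cfg n k) :
    gn (fun p => F (fun a => U (p.1 a), fun j => U (p.2 j))) a p =
      gn F a (fun a => U (p.1 a), fun j => U (p.2 j)) := by
  obtain ⟨x, hx⟩ : ∃ x : Fin n → E3, x = fun b => U (p.1 b) := ⟨_, rfl⟩
  obtain ⟨y, hy⟩ : ∃ y : Fin k → E3, y = fun b => U (p.2 b) := ⟨_, rfl⟩
  obtain ⟨f, hf⟩ : ∃ f : E3 → ℂ, f = fun w => F (x, Function.update y a w) := ⟨_, rfl⟩
  have hG : Differentiable ℝ (fun w : E3 => ((x, Function.update y a w) : Cfg n k)) := fun w =>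
    (differentiableAt_const _).prodMk (hasFDerivAt_update _ _).differentiableAt
  have hK : Differentiable ℝ f := by
    rw [hf]
    exact hF.comp hG
  have e1 : gn (fun p => F (fun a => U (p.1 a), fun j => U (p.2 j))) a p =
      g3 (fun v => f (U v)) (p.2 a) := by
    unfold gn
    congr 1
    funext v
    rw [hf, hx, hy]
    simp only
    rw [ro_upd]
  have e2 : gn F a (fun a => U (p.1 a), fun j => U (p.2 j)) = g3 f (U (p.2 a)) := by
    rw [← hx, ← hy, hf]
    unfold gn
    simp only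
    rw [hy]
  rw [e1, e2]
  exact ro_g3 U f (p.2 a) (hK _)

private theorem ro_V {n k : ℕ} (U : E3 ≃ₗᵢ[ℝ] E3) (z : Fin k → ℝ) (p : Cfg n k) :
    V z ((fun a => U (p.1 a), fun j => U (p.2 j)) : Cfg n k) = V z p := by
  unfold V
  simp only [← map_sub, LinearIsometryEquiv.norm_map]

section

variable {q n k : ℕ} (U : E3 ≃ₗᵢ[ℝ] E3)

theorem rW_st {R : ℝ} {ψ : (Fin n → Fin q) → Cfg n k → ℂ}
    (h : St q n k (Metric.ball 0 R) ψ) : St q n k (Metric.ball 0 R) (rW U ψ) := by
  refine ⟨fun σ => (h.smooth σ).comp (ro_smooth U), fun σ => ?_, fun σ p hp => ?_,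
    fun π σ p => h.anti π σ (fun a => U (p.1 a), fun j => U (p.2 j))⟩
  · exact (h.cpt σ).comp_homeomorph (RH n k U)
  · have h1 : (fun a => U (p.1 a), fun j => U (p.2 j)) ∈ tsupport (ψ σ) :=
      tsupport_comp_subset_preimage (ψ σ) (RH n k U).continuous hp
    obtain ⟨h2, h3⟩ := h.supp σ _ h1
    refine ⟨fun a => ?_, fun j => ?_⟩
    · have h4 := h2 a
      simp only [Metric.mem_ball, dist_zero_right, LinearIsometryEquiv.norm_map] at h4 ⊢
      exact h4
    · have h4 := h3 j
      simp only [Metric.mem_ball, dist_zero_right, LinearIsometryEquiv.norm_map] at h4 ⊢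
      exact h4

theorem rW_mean (ψ : (Fin n → Fin q) → Cfg n k → ℂ) (F : Cfg n k → ℝ) :
    mean (rW U ψ) F = mean ψ (fun p => F (fun a => U.symm (p.1 a), fun j => U.symm (p.2 j))) := by
  unfold mean rW
  refine sum_congr rfl fun σ _ => ?_
  rw [← RH_int n k U (fun p => F (fun a => U.symm (p.1 a), fun j => U.symm (p.2 j)) *
    ‖ψ σ p‖ ^ 2)]
  simp only [LinearIsometryEquiv.symm_apply_apply]

theorem rW_mass (ψ : (Fin n → Fin q) → Cfg n k → ℂ) : mass (rW U ψ) = mass ψ := by
  have h1 := rW_mean U ψ (fun _ => 1)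
  rw [mean_one, mean_one] at h1
  exact h1

theorem rW_ip (φ ψ : (Fin n → Fin q) → Cfg n k → ℂ) :
    ip (rW U φ) (rW U ψ) = ip φ ψ := by
  unfold ip rW
  refine sum_congr rfl fun σ _ => ?_
  exact RH_int n k U (fun p => (starRingEnd ℂ) (φ σ p) * ψ σ p)

theorem rW_energy {Λ : Set E3} {ψ : (Fin n → Fin q) → Cfg n k → ℂ} (h : Sm q n k Λ ψ)
    (z κ : Fin k → ℝ) : energy z κ (rW U ψ) = energy z κ ψ := by
  have hd : ∀ σ, Differentiable ℝ (ψ σ) := fun σ => (h.smooth σ).differentiable (by simp)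
  have h1 : ∀ a, kE (rW U ψ) a = kE ψ a := by
    intro a
    unfold kE rW
    refine sum_congr rfl fun σ _ => ?_
    rw [← RH_int n k U (ge (ψ σ) a)]
    refine integral_congr_ae (Filter.Eventually.of_forall fun p => ?_)
    exact ro_ge U (ψ σ) (hd σ) a p
  have h2 : ∀ a, kN (rW U ψ) a = kN ψ a := by
    intro a
    unfold kN rW
    refine sum_congr rfl fun σ _ => ?_
    rw [← RH_int n k U (gn (ψ σ) a)]
    refine integral_congr_ae (Filter.Eventually.of_forall fun p => ?_)
    exact ro_gn U (ψ σ) (hd σ) a p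
  have h3 : mean (rW U ψ) (V z) = mean ψ (V z) := by
    rw [rW_mean]
    congr 1
    funext p
    exact ro_V U.symm z p
  unfold energy
  rw [h3]
  simp only [h1, h2]

theorem rW_eqs {ι : Type} [Fintype ι] {T δ R : ℝ} {z κ : Fin k → ℝ}
    {Ψ : ι → (Fin n → Fin q) → Cfg n k → ℂ} (h : Eqs T δ (Metric.ball 0 R) z κ Ψ) :
    Eqs T δ (Metric.ball 0 R) z κ (fun i => rW U (Ψ i)) := by
  have hE : ∀ i, energy z κ (rW U (Ψ i)) = energy z κ (Ψ i) := fun i =>
    rW_energy U (St_sm (h.st i)) z κ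
  have hM : ∀ i, mass (rW U (Ψ i)) = mass (Ψ i) := fun i => rW_mass U (Ψ i)
  refine ⟨fun i => rW_st U (h.st i), fun i j hij => ?_, ?_, fun m Φ h1 h2 h3 => ?_⟩
  · simp only [rW_ip]
    exact h.ort i j hij
  · simp only [hM]
    exact h.one
  · have h4 : FE T z κ (fun i => rW U (Ψ i)) = FE T z κ Ψ := by
      unfold FE
      simp only [hE, hM]
    rw [h4]
    exact h.min m Φ h1 h2 h3

end

end H6.CT
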