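import Pool.Agent.H6.CT.PinT
import Pool.Agent.H6.CT.RotT
import Pool.Agent.H6.CB.UhF

/-! The smeared mean potential of an equilibrium state in a ball is almost rotation invariant. If `‖x‖ = ‖y‖` there is a linear isometry with `U x = y` (a reflection, `reflection_sub`; the identity if `x = y`). `ph χ s z` of the rotated configuration at `x` is `ph χ s z p` at the rotated point (`UU χ s` is radial: `UU_scale` and the radial symmetry of `χ`, or substitution in the integral defining `UU`). `|ph χ s z p x| ≤ C * n * s⁻¹` (`UU_bd`, `∑ z j = n`). Apply `pinT` to `Ψ` and the rotated state (`rW_eqs`, `rW_mean`). -/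

open MeasureTheory Finset

namespace H6.CT

open H6.CM H6.CB H6.CL

private theorem rp_chr {χ : E3 → ℝ} (hχ : Bump χ) (s : ℝ) (u v : E3) (huv : ‖u‖ = ‖v‖) :
    chr χ s u = chr χ s v := by
  unfold chr
  rw [hχ.radial (s⁻¹ • u) (s⁻¹ • v) (by rw [norm_smul, norm_smul, huv])]

private theorem rp_U {χ : E3 → ℝ} (hχ : Bump χ) (s : ℝ) (T : E3 ≃ₗᵢ[ℝ] E3) (w : E3) :
    U (chr χ s) (T w) = U (chr χ s) w := by
  have hmp := T.measurePreserving
  have h1 := hmp.integral_comp T.toMeasurableEquiv.measurableEmbedding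
    (fun u : E3 => chr χ s u ^ 2 * ‖T w - u‖⁻¹)
  unfold U
  rw [← h1]
  refine integral_congr_ae (Filter.Eventually.of_forall fun u => ?_)
  show chr χ s (T u) ^ 2 * ‖T w - T u‖⁻¹ = chr χ s u ^ 2 * ‖w - u‖⁻¹
  rw [← map_sub, T.norm_map, rp_chr hχ s (T u) u (T.norm_map u)]

theorem UU_rad {χ : E3 → ℝ} (hχ : Bump χ) (s : ℝ) (u v : E3) (h : ‖u‖ = ‖v‖) :
    UU χ s u = UU χ s v := by
  obtain ⟨T, hT⟩ : ∃ T : E3 ≃ₗᵢ[ℝ] E3, T u = v := ⟨_, Submodule.reflection_sub h⟩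
  have hmp := T.measurePreserving
  have h1 := hmp.integral_comp T.toMeasurableEquiv.measurableEmbedding
    (fun w : E3 => chr χ s w ^ 2 * U (chr χ s) (v - w))
  unfold UU
  rw [← h1]
  refine integral_congr_ae (Filter.Eventually.of_forall fun w => ?_)
  show chr χ s w ^ 2 * U (chr χ s) (u - w) = chr χ s (T w) ^ 2 * U (chr χ s) (v - T w)
  rw [← hT, ← map_sub, rp_U hχ, rp_chr hχ s (T w) w (T.norm_map w)]

theorem rotP {χ : E3 → ℝ} (hχ : Bump χ) : ∃ C : ℝ, 0 ≤ C ∧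
    ∀ (ι : Type) (_ : Fintype ι) (q n k : ℕ) (R T δ : ℝ) (_ : 0 < T) (z κ : Fin k → ℝ)
    (_ : ∀ j, 0 ≤ z j) (_ : ∑ j, z j = n) (Ψ : ι → (Fin n → Fin q) → Cfg n k → ℂ)
    (_ : Eqs T δ (Metric.ball 0 R) z κ Ψ) (s : ℝ) (_ : 0 < s) (x y : E3)
    (_ : ‖x‖ = ‖y‖),
    |mM Ψ (fun p => ph χ s z p x) - mM Ψ (fun p => ph χ s z p y)| ≤
      C * (n * s⁻¹) * Real.sqrt (δ / T) := by
  obtain ⟨C, hC, hb⟩ := UU_bd hχ
  refine ⟨12 * C, by positivity, ?_⟩
  intro ι _ q n k R T δ hT z κ hz hzn Ψ hΨ s hs x y hxy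
  obtain ⟨L, hL⟩ : ∃ L : E3 ≃ₗᵢ[ℝ] E3, L x = y := ⟨_, Submodule.reflection_sub hxy⟩
  have hbd : ∀ p : Cfg n k, |ph χ s z p x| ≤ 2 * n * (C * s⁻¹) := by
    intro p
    have hp : ∀ y, 0 ≤ UU χ s y ∧ UU χ s y ≤ C * s⁻¹ := fun y =>
      ⟨UU_nonneg hχ s hs y, hb s hs y⟩
    have e1 : 0 ≤ ∑ j, z j * UU χ s (x - p.2 j) :=
      sum_nonneg fun j _ => mul_nonneg (hz j) (hp _).1
    have e2 : ∑ j, z j * UU χ s (x - p.2 j) ≤ n * (C * s⁻¹) := by
      rw [← hzn, sum_mul]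
      exact sum_le_sum fun j _ => mul_le_mul_of_nonneg_left (hp _).2 (hz j)
    have e3 : 0 ≤ ∑ a, UU χ s (x - p.1 a) := sum_nonneg fun a _ => (hp _).1
    have e4 : ∑ a, UU χ s (x - p.1 a) ≤ n * (C * s⁻¹) := by
      refine (sum_le_card_nsmul univ _ (C * s⁻¹) fun a _ => (hp _).2).trans_eq ?_
      rw [card_univ, Fintype.card_fin, nsmul_eq_mul]
    unfold ph
    rw [abs_le]
    constructor <;> linarith
  have h1 := pinT hT hΨ (rW_eqs L hΨ) (fun p => ph χ s z p x)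
    (ph_smooth hχ s hs z x).continuous.measurable _ hbd
  have h2 : mM (fun i => rW L (Ψ i)) (fun p => ph χ s z p x) =
      mM Ψ (fun p => ph χ s z p y) := by
    unfold mM
    refine sum_congr rfl fun i _ => ?_
    rw [rW_mean]
    congr 1
    funext p
    unfold ph
    have hq : ∀ v : E3, UU χ s (x - L.symm v) = UU χ s (y - v) := by
      intro v
      refine UU_rad hχ s _ _ ?_
      rw [← L.norm_map (x - L.symm v), map_sub, hL, L.apply_symm_apply]
    simp only [hq]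
  rw [h2] at h1
  refine h1.trans (le_of_eq ?_)
  ring

end H6.CT
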