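import Pool.Agent.H6.CT.Sm1T
import Pool.Agent.H6.CB.WwLe

/-! Sum of `sm1T` over the sectors `g = Gs θ x l`, `s = sc l`, `γ = C * 64⁻ˡ`, `lam = l * log 64`, integrated over `v` in the ball of radius `12` around `x`: as `ww_le` in `Pool/Agent/H6/CB/WwLe.lean` (with the mixed state in place of `ψ`); `∑ exp (-lam) ≤ 2` and `l ^ 2 ≤ C (1 + mm ^ (4/3))` where `Gs θ x l p ≠ 0`. -/

open MeasureTheory Finset

namespace H6.CT

open H6.CM H6.CB H6.CL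

/-! ### integrals of the inverse fourth power -/

private theorem wt_F_int : Integrable (fun w : E3 => (max 1 ‖w‖ ^ 4)⁻¹) := by
  have h1 : Integrable (fun w : E3 => (1 + ‖w‖) ^ (-(4 : ℝ))) :=
    integrable_one_add_norm (by rw [finrank_euclideanSpace, Fintype.card_fin]; norm_num)
  have hc : Continuous (fun w : E3 => (max 1 ‖w‖ ^ 4)⁻¹) := by
    refine Continuous.inv₀ ((continuous_const.max continuous_norm).pow 4) fun w => ?_
    have : 0 < max 1 ‖w‖ := lt_max_of_lt_left one_pos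
    positivity
  refine (h1.const_mul 16).mono' hc.aestronglyMeasurable (Filter.Eventually.of_forall fun w => ?_)
  have h2 : 0 < max 1 ‖w‖ := lt_max_of_lt_left one_pos
  rw [Real.norm_of_nonneg (by positivity), Real.rpow_neg (by positivity)]
  have h3 : (1 + ‖w‖) ^ (4 : ℝ) = (1 + ‖w‖) ^ 4 := by
    rw [← Real.rpow_natCast]
    norm_num
  rw [h3]
  have h4 : 1 + ‖w‖ ≤ 2 * max 1 ‖w‖ := by
    have h5 := le_max_left 1 ‖w‖
    have h6 := le_max_right 1 ‖w‖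
    linarith
  have h5 : (1 + ‖w‖) ^ 4 ≤ (2 * max 1 ‖w‖) ^ 4 := pow_le_pow_left₀ (by positivity) h4 4
  rw [← one_div, ← div_eq_mul_inv, div_le_div_iff₀ (by positivity) (by positivity)]
  calc 1 * (1 + ‖w‖) ^ 4 ≤ (2 * max 1 ‖w‖) ^ 4 := by rw [one_mul]; exact h5
    _ = 16 * max 1 ‖w‖ ^ 4 := by ring

private theorem wt_T (s : ℝ) (hs : 0 < s) (y : E3) :
    Integrable (fun v : E3 => (max s ‖y - v‖ ^ 4)⁻¹) ∧
    ∫ v : E3, (max s ‖y - v‖ ^ 4)⁻¹ = s⁻¹ * ∫ w : E3, (max 1 ‖w‖ ^ 4)⁻¹ := by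
  obtain ⟨H, hH⟩ : ∃ H : E3 → ℝ, H = fun u : E3 => (s ^ 4)⁻¹ *
    (fun w : E3 => (max 1 ‖w‖ ^ 4)⁻¹) (s⁻¹ • u) := ⟨_, rfl⟩
  have e1 : (fun v : E3 => (max s ‖y - v‖ ^ 4)⁻¹) = fun v => H (y - v) := by
    funext v
    rw [hH]
    simp only
    rw [norm_smul, Real.norm_of_nonneg (inv_nonneg.2 hs.le)]
    have h1 : max s ‖y - v‖ = s * max 1 (s⁻¹ * ‖y - v‖) := by
      rw [mul_max_of_nonneg _ _ hs.le, mul_one, mul_inv_cancel_left₀ hs.ne']
    rw [h1, mul_pow, mul_inv]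
  have h1 : Integrable H := by
    rw [hH]
    exact (wt_F_int.comp_smul (inv_ne_zero hs.ne')).const_mul _
  rw [e1]
  refine ⟨h1.comp_sub_left y, ?_⟩
  have h2 := Measure.integral_comp_inv_smul (volume : Measure E3)
    (fun w : E3 => (max 1 ‖w‖ ^ 4)⁻¹) s
  rw [finrank_euclideanSpace, Fintype.card_fin, abs_of_pos (by positivity), smul_eq_mul] at h2
  have h3 : ∫ u : E3, H u = (s ^ 4)⁻¹ *
      ∫ u : E3, (fun w : E3 => (max 1 ‖w‖ ^ 4)⁻¹) (s⁻¹ • u) := by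
    rw [hH]
    exact integral_const_mul _ _
  rw [integral_sub_left_eq_self H volume y, h3, h2]
  field_simp

private theorem wt_J : ∃ C : ℝ, 0 ≤ C ∧ ∀ (s : ℝ) (_ : 0 < s) (y x : E3),
    ∫ v in Metric.ball x 12, (max s ‖y - v‖ ^ 4)⁻¹ ≤
      C * (s⁻¹ * (if ‖y - x‖ < 14 then 1 else 0) +
        (if ‖y - x‖ < 13 then 0 else (‖y - x‖ ^ 4)⁻¹)) := by
  obtain ⟨I, hI⟩ : ∃ I : ℝ, I = ∫ w : E3, (max 1 ‖w‖ ^ 4)⁻¹ := ⟨_, rfl⟩
  obtain ⟨Vv, hV⟩ : ∃ Vv : ℝ, Vv = (volume : Measure E3).real (Metric.ball 0 12) := ⟨_, rfl⟩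
  have hI0 : 0 ≤ I := by
    rw [hI]
    exact integral_nonneg fun w => by positivity
  have hV0 : 0 ≤ Vv := by
    rw [hV]
    exact measureReal_nonneg
  refine ⟨I + 13 ^ 4 * Vv, by positivity, fun s hs y x => ?_⟩
  obtain ⟨h1, h2⟩ := wt_T s hs y
  rw [← hI] at h2
  have hs' : 0 < s⁻¹ := inv_pos.2 hs
  by_cases h13 : ‖y - x‖ < 13
  · rw [if_pos (by linarith), if_pos h13, mul_one, add_zero]
    have h3 : ∫ v in Metric.ball x 12, (max s ‖y - v‖ ^ 4)⁻¹ ≤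
        ∫ v : E3, (max s ‖y - v‖ ^ 4)⁻¹ :=
      setIntegral_le_integral h1 (Filter.Eventually.of_forall fun v => by positivity)
    rw [h2] at h3
    nlinarith [mul_nonneg (mul_nonneg (by norm_num : (0 : ℝ) ≤ 13 ^ 4) hV0) hs'.le]
  · rw [if_neg h13]
    push Not at h13
    have hy0 : 0 < ‖y - x‖ := by linarith
    have h3 : ∀ v ∈ Metric.ball x 12, (max s ‖y - v‖ ^ 4)⁻¹ ≤ 13 ^ 4 * (‖y - x‖ ^ 4)⁻¹ := by
      intro v hv
      rw [Metric.mem_ball, dist_eq_norm] at hv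
      have h4 : ‖y - x‖ ≤ ‖y - v‖ + ‖v - x‖ := norm_sub_le_norm_sub_add_norm_sub _ _ _
      have h5 : ‖y - x‖ / 13 ≤ ‖y - v‖ := by linarith
      have h6 : ‖y - x‖ / 13 ≤ max s ‖y - v‖ := h5.trans (le_max_right _ _)
      have h7 : (‖y - x‖ / 13) ^ 4 ≤ max s ‖y - v‖ ^ 4 := pow_le_pow_left₀ (by positivity) h6 4
      calc (max s ‖y - v‖ ^ 4)⁻¹ ≤ ((‖y - x‖ / 13) ^ 4)⁻¹ := inv_anti₀ (by positivity) h7
        _ = 13 ^ 4 * (‖y - x‖ ^ 4)⁻¹ := by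
          rw [div_pow]
          field_simp
    have h4 : ∫ v in Metric.ball x 12, (max s ‖y - v‖ ^ 4)⁻¹ ≤
        ∫ _v in Metric.ball x 12, 13 ^ 4 * (‖y - x‖ ^ 4)⁻¹ := by
      refine setIntegral_mono_on h1.integrableOn
        (integrableOn_const (hs := measure_ball_lt_top.ne)) measurableSet_ball h3
    have h5 : ∫ _v in Metric.ball x 12, 13 ^ 4 * (‖y - x‖ ^ 4)⁻¹ =
        Vv * (13 ^ 4 * (‖y - x‖ ^ 4)⁻¹) := by
      rw [setIntegral_const, smul_eq_mul, hV]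
      congr 1
      unfold Measure.real
      rw [Measure.addHaar_ball_center]
    rw [h5] at h4
    have h6 : 0 ≤ (‖y - x‖ ^ 4)⁻¹ := by positivity
    have h7 : (0 : ℝ) ≤ s⁻¹ * (if ‖y - x‖ < 14 then 1 else 0) := by positivity
    have h8 : 0 ≤ (I + 13 ^ 4 * Vv) * (s⁻¹ * (if ‖y - x‖ < 14 then 1 else 0)) := by positivity
    have h9 : 0 ≤ I * (‖y - x‖ ^ 4)⁻¹ := by positivity
    nlinarith

private theorem wt_q4 : ∃ C : ℝ, 0 ≤ C ∧ ∀ (n k : ℕ) (s : ℝ) (_ : 0 < s) (p : Cfg n k) (x : E3),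
    ∫ v in Metric.ball x 12, q4 s p v ≤ C * (s⁻¹ * (ce p x 14 + cn p x 14) + tl 13 p x) := by
  obtain ⟨C, hC, hJ⟩ := wt_J
  refine ⟨C, hC, fun n k s hs p x => ?_⟩
  have hi : ∀ y : E3, IntegrableOn (fun v => (max s ‖y - v‖ ^ 4)⁻¹) (Metric.ball x 12) :=
    fun y => (wt_T s hs y).1.integrableOn
  unfold q4
  rw [integral_add (integrable_finsetSum _ fun a _ => hi _)
    (integrable_finsetSum _ fun j _ => hi _), integral_finsetSum _ fun a _ => hi _,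
    integral_finsetSum _ fun j _ => hi _]
  have h1 := sum_le_sum fun a (_ : a ∈ (univ : Finset (Fin n))) => hJ s hs (p.1 a) x
  have h2 := sum_le_sum fun j (_ : j ∈ (univ : Finset (Fin k))) => hJ s hs (p.2 j) x
  rw [← mul_sum, sum_add_distrib, ← mul_sum] at h1 h2
  unfold ce cn tl
  linarith

/-! ### the sectors -/

private theorem wt_sc (l : ℕ) : 0 < sc l ∧ sc l ≤ 1 ∧ (sc l)⁻¹ = 2 ^ (l + 3) := by
  unfold sc
  refine ⟨by positivity, ?_, inv_inv _⟩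
  apply inv_le_one_of_one_le₀
  exact one_le_pow₀ (by norm_num)

private theorem wt_pow (m : ℕ) (t : ℝ) (ht : (64 : ℝ) ^ m ≤ t) :
    (2 : ℝ) ^ m ≤ t ^ (1 / 6 : ℝ) ∧ ((2 : ℝ) ^ m) ^ 8 ≤ t ^ (4 / 3 : ℝ) := by
  have h64 : (64 : ℝ) ^ m = ((2 : ℝ) ^ m) ^ 6 := by
    rw [← pow_mul, mul_comm, pow_mul]
    norm_num
  have hp : (0 : ℝ) ≤ 2 ^ m := by positivity
  have h6 : ∀ e : ℝ, ((64 : ℝ) ^ m) ^ e = ((2 : ℝ) ^ m) ^ (6 * e) := by
    intro e
    rw [h64, ← Real.rpow_natCast ((2 : ℝ) ^ m) 6, ← Real.rpow_mul hp]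
    norm_num
  constructor
  · have h1 : ((64 : ℝ) ^ m) ^ (1 / 6 : ℝ) = 2 ^ m := by
      rw [h6]
      norm_num
    rw [← h1]
    exact Real.rpow_le_rpow (by positivity) ht (by norm_num)
  · have h1 : ((64 : ℝ) ^ m) ^ (4 / 3 : ℝ) = ((2 : ℝ) ^ m) ^ 8 := by
      rw [h6, ← Real.rpow_natCast ((2 : ℝ) ^ m) 8]
      norm_num
    rw [← h1]
    exact Real.rpow_le_rpow (by positivity) ht (by norm_num)

private theorem wt_mm0 {n k : ℕ} (θ : E3 → ℝ) (x : E3) (p : Cfg n k) : 0 ≤ mm θ x p :=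
  sum_nonneg fun a _ => sq_nonneg _

private theorem wt_sec {n k : ℕ} {θ : E3 → ℝ} (hθ : Cut θ) (x : E3) (l : ℕ) (p : Cfg n k)
    (hl : Gs θ x l p ≠ 0) : (sc l)⁻¹ ≤ 16 * (1 + mm θ x p ^ (1 / 6 : ℝ)) ∧
    (sc l ^ 8)⁻¹ ≤ 2 ^ 32 * (1 + mm θ x p ^ (4 / 3 : ℝ)) ∧ (sc l)⁻¹ ≤ 16 * ((n : ℝ) + 1) := by
  have hm0 := wt_mm0 θ x p
  have hr1 : 0 ≤ mm θ x p ^ (1 / 6 : ℝ) := Real.rpow_nonneg hm0 _
  have hr2 : 0 ≤ mm θ x p ^ (4 / 3 : ℝ) := Real.rpow_nonneg hm0 _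
  have hn0 : (0 : ℝ) ≤ n := Nat.cast_nonneg n
  rw [← inv_pow, (wt_sc l).2.2]
  cases l with
  | zero =>
    norm_num
    refine ⟨by linarith, ?_, by linarith⟩
    nlinarith
  | succ m =>
    have h1 := gl_lo m (mm θ x p) hl
    obtain ⟨h2, h3⟩ := wt_pow m (mm θ x p) h1.le
    have e1 : (2 : ℝ) ^ (m + 1 + 3) = 16 * 2 ^ m := by ring
    rw [e1]
    refine ⟨by nlinarith, ?_, ?_⟩
    · rw [mul_pow]
      norm_num
      nlinarith
    · have h4 : mm θ x p ≤ n := (mm_hi hθ x p).trans (ce_le p x 64)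
      have h5 : (2 : ℝ) ^ m ≤ 64 ^ m := pow_le_pow_left₀ (by norm_num) (by norm_num) m
      nlinarith

/-! ### measurability and integrability -/

private theorem wt_ce_meas {n k : ℕ} (r : ℝ) :
    Measurable (fun u : Cfg n k × E3 => ce u.1 u.2 r) := by
  unfold ce
  refine Finset.measurable_fun_sum _ fun a _ => ?_
  have h1 : Measurable (fun u : Cfg n k × E3 => ‖u.1.1 a - u.2‖) :=
    (((continuous_apply a).comp (continuous_fst.comp continuous_fst)).sub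
      continuous_snd).norm.measurable
  exact Measurable.ite (measurableSet_lt h1 measurable_const) measurable_const measurable_const

private theorem wt_q4_cont {n k : ℕ} (s : ℝ) (hs : 0 < s) :
    Continuous (fun u : Cfg n k × E3 => q4 s u.1 u.2) := by
  unfold q4
  have hpos : ∀ y : E3, max s ‖y‖ ^ 4 ≠ 0 := fun y => by
    have : 0 < max s ‖y‖ := lt_max_of_lt_left hs
    positivity
  refine Continuous.add (continuous_finsetSum _ fun a _ => ?_)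
    (continuous_finsetSum _ fun j _ => ?_)
  · exact Continuous.inv₀ ((continuous_const.max (((continuous_apply a).comp
      (continuous_fst.comp continuous_fst)).sub continuous_snd).norm).pow 4) fun u => hpos _
  · exact Continuous.inv₀ ((continuous_const.max (((continuous_apply j).comp
      (continuous_snd.comp continuous_fst)).sub continuous_snd).norm).pow 4) fun u => hpos _

private theorem wt_q4_bd {n k : ℕ} (s : ℝ) (hs : 0 < s) (p : Cfg n k) (v : E3) :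
    0 ≤ q4 s p v ∧ q4 s p v ≤ (n + k) * (s ^ 4)⁻¹ := by
  have h1 : ∀ y : E3, 0 ≤ (max s ‖y‖ ^ 4)⁻¹ ∧ (max s ‖y‖ ^ 4)⁻¹ ≤ (s ^ 4)⁻¹ := by
    intro y
    refine ⟨by positivity, inv_anti₀ (by positivity) (pow_le_pow_left₀ hs.le (le_max_left _ _) 4)⟩
  unfold q4
  constructor
  · exact add_nonneg (sum_nonneg fun a _ => (h1 _).1) (sum_nonneg fun a _ => (h1 _).1)
  · have e1 := sum_le_card_nsmul (univ : Finset (Fin n)) (fun a => (max s ‖p.1 a - v‖ ^ 4)⁻¹)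
      _ fun a _ => (h1 (p.1 a - v)).2
    have e2 := sum_le_card_nsmul (univ : Finset (Fin k)) (fun a => (max s ‖p.2 a - v‖ ^ 4)⁻¹)
      _ fun a _ => (h1 (p.2 a - v)).2
    rw [card_univ, Fintype.card_fin, nsmul_eq_mul] at e1 e2
    linarith

private theorem wt_tl_meas {n k : ℕ} (x : E3) : Measurable (fun p : Cfg n k => tl 13 p x) := by
  unfold tl
  refine Measurable.add (Finset.measurable_fun_sum _ fun a _ => ?_)
    (Finset.measurable_fun_sum _ fun j _ => ?_)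
  · have h1 : Measurable (fun p : Cfg n k => ‖p.1 a - x‖) := ((meas_e a).sub_const x).norm
    exact Measurable.ite (measurableSet_lt h1 measurable_const) measurable_const
      (h1.pow_const 4).inv
  · have h1 : Measurable (fun p : Cfg n k => ‖p.2 j - x‖) := ((meas_n j).sub_const x).norm
    exact Measurable.ite (measurableSet_lt h1 measurable_const) measurable_const
      (h1.pow_const 4).inv

private theorem wt_tl_bd {n k : ℕ} (p : Cfg n k) (x : E3) :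
    0 ≤ tl 13 p x ∧ tl 13 p x ≤ n + k := by
  have h1 : ∀ y : E3, 0 ≤ (if ‖y‖ < 13 then 0 else (‖y‖ ^ 4)⁻¹) ∧
      (if ‖y‖ < 13 then 0 else (‖y‖ ^ 4)⁻¹) ≤ 1 := by
    intro y
    split_ifs with h
    · norm_num
    · push Not at h
      refine ⟨by positivity, inv_le_one_of_one_le₀ (one_le_pow₀ (by linarith))⟩
  unfold tl
  constructor
  · exact add_nonneg (sum_nonneg fun a _ => (h1 _).1) (sum_nonneg fun a _ => (h1 _).1)
  · have e1 := sum_le_card_nsmul (univ : Finset (Fin n))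
      (fun a => if ‖p.1 a - x‖ < 13 then 0 else (‖p.1 a - x‖ ^ 4)⁻¹) 1 fun a _ => (h1 (p.1 a - x)).2
    have e2 := sum_le_card_nsmul (univ : Finset (Fin k))
      (fun a => if ‖p.2 a - x‖ < 13 then 0 else (‖p.2 a - x‖ ^ 4)⁻¹) 1 fun a _ => (h1 (p.2 a - x)).2
    rw [card_univ, Fintype.card_fin, nsmul_eq_mul, mul_one] at e1 e2
    linarith

private theorem wt_IM {q n k : ℕ} {Λ : Set E3} {ψ : (Fin n → Fin q) → Cfg n k → ℂ}
    (hψ : Sm q n k Λ ψ) {g : Cfg n k → ℝ} (hg : Continuous g)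
    (hg1 : ∀ p, 0 ≤ g p ∧ g p ≤ 1) {F : Cfg n k → ℝ} (hF : IM ψ F) :
    IM ψ (fun p => g p ^ 2 * F p) := by
  refine hF.bmul (hg.pow 2).measurable 1 fun p => ?_
  rw [abs_of_nonneg (sq_nonneg _)]
  exact pow_le_one₀ (hg1 p).1 (hg1 p).2

private theorem wt_int3 (x : E3) (c : ℝ) (f g : E3 → ℝ) (hf : IntegrableOn f (Metric.ball x 12))
    (hg : IntegrableOn g (Metric.ball x 12)) :
    IntegrableOn (fun v => c + f v + g v) (Metric.ball x 12) ∧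
    ∫ v in Metric.ball x 12, (c + f v + g v) = c * (volume : Measure E3).real (Metric.ball 0 12) +
      (∫ v in Metric.ball x 12, f v) + ∫ v in Metric.ball x 12, g v := by
  have hc : IntegrableOn (fun _ : E3 => c) (Metric.ball x 12) :=
    integrableOn_const (hs := measure_ball_lt_top.ne)
  refine ⟨(hc.add hf).add hg, ?_⟩
  have h1 : ∫ v in Metric.ball x 12, (c + f v + g v) =
      (∫ v in Metric.ball x 12, (c + f v)) + ∫ v in Metric.ball x 12, g v :=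
    integral_add (hc.add hf) hg
  have h2 : ∫ v in Metric.ball x 12, (c + f v) =
      (∫ _v in Metric.ball x 12, c) + ∫ v in Metric.ball x 12, f v := integral_add hc hf
  have e5 : (volume : Measure E3).real (Metric.ball x 12) =
      (volume : Measure E3).real (Metric.ball 0 12) := by
    unfold Measure.real
    rw [Measure.addHaar_ball_center]
  rw [h1, h2, setIntegral_const, smul_eq_mul, e5, mul_comm]

/-! ### calculus of expectations in mixed states -/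

section mixed

variable {ι : Type} [Fintype ι] {q n k : ℕ} {Ψ : ι → (Fin n → Fin q) → Cfg n k → ℂ}

private theorem wt_add {F G : Cfg n k → ℝ} (hF : ∀ i, IM (Ψ i) F) (hG : ∀ i, IM (Ψ i) G) :
    mM Ψ (fun p => F p + G p) = mM Ψ F + mM Ψ G := by
  unfold mM
  rw [← sum_add_distrib]
  exact sum_congr rfl fun i _ => mean_add (hF i) (hG i)

private theorem wt_cmul (c : ℝ) (F : Cfg n k → ℝ) :
    mM Ψ (fun p => c * F p) = c * mM Ψ F := by
  unfold mM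
  rw [mul_sum]
  exact sum_congr rfl fun i _ => mean_cmul c F

private theorem wt_congr {F G : Cfg n k → ℝ} (h : ∀ p, F p = G p) : mM Ψ F = mM Ψ G := by
  unfold mM
  exact sum_congr rfl fun i _ => mean_congr fun σ p _ => h p

private theorem wt_mono {F G : Cfg n k → ℝ} (hF : ∀ i, IM (Ψ i) F) (hG : ∀ i, IM (Ψ i) G)
    (h : ∀ p, F p ≤ G p) : mM Ψ F ≤ mM Ψ G := by
  unfold mM
  exact sum_le_sum fun i _ => mean_mono (hF i) (hG i) fun σ p _ => h p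

private theorem wt_nonneg {F : Cfg n k → ℝ} (h : ∀ p, 0 ≤ F p) : 0 ≤ mM Ψ F := by
  unfold mM
  exact sum_nonneg fun i _ => mean_nonneg fun σ p _ => h p

private theorem wt_const (c : ℝ) (h1 : ∑ i, mass (Ψ i) = 1) : mM Ψ (fun _ => c) = c := by
  unfold mM
  have e1 : ∀ i ∈ (univ : Finset ι), mean (Ψ i) (fun _ => c) = c * mass (Ψ i) :=
    fun i _ => mean_const c
  rw [sum_congr rfl e1, ← mul_sum, h1, mul_one]

end mixed

/-- one sector -/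
private theorem wt_term {ι : Type} [Fintype ι] {q n k : ℕ} {Λ : Set E3}
    {Ψ : ι → (Fin n → Fin q) → Cfg n k → ℂ}
    (hψ : ∀ i, Sm q n k Λ (Ψ i)) (x : E3) {g : Cfg n k → ℝ} (hg : Continuous g)
    (hg1 : ∀ p, 0 ≤ g p ∧ g p ≤ 1) {s : ℝ} (hs : 0 < s) {u : Cfg n k × E3 → ℝ}
    (hu : Continuous u) {M : ℝ} (hM : ∀ p v, |u (p, v)| ≤ M) {A a C1 C2 : ℝ} (hC1 : 0 ≤ C1)
    (h1 : ∀ v ∈ Metric.ball x 12, mM Ψ (fun p => g p ^ 2 * u (p, v) ^ 2) ≤
      C1 * (a + mM Ψ (fun p => g p ^ 2 * (1 + A ^ 2 + (s ^ 8)⁻¹ +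
        (s ^ 2)⁻¹ * ce p v (2 * s) ^ 2 + q4 s p v))))
    (h2 : ∀ p : Cfg n k, ∫ v in Metric.ball x 12, q4 s p v ≤
      C2 * (s⁻¹ * (ce p x 14 + cn p x 14) + tl 13 p x)) :
    ∑ i, ∫ v in Metric.ball x 12, mean (Ψ i) (fun p => g p ^ 2 * u (p, v) ^ 2) ≤
      C1 * ((a + mM Ψ (fun p => g p ^ 2 * (1 + A ^ 2 + (s ^ 8)⁻¹))) *
        (volume : Measure E3).real (Metric.ball 0 12) +
        (∑ i, ∫ v in Metric.ball x 12,
          mean (Ψ i) (fun p => g p ^ 2 * ((s ^ 2)⁻¹ * ce p v (7 * s) ^ 2))) +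
        mM Ψ (fun p => g p ^ 2 * (C2 * (s⁻¹ * (ce p x 14 + cn p x 14) + tl 13 p x)))) := by
  have hgm : Measurable (fun w : Cfg n k × E3 => g w.1 ^ 2) :=
    ((hg.comp continuous_fst).pow 2).measurable
  have hg2 : ∀ p, 0 ≤ g p ^ 2 ∧ g p ^ 2 ≤ 1 := fun p =>
    ⟨sq_nonneg _, pow_le_one₀ (hg1 p).1 (hg1 p).2⟩
  have hce : ∀ (r : ℝ) (p : Cfg n k) (v : E3), 0 ≤ (s ^ 2)⁻¹ * ce p v r ^ 2 ∧
      (s ^ 2)⁻¹ * ce p v r ^ 2 ≤ (s ^ 2)⁻¹ * n ^ 2 := by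
    intro r p v
    refine ⟨by positivity, mul_le_mul_of_nonneg_left ?_ (by positivity)⟩
    exact pow_le_pow_left₀ (ce_nonneg p v r) (ce_le p v r) 2
  have habs : ∀ (p : Cfg n k) (t T : ℝ), 0 ≤ t → t ≤ T → |g p ^ 2 * t| ≤ T := by
    intro p t T h0 hT
    rw [abs_of_nonneg (mul_nonneg (hg2 p).1 h0)]
    calc g p ^ 2 * t ≤ 1 * t := mul_le_mul_of_nonneg_right (hg2 p).2 h0
      _ ≤ T := by rw [one_mul]; exact hT
  -- the left side
  have b1 := fun i => mean_ball (hψ i) x 12 (F := fun v p => g p ^ 2 * u (p, v) ^ 2)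
    (hgm.mul (hu.pow 2).measurable) (G := fun _ => M ^ 2) continuous_const
    (fun v _ p => habs p _ _ (sq_nonneg _) (by
      rw [← sq_abs]
      exact pow_le_pow_left₀ (abs_nonneg _) (hM p v) 2))
  have hm3 : ∀ r : ℝ, Measurable (fun w : Cfg n k × E3 =>
      g w.1 ^ 2 * ((s ^ 2)⁻¹ * ce w.1 w.2 r ^ 2)) := fun r =>
    hgm.mul (((wt_ce_meas r).pow_const 2).const_mul _)
  have b3 := fun i => mean_ball (hψ i) x 12
    (F := fun v p => g p ^ 2 * ((s ^ 2)⁻¹ * ce p v (7 * s) ^ 2))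
    (hm3 (7 * s)) (G := fun _ => (s ^ 2)⁻¹ * n ^ 2) continuous_const
    (fun v _ p => habs p _ _ (hce _ p v).1 (hce _ p v).2)
  have b4 := fun i => mean_ball (hψ i) x 12 (F := fun v p => g p ^ 2 * q4 s p v)
    (hgm.mul (wt_q4_cont s hs).measurable) (G := fun _ => (n + k) * (s ^ 4)⁻¹) continuous_const
    (fun v _ p => habs p _ _ (wt_q4_bd s hs p v).1 (wt_q4_bd s hs p v).2)
  -- pointwise in v
  have i0 : ∀ i, IM (Ψ i) (fun p => g p ^ 2 * (1 + A ^ 2 + (s ^ 8)⁻¹)) := fun i =>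
    IM.cont (hψ i) ((hg.pow 2).mul continuous_const)
  have i2 : ∀ (r : ℝ) (v : E3) (i : ι), IM (Ψ i) (fun p => g p ^ 2 *
      ((s ^ 2)⁻¹ * ce p v r ^ 2)) := by
    intro r v i
    refine IM.bdd (hψ i) ?_ ((s ^ 2)⁻¹ * n ^ 2) fun p => habs p _ _ (hce r p v).1 (hce r p v).2
    exact (hg.pow 2).measurable.mul (((ce_meas v r).pow_const 2).const_mul _)
  have i4 : ∀ (v : E3) (i : ι), IM (Ψ i) (fun p => g p ^ 2 * q4 s p v) := by
    intro v i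
    have hc : Continuous (fun p : Cfg n k => (p, v)) := by fun_prop
    have hq : Continuous (fun p : Cfg n k => q4 s p v) :=
      Continuous.comp (g := fun u : Cfg n k × E3 => q4 s u.1 u.2) (f := fun p => (p, v))
        (wt_q4_cont s hs) hc
    have hgq : Continuous (fun p : Cfg n k => g p ^ 2 * q4 s p v) := (hg.pow 2).mul hq
    exact IM.cont (hψ i) hgq
  have h3 : ∀ v ∈ Metric.ball x 12, mM Ψ (fun p => g p ^ 2 * u (p, v) ^ 2) ≤
      C1 * (a + mM Ψ (fun p => g p ^ 2 * (1 + A ^ 2 + (s ^ 8)⁻¹)) +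
        mM Ψ (fun p => g p ^ 2 * ((s ^ 2)⁻¹ * ce p v (7 * s) ^ 2)) +
        mM Ψ (fun p => g p ^ 2 * q4 s p v)) := by
    intro v hv
    refine (h1 v hv).trans (mul_le_mul_of_nonneg_left ?_ hC1)
    have e1 : mM Ψ (fun p => g p ^ 2 * (1 + A ^ 2 + (s ^ 8)⁻¹ +
        (s ^ 2)⁻¹ * ce p v (2 * s) ^ 2 + q4 s p v)) =
        mM Ψ (fun p => g p ^ 2 * (1 + A ^ 2 + (s ^ 8)⁻¹)) +
        mM Ψ (fun p => g p ^ 2 * ((s ^ 2)⁻¹ * ce p v (2 * s) ^ 2)) +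
        mM Ψ (fun p => g p ^ 2 * q4 s p v) := by
      rw [← wt_add i0 (i2 _ v), ← wt_add (fun i => (i0 i).add (i2 _ v i)) (i4 v)]
      refine wt_congr fun p => ?_
      ring
    have e2 : mM Ψ (fun p => g p ^ 2 * ((s ^ 2)⁻¹ * ce p v (2 * s) ^ 2)) ≤
        mM Ψ (fun p => g p ^ 2 * ((s ^ 2)⁻¹ * ce p v (7 * s) ^ 2)) := by
      refine wt_mono (i2 _ v) (i2 _ v) fun p => ?_
      refine mul_le_mul_of_nonneg_left (mul_le_mul_of_nonneg_left ?_ (by positivity)) (hg2 p).1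
      refine pow_le_pow_left₀ (ce_nonneg p v _) (ce_mono p ?_) 2
      rw [sub_self, norm_zero]
      linarith
    rw [e1]
    linarith
  -- integrate
  have I3 : IntegrableOn (fun v => mM Ψ (fun p => g p ^ 2 *
      ((s ^ 2)⁻¹ * ce p v (7 * s) ^ 2))) (Metric.ball x 12) := by
    unfold mM
    exact integrable_finsetSum _ fun i _ => (b3 i).1
  have I4 : IntegrableOn (fun v => mM Ψ (fun p => g p ^ 2 * q4 s p v)) (Metric.ball x 12) := by
    unfold mM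
    exact integrable_finsetSum _ fun i _ => (b4 i).1
  have I1 : IntegrableOn (fun v => mM Ψ (fun p => g p ^ 2 * u (p, v) ^ 2))
      (Metric.ball x 12) := by
    unfold mM
    exact integrable_finsetSum _ fun i _ => (b1 i).1
  have E1 : ∑ i, ∫ v in Metric.ball x 12, mean (Ψ i) (fun p => g p ^ 2 * u (p, v) ^ 2) =
      ∫ v in Metric.ball x 12, mM Ψ (fun p => g p ^ 2 * u (p, v) ^ 2) := by
    unfold mM
    exact (integral_finsetSum _ fun i _ => (b1 i).1).symm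
  have E3' : ∫ v in Metric.ball x 12, mM Ψ (fun p => g p ^ 2 *
      ((s ^ 2)⁻¹ * ce p v (7 * s) ^ 2)) = ∑ i, ∫ v in Metric.ball x 12,
        mean (Ψ i) (fun p => g p ^ 2 * ((s ^ 2)⁻¹ * ce p v (7 * s) ^ 2)) := by
    unfold mM
    exact integral_finsetSum _ fun i _ => (b3 i).1
  have E4 : ∫ v in Metric.ball x 12, mM Ψ (fun p => g p ^ 2 * q4 s p v) =
      mM Ψ (fun p => ∫ v in Metric.ball x 12, g p ^ 2 * q4 s p v) := by
    unfold mM
    rw [integral_finsetSum _ fun i _ => (b4 i).1]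
    exact sum_congr rfl fun i _ => (b4 i).2.2
  obtain ⟨c1, c2⟩ := wt_int3 x (a + mM Ψ (fun p => g p ^ 2 * (1 + A ^ 2 + (s ^ 8)⁻¹)))
    _ _ I3 I4
  have h4 : ∫ v in Metric.ball x 12, mM Ψ (fun p => g p ^ 2 * u (p, v) ^ 2) ≤
      ∫ v in Metric.ball x 12, C1 * (a + mM Ψ (fun p => g p ^ 2 * (1 + A ^ 2 + (s ^ 8)⁻¹)) +
        mM Ψ (fun p => g p ^ 2 * ((s ^ 2)⁻¹ * ce p v (7 * s) ^ 2)) +
        mM Ψ (fun p => g p ^ 2 * q4 s p v)) :=
    setIntegral_mono_on I1 (c1.const_mul C1) measurableSet_ball h3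
  rw [E1]
  refine h4.trans ?_
  rw [integral_const_mul]
  refine mul_le_mul_of_nonneg_left ?_ hC1
  rw [c2, E3', E4]
  have h6 : mM Ψ (fun p => ∫ v in Metric.ball x 12, g p ^ 2 * q4 s p v) ≤
      mM Ψ (fun p => g p ^ 2 * (C2 * (s⁻¹ * (ce p x 14 + cn p x 14) + tl 13 p x))) := by
    have i6 : ∀ i, IM (Ψ i) (fun p => C2 * (s⁻¹ * (ce p x 14 + cn p x 14) + tl 13 p x)) := by
      intro i
      refine IM.cmul C2 ((IM.cmul s⁻¹ ((IM_ce (hψ i) x 14).add (IM_cn (hψ i) x 14))).add ?_)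
      refine IM.bdd (hψ i) (wt_tl_meas x) (n + k) fun p => ?_
      rw [abs_of_nonneg (wt_tl_bd p x).1]
      exact (wt_tl_bd p x).2
    refine wt_mono (fun i => (b4 i).2.1) (fun i => wt_IM (hψ i) hg hg1 (i6 i)) fun p => ?_
    rw [integral_const_mul]
    exact mul_le_mul_of_nonneg_left (h2 p) (hg2 p).1
  linarith

private theorem wt_geo (m : ℕ) : ∑ l ∈ range (m + 1), ((64 : ℝ) ^ l)⁻¹ ≤ 2 - ((64 : ℝ) ^ m)⁻¹ := by
  induction m with
  | zero => norm_num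
  | succ m ih =>
    rw [sum_range_succ]
    have h1 : ((64 : ℝ) ^ (m + 1))⁻¹ = ((64 : ℝ) ^ m)⁻¹ / 64 := by
      rw [pow_succ, mul_inv]
      ring
    have h2 : 0 < ((64 : ℝ) ^ m)⁻¹ := by positivity
    rw [h1]
    linarith

private theorem wt_sum {ι : Type} [Fintype ι] {q n k : ℕ} {Λ : Set E3}
    {Ψ : ι → (Fin n → Fin q) → Cfg n k → ℂ}
    (hψ : ∀ i, Sm q n k Λ (Ψ i)) {θ : E3 → ℝ} (hθ : Cut θ) (x : E3) {Q : Cfg n k → ℝ}
    (hQ : ∀ i, IM (Ψ i) Q) (hQ0 : ∀ p, 0 ≤ Q p) :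
    ∑ l ∈ range (n + 1), mM Ψ (fun p => Gs θ x l p ^ 2 * Q p) ≤ 3 * mM Ψ Q := by
  unfold mM
  rw [sum_comm, mul_sum]
  refine sum_le_sum fun i _ => ?_
  have hi : ∀ l ∈ range (n + 1), IM (Ψ i) (fun p => Gs θ x l p ^ 2 * Q p) := fun l _ =>
    wt_IM (hψ i) (Gs_smooth hθ x l).continuous (Gs_mem x l) (hQ i)
  rw [← mean_sum _ hi, ← mean_cmul]
  refine mean_mono (IM.sum _ hi) ((hQ i).cmul 3) fun σ p _ => ?_
  rw [← sum_mul]
  refine mul_le_mul_of_nonneg_right ?_ (hQ0 p)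
  refine (sum_le_sum fun l _ => ?_).trans (Gs_sum_le (θ := θ) x p n)
  have h1 := Gs_mem (θ := θ) x l p
  nlinarith

private theorem wt_alg {V B C2 D ε n G g S2 S3 m4 mn mt ss X : ℝ} (hV : 0 ≤ V) (hB : 0 ≤ B)
    (hC2 : 0 ≤ C2) (hD : 0 ≤ D) (hε : ε * (n + 1) ^ 3 ≤ 1) (hG : G ≤ 2 - g) (hg : 0 < g)
    (h2 : S2 ≤ 3 * (B + 2 ^ 37 * m4)) (h3 : S3 ≤ 3 * (16 * mn + mt)) (n1 : 0 ≤ m4)
    (n2 : 0 ≤ mn) (n3 : 0 ≤ mt) (n4 : 0 ≤ ss)
    (hX : X = (n + 1) * (17 * ε * (n + 1) ^ 2)) :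
    V * (X + D * G) + V * S2 + ss + C2 * S3 ≤
      (V * (17 + 2 * D) + 3 * V * B + 3 * V * 2 ^ 37 + 1 + 48 * C2 + 3 * C2) *
        (1 + m4 + ss + mn + mt) := by
  have a1 : X ≤ 17 := by
    rw [hX]
    nlinarith
  have a2 : D * G ≤ 2 * D := by nlinarith
  have a3 : V * (X + D * G) ≤ V * (17 + 2 * D) :=
    mul_le_mul_of_nonneg_left (by linarith) hV
  have a4 : V * S2 ≤ V * (3 * (B + 2 ^ 37 * m4)) := mul_le_mul_of_nonneg_left h2 hV
  have a5 : C2 * S3 ≤ C2 * (3 * (16 * mn + mt)) := mul_le_mul_of_nonneg_left h3 hC2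
  obtain ⟨K, hK⟩ : ∃ K : ℝ, K = V * (17 + 2 * D) := ⟨_, rfl⟩
  have hK0 : 0 ≤ K := by
    rw [hK]
    positivity
  rw [← hK] at a3 ⊢
  have b1 : 0 ≤ V * B := mul_nonneg hV hB
  have b2 : 0 ≤ K * (m4 + ss + mn + mt) := by positivity
  have b3 : 0 ≤ V * B * (m4 + ss + mn + mt) := by positivity
  have b4 : 0 ≤ V * (1 + ss + mn + mt) := by positivity
  have b5 : 0 ≤ C2 * (1 + m4 + ss + mt) := by positivity
  have b6 : 0 ≤ C2 * (1 + m4 + ss + mn) := by positivity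
  have e1 : (K + 3 * V * B + 3 * V * 2 ^ 37 + 1 + 48 * C2 + 3 * C2) * (1 + m4 + ss + mn + mt) =
      (K + K * (m4 + ss + mn + mt)) + 3 * (V * B + V * B * (m4 + ss + mn + mt)) +
      3 * 2 ^ 37 * (V * m4 + V * (1 + ss + mn + mt)) + (1 + m4 + ss + mn + mt) +
      48 * (C2 * mn + C2 * (1 + m4 + ss + mt)) + 3 * (C2 * mt + C2 * (1 + m4 + ss + mn)) := by
    ring
  rw [e1]
  linarith

/-- the parameter `lam` in sector `l` -/
private theorem wt_lam (l : ℕ) : Real.exp (-((l : ℝ) * Real.log 64)) = ((64 : ℝ) ^ l)⁻¹ ∧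
    0 ≤ (l : ℝ) * Real.log 64 ∧ ((l : ℝ) * Real.log 64) ^ 2 ≤ 25 * (sc l ^ 8)⁻¹ := by
  have h64 : Real.log 64 = 6 * Real.log 2 := by
    rw [show (64 : ℝ) = 2 ^ 6 by norm_num, Real.log_pow]
    norm_num
  have hl2 := Real.log_two_lt_d9
  have hl0 : 0 < Real.log 2 := Real.log_pos (by norm_num)
  have hlog : Real.log 64 ≤ 5 := by
    rw [h64]
    linarith
  have hlog0 : 0 ≤ Real.log 64 := by
    rw [h64]
    linarith
  refine ⟨?_, by positivity, ?_⟩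
  · rw [Real.exp_neg, mul_comm, Real.exp_mul, Real.exp_log (by norm_num), Real.rpow_natCast]
  · have h1 : (l : ℝ) ≤ 2 ^ l := by exact_mod_cast Nat.lt_two_pow_self.le
    have h2 : (sc l ^ 8)⁻¹ = ((2 : ℝ) ^ (l + 3)) ^ 8 := by
      rw [← inv_pow, (wt_sc l).2.2]
    have h3 : (1 : ℝ) ≤ 2 ^ (l + 3) := one_le_pow₀ (by norm_num)
    have h4 : (l : ℝ) ^ 2 ≤ ((2 : ℝ) ^ (l + 3)) ^ 8 := by
      calc (l : ℝ) ^ 2 ≤ ((2 : ℝ) ^ (l + 3)) ^ 2 := by
            refine pow_le_pow_left₀ (Nat.cast_nonneg l) (h1.trans ?_) 2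
            exact pow_le_pow_right₀ (by norm_num) (by omega)
        _ ≤ ((2 : ℝ) ^ (l + 3)) ^ 8 := pow_le_pow_right₀ h3 (by norm_num)
    rw [h2, mul_pow]
    have h5 : Real.log 64 ^ 2 ≤ 25 := by nlinarith
    have h6 : 0 ≤ (l : ℝ) ^ 2 := sq_nonneg _
    nlinarith [mul_le_mul h4 h5 (sq_nonneg _) (by positivity : (0 : ℝ) ≤ ((2 : ℝ) ^ (l + 3)) ^ 8)]

theorem wwT (q : ℕ) (T zm zp κm κp A Kv : ℝ) (hT : 0 ≤ T) (hzm : 0 < zm) (hκm : 0 < κm)
    (hA : 0 ≤ A) (hKv : 0 ≤ Kv) {χ θ : E3 → ℝ} (hχ : Bump χ) (hθ : Cut θ) :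
    ∃ C : ℝ, 0 ≤ C ∧
    ∀ (ι : Type) (_ : Fintype ι) (n k : ℕ) (Λ : Set E3) (z κ : Fin k → ℝ) (W : Finset E3)
    (δ : ℝ) (Ψ : ι → (Fin n → Fin q) → Cfg n k → ℂ)
    (_ : Gt q T zm zp κm κp A Kv n k Λ z κ W δ Ψ) (_ : δ ≤ (((n : ℝ) + k + 1) ^ 4)⁻¹)
    (x : E3) (_ : Metric.closedBall x 14 ⊆ Λ),
    WM χ θ W z Ψ x ≤ C * (1 + mM Ψ (fun p => mm θ x p ^ (4 / 3 : ℝ)) + SM θ Ψ x +
      mM Ψ (fun p => (1 + mm θ x p ^ (1 / 6 : ℝ)) * (ce p x 14 + cn p x 14)) +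
      mM Ψ (fun p => tl 13 p x)) := by
  obtain ⟨C1, hC1, hsm⟩ := sm1T q T zm zp κm κp A Kv hT hzm hκm hA hKv hχ
  obtain ⟨C2, hC2, hq4⟩ := wt_q4
  obtain ⟨CG, hCG, hGg⟩ := Gs_grad hθ
  obtain ⟨Cu, hCu, hub⟩ := uh_bd hχ
  obtain ⟨V, hV⟩ : ∃ V : ℝ, V = (volume : Measure E3).real (Metric.ball 0 12) := ⟨_, rfl⟩
  have hV0 : 0 ≤ V := by
    rw [hV]
    exact measureReal_nonneg
  obtain ⟨B, hB⟩ : ∃ B : ℝ, B = 1 + 2 ^ 37 := ⟨_, rfl⟩
  have hB0 : 0 ≤ B := by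
    rw [hB]
    positivity
  obtain ⟨D, hD⟩ : ∃ D : ℝ, D = CG + CG ^ 2 + 1 := ⟨_, rfl⟩
  have hD0 : 0 ≤ D := by
    rw [hD]
    positivity
  refine ⟨C1 * (V * (17 + 2 * D) + 3 * V * B + 3 * V * 2 ^ 37 + 1 + 48 * C2 +
    3 * C2), by positivity, ?_⟩
  intro ι _ n k Λ z κ W δ Ψ hGt hδn x hxΛ
  have hz := hGt.hz
  have hzn := hGt.neu
  have hm1 : ∑ i, mass (Ψ i) = 1 := hGt.eq.one
  have hSm : ∀ i, Sm q n k Λ (Ψ i) := fun i => St_sm (hGt.eq.st i)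
  have hδ0 : 0 ≤ δ := hGt.hδ
  have hn0 : (0 : ℝ) ≤ n := Nat.cast_nonneg n
  have hk0 : (0 : ℝ) ≤ k := Nat.cast_nonneg k
  have hδn3 : δ * ((n : ℝ) + 1) ^ 3 ≤ 1 := by
    have h1 : (((n : ℝ) + k + 1) ^ 4)⁻¹ * ((n : ℝ) + 1) ^ 3 ≤ 1 := by
      rw [inv_mul_le_iff₀ (by positivity), mul_one]
      calc ((n : ℝ) + 1) ^ 3 ≤ ((n : ℝ) + 1) ^ 4 :=
            pow_le_pow_right₀ (by linarith) (by norm_num)
        _ ≤ ((n : ℝ) + k + 1) ^ 4 := pow_le_pow_left₀ (by positivity) (by linarith) 4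
    exact (mul_le_mul_of_nonneg_right hδn (by positivity)).trans h1
  obtain ⟨M4, hM4⟩ : ∃ M4 : Cfg n k → ℝ, M4 = fun p => mm θ x p ^ (4 / 3 : ℝ) := ⟨_, rfl⟩
  obtain ⟨M1, hM1⟩ : ∃ M1 : Cfg n k → ℝ, M1 = fun p => mm θ x p ^ (1 / 6 : ℝ) := ⟨_, rfl⟩
  obtain ⟨N, hN⟩ : ∃ N : Cfg n k → ℝ, N = fun p => ce p x 14 + cn p x 14 := ⟨_, rfl⟩
  obtain ⟨Tl, hTl⟩ : ∃ Tl : Cfg n k → ℝ, Tl = fun p => tl 13 p x := ⟨_, rfl⟩
  have hM40 : ∀ p, 0 ≤ M4 p := fun p => by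
    rw [hM4]
    exact Real.rpow_nonneg (wt_mm0 θ x p) _
  have hM10 : ∀ p, 0 ≤ M1 p := fun p => by
    rw [hM1]
    exact Real.rpow_nonneg (wt_mm0 θ x p) _
  have hN0 : ∀ p, 0 ≤ N p := fun p => by
    rw [hN]
    exact add_nonneg (ce_nonneg p x _) (cn_nonneg p x _)
  have hT0 : ∀ p, 0 ≤ Tl p := fun p => by
    rw [hTl]
    exact (wt_tl_bd p x).1
  have hmc : Continuous (mm (n := n) (k := k) θ x) := (mm_smooth hθ x).continuous
  have iM4 : ∀ i, IM (Ψ i) M4 := by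
    intro i
    rw [hM4]
    exact IM.cont (hSm i) (hmc.rpow_const fun _ => Or.inr (by norm_num))
  have cM1 : Continuous M1 := by
    rw [hM1]
    exact hmc.rpow_const fun _ => Or.inr (by norm_num)
  have mN : Measurable N := by
    rw [hN]
    exact (ce_meas x 14).add (cn_meas x 14)
  have iMN : ∀ i, IM (Ψ i) (fun p => (1 + M1 p) * N p) := by
    intro i
    have h1 : IM (Ψ i) (fun p => 1 + M1 p) := IM.cont (hSm i) (continuous_const.add cM1)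
    have h2 := h1.bmul mN (n + k) fun p => by
      rw [abs_of_nonneg (hN0 p), hN]
      exact add_le_add (ce_le p x _) (cn_le p x _)
    exact h2.congr fun σ p _ => mul_comm _ _
  have iT : ∀ i, IM (Ψ i) Tl := by
    intro i
    rw [hTl]
    refine IM.bdd (hSm i) (wt_tl_meas x) (n + k) fun p => ?_
    rw [abs_of_nonneg (wt_tl_bd p x).1]
    exact (wt_tl_bd p x).2
  have i1 : ∀ i, IM (Ψ i) (fun _ => (1 : ℝ)) := fun i => IM.cont (hSm i) continuous_const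
  have hQ1 : ∀ i, IM (Ψ i) (fun p => B + 2 ^ 37 * M4 p) := by
    intro i
    have h1 := ((i1 i).cmul B).add ((iM4 i).cmul (2 ^ 37))
    refine h1.congr fun σ p _ => ?_
    rw [mul_one]
  have hQ2 : ∀ i, IM (Ψ i) (fun p => 16 * ((1 + M1 p) * N p) + Tl p) :=
    fun i => ((iMN i).cmul 16).add (iT i)
  have hQ10 : ∀ p, 0 ≤ B + 2 ^ 37 * M4 p := fun p => by
    have := hM40 p
    positivity
  have hQ20 : ∀ p, 0 ≤ 16 * ((1 + M1 p) * N p) + Tl p := fun p => by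
    have h1 := hM10 p
    have h2 := hN0 p
    have h3 := hT0 p
    positivity
  -- one sector
  obtain ⟨S, hS⟩ : ∃ S : ℕ → ℝ, S = fun l => ∑ i, ∫ v in Metric.ball x 12,
    mean (Ψ i) (fun p => Gs θ x l p ^ 2 * ((sc l ^ 2)⁻¹ * ce p v (7 * sc l) ^ 2)) := ⟨_, rfl⟩
  have hS0 : ∀ l, 0 ≤ S l := fun l => by
    rw [hS]
    exact sum_nonneg fun i _ =>
      integral_nonneg fun v => mean_nonneg fun σ p _ => by positivity
  have hsec : ∀ l ∈ range (n + 1), ∑ i, ∫ v in Metric.ball x 12,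
      mean (Ψ i) (fun p => Gs θ x l p ^ 2 * uh χ (sc l) W z p v ^ 2) ≤
      C1 * (V * (17 * δ * ((n : ℝ) + 1) ^ 2 + D * ((64 : ℝ) ^ l)⁻¹) +
        V * mM Ψ (fun p => Gs θ x l p ^ 2 * (B + 2 ^ 37 * M4 p)) + S l +
        C2 * mM Ψ (fun p => Gs θ x l p ^ 2 * (16 * ((1 + M1 p) * N p) + Tl p))) := by
    intro l _
    obtain ⟨hs0, hs1, -⟩ := wt_sc l
    obtain ⟨hlam, hlam0, hlam2⟩ := wt_lam l
    have h64 : 0 < ((64 : ℝ) ^ l)⁻¹ ∧ ((64 : ℝ) ^ l)⁻¹ ≤ 1 :=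
      ⟨by positivity, inv_le_one_of_one_le₀ (one_le_pow₀ (by norm_num))⟩
    have hm1' : 0 ≤ mM Ψ (fun p => Gs θ x l p ^ 2 * (B + 2 ^ 37 * M4 p)) :=
      wt_nonneg fun p => mul_nonneg (sq_nonneg _) (hQ10 p)
    have hm2' : 0 ≤ mM Ψ (fun p => Gs θ x l p ^ 2 * (16 * ((1 + M1 p) * N p) + Tl p)) :=
      wt_nonneg fun p => mul_nonneg (sq_nonneg _) (hQ20 p)
    have hSl := hS0 l
    by_cases hz0 : ∀ p : Cfg n k, Gs θ x l p = 0
    · have e1 : ∀ (i : ι) (v : E3),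
          mean (Ψ i) (fun p => Gs θ x l p ^ 2 * uh χ (sc l) W z p v ^ 2) = 0 := by
        intro i v
        have e2 : mean (Ψ i) (fun p => Gs θ x l p ^ 2 * uh χ (sc l) W z p v ^ 2) =
            mean (Ψ i) (fun _ => 0) := mean_congr fun σ p _ => by
          rw [hz0 p]
          ring
        rw [e2, mean_const, zero_mul]
      simp only [e1, integral_zero, sum_const_zero]
      have h1 := h64.1.le
      positivity
    · push Not at hz0
      obtain ⟨p0, hp0⟩ := hz0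
      have hsn : (sc l)⁻¹ ≤ 16 * ((n : ℝ) + 1) := (wt_sec hθ x l p0 hp0).2.2
      have hcg : Continuous (Gs (n := n) (k := k) θ x l) := (Gs_smooth hθ x l).continuous
      have hgm : ∀ p : Cfg n k, 0 ≤ Gs θ x l p ∧ Gs θ x l p ≤ 1 := Gs_mem x l
      have h1 := wt_term hSm x hcg hgm hs0 (uh_joint hχ (sc l) hs0 W z)
        (M := Cu * n * (sc l)⁻¹)
        (fun p v => hub n k z (fun j => hzm.le.trans (hz j).1) hzn W (sc l) hs0 hs1 p v)
        (A := (l : ℝ) * Real.log 64) (a := δ * (1 + n * (sc l)⁻¹) + CG * ((64 : ℝ) ^ l)⁻¹ +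
          (CG * ((64 : ℝ) ^ l)⁻¹) ^ 2 + Real.exp (-((l : ℝ) * Real.log 64)))
        (C1 := C1) (C2 := C2) hC1
        (fun v hv => by
          refine hsm ι _ n k Λ z κ W δ Ψ hGt (Gs θ x l)
            (Gs_smooth hθ x l) (Gs_sy x l) hgm (CG * ((64 : ℝ) ^ l)⁻¹) (by positivity)
            (fun p => hGg n k κ x l p) ((l : ℝ) * Real.log 64) hlam0 (sc l) hs0 hs1 v ?_
          refine (Metric.closedBall_subset_closedBall' ?_).trans hxΛ
          rw [Metric.mem_ball] at hv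
          linarith)
        (fun p => hq4 n k (sc l) hs0 p x)
      refine h1.trans (mul_le_mul_of_nonneg_left ?_ hC1)
      rw [← hV]
      have e0 : (∑ i, ∫ v in Metric.ball x 12, mean (Ψ i) (fun p => Gs θ x l p ^ 2 *
          ((sc l ^ 2)⁻¹ * ce p v (7 * sc l) ^ 2))) = S l := by
        rw [hS]
      rw [e0]
      have e1 : δ * (1 + n * (sc l)⁻¹) + CG * ((64 : ℝ) ^ l)⁻¹ +
          (CG * ((64 : ℝ) ^ l)⁻¹) ^ 2 + Real.exp (-((l : ℝ) * Real.log 64)) ≤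
          17 * δ * ((n : ℝ) + 1) ^ 2 + D * ((64 : ℝ) ^ l)⁻¹ := by
        have f1 : (n : ℝ) * (sc l)⁻¹ ≤ n * (16 * (n + 1)) := mul_le_mul_of_nonneg_left hsn hn0
        have f2 : δ * (1 + n * (sc l)⁻¹) ≤ δ * (17 * ((n : ℝ) + 1) ^ 2) := by
          refine mul_le_mul_of_nonneg_left ?_ hδ0
          nlinarith
        have f3 : (CG * ((64 : ℝ) ^ l)⁻¹) ^ 2 ≤ CG ^ 2 * ((64 : ℝ) ^ l)⁻¹ := by
          rw [mul_pow]
          refine mul_le_mul_of_nonneg_left ?_ (sq_nonneg _)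
          have f4 := h64.1
          have f5 := h64.2
          nlinarith
        rw [hlam, hD]
        calc _ ≤ δ * (17 * ((n : ℝ) + 1) ^ 2) + CG * ((64 : ℝ) ^ l)⁻¹ +
              CG ^ 2 * ((64 : ℝ) ^ l)⁻¹ + ((64 : ℝ) ^ l)⁻¹ := by linarith
          _ = _ := by ring
      have e2 : mM Ψ (fun p => Gs θ x l p ^ 2 *
          (1 + ((l : ℝ) * Real.log 64) ^ 2 + (sc l ^ 8)⁻¹)) ≤
          mM Ψ (fun p => Gs θ x l p ^ 2 * (B + 2 ^ 37 * M4 p)) := by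
        refine wt_mono (fun i => IM.cont (hSm i) ((hcg.pow 2).mul continuous_const))
          (fun i => wt_IM (hSm i) hcg hgm (hQ1 i)) fun p => ?_
        by_cases hgp : Gs θ x l p = 0
        · rw [hgp]
          simp
        · refine mul_le_mul_of_nonneg_left ?_ (sq_nonneg _)
          have f1 := (wt_sec hθ x l p hgp).2.1
          rw [hB, hM4]
          have f2 : (0 : ℝ) ≤ mm θ x p ^ (4 / 3 : ℝ) := Real.rpow_nonneg (wt_mm0 θ x p) _
          have f3 : (2 : ℝ) ^ 37 = 32 * 2 ^ 32 := by norm_num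
          rw [f3]
          linarith
      have e3 : mM Ψ (fun p => Gs θ x l p ^ 2 * (C2 * ((sc l)⁻¹ * (ce p x 14 + cn p x 14) +
          tl 13 p x))) ≤
          C2 * mM Ψ (fun p => Gs θ x l p ^ 2 * (16 * ((1 + M1 p) * N p) + Tl p)) := by
        rw [← wt_cmul]
        refine wt_mono (fun i => ?_) (fun i => (wt_IM (hSm i) hcg hgm (hQ2 i)).cmul C2)
          fun p => ?_
        · refine wt_IM (hSm i) hcg hgm (IM.cmul C2 ((IM.cmul (sc l)⁻¹ ((IM_ce (hSm i) x 14).add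
            (IM_cn (hSm i) x 14))).add ?_))
          have := iT i
          rw [hTl] at this
          exact this
        by_cases hgp : Gs θ x l p = 0
        · rw [hgp]
          simp
        · have f1 := (wt_sec hθ x l p hgp).1
          have f2 := hN0 p
          have f3 : (sc l)⁻¹ * (ce p x 14 + cn p x 14) ≤ 16 * ((1 + M1 p) * N p) := by
            have f4 := mul_le_mul_of_nonneg_right f1 f2
            rw [hM1]
            rw [hN] at f4 ⊢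
            linarith
          have f4 : C2 * ((sc l)⁻¹ * (ce p x 14 + cn p x 14) + tl 13 p x) ≤
              C2 * (16 * ((1 + M1 p) * N p) + Tl p) := by
            refine mul_le_mul_of_nonneg_left ?_ hC2
            rw [hTl]
            exact add_le_add f3 le_rfl
          calc _ ≤ Gs θ x l p ^ 2 * (C2 * (16 * ((1 + M1 p) * N p) + Tl p)) :=
                mul_le_mul_of_nonneg_left f4 (sq_nonneg _)
            _ = _ := by ring
      have e4 := mul_le_mul_of_nonneg_right (add_le_add e1 e2) hV0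
      linarith
  -- the sum
  have h0 : WM χ θ W z Ψ x = ∑ l ∈ range (n + 1), ∑ i, ∫ v in Metric.ball x 12,
      mean (Ψ i) (fun p => Gs θ x l p ^ 2 * uh χ (sc l) W z p v ^ 2) := by
    unfold WM WW
    exact sum_comm
  have h1 : WM χ θ W z Ψ x ≤ ∑ l ∈ range (n + 1),
      C1 * (V * (17 * δ * ((n : ℝ) + 1) ^ 2 + D * ((64 : ℝ) ^ l)⁻¹) +
        V * mM Ψ (fun p => Gs θ x l p ^ 2 * (B + 2 ^ 37 * M4 p)) + S l +
        C2 * mM Ψ (fun p => Gs θ x l p ^ 2 * (16 * ((1 + M1 p) * N p) + Tl p))) := by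
    rw [h0]
    exact sum_le_sum hsec
  refine h1.trans ?_
  have hsX : ∑ l ∈ range (n + 1), (17 * δ * ((n : ℝ) + 1) ^ 2 +
      D * ((64 : ℝ) ^ l)⁻¹) = ((n + 1 : ℕ) : ℝ) * (17 * δ * ((n : ℝ) + 1) ^ 2) +
      D * ∑ l ∈ range (n + 1), ((64 : ℝ) ^ l)⁻¹ := by
    rw [sum_add_distrib, sum_const, card_range, nsmul_eq_mul, mul_sum]
  rw [← mul_sum, sum_add_distrib, sum_add_distrib, sum_add_distrib, ← mul_sum, ← mul_sum,
    ← mul_sum, hsX]
  have s1 := wt_geo n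
  have s2 := wt_sum hSm hθ x hQ1 hQ10
  have s3 := wt_sum hSm hθ x hQ2 hQ20
  have s4 : ∑ l ∈ range (n + 1), S l = SM θ Ψ x := by
    rw [hS]
    unfold SM SS
    exact sum_comm
  have s5 : mM Ψ (fun p => B + 2 ^ 37 * M4 p) = B + 2 ^ 37 * mM Ψ M4 := by
    have f1 : mM Ψ (fun p => B + 2 ^ 37 * M4 p) = mM Ψ (fun _ => B) +
        mM Ψ (fun p => 2 ^ 37 * M4 p) :=
      wt_add (fun i => IM.cont (hSm i) continuous_const) (fun i => (iM4 i).cmul _)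
    rw [f1, wt_const B hm1, wt_cmul]
  have s6 : mM Ψ (fun p => 16 * ((1 + M1 p) * N p) + Tl p) =
      16 * mM Ψ (fun p => (1 + M1 p) * N p) + mM Ψ Tl := by
    rw [wt_add (fun i => (iMN i).cmul 16) iT, wt_cmul]
  have s7 : mM Ψ (fun p => (1 + M1 p) * N p) = mM Ψ (fun p => (1 + mm θ x p ^ (1 / 6 : ℝ)) *
      (ce p x 14 + cn p x 14)) := by
    rw [hM1, hN]
  have s8 : 0 < ((64 : ℝ) ^ n)⁻¹ := by positivity
  rw [s5] at s2
  rw [s6] at s3
  rw [s4, ← s7]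
  have t4 : mM Ψ (fun p => mm θ x p ^ (4 / 3 : ℝ)) = mM Ψ M4 := by rw [hM4]
  have t5 : mM Ψ (fun p => tl 13 p x) = mM Ψ Tl := by rw [hTl]
  rw [t4, t5]
  have n1 : 0 ≤ mM Ψ M4 := wt_nonneg hM40
  have n2 : 0 ≤ mM Ψ (fun p => (1 + M1 p) * N p) := wt_nonneg fun p =>
    mul_nonneg (by linarith [hM10 p]) (hN0 p)
  have n3 : 0 ≤ mM Ψ Tl := wt_nonneg hT0
  have n4 : 0 ≤ SM θ Ψ x := by
    rw [← s4]
    exact sum_nonneg fun l _ => hS0 l
  rw [mul_assoc C1]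
  refine mul_le_mul_of_nonneg_left ?_ hC1
  have hX : ((n + 1 : ℕ) : ℝ) * (17 * δ * ((n : ℝ) + 1) ^ 2) =
      ((n : ℝ) + 1) * (17 * δ * ((n : ℝ) + 1) ^ 2) := by
    rw [Nat.cast_add, Nat.cast_one]
  exact wt_alg hV0 hB0 hC2 hD0 hδn3 s1 s8 s2 s3 n1 n2 n3 n4 hX

end H6.CT
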